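import Pool.Agent.NUO.Obj
import Pool.Agent.NUP1L.LegDefs

/-!
# Spectators of TARGET-C: moduli of their factors (board/GAM G3, helper99)

A spectator is a function `f : Bool → ℂ → ℝ`, the modulus of its factor on a quantum of species `s`
at `u`.  A string `(w, w - l)` is two quanta.
-/

set_option autoImplicit false

noncomputable section

open Complex MeasureTheory Finset

namespace NUGC

open NUO NUP1

/-- modulus of the factor of a spectator on a constituent -/
def fac (f : Bool → ℂ → ℝ) (c : Bool × Bool × ℂ) : ℝ :=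
  if c.2.1 then f c.1 c.2.2 * f c.1 (c.2.2 - l) else f c.1 c.2.2

/-- modulus of the factor of a spectator on a list of constituents -/
def facL (f : Bool → ℂ → ℝ) (A : List (Bool × Bool × ℂ)) : ℝ := (A.map (fac f)).prod

/-- half quantum of species `a` at `w` -/
def hq (a : Bool) (w : ℂ) : Bool → ℂ → ℝ := fun s u =>
  if s = a then ‖Leg.Ck (w - u)‖ else ‖Leg.Dk (w - u)‖

/-- quantum of species `a` at `v` -/
def sq (a : Bool) (v : ℂ) : Bool → ℂ → ℝ := fun s u => if s = a then ‖q (v - u)‖ else ‖Bd.qg (v - u)‖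

/-- product of two spectators -/
theorem facL_mul (f g : Bool → ℂ → ℝ) (A : List (Bool × Bool × ℂ)) :
    facL (fun s u => f s u * g s u) A = facL f A * facL g A := by
  unfold facL
  induction A with
  | nil => simp
  | cons c A ih =>
    rw [List.map_cons, List.map_cons, List.map_cons, List.prod_cons, List.prod_cons,
      List.prod_cons, ih]
    unfold fac
    split_ifs <;> ring

theorem fac_nonneg {f : Bool → ℂ → ℝ} (hf : ∀ s u, 0 ≤ f s u) (c : Bool × Bool × ℂ) :
    0 ≤ fac f c := by
  unfold fac
  split_ifs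
  · exact mul_nonneg (hf _ _) (hf _ _)
  · exact hf _ _

theorem facL_nonneg {f : Bool → ℂ → ℝ} (hf : ∀ s u, 0 ≤ f s u) (A : List (Bool × Bool × ℂ)) :
    0 ≤ facL f A := by
  unfold facL
  refine List.prod_nonneg fun x hx => ?_
  obtain ⟨c, _, rfl⟩ := List.mem_map.1 hx
  exact fac_nonneg hf c

theorem hq_nonneg (a : Bool) (w : ℂ) (s : Bool) (u : ℂ) : 0 ≤ hq a w s u := by
  unfold hq
  split_ifs <;> exact norm_nonneg _

theorem sq_nonneg' (a : Bool) (v : ℂ) (s : Bool) (u : ℂ) : 0 ≤ sq a v s u := by
  unfold sq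
  split_ifs <;> exact norm_nonneg _

end NUGC

end
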