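import Pool.Agent.NUGC.DefC
import Pool.Agent.NUGC.Spec

/-!
# Spectators as factors of the one body weights (TARGET-C)

* `OB.mul B h`: the one body data with one more spectator `h`;
* `ob1c_mul`: `ob1c (B.mul h) = ob1c B * facL h parts`; `prod_ob1c_mul`: all objects;
* `obC_mul`, `obC_split`: `obC` with a product of spectators.
-/

set_option autoImplicit false

noncomputable section

open Finset

namespace NUGC

open NUO NUP1

/-- the one body data with one more spectator -/
def OB.mul (B : OB) (h : Bool → ℂ → ℝ) : OB := ⟨fun a u => B.R a u * h a u, B.φ, B.φ0⟩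

/-- **a spectator is a factor of the weight of an object** -/
theorem ob1c_mul (B : OB) (h : Bool → ℂ → ℝ) (jL e ρ : ℝ) (x : Xo) :
    ob1c (B.mul h) jL e ρ x = ob1c B jL e ρ x * facL h (parts jL e ρ x) := by
  unfold ob1c parts facL fac oSc OB.mul
  rcases hk : kd x with _ | _ | _ | _ | _
  · simp only [List.map_cons, List.map_nil, List.prod_cons, List.prod_nil, if_false,
      Bool.false_eq_true]
    ring
  · simp only [List.map_cons, List.map_nil, List.prod_cons, List.prod_nil, if_true]
    ring
  · simp only [List.map_cons, List.map_nil, List.prod_cons, List.prod_nil, if_true]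
    ring
  · simp only [List.map_cons, List.map_nil, List.prod_cons, List.prod_nil, if_true, if_false,
      Bool.false_eq_true]
    ring
  · simp only [List.map_cons, List.map_nil, List.prod_cons, List.prod_nil, if_true, if_false,
      Bool.false_eq_true]
    ring

/-- all objects of a configuration -/
theorem prod_ob1c_mul (B : OB) (h : Bool → ℂ → ℝ) (P : Par) {r : ℕ} (O : Fin r → Xo) :
    ∏ i, ob1c (B.mul h) P.jL (ei P O i) (rr P O i) (O i) =
      (∏ i, ob1c B P.jL (ei P O i) (rr P O i) (O i)) * ∏ i, facL h (cons P O i) := by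
  rw [← prod_mul_distrib]
  exact prod_congr rfl fun i _ => ob1c_mul B h _ _ _ _

/-- `obC` with a product of spectators -/
theorem obC_mul (κ : ℝ) (M : ℕ) (β : ℝ) (g h : Bool → ℂ → ℝ) :
    obC κ M β (fun a u => g a u * h a u) = (obC κ M β g).mul h := by
  unfold obC OB.mul
  simp only [mul_assoc]

/-- the ends and the spectators -/
theorem obC_ThN (κ : ℝ) (M : ℕ) (β : ℝ) (g : Bool → ℂ → ℝ) :
    obC κ M β g = (obC κ M β fun _ _ => 1).mul g := by
  unfold obC OB.mul
  simp only [mul_one]

theorem OB.mul_mul (B : OB) (g h : Bool → ℂ → ℝ) :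
    (B.mul g).mul h = B.mul fun a u => g a u * h a u := by
  unfold OB.mul
  simp only [mul_assoc]

theorem OB.Nn.mul {B : OB} (hB : B.Nn) {h : Bool → ℂ → ℝ} (hh : ∀ a u, 0 ≤ h a u) :
    (B.mul h).Nn := fun a u => mul_nonneg (hB a u) (hh a u)

end NUGC

end
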