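import Pool.Agent.NUCR.DefB
import Pool.Agent.NUO.OneW

/-!
# TARGET-C: the positive gas with objects for two one body families and numbers `(nX, nY)`

Everything of `NUCR/DefB` for a pair of row factors `R : Bool → ℂ → ℝ` (species `true = X`,
`false = Y`; activity and spectators included), a cutoff `φ` of the quanta, a cutoff `φ0` of the
strings, and numbers `nX`, `nY` of quanta.

* `OB`: the one body data; `Fnc`: the term of a configuration; `Fng_eq`: TARGET-B is an instance;
* `prN`, `Rrow`: modulus of the factor of one pair of rows at `± l / 2`, row factor for a real number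
  of pairs; `PsiP`, `phP`: the cutoff of the pairs;
* `R4gen`, `PerGen`: representation of a class by terms, tilted bound of one term;
* `R4Cof`: the representation corollary of one class, `PerCof`: the tilted bound of one
  configuration (`NUGC/GlueC`: `glue_gen`, `glue_class`).
-/

set_option autoImplicit false

noncomputable section

open MeasureTheory Finset
open scoped ENNReal

namespace NUGC

open NUO NUP1 NUCR

/-- one body data: row factors of the two species (activity and spectators included), cutoff of the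
quanta, cutoff of the strings -/
structure OB where
  /-- row factor of a quantum of the species -/
  R : Bool → ℂ → ℝ
  /-- cutoff of a quantum -/
  φ : ℂ → ℂ
  /-- cutoff of a string, function of its upper quantum -/
  φ0 : ℂ → ℂ

/-- modulus of the weight of a string of species `a` of `S`, `Sv`, `Svv` -/
def oSc (B : OB) (a : Bool) (w : ℂ) : ℝ := aS * (B.R a w * B.R a (w - l)) * ‖B.φ0 w‖

/-- modulus of the one body weight of an object -/
def ob1c (B : OB) (jL e ρ : ℝ) (x : Xo) : ℝ :=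
  match NUO.kd x with
  | .L => (2 * Real.pi)⁻¹ * (B.R (sp x) (posL jL (ht x)) * ‖B.φ (posL jL (ht x))‖)
  | .St => aS * (B.R (sp x) (posT (ht x)) * B.R (sp x) (posT (ht x) - l)) *
      ‖B.φ (posT (ht x)) * B.φ (posT (ht x) - l) - B.φ0 (posT (ht x))‖
  | .S => oSc B (sp x) (posS e (ht x))
  | .Sv => oSc B (sp x) (posS e (ht x)) * (ρ * (B.R (!sp x) (posV e ρ (ht x) (an x)) *
      ‖B.φ (posV e ρ (ht x) (an x))‖) *
      ‖Kn.cz false true (posV e ρ (ht x) (an x) - posS e (ht x))‖)
  | .Svv => oSc B (sp x) (posS e (ht x)) * (4 * Real.cos l ^ 2 *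
      (B.R (!sp x) (posS e (ht x) + 2 * l) * ‖B.φ (posS e (ht x) + 2 * l)‖ /
        Real.sin (5 * l) ^ 2) ^ 2)

/-- modulus of the weight of the configuration without the quanta on `A'` -/
def objWc (B : OB) (P : Par) {r : ℕ} (O : Fin r → Xo) : ℝ :=
  (∏ i, ob1c B P.jL (ei P O i) (rr P O i) (O i)) *
    ∏ i, ∏ j, if i < j then pairN P O i j else 1

/-- one body factor of a quantum of species `a` on `A'`, with the potentials of the objects -/
def qAc (B : OB) (P : Par) (η : ℝ → ℝ) {r : ℕ} (O : Fin r → Xo) (a : Bool) (t : ℝ) : ℝ :=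
  (2 * Real.pi)⁻¹ * (B.R a (NUO.pA η t) * ‖B.φ (NUO.pA η t)‖) * ∏ i, potN P O i a (NUO.pA η t)

/-- the positive gas of `p` quanta X and `q` quanta Y on `A'` -/
def Z1c (B : OB) (P : Par) (η η' : ℝ → ℝ) {r : ℕ} (O : Fin r → Xo) (p q : ℕ) : ℝ≥0∞ :=
  ((p.factorial : ℝ≥0∞) * q.factorial)⁻¹ * ∫⁻ x : (Fin p → ℝ) × (Fin q → ℝ),
    ENNReal.ofReal (NU42.WO (dA η) (dA η') (dA η) (dA η') (qAc B P η O true)
      (qAc B P η O false) x.1 x.2)

/-- the term of the configuration `O` with `nX` quanta X and `nY` quanta Y -/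
def Fnc (B : OB) (P : Par) (η η' : ℝ → ℝ) (nX nY : ℕ) {r : ℕ} (O : Fin r → Xo) : ℝ≥0∞ :=
  if chgO O true ≤ nX ∧ chgO O false ≤ nY then
    ENNReal.ofReal (objWc B P O) * Z1c B P η η' O (nX - chgO O true) (nY - chgO O false)
  else 0

/-- TARGET-B is an instance -/
theorem Fng_eq (R : ℂ → ℝ) (M : ℕ) (β : ℝ) (P : Par) (η η' : ℝ → ℝ) (n : ℕ) {r : ℕ}
    (O : Fin r → Xo) :
    Fng R M β P η η' n O = Fnc ⟨fun _ => R, ph M β, ph M (4 / 3)⟩ P η η' n n O := rfl

/-- nonnegative row factors -/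
def OB.Nn (B : OB) : Prop := ∀ a u, 0 ≤ B.R a u

theorem ob1c_nonneg {B : OB} (hB : B.Nn) (jL e : ℝ) {ρ : ℝ} (hρ : 0 ≤ ρ) (x : Xo) :
    0 ≤ ob1c B jL e ρ x := by
  have haS : 0 ≤ aS := aS_pos.le
  have hoS : ∀ a w, 0 ≤ oSc B a w := by
    intro a w
    unfold oSc
    have h1 := hB a w
    have h2 := hB a (w - l)
    positivity
  unfold ob1c
  rcases h : kd x with _ | _ | _ | _ | _
  · have h1 := hB (sp x) (posL jL (ht x))
    simp only
    positivity
  · have h1 := hB (sp x) (posT (ht x))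
    have h2 := hB (sp x) (posT (ht x) - l)
    simp only
    positivity
  · exact hoS _ _
  · have h1 := hoS (sp x) (posS e (ht x))
    have h2 := hB (!sp x) (posV e ρ (ht x) (an x))
    simp only
    positivity
  · have h1 := hoS (sp x) (posS e (ht x))
    have h2 := hB (!sp x) (posS e (ht x) + 2 * l)
    simp only
    positivity

theorem objWc_nonneg {B : OB} (hB : B.Nn) {P : Par} (hr : ∀ r t, 0 ≤ P.rad r t) {r : ℕ}
    (O : Fin r → Xo) : 0 ≤ objWc B P O := by
  unfold objWc
  refine mul_nonneg (prod_nonneg fun i _ => ob1c_nonneg hB _ _ (hr _ _) _) ?_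
  refine prod_nonneg fun i _ => prod_nonneg fun j _ => ?_
  split_ifs
  · exact pairN_nonneg _ _ _ _
  · exact zero_le_one

/-! ### rows at `± l / 2` -/

/-- modulus of the factor of one row at `x` on a quantum at `u`, both groups -/
def rwN (x : ℝ) (u : ℂ) : ℝ :=
  ‖Complex.sin (u - x + 3 * l)‖ ^ 2 / (‖Complex.sin (u - x)‖ * ‖Complex.sin (u - x - 2 * l)‖)

/-- modulus of the factor of a pair of rows at `± l / 2` -/
def prN (u : ℂ) : ℝ := rwN (l / 2) u * rwN (-(l / 2)) u

/-- row factor (activity included) for the real number `κ` of pairs of rows at `± l / 2` in each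
group -/
def Rrow (κ : ℝ) (u : ℂ) : ℝ := 2 * Real.cos l * prN u ^ κ

/-- cutoff of a pair of rows -/
def PsiP (β : ℝ) (u : ℂ) : ℂ := psi β (u - (l / 2 : ℝ)) * psi β (u + (l / 2 : ℝ))

/-- the cutoff factor with `M` pairs -/
def phP (M : ℕ) (β : ℝ) (u : ℂ) : ℂ := 1 - PsiP β u ^ M

theorem rwN_nonneg (x : ℝ) (u : ℂ) : 0 ≤ rwN x u := by unfold rwN; positivity

theorem prN_nonneg (u : ℂ) : 0 ≤ prN u := mul_nonneg (rwN_nonneg _ _) (rwN_nonneg _ _)

theorem cosl_nonneg : 0 ≤ Real.cos l := by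
  refine Real.cos_nonneg_of_mem_Icc ⟨?_, ?_⟩ <;> unfold l <;> linarith [Real.pi_pos]

theorem Rrow_nonneg (κ : ℝ) (u : ℂ) : 0 ≤ Rrow κ u := by
  unfold Rrow
  have := cosl_nonneg
  have := Real.rpow_nonneg (prN_nonneg u) κ
  positivity

/-- the one body data of TARGET-C with spectator factors `g a` (moduli, species `a`) -/
def obC (κ : ℝ) (M : ℕ) (β : ℝ) (g : Bool → ℂ → ℝ) : OB where
  R a u := Rrow κ u * g a u
  φ := phP M β
  φ0 := phP M (4 / 3)

theorem obC_nn {κ : ℝ} {M : ℕ} {β : ℝ} {g : Bool → ℂ → ℝ} (hg : ∀ a u, 0 ≤ g a u) :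
    (obC κ M β g).Nn := fun a u => mul_nonneg (Rrow_nonneg κ u) (hg a u)

/-! ### one class -/

/-- a term of the representation: number of quanta, number of objects, configuration, curve -/
abbrev Term : Type := ℕ → (r : ℕ) → (Fin r → Xo) → (ℝ → ℝ) → (ℝ → ℝ) → ℝ≥0∞

/-- **representation of a class by terms**, curve depending on the objects (`a` extra quanta) -/
def R4gen (ep : ℝ) (a : ℕ) (T : Term) (Z : ℕ → ℂ) : Prop :=
  ∀ η η' : (r : ℕ) → (Fin r → Xo) → ℝ → ℝ,
    (∀ (r : ℕ) (O : Fin r → Xo), CurB ep (η r O) (η' r O)) → ∀ n : ℕ,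
    ‖Z n‖ₑ ≤ ∑ r ∈ range (2 * n + a + 1), ((r.factorial : ℝ≥0∞))⁻¹ *
      ∫⁻ O : Fin r → Xo, T n r O (η r O) (η' r O) ∂(Measure.pi fun _ => nu)

/-- **the tilted bound of one term** with the prefactor `Q` (mean field value, power of `m`,
localisation of the half quanta), `ν` the mean number of quanta, `N` a bound of the numbers -/
def PerGen (C C' c b : ℝ) (k : ℕ) (c1 c' L ep e1 J ν d : ℝ) (N a : ℕ) (T : Term) (Q : ℝ) : Prop :=
  ∀ n ≤ N, ∀ b' : ℝ, b' = d ∨ b' = -d → ∀ r ≤ 2 * n + a, ∀ O : Fin r → Xo,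
    ∃ η η' : ℝ → ℝ, CurB ep η η' ∧ ∀ W : Finset ℤ,
      ENNReal.ofReal (Real.exp (b' * (ν - n))) * T n r O η η' ≤
        ENNReal.ofReal (Q * (if (r : ℝ) ≤ L then 1 else Real.exp (c' * L)) *
          (∏ i, act C C' c b k L ep e1 J r (ht (O i))) *
          Real.exp (-(c1 * ∑ w ∈ W, (cO O w : ℝ) ^ 2)))

/-- the terms of a class: `n + aX` quanta X, `n + aY` quanta Y, one body data which may depend on the
configuration -/
def TmC (B : (r : ℕ) → (Fin r → Xo) → OB) (P : Par) (aX aY : ℕ) : Term :=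
  fun n r O η η' => Fnc (B r O) P η η' (n + aX) (n + aY) O

/-- **the representation corollary of one class**: `Z n` the term with `n + aX` quanta X and
`n + aY` quanta Y (`B` contains the spectators at their positions) -/
def R4Cof (ep : ℝ) (B : OB) (P : Par) (aX aY : ℕ) (Z : ℕ → ℂ) : Prop :=
  R4gen ep (aX + aY) (TmC (fun _ _ => B) P aX aY) Z

/-- **the tilted bound of one configuration** of one class -/
def PerCof (C C' c b : ℝ) (k : ℕ) (c1 c' L ep e1 J ν d : ℝ) (N : ℕ) (B : OB) (P : Par)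
    (aX aY : ℕ) (Q : ℝ) : Prop :=
  PerGen C C' c b k c1 c' L ep e1 J ν d N (aX + aY) (TmC (fun _ _ => B) P aX aY) Q

/-- the terms of a class with a marked object `i` (class Hs: a half quantum bound to a string):
weight `w` and one body data depend on the configuration and on the mark -/
def TmM (w : (r : ℕ) → (Fin r → Xo) → Fin r → ℝ≥0∞) (B : (r : ℕ) → (Fin r → Xo) → Fin r → OB)
    (P : Par) (aX aY : ℕ) : Term :=
  fun n r O η η' => ∑ i : Fin r, w r O i * Fnc (B r O i) P η η' (n + aX) (n + aY) O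

end NUGC

end
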