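import Pool.Agent.NUO.GasPot
import Pool.Agent.NUGC.DefC
import Pool.Agent.NUP1S.WordZ

/-!
# Step (II) for two families and total charge `Q`, and the flat classes of TARGET-C

* `gas_pot_leQ`: the gas of `a` quanta X and `b` quanta Y in the field of the objects, the one body
  functions of the species have the rates `-(κ + 2 Q)`, `-(κ - 2 Q)`, `Q` = the total charge of
  quanta and objects;
* `OneC`: the one body functions of a class and its one body data `OB`;
* `R4C_of`: the representation corollary `R4Cof` of a class.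
-/

set_option autoImplicit false
set_option linter.unusedSectionVars false

noncomputable section

open Complex MeasureTheory Finset
open scoped ENNReal

namespace NUGC

open NUO NUP1 NUCR NUP1S NUP1S.Ab NUP1S.AbC

variable {r : ℕ}

/-- **Step II, total charge `Q`** -/
theorem gas_pot_leQ {P : NUO.Par} (hP : GoodP P) {δ : ℝ} (hδ0 : 0 ≤ δ) (hδ : δ ≤ 1 / 20)
    (hj : P.jL + δ < 3) {η η' ζ ζ' : ℝ → ℝ} (hη : CrvR δ η η') (hζ : CrvR δ ζ ζ')
    (O : Fin r → Xo) {κ : ℝ} (hκ : 0 < κ) {Q : ℤ} {G G' : ℂ → ℂ} (m1 : Measurable G)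
    (m2 : Measurable G') (d1 : ∀ u : ℂ, u.re ∈ Ks δ → DifferentiableAt ℂ G u)
    (d2 : ∀ u : ℂ, u.re ∈ Ks δ → DifferentiableAt ℂ G' u)
    (b1 : Bdd (Ks δ) (-(κ + 2 * Q)) G) (b2 : Bdd (Ks δ) (-(κ - 2 * Q)) G') {a b : ℕ}
    (hn : ((a + chgO O true : ℕ) : ℤ) - ((b + chgO O false : ℕ) : ℤ) = Q) :
    ‖gas a b NUP1.l (fun z => G z * potC P O true z) (fun z => G' z * potC P O false z)‖ₑ ≤
      ZG G G' P η η' ζ ζ' O a b := by
  have hl := Bd.l_pos
  have hQ : ((a : ℝ) - b) = Q + (chgO O false : ℝ) - chgO O true := by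
    have h1 : (Q : ℝ) = (((a + chgO O true : ℕ) : ℤ) - ((b + chgO O false : ℕ) : ℤ) : ℤ) := by
      rw [hn]
    rw [h1]
    push_cast
    ring
  have ok := fun s i => okP_cons hδ hP hj O i s
  have r1 := rt_conf true P O
  have r2 := rt_conf false P O
  simp only [if_true] at r1
  simp only [Bool.false_eq_true, if_false] at r2
  have B1 := (b1.mul (bdd_potC (ok true))).rate (s' := -(κ + 2 * (((a : ℤ) - b : ℤ) : ℝ))) (by
    rw [r1]
    push_cast
    linarith)
  have B2 := (b2.mul (bdd_potC (ok false))).rate (s' := -(κ - 2 * (((a : ℤ) - b : ℤ) : ℝ))) (by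
    rw [r2]
    push_cast
    linarith)
  have hg : Reg p0 κ (19 / 20 * NUP1.l) ((1 + δ) * NUP1.l) ((a : ℤ) - b)
      (g2 (fun z => G z * potC P O true z) (fun z => G' z * potC P O false z)) := by
    refine reg_p0 (m1.mul (meas_potC P O true)) (m2.mul (meas_potC P O false))
      (fun u h1 h2 => (d1 u ⟨h1, h2⟩).mul (diff_potC (ok true) ⟨h1, h2⟩))
      (fun u h1 h2 => (d2 u ⟨h1, h2⟩).mul (diff_potC (ok false) ⟨h1, h2⟩))
      (DecOn_of_Bdd B1 le_rfl) (DecOn_of_Bdd B2 le_rfl)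
  obtain ⟨hI, hle⟩ := gas_le hκ (by nlinarith) (hη.crv hδ0) (hζ.crv hδ0) a b hg
  simp only [pos_pA] at hI hle
  have hq1 : qG G P η O true = fun t => (2 * Real.pi)⁻¹ *
      ‖G (NUO.pA η t) * potC P O true (NUO.pA η t)‖ := by
    funext t
    unfold qG
    rw [norm_mul, norm_potC]
    ring
  have hq2 : qG G' P ζ O false =
      fun t => (2 * Real.pi)⁻¹ * ‖G' (NUO.pA ζ t) * potC P O false (NUO.pA ζ t)‖ := by
    funext t
    unfold qG
    rw [norm_mul, norm_potC]
    ring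
  unfold ZG
  rw [hq1, hq2]
  simp_rw [WO_smul]
  rw [← ofReal_integral_eq_lintegral_ofReal]
  · have e1 : ((a.factorial : ℝ≥0∞) * b.factorial)⁻¹ =
        ENNReal.ofReal (((a.factorial : ℝ) * b.factorial)⁻¹) := by
      rw [ENNReal.ofReal_inv_of_pos (by positivity), ENNReal.ofReal_mul (by positivity),
        ENNReal.ofReal_natCast, ENNReal.ofReal_natCast]
    rw [e1, ← ENNReal.ofReal_mul (by positivity), ← ofReal_norm]
    refine ENNReal.ofReal_le_ofReal (hle.trans (le_of_eq ?_))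
    rw [integral_const_mul]
    have h2pi : (2 * Real.pi) ^ (a + b) ≠ 0 := by positivity
    have hf : ((a.factorial : ℝ) * b.factorial) ≠ 0 := by positivity
    rw [inv_pow, mul_inv, mul_assoc]
    rfl
  · exact hI.const_mul _
  · refine Filter.Eventually.of_forall fun x => ?_
    exact mul_nonneg (by positivity) (NU42.WO_nonneg _ _ _ _ (fun _ => norm_nonneg _)
      (fun _ => norm_nonneg _) _ _)

/-! ## monotonicity in the one body factors -/

theorem ob_mono {p : ℕ} (D1 : ℝ → ℂ) {a a' : ℝ → ℝ} (h0 : ∀ t, 0 ≤ a t) (h : ∀ t, a t ≤ a' t)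
    (t : Fin p → ℝ) : NU42.ob D1 a t ≤ NU42.ob D1 a' t :=
  Finset.prod_le_prod (fun i _ => mul_nonneg (norm_nonneg _) (h0 _))
    fun i _ => mul_le_mul_of_nonneg_left (h _) (norm_nonneg _)

theorem WO_mono {p n : ℕ} (DX DX1 DY DY1 : ℝ → ℂ) {a a' b b' : ℝ → ℝ} (h0 : ∀ t, 0 ≤ a t)
    (h : ∀ t, a t ≤ a' t) (g0 : ∀ t, 0 ≤ b t) (g : ∀ t, b t ≤ b' t) (t : Fin p → ℝ)
    (t' : Fin n → ℝ) :
    NU42.WO DX DX1 DY DY1 a b t t' ≤ NU42.WO DX DX1 DY DY1 a' b' t t' := by
  unfold NU42.WO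
  refine mul_le_mul_of_nonneg_left ?_ (mul_nonneg (mul_nonneg (NU42.ow_nonneg _ _)
    (NU42.ow_nonneg _ _)) (NU42.cr_nonneg _ _ _ _))
  exact mul_le_mul (ob_mono _ h0 h _) (ob_mono _ g0 g _) (NU42.ob_nonneg _ g0 _)
    (NU42.ob_nonneg _ (fun t => (h0 t).trans (h t)) _)

/-! ## a class -/

/-- **the one body functions `Z` of a class are bounded by the one body data `B`** on the lines of
the objects, at the satellites and on the curves; `Q` = total charge (quanta X minus quanta Y), `E` = null set of heights -/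
structure OneC (Z : Bool → Option O3 → ℂ → ℂ) (B : OB) (P : NUO.Par) (ep κ x0 : ℝ) (Q : ℤ)
    (E : Set ℝ) : Prop where
  kpos : 0 < κ
  nn : B.Nn
  nul : volume E = 0
  meas : ∀ s k, Measurable (Z s k)
  L : ∀ s t, t ∉ E → ‖Z s (some .L) (posL P.jL t)‖ ≤ B.R s (posL P.jL t) * ‖B.φ (posL P.jL t)‖
  T : ∀ s t, t ∉ E → ‖Z s (some .T) (posT t)‖ ≤ (B.R s (posT t) * B.R s (posT t - NUP1.l)) *
    ‖B.φ (posT t) * B.φ (posT t - NUP1.l) - B.φ0 (posT t)‖
  S : ∀ s (O : ℕ) (e t : ℝ), t ∉ E → P.e ≤ e → e ≤ P.e + P.d O → ‖Z s (some .S) (posS e t)‖ ≤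
    (B.R s (posS e t) * B.R s (posS e t - NUP1.l)) * ‖B.φ0 (posS e t)‖
  V : ∀ s (O : ℕ) (e : ℝ), P.e ≤ e → e ≤ P.e + P.d O → ∀ u : ℂ,
    |u.re - (1 - e) * NUP1.l| ≤ NUP1.l * P.d O / (8 * (O + 1)) →
    ‖Z s none u‖ ≤ B.R s u * ‖B.φ u‖
  A : ∀ s (u : ℂ), u.re ∈ Ks (ep / 4) → ‖Z s none u‖ ≤ B.R s u * ‖B.φ u‖
  x1 : x0 ≤ 19 / 20 * NUP1.l
  dA : ∀ s (u : ℂ), x0 ≤ u.re → u.re ≤ (1 + ep / 4) * NUP1.l → DifferentiableAt ℂ (Z s none) u
  bA : ∀ s, Bdd (Set.Icc x0 ((1 + ep / 4) * NUP1.l)) (-(κ + 2 * (sg s * Q : ℤ))) (Z s none)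

variable {Z : Bool → Option O3 → ℂ → ℂ} {B : OB} {P : NUO.Par} {ep κ x0 : ℝ} {Q : ℤ}
  {E : Set ℝ}

theorem rk_le' (O : Fin r → Xo) (i : Fin r) : rk O i ≤ r := by
  unfold rk
  exact (Finset.card_le_univ _).trans (by simp)

theorem ei_mem' (hd : ∀ r, 0 < P.d r) (O : Fin r → Xo) (i : Fin r) :
    P.e ≤ ei P O i ∧ ei P O i ≤ P.e + P.d r := by
  have hr : (0 : ℝ) < r := by exact_mod_cast i.pos
  have h1 : (0 : ℝ) ≤ rk O i / r := by positivity
  have h3 : (rk O i : ℝ) / r ≤ 1 := by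
    rw [div_le_one hr]
    exact_mod_cast rk_le' O i
  have h4 := hd r
  unfold ei
  constructor <;> nlinarith

theorem posV_re' (e ρ t a : ℝ) : (posV e ρ t a).re = (1 - e) * NUP1.l +
    ρ * Real.cos (2 * Real.pi * a) := by
  unfold posV posS vl
  have h1 : Complex.exp (2 * Real.pi * a * I) = Complex.exp (((2 * Real.pi * a : ℝ) : ℂ) * I) := by
    push_cast
    ring_nf
  rw [h1]
  simp only [add_re, mul_re, ofReal_re, ofReal_im, I_re, I_im, Complex.exp_ofReal_mul_I_re,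
    Complex.exp_ofReal_mul_I_im]
  simp
  ring

/-- one object -/
theorem obZ_le (h : OneC Z B P ep κ x0 Q E) (hP : GoodP P) (O : Fin r → Xo) (i : Fin r)
    (hE : ht (O i) ∉ E) :
    obZ Z P.jL (ei P O i) (rr P O i) (O i) ≤ ob1c B P.jL (ei P O i) (rr P O i) (O i) := by
  have hl := Bd.l_pos
  have haS : 0 ≤ aS := NUO.aS_pos.le
  obtain ⟨e1, e2⟩ := ei_mem' hP.d0 O i
  have hρ0 : 0 ≤ rr P O i := (hP.r0 _ _).le
  have hρ : rr P O i ≤ NUP1.l * P.d r / (8 * (r + 1)) := hP.r1 _ _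
  have hb : 0 ≤ NUP1.l * P.d r / (8 * (r + 1)) := hρ0.trans hρ
  have hS := h.S (sp (O i)) r _ (ht (O i)) hE e1 e2
  have hV : ‖Z (!sp (O i)) none (posV (ei P O i) (rr P O i) (ht (O i)) (an (O i)))‖ ≤
      B.R (!sp (O i)) (posV (ei P O i) (rr P O i) (ht (O i)) (an (O i))) *
        ‖B.φ (posV (ei P O i) (rr P O i) (ht (O i)) (an (O i)))‖ := by
    refine h.V _ r _ e1 e2 _ ?_
    rw [posV_re', add_sub_cancel_left, abs_mul]
    calc _ ≤ |rr P O i| * 1 := mul_le_mul_of_nonneg_left (Real.abs_cos_le_one _) (abs_nonneg _)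
      _ ≤ _ := by
        rw [mul_one, abs_of_nonneg hρ0]
        exact hρ
  have hV0 : ‖Z (!sp (O i)) none (posS (ei P O i) (ht (O i)) + 2 * NUP1.l)‖ ≤
      B.R (!sp (O i)) (posS (ei P O i) (ht (O i)) + 2 * NUP1.l) *
        ‖B.φ (posS (ei P O i) (ht (O i)) + 2 * NUP1.l)‖ := by
    refine h.V _ r _ e1 e2 _ ?_
    have : (posS (ei P O i) (ht (O i)) + 2 * (NUP1.l : ℂ)).re - (1 - ei P O i) * NUP1.l = 0 := by
      unfold posS vl
      simp
      ring
    rw [this, abs_zero]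
    exact hb
  unfold obZ ob1c oSc
  rcases hk : NUO.kd (O i) with _ | _ | _ | _ | _ <;> simp only []
  · exact mul_le_mul_of_nonneg_left (h.L _ _ hE) (by positivity)
  · rw [mul_assoc]
    exact mul_le_mul_of_nonneg_left (h.T _ _ hE) haS
  · rw [mul_assoc]
    exact mul_le_mul_of_nonneg_left hS haS
  · have h1 : aS * ‖Z (sp (O i)) (some .S) (posS (ei P O i) (ht (O i)))‖ ≤
        aS * (B.R (sp (O i)) (posS (ei P O i) (ht (O i))) *
          B.R (sp (O i)) (posS (ei P O i) (ht (O i)) - NUP1.l)) *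
          ‖B.φ0 (posS (ei P O i) (ht (O i)))‖ := by
      rw [mul_assoc]
      exact mul_le_mul_of_nonneg_left hS haS
    refine mul_le_mul h1 ?_ (by positivity) ((by positivity : (0 : ℝ) ≤ _).trans h1)
    exact mul_le_mul_of_nonneg_right (mul_le_mul_of_nonneg_left hV hρ0) (norm_nonneg _)
  · have h1 : aS * ‖Z (sp (O i)) (some .S) (posS (ei P O i) (ht (O i)))‖ ≤
        aS * (B.R (sp (O i)) (posS (ei P O i) (ht (O i))) *
          B.R (sp (O i)) (posS (ei P O i) (ht (O i)) - NUP1.l)) *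
          ‖B.φ0 (posS (ei P O i) (ht (O i)))‖ := by
      rw [mul_assoc]
      exact mul_le_mul_of_nonneg_left hS haS
    refine mul_le_mul h1 ?_ (by positivity) ((by positivity : (0 : ℝ) ≤ _).trans h1)
    refine mul_le_mul_of_nonneg_left ?_ (by positivity)
    exact pow_le_pow_left₀ (by positivity) (div_le_div_of_nonneg_right hV0 (sq_nonneg _)) 2

theorem obZ_nonneg (hP : GoodP P) (O : Fin r → Xo) (i : Fin r) :
    0 ≤ obZ Z P.jL (ei P O i) (rr P O i) (O i) := by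
  have haS : 0 ≤ aS := NUO.aS_pos.le
  have hρ0 : 0 ≤ rr P O i := (hP.r0 _ _).le
  unfold obZ
  rcases hk : NUO.kd (O i) with _ | _ | _ | _ | _ <;> simp only [] <;> positivity

/-- the weight of a configuration -/
theorem WW_le (h : OneC Z B P ep κ x0 Q E) (hP : GoodP P) (O : Fin r → Xo)
    (hE : ∀ i, ht (O i) ∉ E) :
    WW (oZ Z P O) (cons P O) ≤ objWc B P O := by
  unfold WW objWc
  rw [norm_P _ fun a b => ppC_symm _ _]
  simp_rw [norm_ppC]
  refine mul_le_mul_of_nonneg_right ?_ ?_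
  · exact Finset.prod_le_prod (fun i _ => obZ_nonneg hP O i) fun i _ => obZ_le h hP O i (hE i)
  · refine Finset.prod_nonneg fun i _ => Finset.prod_nonneg fun j _ => ?_
    split_ifs
    · exact ppN_nonneg _ _
    · exact zero_le_one

/-- the quanta on the curve -/
theorem ZG_le (h : OneC Z B P ep κ x0 Q E) {η η' : ℝ → ℝ} (hη : CrvR (ep / 4) η η')
    (O : Fin r → Xo) (a b : ℕ) :
    ZG (Z true none) (Z false none) P η η' η η' O a b ≤ Z1c B P η η' O a b := by
  have hq : ∀ s t, qG (Z s none) P η O s t ≤ qAc B P η O s t := by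
    intro s t
    unfold qG qAc
    refine mul_le_mul_of_nonneg_right (mul_le_mul_of_nonneg_left (h.A s _ ?_) (by positivity))
      (Finset.prod_nonneg fun i _ => potN_nonneg _ _ _ _ _)
    exact pA_mem hη t
  have h0 : ∀ s t, 0 ≤ qG (Z s none) P η O s t := by
    intro s t
    unfold qG
    exact mul_nonneg (by positivity) (Finset.prod_nonneg fun i _ => potN_nonneg _ _ _ _ _)
  unfold ZG Z1c
  refine mul_le_mul_right (lintegral_mono fun x => ENNReal.ofReal_le_ofReal ?_) _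
  exact WO_mono _ _ _ _ (h0 true) (hq true) (h0 false) (hq false) _ _

/-- one configuration -/
theorem FOZ_le (h : OneC Z B P ep κ x0 Q E) (hep0 : 0 < ep) (hep : ep ≤ 1 / 100) (hP : GoodP P)
    (hj : P.jL ≤ 29 / 10) {η η' : ℝ → ℝ} (hη : CurB ep η η') (O : Fin r → Xo)
    (hE : ∀ i, ht (O i) ∉ E) {nX nY : ℕ} (hn : (nX : ℤ) - nY = Q) : FOZ Z P NUP1.l nX nY O ≤ Fnc B P η η' nX nY O := by
  unfold FOZ FZ Fnc
  by_cases hc : chgO O true ≤ nX ∧ chgO O false ≤ nY
  · rw [if_pos hc, if_pos hc]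
    have hcr : CrvR (ep / 4) η η' := by
      have hl := Bd.l_pos
      refine ⟨hη.hd, hη.hc, fun t => ?_, fun t => ?_, hη.hb⟩
      · have := (abs_le.1 (hη.h1 t)).1
        linarith
      · have := (abs_le.1 (hη.h1 t)).2
        nlinarith
    refine mul_le_mul' (ENNReal.ofReal_le_ofReal (WW_le h hP O hE)) ?_
    refine le_trans ?_ (ZG_le h hcr O _ _)
    have hsub : Ks (ep / 4) ⊆ Set.Icc x0 ((1 + ep / 4) * NUP1.l) :=
      Set.Icc_subset_Icc h.x1 le_rfl
    have hbd : ∀ s, Bdd (Ks (ep / 4)) (-(κ + 2 * (sg s * Q : ℤ))) (Z s none) := fun s => by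
      obtain ⟨C, hC, hb⟩ := h.bA s
      exact ⟨C, hC, fun z hz => hb z (hsub hz)⟩
    have e1 : (((sg true * Q : ℤ)) : ℝ) = Q := by simp [sg]
    have e2 : (((sg false * Q : ℤ)) : ℝ) = -(Q : ℝ) := by simp [sg]
    exact gas_pot_leQ hP (by linarith) (by linarith) (by linarith) hcr hcr O h.kpos
      (h.meas true none) (h.meas false none)
      (fun u hu => h.dA true u (hsub hu).1 (hsub hu).2)
      (fun u hu => h.dA false u (hsub hu).1 (hsub hu).2)
      ((hbd true).rate (by rw [e1])) ((hbd false).rate (by rw [e2]; ring))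
      (Q := Q) (by
        obtain ⟨h1, h2⟩ := hc
        omega)
  · rw [if_neg hc]
    exact zero_le

/-- almost every configuration avoids a null set of heights -/
theorem ae_ht {E : Set ℝ} (hE : volume E = 0) :
    ∀ᵐ O : Fin r → Xo ∂(Measure.pi fun _ => nu), ∀ i, ht (O i) ∉ E := by
  have h1 : ∀ᵐ x : Xo ∂nu, ht x ∉ E := by
    have e1 : ∀ᵐ y : ℝ × ℝ ∂((volume : Measure ℝ).prod
        ((volume : Measure ℝ).restrict (Set.Ioc 0 1))), y.1 ∉ E :=
      Measure.quasiMeasurePreserving_fst.ae (measure_eq_zero_iff_ae_notMem.1 hE)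
    have e2 : ∀ᵐ x : Xo ∂((Measure.count : Measure (Bool × NUO.Kind)).prod
        ((volume : Measure ℝ).prod ((volume : Measure ℝ).restrict (Set.Ioc 0 1)))), x.2.1 ∉ E :=
      Measure.quasiMeasurePreserving_snd.ae e1
    exact e2
  rw [MeasureTheory.ae_all_iff]
  intro i
  exact (Measure.tendsto_eval_ae_ae (μ := fun _ : Fin r => nu) (i := i)).eventually h1

/-- at least one quantum per object -/
theorem le_chgO (O : Fin r → Xo) : r ≤ chgO O true + chgO O false := by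
  unfold chgO
  rw [← Finset.sum_add_distrib]
  have h1 : ∀ x : Xo, 1 ≤ chg true x + chg false x := by
    rintro ⟨⟨c, k⟩, t, a⟩
    cases c <;> cases k <;> simp [chg]
  calc r = ∑ _i : Fin r, 1 := by simp
    _ ≤ _ := Finset.sum_le_sum fun i _ => h1 (O i)

/-- **The representation corollary of a class.** -/
theorem R4C_of (h : OneC Z B P ep κ x0 Q E) (hep0 : 0 < ep) (hep : ep ≤ 1 / 100)
    (hP : GoodQ P x0) (hj : P.jL ≤ 29 / 10) (hrm : ∀ r, Measurable (P.rad r)) {aX aY : ℕ}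
    (hQ : (aX : ℤ) - aY = Q) :
    R4Cof ep B P aX aY fun n => ZobjQ (Z true) (Z false) x0 (n + aX) (n + aY) (lX P) (lY P) := by
  have hl := Bd.l_pos
  intro η η' hη n
  have hle : NUP1.l ≤ (1 + ep / 4) * NUP1.l := by nlinarith
  refine (ZobjQ_le' hP hrm h.meas h.kpos (q0 := Q) (by push_cast; omega)
    (fun s u h1 h2 => h.dA s u h1 (h2.trans hle))
    (fun s => DecOn_of_Bdd (s := -(κ + 2 * (sg s * Q : ℤ))) (by
      obtain ⟨C, hC, hb⟩ := h.bA s
      exact ⟨C, hC, fun z hz => hb z ⟨hz.1, hz.2.trans hle⟩⟩) le_rfl)).trans ?_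
  have hN : 2 * n + (aX + aY) + 1 ≤ 2 * max (n + aX) (n + aY) + 1 := by
    have h1 := le_max_left (n + aX) (n + aY)
    have h2 := le_max_right (n + aX) (n + aY)
    omega
  rw [← Finset.sum_subset (Finset.range_subset_range.2 hN)]
  · refine Finset.sum_le_sum fun r _ => mul_le_mul_right (lintegral_mono_ae ?_) _
    filter_upwards [ae_ht (r := r) h.nul] with O hO
    exact FOZ_le h hep0 hep hP.toGoodP hj (hη r O) O hO (by push_cast; omega)
  · intro r _ hr
    have hr' : 2 * n + (aX + aY) < r := by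
      have := Finset.mem_range.not.1 hr
      omega
    have h0 : ∀ O : Fin r → Xo, FOZ Z P NUP1.l (n + aX) (n + aY) O = 0 := by
      intro O
      unfold FOZ FZ
      rw [if_neg]
      rintro ⟨h1, h2⟩
      have := le_chgO O
      omega
    simp [h0]

end NUGC

end
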