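import Pool.Agent.NUGC.ThN
import Pool.Agent.NUGC.GasQ
import Pool.Agent.NURow.Data3

/-!
# The one body functions of the classes of TARGET-C (rows at `± l / 2`, two ends)

`oneC_XH`: the functions `NURow.XH (c a) β M N (s1 a) (s2 a)` are bounded by the one body data
`obC (M + 1 / 2) N β g`, `g a u = ThN u * ‖s1 a u‖`.
-/

set_option autoImplicit false

noncomputable section

open Complex MeasureTheory Finset
open scoped ENNReal

namespace NUGC

open NUO NUP1 NUCR NUP1S NUP1S.Ab NUP1S.AbC NURow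

/-- the modulus of a pair of rows -/
theorem prN_eq (u : ℂ) : prN u =
    (‖Complex.sin (u + 5 * l / 2)‖ * ‖Complex.sin (u + 7 * l / 2)‖) ^ 2 /
      ((‖Complex.sin (u - l / 2)‖ * ‖Complex.sin (u + l / 2)‖) *
        (‖Complex.sin (u - 5 * l / 2)‖ * ‖Complex.sin (u - 3 * l / 2)‖)) := by
  unfold prN rwN
  have e1 : u - ((l / 2 : ℝ) : ℂ) + 3 * l = u + 5 * l / 2 := by push_cast; ring
  have e2 : u - ((l / 2 : ℝ) : ℂ) = u - l / 2 := by push_cast; ring
  have e3 : u - ((l / 2 : ℝ) : ℂ) - 2 * l = u - 5 * l / 2 := by push_cast; ring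
  have e4 : u - ((-(l / 2) : ℝ) : ℂ) + 3 * l = u + 7 * l / 2 := by push_cast; ring
  have e5 : u - ((-(l / 2) : ℝ) : ℂ) = u + l / 2 := by push_cast; ring
  have e6 : u - ((-(l / 2) : ℝ) : ℂ) - 2 * l = u - 3 * l / 2 := by push_cast; ring
  rw [e1, e3, e2, e4, e6, e5, div_mul_div_comm]
  congr 1 <;> ring

/-- **the modulus of the row factor with the two ends** -/
theorem norm_R1 (c : ℂ) (M : ℕ) {u : ℂ} (h1 : sin (u - l / 2) ≠ 0) (h2 : sin (u + l / 2) ≠ 0)
    (h3 : sin (u - 5 * l / 2) ≠ 0) (h4 : sin (u - 3 * l / 2) ≠ 0) :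
    ‖R1 c M u‖ = ‖c‖ * prN u ^ ((M : ℝ) + 1 / 2) * ThN u := by
  set a := ‖Complex.sin (u - l / 2)‖ * ‖Complex.sin (u + l / 2)‖ with ha
  set b := ‖Complex.sin (u - 5 * l / 2)‖ * ‖Complex.sin (u - 3 * l / 2)‖ with hb
  set n := ‖Complex.sin (u + 5 * l / 2)‖ * ‖Complex.sin (u + 7 * l / 2)‖ with hn
  have ha0 : 0 < a := mul_pos (norm_pos_iff.2 h1) (norm_pos_iff.2 h2)
  have hb0 : 0 < b := mul_pos (norm_pos_iff.2 h3) (norm_pos_iff.2 h4)
  have hn0 : 0 ≤ n := by positivity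
  have e0 : ‖R1 c M u‖ = ‖c‖ * (n ^ (2 * M + 1) / (a ^ M * b ^ (M + 1))) := by
    unfold R1 Rh
    simp only [norm_mul, norm_pow, norm_div, norm_one]
    rw [ha, hb, hn]
    simp only [mul_pow, one_div, inv_pow]
    field_simp
  have e1 : prN u ^ ((M : ℝ) + 1 / 2) = n ^ (2 * M + 1) / (a ^ M * b ^ M * (a * b) ^ (1 / 2 : ℝ)) := by
    rw [prN_eq, ← ha, ← hb, ← hn, Real.rpow_add' (by positivity) (by positivity),
      Real.rpow_natCast, Real.div_rpow (by positivity) (by positivity),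
      ← Real.sqrt_eq_rpow (n ^ 2), Real.sqrt_sq hn0]
    have k1 : (n ^ 2) ^ M * n = n ^ (2 * M + 1) := by rw [← pow_mul, pow_succ]
    have k2 : (a * b) ^ M = a ^ M * b ^ M := mul_pow a b M
    rw [div_pow, div_mul_div_comm, k1, k2]
  have e2 : ThN u = a ^ (1 / 2 : ℝ) / b ^ (1 / 2 : ℝ) := by
    unfold ThN
    rw [← ha, ← hb, Real.div_rpow ha0.le hb0.le]
  have e3 : (a * b) ^ (1 / 2 : ℝ) = a ^ (1 / 2 : ℝ) * b ^ (1 / 2 : ℝ) :=
    Real.mul_rpow ha0.le hb0.le
  have e4 : b ^ (1 / 2 : ℝ) * b ^ (1 / 2 : ℝ) = b := by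
    rw [← Real.rpow_add hb0]
    norm_num
  have ha2 : 0 < a ^ (1 / 2 : ℝ) := Real.rpow_pos_of_pos ha0 _
  have hb2 : 0 < b ^ (1 / 2 : ℝ) := Real.rpow_pos_of_pos hb0 _
  rw [e0, e1, e2, e3, mul_assoc]
  congr 1
  rw [div_mul_div_comm, div_eq_div_iff (by positivity) (by positivity)]
  calc n ^ (2 * M + 1) * (a ^ M * b ^ M * (a ^ (1 / 2 : ℝ) * b ^ (1 / 2 : ℝ)) * b ^ (1 / 2 : ℝ))
      = n ^ (2 * M + 1) * (a ^ M * b ^ M * a ^ (1 / 2 : ℝ) * (b ^ (1 / 2 : ℝ) * b ^ (1 / 2 : ℝ))) := by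
        ring
    _ = _ := by
        rw [e4, pow_succ]
        ring

/-! ## nonvanishing sines on the lines -/

theorem sinC_ne {z : ℂ} {x : ℝ} (h : z.re = x) (hx : Real.sin x ≠ 0) : Complex.sin z ≠ 0 :=
  Bd.sin_ne_zero_of_re (by rwa [h])

theorem sin_pos_ne {x : ℝ} (h0 : 0 < x) (h1 : x < 8 * l) : Real.sin x ≠ 0 :=
  NURow.sin_ne_pos h0 h1

theorem sin_neg_ne {x : ℝ} (h0 : x < 0) (h1 : -(8 * l) < x) : Real.sin x ≠ 0 :=
  NURow.sin_ne_neg h0 h1

theorem re_sub' (u : ℂ) (x : ℝ) {y : ℂ} (hy : y = (x : ℂ)) : (u - y).re = u.re - x := by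
  rw [hy]
  simp

/-- the row factor for a quantum off the rows -/
theorem norm_R1' (c : ℂ) (M : ℕ) {u : ℂ} (hN : NH u.re) (h2 : sin (u + l / 2) ≠ 0) :
    ‖R1 c M u‖ = ‖c‖ * prN u ^ ((M : ℝ) + 1 / 2) * ThN u := by
  refine norm_R1 c M ?_ h2 ?_ ?_
  · refine sinC_ne (x := u.re - l / 2) ?_ hN.1
    exact re_sub' u _ (by push_cast; ring)
  · refine sinC_ne (x := u.re - 5 * l / 2) ?_ hN.2.1
    exact re_sub' u _ (by push_cast; ring)
  · refine sinC_ne (x := u.re - 3 * l / 2) ?_ hN.2.2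
    exact re_sub' u _ (by push_cast; ring)

theorem phN_eq (β : ℝ) (N : ℕ) (u : ℂ) : phN β N u = phP N β u := by
  unfold phN phP Psi PsiP
  have e1 : u - ((l / 2 : ℝ) : ℂ) = u - l / 2 := by push_cast; ring
  have e2 : u + ((l / 2 : ℝ) : ℂ) = u + l / 2 := by push_cast; ring
  rw [e1, e2]

/-- the row factor with activity and spectator -/
theorem norm_R1_obC {c : ℂ} (hc : ‖c‖ = 2 * Real.cos l) (M N : ℕ) (β : ℝ) {u : ℂ}
    (hN : NH u.re) (h2 : sin (u + l / 2) ≠ 0) (s : ℂ → ℂ) :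
    ‖R1 c M u‖ * ‖s u‖ = Rrow ((M : ℝ) + 1 / 2) u * (ThN u * ‖s u‖) := by
  rw [norm_R1' c M hN h2, hc]
  unfold Rrow
  ring

/-- extra regularity of the spectator of the quanta on `A'` -/
structure SpecA (b : Bool) (Q : ℝ) (s1 : ℂ → ℂ) : Prop where
  bd : Bdd (Set.Icc (3 / 5 * l) (21 / 20 * l)) (-(2 * Q * sc (b, .A))) s1
  df : ∀ z : ℂ, z.re ∈ Set.Icc (3 / 5 * l) (21 / 20 * l) → DifferentiableAt ℂ s1 z

/-- the same on `[x0, 21/20 l]` -/
structure SpecAt (x0 : ℝ) (b : Bool) (Q : ℝ) (s1 : ℂ → ℂ) : Prop where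
  bd : Bdd (Set.Icc x0 (21 / 20 * l)) (-(2 * Q * sc (b, .A))) s1
  df : ∀ z : ℂ, z.re ∈ Set.Icc x0 (21 / 20 * l) → DifferentiableAt ℂ s1 z

theorem SpecA.at {b : Bool} {Q : ℝ} {s1 : ℂ → ℂ} (h : SpecA b Q s1) :
    SpecAt (3 / 5 * l) b Q s1 := ⟨h.bd, h.df⟩

/-- spectators of the strings from the spectators of the quanta, outside a null set of heights -/
def SpecS (P : NUO.Par) (E : Set ℝ) (s1 s2 : ℂ → ℂ) : Prop :=
  (∀ t ∉ E, ‖s2 (posT t)‖ ≤ ‖s1 (posT t)‖ * ‖s1 (posT t - l)‖) ∧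
  ∀ (r : ℕ) (e t : ℝ), t ∉ E → P.e ≤ e → e ≤ P.e + P.d r →
    ‖s2 (posS e t)‖ ≤ ‖s1 (posS e t)‖ * ‖s1 (posS e t - l)‖

/-- conditions on the parameters of TARGET-C -/
structure ParC (P : NUO.Par) : Prop where
  j1 : 9 / 4 ≤ P.jL
  j2 : P.jL ≤ 27 / 10
  e1 : 1 / 10 ≤ P.e
  d0 : ∀ r, 0 < P.d r
  e2 : ∀ r, P.e + 9 / 8 * P.d r ≤ 3 / 10
  rm : ∀ r, Measurable (P.rad r)
  r0 : ∀ r t, 0 < P.rad r t
  r1 : ∀ r t, P.rad r t ≤ l * P.d r / (8 * (r + 1))

theorem ParC.goodP {P : NUO.Par} (h : ParC P) : GoodP P :=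
  ⟨by linarith [h.j1], by linarith [h.j2], h.e1, h.d0, fun r => by
    have h1 := h.e2 r
    have h2 := h.d0 r
    linarith, h.r0, h.r1⟩

theorem ParC.goodQ {P : NUO.Par} (h : ParC P) : GoodQ P (3 / 5 * l) where
  toGoodP := h.goodP
  xp := by
    have := l_pos
    positivity
  xl r := by
    have hl := l_pos
    have := h.e2 r
    nlinarith

/-- the start lines and the final lines are in 81's strips -/
theorem ParC.lnO_mem {P : NUO.Par} (h : ParC P) {r i : ℕ} (hi : i < r) (k : O3) :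
    lnO P r i k ∈ Set.Icc
      (lo4 (3 / 5 * l) (-(17 / 10 * l)) (-(13 / 10 * l)) (-(7 / 10 * l)) (some k))
      (lo4 (3 / 5 * l) (-(5 / 4 * l)) (-(7 / 10 * l)) (-(l / 2)) (some k)) := by
  have hl := l_pos
  have hr : (0 : ℝ) < r := by exact_mod_cast (Nat.zero_le i).trans_lt hi
  have g0 : (0 : ℝ) ≤ (i : ℝ) / r := by positivity
  have g1 : (i : ℝ) / r ≤ 1 := by
    rw [div_le_one hr]
    exact_mod_cast hi.le
  have j1 := h.j1
  have j2 := h.j2
  have e1 := h.e1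
  have d0 := h.d0 r
  have e2 := h.e2 r
  have k1 : P.d r * ((i : ℝ) / r) ≤ P.d r := by nlinarith
  have k2 : 0 ≤ P.d r * ((i : ℝ) / r) := by positivity
  cases k <;> simp only [lo4, lnO] <;> constructor <;> nlinarith

variable {P : NUO.Par} {ep β Q : ℝ} {M N : ℕ} {c : Bool → ℂ} {s1 s2 : Bool → ℂ → ℂ} {E : Set ℝ}

/-- **The one body functions of a class are bounded by its one body data** (regular part on
`[x0, 21/20 l]`). -/
theorem oneC_XHt {x0 : ℝ} (hx : 3 / 5 * l ≤ x0) (hx' : x0 ≤ 19 / 20 * l)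
    (hP : ParC P) (hep0 : 0 < ep) (hep : ep ≤ 1 / 100) (hβ : 0 < β) (hβ' : β ≤ 4 / 3)
    (hMN : M ≤ N) (hc : ∀ a, ‖c a‖ = 2 * Real.cos l) {q : ℤ}
    (hm1 : ∀ a, Measurable (s1 a)) (hm2 : ∀ a, Measurable (s2 a))
    (hA : ∀ a, SpecAt x0 a q (s1 a)) (hS : ∀ a, SpecS P E (s1 a) (s2 a))
    (hE : volume E = 0) :
    OneC (fun a => XH (c a) β M N (s1 a) (s2 a))
      (obC ((M : ℝ) + 1 / 2) N β fun a u => ThN u * ‖s1 a u‖) P ep (2 * β) x0 q
      (E ∪ {0}) := by
  have hl := l_pos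
  -- one quantum
  have hone : ∀ a (u : ℂ), NH u.re → Complex.sin (u + l / 2) ≠ 0 →
      ‖R1 (c a) M u * phN β N u * s1 a u‖ =
      Rrow ((M : ℝ) + 1 / 2) u * (ThN u * ‖s1 a u‖) * ‖phP N β u‖ := by
    intro a u h1 h2
    rw [norm_mul, norm_mul, phN_eq, ← norm_R1_obC (hc a) M N β h1 h2 (s1 a)]
    ring
  have hp : ∀ {u : ℂ} {x : ℝ}, u.re = x → Real.sin (x + l / 2) ≠ 0 →
      Complex.sin (u + l / 2) ≠ 0 := by
    intro u x h1 h2
    refine sinC_ne (x := x + l / 2) ?_ h2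
    have e : (u + l / 2).re = u.re + l / 2 := by
      rw [← NURow.half_l]
      simp
    rw [e, h1]
  -- strings
  have hstr : ∀ a (u : ℂ), NH u.re → Complex.sin (u + l / 2) ≠ 0 → NH (u - l).re →
      Complex.sin (u - l + l / 2) ≠ 0 →
      ‖s2 a u‖ ≤ ‖s1 a u‖ * ‖s1 a (u - l)‖ →
      ‖R1 (c a) M u‖ * ‖R1 (c a) M (u - l)‖ * ‖s2 a u‖ ≤
      (Rrow ((M : ℝ) + 1 / 2) u * (ThN u * ‖s1 a u‖)) *
        (Rrow ((M : ℝ) + 1 / 2) (u - l) * (ThN (u - l) * ‖s1 a (u - l)‖)) := by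
    intro a u h1 h2 h3 h4 h5
    rw [← norm_R1_obC (hc a) M N β h1 h2 (s1 a), ← norm_R1_obC (hc a) M N β h3 h4 (s1 a)]
    calc _ ≤ ‖R1 (c a) M u‖ * ‖R1 (c a) M (u - l)‖ * (‖s1 a u‖ * ‖s1 a (u - l)‖) :=
          mul_le_mul_of_nonneg_left h5 (by positivity)
      _ = _ := by ring
  refine
    { kpos := by linarith
      nn := obC_nn fun a u => mul_nonneg (ThN_nonneg u) (norm_nonneg _)
      nul := ?_
      meas := fun a k => measurable_XH (hm1 a) (hm2 a) k
      L := ?_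
      T := ?_
      S := ?_
      V := ?_
      A := ?_
      x1 := hx'
      dA := ?_
      bA := ?_ }
  · rw [measure_union_null_iff]
    exact ⟨hE, by simp⟩
  · intro a t _
    have hre : (posL P.jL t).re = (1 - P.jL) * l := by
      unfold posL vl
      simp
    have j1 := hP.j1
    have j2 := hP.j2
    refine le_of_eq (hone a _ ?_ (hp hre ?_))
    · rw [hre]
      exact ⟨sin_neg_ne (by nlinarith) (by nlinarith), sin_neg_ne (by nlinarith) (by nlinarith),
        sin_neg_ne (by nlinarith) (by nlinarith)⟩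
    · exact sin_neg_ne (by nlinarith) (by nlinarith)
  · intro a t ht
    have ht0 : t ≠ 0 := fun h => ht (Or.inr h)
    have htE : t ∉ E := fun h => ht (Or.inl h)
    have hre : (posT t).re = -(1 / 2 * l) := by
      unfold posT vl
      simp
    have hre' : (posT t - l).re = -(1 / 2 * l) - l := by
      rw [sub_re, hre, ofReal_re]
    have h2 : Complex.sin (posT t + l / 2) ≠ 0 := by
      have e : posT t + l / 2 = (t : ℂ) * I := by
        unfold posT vl
        push_cast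
        ring
      rw [e, Complex.sin_mul_I]
      refine mul_ne_zero ?_ I_ne_zero
      rw [← Complex.ofReal_sinh]
      exact_mod_cast fun h => ht0 (Real.sinh_eq_zero.1 h)
    have hN : NH (posT t).re := by
      rw [hre]
      exact ⟨sin_neg_ne (by linarith) (by linarith), sin_neg_ne (by linarith) (by linarith),
        sin_neg_ne (by linarith) (by linarith)⟩
    have hN' : NH (posT t - l).re := by
      rw [hre']
      exact ⟨sin_neg_ne (by linarith) (by linarith), sin_neg_ne (by linarith) (by linarith),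
        sin_neg_ne (by linarith) (by linarith)⟩
    have h4 : Complex.sin (posT t - l + l / 2) ≠ 0 :=
      hp hre' (sin_neg_ne (by linarith) (by linarith))
    have hK : (posT t).re ∈ K2 := by
      rw [hre]
      exact ⟨by linarith, by linarith⟩
    have hT := Th_eq (c a) (β := β) (β' := 4 / 3) hMN (w := posT t)
      (NT_K2 hβ hβ' hK).c2 (NT_K2 (β := 4 / 3) (by norm_num) le_rfl hK).c2
      (by
        have := (NT_K2 hβ hβ' hK).c2
        rw [hre] at this ⊢
        rw [show -(-(1 / 2 * l) + l / 2) = -(1 / 2 * l) + l / 2 by ring]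
        exact this) h2
    show ‖Th (c a) β (4 / 3) M N (posT t) * s2 a (posT t)‖ ≤ _
    rw [hT, norm_mul, norm_mul, norm_mul, phN_eq, phN_eq, phN_eq]
    have key := hstr a (posT t) hN h2 hN' h4 ((hS a).1 t htE)
    calc _ = (‖R1 (c a) M (posT t)‖ * ‖R1 (c a) M (posT t - l)‖ * ‖s2 a (posT t)‖) *
          ‖phP N β (posT t) * phP N β (posT t - l) - phP N (4 / 3) (posT t)‖ := by ring
      _ ≤ _ := mul_le_mul_of_nonneg_right key (norm_nonneg _)
  · intro a r e t ht h1 h2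
    have htE : t ∉ E := fun h => ht (Or.inl h)
    have he1 := hP.e1
    have he2 := hP.e2 r
    have hd0 := hP.d0 r
    have hre : (posS e t).re = -((1 + e) * l) := by
      unfold posS vl
      simp
    have hre' : (posS e t - l).re = -((1 + e) * l) - l := by
      rw [sub_re, hre, ofReal_re]
    have hN : NH (posS e t).re := by
      rw [hre]
      exact ⟨sin_neg_ne (by nlinarith) (by nlinarith), sin_neg_ne (by nlinarith) (by nlinarith),
        sin_neg_ne (by nlinarith) (by nlinarith)⟩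
    have hN' : NH (posS e t - l).re := by
      rw [hre']
      exact ⟨sin_neg_ne (by nlinarith) (by nlinarith), sin_neg_ne (by nlinarith) (by nlinarith),
        sin_neg_ne (by nlinarith) (by nlinarith)⟩
    have h3 : Complex.sin (posS e t + l / 2) ≠ 0 :=
      hp hre (sin_neg_ne (by nlinarith) (by nlinarith))
    have h4 : Complex.sin (posS e t - l + l / 2) ≠ 0 :=
      hp hre' (sin_neg_ne (by nlinarith) (by nlinarith))
    show ‖R1 (c a) M (posS e t) * R1 (c a) M (posS e t - l) * phN (4 / 3) N (posS e t) *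
      s2 a (posS e t)‖ ≤ _
    rw [norm_mul, norm_mul, norm_mul, phN_eq]
    have key := hstr a (posS e t) hN h3 hN' h4 ((hS a).2 r e t htE h1 h2)
    calc _ = (‖R1 (c a) M (posS e t)‖ * ‖R1 (c a) M (posS e t - l)‖ * ‖s2 a (posS e t)‖) *
          ‖phP N (4 / 3) (posS e t)‖ := by ring
      _ ≤ _ := mul_le_mul_of_nonneg_right key (norm_nonneg _)
  · intro a r e h1 h2 u hu
    have he1 := hP.e1
    have he2 := hP.e2 r
    have hd0 := hP.d0 r
    have hu' := abs_le.1 hu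
    have hr1 : (0 : ℝ) ≤ r := by positivity
    have hrad : l * P.d r / (8 * (r + 1)) ≤ l / 8 := by
      rw [div_le_iff₀ (by positivity)]
      nlinarith [mul_nonneg hl.le hr1]
    have u1 : 1 / 2 * l ≤ u.re - l / 16 := by nlinarith
    have u2 : u.re ≤ 6 / 5 * l := by nlinarith
    refine le_of_eq (hone a u ?_ (hp rfl ?_))
    · exact ⟨sin_pos_ne (by linarith) (by linarith), sin_neg_ne (by linarith) (by linarith),
        sin_neg_ne (by linarith) (by linarith)⟩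
    · exact sin_pos_ne (by linarith) (by linarith)
  · intro a u hu
    have u1 := hu.1
    have u2 := hu.2
    have u3 : u.re ≤ 6 / 5 * l := by nlinarith
    refine le_of_eq (hone a u ?_ (hp rfl ?_))
    · exact ⟨sin_pos_ne (by linarith) (by linarith), sin_neg_ne (by linarith) (by linarith),
        sin_neg_ne (by linarith) (by linarith)⟩
    · exact sin_pos_ne (by linarith) (by linarith)
  · intro a u u1 u2
    have u3 : u.re ≤ 21 / 20 * l := by nlinarith
    have hN : NH u.re := ⟨sin_pos_ne (by linarith) (by linarith),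
      sin_neg_ne (by linarith) (by linarith), sin_neg_ne (by linarith) (by linarith)⟩
    have h2 := diffAt_R1 (c a) M hN (sin_pos_ne (by linarith) (by linarith))
    have h3 := diffAt_phN (β := β) N (z := u) (NC_strip hβ hβ' (by linarith) (by linarith))
    exact (h2.mul h3).mul ((hA a).df u ⟨u1, u3⟩)
  · intro a
    have hK : IsCompact (Set.Icc x0 (21 / 20 * l)) := isCompact_Icc
    have h2 := bdd_R1 (c a) M hK fun x hx =>
      ⟨⟨sin_pos_ne (by linarith [hx.1]) (by linarith [hx.2]),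
        sin_neg_ne (by linarith [hx.2]) (by linarith [hx.1]),
        sin_neg_ne (by linarith [hx.2]) (by linarith [hx.1])⟩,
        sin_pos_ne (by linarith [hx.1]) (by linarith [hx.2])⟩
    have h3 := bdd_phN hβ N hK fun x hx =>
      NC_strip hβ hβ' (by linarith [hx.1]) (by linarith [hx.2])
    have h4 := (h2.mul h3).mul (hA a).bd
    have h5 : Bdd (Set.Icc x0 (21 / 20 * l)) (-(2 * β + 2 * (sg a * q : ℤ)))
        (XH (c a) β M N (s1 a) (s2 a) none) := by
      refine h4.rate ?_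
      cases a <;> simp [sc, sg, Bd.chg] <;> ring
    obtain ⟨C, hC, hb⟩ := h5
    exact ⟨C, hC, fun z hz => hb z ⟨hz.1, hz.2.trans (by nlinarith)⟩⟩

/-- **The one body functions of a class are bounded by its one body data.** -/
theorem oneC_XH (hP : ParC P) (hep0 : 0 < ep) (hep : ep ≤ 1 / 100) (hβ : 0 < β) (hβ' : β ≤ 4 / 3)
    (hMN : M ≤ N) (hc : ∀ a, ‖c a‖ = 2 * Real.cos l) {q : ℤ}
    (hm1 : ∀ a, Measurable (s1 a)) (hm2 : ∀ a, Measurable (s2 a))
    (hA : ∀ a, SpecA a q (s1 a)) (hS : ∀ a, SpecS P E (s1 a) (s2 a))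
    (hE : volume E = 0) :
    OneC (fun a => XH (c a) β M N (s1 a) (s2 a))
      (obC ((M : ℝ) + 1 / 2) N β fun a u => ThN u * ‖s1 a u‖) P ep (2 * β) (3 / 5 * l) q
      (E ∪ {0}) := by
  have hl := l_pos
  exact oneC_XHt le_rfl (by linarith) hP hep0 hep hβ hβ' hMN hc hm1 hm2 (fun a => (hA a).at) hS hE

end NUGC

end
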