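import Pool.Agent.NUCR.Bil
import Pool.Agent.NUCR.Prof

/-!
# G4: the current of the GAM window (target C of nu34)

`tent D a = j3 D 0 a a`: the smoothed tent of slopes `± a`, centred at `0`, half width `D`.
* `exists_tent`: the test current `h` of the window `T = (3/8) log m`,
  `(9π²/32) ∫ (h')² - 12 l h(0) ≤ -(1 - 4 e1) T + C`.
* `energy_self_le`: `∫ h'(t) ∫ V(t - y) h'(y) ≤ (9π²/32) ∫ (h')²`.
* `parts`, `parts_sum`: `|∫ h' D + (L₊ - L₋) h(t₀)| ≤ (8/κ²) a C1` for profiles with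
  exponentially localised derivative.
-/

set_option autoImplicit false

open MeasureTheory Set Filter Topology

namespace NUGC

open NUCR

noncomputable section

/-! ### The tent -/

/-- smoothed tent -/
def tent (D a : ℝ) : ℝ → ℝ := j3 D 0 a a

/-- its derivative -/
def tent' (D a : ℝ) : ℝ → ℝ := d3 D 0 a a

theorem bu_neg (x : ℝ) : bu (-x) = bu x := bb.normed_neg x

theorem Ph_neg (x : ℝ) : Ph (-x) = 1 - Ph x := by
  have h1 : ∀ t, HasDerivAt (fun t => Ph (-t) + Ph t) 0 t := by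
    intro t
    have d1 : HasDerivAt (fun t => Ph (-t)) (bu (-t) * (-1)) t :=
      (Ph_deriv (-t)).comp t (hasDerivAt_neg t)
    refine (d1.add (Ph_deriv t)).congr_deriv ?_
    rw [bu_neg]; ring
  have h2 := is_const_of_deriv_eq_zero (f := fun t => Ph (-t) + Ph t)
    (fun t => (h1 t).differentiableAt) (fun t => (h1 t).deriv) x 1
  rw [Ph_right le_rfl, Ph_left le_rfl] at h2
  linarith

theorem Ps_neg (x : ℝ) : Ps (-x) = Ps x - x := by
  have h1 : ∀ t, HasDerivAt (fun t => Ps (-t) - (Ps t - t)) 0 t := by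
    intro t
    have d1 : HasDerivAt (fun t => Ps (-t)) (Ph (-t) * (-1)) t :=
      (Ps_deriv (-t)).comp t (hasDerivAt_neg t)
    refine (d1.sub ((Ps_deriv t).sub (hasDerivAt_id t))).congr_deriv ?_
    rw [Ph_neg]; ring
  have h2 := is_const_of_deriv_eq_zero (f := fun t => Ps (-t) - (Ps t - t))
    (fun t => (h1 t).differentiableAt) (fun t => (h1 t).deriv) x 0
  simp only [neg_zero] at h2
  linarith

variable {D a : ℝ}

theorem tent_deriv (D a t : ℝ) : HasDerivAt (tent D a) (tent' D a t) t := j3_deriv D 0 a a t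

theorem tent_even (D a t : ℝ) : tent D a (-t) = tent D a t := by
  unfold tent j3
  have e1 : Ps (-t + D) = Ps (t - D) - (t - D) := by rw [← Ps_neg]; congr 1; ring
  have e2 : Ps (-t - 0) = Ps (t - 0) - (t - 0) := by rw [← Ps_neg]; congr 1; ring
  have e3 : Ps (-t - D) = Ps (t + D) - (t + D) := by rw [← Ps_neg]; congr 1; ring
  rw [e1, e2, e3]; ring

/-- the piecewise linear tent -/
theorem l3_tent (hD : 0 ≤ D) (t : ℝ) : l3 D 0 a a t = a * max (D - |t|) 0 := by
  unfold l3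
  rcases le_total 0 t with h0 | h0
  · rw [abs_of_nonneg h0, max_eq_left (show 0 ≤ t + D by linarith),
      max_eq_left (show 0 ≤ t - 0 by linarith)]
    rcases le_total t D with h1 | h1
    · rw [max_eq_right (show t - D ≤ 0 by linarith), max_eq_left (show 0 ≤ D - t by linarith)]
      ring
    · rw [max_eq_left (show 0 ≤ t - D by linarith), max_eq_right (show D - t ≤ 0 by linarith)]
      ring
  · rw [abs_of_nonpos h0, max_eq_right (show t - D ≤ 0 by linarith),
      max_eq_right (show t - 0 ≤ 0 by linarith)]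
    rcases le_total (-t) D with h1 | h1
    · rw [max_eq_left (show 0 ≤ t + D by linarith), max_eq_left (show 0 ≤ D - -t by linarith)]
      ring
    · rw [max_eq_right (show t + D ≤ 0 by linarith), max_eq_right (show D - -t ≤ 0 by linarith)]
      ring

theorem tent_bd (hD : 0 ≤ D) (ha : 0 ≤ a) (t : ℝ) : 0 ≤ tent D a t ∧ tent D a t ≤ a * D := by
  refine j3_mem (fun t => ?_) t
  rw [l3_tent hD]
  constructor
  · exact mul_nonneg ha (le_max_right _ _)
  · exact mul_le_mul_of_nonneg_left (max_le (by linarith [abs_nonneg t]) hD) ha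

theorem tent_ge (hD : 0 ≤ D) (ha : 0 ≤ a) (t : ℝ) : a * (D - |t|) - 4 * a ≤ tent D a t := by
  have h1 := j3_sub D 0 a a t
  rw [l3_tent hD, abs_of_nonneg ha, abs_le] at h1
  have h2 : a * (D - |t|) ≤ a * max (D - |t|) 0 := mul_le_mul_of_nonneg_left (le_max_left _ _) ha
  unfold tent
  linarith [h1.1]

theorem tent_out (hD : 0 ≤ D) {t : ℝ} (h : D + 1 ≤ |t|) : tent D a t = 0 := by
  have h0 : ∀ t, D + 1 ≤ t → tent D a t = 0 := fun t ht => by
    unfold tent
    rw [j3_right (by linarith) hD ht]; ring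
  rcases le_total 0 t with h1 | h1
  · rw [abs_of_nonneg h1] at h; exact h0 t h
  · rw [abs_of_nonpos h1] at h; rw [← tent_even]; exact h0 _ h

theorem tent_cs (hD : 0 ≤ D) : HasCompactSupport (tent D a) := by
  apply HasCompactSupport.of_support_subset_isCompact (isCompact_Icc (a := -(D + 1)) (b := D + 1))
  intro t ht
  rw [Function.mem_support] at ht
  rw [mem_Icc, ← abs_le]
  by_contra h
  exact ht (tent_out hD (by linarith))

theorem tent'_cs (hD : 0 ≤ D) : HasCompactSupport (tent' D a) := d3_support (by linarith) hD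

theorem tent'_cont (D a : ℝ) : Continuous (tent' D a) := d3_cont D 0 a a

/-- the slope is at most `a`: monotonicity of the distribution function -/
theorem tent'_abs (hD : 0 ≤ D) (ha : 0 ≤ a) (t : ℝ) : |tent' D a t| ≤ a := by
  have m1 := Ph_mono (show t - 0 ≤ t + D by linarith)
  have m2 := Ph_mono (show t - D ≤ t - 0 by linarith)
  have m3 := Ph_le_one (t + D)
  have m4 := Ph_nonneg (t - D)
  have e : tent' D a t = a * ((Ph (t + D) - Ph (t - 0)) - (Ph (t - 0) - Ph (t - D))) := by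
    unfold tent' d3; ring
  rw [e, abs_mul, abs_of_nonneg ha]
  calc _ ≤ a * 1 := mul_le_mul_of_nonneg_left (by rw [abs_le]; constructor <;> linarith) ha
    _ = a := mul_one a

theorem tent_lip (hD : 0 ≤ D) (ha : 0 ≤ a) (x y : ℝ) : |tent D a x - tent D a y| ≤ a * |x - y| := by
  have := Convex.norm_image_sub_le_of_norm_hasDerivWithin_le (f := tent D a)
    (f' := tent' D a) (s := univ) (C := a) (x := y) (y := x)
    (fun t _ => (tent_deriv D a t).hasDerivWithinAt)
    (fun t _ => by rw [Real.norm_eq_abs]; exact tent'_abs hD ha t)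
    convex_univ (mem_univ y) (mem_univ x)
  simpa [Real.norm_eq_abs] using this

theorem tent_energy (hD : 0 ≤ D) : ∫ t, tent' D a t ^ 2 ≤ 2 * a ^ 2 * D := by
  have h := d3_energy (D := D) (ts := 0) (a := a) (c := a) (by linarith) hD
  unfold tent'
  linarith

/-- the slope of the optimal tent: `3 l / kap0 = 4 / (3 π)` -/
def aC : ℝ := 4 / (3 * Real.pi)

theorem aC_pos : 0 < aC := by unfold aC; positivity

theorem aC_le : aC ≤ 1 / 2 := by
  unfold aC
  rw [div_le_div_iff₀ (by positivity) (by norm_num)]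
  nlinarith [Real.pi_gt_three]

/-- energy of the tent: `kap0 ∫ h'² - 12 l h(0) ≤ -D + 8` -/
theorem tent_main (hD : 0 ≤ D) :
    9 * Real.pi ^ 2 / 32 * (∫ t, tent' D aC t ^ 2) - 12 * (Real.pi / 8) * tent D aC 0 ≤ -D + 8 := by
  have h1 := tent_energy (a := aC) hD
  have h2 := tent_ge (D := D) hD aC_pos.le 0
  rw [abs_zero, sub_zero] at h2
  have hp := Real.pi_pos
  have h3 : 9 * Real.pi ^ 2 / 32 * (∫ t, tent' D aC t ^ 2) ≤ 9 * Real.pi ^ 2 / 32 * (2 * aC ^ 2 * D) :=
    mul_le_mul_of_nonneg_left h1 (by positivity)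
  have h4 : 12 * (Real.pi / 8) * (aC * D - 4 * aC) ≤ 12 * (Real.pi / 8) * tent D aC 0 :=
    mul_le_mul_of_nonneg_left h2 (by positivity)
  have e1 : 9 * Real.pi ^ 2 / 32 * (2 * aC ^ 2 * D) = D := by
    unfold aC; field_simp; ring
  have e2 : 12 * (Real.pi / 8) * (aC * D - 4 * aC) = 2 * D - 8 := by
    unfold aC; field_simp; ring
  linarith

/-! ### The current of the window -/

/-- all facts on the current of the GAM window with `T = (3/8) log m` -/
theorem exists_tent : ∃ C : ℝ, 0 ≤ C ∧ ∀ e1 K : ℝ, 0 < e1 → e1 ≤ 1 / 100 → 0 ≤ K → ∃ m0 : ℝ, 1 ≤ m0 ∧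
    ∀ m : ℝ, m0 ≤ m → ∃ D : ℝ, D = (1 - e1) * (3 / 8 * Real.log m) - 2 ∧ 0 ≤ D ∧
      ContDiff ℝ 4 (tent D aC) ∧ (∀ t, tent D aC (-t) = tent D aC t) ∧ (∀ t, 0 ≤ tent D aC t) ∧
      (∀ t, (1 - e1) * (3 / 8 * Real.log m) - 1 ≤ |t| → tent D aC t = 0) ∧
      (∀ t, |t| ≤ (1 - 2 * e1) * (3 / 8 * Real.log m) → K ≤ tent D aC t) ∧
      (∀ k, k ≤ 4 → ∀ t, |iteratedDeriv k (tent D aC) t| ≤ C * Real.log m) ∧
      (∀ k, 1 ≤ k → k ≤ 4 → ∀ t, |iteratedDeriv k (tent D aC) t| ≤ C) ∧
      9 * Real.pi ^ 2 / 32 * (∫ t, (deriv (tent D aC) t) ^ 2) - 12 * (Real.pi / 8) * tent D aC 0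
        ≤ -(1 - 4 * e1) * (3 / 8 * Real.log m) + C := by
  obtain ⟨C4, hC1, hC4⟩ := j3_iter_le 4
  have ha := aC_pos
  have ha' := aC_le
  refine ⟨C4 + 10, by linarith, fun e1 K he1 he1' hK => ?_⟩
  obtain ⟨y0, hy0⟩ : ∃ y0 : ℝ, y0 = 1 + 3 + 8 / 3 * ((K / aC + 6) / e1) := ⟨_, rfl⟩
  have hy1 : 4 ≤ y0 := by
    have : 0 ≤ (K / aC + 6) / e1 := by positivity
    rw [hy0]; linarith
  refine ⟨Real.exp (2 * y0), Real.one_le_exp (by linarith), fun m hm => ?_⟩
  have hm0 : 0 < m := (Real.exp_pos _).trans_le hm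
  have hlog : 2 * y0 ≤ Real.log m := by
    rw [Real.le_log_iff_exp_le hm0]; exact hm
  set L := Real.log m with hL
  have hL8 : 8 ≤ L := by linarith
  have hD0 : 0 ≤ (1 - e1) * (3 / 8 * L) - 2 := by nlinarith
  refine ⟨(1 - e1) * (3 / 8 * L) - 2, rfl, hD0, j3_smooth _ _ _ _ 4, tent_even _ _,
    fun t => (tent_bd hD0 ha.le t).1, fun t ht => tent_out hD0 (by linarith), fun t ht => ?_,
    fun k hk t => ?_, fun k hk1 hk t => ?_, ?_⟩
  · have h1 := tent_ge hD0 ha.le t
    have h2 : K / aC + 6 ≤ e1 * (3 / 8 * L) := by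
      have h3 : 8 / 3 * ((K / aC + 6) / e1) ≤ L := by
        have : 0 ≤ (K / aC + 6) / e1 := by positivity
        rw [hy0] at hlog; linarith
      have h4 : (K / aC + 6) / e1 ≤ 3 / 8 * L := by linarith
      rw [div_le_iff₀ he1] at h4
      linarith
    have h5 : K + 6 * aC ≤ aC * (e1 * (3 / 8 * L)) := by
      have := mul_le_mul_of_nonneg_left h2 ha.le
      have e : aC * (K / aC + 6) = K + 6 * aC := by field_simp
      linarith
    have h6 : aC * |t| ≤ aC * ((1 - 2 * e1) * (3 / 8 * L)) := mul_le_mul_of_nonneg_left ht ha.le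
    have e7 : aC * ((1 - e1) * (3 / 8 * L) - 2 - |t|) =
        aC * ((1 - 2 * e1) * (3 / 8 * L)) - aC * |t| + aC * (e1 * (3 / 8 * L)) - 2 * aC := by ring
    linarith
  · rcases Nat.eq_zero_or_pos k with h0 | h0
    · subst h0
      rw [iteratedDeriv_zero, abs_of_nonneg (tent_bd hD0 ha.le t).1]
      have h1 := (tent_bd (D := (1 - e1) * (3 / 8 * L) - 2) hD0 ha.le t).2
      have h2 : aC * ((1 - e1) * (3 / 8 * L) - 2) ≤ 1 * L := by
        apply mul_le_mul (by linarith) _ hD0 zero_le_one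
        nlinarith
      nlinarith
    · have h1 := hC4 ((1 - e1) * (3 / 8 * L) - 2) 0 aC aC k h0 hk t
      rw [abs_of_pos ha] at h1
      have h2 : |iteratedDeriv k (tent ((1 - e1) * (3 / 8 * L) - 2) aC) t| ≤ C4 := by
        refine h1.trans ?_
        nlinarith
      nlinarith
  · have h1 := hC4 ((1 - e1) * (3 / 8 * L) - 2) 0 aC aC k hk1 hk t
    rw [abs_of_pos ha] at h1
    refine h1.trans ?_
    nlinarith
  · have h1 := tent_main hD0
    have e : deriv (tent ((1 - e1) * (3 / 8 * L) - 2) aC) = tent' ((1 - e1) * (3 / 8 * L) - 2) aC :=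
      funext fun t => (tent_deriv _ _ t).deriv
    rw [e]
    refine h1.trans ?_
    nlinarith

/-! ### The self energy of the current -/

theorem BI_tent' (hD : 0 ≤ D) (ha : 0 ≤ a) : BI a (tent' D a) :=
  ⟨(tent'_cont D a).integrable_of_hasCompactSupport (tent'_cs hD), tent'_abs hD ha⟩

/-- Young's inequality for the energy form, written out -/
theorem energy_self_le {M : ℝ} {b : ℝ → ℝ} (hb : BI M b) :
    ∫ t, b t * (∫ y, NUMF.V (t - y) * b y) ≤ 9 * Real.pi ^ 2 / 32 * ∫ t, b t ^ 2 := by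
  have h := bil_self_le hb
  unfold bil cv kap0 at h
  exact h

theorem tent_self_le (hD : 0 ≤ D) (ha : 0 ≤ a) :
    ∫ t, tent' D a t * (∫ y, NUMF.V (t - y) * tent' D a y) ≤
      9 * Real.pi ^ 2 / 32 * ∫ t, tent' D a t ^ 2 := energy_self_le (BI_tent' hD ha)

/-! ### Integration by parts against localised derivatives -/

theorem int_exp_abs' {κ : ℝ} (hκ : 0 < κ) : Integrable fun y : ℝ => Real.exp (-κ * |y|) := by
  rw [← integrableOn_univ, ← Iic_union_Ioi (a := (0 : ℝ)), integrableOn_union]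
  constructor
  · have h := integrableOn_exp_mul_Iic hκ 0
    refine h.congr_fun (fun y hy => ?_) measurableSet_Iic
    have hy' : y ≤ 0 := hy
    simp only
    rw [abs_of_nonpos hy']; congr 1; ring
  · have h := integrableOn_exp_mul_Ioi (show -κ < 0 by linarith) 0
    refine h.congr_fun (fun y hy => ?_) measurableSet_Ioi
    have hy' : 0 < y := hy
    simp only
    rw [abs_of_pos hy']

theorem int_exp_abs {κ : ℝ} (hκ : 0 < κ) (t0 : ℝ) :
    Integrable (fun t : ℝ => Real.exp (-κ * |t - t0|)) ∧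
      ∫ t : ℝ, Real.exp (-κ * |t - t0|) = 2 / κ := by
  have hI : IntegrableOn (fun t : ℝ => Real.exp (-κ * t)) (Ioi 0) := integrableOn_exp_mul_Ioi (by linarith) 0
  have e0 : ∫ t in Ioi (0:ℝ), Real.exp (-κ * t) = 1 / κ := by
    rw [integral_exp_mul_Ioi (by linarith) 0]
    simp
  have h1 : Integrable (fun t : ℝ => Real.exp (-κ * |t|)) := int_exp_abs' hκ
  have e1 : ∫ t : ℝ, Real.exp (-κ * |t|) = 2 / κ := by
    have := integral_comp_abs (f := fun x => Real.exp (-κ * x))
    rw [this, e0]; ring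
  constructor
  · exact h1.comp_sub_right t0
  · rw [integral_sub_right_eq_self (fun t : ℝ => Real.exp (-κ * |t|)) t0, e1]

theorem lin_exp {κ : ℝ} (hκ : 0 < κ) (x : ℝ) :
    |x| * Real.exp (-κ * |x|) ≤ 2 / κ * Real.exp (-(κ / 2) * |x|) := by
  have h1 : κ / 2 * |x| ≤ Real.exp (κ / 2 * |x|) := by
    have := Real.add_one_le_exp (κ / 2 * |x|)
    linarith
  have h2 : |x| ≤ 2 / κ * Real.exp (κ / 2 * |x|) := by
    have := mul_le_mul_of_nonneg_left h1 (show 0 ≤ 2 / κ by positivity)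
    have e : 2 / κ * (κ / 2 * |x|) = |x| := by field_simp
    linarith
  calc |x| * Real.exp (-κ * |x|) ≤ 2 / κ * Real.exp (κ / 2 * |x|) * Real.exp (-κ * |x|) :=
        mul_le_mul_of_nonneg_right h2 (Real.exp_pos _).le
    _ = 2 / κ * Real.exp (-(κ / 2) * |x|) := by
        rw [mul_assoc, ← Real.exp_add]
        congr 2; ring

/-- `∫ h' D = -(L₊ - L₋) h(t₀)` up to a bounded error, for `D'` localised at `t₀` -/
theorem parts {h h' E dd : ℝ → ℝ} {C1 κ A t0 Lp Lm : ℝ} (dh : ∀ t, HasDerivAt h (h' t) t)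
    (ch' : Continuous h') (hs : HasCompactSupport h) (dE : ∀ t, HasDerivAt E (dd t) t)
    (cdd : Continuous dd) (hκ : 0 < κ) (hb : ∀ t, |dd t| ≤ C1 * Real.exp (-κ * |t - t0|))
    (hL : ∀ t, |h t - h t0| ≤ A * |t - t0|) (lp : Tendsto E atTop (𝓝 Lp))
    (lm : Tendsto E atBot (𝓝 Lm)) :
    Integrable (fun t => h' t * E t) ∧
    |(∫ t, h' t * E t) + (Lp - Lm) * h t0| ≤ 8 / κ ^ 2 * (A * C1) := by
  have hC : 0 ≤ C1 := by
    have := (abs_nonneg _).trans (hb t0)
    rw [sub_self, abs_zero, mul_zero, Real.exp_zero, mul_one] at this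
    exact this
  have hA : 0 ≤ A := by
    have := (abs_nonneg _).trans (hL (t0 + 1))
    rw [add_sub_cancel_left, abs_one, mul_one] at this
    exact this
  have ch : Continuous h := continuous_iff_continuousAt.2 fun t => (dh t).continuousAt
  have cE : Continuous E := continuous_iff_continuousAt.2 fun t => (dE t).continuousAt
  have hs' : HasCompactSupport h' := by
    have : deriv h = h' := funext fun t => (dh t).deriv
    rw [← this]; exact hs.deriv
  have i1 : Integrable (fun t => h' t * E t) :=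
    (ch'.mul cE).integrable_of_hasCompactSupport hs'.mul_right
  have i2 : Integrable (fun t => h t * dd t) :=
    (ch.mul cdd).integrable_of_hasCompactSupport hs.mul_right
  have i3 : Integrable (fun t => h t * E t) :=
    (ch.mul cE).integrable_of_hasCompactSupport hs.mul_right
  obtain ⟨ie, _⟩ := int_exp_abs hκ t0
  have i4 : Integrable dd := (ie.const_mul C1).mono' cdd.aestronglyMeasurable
    (Eventually.of_forall fun t => by rw [Real.norm_eq_abs]; exact hb t)
  have e4 : ∫ t, dd t = Lp - Lm := integral_of_hasDerivAt_of_tendsto dE i4 lm lp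
  have e5 : ∫ t, h t * dd t = - ∫ t, h' t * E t :=
    integral_mul_deriv_eq_deriv_mul_of_integrable (u := h) (v := E) (u' := h') (v' := dd) (fun t _ => dh t) (fun t _ => dE t) i2 i1 i3
  refine ⟨i1, ?_⟩
  have e6 : (∫ t, h' t * E t) + (Lp - Lm) * h t0 = - ∫ t, (h t - h t0) * dd t := by
    have i5 : Integrable (fun t => h t0 * dd t) := i4.const_mul _
    have : ∫ t, (h t - h t0) * dd t = (∫ t, h t * dd t) - ∫ t, h t0 * dd t := by
      rw [← integral_sub i2 i5]
      exact integral_congr_ae (Eventually.of_forall fun t => by simp only; ring)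
    rw [this, integral_const_mul, e4, e5]; ring
  rw [e6, abs_neg]
  obtain ⟨ie2, ee2⟩ := int_exp_abs (show 0 < κ / 2 by linarith) t0
  have hpt : ∀ t, |(h t - h t0) * dd t| ≤ A * C1 * (2 / κ) * Real.exp (-(κ / 2) * |t - t0|) := by
    intro t
    rw [abs_mul]
    calc |h t - h t0| * |dd t| ≤ (A * |t - t0|) * (C1 * Real.exp (-κ * |t - t0|)) :=
          mul_le_mul (hL t) (hb t) (abs_nonneg _) (by positivity)
      _ = A * C1 * (|t - t0| * Real.exp (-κ * |t - t0|)) := by ring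
      _ ≤ A * C1 * (2 / κ * Real.exp (-(κ / 2) * |t - t0|)) :=
          mul_le_mul_of_nonneg_left (lin_exp hκ _) (by positivity)
      _ = _ := by ring
  calc |∫ t, (h t - h t0) * dd t| ≤ ∫ t, |(h t - h t0) * dd t| := abs_integral_le_integral_abs
    _ ≤ ∫ t, A * C1 * (2 / κ) * Real.exp (-(κ / 2) * |t - t0|) := by
        apply integral_mono_of_nonneg (Eventually.of_forall fun t => abs_nonneg _)
          (ie2.const_mul _) (Eventually.of_forall hpt)
    _ = A * C1 * (2 / κ) * (2 / (κ / 2)) := by rw [integral_const_mul, ee2]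
    _ = 8 / κ ^ 2 * (A * C1) := by field_simp; ring

/-- the finite sum version -/
theorem parts_sum {ι : Type*} (s : Finset ι) {h h' : ℝ → ℝ} {E dd : ι → ℝ → ℝ} {C1 κ A : ℝ}
    {t0 Lp Lm : ι → ℝ} (dh : ∀ t, HasDerivAt h (h' t) t)
    (ch' : Continuous h') (hs : HasCompactSupport h)
    (dE : ∀ j ∈ s, ∀ t, HasDerivAt (E j) (dd j t) t)
    (cdd : ∀ j ∈ s, Continuous (dd j)) (hκ : 0 < κ)
    (hb : ∀ j ∈ s, ∀ t, |dd j t| ≤ C1 * Real.exp (-κ * |t - t0 j|))
    (hL : ∀ t u, |h t - h u| ≤ A * |t - u|) (lp : ∀ j ∈ s, Tendsto (E j) atTop (𝓝 (Lp j)))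
    (lm : ∀ j ∈ s, Tendsto (E j) atBot (𝓝 (Lm j))) :
    Integrable (fun t => h' t * ∑ j ∈ s, E j t) ∧
    |(∫ t, h' t * ∑ j ∈ s, E j t) + ∑ j ∈ s, (Lp j - Lm j) * h (t0 j)| ≤
      (s.card : ℝ) * (8 / κ ^ 2 * (A * C1)) := by
  have hp := fun j hj => parts (t0 := t0 j) dh ch' hs (dE j hj) (cdd j hj) hκ (hb j hj)
    (fun t => hL t (t0 j)) (lp j hj) (lm j hj)
  have e : (fun t => h' t * ∑ j ∈ s, E j t) = fun t => ∑ j ∈ s, h' t * E j t := by
    funext t; rw [Finset.mul_sum]
  rw [e]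
  refine ⟨integrable_finsetSum _ fun j hj => (hp j hj).1, ?_⟩
  rw [integral_finsetSum _ fun j hj => (hp j hj).1, ← Finset.sum_add_distrib]
  calc |∑ j ∈ s, ((∫ t, h' t * E j t) + (Lp j - Lm j) * h (t0 j))|
      ≤ ∑ j ∈ s, |(∫ t, h' t * E j t) + (Lp j - Lm j) * h (t0 j)| := Finset.abs_sum_le_sum_abs _ _
    _ ≤ ∑ j ∈ s, 8 / κ ^ 2 * (A * C1) := Finset.sum_le_sum fun j hj => (hp j hj).2
    _ = _ := by rw [Finset.sum_const, nsmul_eq_mul]

end

end NUGC
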