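import Pool.Agent.NUSea.Eta
import Pool.Agent.NUSea.Bfin
import Pool.Agent.NUGC.CurC
import Pool.Agent.NUCR.DefB
import Pool.Agent.NUO.CurA

/-!
# The curve of TARGET-C

`hC e1 J m = tent (DC e1 m) aC + cur e1 T J`, `T = Tb (log m)`: the current (tent plus plateau of
height `J`); `etaC e1 J m s = hC / (s P)`: the displacement, for any sea and any real row number
`s` with `m / 2 ≤ s ≤ 2 m`.

* `hC_*`: smoothness, values, plateau, support, derivatives, Lipschitz bound of the current;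
* `exists_curC`: the displacement is an admissible current, `ε ≤ m^{-e1/2}`, `M = C log m`;
* `curOKC`: `CurB ep`; `hd_curC`, `lip_curC`; `energyC`, `bil_curC`: the energy of the current.
-/

set_option autoImplicit false
set_option linter.unusedSectionVars false

open MeasureTheory Set Filter Topology

namespace NUGC

open NUO NUCR

noncomputable section

/-! ### the current -/

/-- half width of the tent -/
def DC (e1 : ℝ) (m : ℕ) : ℝ := (1 - e1) * Tb (Real.log m) - 2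

/-- **the current of TARGET-C** -/
def hC (e1 J : ℝ) (m : ℕ) (t : ℝ) : ℝ := tent (DC e1 m) aC t + NUCUR.cur e1 (Tb (Real.log m)) J t

variable {e1 J : ℝ} {m : ℕ}

theorem DC_nonneg (he1 : e1 ≤ 1 / 100) (hT : 20 ≤ Tb (Real.log m)) : 0 ≤ DC e1 m := by
  unfold DC
  nlinarith

theorem DC_le (he : 0 ≤ e1) : DC e1 m ≤ Tb (Real.log m) := by
  unfold DC Tb
  have := log_nn m
  nlinarith

theorem hC_contDiff (e1 J : ℝ) (m n : ℕ) : ContDiff ℝ n (hC e1 J m) :=
  (j3_smooth _ _ _ _ n).add (NUCUR.cur_contDiff (n := (n : ℕ∞)))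

theorem hC_cont (e1 J : ℝ) (m : ℕ) : Continuous (hC e1 J m) := (hC_contDiff e1 J m 1).continuous

theorem hC_even (e1 J : ℝ) (m : ℕ) (t : ℝ) : hC e1 J m (-t) = hC e1 J m t := by
  unfold hC
  rw [tent_even, NUCUR.cur_neg]

theorem hC_deriv (e1 J : ℝ) (m : ℕ) (t : ℝ) : HasDerivAt (hC e1 J m) (deriv (hC e1 J m) t) t :=
  (((hC_contDiff e1 J m 1).differentiable (by simp)) t).hasDerivAt

theorem deriv_hC (e1 J : ℝ) (m : ℕ) : deriv (hC e1 J m) =
    fun t => tent' (DC e1 m) aC t + deriv (NUCUR.cur e1 (Tb (Real.log m)) J) t := by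
  funext t
  have h1 : HasDerivAt (NUCUR.cur e1 (Tb (Real.log m)) J)
      (deriv (NUCUR.cur e1 (Tb (Real.log m)) J) t) t :=
    (((NUCUR.cur_contDiff (n := (1 : ℕ∞))).differentiable (by simp)) t).hasDerivAt
  exact ((tent_deriv _ _ t).add h1).deriv

theorem hC_nonneg (he1 : e1 ≤ 1 / 100) (hJ : 0 ≤ J) (hT : 20 ≤ Tb (Real.log m)) (t : ℝ) :
    0 ≤ hC e1 J m t :=
  add_nonneg (tent_bd (DC_nonneg he1 hT) aC_pos.le t).1 (NUCUR.cur_nonneg hJ t)

theorem hC_ge (he : 0 < e1) (he1 : e1 ≤ 1 / 100) (hT : 20 ≤ Tb (Real.log m)) {t : ℝ}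
    (ht : |t| ≤ (1 - 2 * e1) * Tb (Real.log m)) : J ≤ hC e1 J m t := by
  have h1 := (tent_bd (DC_nonneg he1 hT) aC_pos.le t).1
  have h2 : NUCUR.cur e1 (Tb (Real.log m)) J t = J := NUCUR.cur_eq he (by linarith) ht
  unfold hC
  linarith

/-- the tent is at least `K` on the plateau for large `m`: more than `J` -/
theorem hC_eq (he : 0 < e1) (hT : 20 ≤ Tb (Real.log m)) {t : ℝ}
    (ht : |t| ≤ (1 - 2 * e1) * Tb (Real.log m)) : hC e1 J m t = tent (DC e1 m) aC t + J := by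
  unfold hC
  rw [NUCUR.cur_eq he (by linarith) ht]

/-- support -/
theorem hC_zero (he : 0 < e1) (he1 : e1 ≤ 1 / 100) (hT : 20 ≤ Tb (Real.log m)) {t : ℝ}
    (ht : (1 - e1) * Tb (Real.log m) ≤ |t|) : hC e1 J m t = 0 := by
  unfold hC
  rw [tent_out (DC_nonneg he1 hT) (by unfold DC; linarith), NUCUR.cur_zero he (by linarith) ht,
    add_zero]

theorem hC_cs (he : 0 < e1) (he1 : e1 ≤ 1 / 100) (hT : 20 ≤ Tb (Real.log m)) :
    HasCompactSupport (hC e1 J m) :=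
  (tent_cs (DC_nonneg he1 hT)).add (NUCUR.cur_supp he (by linarith))

theorem hC_zero' (he : 0 < e1) (he1 : e1 ≤ 1 / 100) (hT : 20 ≤ Tb (Real.log m)) {t : ℝ}
    (ht : (1 - e1) * Tb (Real.log m) < |t|) : deriv (hC e1 J m) t = 0 := by
  have h := NUCUR.iter_zero_out (f := hC e1 J m) (fun t ht => hC_zero he he1 hT ht) 1 t ht
  rwa [iteratedDeriv_one] at h

/-- the value at zero is the largest one -/
theorem tent_le_zero {D a : ℝ} (hD : 2 ≤ D) (ha : 0 ≤ a) (t : ℝ) : tent D a t ≤ tent D a 0 := by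
  have key : ∀ t, 0 ≤ t → tent D a t ≤ tent D a 0 := by
    intro t ht
    have h1 : AntitoneOn (tent D a) (Ici 0) := by
      apply antitoneOn_of_deriv_nonpos (convex_Ici 0)
      · exact (continuous_iff_continuousAt.2 fun t => (tent_deriv D a t).continuousAt).continuousOn
      · intro x _
        exact (tent_deriv D a x).differentiableAt.differentiableWithinAt
      · intro x hx
        rw [interior_Ici, mem_Ioi] at hx
        rw [(tent_deriv D a x).deriv]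
        have e : tent' D a x = a * (Ph (x + D) - 2 * Ph (x - 0) + Ph (x - D)) := by
          unfold tent' d3
          ring
        rw [e, sub_zero]
        have h2 := Ph_le_one (x + D)
        have h3 : Ph (x + D) - 2 * Ph x + Ph (x - D) ≤ 0 := by
          rcases le_total 1 x with h | h
          · rw [Ph_right h]
            have := Ph_le_one (x - D)
            linarith
          · rw [Ph_left (show x - D ≤ -1 by linarith)]
            have h4 := Ph_mono hx.le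
            have h5 := Ph_neg 0
            rw [neg_zero] at h5
            linarith
        exact mul_nonpos_of_nonneg_of_nonpos ha h3
    exact h1 (mem_Ici.2 le_rfl) (mem_Ici.2 ht) ht
  rcases le_total 0 t with h | h
  · exact key t h
  · rw [← tent_even]
    exact key _ (by linarith)

theorem hC_le_zero (he : 0 < e1) (he1 : e1 ≤ 1 / 100) (hJ : 0 ≤ J) (hT : 20 ≤ Tb (Real.log m))
    (t : ℝ) : hC e1 J m t ≤ hC e1 J m 0 := by
  have hD : 2 ≤ DC e1 m := by
    unfold DC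
    nlinarith
  have h1 := tent_le_zero hD aC_pos.le t
  have h2 : NUCUR.cur e1 (Tb (Real.log m)) J 0 = J := NUCUR.cur_eq he (by linarith) (by
    rw [abs_zero]
    nlinarith)
  have h3 := NUCUR.cur_le (e := e1) (T := Tb (Real.log m)) hJ t
  unfold hC
  rw [h2]
  linarith

/-- upper bound of the current -/
theorem hC_le (he : 0 < e1) (he1 : e1 ≤ 1 / 100) (hJ : 0 ≤ J) (hT : 20 ≤ Tb (Real.log m)) (t : ℝ) :
    hC e1 J m t ≤ 1 / 2 * Tb (Real.log m) + J := by
  have h1 := (tent_bd (DC_nonneg he1 hT) aC_pos.le t).2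
  have h2 := NUCUR.cur_le (e := e1) (T := Tb (Real.log m)) hJ t
  have h3 : aC * DC e1 m ≤ 1 / 2 * Tb (Real.log m) :=
    mul_le_mul aC_le (DC_le he.le) (DC_nonneg he1 hT) (by norm_num)
  unfold hC
  linarith

/-- the current at zero -/
theorem hC_zero_ge (he : 0 < e1) (he1 : e1 ≤ 1 / 100) (hT : 20 ≤ Tb (Real.log m)) :
    aC * (1 - e1) * Tb (Real.log m) - 6 * aC + J ≤ hC e1 J m 0 := by
  have h1 := tent_ge (DC_nonneg he1 hT) aC_pos.le 0
  rw [abs_zero, sub_zero] at h1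
  rw [hC_eq he hT (by rw [abs_zero]; nlinarith)]
  unfold DC at h1 ⊢
  linarith

/-- derivatives of the current -/
theorem hC_iter (he : 0 < e1) : ∃ C : ℝ, 1 ≤ C ∧ ∀ J : ℝ, 0 ≤ J → ∀ m : ℕ, e1 ≤ 1 / 100 →
    20 ≤ Tb (Real.log m) →
      (∀ k ≤ 4, ∀ t, |iteratedDeriv k (hC e1 J m) t| ≤ C * (1 + J) * Real.log m) ∧
      (∀ k, 1 ≤ k → k ≤ 4 → ∀ t, |iteratedDeriv k (hC e1 J m) t| ≤ C * (1 + J)) := by
  obtain ⟨C1, hC1, H1⟩ := NUCUR.cur_bound4 he
  obtain ⟨C4, hC4, H4⟩ := j3_iter_le 4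
  have ha := aC_pos
  have ha' := aC_le
  refine ⟨C1 + C4 + 1, by linarith, fun J hJ m he1 hT => ?_⟩
  have hL : 1 ≤ Real.log m := by
    unfold Tb at hT
    linarith
  have key : ∀ k, 1 ≤ k → k ≤ 4 → ∀ t, |iteratedDeriv k (hC e1 J m) t| ≤
      (C1 + C4 + 1) * (1 + J) := by
    intro k hk1 hk t
    have e : iteratedDeriv k (hC e1 J m) t = iteratedDeriv k (tent (DC e1 m) aC) t +
        iteratedDeriv k (NUCUR.cur e1 (Tb (Real.log m)) J) t :=
      iteratedDeriv_add ((j3_smooth _ _ _ _ k).contDiffAt)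
        ((NUCUR.cur_contDiff (n := (k : ℕ∞))).contDiffAt)
    have h1 := H4 (DC e1 m) 0 aC aC k hk1 hk t
    rw [abs_of_pos ha] at h1
    have h2 := H1 (Tb (Real.log m)) J (by linarith) hJ k hk t
    rw [e]
    refine (abs_add_le _ _).trans ?_
    have h3 : |iteratedDeriv k (tent (DC e1 m) aC) t| ≤ C4 := by
      refine h1.trans ?_
      nlinarith
    nlinarith
  refine ⟨fun k hk t => ?_, key⟩
  rcases Nat.eq_zero_or_pos k with h0 | h0
  · subst h0
    rw [iteratedDeriv_zero, abs_of_nonneg (hC_nonneg he1 hJ hT t)]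
    have h1 := hC_le he he1 hJ hT t
    have h2 : 1 / 2 * Tb (Real.log m) ≤ Real.log m := by
      unfold Tb
      linarith
    have h3 : (1 + J) * Real.log m ≤ (C1 + C4 + 1) * (1 + J) * Real.log m := by
      rw [mul_assoc]
      refine le_mul_of_one_le_left (by positivity) (by linarith)
    have h4 : J ≤ J * Real.log m := le_mul_of_one_le_right hJ hL
    linarith
  · refine (key k h0 hk t).trans ?_
    refine le_mul_of_one_le_right (by positivity) hL

/-- slope of the current -/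
theorem hC_slope (he : 0 < e1) : ∃ C : ℝ, 0 ≤ C ∧ ∀ J : ℝ, 0 ≤ J → ∀ m : ℕ, e1 ≤ 1 / 100 →
    20 ≤ Tb (Real.log m) → ∀ t, |deriv (hC e1 J m) t| ≤ aC + C * J / Tb (Real.log m) := by
  obtain ⟨C, hC, H⟩ := NUCUR.cur_bound (e := e1) he 1
  refine ⟨C, hC, fun J hJ m he1 hT t => ?_⟩
  rw [deriv_hC]
  refine (abs_add_le _ _).trans ?_
  have h1 := tent'_abs (DC_nonneg he1 hT) aC_pos.le t
  have h2 := H (Tb (Real.log m)) J (by linarith) hJ t
  rw [iteratedDeriv_one, pow_one] at h2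
  exact add_le_add h1 h2

/-- Lipschitz bound of the current -/
theorem hC_lip (he : 0 < e1) : ∃ C : ℝ, 0 ≤ C ∧ ∀ J : ℝ, 0 ≤ J → ∀ m : ℕ, e1 ≤ 1 / 100 →
    20 ≤ Tb (Real.log m) → ∀ t t', |hC e1 J m t - hC e1 J m t'| ≤
      (aC + C * J / Tb (Real.log m)) * |t - t'| := by
  obtain ⟨C, hC0, H⟩ := hC_slope he
  refine ⟨C, hC0, fun J hJ m he1 hT t t' => ?_⟩
  have h1 := Convex.norm_image_sub_le_of_norm_deriv_le (f := hC e1 J m)
    (C := aC + C * J / Tb (Real.log m)) (s := univ) (x := t') (y := t)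
    (fun u _ => (hC_deriv e1 J m u).differentiableAt)
    (fun u _ => H J hJ m he1 hT u) convex_univ (mem_univ _) (mem_univ _)
  simpa [Real.norm_eq_abs] using h1

/-! ### the energy of the current -/

theorem BI_tent'C (he1 : e1 ≤ 1 / 100) (hT : 20 ≤ Tb (Real.log m)) : BI aC (tent' (DC e1 m) aC) :=
  BI_tent' (DC_nonneg he1 hT) aC_pos.le

/-- integral of a function supported in `[-b, b]` -/
theorem int_supp_le {f : ℝ → ℝ} {b K : ℝ} (hb : 0 ≤ b) (h0 : ∀ t, b < |t| → f t = 0)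
    (h1 : ∀ t, |f t| ≤ K) : |∫ t, f t| ≤ 2 * b * K := by
  have hi : Integrable ((Icc (-b) b).indicator fun _ => K) := by
    rw [integrable_indicator_iff measurableSet_Icc]
    exact integrableOn_const (by simp)
  have h2 : ∀ t, ‖f t‖ ≤ (Icc (-b) b).indicator (fun _ => K) t := by
    intro t
    by_cases ht : t ∈ Icc (-b) b
    · rw [indicator_of_mem ht]
      exact h1 t
    · rw [indicator_of_notMem ht, h0 t, norm_zero]
      by_contra h
      exact ht (abs_le.1 (not_lt.1 h))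
  have h3 := norm_integral_le_of_norm_le hi (Eventually.of_forall h2)
  rw [integral_indicator measurableSet_Icc, setIntegral_const, Real.norm_eq_abs] at h3
  refine h3.trans (le_of_eq ?_)
  rw [Measure.real, Real.volume_Icc, ENNReal.toReal_ofReal (by linarith), smul_eq_mul]
  ring

theorem int_sq_cs {f : ℝ → ℝ} (hf : Continuous f) (hs : HasCompactSupport f) :
    Integrable fun t => f t ^ 2 := by
  have h := (hf.mul hf).integrable_of_hasCompactSupport (μ := volume) hs.mul_right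
  refine h.congr (Eventually.of_forall fun t => ?_)
  show f t * f t = f t ^ 2
  ring

/-- the numbers of `energyC` -/
theorem energyC_num {C J k T D l0 I0 I1 I2 I3 : ℝ} (hC : 0 ≤ C) (hJ : 0 ≤ J) (hk : 0 < k)
    (hl : 0 ≤ l0) {Z : ℝ} (h0 : I0 = I1 + 2 * I2 + I3) (h2 : I2 ≤ 2 * C * J)
    (h3 : I3 ≤ 2 * C ^ 2 * J ^ 2) (h4 : k * I1 - l0 * Z ≤ -D + 8) (hD : -D = -T + 2) :
    k * I0 - l0 * (Z + J) ≤ -T + (10 + k * (4 * C + 2 * C ^ 2)) * (1 + J) ^ 2 := by
  have a1 : 4 * C * J + 2 * C ^ 2 * J ^ 2 ≤ (4 * C + 2 * C ^ 2) * (1 + J) ^ 2 := by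
    have b1 : J ≤ (1 + J) ^ 2 := by nlinarith
    have b2 : J ^ 2 ≤ (1 + J) ^ 2 := by nlinarith
    have b3 : 4 * C * J ≤ 4 * C * (1 + J) ^ 2 := mul_le_mul_of_nonneg_left b1 (by positivity)
    have b4 : 2 * C ^ 2 * J ^ 2 ≤ 2 * C ^ 2 * (1 + J) ^ 2 :=
      mul_le_mul_of_nonneg_left b2 (by positivity)
    linarith
  have a2 := mul_le_mul_of_nonneg_left a1 hk.le
  have a3 : (1 : ℝ) ≤ (1 + J) ^ 2 := by nlinarith
  have a4 : k * I0 ≤ k * I1 + k * (4 * C * J + 2 * C ^ 2 * J ^ 2) := by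
    rw [← mul_add]
    refine mul_le_mul_of_nonneg_left ?_ hk.le
    linarith
  have a5 : 0 ≤ l0 * J := mul_nonneg hl hJ
  have a6 : (10 + k * (4 * C + 2 * C ^ 2)) * (1 + J) ^ 2 =
      10 * (1 + J) ^ 2 + k * ((4 * C + 2 * C ^ 2) * (1 + J) ^ 2) := by ring
  rw [a6, mul_add]
  linarith

/-- **the energy of the current**: `kap0 ∫ h'² - 12 l h(0) ≤ -(1 - e1) T + C (1 + J)²` -/
theorem energyC (he : 0 < e1) : ∃ C : ℝ, 0 ≤ C ∧ ∀ J : ℝ, 0 ≤ J → ∀ m : ℕ, e1 ≤ 1 / 100 →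
    20 ≤ Tb (Real.log m) →
      9 * Real.pi ^ 2 / 32 * (∫ t, deriv (hC e1 J m) t ^ 2) -
        12 * (Real.pi / 8) * hC e1 J m 0 ≤ -((1 - e1) * Tb (Real.log m)) + C * (1 + J) ^ 2 := by
  obtain ⟨C, hC0, H⟩ := NUCUR.cur_bound (e := e1) he 1
  refine ⟨10 + 9 * Real.pi ^ 2 / 32 * (4 * C + 2 * C ^ 2), by positivity, fun J hJ m he1 hT => ?_⟩
  set T := Tb (Real.log m) with hTd
  have ha := aC_pos
  have ha' := aC_le
  have hT0 : 0 < T := by linarith
  have hcur : ∀ t, |deriv (NUCUR.cur e1 T J) t| ≤ C * J / T := by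
    intro t
    have := H T J hT0 hJ t
    rwa [iteratedDeriv_one, pow_one] at this
  have hz : ∀ t, (1 - e1) * T < |t| → deriv (NUCUR.cur e1 T J) t = 0 := fun t ht =>
    NUCUR.deriv_zero he hT0 ht
  have hD := DC_nonneg he1 hT
  have c1 : Continuous (tent' (DC e1 m) aC) := tent'_cont _ _
  have c2 : Continuous (deriv (NUCUR.cur e1 T J)) := NUCUR.deriv_cont
  have s1 : HasCompactSupport (tent' (DC e1 m) aC) := tent'_cs hD
  have s2 : HasCompactSupport (deriv (NUCUR.cur e1 T J)) := (NUCUR.cur_supp he hT0).deriv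
  have hCJ : 0 ≤ C * J / T := by positivity
  have hb0 : 0 ≤ (1 - e1) * T := by nlinarith
  have hbT : (1 - e1) * T ≤ T := by nlinarith
  -- the cross term
  have k1 : |∫ t, tent' (DC e1 m) aC t * deriv (NUCUR.cur e1 T J) t| ≤ 2 * C * J := by
    have h1 := int_supp_le (f := fun t => tent' (DC e1 m) aC t * deriv (NUCUR.cur e1 T J) t)
      (b := (1 - e1) * T) (K := aC * (C * J / T)) hb0
      (fun t ht => by rw [hz t ht, mul_zero])
      (fun t => by
        rw [abs_mul]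
        exact mul_le_mul (tent'_abs hD ha.le t) (hcur t) (abs_nonneg _) ha.le)
    refine h1.trans ?_
    calc 2 * ((1 - e1) * T) * (aC * (C * J / T)) ≤ 2 * T * (1 * (C * J / T)) := by
          gcongr
          linarith
      _ = 2 * C * J := by field_simp
  -- the energy of the plateau
  have k2 : ∫ t, deriv (NUCUR.cur e1 T J) t ^ 2 ≤ 2 * C ^ 2 * J ^ 2 := by
    have h1 := int_supp_le (f := fun t => deriv (NUCUR.cur e1 T J) t ^ 2)
      (b := (1 - e1) * T) (K := (C * J / T) ^ 2) hb0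
      (fun t ht => by rw [hz t ht]; norm_num)
      (fun t => by
        rw [abs_pow]
        exact pow_le_pow_left₀ (abs_nonneg _) (hcur t) 2)
    refine ((le_abs_self _).trans h1).trans ?_
    calc 2 * ((1 - e1) * T) * (C * J / T) ^ 2 ≤ 2 * T * (C * J / T) ^ 2 := by gcongr
      _ = 2 * (C ^ 2 * J ^ 2) / T := by field_simp
      _ ≤ 2 * (C ^ 2 * J ^ 2) := div_le_self (by positivity) (by linarith)
      _ = _ := by ring
  -- the sum
  have i1 : Integrable fun t => tent' (DC e1 m) aC t ^ 2 :=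
    int_sq_cs c1 s1
  have i2 : Integrable fun t => tent' (DC e1 m) aC t * deriv (NUCUR.cur e1 T J) t :=
    (c1.mul c2).integrable_of_hasCompactSupport s1.mul_right
  have i3 : Integrable fun t => deriv (NUCUR.cur e1 T J) t ^ 2 :=
    int_sq_cs c2 s2
  have e1' : ∫ t, deriv (hC e1 J m) t ^ 2 = (∫ t, tent' (DC e1 m) aC t ^ 2) +
      2 * (∫ t, tent' (DC e1 m) aC t * deriv (NUCUR.cur e1 T J) t) +
      ∫ t, deriv (NUCUR.cur e1 T J) t ^ 2 := by
    rw [← integral_const_mul, ← integral_add i1 (i2.const_mul 2), ← integral_add _ i3]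
    · rw [deriv_hC]
      refine integral_congr_ae (Eventually.of_forall fun t => ?_)
      simp only
      ring
    · exact i1.add (i2.const_mul 2)
  have h2 : hC e1 J m 0 = tent (DC e1 m) aC 0 + J := hC_eq he hT (by
    rw [abs_zero]
    nlinarith)
  rw [h2]
  exact energyC_num hC0 hJ (by positivity) (by positivity) e1' ((le_abs_self _).trans k1) k2
    (tent_main (D := DC e1 m) hD) (by unfold DC; ring)

/-! ### the displacement -/

variable [NUSea.Sea]

/-- **the displacement of TARGET-C**, real row number `s` -/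
def etaC (e1 J : ℝ) (m : ℕ) (s t : ℝ) : ℝ := hC e1 J m t / (s * NUSea.P t)

/-- its derivative -/
def etaC' (e1 J : ℝ) (m : ℕ) (s t : ℝ) : ℝ := deriv (etaC e1 J m s) t

theorem etaC_contDiff (e1 J : ℝ) (m : ℕ) (s : ℝ) (n : ℕ) : ContDiff ℝ n (etaC e1 J m s) :=
  NUSea.CUR.eta_contDiff (N := (n : ℕ∞)) (hC_contDiff e1 J m n) s

theorem etaC_hasDeriv (e1 J : ℝ) (m : ℕ) (s t : ℝ) :
    HasDerivAt (etaC e1 J m s) (etaC' e1 J m s t) t :=
  (((etaC_contDiff e1 J m s 1).differentiable (by simp)) t).hasDerivAt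

theorem etaC'_cont (e1 J : ℝ) (m : ℕ) (s : ℝ) : Continuous (etaC' e1 J m s) :=
  (etaC_contDiff e1 J m s 1).continuous_deriv le_rfl

theorem etaC_even (e1 J : ℝ) (m : ℕ) (s t : ℝ) : etaC e1 J m s (-t) = etaC e1 J m s t := by
  unfold etaC
  rw [hC_even, NUSea.P_neg]

theorem etaC_nonneg (he1 : e1 ≤ 1 / 100) (hJ : 0 ≤ J) (hT : 20 ≤ Tb (Real.log m)) {s : ℝ}
    (hs : 0 ≤ s) (t : ℝ) : 0 ≤ etaC e1 J m s t :=
  div_nonneg (hC_nonneg he1 hJ hT t) (mul_nonneg hs (NUSea.P_pos t).le)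

theorem etaC_zero (he : 0 < e1) (he1 : e1 ≤ 1 / 100) (hT : 20 ≤ Tb (Real.log m)) {t : ℝ} (s : ℝ)
    (ht : (1 - e1) * Tb (Real.log m) ≤ |t|) : etaC e1 J m s t = 0 := by
  unfold etaC
  rw [hC_zero he he1 hT ht, zero_div]

theorem etaC'_zero (he : 0 < e1) (he1 : e1 ≤ 1 / 100) (hT : 20 ≤ Tb (Real.log m)) {t : ℝ} (s : ℝ)
    (ht : (1 - e1) * Tb (Real.log m) < |t|) : etaC' e1 J m s t = 0 := by
  have h := NUCUR.iter_zero_out (f := etaC e1 J m s) (fun t ht => etaC_zero he he1 hT s ht) 1 t ht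
  rwa [iteratedDeriv_one] at h

/-- the current of the displacement -/
theorem mul_etaC {s : ℝ} (hs : 0 < s) (t : ℝ) : s * NUSea.P t * etaC e1 J m s t = hC e1 J m t := by
  unfold etaC
  have := NUSea.P_pos t
  field_simp

theorem cur_etaC {s : ℝ} (hs : 0 < s) : (fun t => s * NUSea.P t * etaC e1 J m s t) = hC e1 J m :=
  funext (mul_etaC hs)

/-- its derivative -/
theorem hd_curC {s : ℝ} (hs : 0 < s) :
    NUSea.hd s (etaC e1 J m s) (etaC' e1 J m s) = deriv (hC e1 J m) := by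
  funext t
  have h1 := NUSea.hasDerivAt_hd s (etaC_hasDeriv e1 J m s) t
  rw [cur_etaC hs] at h1
  exact h1.deriv.symm

/-- Lipschitz bound -/
theorem lip_curC (he : 0 < e1) : ∃ C : ℝ, 0 ≤ C ∧ ∀ J : ℝ, 0 ≤ J → ∀ m : ℕ, e1 ≤ 1 / 100 →
    20 ≤ Tb (Real.log m) → ∀ s : ℝ, 0 < s → ∀ t t', |s * NUSea.P t * etaC e1 J m s t -
      s * NUSea.P t' * etaC e1 J m s t'| ≤ (aC + C * J / Tb (Real.log m)) * |t - t'| := by
  obtain ⟨C, hC0, H⟩ := hC_lip he
  refine ⟨C, hC0, fun J hJ m he1 hT s hs t t' => ?_⟩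
  rw [mul_etaC hs, mul_etaC hs]
  exact H J hJ m he1 hT t t'

/-- **the energy of the displacement** -/
theorem bil_curC (he : 0 < e1) : ∃ C : ℝ, 0 ≤ C ∧ ∀ J : ℝ, 0 ≤ J → ∀ m : ℕ, e1 ≤ 1 / 100 →
    20 ≤ Tb (Real.log m) → ∀ s : ℝ, 0 < s →
      NUCR.bil (NUSea.hd s (etaC e1 J m s) (etaC' e1 J m s))
        (NUSea.hd s (etaC e1 J m s) (etaC' e1 J m s)) ≤
        9 * Real.pi ^ 2 / 32 * (∫ t, deriv (hC e1 J m) t ^ 2) ∧
      NUCR.bil (NUSea.hd s (etaC e1 J m s) (etaC' e1 J m s))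
        (NUSea.hd s (etaC e1 J m s) (etaC' e1 J m s)) - 12 * (Real.pi / 8) * hC e1 J m 0 ≤
        -((1 - e1) * Tb (Real.log m)) + C * (1 + J) ^ 2 := by
  obtain ⟨C, hC0, H⟩ := energyC he
  obtain ⟨C1, hC1, H1⟩ := hC_slope he
  refine ⟨C, hC0, fun J hJ m he1 hT s hs => ?_⟩
  rw [hd_curC hs]
  have hb : BI (aC + C1 * J / Tb (Real.log m)) (deriv (hC e1 J m)) :=
    ⟨(((hC_contDiff e1 J m 1).continuous_deriv le_rfl)).integrable_of_hasCompactSupport
      (hC_cs he he1 hT).deriv, H1 J hJ m he1 hT⟩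
  have h1 := bil_self_le hb
  unfold kap0 at h1
  exact ⟨h1, by linarith [H J hJ m he1 hT]⟩

/-- powers of the logarithm against powers of `m` -/
theorem log_pow_small (K a x : ℝ) (k : ℕ) (ha : 0 < a) (hx : 0 < x) : ∃ m0 : ℕ, ∀ m ≥ m0,
    K * (1 + Real.log m) ^ k * (m : ℝ) ^ (-a) ≤ x := by
  have h1 : Tendsto (fun m : ℕ => (m : ℝ)) atTop atTop := tendsto_natCast_atTop_atTop
  have h2 : (fun y : ℝ => (2 * Real.log y) ^ k) =o[atTop] fun y : ℝ => y ^ a := by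
    have := isLittleO_log_rpow_rpow_atTop (k : ℝ) ha
    have h3 := this.const_mul_left ((2 : ℝ) ^ k)
    refine h3.congr' ?_ EventuallyEq.rfl
    filter_upwards [eventually_ge_atTop (1 : ℝ)] with y hy
    rw [Real.rpow_natCast, mul_pow]
  have h3 : Tendsto (fun m : ℕ => (2 * Real.log (m : ℝ)) ^ k / (m : ℝ) ^ a) atTop (𝓝 0) :=
    h2.tendsto_div_nhds_zero.comp h1
  have h4 := h3.const_mul |K|
  rw [mul_zero] at h4
  have h5 := h4.eventually_le_const hx
  have h6 := (Real.tendsto_log_atTop.comp h1).eventually_ge_atTop 1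
  obtain ⟨m0, hm0⟩ := eventually_atTop.1 (h5.and (h6.and (eventually_ge_atTop 1)))
  refine ⟨m0, fun m hm => ?_⟩
  obtain ⟨b1, b2, b3⟩ := hm0 m hm
  have b2' : 1 ≤ Real.log (m : ℝ) := b2
  have hmp : (0 : ℝ) < m := by exact_mod_cast b3
  rw [Real.rpow_neg hmp.le, ← div_eq_mul_inv]
  have hma : 0 < (m : ℝ) ^ a := Real.rpow_pos_of_pos hmp _
  refine le_trans ?_ b1
  rw [mul_div_assoc']
  refine div_le_div_of_nonneg_right ?_ hma.le
  have h7 : (1 + Real.log (m : ℝ)) ^ k ≤ (2 * Real.log (m : ℝ)) ^ k :=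
    pow_le_pow_left₀ (by linarith) (by linarith) k
  calc K * (1 + Real.log (m : ℝ)) ^ k ≤ |K| * (1 + Real.log (m : ℝ)) ^ k :=
        mul_le_mul_of_nonneg_right (le_abs_self K) (by positivity)
    _ ≤ |K| * (2 * Real.log (m : ℝ)) ^ k := mul_le_mul_of_nonneg_left h7 (abs_nonneg _)

/-- **the displacement of TARGET-C is an admissible current** -/
theorem exists_curC (he : 0 < e1) (he1 : e1 ≤ 1 / 100) (hJ : 0 ≤ J) {x : ℝ} (hx : 0 < x) :
    ∃ C : ℝ, 1 ≤ C ∧ ∃ m0 : ℕ, 1 ≤ m0 ∧ ∀ m ≥ m0, 20 ≤ Tb (Real.log m) ∧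
      ∀ s : ℝ, (m : ℝ) / 2 ≤ s → ∃ (ε : ℝ) (e : ℝ → ℝ),
        NUSea.Cur s ε (C * Real.log m) ((1 - e1) * Tb (Real.log m)) e (etaC e1 J m s) ∧
          0 ≤ ε ∧ ε ≤ (m : ℝ) ^ (-(e1 / 2)) ∧ ε ≤ x := by
  obtain ⟨C0, hC0, H0⟩ := NUSea.exists_cur
  obtain ⟨C1, hC1, H1⟩ := hC_iter he
  obtain ⟨c, hc, hP⟩ := NUSea.le_P
  obtain ⟨Q, hQ⟩ : ∃ Q, Q = C0 * (C1 * (1 + J)) := ⟨_, rfl⟩
  have hQ1 : 1 ≤ Q := by
    rw [hQ]
    have h1 : 1 ≤ C1 * (1 + J) := by nlinarith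
    nlinarith
  obtain ⟨m1, hm1⟩ := log_pow_small (Q * (2 / c)) (e1 / 2) (min 1 x) 1 (by linarith)
    (lt_min one_pos hx)
  have h3 := (Real.tendsto_log_atTop.comp tendsto_natCast_atTop_atTop).eventually_ge_atTop
    (160 / 3 : ℝ)
  obtain ⟨m2, hm2⟩ := eventually_atTop.1 h3
  refine ⟨Q, hQ1, max (max m1 m2) 1, le_max_right _ _, fun m hm => ?_⟩
  have a1 := hm1 m ((le_max_left _ _).trans ((le_max_left _ _).trans hm))
  have a2 : (160 / 3 : ℝ) ≤ Real.log m := hm2 m ((le_max_right _ _).trans ((le_max_left _ _).trans hm))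
  have hm1 : 1 ≤ m := (le_max_right _ _).trans hm
  have hmp : (0 : ℝ) < m := by exact_mod_cast hm1
  have hT : 20 ≤ Tb (Real.log m) := by
    unfold Tb
    linarith
  refine ⟨hT, fun s hs => ?_⟩
  have hs0 : 0 < s := by
    have : 0 < (m : ℝ) / 2 := by positivity
    linarith
  have hb0 : 0 ≤ (1 - e1) * Tb (Real.log m) := by nlinarith
  obtain ⟨e, he'⟩ := H0 s (C1 * (1 + J) * Real.log m) ((1 - e1) * Tb (Real.log m)) hs0 hb0
    (hC e1 J m) (hC_contDiff e1 J m 4) (H1 J hJ m he1 hT).1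
    (fun t ht => hC_zero he he1 hT ht)
  have e2 : C0 * (C1 * (1 + J) * Real.log m) = Q * Real.log m := by
    rw [hQ]
    ring
  rw [e2] at he'
  have hPb := NUSea.P_pos ((1 - e1) * Tb (Real.log m))
  have hL : 0 ≤ Real.log m := by linarith
  -- the size of the displacement
  have h6 : 0 < (m : ℝ) ^ (-(e1 / 2)) := Real.rpow_pos_of_pos hmp _
  have key : Q * Real.log m / (s * NUSea.P ((1 - e1) * Tb (Real.log m))) ≤
      min 1 x * (m : ℝ) ^ (-(e1 / 2)) := by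
    have h1 := hP ((1 - e1) * Tb (Real.log m))
    rw [abs_of_nonneg hb0] at h1
    have e1' : Real.exp (-(8 / 3) * ((1 - e1) * Tb (Real.log m))) = (m : ℝ)⁻¹ * (m : ℝ) ^ e1 := by
      have e2 : (m : ℝ)⁻¹ = Real.exp (-Real.log m) := by rw [Real.exp_neg, Real.exp_log hmp]
      rw [Real.rpow_def_of_pos hmp, e2, ← Real.exp_add]
      congr 1
      unfold Tb
      ring
    rw [e1'] at h1
    have hme : 0 < (m : ℝ) ^ e1 := Real.rpow_pos_of_pos hmp _
    have h2 : c / 2 * (m : ℝ) ^ e1 ≤ s * NUSea.P ((1 - e1) * Tb (Real.log m)) := by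
      calc c / 2 * (m : ℝ) ^ e1 = (m : ℝ) / 2 * (c * ((m : ℝ)⁻¹ * (m : ℝ) ^ e1)) := by
            field_simp
        _ ≤ _ := mul_le_mul hs h1 (by positivity) hs0.le
    have e3 : (m : ℝ) ^ (-(e1 / 2)) * (m : ℝ) ^ (-(e1 / 2)) * (m : ℝ) ^ e1 = 1 := by
      rw [← Real.rpow_add hmp, ← Real.rpow_add hmp,
        show -(e1 / 2) + -(e1 / 2) + e1 = 0 by ring, Real.rpow_zero]
    rw [div_le_iff₀ (by positivity)]
    have h7 : Q * (2 / c) * Real.log m * (m : ℝ) ^ (-(e1 / 2)) ≤ min 1 x := by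
      refine le_trans ?_ a1
      rw [pow_one]
      have : 0 ≤ Q * (2 / c) := by positivity
      refine mul_le_mul_of_nonneg_right ?_ h6.le
      exact mul_le_mul_of_nonneg_left (by linarith) this
    calc Q * Real.log m = (Q * (2 / c) * Real.log m * (m : ℝ) ^ (-(e1 / 2))) *
          (m : ℝ) ^ (-(e1 / 2)) * (c / 2 * (m : ℝ) ^ e1) := by
          have : Q * (2 / c) * Real.log m * (m : ℝ) ^ (-(e1 / 2)) * (m : ℝ) ^ (-(e1 / 2)) *
              (c / 2 * (m : ℝ) ^ e1) = Q * Real.log m * ((2 / c) * (c / 2)) *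
              ((m : ℝ) ^ (-(e1 / 2)) * (m : ℝ) ^ (-(e1 / 2)) * (m : ℝ) ^ e1) := by ring
          rw [this, e3]
          field_simp
      _ ≤ min 1 x * (m : ℝ) ^ (-(e1 / 2)) * (s * NUSea.P ((1 - e1) * Tb (Real.log m))) := by
          have : 0 ≤ min 1 x := (lt_min one_pos hx).le
          gcongr
  have hm1' : (m : ℝ) ^ (-(e1 / 2)) ≤ 1 :=
    Real.rpow_le_one_of_one_le_of_nonpos (by exact_mod_cast hm1) (by linarith)
  refine ⟨_, e, he', by positivity, key.trans ?_, key.trans ?_⟩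
  · calc min 1 x * (m : ℝ) ^ (-(e1 / 2)) ≤ 1 * (m : ℝ) ^ (-(e1 / 2)) :=
        mul_le_mul_of_nonneg_right (min_le_left _ _) h6.le
      _ = _ := one_mul _
  · calc min 1 x * (m : ℝ) ^ (-(e1 / 2)) ≤ x * 1 :=
        mul_le_mul (min_le_right _ _) hm1' h6.le hx.le
      _ = x := mul_one x

/-- from `NUSea.Cur` to the conditions on the curve -/
theorem curB_of_curS {s ε M b ep : ℝ} {e η : ℝ → ℝ} (h : NUSea.Cur s ε M b e η)
    (hε : ε ≤ ep * NUP1.l / 4) {η' : ℝ → ℝ} (h1 : ∀ t, HasDerivAt η (η' t) t) : CurB ep η η' := by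
  obtain ⟨h0, f', hf, h3⟩ := h.O4
  obtain rfl : f' = η' := funext fun x => (hf x).unique (h1 x)
  exact ⟨h1, h3.cont, fun t => (h0 t).trans hε, ⟨ε, h3.le⟩⟩

/-- **the curve of TARGET-C is admissible for the representation corollary** -/
theorem curOKC (he : 0 < e1) (he1 : e1 ≤ 1 / 100) (hJ : 0 ≤ J) {ep : ℝ} (hep : 0 < ep) :
    ∃ m0 : ℕ, 1 ≤ m0 ∧ ∀ m ≥ m0, ∀ s : ℝ, (m : ℝ) / 2 ≤ s →
      CurB ep (etaC e1 J m s) (etaC' e1 J m s) := by
  have hl := NUP1.l_pos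
  obtain ⟨C, -, m0, hm0, H⟩ := exists_curC he he1 hJ (x := ep * NUP1.l / 4) (by positivity)
  refine ⟨m0, hm0, fun m hm s hs => ?_⟩
  obtain ⟨ε, e, h1, -, -, h2⟩ := (H m hm).2 s hs
  exact curB_of_curS h1 h2 (etaC_hasDeriv e1 J m s)

end

end NUGC
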