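import Pool.Agent.NUC43.Knd
import Pool.Agent.NUM3.En

/-!
# NUGC/DrC (helper3): dressed pairs of two charges (board/GAM, G3)

For two charges `h : Chg α q a b A B F G`, `h' : Chg α' q' a' b' A' B' F' G'` (objects, half quanta,
singles) the response energy `ERc σ F G F' G'` (`σ = true`: same species) has a cosine form with
growth charge `-2 σ q q'`.  If the direct energy `f` has a cosine form with growth charge
`2 σ q q'`, then `f + ERc` is bounded (`dressed`); in general `|f + ERc| ≤ |N - 2 σ q q'| |t| + C`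
(`dressed_lin`).  `hs_CF`: cosine form of `∑ c h(t, a l)`, `|a| < 4`.
-/

set_option autoImplicit false

open MeasureTheory Set NUC37 NUC43
open NUMF (sk Uh Lh V l l_pos h)
open Pool.Agent.NUM3

namespace NUGC

noncomputable section

/-! ### cosine forms -/

/-- `∑ c h(t, a l)` -/
theorem hs_CF {L : List (ℝ × ℝ)} (hL : ∀ p ∈ L, |p.2| < 4) :
    CF (fun t => hs L t - cz L * Real.log 2) (2 * cz L) (fun k => 2 * cs L k / (k * sk k)) := by
  intro t
  obtain ⟨i, e⟩ := hs_fourier L hL t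
  have h1 : ∀ k : ℝ, 2 * cz L / (k * sk k) - 2 * cs L k / (k * sk k) * Real.cos (k * t) =
      2 * (cz L - Real.cos (t * k) * cs L k) / (k * sk k) := by
    intro k
    rw [mul_comm k t]
    ring
  simp_rw [h1]
  refine ⟨i, ?_⟩
  rw [e]
  ring

/-- a kernel of growth charge `0` is bounded -/
theorem CF_bdd {f m : ℝ → ℝ} (hf : CF f 0 m) : ∃ C : ℝ, 0 ≤ C ∧ ∀ t, |f t| ≤ C := by
  obtain ⟨i, e⟩ := hf.eval
  refine ⟨∫ k in Ioi (0:ℝ), |m k|, integral_nonneg fun _ => abs_nonneg _, fun t => ?_⟩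
  rw [e t, abs_neg, ← Real.norm_eq_abs]
  refine norm_integral_le_of_norm_le i.abs (ae_of_all _ fun k => ?_)
  rw [norm_mul, Real.norm_eq_abs, Real.norm_eq_abs]
  exact mul_le_of_le_one_right (abs_nonneg _) (Real.abs_cos_le_one _)

/-- `log cosh` -/
theorem CF_cosh : CF (fun t => Real.log (Real.cosh t)) 1 (gc 0) := by
  refine (CF_GC 0).congr (fun t => ?_) rfl fun k _ => rfl
  unfold GC
  simp

theorem log_cosh_le (t : ℝ) : |Real.log (Real.cosh t)| ≤ |t| := by
  have h1 := Real.one_le_cosh t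
  rw [abs_of_nonneg (Real.log_nonneg h1), Real.log_le_iff_le_exp (by linarith)]
  exact cosh_le_exp_abs t

theorem log_cosh_ge (t : ℝ) : |t| - Real.log 2 ≤ Real.log (Real.cosh t) := by
  have h1 := exp_abs_le_cosh t
  rw [← Real.log_exp |t|, ← Real.log_div (Real.exp_pos _).ne' two_ne_zero]
  exact Real.log_le_log (by positivity) h1

/-- a kernel of growth charge `N` is `N |t| + O(1)` -/
theorem CF_lin {f m : ℝ → ℝ} {N : ℝ} (hf : CF f N m) :
    ∃ C : ℝ, 0 ≤ C ∧ ∀ t, |f t - N * (|t|)| ≤ C := by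
  have h1 : CF (fun t => f t - N * Real.log (Real.cosh t)) 0 (fun k => m k - N * gc 0 k) :=
    (hf.sub (CF_cosh.smul N)).congr (fun _ => rfl) (by ring) fun _ _ => rfl
  obtain ⟨C, hC0, hC⟩ := CF_bdd h1
  refine ⟨C + |N| * Real.log 2, by have := Real.log_nonneg (one_le_two (α := ℝ)); positivity,
    fun t => ?_⟩
  have h2 : |Real.log (Real.cosh t) - (|t|)| ≤ Real.log 2 := by
    rw [abs_le]
    have a1 := log_cosh_ge t
    have a2 := (le_abs_self _).trans (log_cosh_le t)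
    have a3 := Real.log_nonneg (one_le_two (α := ℝ))
    constructor <;> linarith
  have h3 : f t - N * |t| = (f t - N * Real.log (Real.cosh t)) +
      N * (Real.log (Real.cosh t) - |t|) := by ring
  rw [h3]
  refine (abs_add_le _ _).trans (add_le_add (hC t) ?_)
  rw [abs_mul]
  exact mul_le_mul_of_nonneg_left h2 (abs_nonneg _)

/-! ### response energies -/

/-- response energy of two charges; `σ = true`: same species -/
def ERc (σ : Bool) (F G F' G' : ℂ → ℂ) (x y : ℝ) : ℝ :=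
  (if σ then EV (dO F G) (dO F' G') x y + EV (dX F G) (dX F' G') x y
    else EV (dO F G) (dX F' G') x y + EV (dX F G) (dO F' G') x y) - sgn σ * EU (dT G) (dT G') x y

variable {α α' q q' : ℝ} {a b A B a' b' A' B' : ℝ → ℝ} {F G F' G' : ℂ → ℂ}

theorem exp_w_le (x : ℝ) : (1 + x) * Real.exp (-(5 / 2) * x) ≤ Real.exp (-(3 / 2) * x) := by
  have h1 : 1 + x ≤ Real.exp x := by linarith [Real.add_one_le_exp x]
  calc (1 + x) * Real.exp (-(5 / 2) * x) ≤ Real.exp x * Real.exp (-(5 / 2) * x) := by gcongr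
    _ = Real.exp (-(3 / 2) * x) := by rw [← Real.exp_add]; ring_nf

/-- the density of the splitting has a first moment -/
theorem Chg.wT (h : Chg α q a b A B F G) : Integrable fun t => (1 + |t|) * dT G t := by
  obtain ⟨M, hM0, hM⟩ := h.decay
  refine ((NUMF.int_exp_abs (b := 3 / 2) (by norm_num)).const_mul M).mono' ?_
    (ae_of_all _ fun t => ?_)
  · have := h.contT
    exact (Continuous.aestronglyMeasurable (by fun_prop))
  · have h1 := (hM t).2.2
    have h2 := exp_w_le |t|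
    have h3 : (0:ℝ) ≤ 1 + |t| := by positivity
    rw [norm_mul, Real.norm_eq_abs, Real.norm_eq_abs, abs_of_nonneg h3]
    calc (1 + |t|) * |dT G t| ≤ (1 + |t|) * (M * Real.exp (-(5 / 2) * |t|)) := by gcongr
      _ = M * ((1 + |t|) * Real.exp (-(5 / 2) * |t|)) := by ring
      _ ≤ M * Real.exp (-(3 / 2) * |t|) := by gcongr

theorem exp_le_one' (t : ℝ) : Real.exp (-(5 / 2) * |t|) ≤ 1 := by
  rw [Real.exp_le_one_iff]
  have := abs_nonneg t
  linarith

theorem Chg.bdO (h : Chg α q a b A B F G) : ∃ C, ∀ t, |dO F G t| ≤ C := by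
  obtain ⟨M, hM0, hM⟩ := h.decay
  exact ⟨M, fun t => (hM t).1.trans (by have := exp_le_one' t; nlinarith)⟩

theorem Chg.bdX (h : Chg α q a b A B F G) : ∃ C, ∀ t, |dX F G t| ≤ C := by
  obtain ⟨M, hM0, hM⟩ := h.decay
  exact ⟨M, fun t => (hM t).2.1.trans (by have := exp_le_one' t; nlinarith)⟩

theorem Chg.iO (h : Chg α q a b A B F G) :
    IntegrableOn (fun k : ℝ => ((F k).re + (G k).re) / 2) (Ioi 0) :=
  ((h.gF.inv_rep h.neg).add (h.gG.inv_rep h.neg)).div_const 2

theorem Chg.iX (h : Chg α q a b A B F G) :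
    IntegrableOn (fun k : ℝ => ((F k).re - (G k).re) / 2) (Ioi 0) :=
  ((h.gF.inv_rep h.neg).sub (h.gG.inv_rep h.neg)).div_const 2

/-- **cosine form of the response energy of two charges** -/
theorem ERc_CF (h : Chg α q a b A B F G) (h' : Chg α' q' a' b' A' B' F' G') (σ : Bool) :
    ∃ f m : ℝ → ℝ, (∀ x y, ERc σ F G F' G' x y = f (x - y)) ∧ CF f (-(2 * (sgn σ * (q * q')))) m := by
  obtain ⟨CO, hCO⟩ := Chg.bdO h'
  obtain ⟨CX, hCX⟩ := Chg.bdX h'
  obtain ⟨F1, e1, c1⟩ := EV_CF h.ctO h'.ctO h'.contO hCO (int_prod h.ctO (Chg.iO h) (Chg.iO h'))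
  obtain ⟨F2, e2, c2⟩ := EV_CF h.ctX h'.ctX h'.contX hCX (int_prod h.ctX (Chg.iX h) (Chg.iX h'))
  obtain ⟨F3, e3, c3⟩ := EV_CF h.ctO h'.ctX h'.contX hCX (int_prod h.ctO (Chg.iO h) (Chg.iX h'))
  obtain ⟨F4, e4, c4⟩ := EV_CF h.ctX h'.ctO h'.contO hCO (int_prod h.ctX (Chg.iX h) (Chg.iO h'))
  obtain ⟨F5, e5, c5⟩ := EU_CF h.ctT h'.ctT (Chg.wT h) (Chg.wT h')
  rw [h.intT, h'.intT] at c5
  rcases σ
  · refine ⟨fun t => F3 t + F4 t - (-1) * F5 t, _, fun x y => ?_,
      ((c3.add c4).sub (c5.smul (-1))).congr (fun t => rfl) ?_ fun k _ => rfl⟩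
    · simp only [ERc, Bool.false_eq_true, if_false, sgn, e3, e4, e5]
    · simp only [sgn, Bool.false_eq_true, if_false]; ring
  · refine ⟨fun t => F1 t + F2 t - 1 * F5 t, _, fun x y => ?_,
      ((c1.add c2).sub (c5.smul 1)).congr (fun t => rfl) ?_ fun k _ => rfl⟩
    · simp only [ERc, if_true, sgn, e1, e2, e5]
    · simp only [sgn, if_true]; ring

/-- **dressed pair**: a direct energy of the right growth is cancelled by the response up to `O(1)` -/
theorem dressed (h : Chg α q a b A B F G) (h' : Chg α' q' a' b' A' B' F' G') (σ : Bool)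
    {f m : ℝ → ℝ} {N : ℝ} (hf : CF f N m) (hN : N = 2 * (sgn σ * (q * q'))) :
    ∃ C : ℝ, 0 ≤ C ∧ ∀ x y, |f (x - y) + ERc σ F G F' G' x y| ≤ C := by
  obtain ⟨f', m', e, c⟩ := ERc_CF h h' σ
  have h1 : CF (fun t => f t + f' t) 0 (fun k => m k + m' k) :=
    (hf.add c).congr (fun _ => rfl) (by rw [hN]; ring) fun _ _ => rfl
  obtain ⟨C, hC0, hC⟩ := CF_bdd h1
  exact ⟨C, hC0, fun x y => by rw [e]; exact hC (x - y)⟩

/-- general growth -/
theorem dressed_lin (h : Chg α q a b A B F G) (h' : Chg α' q' a' b' A' B' F' G') (σ : Bool)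
    {f m : ℝ → ℝ} {N : ℝ} (hf : CF f N m) :
    ∃ C : ℝ, 0 ≤ C ∧ ∀ x y, |f (x - y) + ERc σ F G F' G' x y -
      (N - 2 * (sgn σ * (q * q'))) * (|x - y|)| ≤ C := by
  obtain ⟨f', m', e, c⟩ := ERc_CF h h' σ
  have h1 : CF (fun t => f t + f' t) (N - 2 * (sgn σ * (q * q'))) (fun k => m k + m' k) :=
    (hf.add c).congr (fun _ => rfl) (by ring) fun _ _ => rfl
  obtain ⟨C, hC0, hC⟩ := CF_lin h1
  exact ⟨C, hC0, fun x y => by rw [e]; exact hC (x - y)⟩

/-- the response energy itself -/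
theorem ERc_lin (h : Chg α q a b A B F G) (h' : Chg α' q' a' b' A' B' F' G') (σ : Bool) :
    ∃ C : ℝ, 0 ≤ C ∧ ∀ x y, |ERc σ F G F' G' x y + 2 * (sgn σ * (q * q')) * (|x - y|)| ≤ C := by
  obtain ⟨C, hC0, hC⟩ := dressed_lin h h' σ CF.zero
  refine ⟨C, hC0, fun x y => ?_⟩
  have := hC x y
  rwa [zero_add, show ∀ r s t : ℝ, r - (0 - s) * t = r + s * t from fun r s t => by ring] at this

/-- direct energies `∑ c h(t, a l) + c₀` -/
theorem dressed_hs (h : Chg α q a b A B F G) (h' : Chg α' q' a' b' A' B' F' G') (σ : Bool)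
    {L : List (ℝ × ℝ)} (hL : ∀ p ∈ L, |p.2| < 4) (hz : cz L = sgn σ * (q * q')) :
    ∃ C : ℝ, 0 ≤ C ∧ ∀ x y, |hs L (x - y) + ERc σ F G F' G' x y| ≤ C := by
  obtain ⟨C, hC0, hC⟩ := dressed h h' σ (hs_CF hL) (by rw [hz])
  refine ⟨C + |cz L * Real.log 2|, by positivity, fun x y => ?_⟩
  have h1 := hC x y
  have h2 : hs L (x - y) + ERc σ F G F' G' x y =
      (hs L (x - y) - cz L * Real.log 2 + ERc σ F G F' G' x y) + cz L * Real.log 2 := by ring
  rw [h2]
  exact (abs_add_le _ _).trans (add_le_add h1 le_rfl)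

/-- the response of an object of kind `κ` -/
theorem ERc_symm_sgn (F G F' G' : ℂ → ℂ) (x y : ℝ) :
    ERc false F G F' G' x y = EV (dO F G) (dX F' G') x y + EV (dX F G) (dO F' G') x y +
      EU (dT G) (dT G') x y := by
  simp only [ERc, Bool.false_eq_true, if_false, sgn]
  ring

end

end NUGC
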