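import Pool.Agent.NUC43.Cfg
import Pool.Agent.NUGC.DrC

/-!
# Sources: objects and spectators together (board/GAM G3, helper99)

`Sr`: a source (species, densities on its own species, on the other one, of the splitting, potentials,
charge, height); `Sr.Ok` = its equations.  For a family `S : ι → Sr`: `muS a`, `tauS`, `linS a`.

* `muS_eq` (the equation of the densities), `muS_energy` (energy = sum over pairs), `muS_sub`,
  `tauS_int`;
* `chSr`: the source of a charge; `obSr`: of an object: `muC`, `tauC`, `linC` are `muS`, .. of `obSr`;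
* `muM`, `tauM`, `linM`: objects and spectators together; `cfgM_eq`, `cfgM_energy`.
-/

set_option autoImplicit false

open MeasureTheory Set Filter Topology

namespace NUGC

noncomputable section

open NUMF (l l_pos g h V)
open NUO (Kind Xo kd ht)
open NUC43
open Pool.Agent.NUM3 (EV EU sgn)

/-- a source -/
structure Sr where
  /-- species -/
  a : Bool
  /-- density on the own species -/
  fO : ℝ → ℝ
  /-- density on the other species -/
  fX : ℝ → ℝ
  /-- density of the splitting -/
  fT : ℝ → ℝ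
  /-- potential on the own species -/
  pO : ℝ → ℝ
  /-- potential on the other species -/
  pX : ℝ → ℝ
  /-- charge -/
  q : ℝ
  /-- height -/
  t : ℝ

/-- the equations of a source -/
structure Sr.Ok (S : Sr) : Prop where
  dO : Dn S.fO
  dX : Dn S.fX
  dT : Dn S.fT
  eO : ∀ t, S.fO (-t) = S.fO t
  eX : ∀ t, S.fX (-t) = S.fX t
  eT : ∀ t, S.fT (-t) = S.fT t
  split : ∀ t, S.fO t - S.fX t = S.fT t
  mass : ∫ t, S.fT t = -S.q
  own : ∀ t, S.pO t - lgp S.fT t = ∫ s, V s * S.fO (t - s)
  oth : ∀ t, S.pX t + lgp S.fT t = ∫ s, V s * S.fX (t - s)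

/-- density on the species `a` -/
def Sr.f (S : Sr) (a : Bool) : ℝ → ℝ := if S.a == a then S.fO else S.fX

/-- potential on the species `a` -/
def Sr.p (S : Sr) (a : Bool) : ℝ → ℝ := if S.a == a then S.pO else S.pX

/-- energy of two sources -/
def ES (S S' : Sr) : ℝ :=
  (if S.a == S'.a then EV S.fO S'.fO S.t S'.t + EV S.fX S'.fX S.t S'.t
    else EV S.fO S'.fX S.t S'.t + EV S.fX S'.fO S.t S'.t) - sgn (S.a == S'.a) * EU S.fT S'.fT S.t S'.t

variable {S S' : Sr}

lemma Sr.Ok.df (h : S.Ok) (a : Bool) : Dn (S.f a) := by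
  unfold Sr.f
  split_ifs
  · exact h.dO
  · exact h.dX

lemma Sr.Ok.ef (h : S.Ok) (a : Bool) (t : ℝ) : S.f a (-t) = S.f a t := by
  unfold Sr.f
  split_ifs
  · exact h.eO t
  · exact h.eX t

/-- both equations in one -/
lemma Sr.Ok.eqn (h : S.Ok) (a : Bool) (t : ℝ) :
    S.p a t - sg a * (sg S.a * lgp S.fT t) = ∫ s, V s * S.f a (t - s) := by
  have h1 := h.own t
  have h2 := h.oth t
  unfold Sr.p Sr.f
  rcases hb : S.a with _ | _ <;> cases a
  · simp only [beq_self_eq_true, if_true, sg, Bool.false_eq_true, if_false]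
    linarith
  · simp only [show (false == true) = false from rfl, if_true, sg, Bool.false_eq_true, if_false]
    linarith
  · simp only [show (true == false) = false from rfl, if_true, sg, Bool.false_eq_true, if_false]
    linarith
  · simp only [beq_self_eq_true, if_true, sg]
    linarith

variable {ι : Type*} [Fintype ι]

/-- density on the species `a` -/
def muS (S : ι → Sr) (a : Bool) (t : ℝ) : ℝ := ∑ i, (S i).f a (t - (S i).t)
/-- density of the splitting -/
def tauS (S : ι → Sr) (t : ℝ) : ℝ := ∑ i, sg (S i).a * (S i).fT (t - (S i).t)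
/-- potentials on the species `a` -/
def linS (S : ι → Sr) (a : Bool) (t : ℝ) : ℝ := ∑ i, (S i).p a (t - (S i).t)

theorem dn_muS {S : ι → Sr} (h : ∀ i, (S i).Ok) (a : Bool) : Dn (muS S a) :=
  Dn.sum _ fun i => ((h i).df a).shift _

theorem dn_tauS {S : ι → Sr} (h : ∀ i, (S i).Ok) : Dn (tauS S) :=
  Dn.sum _ fun i => (((h i).dT).shift _).smul _

theorem muS_sub {S : ι → Sr} (h : ∀ i, (S i).Ok) (t : ℝ) :
    muS S true t - muS S false t = tauS S t := by
  unfold muS tauS
  rw [← Finset.sum_sub_distrib]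
  refine Finset.sum_congr rfl fun i _ => ?_
  have := (h i).split (t - (S i).t)
  unfold Sr.f
  rcases hb : (S i).a with _ | _
  · simp only [sg, beq_self_eq_true, if_true, Bool.false_eq_true,
      show (false == true) = false from rfl, if_false]
    linarith
  · simp only [sg, beq_self_eq_true, if_true, Bool.false_eq_true,
      show (true == false) = false from rfl, if_false]
    linarith

theorem tauS_int {S : ι → Sr} (h : ∀ i, (S i).Ok) : ∫ t, tauS S t = -∑ i, sg (S i).a * (S i).q := by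
  unfold tauS
  rw [integral_finsetSum _ fun i _ => ((((h i).dT).shift _).smul _).int, ← Finset.sum_neg_distrib]
  refine Finset.sum_congr rfl fun i _ => ?_
  rw [integral_const_mul, integral_sub_right_eq_self (fun u => (S i).fT u) (S i).t, (h i).mass]
  ring

lemma lgp_tauS {S : ι → Sr} (h : ∀ i, (S i).Ok) (t : ℝ) :
    lgp (tauS S) t = ∑ i, sg (S i).a * lgp (S i).fT (t - (S i).t) := by
  unfold lgp tauS
  have h1 : ∀ i, Integrable fun s => sg (S i).a * (S i).fT (s - (S i).t) *
      Real.log (g (t - s)) := fun i => lg_in ((((h i).dT).shift _).smul _) t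
  simp_rw [Finset.sum_mul]
  rw [integral_finsetSum _ fun i _ => h1 i]
  refine Finset.sum_congr rfl fun i _ => ?_
  simp_rw [mul_assoc]
  rw [integral_const_mul, ← integral_sub_right_eq_self (fun s => (S i).fT s *
    Real.log (g (t - (S i).t - s))) (S i).t]
  congr 2
  funext s
  rw [show t - (S i).t - (s - (S i).t) = t - s by ring]

lemma V_muS {S : ι → Sr} (h : ∀ i, (S i).Ok) (a : Bool) (t : ℝ) :
    ∫ u, muS S a u * V (t - u) = ∑ i, ∫ s, V s * (S i).f a (t - (S i).t - s) := by
  unfold muS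
  have h1 : ∀ i, Integrable fun s => (S i).f a (s - (S i).t) * V (t - s) :=
    fun i => V_in (((h i).df a).shift _) t
  simp_rw [Finset.sum_mul]
  rw [integral_finsetSum _ fun i _ => h1 i]
  refine Finset.sum_congr rfl fun i _ => ?_
  rw [← integral_sub_left_eq_self (fun s => V s * (S i).f a (t - (S i).t - s)) volume t]
  congr 1
  funext s
  rw [show t - (S i).t - (t - s) = s - (S i).t by ring]
  ring

/-- **the equation of the densities** -/
theorem muS_eq {S : ι → Sr} (h : ∀ i, (S i).Ok) (a : Bool) (t : ℝ) :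
    linS S a t - sg a * lgp (tauS S) t = ∫ u, muS S a u * V (t - u) := by
  rw [V_muS h, lgp_tauS h, linS, Finset.mul_sum, ← Finset.sum_sub_distrib]
  exact Finset.sum_congr rfl fun i _ => (h i).eqn a (t - (S i).t)

/-- **the energy of the densities is a sum over pairs** -/
theorem muS_energy {S : ι → Sr} (h : ∀ i, (S i).Ok) :
    1 / 2 * (∫ t, tauS S t * lgp (tauS S) t) +
      ∑ a : Bool, 1 / 2 * (∫ t, muS S a t * ∫ u, muS S a u * V (t - u)) =
    1 / 2 * ∑ i, ∑ k, ES (S i) (S k) := by
  have e1 : ∀ a : Bool, (∫ t, muS S a t * ∫ u, muS S a u * V (t - u)) =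
      ∑ i, ∑ k, EV ((S i).f a) ((S k).f a) (S i).t (S k).t := by
    intro a
    unfold muS
    rw [bil_sum Finset.univ (p := fun i t => (S i).f a (t - (S i).t))
      (q := fun i t => (S i).f a (t - (S i).t))
      (fun k t => V_in (((h k).df a).shift _) t)
      (fun i k => V_out (((h i).df a).shift _) (((h k).df a).shift _))]
    exact Finset.sum_congr rfl fun i _ => Finset.sum_congr rfl fun k _ => bil_V ((h i).ef a) _ _
  have e2 : (∫ t, tauS S t * lgp (tauS S) t) =
      ∑ i, ∑ k, -(sg (S i).a * sg (S k).a * EU (S i).fT (S k).fT (S i).t (S k).t) := by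
    unfold lgp tauS
    rw [bil_sum Finset.univ (W := fun t => Real.log (g t))
      (p := fun i t => sg (S i).a * (S i).fT (t - (S i).t))
      (q := fun i t => sg (S i).a * (S i).fT (t - (S i).t))
      (fun k t => lg_in ((((h k).dT).shift _).smul _) t)
      (fun i k => lg_out ((((h i).dT).shift _).smul _) ((((h k).dT).shift _).smul _))]
    refine Finset.sum_congr rfl fun i _ => Finset.sum_congr rfl fun k _ => ?_
    have h1 := bil_U (f := (S i).fT) (f' := (S k).fT) (h i).eT (S i).t (S k).t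
    have h2 : ∀ t, sg (S i).a * (S i).fT (t - (S i).t) *
        (∫ u, sg (S k).a * (S k).fT (u - (S k).t) * Real.log (g (t - u))) =
        sg (S i).a * sg (S k).a * ((S i).fT (t - (S i).t) *
          ∫ u, (S k).fT (u - (S k).t) * Real.log (g (t - u))) := by
      intro t
      simp_rw [mul_assoc]
      rw [integral_const_mul]
      ring
    simp_rw [h2]
    rw [integral_const_mul, h1]
    ring
  rw [Fintype.sum_bool, e1, e1, e2, ← mul_add, ← mul_add, ← Finset.sum_add_distrib,
    ← Finset.sum_add_distrib]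
  congr 1
  refine Finset.sum_congr rfl fun i _ => ?_
  rw [← Finset.sum_add_distrib, ← Finset.sum_add_distrib]
  refine Finset.sum_congr rfl fun k _ => ?_
  unfold ES
  rcases hb : (S i).a with _ | _ <;> rcases hb' : (S k).a with _ | _ <;>
    simp only [Sr.f, hb, hb', sg, sgn, beq_self_eq_true, if_true, Bool.false_eq_true, if_false,
      show (false == true) = false from rfl, show (true == false) = false from rfl] <;> ring

/-! ### charges, objects -/

variable {α q : ℝ} {pa pb A B : ℝ → ℝ} {F G : ℂ → ℂ}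

/-- the source of a charge at height `t` -/
def chSr (a : Bool) (q : ℝ) (pa pb : ℝ → ℝ) (F G : ℂ → ℂ) (t : ℝ) : Sr :=
  ⟨a, dO F G, dX F G, dT G, pa, pb, q, t⟩

theorem chSr_ok (h : Chg α q pa pb A B F G) (a : Bool) (t : ℝ) : (chSr a q pa pb F G t).Ok := by
  obtain ⟨M, h0, hM⟩ := h.decay
  refine ⟨⟨h.contO, M, h0, fun t => (hM t).1⟩, ⟨h.contX, M, h0, fun t => (hM t).2.1⟩,
    ⟨h.contT, M, h0, fun t => (hM t).2.2⟩, fun s => ?_, fun s => ?_, fun s => ?_, h.split, h.intT,
    h.own, h.oth⟩
  · show NUC43.dO F G (-s) = NUC43.dO F G s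
    unfold NUC43.dO
    exact inv_neg' _ s
  · show NUC43.dX F G (-s) = NUC43.dX F G s
    unfold NUC43.dX
    exact inv_neg' _ s
  · show NUC43.dT G (-s) = NUC43.dT G s
    unfold NUC43.dT
    exact inv_neg' _ s

/-- the source of an object -/
def obSr (j e : ℝ) (x : Xo) : Sr :=
  chSr (NUO.sp x) (kq (kd x)) (kA j e (kd x)) (kB j e (kd x)) (kF j e (kd x)) (kG j e (kd x)) (ht x)

theorem obSr_ok {j e : ℝ} (h : Adm j e) (x : Xo) : (obSr j e x).Ok := chSr_ok (chgK h (kd x)) _ _

theorem muC_eq_muS (j e : ℝ) (O : ι → Xo) (a : Bool) : muC j e O a = muS (fun i => obSr j e (O i)) a := by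
  funext t
  unfold muC muS
  refine Finset.sum_congr rfl fun i _ => ?_
  unfold sgS Sr.f obSr chSr
  split_ifs <;> rfl

theorem tauC_eq_tauS (j e : ℝ) (O : ι → Xo) : tauC j e O = tauS (fun i => obSr j e (O i)) := rfl

theorem linC_eq_linS (j e : ℝ) (O : ι → Xo) (a : Bool) :
    linC j e O a = linS (fun i => obSr j e (O i)) a := by
  funext t
  unfold linC linS
  refine Finset.sum_congr rfl fun i _ => ?_
  unfold kS Sr.p obSr chSr
  split_ifs <;> rfl

theorem ES_eq_ERc (a a' : Bool) (q q' : ℝ) (pa pb pa' pb' : ℝ → ℝ) (F G F' G' : ℂ → ℂ) (t t' : ℝ) :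
    ES (chSr a q pa pb F G t) (chSr a' q' pa' pb' F' G' t') = ERc (a == a') F G F' G' t t' := rfl

theorem ES_obSr (j e : ℝ) (x y : Xo) : ES (obSr j e x) (obSr j e y) =
    Pool.Agent.NUM3.ER (sgX j e) (sgY j e) (sgT j e) (NUO.sp x == NUO.sp y) (kd x) (kd y) (ht x) (ht y) :=
  rfl

/-! ### objects and spectators together -/

variable {κ : Type*} [Fintype κ]

theorem muS_sum (S : ι → Sr) (T : κ → Sr) (a : Bool) (t : ℝ) :
    muS (Sum.elim S T) a t = muS S a t + muS T a t := by
  unfold muS
  rw [Fintype.sum_sum_type]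
  rfl

theorem tauS_sum (S : ι → Sr) (T : κ → Sr) (t : ℝ) :
    tauS (Sum.elim S T) t = tauS S t + tauS T t := by
  unfold tauS
  rw [Fintype.sum_sum_type]
  rfl

theorem linS_sum (S : ι → Sr) (T : κ → Sr) (a : Bool) (t : ℝ) :
    linS (Sum.elim S T) a t = linS S a t + linS T a t := by
  unfold linS
  rw [Fintype.sum_sum_type]
  rfl

/-- density of objects and spectators on the species `a` -/
def muM (j e : ℝ) (O : ι → Xo) (T : κ → Sr) (a : Bool) (t : ℝ) : ℝ := muC j e O a t + muS T a t
/-- density of the splitting -/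
def tauM (j e : ℝ) (O : ι → Xo) (T : κ → Sr) (t : ℝ) : ℝ := tauC j e O t + tauS T t
/-- potentials -/
def linM (j e : ℝ) (O : ι → Xo) (T : κ → Sr) (a : Bool) (t : ℝ) : ℝ := linC j e O a t + linS T a t

variable {j e : ℝ}

lemma muM_eq (O : ι → Xo) (T : κ → Sr) (a : Bool) :
    muM j e O T a = muS (Sum.elim (fun i => obSr j e (O i)) T) a := by
  funext t
  rw [muS_sum, ← muC_eq_muS]
  rfl

lemma tauM_eq (O : ι → Xo) (T : κ → Sr) :
    tauM j e O T = tauS (Sum.elim (fun i => obSr j e (O i)) T) := by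
  funext t
  rw [tauS_sum, ← tauC_eq_tauS]
  rfl

lemma linM_eq (O : ι → Xo) (T : κ → Sr) (a : Bool) :
    linM j e O T a = linS (Sum.elim (fun i => obSr j e (O i)) T) a := by
  funext t
  rw [linS_sum, ← linC_eq_linS]
  rfl

omit [Fintype ι] [Fintype κ] in
lemma okM (h : Adm j e) (O : ι → Xo) {T : κ → Sr} (hT : ∀ d, (T d).Ok) :
    ∀ i, (Sum.elim (fun i => obSr j e (O i)) T i).Ok := by
  rintro (i | d)
  · exact obSr_ok h _
  · exact hT d

theorem dn_muM (h : Adm j e) (O : ι → Xo) {T : κ → Sr} (hT : ∀ d, (T d).Ok) (a : Bool) :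
    Dn (muM j e O T a) := by
  rw [muM_eq]
  exact dn_muS (okM h O hT) a

theorem dn_tauM (h : Adm j e) (O : ι → Xo) {T : κ → Sr} (hT : ∀ d, (T d).Ok) :
    Dn (tauM j e O T) := by
  rw [tauM_eq]
  exact dn_tauS (okM h O hT)

theorem muM_sub (h : Adm j e) (O : ι → Xo) {T : κ → Sr} (hT : ∀ d, (T d).Ok) (t : ℝ) :
    muM j e O T true t - muM j e O T false t = tauM j e O T t := by
  rw [muM_eq, muM_eq, tauM_eq]
  exact muS_sub (okM h O hT) t

theorem tauM_int (h : Adm j e) (O : ι → Xo) {T : κ → Sr} (hT : ∀ d, (T d).Ok) :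
    ∫ t, tauM j e O T t = -(∑ i, sg (NUO.sp (O i)) * kq (kd (O i)) + ∑ d, sg (T d).a * (T d).q) := by
  rw [tauM_eq, tauS_int (okM h O hT), Fintype.sum_sum_type]
  rfl

/-- **the equation of the densities, objects and spectators** -/
theorem cfgM_eq (h : Adm j e) (O : ι → Xo) {T : κ → Sr} (hT : ∀ d, (T d).Ok) (a : Bool) (t : ℝ) :
    linM j e O T a t - sg a * lgp (tauM j e O T) t = ∫ u, muM j e O T a u * V (t - u) := by
  rw [muM_eq, linM_eq, tauM_eq]
  exact muS_eq (okM h O hT) a t

/-- symmetric energies -/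
def Sym (S S' : Sr) : Prop := ES S S' = ES S' S

/-- **the energy, objects and spectators** -/
theorem cfgM_energy (h : Adm j e) (O : ι → Xo) {T : κ → Sr} (hT : ∀ d, (T d).Ok)
    (hs : ∀ i d, Sym (obSr j e (O i)) (T d)) :
    1 / 2 * (∫ t, tauM j e O T t * lgp (tauM j e O T) t) +
      ∑ a : Bool, 1 / 2 * (∫ t, muM j e O T a t * ∫ u, muM j e O T a u * V (t - u)) =
    1 / 2 * ∑ i, ∑ k, Pool.Agent.NUM3.ER (sgX j e) (sgY j e) (sgT j e)
        (NUO.sp (O i) == NUO.sp (O k)) (kd (O i)) (kd (O k)) (ht (O i)) (ht (O k)) +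
      ∑ i, ∑ d, ES (obSr j e (O i)) (T d) + 1 / 2 * ∑ d, ∑ d', ES (T d) (T d') := by
  have h1 := muS_energy (okM h O hT)
  rw [tauM_eq]
  simp only [muM_eq]
  rw [h1, Fintype.sum_sum_type]
  simp only [Fintype.sum_sum_type, Sum.elim_inl, Sum.elim_inr, Finset.sum_add_distrib, ES_obSr]
  have h2 : ∑ d, ∑ i, ES (T d) (obSr j e (O i)) = ∑ i, ∑ d, ES (obSr j e (O i)) (T d) := by
    rw [Finset.sum_comm]
    exact Finset.sum_congr rfl fun i _ => Finset.sum_congr rfl fun d _ => (hs i d).symm
  rw [h2]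
  ring

end

end NUGC
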