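import Pool.Agent.NUGC.HalfQ
import Pool.Agent.NUGC.Spec
import Pool.Agent.NUGC.CfgC

/-!
# The elementary spectators of TARGET-C (board/GAM G3, helper99)

`Ek`: half quanta at `5/4`, `-11/4`, `1/4`, `5/8`, quanta at `1/4`, `5/8`, string at `(-11/8, -19/8)`
(positions in units of `l`).  A spectator is `(species, Ek, height)`.

* `Ek.f a k τ : Bool → ℂ → ℝ`: modulus of its factor on a quantum (`NUGC.Spec`);
* `Ek.src a k τ : Sr`: its source (`NUGC.CfgC`), `Ek.src_ok`;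
* `Ek.log_f`: on the line of the quanta `log (Ek.f ..) = ` the potential of the source, `Ek.f_pos`.
-/

set_option autoImplicit false

open MeasureTheory Set Filter Topology

namespace NUGC

noncomputable section

open NUMF (l l_pos g h V zj lq lqg)
open NUC43

/-- elementary spectators -/
inductive Ek
  | h5 | hm | h1 | hs | q1 | qs | sr
  deriving DecidableEq

namespace Ek

/-- distance to the right of the line of the quanta (position minus one) -/
def x : Ek → ℝ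
  | .h5 => 1 / 4
  | .hm => 1 / 4 - 4
  | .h1 => -(3 / 4)
  | .hs => -(3 / 8)
  | .q1 => -(3 / 4)
  | .qs => -(3 / 8)
  | .sr => -(19 / 8)

/-- position in units of `l` -/
def ps (k : Ek) : ℝ := 1 + k.x

/-- charge on the own species -/
def q : Ek → ℝ
  | .h5 | .hm | .h1 | .hs => 1 / 2
  | .q1 | .qs => 1
  | .sr => 2

/-- modulus of the factor of the spectator of species `a` and height `τ` on a quantum -/
def f (a : Bool) (k : Ek) (τ : ℝ) : Bool → ℂ → ℝ :=
  match k with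
  | .h5 | .hm | .h1 | .hs => hq a (NUP1.vl (k.ps * NUP1.l) τ)
  | .q1 | .qs => sq a (NUP1.vl (k.ps * NUP1.l) τ)
  | .sr => fun s u => sq a (NUP1.vl (k.ps * NUP1.l) τ) s u * sq a (NUP1.vl ((k.ps - 1) * NUP1.l) τ) s u

/-- own potential -/
def pa : Ek → ℝ → ℝ
  | .h5 => pC (1 / 4)
  | .hm => pC (1 / 4 - 4)
  | .h1 => pC (-(3 / 4))
  | .hs => pC (-(3 / 8))
  | .q1 => pO (9 / 4) (3 / 4) .V
  | .qs => pO (9 / 4) (3 / 8) .V
  | .sr => pO (9 / 4) (3 / 8) .S

/-- potential on the other species -/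
def pb : Ek → ℝ → ℝ
  | .h5 => pD (1 / 4)
  | .hm => pD (1 / 4 - 4)
  | .h1 => pD (-(3 / 4))
  | .hs => pD (-(3 / 8))
  | .q1 => pX (9 / 4) (3 / 4) .V
  | .qs => pX (9 / 4) (3 / 8) .V
  | .sr => pX (9 / 4) (3 / 8) .S

/-- minus the transform of `pa` -/
def hA : Ek → ℝ → ℝ
  | .h5 => lT (L1O (1 / 4))
  | .hm => lT (L3O (1 / 4))
  | .h1 => lT (L2O (3 / 4))
  | .hs => lT (L2O (3 / 8))
  | .q1 => Ah (9 / 4) (3 / 4) .V
  | .qs => Ah (9 / 4) (3 / 8) .V
  | .sr => Ah (9 / 4) (3 / 8) .S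

/-- minus the transform of `pb` -/
def hB : Ek → ℝ → ℝ
  | .h5 => lT (L1X (1 / 4))
  | .hm => lT (L3X (1 / 4))
  | .h1 => lT (L2X (3 / 4))
  | .hs => lT (L2X (3 / 8))
  | .q1 => Bh (9 / 4) (3 / 4) .V
  | .qs => Bh (9 / 4) (3 / 8) .V
  | .sr => Bh (9 / 4) (3 / 8) .S

/-- symbol of the sum -/
def F : Ek → ℂ → ℂ
  | .h5 => F1 (1 / 4)
  | .hm => F3 (1 / 4)
  | .h1 => F2 (3 / 4)
  | .hs => F2 (3 / 8)
  | .q1 => sp (9 / 4) (3 / 4) .V
  | .qs => sp (9 / 4) (3 / 8) .V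
  | .sr => sp (9 / 4) (3 / 8) .S

/-- symbol of the difference -/
def G : Ek → ℂ → ℂ
  | .h5 => G1 (1 / 4)
  | .hm => G3 (1 / 4)
  | .h1 => G2 (3 / 4)
  | .hs => G2 (3 / 8)
  | .q1 => sm (9 / 4) (3 / 4) .V
  | .qs => sm (9 / 4) (3 / 8) .V
  | .sr => sm (9 / 4) (3 / 8) .S

theorem adm1 : Adm (9 / 4) (3 / 4) := ⟨by norm_num, by norm_num, by norm_num, by norm_num⟩
theorem adm2 : Adm (9 / 4) (3 / 8) := ⟨by norm_num, by norm_num, by norm_num, by norm_num⟩

/-- every elementary spectator is a charge -/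
theorem chg (k : Ek) : ∃ α, Chg α k.q k.pa k.pb k.hA k.hB k.F k.G := by
  cases k
  · exact ⟨_, chg_h1 (x := 1 / 4) (by norm_num) (by norm_num)⟩
  · exact ⟨_, chg_h3 (y := 1 / 4) (by norm_num) (by norm_num)⟩
  · exact ⟨_, chg_h2 (x := 3 / 4) (by norm_num) (by norm_num)⟩
  · exact ⟨_, chg_h2 (x := 3 / 8) (by norm_num) (by norm_num)⟩
  · exact ⟨_, chg_grp adm1 .V⟩
  · exact ⟨_, chg_grp adm2 .V⟩
  · exact ⟨_, chg_grp adm2 .S⟩

/-- the source -/
def src (a : Bool) (k : Ek) (τ : ℝ) : Sr := chSr a k.q k.pa k.pb k.F k.G τ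

theorem src_ok (a : Bool) (k : Ek) (τ : ℝ) : (src a k τ).Ok := by
  obtain ⟨α, h⟩ := k.chg
  exact chSr_ok h a τ

end Ek

/-! ### logarithms on the line -/

/-- a sine at a real part which is not a multiple of `l` -/
lemma sin_zj_ne {x : ℝ} (hx : ∀ n : ℤ, x ≠ n) (t : ℝ) : Complex.sin (zj x t) ≠ 0 := by
  intro h0
  obtain ⟨n, hn⟩ := Complex.sin_eq_zero_iff.1 h0
  have h1 := congrArg Complex.re hn
  have h2 : x * l = n * Real.pi := by
    have e : (zj x t).re = x * l := by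
      unfold zj
      simp
    rw [e] at h1
    rw [h1]
    simp
  refine hx (8 * n) ?_
  unfold l at h2
  have hpi := Real.pi_pos
  have h3 : x * Real.pi = (8 * n) * Real.pi := by linarith
  push_cast
  exact mul_right_cancel₀ hpi.ne' h3

lemma ni_add {x : ℝ} (hx : ∀ n : ℤ, x ≠ n) (m : ℤ) : ∀ n : ℤ, x + m ≠ n := by
  intro n h0
  refine hx (n - m) ?_
  push_cast
  linarith

lemma cos_zj_ne {x : ℝ} (hx : ∀ n : ℤ, x ≠ n) (t : ℝ) : Complex.cos (zj x t) ≠ 0 := by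
  have h1 := sin_zj_ne (ni_add hx 4) t
  have e : zj (x + (4 : ℤ)) t = zj x t + Real.pi / 2 := by
    unfold zj l
    push_cast
    ring
  rw [e, Complex.sin_add_pi_div_two] at h1
  exact h1

lemma zj_sh (x t : ℝ) (m : ℤ) : zj x t + (m : ℂ) * (NUP1.l : ℂ) = zj (x + m) t := by
  have h1 := zj_l x t m
  rw [← h1]
  push_cast
  ring

lemma q_eq (z : ℂ) : ‖NUP1.q z‖ = ‖Complex.sin z‖ ^ 2 * ‖Complex.sin (z + (2 : ℤ) * NUP1.l)‖ *
    ‖Complex.sin (z + (-2 : ℤ) * NUP1.l)‖ / (‖Complex.sin (z + (1 : ℤ) * NUP1.l)‖ *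
    ‖Complex.sin (z + (-1 : ℤ) * NUP1.l)‖) := by
  unfold NUP1.q
  rw [norm_div, norm_neg, norm_mul, norm_mul, norm_mul, norm_pow]
  push_cast
  rw [neg_mul, ← sub_eq_add_neg, neg_mul, ← sub_eq_add_neg, one_mul]

lemma qg_eq (z : ℂ) : ‖NUP1.Bd.qg z‖ = ‖Complex.cos z‖ ^ 2 / (‖Complex.sin (z + (3 : ℤ) * NUP1.l)‖ ^ 2 *
    ‖Complex.sin (z + (-3 : ℤ) * NUP1.l)‖ ^ 2) := by
  unfold NUP1.Bd.qg
  rw [norm_div, norm_mul, norm_pow, norm_pow, norm_pow]
  push_cast
  rw [neg_mul, ← sub_eq_add_neg]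

lemma h_rd' {t a b : ℝ} (h : b = a ∨ b = -a ∨ b = 8 - a ∨ b = 8 + a) :
    NUMF.h t (a * l) = NUMF.h t (b * l) := by
  rcases h with h | h | h | h
  · rw [h]
  · rw [h, neg_mul, NUMF.h_neg_right]
  · exact (h_rd (Or.inr h) t).symm
  · have h1 : NUMF.h t (b * l) = NUMF.h t (-a * l) := h_rd (Or.inr (by rw [h]; ring)) t
    rw [h1, neg_mul, NUMF.h_neg_right]

/-- `log |q|` on a line which is not a multiple of `l` -/
theorem log_q' {x : ℝ} (hx : ∀ n : ℤ, x ≠ n) (t : ℝ) : 0 < ‖NUP1.q (zj x t)‖ ∧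
    Real.log ‖NUP1.q (zj x t)‖ = lq x t := by
  have n0 := sin_zj_ne hx t
  have n1 := sin_zj_ne (ni_add hx 1) t
  have n2 := sin_zj_ne (ni_add hx 2) t
  have m1 := sin_zj_ne (ni_add hx (-1)) t
  have m2 := sin_zj_ne (ni_add hx (-2)) t
  have l0 := ls' n0
  have l1 := ls' n1
  have l2 := ls' n2
  have k1 := ls' m1
  have k2 := ls' m2
  rw [q_eq, zj_sh, zj_sh, zj_sh, zj_sh]
  have p0 := norm_pos_iff.2 n0
  have p1 := norm_pos_iff.2 n1
  have p2 := norm_pos_iff.2 n2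
  have r1 := norm_pos_iff.2 m1
  have r2 := norm_pos_iff.2 m2
  refine ⟨by positivity, ?_⟩
  rw [Real.log_div (by positivity) (by positivity), Real.log_mul (by positivity) (by positivity),
    Real.log_mul (by positivity) (by positivity), Real.log_mul (by positivity) (by positivity),
    Real.log_pow]
  have e1 : NUMF.h t ((4 - (x + (1 : ℤ))) * l) = NUMF.h t ((3 - x) * l) := h_rd' (Or.inl (by push_cast; ring))
  have e2 : NUMF.h t ((4 - (x + (2 : ℤ))) * l) = NUMF.h t ((2 - x) * l) := h_rd' (Or.inl (by push_cast; ring))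
  have e3 : NUMF.h t ((4 - (x + (-1 : ℤ))) * l) = NUMF.h t ((5 - x) * l) := h_rd' (Or.inl (by push_cast; ring))
  have e4 : NUMF.h t ((4 - (x + (-2 : ℤ))) * l) = NUMF.h t ((2 + x) * l) :=
    h_rd' (Or.inr (Or.inr (Or.inl (by push_cast; ring))))
  rw [e1] at l1
  rw [e2] at l2
  rw [e3] at k1
  rw [e4] at k2
  unfold NUMF.lq NUMF.ro
  push_cast at l0 l1 l2 k1 k2 ⊢
  linarith

/-- `log |q_g|` on a line which is not a multiple of `l` -/
theorem log_qg' {x : ℝ} (hx : ∀ n : ℤ, x ≠ n) (t : ℝ) : 0 < ‖NUP1.Bd.qg (zj x t)‖ ∧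
    Real.log ‖NUP1.Bd.qg (zj x t)‖ = lqg x t := by
  have n0 := cos_zj_ne hx t
  have n1 := sin_zj_ne (ni_add hx 3) t
  have m1 := sin_zj_ne (ni_add hx (-3)) t
  have l0 := lc' n0
  have l1 := ls' n1
  have k1 := ls' m1
  rw [qg_eq, zj_sh, zj_sh]
  have p0 := norm_pos_iff.2 n0
  have p1 := norm_pos_iff.2 n1
  have r1 := norm_pos_iff.2 m1
  refine ⟨by positivity, ?_⟩
  rw [Real.log_div (by positivity) (by positivity), Real.log_mul (by positivity) (by positivity),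
    Real.log_pow, Real.log_pow, Real.log_pow]
  have e1 : NUMF.h t ((4 - (x + (3 : ℤ))) * l) = NUMF.h t (x * l - l) := by
    rw [show x * l - l = (x - 1) * l by ring]
    exact h_rd' (Or.inr (Or.inl (by push_cast; ring)))
  have e2 : NUMF.h t ((4 - (x + (-3 : ℤ))) * l) = NUMF.h t (x * l + l) := by
    rw [show x * l + l = (x + 1) * l by ring]
    exact h_rd' (Or.inr (Or.inr (Or.inl (by push_cast; ring))))
  rw [e1] at l1
  rw [e2] at k1
  unfold NUMF.lqg
  push_cast at l0 l1 k1 ⊢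
  linarith

/-- a spectator minus a quantum of the line -/
lemma vl_sub (p t τ : ℝ) : NUP1.vl (p * NUP1.l) τ - NUP1.vl NUP1.l t = zj (p - 1) (τ - t) := by
  unfold NUP1.vl zj
  rw [l_eq]
  push_cast
  ring

lemma even_h (x : ℝ) : ∀ t, NUMF.h (-t) x = NUMF.h t x := fun t => NUMF.h_neg_left t x

lemma pC_even (x t : ℝ) : pC x (-t) = pC x t := by
  unfold pC
  rw [even_h, even_h, even_h]

lemma pD_even (x t : ℝ) : pD x (-t) = pD x t := by
  unfold pD
  rw [even_h, even_h, even_h]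

lemma lq_even (j t : ℝ) : lq j (-t) = lq j t := by
  unfold NUMF.lq NUMF.ro
  rw [even_h, even_h, even_h, even_h, even_h]

lemma lqg_even (j t : ℝ) : lqg j (-t) = lqg j t := by
  unfold NUMF.lqg
  rw [even_h, even_h, even_h]

lemma lq_neg (j t : ℝ) : lq (-j) t = lq j t := by
  unfold NUMF.lq NUMF.ro
  have e1 : NUMF.h t ((4 - -j) * l) = NUMF.h t ((4 - j) * l) := h_rd' (Or.inr (Or.inr (Or.inl (by ring))))
  have e2 : NUMF.h t ((2 - -j) * l) = NUMF.h t ((2 + j) * l) := h_rd' (Or.inl (by ring))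
  have e3 : NUMF.h t ((2 + -j) * l) = NUMF.h t ((2 - j) * l) := h_rd' (Or.inl (by ring))
  have e4 : NUMF.h t ((3 - -j) * l) = NUMF.h t ((5 - j) * l) := h_rd' (Or.inr (Or.inr (Or.inl (by ring))))
  have e5 : NUMF.h t ((5 - -j) * l) = NUMF.h t ((3 - j) * l) := h_rd' (Or.inr (Or.inr (Or.inl (by ring))))
  rw [e1, e2, e3, e4, e5]
  ring

lemma lqg_neg (j t : ℝ) : lqg (-j) t = lqg j t := by
  unfold NUMF.lqg
  have e1 : NUMF.h t (-j * l) = NUMF.h t (j * l) := h_rd' (Or.inr (Or.inl (by ring)))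
  have e2 : NUMF.h t (-j * l + l) = NUMF.h t (j * l - l) := by
    rw [show -j * l + l = (1 - j) * l by ring, show j * l - l = (j - 1) * l by ring]
    exact h_rd' (Or.inr (Or.inl (by ring)))
  have e3 : NUMF.h t (-j * l - l) = NUMF.h t (j * l + l) := by
    rw [show -j * l - l = (-1 - j) * l by ring, show j * l + l = (j + 1) * l by ring]
    exact h_rd' (Or.inr (Or.inl (by ring)))
  rw [e1, e2, e3]
  ring

/-- half quantum on the line -/
theorem log_hq {x : ℝ} (hx : ∀ n : ℤ, x ≠ n) (a s : Bool) (τ t : ℝ) :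
    0 < hq a (NUP1.vl ((1 + x) * NUP1.l) τ) s (NUP1.vl NUP1.l t) ∧
    Real.log (hq a (NUP1.vl ((1 + x) * NUP1.l) τ) s (NUP1.vl NUP1.l t)) =
      if s = a then pC x (t - τ) else pD x (t - τ) := by
  have e : NUP1.vl ((1 + x) * NUP1.l) τ - NUP1.vl NUP1.l t = zj x (τ - t) := by
    rw [vl_sub]
    congr 1
    ring
  have n0 := sin_zj_ne hx (τ - t)
  have n1 : Complex.sin (zj (x + 1) (τ - t)) ≠ 0 := by
    have := sin_zj_ne (ni_add hx 1) (τ - t)
    exact_mod_cast this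
  have n2 : Complex.sin (zj (x + 2) (τ - t)) ≠ 0 := by
    have := sin_zj_ne (ni_add hx 2) (τ - t)
    exact_mod_cast this
  have c0 := cos_zj_ne hx (τ - t)
  have n3 : Complex.sin (zj (x + 3) (τ - t)) ≠ 0 := by
    have := sin_zj_ne (ni_add hx 3) (τ - t)
    exact_mod_cast this
  have m3 : Complex.sin (zj (x - 3) (τ - t)) ≠ 0 := by
    have := sin_zj_ne (ni_add hx (-3)) (τ - t)
    push_cast at this
    rwa [← sub_eq_add_neg] at this
  have q3 : Complex.sin (zj (3 - x) (-(τ - t))) ≠ 0 := by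
    have h1 : zj (3 - x) (-(τ - t)) = -zj (x - 3) (τ - t) := by
      unfold zj
      push_cast
      ring
    rw [h1, Complex.sin_neg]
    exact neg_ne_zero.2 m3
  have q3' : Complex.sin (zj (3 + x) (τ - t)) ≠ 0 := by rwa [add_comm]
  have z3 : (3 : ℂ) * NUP1.l - zj x (τ - t) = zj (3 - x) (-(τ - t)) := by
    unfold zj
    rw [l_eq]
    push_cast
    ring
  have z3' : (3 : ℂ) * NUP1.l + zj x (τ - t) = zj (3 + x) (τ - t) := by
    unfold zj
    rw [l_eq]
    push_cast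
    ring
  have z1 : zj x (τ - t) + NUP1.l = zj (x + 1) (τ - t) := by
    unfold zj
    rw [l_eq]
    push_cast
    ring
  have z2 : zj x (τ - t) + 2 * NUP1.l = zj (x + 2) (τ - t) := by
    unfold zj
    rw [l_eq]
    push_cast
    ring
  have hC : Real.log ‖NUP1.Leg.Ck (zj x (τ - t))‖ = pC x (t - τ) := by
    rw [log_Ck n0 n1 n2, ← pC_even, neg_sub]
  have hD : Real.log ‖NUP1.Leg.Dk (zj x (τ - t))‖ = pD x (t - τ) := by
    rw [log_Dk c0 q3 q3', ← pD_even, neg_sub]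
  have pC' : 0 < ‖NUP1.Leg.Ck (zj x (τ - t))‖ := by
    refine norm_pos_iff.2 ?_
    unfold NUP1.Leg.Ck
    rw [z1, z2]
    exact div_ne_zero (mul_ne_zero n0 n2) n1
  have pD' : 0 < ‖NUP1.Leg.Dk (zj x (τ - t))‖ := by
    refine norm_pos_iff.2 ?_
    unfold NUP1.Leg.Dk
    rw [z3, z3']
    exact div_ne_zero c0 (mul_ne_zero q3 q3')
  unfold hq
  rw [e]
  split_ifs
  · exact ⟨pC', hC⟩
  · exact ⟨pD', hD⟩

/-- quantum on the line -/
theorem log_sq {x : ℝ} (hx : ∀ n : ℤ, x ≠ n) (a s : Bool) (τ t : ℝ) :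
    0 < sq a (NUP1.vl ((1 + x) * NUP1.l) τ) s (NUP1.vl NUP1.l t) ∧
    Real.log (sq a (NUP1.vl ((1 + x) * NUP1.l) τ) s (NUP1.vl NUP1.l t)) =
      if s = a then lq (-x) (t - τ) else lqg (-x) (t - τ) := by
  have e : NUP1.vl ((1 + x) * NUP1.l) τ - NUP1.vl NUP1.l t = zj x (τ - t) := by
    rw [vl_sub]
    congr 1
    ring
  have h1 := log_q' hx (τ - t)
  have h2 := log_qg' hx (τ - t)
  unfold sq
  rw [e]
  split_ifs
  · refine ⟨h1.1, ?_⟩
    rw [h1.2, lq_neg, ← lq_even, neg_sub]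
  · refine ⟨h2.1, ?_⟩
    rw [h2.2, lqg_neg, ← lqg_even, neg_sub]

namespace Ek

lemma x_ni (k : Ek) : ∀ n : ℤ, k.x ≠ n := by
  intro n h0
  have h1 : (8 * k.x : ℝ) = ((8 * n : ℤ) : ℝ) := by rw [h0]; push_cast; ring
  cases k <;> unfold x at h1 <;> norm_num at h1 <;> norm_cast at h1 <;> omega

/-- **the modulus on the line of the quanta is the potential of the source** -/
theorem log_f (a : Bool) (k : Ek) (τ : ℝ) (s : Bool) (t : ℝ) :
    0 < f a k τ s (NUP1.vl NUP1.l t) ∧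
    Real.log (f a k τ s (NUP1.vl NUP1.l t)) = (src a k τ).p s (t - τ) := by
  have hb : ∀ u v : ℝ → ℝ, (if s = a then u (t - τ) else v (t - τ)) =
      (if (a == s) = true then u else v) (t - τ) := by
    intro u v
    cases a <;> cases s <;> simp
  have hi := k.x_ni
  unfold Sr.p src chSr
  cases k
  · have h := log_hq hi a s τ t
    rw [hb] at h
    exact h
  · have h := log_hq hi a s τ t
    rw [hb] at h
    exact h
  · have h := log_hq hi a s τ t
    rw [hb] at h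
    exact h
  · have h := log_hq hi a s τ t
    rw [hb] at h
    exact h
  · have h := log_sq hi a s τ t
    have h2 := hb (lq (-(Ek.q1).x)) (lqg (-(Ek.q1).x))
    rw [h2] at h
    have e1 : pO (9 / 4) (3 / 4) NUC43.Grp.V = lq (-(Ek.q1).x) := by
      funext t
      unfold pO x
      norm_num
    have e2 : pX (9 / 4) (3 / 4) NUC43.Grp.V = lqg (-(Ek.q1).x) := by
      funext t
      unfold pX x
      norm_num
    simp only [pa, pb, e1, e2]
    exact h
  · have h := log_sq hi a s τ t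
    have h2 := hb (lq (-(Ek.qs).x)) (lqg (-(Ek.qs).x))
    rw [h2] at h
    have e1 : pO (9 / 4) (3 / 8) NUC43.Grp.V = lq (-(Ek.qs).x) := by
      funext t
      unfold pO x
      norm_num
    have e2 : pX (9 / 4) (3 / 8) NUC43.Grp.V = lqg (-(Ek.qs).x) := by
      funext t
      unfold pX x
      norm_num
    simp only [pa, pb, e1, e2]
    exact h
  · have h := log_sq hi a s τ t
    have hi' : ∀ n : ℤ, (Ek.sr).x - 1 ≠ n := by
      intro n h0
      refine hi (n + 1) ?_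
      push_cast
      linarith
    have h' := log_sq hi' a s τ t
    have e0 : (1 + ((Ek.sr).x - 1)) * NUP1.l = ((Ek.sr).ps - 1) * NUP1.l := by
      unfold ps
      ring
    rw [e0] at h'
    have p1 := h.1
    have p2 := h'.1
    refine ⟨mul_pos p1 p2, ?_⟩
    show Real.log (sq a _ s _ * sq a _ s _) = _
    have h3 := Real.log_mul p1.ne' p2.ne'
    refine h3.trans ?_
    rw [h.2, h'.2]
    have e1 : pO (9 / 4) (3 / 8) NUC43.Grp.S = fun t => lq (-(Ek.sr).x) t + lq (-((Ek.sr).x - 1)) t := by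
      funext t
      unfold pO x
      norm_num
    have e2 : pX (9 / 4) (3 / 8) NUC43.Grp.S = fun t => lqg (-(Ek.sr).x) t + lqg (-((Ek.sr).x - 1)) t := by
      funext t
      unfold pX x
      norm_num
    simp only [pa, pb, e1, e2]
    cases a <;> cases s <;> simp

end Ek

end

end NUGC
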