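import Pool.Agent.NUGC.ExpC
import Pool.Agent.NUGC.CurEx

/-!
# The current of TARGET-C satisfies `CuOk`

`cuOkC`: the current `h = s P η = hC e1 J m` of the curve `etaC e1 J m s` (any sea, any real row
number `s ≥ m / 2`) has the properties which the exponent inequality (`NUGC/ExpC`) needs.
-/

set_option autoImplicit false
set_option linter.unusedSectionVars false

open MeasureTheory Set Filter Topology

namespace NUGC

open NUO NUCR

noncomputable section

/-- the slope is at most one for large `m` -/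
theorem slope_one {e1 : ℝ} (he : 0 < e1) (J : ℝ) (hJ : 0 ≤ J) : ∃ m0 : ℕ, ∀ m ≥ m0,
    e1 ≤ 1 / 100 → 20 ≤ Tb (Real.log m) → ∀ t t', |hC e1 J m t - hC e1 J m t'| ≤ |t - t'| := by
  obtain ⟨C, hC0, H⟩ := hC_lip he
  have h1 := (Real.tendsto_log_atTop.comp tendsto_natCast_atTop_atTop).eventually_ge_atTop
    (16 / 3 * (C * J))
  obtain ⟨m0, hm0⟩ := eventually_atTop.1 h1
  refine ⟨m0, fun m hm he1 hT t t' => (H J hJ m he1 hT t t').trans ?_⟩
  have a1 : 16 / 3 * (C * J) ≤ Real.log m := hm0 m hm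
  have a2 : C * J / Tb (Real.log m) ≤ 1 / 2 := by
    rw [div_le_iff₀ (by linarith)]
    unfold Tb
    linarith
  have a3 := aC_le
  calc (aC + C * J / Tb (Real.log m)) * |t - t'| ≤ 1 * |t - t'| :=
        mul_le_mul_of_nonneg_right (by linarith) (abs_nonneg _)
    _ = |t - t'| := one_mul _

variable [NUSea.Sea]

/-- **the current of the curve of TARGET-C** -/
theorem cuOkC {e1 J : ℝ} (he : 0 < e1) (he1 : e1 ≤ 1 / 100) (hJ : 0 ≤ J) :
    ∃ (Cb : ℝ) (m0 : ℕ), ∀ m ≥ m0, ∀ s : ℝ, (m : ℝ) / 2 ≤ s →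
      CuOk e1 J Cb m (fun t => s * NUSea.P t * etaC e1 J m s t)
        (NUSea.hd s (etaC e1 J m s) (etaC' e1 J m s)) := by
  obtain ⟨m1, H1⟩ := slope_one he J hJ
  obtain ⟨Cb, -, H2⟩ := bil_curC he
  have h1 := (Real.tendsto_log_atTop.comp tendsto_natCast_atTop_atTop).eventually_ge_atTop
    (160 / 3 : ℝ)
  obtain ⟨m2, hm2⟩ := eventually_atTop.1 h1
  refine ⟨Cb * (1 + J) ^ 2, max (max m1 m2) 1, fun m hm s hs => ?_⟩
  have a1 : m1 ≤ m := (le_max_left _ _).trans ((le_max_left _ _).trans hm)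
  have a2 : (160 / 3 : ℝ) ≤ Real.log m := hm2 m ((le_max_right _ _).trans ((le_max_left _ _).trans hm))
  have a3 : 1 ≤ m := (le_max_right _ _).trans hm
  have hmp : (0 : ℝ) < m := by exact_mod_cast a3
  have hs0 : 0 < s := by
    have : 0 < (m : ℝ) / 2 := by positivity
    linarith
  have hT : 20 ≤ Tb (Real.log m) := by
    unfold Tb
    linarith
  rw [cur_etaC hs0]
  refine ⟨hC_nonneg he1 hJ hT, hC_le_zero he he1 hJ hT, fun t => ?_, H1 m a1 he1 hT,
    (H2 J hJ m he1 hT s hs0).2⟩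
  have := (tent_bd (DC_nonneg he1 hT) aC_pos.le t).1
  unfold hC
  linarith

end

end NUGC
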