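import Mathlib

/-! NUGC.QInt (helper96): the integrals over the heights of the two groups (TARGET-C, doc nu34/82F section 2).
 (a) `QI0`: int int exp(-|t|-|t'|-|t-t'|/2) <= 4
 (b) `QI_far`: the far part, <= 3000 exp(-(3/2) T)
 (c) `pin_ineq`: the pointwise inequality of the pinned heights -/

open MeasureTheory Real Set

namespace NUGC

noncomputable section

/-- excess of a height over the window -/
def xs (T t : ℝ) : ℝ := max (|t| - T) 0

/-- the pinned height -/
def pin (T t : ℝ) : ℝ := max (-T) (min t T)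

/-- near integrand -/
def QI0 (z : ℝ × ℝ) : ℝ := Real.exp (-|z.1| - |z.2| - |z.1 - z.2| / 2)

/-- far integrand -/
def QI (T : ℝ) (z : ℝ × ℝ) : ℝ :=
  Real.exp (-|z.1| - |z.2| - |z.1 - z.2| / 2 + (27 / 20) * max (xs T z.1) (xs T z.2)
    + (1 / 2) * min (xs T z.1) (xs T z.2))

/-- the far region -/
def FarS (T : ℝ) : Set (ℝ × ℝ) := {z | T < |z.1| ∨ T < |z.2|}

theorem xs_nonneg (T t : ℝ) : 0 ≤ xs T t := le_max_right _ _

theorem xs_cont (T : ℝ) : Continuous (xs T) := by
  unfold xs; fun_prop

theorem QI0_cont : Continuous QI0 := by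
  unfold QI0; fun_prop

theorem QI_cont (T : ℝ) : Continuous (QI T) := by
  unfold QI
  have := xs_cont T
  fun_prop

theorem measurableSet_FarS (T : ℝ) : MeasurableSet (FarS T) := by
  apply IsOpen.measurableSet
  exact (isOpen_lt continuous_const (show Continuous fun z : ℝ × ℝ => |z.1| by fun_prop)).union
    (isOpen_lt continuous_const (show Continuous fun z : ℝ × ℝ => |z.2| by fun_prop))

theorem qi_exp_abs {a : ℝ} (ha : 0 < a) (c : ℝ) :
    Integrable (fun t : ℝ => Real.exp (-a * |t - c|)) ∧ ∫ t : ℝ, Real.exp (-a * |t - c|) = 2 / a := by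
  have hI : IntegrableOn (fun t : ℝ => Real.exp (-a * |t|)) (Ioi 0) := by
    have h := integrableOn_exp_mul_Ioi (a := -a) (by linarith) 0
    refine h.congr_fun (fun t ht => ?_) measurableSet_Ioi
    simp only [abs_of_pos (show (0:ℝ) < t from ht)]
  have hI' : IntegrableOn (fun t : ℝ => Real.exp (-a * |t|)) (Iic 0) := by
    have h := integrableOn_exp_mul_Iic (a := a) ha 0
    refine h.congr_fun (fun t ht => ?_) measurableSet_Iic
    simp only [abs_of_nonpos (show t ≤ (0:ℝ) from ht)]
    ring_nf
  have h1 : Integrable (fun t : ℝ => Real.exp (-a * |t|)) := by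
    rw [← integrableOn_univ, ← Iic_union_Ioi (a := (0:ℝ))]
    exact hI'.union hI
  have h2 : ∫ t : ℝ, Real.exp (-a * |t|) = 2 / a := by
    rw [← intervalIntegral.integral_Iic_add_Ioi hI' hI]
    have e1 : ∫ t in Iic (0:ℝ), Real.exp (-a * |t|) = 1 / a := by
      have h := integral_exp_mul_Iic (a := a) ha 0
      rw [show (∫ t in Iic (0:ℝ), Real.exp (-a * |t|)) = ∫ t in Iic (0:ℝ), Real.exp (a * t) from ?_, h]
      · simp
      · refine setIntegral_congr_fun measurableSet_Iic (fun t ht => ?_)
        simp only [abs_of_nonpos (show t ≤ (0:ℝ) from ht)]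
        ring_nf
    have e2 : ∫ t in Ioi (0:ℝ), Real.exp (-a * |t|) = 1 / a := by
      have h := integral_exp_mul_Ioi (a := -a) (by linarith) 0
      rw [show (∫ t in Ioi (0:ℝ), Real.exp (-a * |t|)) = ∫ t in Ioi (0:ℝ), Real.exp (-a * t) from ?_, h]
      · simp
      · refine setIntegral_congr_fun measurableSet_Ioi (fun t ht => ?_)
        simp only [abs_of_pos (show (0:ℝ) < t from ht)]
    rw [e1, e2]; ring
  refine ⟨?_, ?_⟩
  · exact h1.comp_sub_right c
  · rw [integral_sub_right_eq_self (fun t : ℝ => Real.exp (-a * |t|)) c, h2]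

/-- (a) -/
theorem QI0_int : Integrable QI0 ∧ ∫ z, QI0 z ≤ 4 := by
  obtain ⟨h1, h2⟩ := qi_exp_abs (show (0:ℝ) < 1 by norm_num) 0
  have hp : Integrable (fun z : ℝ × ℝ => Real.exp (-1 * |z.1 - 0|) * Real.exp (-1 * |z.2 - 0|)) :=
    h1.mul_prod h1
  have hle : ∀ z : ℝ × ℝ, QI0 z ≤ Real.exp (-1 * |z.1 - 0|) * Real.exp (-1 * |z.2 - 0|) := by
    intro z
    rw [← Real.exp_add]
    apply Real.exp_le_exp.2
    have := abs_nonneg (z.1 - z.2)
    simp only [sub_zero]; linarith
  have hQ : Integrable QI0 := by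
    refine hp.mono' QI0_cont.aestronglyMeasurable (Filter.Eventually.of_forall fun z => ?_)
    rw [Real.norm_of_nonneg (show 0 ≤ QI0 z from Real.exp_nonneg _)]
    exact hle z
  refine ⟨hQ, ?_⟩
  calc ∫ z, QI0 z ≤ ∫ z : ℝ × ℝ, Real.exp (-1 * |z.1 - 0|) * Real.exp (-1 * |z.2 - 0|) :=
        integral_mono hQ hp hle
    _ = (∫ t : ℝ, Real.exp (-1 * |t - 0|)) * ∫ t : ℝ, Real.exp (-1 * |t - 0|) :=
        integral_prod_mul (fun t : ℝ => Real.exp (-1 * |t - 0|)) (fun t : ℝ => Real.exp (-1 * |t - 0|))
    _ = 4 := by rw [h2]; norm_num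

/-- the exponent, larger height first -/
theorem far_exponent {T u v d : ℝ} (hT : 0 ≤ T) (hv : 0 ≤ v) (huv : v ≤ u) (hu : T < u) (hd : u - v ≤ d) :
    -u - v - d / 2 + (27 / 20) * max (max (u - T) 0) (max (v - T) 0)
      + (1 / 2) * min (max (u - T) 0) (max (v - T) 0) ≤
    -(3 / 2) * T + (-(3 / 40) * |u - T| + -(3 / 40) * v) := by
  have h1 : max (u - T) 0 = u - T := max_eq_left (by linarith)
  have h2 : max (v - T) 0 ≤ u - T := max_le (by linarith) (by linarith)
  rw [h1, max_eq_left h2, min_eq_right h2, abs_of_pos (by linarith)]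
  rcases le_total v T with h | h
  · rw [max_eq_right (by linarith)]; linarith
  · rw [max_eq_left (by linarith)]; linarith

/-- product majorant of the far part -/
def Gm (T : ℝ) (t : ℝ) : ℝ := Real.exp (-(3 / 40) * |t - T|) + Real.exp (-(3 / 40) * |t - (-T)|)

theorem Gm_ge {T t : ℝ} (_hT : 0 ≤ T) : Real.exp (-(3 / 40) * |(|t|) - T|) ≤ Gm T t := by
  unfold Gm
  rcases le_total 0 t with h | h
  · rw [abs_of_nonneg h]
    have := Real.exp_nonneg (-(3 / 40) * |t - (-T)|)
    linarith
  · rw [abs_of_nonpos h]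
    have := Real.exp_nonneg (-(3 / 40) * |t - T|)
    have e : |(-t) - T| = |t - (-T)| := by
      rw [show -t - T = -(t - (-T)) by ring, abs_neg]
    rw [e]; linarith

theorem Gm_int (T : ℝ) : Integrable (Gm T) ∧ ∫ t, Gm T t = 160 / 3 := by
  obtain ⟨h1, h2⟩ := qi_exp_abs (show (0:ℝ) < 3 / 40 by norm_num) T
  obtain ⟨h3, h4⟩ := qi_exp_abs (show (0:ℝ) < 3 / 40 by norm_num) (-T)
  have e : (Gm T) = fun t => Real.exp (-(3 / 40) * |t - T|) + Real.exp (-(3 / 40) * |t - (-T)|) := rfl
  rw [e]
  refine ⟨h1.add h3, ?_⟩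
  rw [integral_add h1 h3, h2, h4]; norm_num

theorem QI_le_majorant {T : ℝ} (hT : 0 ≤ T) {z : ℝ × ℝ} (hz : z ∈ FarS T) :
    QI T z ≤ Real.exp (-(3 / 2) * T) * (Gm T z.1 * Real.exp (-(3 / 40) * |z.2 - 0|)
      + Real.exp (-(3 / 40) * |z.1 - 0|) * Gm T z.2) := by
  have hg : ∀ t, 0 ≤ Gm T t := fun t => by unfold Gm; positivity
  have e0 : 0 ≤ Real.exp (-(3 / 2) * T) := Real.exp_nonneg _
  rcases le_total (|z.2|) (|z.1|) with h | h
  · have hu : T < |z.1| := by
      rcases hz with hz | hz
      · exact hz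
      · exact lt_of_lt_of_le hz h
    have hd : |z.1| - |z.2| ≤ |z.1 - z.2| := abs_sub_abs_le_abs_sub _ _
    have key := far_exponent hT (abs_nonneg z.2) h hu hd
    have : QI T z ≤ Real.exp (-(3 / 2) * T) * (Real.exp (-(3 / 40) * |(|z.1|) - T|)
        * Real.exp (-(3 / 40) * |z.2|)) := by
      rw [← Real.exp_add, ← Real.exp_add]
      exact Real.exp_le_exp.2 key
    refine this.trans ?_
    apply mul_le_mul_of_nonneg_left _ e0
    have h1 := mul_le_mul_of_nonneg_right (Gm_ge (t := z.1) hT) (Real.exp_nonneg (-(3 / 40) * |z.2|))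
    have h2 : 0 ≤ Real.exp (-(3 / 40) * |z.1 - 0|) * Gm T z.2 := mul_nonneg (Real.exp_nonneg _) (hg _)
    rw [sub_zero z.2]; linarith
  · have hu : T < |z.2| := by
      rcases hz with hz | hz
      · exact lt_of_lt_of_le hz h
      · exact hz
    have hd : |z.2| - |z.1| ≤ |z.1 - z.2| := by
      rw [abs_sub_comm]; exact abs_sub_abs_le_abs_sub _ _
    have key := far_exponent hT (abs_nonneg z.1) h hu hd
    have : QI T z ≤ Real.exp (-(3 / 2) * T) * (Real.exp (-(3 / 40) * |z.1|)
        * Real.exp (-(3 / 40) * |(|z.2|) - T|)) := by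
      rw [← Real.exp_add, ← Real.exp_add]
      apply Real.exp_le_exp.2
      unfold xs
      rw [max_comm (max (|z.1| - T) 0), min_comm (max (|z.1| - T) 0)]
      linarith [key]
    refine this.trans ?_
    apply mul_le_mul_of_nonneg_left _ e0
    have h1 := mul_le_mul_of_nonneg_left (Gm_ge (t := z.2) hT) (Real.exp_nonneg (-(3 / 40) * |z.1|))
    have h2 : 0 ≤ Gm T z.1 * Real.exp (-(3 / 40) * |z.2 - 0|) := mul_nonneg (hg _) (Real.exp_nonneg _)
    rw [sub_zero z.1]; linarith

/-- (b) -/
theorem QI_far {T : ℝ} (hT : 0 ≤ T) :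
    IntegrableOn (QI T) (FarS T) ∧ ∫ z in FarS T, QI T z ≤ 3000 * Real.exp (-(3 / 2) * T) := by
  obtain ⟨g1, g2⟩ := Gm_int T
  obtain ⟨b1, b2⟩ := qi_exp_abs (show (0:ℝ) < 3 / 40 by norm_num) 0
  have p1 : Integrable (fun z : ℝ × ℝ => Gm T z.1 * Real.exp (-(3 / 40) * |z.2 - 0|)) := g1.mul_prod b1
  have p2 : Integrable (fun z : ℝ × ℝ => Real.exp (-(3 / 40) * |z.1 - 0|) * Gm T z.2) := b1.mul_prod g1
  have hp : Integrable (fun z : ℝ × ℝ => Real.exp (-(3 / 2) * T) *
      (Gm T z.1 * Real.exp (-(3 / 40) * |z.2 - 0|) + Real.exp (-(3 / 40) * |z.1 - 0|) * Gm T z.2)) :=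
    (p1.add p2).const_mul _
  have hnn : ∀ z : ℝ × ℝ, 0 ≤ Real.exp (-(3 / 2) * T) *
      (Gm T z.1 * Real.exp (-(3 / 40) * |z.2 - 0|) + Real.exp (-(3 / 40) * |z.1 - 0|) * Gm T z.2) := by
    intro z; unfold Gm; positivity
  have hQ : IntegrableOn (QI T) (FarS T) := by
    refine Integrable.mono' hp.integrableOn (QI_cont T).aestronglyMeasurable ?_
    refine (ae_restrict_iff' (measurableSet_FarS T)).2 (Filter.Eventually.of_forall fun z hz => ?_)
    rw [Real.norm_of_nonneg (show 0 ≤ QI T z from Real.exp_nonneg _)]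
    exact QI_le_majorant hT hz
  refine ⟨hQ, ?_⟩
  calc ∫ z in FarS T, QI T z
      ≤ ∫ z in FarS T, Real.exp (-(3 / 2) * T) *
      (Gm T z.1 * Real.exp (-(3 / 40) * |z.2 - 0|) + Real.exp (-(3 / 40) * |z.1 - 0|) * Gm T z.2) :=
        setIntegral_mono_on hQ hp.integrableOn (measurableSet_FarS T) fun z hz => QI_le_majorant hT hz
    _ ≤ ∫ z : ℝ × ℝ, Real.exp (-(3 / 2) * T) *
      (Gm T z.1 * Real.exp (-(3 / 40) * |z.2 - 0|) + Real.exp (-(3 / 40) * |z.1 - 0|) * Gm T z.2) :=
        setIntegral_le_integral hp (Filter.Eventually.of_forall hnn)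
    _ = Real.exp (-(3 / 2) * T) * ((160 / 3) * (2 / (3 / 40)) + (2 / (3 / 40)) * (160 / 3)) := by
        rw [integral_const_mul]
        congr 1
        rw [integral_add p1 p2]
        congr 1
        · rw [← g2, ← b2]
          exact integral_prod_mul (Gm T) (fun t : ℝ => Real.exp (-(3 / 40) * |t - 0|))
        · rw [← g2, ← b2]
          exact integral_prod_mul (fun t : ℝ => Real.exp (-(3 / 40) * |t - 0|)) (Gm T)
    _ ≤ 3000 * Real.exp (-(3 / 2) * T) := by
        rw [mul_comm]
        apply mul_le_mul_of_nonneg_right _ (Real.exp_nonneg _)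
        norm_num

theorem QI_eq_near {T : ℝ} {z : ℝ × ℝ} (hz : z ∉ FarS T) : QI T z = QI0 z := by
  have hz1 : ¬ (T < |z.1| ∨ T < |z.2|) := hz
  simp only [not_or, not_lt] at hz1
  unfold QI QI0 xs
  rw [max_eq_right (show |z.1| - T ≤ 0 by linarith [hz1.1]),
    max_eq_right (show |z.2| - T ≤ 0 by linarith [hz1.2])]
  simp

/-- the whole plane -/
theorem QI_all {T : ℝ} (hT : 0 ≤ T) : Integrable (QI T) ∧ ∫ z, QI T z ≤ 3004 := by
  obtain ⟨f1, f2⟩ := QI_far hT
  obtain ⟨n1, n2⟩ := QI0_int
  have hn : IntegrableOn (QI T) (FarS T)ᶜ :=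
    n1.integrableOn.congr_fun (fun z hz => (QI_eq_near hz).symm) (measurableSet_FarS T).compl
  have hI : Integrable (QI T) := by
    rw [← integrableOn_univ, ← union_compl_self (FarS T)]
    exact f1.union hn
  refine ⟨hI, ?_⟩
  rw [← integral_add_compl (measurableSet_FarS T) hI]
  have e1 : ∫ z in (FarS T)ᶜ, QI T z = ∫ z in (FarS T)ᶜ, QI0 z :=
    setIntegral_congr_fun (measurableSet_FarS T).compl fun z hz => QI_eq_near hz
  have e2 : ∫ z in (FarS T)ᶜ, QI0 z ≤ ∫ z, QI0 z :=
    setIntegral_le_integral n1 (Filter.Eventually.of_forall fun z => Real.exp_nonneg _)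
  have e3 : Real.exp (-(3 / 2) * T) ≤ 1 := by
    rw [Real.exp_le_one_iff]; linarith
  rw [e1]; nlinarith [f2, n2, e2, e3, Real.exp_nonneg (-(3 / 2) * T)]

/-- lintegral forms -/
theorem QI0_lint : ∫⁻ z, ENNReal.ofReal (QI0 z) ≤ 4 := by
  obtain ⟨n1, n2⟩ := QI0_int
  rw [← ofReal_integral_eq_lintegral_ofReal n1 (Filter.Eventually.of_forall fun z => Real.exp_nonneg _)]
  rw [show (4 : ENNReal) = ENNReal.ofReal 4 by norm_num]
  exact ENNReal.ofReal_le_ofReal n2

theorem QI_far_lint {T : ℝ} (hT : 0 ≤ T) :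
    ∫⁻ z in FarS T, ENNReal.ofReal (QI T z) ≤ ENNReal.ofReal (3000 * Real.exp (-(3 / 2) * T)) := by
  obtain ⟨f1, f2⟩ := QI_far hT
  rw [← ofReal_integral_eq_lintegral_ofReal f1 (Filter.Eventually.of_forall fun z => Real.exp_nonneg _)]
  exact ENNReal.ofReal_le_ofReal f2

theorem pin_abs_le {T t : ℝ} (hT : 0 ≤ T) : |pin T t| ≤ T := by
  unfold pin
  rw [abs_le]
  exact ⟨le_max_left _ _, max_le (by linarith) (min_le_right _ _)⟩

theorem pin_of_le {T t : ℝ} (h : |t| ≤ T) : pin T t = t := by
  rw [abs_le] at h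
  unfold pin
  rw [min_eq_left h.2, max_eq_right h.1]

theorem pin_cont (T : ℝ) : Continuous (pin T) := by
  unfold pin; fun_prop

/-- `|t| - |pin|` is the excess over `T'` -/
theorem abs_sub_pin {T t : ℝ} (hT : 0 ≤ T) : |t| - |pin T t| = xs T t := by
  unfold xs
  rcases le_total (|t|) T with h | h
  · rw [pin_of_le h, max_eq_right (by linarith)]; ring
  · rw [max_eq_left (by linarith)]
    have : |pin T t| = T := by
      unfold pin
      rcases le_total 0 t with h0 | h0
      · rw [abs_of_nonneg h0] at h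
        rw [min_eq_right h, max_eq_right (by linarith), abs_of_nonneg hT]
      · rw [abs_of_nonpos h0] at h
        rw [min_eq_left (by linarith), max_eq_left (by linarith), abs_neg, abs_of_nonneg hT]
    rw [this]

theorem pin_pair {T t t' : ℝ} (hT : 0 ≤ T) :
    |pin T t - pin T t'| / 2 - |t - t'| / 2 + (37 / 20) * max (xs T t) (xs T t') ≤
      (27 / 20) * max (xs T t) (xs T t') + (1 / 2) * min (xs T t) (xs T t') := by
  have hmm : max (xs T t) (xs T t') + min (xs T t) (xs T t') = xs T t + xs T t' := max_add_min _ _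
  suffices h : |pin T t - pin T t'| ≤ |t - t'| - |xs T t - xs T t'| by
    have h2 : max (xs T t) (xs T t') - min (xs T t) (xs T t') = |xs T t - xs T t'| :=
      max_sub_min_eq_abs' _ _
    linarith
  -- clip and excess split the distance
  have key : ∀ a b : ℝ, a ≤ b → |pin T b - pin T a| ≤ (b - a) - |xs T b - xs T a| := by
    intro a b hab
    unfold pin xs
    rcases le_total 0 a with ha | ha <;> rcases le_total 0 b with hb | hb
    · rw [abs_of_nonneg ha, abs_of_nonneg hb]
      rcases le_total a T with h1 | h1 <;> rcases le_total b T with h2 | h2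
      · rw [min_eq_left h2, min_eq_left h1, max_eq_right (by linarith), max_eq_right (by linarith),
          max_eq_right (show b - T ≤ 0 by linarith), max_eq_right (show a - T ≤ 0 by linarith),
          abs_of_nonneg (by linarith)]
        simp
      · rw [min_eq_right h2, min_eq_left h1, max_eq_right (by linarith), max_eq_right (by linarith),
          max_eq_left (show 0 ≤ b - T by linarith), max_eq_right (show a - T ≤ 0 by linarith),
          abs_of_nonneg (by linarith), abs_of_nonneg (by linarith)]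
        linarith
      · have : a = T := by linarith
        have : b = T := by linarith
        subst this; subst_vars; simp
      · rw [min_eq_right h2, min_eq_right h1, max_eq_left (show 0 ≤ b - T by linarith),
          max_eq_left (show 0 ≤ a - T by linarith), sub_self, abs_zero,
          abs_of_nonneg (show 0 ≤ b - T - (a - T) by linarith)]
        linarith
    · have : a = b := by linarith
      subst this; simp
    · rw [abs_of_nonpos ha, abs_of_nonneg hb]
      rcases le_total (-a) T with h1 | h1 <;> rcases le_total b T with h2 | h2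
      · rw [min_eq_left h2, min_eq_left (show a ≤ T by linarith), max_eq_right (by linarith),
          max_eq_right (by linarith),
          max_eq_right (show b - T ≤ 0 by linarith), max_eq_right (show -a - T ≤ 0 by linarith),
          abs_of_nonneg (by linarith)]
        simp
      · rw [min_eq_right h2, min_eq_left (show a ≤ T by linarith), max_eq_right (show -T ≤ T by linarith),
          max_eq_right (show -T ≤ a by linarith),
          max_eq_left (show 0 ≤ b - T by linarith), max_eq_right (show -a - T ≤ 0 by linarith),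
          abs_of_nonneg (by linarith), abs_of_nonneg (by linarith)]
        linarith
      · rw [min_eq_left h2, min_eq_left (show a ≤ T by linarith), max_eq_right (show -T ≤ b by linarith),
          max_eq_left (show a ≤ -T by linarith),
          max_eq_right (show b - T ≤ 0 by linarith), max_eq_left (show 0 ≤ -a - T by linarith),
          abs_of_nonneg (by linarith), abs_of_nonpos (by linarith)]
        linarith
      · rw [min_eq_right h2, min_eq_left (show a ≤ T by linarith), max_eq_right (show -T ≤ T by linarith),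
          max_eq_left (show a ≤ -T by linarith),
          max_eq_left (show 0 ≤ b - T by linarith), max_eq_left (show 0 ≤ -a - T by linarith),
          abs_of_nonneg (show 0 ≤ T - -T by linarith)]
        have : |b - T - (-a - T)| ≤ (b - T) + (-a - T) := by
          rw [abs_le]; constructor <;> linarith
        linarith
    · rw [abs_of_nonpos ha, abs_of_nonpos hb]
      rcases le_total (-a) T with h1 | h1 <;> rcases le_total (-b) T with h2 | h2
      · rw [min_eq_left (show b ≤ T by linarith), min_eq_left (show a ≤ T by linarith),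
          max_eq_right (show -T ≤ b by linarith), max_eq_right (show -T ≤ a by linarith),
          max_eq_right (show -b - T ≤ 0 by linarith), max_eq_right (show -a - T ≤ 0 by linarith),
          abs_of_nonneg (by linarith)]
        simp
      · have e1 : a = -T := by linarith
        have e2 : b = -T := by linarith
        subst e1; rw [e2]; simp
      · rw [min_eq_left (show b ≤ T by linarith), min_eq_left (show a ≤ T by linarith),
          max_eq_right (show -T ≤ b by linarith), max_eq_left (show a ≤ -T by linarith),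
          max_eq_right (show -b - T ≤ 0 by linarith), max_eq_left (show 0 ≤ -a - T by linarith),
          abs_of_nonneg (show 0 ≤ b - -T by linarith), abs_of_nonpos (show 0 - (-a - T) ≤ 0 by linarith)]
        linarith
      · rw [min_eq_left (show b ≤ T by linarith), min_eq_left (show a ≤ T by linarith),
          max_eq_left (show b ≤ -T by linarith), max_eq_left (show a ≤ -T by linarith),
          max_eq_left (show 0 ≤ -b - T by linarith), max_eq_left (show 0 ≤ -a - T by linarith),
          sub_self, abs_zero, abs_of_nonpos (show -b - T - (-a - T) ≤ 0 by linarith)]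
        linarith
  rcases le_total t t' with h | h
  · have := key t t' h
    rw [abs_sub_comm (pin T t), abs_of_nonpos (show t - t' ≤ 0 by linarith), abs_sub_comm (xs T t)]
    linarith
  · have := key t' t h
    rw [abs_of_nonneg (show 0 ≤ t - t' by linarith)]
    linarith

theorem xs_anti {T T' t : ℝ} (h : T ≤ T') : xs T' t ≤ xs T t := by
  unfold xs; exact max_le_max (by linarith) le_rfl

/-- (c) -/
theorem pin_ineq {T T' t t' : ℝ} (hT : 0 ≤ T) (h : T ≤ T') :
    |pin T' t - pin T' t'| / 2 - |t - t'| / 2 +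
        (37 / 20) * max (|t| - |pin T' t|) (|t'| - |pin T' t'|) ≤
      (27 / 20) * max (xs T t) (xs T t') + (1 / 2) * min (xs T t) (xs T t') := by
  have hT' : 0 ≤ T' := hT.trans h
  rw [abs_sub_pin hT', abs_sub_pin hT']
  have h1 := pin_pair (t := t) (t' := t') hT'
  have h2 : max (xs T' t) (xs T' t') ≤ max (xs T t) (xs T t') := max_le_max (xs_anti h) (xs_anti h)
  have h3 : min (xs T' t) (xs T' t') ≤ min (xs T t) (xs T t') := min_le_min (xs_anti h) (xs_anti h)
  linarith

/-- (c) in the exponential form: the factor `Q` of 82F section 2 is at most `QI` -/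
theorem Q_le_QI {T T' t t' : ℝ} (hT : 0 ≤ T) (h : T ≤ T') :
    Real.exp (-|t| - |t'| - |t - t'| + |pin T' t - pin T' t'| / 2 +
        (37 / 20) * max (|t| - |pin T' t|) (|t'| - |pin T' t'|)) ≤ QI T (t, t') := by
  unfold QI
  apply Real.exp_le_exp.2
  have := pin_ineq (t := t) (t' := t') hT h
  simp only
  linarith

end

end NUGC
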