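import Pool.Agent.NUGC.DefC

/-!
# Modulus of the factor of the ends

`E2 = R_pair ^ (1 / 2) * Theta`, `ThN u = |Theta u|`: with `M` pairs of rows at `± l / 2` and the ends the
row factor is `2 cos l * prN u ^ (M + 1 / 2) * ThN u`.
-/

set_option autoImplicit false

noncomputable section

namespace NUGC

open NUO NUP1

/-- modulus of the factor of the ends: `|E2| = prN ^ (1 / 2) ThN` -/
def ThN (u : ℂ) : ℝ :=
  ((‖Complex.sin (u - l / 2)‖ * ‖Complex.sin (u + l / 2)‖) /
    (‖Complex.sin (u - 5 * l / 2)‖ * ‖Complex.sin (u - 3 * l / 2)‖)) ^ (1 / 2 : ℝ)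

theorem ThN_nonneg (u : ℂ) : 0 ≤ ThN u := Real.rpow_nonneg (by positivity) _

/-- the one body data with the ends -/
def obE (M : ℕ) (β : ℝ) (g : Bool → ℂ → ℝ) : OB := obC (M + 1 / 2) M β fun a u => ThN u * g a u

end NUGC

end
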