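import Pool.Agent.NUSp.Axis
import Pool.Agent.NUSp.Tot
import Pool.Agent.NUGC.ThN

/-!
# Exactness of the potentials of the spectators on a curve

* `exp_ekp`: an elementary spectator; `gp_kG`: the potential of a group as a sum over `kG`;
* `exp_grp`: **the modulus of the factor of a group on the quanta of the curve is `exp Re gp`**;
* `ThN_eq`: the ends; `ex_DD`: ends and a family of groups.
-/

set_option autoImplicit false

noncomputable section

open Complex Finset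

namespace NUGC

open NUO (Away pA)
open NUSp (Cl kG spo wG ekp ew gp grp DD th)

/-- **an elementary spectator on the strip** -/
theorem exp_ekp (s a : Bool) (k : Ek) (τ : ℝ) {ζ : ℂ} (hζ : |ζ.im| < 1 / 4 * NUMF.l) :
    Real.exp (ekp s a k (ew k τ) ζ).re = Ek.f a k τ s (NUMF.l + I * ζ) := by
  have hA := NUSp.ew_away k τ
  have hH := NUSp.exp_hp s (h := (a, ew k τ)) hA hζ
  have hQ := NUO.exp_cp s (x := (a, false, ew k τ)) hA hζ
  have hS := NUO.exp_cp s (x := (a, true, ew k τ)) hA hζ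
  obtain ⟨u, hu⟩ : ∃ u : ℂ, u = NUMF.l + I * ζ := ⟨_, rfl⟩
  have hsin : ∀ k' : ℤ, sin (u - ew k τ + k' * NUMF.l) ≠ 0 := by
    intro k'
    have := NUO.sin_pos' hA k' hζ
    rw [← hu] at this
    exact norm_pos_iff.1 this
  rw [← hu] at hH hQ hS ⊢
  have e1 : ‖NUSp.hqp (s, false, u) (a, ew k τ)‖ = hq a (ew k τ) s u := by
    unfold NUSp.hqp hq
    simp only [Bool.false_eq_true, if_false]
    split_ifs <;> rfl
  have e2 : ‖NUO.pp (s, false, u) (a, false, ew k τ)‖ = sq a (ew k τ) s u := by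
    unfold NUO.pp sq
    simp only [NUP1.Kn.pz, NUP1.Kn.cz]
    split_ifs
    · rw [← NUP1.q_neg, neg_sub]
    · rw [← NUP1.Bd.qg_neg, neg_sub]
  have e3 : ‖NUO.pp (s, false, u) (a, true, ew k τ)‖ =
      sq a (ew k τ) s u * sq a (ew k τ - NUP1.l) s u := by
    have n0 := hsin 0
    have n1 := hsin 1
    have n2 := hsin (-1)
    have n3 := hsin 2
    have ll : (NUMF.l : ℂ) = (NUP1.l : ℂ) := rfl
    have c1 : u - ew k τ + ((0 : ℤ) : ℂ) * NUMF.l = u - ew k τ := by push_cast; ring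
    have c2 : u - ew k τ + ((1 : ℤ) : ℂ) * NUMF.l = u - ew k τ + NUP1.l := by
      rw [ll]; push_cast; ring
    have c3 : u - ew k τ + ((-1 : ℤ) : ℂ) * NUMF.l = u - ew k τ - NUP1.l := by
      rw [ll]; push_cast; ring
    have c4 : u - ew k τ + ((2 : ℤ) : ℂ) * NUMF.l = u - ew k τ + 2 * NUP1.l := by
      rw [ll]; push_cast; ring
    rw [c1] at n0
    rw [c2] at n1
    rw [c3] at n2
    rw [c4] at n3
    have hq1 := NUP1.q1_eq n0 n1 n2 n3
    have d : ew k τ - NUP1.l - u = -(u - ew k τ + NUP1.l) := by ring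
    have d0 : ew k τ - u = -(u - ew k τ) := by ring
    unfold NUO.pp sq
    simp only [NUP1.Kn.pz, NUP1.Kn.cz]
    split_ifs
    · rw [← hq1, norm_mul, d, d0, NUP1.q_neg, NUP1.q_neg]
    · rw [norm_mul, d, d0, NUP1.Bd.qg_neg, NUP1.Bd.qg_neg]
  have e4 : ew k τ - NUP1.l = NUP1.vl ((k.ps - 1) * NUP1.l) τ := by
    unfold NUSp.ew NUP1.vl
    push_cast
    ring
  rw [e1] at hH
  rw [e2] at hQ
  rw [e3, e4] at hS
  cases k
  · exact hH
  · exact hH
  · exact hH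
  · exact hH
  · exact hQ
  · exact hQ
  · exact hS

/-- **the potential of a group is the sum of the elementary spectators** -/
theorem gp_kG (c : Cl) (rt σ : Bool) (τ : ℝ) (a : Bool) (ζ : ℂ) :
    gp a (grp c σ (wG c rt τ)) ζ =
      ((kG c rt).map fun x => ekp a (spo σ x.1) x.2 (ew x.2 τ) ζ).sum := by
  have e3 : ∀ x : ℝ, NUP1.vl (x * NUP1.l) τ + 3 * NUMF.l = NUP1.vl ((x + 3) * NUP1.l) τ := by
    intro x
    have := NUSp.vl_shift x 3 τ
    push_cast at this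
    exact this
  have e2 : ∀ x : ℝ, NUP1.vl (x * NUP1.l) τ - 2 * NUMF.l = NUP1.vl ((x + -2) * NUP1.l) τ := by
    intro x
    have := NUSp.vl_shift x (-2) τ
    push_cast at this
    rw [← this]
    ring
  unfold NUSp.gp NUSp.wG
  cases c <;> cases rt <;>
    simp only [NUSp.kG, NUSp.grp, NUSp.psG, List.map_cons, List.map_nil, List.sum_cons,
      List.sum_nil, add_zero, NUSp.spo, if_true, Bool.false_eq_true, if_false, e2, e3,
      NUSp.ekp, NUSp.ew, Ek.ps, Ek.x]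
  all_goals norm_num

/-- **the modulus of the factor of a group** -/
theorem exp_grp (c : Cl) (rt σ : Bool) (τ : ℝ) (a : Bool) {ζ : ℂ} (hζ : |ζ.im| < 1 / 4 * NUMF.l) :
    Real.exp (gp a (grp c σ (wG c rt τ)) ζ).re =
      ((kG c rt).map fun x => Ek.f (spo σ x.1) x.2 τ a (NUMF.l + I * ζ)).prod := by
  rw [gp_kG]
  induction kG c rt with
  | nil => simp
  | cons x L ih =>
    rw [List.map_cons, List.sum_cons, List.map_cons, List.prod_cons, Complex.add_re, Real.exp_add,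
      ih, exp_ekp a (spo σ x.1) x.2 τ hζ]

/-- **the ends** -/
theorem ThN_eq {ζ : ℂ} (hζ : |ζ.im| < 1 / 4 * NUMF.l) :
    ThN (NUMF.l + I * ζ) =
      Real.exp (th ((-(NUMF.l / 2) : ℝ) : ℂ) ((NUMF.l / 2 : ℝ) : ℂ) ζ).re := by
  have hl := NUO.ll_pos
  have ap : Away (1 / 4) ((-(NUMF.l / 2) : ℝ) : ℂ) :=
    NUO.away_of (x := -(1 / 2)) (by rw [Complex.ofReal_re]; ring) (-1) (by norm_num) (by norm_num)
  have aq : Away (1 / 4) ((NUMF.l / 2 : ℝ) : ℂ) :=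
    NUO.away_of (x := 1 / 2) (by rw [Complex.ofReal_re]; ring) 0 (by norm_num) (by norm_num)
  have h1 := NUSp.exp_th ap aq hζ
  obtain ⟨u, hu⟩ : ∃ u : ℂ, u = NUMF.l + I * ζ := ⟨_, rfl⟩
  rw [← hu] at h1 ⊢
  have ll : (NUMF.l : ℂ) = (NUP1.l : ℂ) := rfl
  have c1 : u - ((-(NUMF.l / 2) : ℝ) : ℂ) = u + NUP1.l / 2 := by rw [← ll]; push_cast; ring
  have c2 : u - ((NUMF.l / 2 : ℝ) : ℂ) = u - NUP1.l / 2 := by rw [← ll]; push_cast; ring
  have c3 : u + NUP1.l / 2 - 2 * NUP1.l = u - 3 * NUP1.l / 2 := by ring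
  have c4 : u - NUP1.l / 2 - 2 * NUP1.l = u - 5 * NUP1.l / 2 := by ring
  rw [c1, c2, c3, c4] at h1
  have h2 : Real.exp (2 * (th ((-(NUMF.l / 2) : ℝ) : ℂ) ((NUMF.l / 2 : ℝ) : ℂ) ζ).re) ^ (1 / 2 : ℝ) =
      Real.exp (th ((-(NUMF.l / 2) : ℝ) : ℂ) ((NUMF.l / 2 : ℝ) : ℂ) ζ).re := by
    rw [← Real.exp_mul]
    congr 1
    ring
  rw [← h2, h1]
  unfold ThN
  rw [mul_comm ‖sin (u - (NUP1.l : ℂ) / 2)‖, mul_comm ‖sin (u - 5 * (NUP1.l : ℂ) / 2)‖]

/-- **ends and a family of groups**: class, line, species, height -/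
theorem ex_DD {n : ℕ} (c : Fin n → Cl) (rt σ : Fin n → Bool) (τ : Fin n → ℝ) (a : Bool) {ζ : ℂ}
    (hζ : |ζ.im| < 1 / 4 * NUMF.l) :
    ThN (NUMF.l + I * ζ) * ∏ i, ((kG (c i) (rt i)).map fun x =>
      Ek.f (spo (σ i) x.1) x.2 (τ i) a (NUMF.l + I * ζ)).prod =
    Real.exp (DD ((-(NUMF.l / 2) : ℝ) : ℂ) ((NUMF.l / 2 : ℝ) : ℂ)
      (List.ofFn fun i => grp (c i) (σ i) (wG (c i) (rt i) (τ i))) a ζ).re := by
  unfold NUSp.DD
  rw [List.map_ofFn, List.sum_ofFn, Complex.add_re, Complex.re_sum, Real.exp_add, Real.exp_sum,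
    ThN_eq hζ]
  congr 1
  refine Finset.prod_congr rfl fun i _ => ?_
  rw [← exp_grp (c i) (rt i) (σ i) (τ i) a hζ]
  rfl

/-- on the curve -/
theorem ex_DD_pA {n : ℕ} (c : Fin n → Cl) (rt σ : Fin n → Bool) (τ : Fin n → ℝ) (a : Bool)
    {η : ℝ → ℝ} {t : ℝ} (hη : |η t| < 1 / 4 * NUMF.l) :
    ThN (pA η t) * ∏ i, ((kG (c i) (rt i)).map fun x =>
      Ek.f (spo (σ i) x.1) x.2 (τ i) a (pA η t)).prod =
    Real.exp (DD ((-(NUMF.l / 2) : ℝ) : ℂ) ((NUMF.l / 2 : ℝ) : ℂ)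
      (List.ofFn fun i => grp (c i) (σ i) (wG (c i) (rt i) (τ i))) a
        ((t : ℂ) + (η t : ℂ) * I)).re := by
  have h : pA η t = NUMF.l + I * ((t : ℂ) + (η t : ℂ) * I) := NUO.vl_eq η t
  rw [h]
  exact ex_DD c rt σ τ a (by simpa using hη)

end NUGC

end
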