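import Pool.Agent.NUGC.DrC
import Pool.Agent.NUP1L.LegDefs

/-!
# NUGC/DrT (helper3): dressed pairs of spectators and objects (board/GAM, G3)

* `Gw f N`: `f t = N |t| + O(1)`; sines, `h(t, θ)`, `lam`, `Lam`, closure.
* `hl`: the sines of a half quantum against a constituent, `z` = spectator minus constituent;
  `PZ_Ck`, `PZ_Dk`, `PZ_CkCk`, `PZ_DkDk`.  For a single (a quantum) the lists are `Ls σ false ty`.
* `DrS ls jL e p σ κ t`: direct energy (logarithm of the factor, cores of scale `2 ^ 8` removed) of a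
  spectator at real part `p l` and an object of kind `κ` in reference position, `σ` = same species,
  `t` = difference of the heights.
* `half_obj`, `single_obj`: `|DrS + ERc| ≤ C` for every position `p`, every kind, both species.
* `dressed_G`: general form.  `ERc_comm`, `ERc_swap`.
-/

set_option autoImplicit false

open MeasureTheory Set NUC37 NUC43 NUDispO NUO
open Pool.Agent.NUM3

namespace NUGC

noncomputable section

/-! ### linear growth -/

/-- `f t = N |t| + O(1)` -/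
def Gw (f : ℝ → ℝ) (N : ℝ) : Prop := ∃ C : ℝ, 0 ≤ C ∧ ∀ t, |f t - N * (|t|)| ≤ C

theorem Gw.of_CF {f m : ℝ → ℝ} {N : ℝ} (h : CF f N m) : Gw f N := CF_lin h

theorem Gw.congr {f g : ℝ → ℝ} {N N' : ℝ} (h : Gw f N) (hf : ∀ t, g t = f t) (hN : N' = N) :
    Gw g N' := by
  obtain ⟨C, h0, hC⟩ := h
  exact ⟨C, h0, fun t => by rw [hf, hN]; exact hC t⟩

theorem Gw.const (c : ℝ) : Gw (fun _ => c) 0 :=
  ⟨|c|, abs_nonneg c, fun t => by rw [zero_mul, sub_zero]⟩

theorem Gw.add {f g : ℝ → ℝ} {N N' : ℝ} (h : Gw f N) (h' : Gw g N') :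
    Gw (fun t => f t + g t) (N + N') := by
  obtain ⟨C, h0, hC⟩ := h
  obtain ⟨C', h0', hC'⟩ := h'
  refine ⟨C + C', by positivity, fun t => ?_⟩
  have e : f t + g t - (N + N') * (|t|) = (f t - N * (|t|)) + (g t - N' * (|t|)) := by ring
  rw [e]
  exact (abs_add_le _ _).trans (add_le_add (hC t) (hC' t))

theorem Gw.smul {f : ℝ → ℝ} {N : ℝ} (c : ℝ) (h : Gw f N) : Gw (fun t => c * f t) (c * N) := by
  obtain ⟨C, h0, hC⟩ := h
  refine ⟨|c| * C, by positivity, fun t => ?_⟩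
  have e : c * f t - c * N * (|t|) = c * (f t - N * (|t|)) := by ring
  rw [e, abs_mul]
  exact mul_le_mul_of_nonneg_left (hC t) (abs_nonneg c)

theorem Gw.neg {f : ℝ → ℝ} {N : ℝ} (h : Gw f N) : Gw (fun t => -f t) (-N) :=
  (h.smul (-1)).congr (fun t => by ring) (by ring)

theorem Gw.sub {f g : ℝ → ℝ} {N N' : ℝ} (h : Gw f N) (h' : Gw g N') :
    Gw (fun t => f t - g t) (N - N') :=
  (h.add h'.neg).congr (fun t => by ring) (by ring)

theorem Gw.list {α : Type*} (L : List α) {f : α → ℝ → ℝ} {N : α → ℝ}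
    (h : ∀ a ∈ L, Gw (f a) (N a)) : Gw (fun t => (L.map fun a => f a t).sum) (L.map N).sum := by
  induction L with
  | nil => simpa using Gw.const 0
  | cons a L ih =>
    have h1 := h a List.mem_cons_self
    have h2 := ih fun b hb => h b (List.mem_cons_of_mem _ hb)
    exact (h1.add h2).congr (fun t => by simp) (by simp)

theorem Gw.finset {α : Type*} (s : Finset α) {f : α → ℝ → ℝ} {N : α → ℝ}
    (h : ∀ a ∈ s, Gw (f a) (N a)) : Gw (fun t => ∑ a ∈ s, f a t) (∑ a ∈ s, N a) := by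
  classical
  induction s using Finset.induction_on with
  | empty => simpa using Gw.const 0
  | insert a s ha ih =>
    have h1 := h a (Finset.mem_insert_self a s)
    have h2 := ih fun b hb => h b (Finset.mem_insert_of_mem hb)
    exact (h1.add h2).congr (fun t => by rw [Finset.sum_insert ha]) (by rw [Finset.sum_insert ha])

/-- bounded functions -/
theorem Gw.of_bdd {f : ℝ → ℝ} {C : ℝ} (h : ∀ t, |f t| ≤ C) : Gw f 0 :=
  ⟨C, (abs_nonneg _).trans (h 0), fun t => by rw [zero_mul, sub_zero]; exact h t⟩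

theorem Gw.bdd {f : ℝ → ℝ} (h : Gw f 0) : ∃ C : ℝ, 0 ≤ C ∧ ∀ t, |f t| ≤ C := by
  obtain ⟨C, h0, hC⟩ := h
  exact ⟨C, h0, fun t => by have := hC t; rwa [zero_mul, sub_zero] at this⟩

/-- a nonvanishing sine -/
theorem Gw_sin {θ : ℝ} (hθ : Real.sin θ ≠ 0) :
    Gw (fun t => Real.log ‖Complex.sin (θ + t * Complex.I)‖) 1 := by
  have ha := abs_pos.2 hθ
  refine ⟨Real.log 2 - Real.log |Real.sin θ|, ?_, fun t => ?_⟩
  · have h1 : Real.log |Real.sin θ| ≤ 0 := Real.log_nonpos ha.le (Real.abs_sin_le_one θ)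
    have h2 := Real.log_nonneg (one_le_two (α := ℝ))
    linarith
  · have h1 := NUP1.Bd.le_norm_sin (θ + t * Complex.I)
    have h2 := NUP1.Bd.norm_sin_le_exp (θ + t * Complex.I)
    have e1 : ((θ : ℂ) + t * Complex.I).re = θ := by simp
    have e2 : ((θ : ℂ) + t * Complex.I).im = t := by simp
    rw [e1, e2] at h1
    rw [e2] at h2
    have hc := Real.cosh_pos t
    have hp : 0 < ‖Complex.sin (θ + t * Complex.I)‖ := lt_of_lt_of_le (by positivity) h1
    have h3 : Real.log ‖Complex.sin (θ + t * Complex.I)‖ ≤ |t| := by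
      rw [Real.log_le_iff_le_exp hp]
      exact h2
    have h4 : Real.log |Real.sin θ| + Real.log (Real.cosh t) ≤
        Real.log ‖Complex.sin (θ + t * Complex.I)‖ := by
      rw [← Real.log_mul ha.ne' hc.ne']
      exact Real.log_le_log (by positivity) h1
    have h5 := log_cosh_ge t
    have h6 : Real.log |Real.sin θ| ≤ 0 := Real.log_nonpos ha.le (Real.abs_sin_le_one θ)
    have h7 := Real.log_nonneg (one_le_two (α := ℝ))
    rw [abs_le]
    constructor <;> linarith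

/-- `h(t, θ)`, `cos θ ≠ 0` -/
theorem Gw_h {θ : ℝ} (hθ : Real.cos θ ≠ 0) : Gw (fun t => NUMF.h t θ) 2 := by
  have h1 : Real.sin (Real.pi / 2 - θ) ≠ 0 := by rwa [Real.sin_pi_div_two_sub]
  refine (((Gw_sin h1).smul 2).add (Gw.const (Real.log 2))).congr (fun t => ?_) (by ring)
  have h2 := norm_sin_sq (Real.pi / 2 - θ) t
  rw [show 2 * (Real.pi / 2 - θ) = Real.pi - 2 * θ by ring, Real.cos_pi_sub] at h2
  have hc : Real.cos (2 * θ) > -1 := by
    have a1 := Real.cos_two_mul θ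
    have a2 : 0 < Real.cos θ ^ 2 := by positivity
    nlinarith
  have hpos : 0 < Real.cosh (2 * t) + Real.cos (2 * θ) := by
    have := Real.one_le_cosh (2 * t)
    linarith
  have h3 : Real.log (‖Complex.sin (((Real.pi / 2 - θ : ℝ) : ℂ) + t * Complex.I)‖ ^ 2) =
      Real.log (Real.cosh (2 * t) + Real.cos (2 * θ)) - Real.log 2 := by
    rw [h2, Real.log_div (by linarith) two_ne_zero]
    congr 2
    ring
  rw [Real.log_pow] at h3
  push_cast at h3 ⊢
  unfold NUMF.h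
  linarith

/-- a sine, core removed -/
theorem Gw_lam (x : ℝ) : Gw (fun t => lam 8 x t) 1 := by
  by_cases h : Real.sin x = 0
  · exact (Gw.of_CF (CF_GC 8)).congr (fun t => by rw [lam_core h, GK_real]) rfl
  · exact (Gw_sin h).congr (fun t => lam_reg h) rfl

theorem Gw_Lam (L : List (ℤ × ℤ)) (x : ℝ) : Gw (fun t => Lam 8 L x t) (Na L) := by
  refine (Gw.list L fun p _ => (Gw_lam ((x + p.1) * NUP1.l)).smul (p.2 : ℝ)).congr (fun t => rfl) ?_
  unfold Na
  rw [sum_cast]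
  simp

/-! ### dressed pairs -/

variable {α α' q q' : ℝ} {a b A B a' b' A' B' : ℝ → ℝ} {F G F' G' : ℂ → ℂ}

/-- the response energy has the growth `-2 σ q q'` -/
theorem ERc_Gw (h : Chg α q a b A B F G) (h' : Chg α' q' a' b' A' B' F' G') (σ : Bool) :
    ∃ f : ℝ → ℝ, (∀ x y, ERc σ F G F' G' x y = f (x - y)) ∧ Gw f (-(2 * (sgn σ * (q * q')))) := by
  obtain ⟨f, m, e, c⟩ := ERc_CF h h' σ
  exact ⟨f, e, Gw.of_CF c⟩

/-- **dressed pair** -/
theorem dressed_G (h : Chg α q a b A B F G) (h' : Chg α' q' a' b' A' B' F' G') (σ : Bool)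
    {f : ℝ → ℝ} {N : ℝ} (hf : Gw f N) :
    ∃ C : ℝ, 0 ≤ C ∧ ∀ x y, |f (x - y) + ERc σ F G F' G' x y -
      (N - 2 * (sgn σ * (q * q'))) * (|x - y|)| ≤ C := by
  obtain ⟨f', e, c⟩ := ERc_Gw h h' σ
  obtain ⟨C, hC0, hC⟩ := (hf.add c).congr (fun _ => rfl)
    (show N - 2 * (sgn σ * (q * q')) = N + -(2 * (sgn σ * (q * q'))) by ring)
  exact ⟨C, hC0, fun x y => by rw [e]; exact hC (x - y)⟩

/-- **dressed pair**, neutral growth -/
theorem dressed_0 (h : Chg α q a b A B F G) (h' : Chg α' q' a' b' A' B' F' G') (σ : Bool)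
    {f : ℝ → ℝ} {N : ℝ} (hf : Gw f N) (hN : N = 2 * (sgn σ * (q * q'))) :
    ∃ C : ℝ, 0 ≤ C ∧ ∀ x y, |f (x - y) + ERc σ F G F' G' x y| ≤ C := by
  obtain ⟨C, hC0, hC⟩ := dressed_G h h' σ hf
  refine ⟨C, hC0, fun x y => ?_⟩
  have := hC x y
  rwa [hN, sub_self, zero_mul, sub_zero] at this

/-! ### symmetry of the response energies -/

theorem EV_symm {f₁ f₂ m₁ m₂ : ℝ → ℝ} (h₁ : CT f₁ m₁) (h₂ : CT f₂ m₂) (c₁ : Continuous f₁)
    (c₂ : Continuous f₂) {C₁ C₂ : ℝ} (b₁ : ∀ t, |f₁ t| ≤ C₁) (b₂ : ∀ t, |f₂ t| ≤ C₂)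
    (i₁ : IntegrableOn m₁ (Ioi 0)) (i₂ : IntegrableOn m₂ (Ioi 0)) (x y : ℝ) :
    EV f₁ f₂ x y = EV f₂ f₁ x y ∧ EV f₁ f₂ x y = EV f₁ f₂ y x := by
  obtain ⟨F, e, c⟩ := EV_CF h₁ h₂ c₂ b₂ (int_prod h₁ i₁ i₂)
  obtain ⟨F', e', c'⟩ := EV_CF h₂ h₁ c₁ b₁ (int_prod h₂ i₂ i₁)
  have v := c.eval.2
  have v' := c'.eval.2
  constructor
  · rw [e, e', v, v']
    congr 1
    refine setIntegral_congr_fun measurableSet_Ioi fun k _ => ?_
    ring
  · rw [e, e, v, v]
    congr 1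
    refine setIntegral_congr_fun measurableSet_Ioi fun k _ => ?_
    rw [show k * (y - x) = -(k * (x - y)) by ring, Real.cos_neg]

theorem EU_symm {τ₁ τ₂ m₁ m₂ : ℝ → ℝ} (h₁ : CT τ₁ m₁) (h₂ : CT τ₂ m₂)
    (i₁ : Integrable fun t => (1 + |t|) * τ₁ t) (i₂ : Integrable fun t => (1 + |t|) * τ₂ t)
    (x y : ℝ) : EU τ₁ τ₂ x y = EU τ₂ τ₁ x y ∧ EU τ₁ τ₂ x y = EU τ₁ τ₂ y x := by
  obtain ⟨F, e, c⟩ := EU_CF h₁ h₂ i₁ i₂
  obtain ⟨F', e', c'⟩ := EU_CF h₂ h₁ i₂ i₁
  constructor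
  · rw [e, e', (c _).2, (c' _).2]
    refine setIntegral_congr_fun measurableSet_Ioi fun k _ => ?_
    simp only
    ring
  · rw [e, e, (c _).2, (c _).2]
    refine setIntegral_congr_fun measurableSet_Ioi fun k _ => ?_
    simp only
    rw [show k * (y - x) = -(k * (x - y)) by ring, Real.cos_neg]

/-- the response energy is symmetric in the charges -/
theorem ERc_comm (h : Chg α q a b A B F G) (h' : Chg α' q' a' b' A' B' F' G') (σ : Bool) (x y : ℝ) :
    ERc σ F G F' G' x y = ERc σ F' G' F G x y := by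
  obtain ⟨CO, hCO⟩ := Chg.bdO h
  obtain ⟨CX, hCX⟩ := Chg.bdX h
  obtain ⟨CO', hCO'⟩ := Chg.bdO h'
  obtain ⟨CX', hCX'⟩ := Chg.bdX h'
  have e1 := (EV_symm h.ctO h'.ctO h.contO h'.contO hCO hCO' (Chg.iO h) (Chg.iO h') x y).1
  have e2 := (EV_symm h.ctX h'.ctX h.contX h'.contX hCX hCX' (Chg.iX h) (Chg.iX h') x y).1
  have e3 := (EV_symm h.ctO h'.ctX h.contO h'.contX hCO hCX' (Chg.iO h) (Chg.iX h') x y).1
  have e4 := (EV_symm h.ctX h'.ctO h.contX h'.contO hCX hCO' (Chg.iX h) (Chg.iO h') x y).1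
  have e5 := (EU_symm h.ctT h'.ctT (Chg.wT h) (Chg.wT h') x y).1
  unfold ERc
  rw [e1, e2, e3, e4, e5]
  rcases σ
  · simp only [Bool.false_eq_true, if_false]; ring
  · simp only [if_true]

/-- the response energy is symmetric in the heights -/
theorem ERc_swap (h : Chg α q a b A B F G) (h' : Chg α' q' a' b' A' B' F' G') (σ : Bool) (x y : ℝ) :
    ERc σ F G F' G' x y = ERc σ F G F' G' y x := by
  obtain ⟨CO, hCO⟩ := Chg.bdO h
  obtain ⟨CX, hCX⟩ := Chg.bdX h
  obtain ⟨CO', hCO'⟩ := Chg.bdO h'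
  obtain ⟨CX', hCX'⟩ := Chg.bdX h'
  have e1 := (EV_symm h.ctO h'.ctO h.contO h'.contO hCO hCO' (Chg.iO h) (Chg.iO h') x y).2
  have e2 := (EV_symm h.ctX h'.ctX h.contX h'.contX hCX hCX' (Chg.iX h) (Chg.iX h') x y).2
  have e3 := (EV_symm h.ctO h'.ctX h.contO h'.contX hCO hCX' (Chg.iO h) (Chg.iX h') x y).2
  have e4 := (EV_symm h.ctX h'.ctO h.contX h'.contO hCX hCO' (Chg.iX h) (Chg.iO h') x y).2
  have e5 := (EU_symm h.ctT h'.ctT (Chg.wT h) (Chg.wT h') x y).2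
  unfold ERc
  rw [e1, e2, e3, e4, e5]

/-! ### factors of the spectators -/

/-- sines of a half quantum against a constituent: same species?, string? -/
def hl : Bool → Bool → List (ℤ × ℤ)
  | true, false => [(0, 1), (2, 1), (1, -1)]
  | true, true => [(0, 1), (3, 1)]
  | false, false => [(4, 1), (3, -1), (-3, -1)]
  | false, true => [(3, -1), (-2, -1)]

/-- sines of a quantum against a constituent -/
def ql (s ty : Bool) : List (ℤ × ℤ) := Ls s false ty

open NUP1 in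
theorem PZ_Ck (z : ℂ) : ‖Leg.Ck z‖ = PZ (hl true false) z := by
  simp only [Leg.Ck, hl, PZ_cons, PZ_nil, norm_mul, norm_div, Int.cast_zero, Int.cast_one,
    Int.cast_ofNat, zero_mul, add_zero, one_mul, mul_one, zpow_one, zpow_neg]
  ring

open NUP1 in
theorem PZ_Dk (z : ℂ) : ‖Leg.Dk z‖ = PZ (hl false false) z := by
  have e : ‖Complex.sin (3 * l - z)‖ = ‖Complex.sin (z + -3 * l)‖ := by
    rw [show (3 * l - z : ℂ) = -(z + -3 * l) by ring, Complex.sin_neg, norm_neg]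
  simp only [Leg.Dk, hl, PZ_cons, PZ_nil, norm_mul, norm_div, Int.cast_neg,
    Int.cast_ofNat, mul_one, zpow_one, zpow_neg]
  rw [cos_eq_sin4, e, add_comm (3 * (l : ℂ)) z]
  field_simp

open NUP1 in
theorem PZ_CkCk (z : ℂ) : ‖Leg.Ck z‖ * ‖Leg.Ck (z + l)‖ ≤ PZ (hl true true) z := by
  simp only [Leg.Ck, hl, PZ_cons, PZ_nil, norm_mul, norm_div, Int.cast_zero,
    Int.cast_ofNat, zero_mul, add_zero, mul_one, zpow_one]
  rw [show z + l + 2 * l = z + 3 * l by ring, show z + l + l = z + 2 * l by ring]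
  have ha := norm_nonneg (Complex.sin z)
  have hb := norm_nonneg (Complex.sin (z + l))
  have hc := norm_nonneg (Complex.sin (z + 2 * l))
  have hd := norm_nonneg (Complex.sin (z + 3 * l))
  set A := ‖Complex.sin z‖
  set B := ‖Complex.sin (z + l)‖
  set C := ‖Complex.sin (z + 2 * l)‖
  set D := ‖Complex.sin (z + 3 * l)‖
  rcases hb.eq_or_lt with h | h
  · rw [← h]; simp only [div_zero, zero_mul, zero_div]; positivity
  rcases hc.eq_or_lt with h' | h'
  · rw [← h']; simp only [div_zero, mul_zero, zero_div]; positivity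
  apply le_of_eq
  field_simp

open NUP1 in
theorem PZ_DkDk (z : ℂ) : ‖Leg.Dk z‖ * ‖Leg.Dk (z + l)‖ ≤ PZ (hl false true) z := by
  have e : ∀ w : ℂ, ‖Complex.sin (3 * l - w)‖ = ‖Complex.sin (w - 3 * l)‖ := fun w => by
    rw [show (3 * l - w : ℂ) = -(w - 3 * l) by ring, Complex.sin_neg, norm_neg]
  have e1 : ‖Complex.sin (z + l + 4 * l)‖ = ‖Complex.sin (z - 3 * l)‖ := by
    rw [← norm_sin_add8 (z - 3 * l)]; ring_nf
  simp only [Leg.Dk, hl, PZ_cons, PZ_nil, norm_mul, norm_div, Int.cast_neg,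
    Int.cast_ofNat, mul_one, zpow_one, zpow_neg]
  rw [cos_eq_sin4, cos_eq_sin4, e, e, e1, show z + l - 3 * l = z + -2 * l by ring,
    show 3 * l + (z + l) = z + 4 * l by ring, show 3 * l + z = z + 3 * l by ring]
  have ha := norm_nonneg (Complex.sin (z + 4 * l))
  have hb := norm_nonneg (Complex.sin (z - 3 * l))
  have hc := norm_nonneg (Complex.sin (z + 3 * l))
  have hd := norm_nonneg (Complex.sin (z + -2 * l))
  set A := ‖Complex.sin (z + 4 * l)‖
  set B := ‖Complex.sin (z - 3 * l)‖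
  set C := ‖Complex.sin (z + 3 * l)‖
  set D := ‖Complex.sin (z + -2 * l)‖
  rcases ha.eq_or_lt with h | h
  · rw [← h]; simp only [zero_div, zero_mul]; positivity
  rcases hb.eq_or_lt with h' | h'
  · rw [← h']; simp only [zero_div, mul_zero]; positivity
  apply le_of_eq
  field_simp

/-! ### the table -/

/-- direct energy of a spectator (lists `ls`, real part `p l`) and an object of kind `κ` -/
def DrS (ls : Bool → Bool → List (ℤ × ℤ)) (jL e p : ℝ) (σ : Bool) (κ : Kind) (t : ℝ) : ℝ :=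
  ((cl κ).map fun c => Lam 8 (ls (σ == c.own) c.ty) (p - c.cp jL e) t).sum

/-- growth of `DrS` -/
def NS (ls : Bool → Bool → List (ℤ × ℤ)) (σ : Bool) (κ : Kind) : ℤ :=
  ((cl κ).map fun c => Na (ls (σ == c.own) c.ty)).sum

theorem DrS_Gw (ls : Bool → Bool → List (ℤ × ℤ)) (jL e p : ℝ) (σ : Bool) (κ : Kind) :
    Gw (fun t => DrS ls jL e p σ κ t) (NS ls σ κ) := by
  refine (Gw.list (cl κ) fun c _ => Gw_Lam (ls (σ == c.own) c.ty) (p - c.cp jL e)).congr
    (fun t => rfl) ?_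
  unfold NS
  rw [sum_cast]

theorem NS_hl : ∀ σ κ, NS hl σ κ = if σ then Pool.Agent.NUM3.qc κ else -Pool.Agent.NUM3.qc κ := by
  decide +kernel

theorem NS_ql : ∀ σ κ, NS ql σ κ = if σ then 2 * Pool.Agent.NUM3.qc κ else -(2 * Pool.Agent.NUM3.qc κ) := by
  decide +kernel

theorem kq_eq (κ : Kind) : kq κ = ((Pool.Agent.NUM3.qc κ : ℤ) : ℝ) := by
  rcases κ <;> simp [kq, Pool.Agent.NUM3.qc]

/-- **a half quantum and an object**, every real part `p l` -/
theorem half_obj (hw : Chg α (1 / 2) a b A B F G) {jL e : ℝ} (hj : Adm jL e) (p : ℝ) (σ : Bool)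
    (κ : Kind) : ∃ C : ℝ, 0 ≤ C ∧ ∀ x y,
      |DrS hl jL e p σ κ (x - y) + ERc σ F G (kF jL e κ) (kG jL e κ) x y| ≤ C := by
  refine dressed_0 hw (chgK hj κ) σ (DrS_Gw hl jL e p σ κ) ?_
  rw [NS_hl, kq_eq]
  rcases σ
  · simp only [Bool.false_eq_true, if_false, sgn]; push_cast; ring
  · simp only [if_true, sgn]; ring

/-- **a single and an object**, every real part `p l` -/
theorem single_obj (hw : Chg α 1 a b A B F G) {jL e : ℝ} (hj : Adm jL e) (p : ℝ) (σ : Bool)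
    (κ : Kind) : ∃ C : ℝ, 0 ≤ C ∧ ∀ x y,
      |DrS ql jL e p σ κ (x - y) + ERc σ F G (kF jL e κ) (kG jL e κ) x y| ≤ C := by
  refine dressed_0 hw (chgK hj κ) σ (DrS_Gw ql jL e p σ κ) ?_
  rw [NS_ql, kq_eq]
  rcases σ
  · simp only [Bool.false_eq_true, if_false, sgn]; push_cast; ring
  · simp only [if_true, sgn]; push_cast; ring

/-- one constant for all kinds and both species -/
theorem half_obj_all (hw : Chg α (1 / 2) a b A B F G) {jL e : ℝ} (hj : Adm jL e) (p : ℝ) :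
    ∃ C : ℝ, 0 ≤ C ∧ ∀ (σ : Bool) (κ : Kind) (x y : ℝ),
      |DrS hl jL e p σ κ (x - y) + ERc σ F G (kF jL e κ) (kG jL e κ) x y| ≤ C := by
  choose C h0 hC using fun σ κ => half_obj hw hj p σ κ
  refine ⟨∑ σ, ∑ κ, C σ κ, Finset.sum_nonneg fun σ _ => Finset.sum_nonneg fun κ _ => h0 σ κ,
    fun σ κ x y => (hC σ κ x y).trans ?_⟩
  refine (Finset.single_le_sum (f := fun κ => C σ κ) (fun κ _ => h0 σ κ) (Finset.mem_univ κ)).trans ?_
  exact Finset.single_le_sum (f := fun σ => ∑ κ, C σ κ)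
    (fun σ _ => Finset.sum_nonneg fun κ _ => h0 σ κ) (Finset.mem_univ σ)

/-- one constant for all kinds and both species -/
theorem single_obj_all (hw : Chg α 1 a b A B F G) {jL e : ℝ} (hj : Adm jL e) (p : ℝ) :
    ∃ C : ℝ, 0 ≤ C ∧ ∀ (σ : Bool) (κ : Kind) (x y : ℝ),
      |DrS ql jL e p σ κ (x - y) + ERc σ F G (kF jL e κ) (kG jL e κ) x y| ≤ C := by
  choose C h0 hC using fun σ κ => single_obj hw hj p σ κ
  refine ⟨∑ σ, ∑ κ, C σ κ, Finset.sum_nonneg fun σ _ => Finset.sum_nonneg fun κ _ => h0 σ κ,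
    fun σ κ x y => (hC σ κ x y).trans ?_⟩
  refine (Finset.single_le_sum (f := fun κ => C σ κ) (fun κ _ => h0 σ κ) (Finset.mem_univ κ)).trans ?_
  exact Finset.single_le_sum (f := fun σ => ∑ κ, C σ κ)
    (fun σ _ => Finset.sum_nonneg fun κ _ => h0 σ κ) (Finset.mem_univ σ)

/-! ### the form with `log cosh` -/

/-- any two charges: `2 σ q q' log cosh` is the direct energy up to `O(1)` -/
theorem chg_ch (h : Chg α q a b A B F G) (h' : Chg α' q' a' b' A' B' F' G') :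
    ∃ C : ℝ, 0 ≤ C ∧ ∀ (σ : Bool) (x y : ℝ),
      |2 * (sgn σ * (q * q')) * Real.log (Real.cosh (x - y)) + ERc σ F G F' G' x y| ≤ C := by
  obtain ⟨C, h0, hC⟩ := dressed h h' true (CF_cosh.smul (2 * (sgn true * (q * q')))) (by ring)
  obtain ⟨C', h0', hC'⟩ := dressed h h' false (CF_cosh.smul (2 * (sgn false * (q * q')))) (by ring)
  refine ⟨C + C', by positivity, fun σ x y => ?_⟩
  rcases σ
  · exact (hC' x y).trans (by linarith)
  · exact (hC x y).trans (by linarith)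

/-- a half quantum and an object -/
theorem half_ch (hw : Chg α (1 / 2) a b A B F G) {jL e : ℝ} (hj : Adm jL e) :
    ∃ C : ℝ, 0 ≤ C ∧ ∀ (σ : Bool) (κ : Kind) (x y : ℝ),
      |sgn σ * kq κ * Real.log (Real.cosh (x - y)) + ERc σ F G (kF jL e κ) (kG jL e κ) x y| ≤ C := by
  choose C h0 hC using fun κ => chg_ch hw (chgK hj κ)
  refine ⟨∑ κ, C κ, Finset.sum_nonneg fun κ _ => h0 κ, fun σ κ x y => ?_⟩
  have h1 := hC κ σ x y
  rw [show 2 * (sgn σ * (1 / 2 * kq κ)) = sgn σ * kq κ by ring] at h1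
  exact h1.trans (Finset.single_le_sum (f := C) (fun κ _ => h0 κ) (Finset.mem_univ κ))

/-- a single and an object -/
theorem single_ch (hw : Chg α 1 a b A B F G) {jL e : ℝ} (hj : Adm jL e) :
    ∃ C : ℝ, 0 ≤ C ∧ ∀ (σ : Bool) (κ : Kind) (x y : ℝ),
      |2 * (sgn σ * kq κ) * Real.log (Real.cosh (x - y)) + ERc σ F G (kF jL e κ) (kG jL e κ) x y| ≤ C := by
  choose C h0 hC using fun κ => chg_ch hw (chgK hj κ)
  refine ⟨∑ κ, C κ, Finset.sum_nonneg fun κ _ => h0 κ, fun σ κ x y => ?_⟩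
  have h1 := hC κ σ x y
  rw [show 2 * (sgn σ * (1 * kq κ)) = 2 * (sgn σ * kq κ) by ring] at h1
  exact h1.trans (Finset.single_le_sum (f := C) (fun κ _ => h0 κ) (Finset.mem_univ κ))

/-- a charge of any size and an object -/
theorem spec_ch (hw : Chg α q a b A B F G) {jL e : ℝ} (hj : Adm jL e) :
    ∃ C : ℝ, 0 ≤ C ∧ ∀ (σ : Bool) (κ : Kind) (x y : ℝ),
      |2 * q * (sgn σ * kq κ) * Real.log (Real.cosh (x - y)) +
        ERc σ F G (kF jL e κ) (kG jL e κ) x y| ≤ C := by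
  choose C h0 hC using fun κ => chg_ch hw (chgK hj κ)
  refine ⟨∑ κ, C κ, Finset.sum_nonneg fun κ _ => h0 κ, fun σ κ x y => ?_⟩
  have h1 := hC κ σ x y
  rw [show 2 * (sgn σ * (q * kq κ)) = 2 * q * (sgn σ * kq κ) by ring] at h1
  exact h1.trans (Finset.single_le_sum (f := C) (fun κ _ => h0 κ) (Finset.mem_univ κ))

end

end NUGC
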