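import Pool.Agent.NUGC.ExpC
import Pool.Agent.NUSea.H0.SpG

/-!
# TARGET-C: the exponent of a configuration with at most two groups of spectators

`exists_enS`: `NUGC.exists_enC` for the families `g : Fin n → Gd`, `n ≤ 2`, of `NUSea/H0/SpG`; the sea
term of the spectators is the sum of the sea terms `seaG` of the groups (`sea_fam`).
-/

set_option autoImplicit false
set_option linter.unusedSectionVars false

noncomputable section

open MeasureTheory Finset Filter Topology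

namespace NUGC

open NUO (Kind Xo kd ht sp Par PG wK cons slkK rr Tb)
open NUStabP (enC)
open NUDispW (win)
open NUMF (l l_pos)
open NUSea (Cur P hd)
open NUSea.H0 (Inp IOk datO wO Gd TG SpI)

variable [NUSea.Sea]

/-- the sea term of a group: both species together, on the axis -/
def seaG (s : ℝ) (g : Gd) : ℝ :=
  s * ∫ t : ℝ, P t * ((NUSp.gp true g.G t).re + (NUSp.gp false g.G t).re)

/-- a group is neutral: its potentials are integrable against the sea -/
lemma sea_int (g : Gd) :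
    Integrable fun t : ℝ => P t * ((NUSp.gp true g.G t).re + (NUSp.gp false g.G t).re) := by
  have hl := l_pos
  have hb : l / 10 < 1 / 4 * l := by linarith
  have hb0 : 0 < l / 10 := by positivity
  have h1 := NUSp.asy_gp hb0 hb (by norm_num) true g.ok
  have h2 := NUSp.asy_gp hb0 hb (by norm_num) false g.ok
  have h3 := h1.add h2
  have e0 := NUSp.gq_neutral g.G
  rw [e0] at h3
  have hc : ∀ s : Bool, Continuous fun t : ℝ => (NUSp.gp s g.G t).re := by
    intro s
    have h4 : Continuous fun t : ℝ => NUSp.gp s g.G (t : ℂ) := by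
      refine continuous_iff_continuousAt.2 fun t => ?_
      have h5 := ((NUSp.potB_gp hb0 hb s g.ok).hd (t : ℂ) (by simpa using hb0)).continuousAt
      exact h5.comp Complex.continuous_ofReal.continuousAt
    exact Complex.continuous_re.comp h4
  refine NUSea.H0.P_B_int ((hc true).add (hc false)) (C := |(-(NUSp.gq true g.G * Real.log 2) +
    -(NUSp.gq false g.G * Real.log 2))| + |NUSp.gph true g.G + NUSp.gph false g.G| +
    (NUSp.gn g.G * NUSp.ka (1 / 4) (l / 10) + NUSp.gn g.G * NUSp.ka (1 / 4) (l / 10))) fun t => ?_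
  have h6 := (NUSea.H0.asy_le h3 (z := (t : ℂ)) (by simpa using hb0)).2
  refine le_trans ?_ h6
  have e : (NUSp.gp true g.G t).re + (NUSp.gp false g.G t).re =
      (NUSp.gp true g.G (t : ℂ) + NUSp.gp false g.G (t : ℂ)).re := by
    rw [Complex.add_re]
  rw [e]
  exact Complex.abs_re_le_norm _

/-- **the sea term of the spectators** -/
theorem sea_fam {n : ℕ} {g : Fin n → Gd} {p q : ℂ} {I : Inp} {B' : Bool → ℝ → ℝ}
    (h : SpI p q g I B') : (∫ t : ℝ, I.s * P t * (I.A true t + I.A false t).re) =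
      ∑ i, seaG I.s (g i) := by
  have h0 := NUSp.th_re h.hp h.hq h.him
  have e1 : ∀ (a : Bool) (t : ℝ), (I.A a t).re = ∑ i, (NUSp.gp a (g i).G t).re := by
    intro a t
    rw [h.A, ← NUSea.H0.sum_fD, Fintype.sum_option, Complex.add_re, Complex.re_sum]
    have e2 : (NUSea.H0.fD p q (fun i => (g i).G) none a (t : ℂ)).re = 0 := h0 t
    rw [e2, zero_add]
    rfl
  have e2 : ∀ t : ℝ, I.s * P t * (I.A true t + I.A false t).re =
      ∑ i, I.s * (P t * ((NUSp.gp true (g i).G t).re + (NUSp.gp false (g i).G t).re)) := by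
    intro t
    rw [Complex.add_re, e1, e1, ← Finset.sum_add_distrib, Finset.mul_sum]
    refine Finset.sum_congr rfl fun i _ => ?_
    ring
  simp_rw [e2]
  rw [integral_finsetSum _ fun i _ => (sea_int (g i)).const_mul _]
  refine Finset.sum_congr rfl fun i _ => ?_
  rw [integral_const_mul]
  rfl

/-- negative phases of at most two groups -/
lemma neg_fam {n : ℕ} (hn : n ≤ 2) (g : Fin n → Gd) :
    ∑ i, max (-(NUSp.gph true (g i).G + NUSp.gph false (g i).G)) 0 ≤ 6 * l := by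
  have hl := l_pos
  have h : ∀ i ∈ (Finset.univ : Finset (Fin n)),
      max (-(NUSp.gph true (g i).G + NUSp.gph false (g i).G)) 0 ≤ 3 * l := fun i _ =>
    neg_ph (g i).c (g i).σ (g i).rt (NUSp.wG_rg _ _ _)
  refine (Finset.sum_le_card_nsmul _ _ _ h).trans ?_
  rw [card_univ, Fintype.card_fin, nsmul_eq_mul]
  have h2 : (n : ℝ) ≤ 2 := by exact_mod_cast hn
  nlinarith

/-- **the exponent of a configuration with at most two groups of spectators** -/
theorem exists_enS {WB : ℝ} (hWB : 0 ≤ WB) : ∃ K0 : ℝ, 0 ≤ K0 ∧ ∀ kap : ℝ, 0 < kap → ∀ κ : ℝ, 0 < κ →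
    ∀ k : ℕ, ∃ (Cc : ℝ) (m0 : ℕ), ∀ m ≥ m0, ∀ e1 : ℝ, 0 < e1 → e1 ≤ 1 / 100 → ∀ J Cb : ℝ,
    ∀ n : ℕ, n ≤ 2 → ∀ (g : Fin n → Gd) (p q : ℂ) (I : Inp) (B' : Bool → ℝ → ℝ),
    SpI p q g I B' → p.im = 0 → (∀ a t, |I.B a t| ≤ WB) →
    CuOk e1 J Cb m (curI I) (hd I.s I.η I.η1) →
    ∀ (Q : Par) (r : ℕ) (O : Fin r → Xo), Q.jL = 9 / 4 → Q.e = 1 / 4 → ∑ i, rr Q O i ≤ 1 →
    (∃ (dl ε M : ℝ) (e : ℝ → ℝ), IOk dl ε M ((1 - e1) * Tb (Real.log m)) e I Q r ∧
      ε ≤ (m : ℝ) ^ (-κ) ∧ M ≤ Real.log m ^ k ∧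
      dl ≤ 1 / (6000 * ((r : ℝ) + 1) ^ 2) + 3 * (m : ℝ) ^ (-κ)) →
      (datO I Q O).En ≤ (∑ i, oneH I Q O (NUCUR.cur e1 (Tb (Real.log m)) J) i) + enC O +
        (∑ i, ∑ d, ES (obSr Q.jL Q.e (O i)) (TG g d)) +
        1 / 2 * (∑ d, ∑ d', ES (TG g d) (TG g d')) +
        (∑ i, seaG I.s (g i)) + (∑ a, ∫ t, I.s * P t * I.B a t) -
        (1 - e1) * Tb (Real.log m) + K0 * r + kap * win univ (fun i => ht (O i)) + Cc + Cb := by
  obtain ⟨K0, hK0, H⟩ := exists_enC (W := WB + 1) (by linarith)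
  obtain ⟨K, hK, HS⟩ := NUSea.H0.exists_spG
  refine ⟨K0, hK0, ?_⟩
  intro kap hkap κ hκ k
  have H := fun n => H kap hkap κ (2 * K) hκ (by linarith) k (1 / 4) 15 (by norm_num) (by norm_num)
    (by norm_num) n
  choose Cc m0 H using H
  obtain ⟨m1, hm1⟩ := polylogC (3 * K) 0 hκ one_pos
  refine ⟨|Cc 0| + |Cc 1| + |Cc 2|, max m1 (max (m0 0) (max (m0 1) (m0 2))), ?_⟩
  intro m hm e1 he1 he1' J Cb n hn g p q I B' hS hp0 hB hC Q r O hj he hrr hok
  simp only [ge_iff_le, max_le_iff] at hm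
  obtain ⟨g1, g2, g3, g4⟩ := hm
  have hmn : m0 n ≤ m := by interval_cases n <;> assumption
  have hCn : Cc n ≤ |Cc 0| + |Cc 1| + |Cc 2| := by
    have a0 := abs_nonneg (Cc 0)
    have a1 := abs_nonneg (Cc 1)
    have a2 := abs_nonneg (Cc 2)
    have b0 := le_abs_self (Cc 0)
    have b1 := le_abs_self (Cc 1)
    have b2 := le_abs_self (Cc 2)
    interval_cases n <;> linarith
  have hmk := hm1 m g1
  rw [pow_zero, mul_one] at hmk
  obtain ⟨dl, ε, M, e, hI, hε, hM, hdl⟩ := hok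
  obtain ⟨w0, -, -, -, w4, -⟩ := HS n g p q I B' hS ε M ((1 - e1) * Tb (Real.log m)) e hI.cur
    hI.der hI.ε1
  have hn2 : (n : ℝ) ≤ 2 := by exact_mod_cast hn
  have hn0 : (0 : ℝ) ≤ n := Nat.cast_nonneg n
  have hε0 : 0 ≤ ε := hI.cur.ε0
  have hwO : ∀ a t, |wO I a t| ≤ WB + 1 := by
    intro a t
    refine (w0 a t).trans (add_le_add (hB a t) ?_)
    calc K * (n + 1) * ε ≤ K * (2 + 1) * (m : ℝ) ^ (-κ) := by
          have hK0' : 0 ≤ K := by linarith
          gcongr
      _ = 3 * K * (m : ℝ) ^ (-κ) := by ring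
      _ ≤ 1 := hmk
  have hAd : NUC43.Adm Q.jL Q.e := by
    rw [hj, he]
    exact NUC43.adm0
  have hE : EnOk e1 κ (WB + 1) (2 * K) k m I Q O (TG g) :=
    { jL := hj
      e := he
      rr1 := hrr
      ok := ⟨dl, ε, M, e, hI, hε, hM, hdl⟩
      Tok := NUSea.H0.TG_ok g
      sy := fun i d => NUSea.H0.TG_sym g hAd O i d
      nu := fun a => by rw [hS.ν]
      tau := hS.τ
      mass := fun a => (w4 a).trans (by nlinarith)
      w0 := hwO }
  have hl := l_pos
  have hq0 : q.im = 0 := hS.him.trans hp0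
  have h1 := H n m hmn e1 he1 he1' J Cb I Q r O _ (TG g) hE hC p q (fun i => (g i).G)
    (fun i => (g i).τ) (NUSea.H0.away_p hS.hp) (NUSea.H0.away_q hS.hq) hp0 hq0
    (by rw [hS.hp, abs_neg, abs_of_pos (by positivity)]; linarith)
    (by rw [hS.hq, abs_of_pos (by positivity)]; linarith)
    (fun i => (g i).ok) (fun i => NUSp.gn_grp _ _ _) (neg_fam hn g)
    (fun a z _ => by rw [hS.A, NUSea.H0.sum_fD])
  rw [sea_fam hS] at h1
  linarith

end NUGC

end
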