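import Pool.Agent.NUSea.H0.PinF
import Pool.Agent.NUSea.H0.ShlC2
import Pool.Agent.NUSea.H0.GasC
import Pool.Agent.NUGC.CurEx
import Pool.Agent.NUSea.Par0

/-!
# The data of TARGET-C

A family `g : Fin G → Gd` of groups of spectators (class, line, species, height); `T1` the end of the
window, `gP T1 g` the family at the pinned heights.

* `inC`: the extra data; `raC`: the real rests of the one body factors; `cfC`: the cutoff with the far
  factor; `cstF T1 g`: the constants;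
* `FamOk`: bare and neutral groups at every height, composite groups in the window, different
  species, excess at most `x`;
* `DatGC`: **the data of every configuration of TARGET-C** for 53's `CrudeC`, `SharpC`.
-/

set_option autoImplicit false
set_option linter.unusedSectionVars false

noncomputable section

open MeasureTheory Finset Filter Topology

namespace NUGC

open NUO (Xo ht Par Tb TW excS chgO)
open NUSea.H0 (Inp Gd TG BF cfP hfar aR datO DatC)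

/-- the first end -/
def pE : ℂ := ((-(NUMF.l / 2) : ℝ) : ℂ)

/-- the second end -/
def qE : ℂ := ((NUMF.l / 2 : ℝ) : ℂ)

/-- constant of the far factor -/
def CcF (G : ℕ) : ℝ := Real.exp (G * NUSp.kfar (1 / 4) (NUMF.l / 5))

theorem CcF_one (G : ℕ) : 1 ≤ CcF G := by
  have := NUSp.kfar_nonneg (1 / 4) (NUMF.l / 5)
  exact Real.one_le_exp (by positivity)

/-- the bound of the cutoff with the far factor at the end of the window -/
def SC (G : ℕ) (x : ℝ) : ℝ := (2 + CcF G) * Real.exp (37 / 20 * x)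

/-- charge of a family -/
def chG {G : ℕ} (g : Fin G → Gd) : ℝ := ∑ i, NUC43.sg (g i).σ * NUSp.qc (g i).c / 2

variable [NUSea.Sea]

/-- the family at the pinned heights -/
def gP (T1 : ℝ) {G : ℕ} (g : Fin G → Gd) (i : Fin G) : Gd := (g i).pin T1

/-- **the extra data of TARGET-C**: row number `m`, curve `etaC`, groups at the pinned heights, `B1` the
majorant of the cutoff, `b'` the tilt -/
def inC (e1 J : ℝ) (m : ℕ) (T1 b' : ℝ) {G : ℕ} (g : Fin G → Gd) (B1 : ℝ → ℝ) : Inp where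
  s := m
  η := etaC e1 J m m
  η1 := etaC' e1 J m m
  A a z := NUSp.DD pE qE (List.ofFn fun i => (gP T1 g i).G) a z
  B a t := B1 t + BF T1 g (etaC e1 J m m) a t - b' / 2
  ν := muS (TG (gP T1 g))
  τD := tauS (TG (gP T1 g))

/-- the real rest of the one body factor -/
def raC (e1 J : ℝ) (m : ℕ) (T1 b' : ℝ) {G : ℕ} (g : Fin G → Gd) (a : Bool) (t : ℝ) : ℝ :=
  BF T1 g (etaC e1 J m m) a t - b' / 2

/-- the cutoff factor, `M` pairs -/
def cfC (ep e1 J : ℝ) (m M G : ℕ) (T1 x : ℝ) (t : ℝ) : ℝ :=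
  cfP M (4 / 3 * (1 - ep)) (etaC e1 J m m) t * hfar (CcF G) T1 x t

/-- **admissible families**: `x` bounds the excess -/
structure FamOk (T1 x : ℝ) {G : ℕ} (g : Fin G → Gd) : Prop where
  cl : ∀ i, (g i).c = .w ∨ (g i).c = .d ∨ |(g i).τ| ≤ T1
  sp : ∀ i j, i ≠ j → (g i).σ ≠ (g j).σ
  x0 : 0 ≤ x
  ex : ∀ i, NUSp.exc T1 (g i).τ ≤ x

/-- the species factor of the one body factors of a configuration -/
def aCC (e1 J : ℝ) (m : ℕ) (T1 b' : ℝ) {G : ℕ} (g : Fin G → Gd) (B1 : ℝ → ℝ) {r : ℕ}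
    (O : Fin r → Xo) (a : Bool) (t : ℝ) : ℝ :=
  aR (datO (inC e1 J m T1 b' g B1) (NUSea.O.par0 m) O) (raC e1 J m T1 b' g) a t

/-- **the data of every configuration of TARGET-C.**  `W` is absolute (it bounds the majorant `B1`);
`D` depends on the configuration; for `x = 0` the cutoff is bounded at the end of the window `TW`; near
groups and objects: the one body factors in the bulk. -/
def DatGC : Prop :=
  ∀ G : ℕ, ∃ W : ℝ, 0 ≤ W ∧ ∀ ep : ℝ, 0 < ep → ep ≤ 1 / 100 → ∀ e1 : ℝ, 0 < e1 → e1 ≤ 1 / 100 →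
    ∀ J : ℝ, 0 ≤ J →
    ∃ (k : ℕ) (κ CB w C : ℝ), 0 < κ ∧ 0 ≤ CB ∧ 0 < w ∧ w ≤ 1 / 10 ∧ 0 ≤ C ∧
    ∀ ϑ : ℝ, 0 < ϑ → ∃ d : ℝ, 0 < d ∧ ∃ m0 : ℕ, ∀ M : ℕ, m0 ≤ M → ∀ m : ℕ, m = 2 * M + 1 →
    ∀ b' : ℝ, |b'| ≤ d → ∀ (T1 x : ℝ) (g : Fin G → Gd), TW ep e1 m ≤ T1 → FamOk T1 x g →
    ∃ B1 : ℝ → ℝ, ContDiff ℝ 1 B1 ∧ (∀ t, 0 ≤ B1 t) ∧ (∀ t, B1 t ≤ W) ∧
      Integrable (fun t => (m : ℝ) * NUSea.P t * B1 t) ∧ (∫ t, (m : ℝ) * NUSea.P t * B1 t) ≤ C ∧
    ∀ nX nY : ℕ, nX ≤ 8 * m → nY ≤ 8 * m → (nX : ℝ) - nY = -chG g →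
    ∀ r : ℕ, r ≤ 8 * m → ∀ O : Fin r → Xo, chgO O true ≤ nX → chgO O false ≤ nY →
      TW ep e1 m + excS (TW ep e1 m) O ≤ T1 →
    ∃ D : ℝ, DatC ep e1 κ CB ϑ k m (inC e1 J m T1 b' g B1) (NUSea.O.par0 m) O
        (fun i => (gP T1 g i).τ) (nX - chgO O true) (nY - chgO O false)
        (aCC e1 J m T1 b' g B1 O true) (aCC e1 J m T1 b' g B1 O false)
        (cfC ep e1 J m M G T1 x) B1 T1 D (49 / 20) (SC G x) ∧
      (x = 0 → D * Real.exp (-(49 / 20 * TW ep e1 m)) ≤ SC G x) ∧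
      ((∀ i, |(g i).τ| ≤ TW ep e1 m) → x = 0 → (r : ℝ) + G ≤ Real.log m →
        (∀ i, |ht (O i)| ≤ Real.log m ^ 2) →
        NUS4C.GD m k κ e1 w m (2 * Real.log m ^ 2) ((1 - e1) * Tb (Real.log m))
          (etaC e1 J m m) (etaC' e1 J m m) (etaC e1 J m m) (etaC' e1 J m m)
          (fun t => aCC e1 J m T1 b' g B1 O true t * cfC ep e1 J m M G T1 x t)
          (fun t => aCC e1 J m T1 b' g B1 O false t * cfC ep e1 J m M G T1 x t))

end NUGC

end
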