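import Pool.Agent.NUSp.Cls
import Pool.Agent.NUSea.HMF3

/-!
# The sea term of a word (mean field of a spectator group), rows at `± l / 2`

`∫ Ph(t) Re (wd L w t) dt = MW L w`, `MW L w = ∑ c (Hh ((3 - k + p) l) - log 2) / 2` over the word
`(k, c)`, `p = w.re / l`.  Every word of a class is a combination of
`MD k = Hh (y + 1) + Hh (y - 1) - Hh y - log 2`, `y = 3 - k + p`, and
`MD k = dl y + ls (p - k - 1/2) + ls (p - k - 3/2)`.
-/

set_option autoImplicit false

open MeasureTheory Set Filter Topology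

namespace NUPref

open NUO hiding Ph
open NUSp NUHM
open NUSea (Ph)

noncomputable section

/-! ### blocks -/

lemma h_red (x y : ℝ) : NUMF.h x (red y * NUMF.l) = NUMF.h x (y * NUMF.l) := by
  have e := cos_red 0 y
  rw [zero_add, zero_add] at e
  unfold NUMF.h
  rw [e]

/-- the real part of a block on the real axis -/
lemma re_bk (w : ℂ) (k : ℤ) {t : ℝ} (ht : w.im - t ≠ 0) : (bk w k (t : ℂ)).re =
    (NUMF.h (w.im - t) ((3 - k + w.re / NUMF.l) * NUMF.l) - Real.log 2) / 2 := by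
  have h1 := NUMF.two_norm_cosh_sq (wz w k (t : ℂ))
  rw [wz_re, wz_im, Complex.ofReal_re, Complex.ofReal_im, zero_add] at h1
  have h2 : Real.cos (2 * yw w k) = Real.cos (2 * ((3 - k + w.re / NUMF.l) * NUMF.l)) := by
    have e := cos_red 0 (((3 - k : ℤ) : ℝ) - (-(w.re / NUMF.l)))
    rw [zero_add, zero_add] at e
    unfold yw
    rw [e]
    push_cast
    congr 2
    ring
  rw [h2] at h1
  have h3 : 1 < Real.cosh (2 * (t - w.im)) := by
    refine Real.one_lt_cosh.2 ?_
    intro h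
    apply ht
    linarith
  have h4 := Real.neg_one_le_cos (2 * ((3 - k + w.re / NUMF.l) * NUMF.l))
  set X := Real.cosh (2 * (t - w.im)) + Real.cos (2 * ((3 - k + w.re / NUMF.l) * NUMF.l)) with hX
  have hX0 : 0 < X := by linarith
  have hn : 0 < ‖Complex.cosh (wz w k (t : ℂ))‖ := by
    rcases (norm_nonneg (Complex.cosh (wz w k (t : ℂ)))).eq_or_lt with h | h
    · rw [← h] at h1
      norm_num at h1
      linarith
    · exact h
  have h5 : Real.log 2 + 2 * Real.log ‖Complex.cosh (wz w k (t : ℂ))‖ = Real.log X := by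
    rw [← h1, Real.log_mul two_ne_zero (by positivity), Real.log_pow]
    push_cast
    ring
  have h6 : NUMF.h (w.im - t) ((3 - k + w.re / NUMF.l) * NUMF.l) = Real.log X := by
    unfold NUMF.h
    rw [hX, ← Real.cosh_neg (2 * (w.im - t)), show -(2 * (w.im - t)) = 2 * (t - w.im) by ring]
  unfold bk
  rw [Complex.log_re, h6, ← h5]
  ring

/-- value of the sea term of one block -/
def HL (w : ℂ) (k : ℤ) : ℝ := (Hh w.im ((3 - k + w.re / NUMF.l) * NUMF.l) - Real.log 2) / 2

theorem int_bk (w : ℂ) (k : ℤ) : Integrable (fun t : ℝ => Ph t * (bk w k (t : ℂ)).re) ∧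
    ∫ t : ℝ, Ph t * (bk w k (t : ℂ)).re = HL w k := by
  have j1 := Hh_int w.im ((3 - k + w.re / NUMF.l) * NUMF.l)
  have j4 : Integrable fun s => Ph s * Real.log 2 := Ph_integrable.mul_const _
  have hae : (fun t : ℝ => Ph t * (bk w k (t : ℂ)).re) =ᵐ[volume] fun t =>
      (1 / 2) * (Ph t * NUMF.h (w.im - t) ((3 - k + w.re / NUMF.l) * NUMF.l) -
        Ph t * Real.log 2) := by
    filter_upwards [NUMF.ae_ne w.im] with t ht
    rw [re_bk w k ht]
    ring
  refine ⟨((j1.sub j4).const_mul (1 / 2)).congr hae.symm, ?_⟩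
  have b3 := integral_sub j1 j4
  have b6 : ∫ s, Ph s * Real.log 2 = Real.log 2 := by rw [integral_mul_const, Ph_mass, one_mul]
  rw [integral_congr_ae hae, integral_const_mul, b3, b6]
  unfold HL Hh
  ring

/-! ### words -/

/-- sea term of a word -/
def MW (L : List (ℤ × ℝ)) (w : ℂ) : ℝ := (L.map fun kc => kc.2 * HL w kc.1).sum

@[simp] lemma MW_nil (w : ℂ) : MW [] w = 0 := rfl

@[simp] lemma MW_cons (a : ℤ × ℝ) (L : List (ℤ × ℝ)) (w : ℂ) :
    MW (a :: L) w = a.2 * HL w a.1 + MW L w := by simp [MW]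

theorem int_wd (L : List (ℤ × ℝ)) (w : ℂ) : Integrable (fun t : ℝ => Ph t * (wd L w (t : ℂ)).re) ∧
    ∫ t : ℝ, Ph t * (wd L w (t : ℂ)).re = MW L w := by
  induction L with
  | nil => simp
  | cons a L ih =>
    have hb := int_bk w a.1
    have e : (fun t : ℝ => Ph t * (wd (a :: L) w (t : ℂ)).re) =
        fun t => a.2 * (Ph t * (bk w a.1 (t : ℂ)).re) + Ph t * (wd L w (t : ℂ)).re := by
      funext t
      rw [wd_cons, Complex.add_re, Complex.re_ofReal_mul]
      ring
    rw [e]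
    refine ⟨(hb.1.const_mul a.2).add ih.1, ?_⟩
    rw [integral_add (hb.1.const_mul a.2) ih.1, integral_const_mul, hb.2, ih.2, MW_cons]

/-- **the sea term of a group** on both species together -/
def MF (c : Cl) (w : ℂ) : ℝ := MW (wX c) w + MW (wY c) w

theorem int_gp (c : Cl) (s σ : Bool) (w : ℂ) :
    Integrable (fun t : ℝ => Ph t * (gp s (grp c σ w) (t : ℂ)).re) ∧
    ∫ t : ℝ, Ph t * (gp s (grp c σ w) (t : ℂ)).re = MW (wc c (decide (s = σ))) w := by
  have e : (fun t : ℝ => Ph t * (gp s (grp c σ w) (t : ℂ)).re) =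
      fun t : ℝ => Ph t * (wd (wc c (decide (s = σ))) w (t : ℂ)).re :=
    funext fun t => by rw [gp_grp]
  rw [e]
  exact int_wd _ w

theorem sum_gp (c : Cl) (σ : Bool) (w : ℂ) :
    (∫ t : ℝ, Ph t * (gp true (grp c σ w) (t : ℂ)).re) +
      ∫ t : ℝ, Ph t * (gp false (grp c σ w) (t : ℂ)).re = MF c w := by
  rw [(int_gp c true σ w).2, (int_gp c false σ w).2]
  unfold MF wc
  cases σ <;> simp [add_comm]

/-! ### the combinations -/

lemma HL_per (w : ℂ) (k : ℤ) : HL w (k - 8) = HL w k := by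
  unfold HL
  rw [← Hh_per w.im ((3 - k + w.re / NUMF.l) * NUMF.l)]
  congr 3
  push_cast
  ring

/-- `Hh (y + 1) + Hh (y - 1) - Hh y - log 2`, `y = 3 - k + p` -/
def MD (w : ℂ) (k : ℤ) : ℝ := 2 * (HL w (k - 1) + HL w (k + 1) - HL w k)

/-- the sines -/
def la (w : ℂ) (a : ℝ) : ℝ := ls (w.re / NUMF.l + a) w.im

lemma la_per (w : ℂ) (a : ℝ) : la w (a + 8) = la w a := by
  unfold la
  rw [← add_assoc, ls_per]

theorem MD_eq (w : ℂ) (k : ℤ) : MD w k = dl w.im (3 - k + w.re / NUMF.l) + la w (-k - 1 / 2) +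
    la w (-k - 3 / 2) := by
  set p := w.re / NUMF.l with hp
  have e1 : HL w (k - 1) = (Hh w.im ((3 - k + p + 1) * NUMF.l) - Real.log 2) / 2 := by
    unfold HL
    rw [← hp]
    congr 4
    push_cast
    ring
  have e2 : HL w (k + 1) = (Hh w.im ((3 - k + p - 1) * NUMF.l) - Real.log 2) / 2 := by
    unfold HL
    rw [← hp]
    congr 4
    push_cast
    ring
  have e3 : HL w k = (Hh w.im ((3 - k + p) * NUMF.l) - Real.log 2) / 2 := rfl
  have e4 : la w (-k - 1 / 2) = (NUMF.h w.im ((3 - k + p + 1 / 2) * NUMF.l) - Real.log 2) / 2 := by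
    unfold la ls
    rw [← hp, ← NUMF.h_refl w.im (3 - k + p + 1 / 2)]
    congr 3
    ring
  have e5 : la w (-k - 3 / 2) = (NUMF.h w.im ((3 - k + p - 1 / 2) * NUMF.l) - Real.log 2) / 2 := by
    unfold la ls
    rw [← hp, ← NUMF.h_refl w.im (3 - k + p - 1 / 2)]
    congr 3
    ring
  unfold MD dl hh
  rw [e1, e2, e3, e4, e5]
  ring

/-- **the classes** -/
theorem MF_w (w : ℂ) : MF .w w = (MD w (-1) - MD w 4) / 2 := by
  have e : HL w 5 = HL w (-3) := by rw [← HL_per w 5]; norm_num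
  unfold MF MD
  simp only [wX, wY, MW_cons, MW_nil]
  norm_num
  rw [e]
  ring

theorem MF_p (w : ℂ) : MF .p w = (MD w (-1) - 2 * MD w 1 + MD w (-2)) / 2 := by
  unfold MF MD
  simp only [wX, wY, MW_cons, MW_nil]
  norm_num
  ring

theorem MF_hs (w : ℂ) : MF .hs w = (-MD w (-1) - 2 * MD w (-2) + MD w 1 + MD w 2 + MD w 3) / 2 := by
  unfold MF MD
  simp only [wX, wY, MW_cons, MW_nil]
  norm_num
  ring

theorem MF_hp (w : ℂ) : MF .hp w =
    (-2 * MD w (-2) + 2 * MD w 1 + MD w 2 + MD w 3 - 2 * MD w 4) / 2 := by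
  have e : HL w 5 = HL w (-3) := by rw [← HL_per w 5]; norm_num
  unfold MF MD
  simp only [wX, wY, MW_cons, MW_nil]
  norm_num
  rw [e]
  ring

theorem MF_d (w : ℂ) : MF .d w = (MD w (-1) - MD w 1) / 2 := by
  unfold MF MD
  simp only [wX, wY, MW_cons, MW_nil]
  norm_num
  ring

end

end NUPref
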