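import Pool.Agent.NUGC.LinT
import Pool.Agent.NUGC.InC
import Pool.Agent.NUGC.PrefMF
import Pool.Agent.NUGC.ExpS
import Pool.Agent.NUGC.CurEx

/-!
# TARGET-C: the sea terms of the groups, pinned heights and remainders against the true heights

`seaG_eq`: the sea term of a group is `s` times its mean field value; `exists_seaLin_abs`,
`exists_seaLin`: the sea terms of the pinned groups together with the linear term of the remainders
`BF` are the mean field values of the groups at their true heights, up to a constant.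
-/

set_option autoImplicit false
set_option linter.unusedSectionVars false

noncomputable section

open MeasureTheory Finset Filter Topology

namespace NUGC

open NUO (TW Tb)
open NUSea.H0 (Gd BF gS)

attribute [local instance] NUSea.seaH

/-- the sea term as an integral -/
theorem seaG_gS (s : ℝ) (g : Gd) : seaG s g = ∫ t : ℝ, s * NUSea.P t * gS g.G t := by
  unfold seaG
  rw [← integral_const_mul]
  refine integral_congr_ae (ae_of_all _ fun t => ?_)
  show s * (NUSea.P t * _) = s * NUSea.P t * _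
  unfold NUSea.H0.gS
  ring

theorem sum_seaG (s : ℝ) {n : ℕ} (g : Fin n → Gd) :
    ∫ t : ℝ, s * NUSea.P t * ∑ i, gS (g i).G t = ∑ i, seaG s (g i) := by
  have hi : ∀ i, Integrable fun t : ℝ => s * NUSea.P t * gS (g i).G t := by
    intro i
    refine ((sea_int (g i)).const_mul s).congr (ae_of_all _ fun t => ?_)
    show s * (NUSea.P t * _) = s * NUSea.P t * _
    unfold NUSea.H0.gS
    ring
  rw [Finset.sum_congr rfl fun i _ => seaG_gS s (g i), ← integral_finsetSum _ fun i _ => hi i]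
  refine integral_congr_ae (ae_of_all _ fun t => ?_)
  simp only
  rw [Finset.mul_sum]

/-- **the sea term of a group is its mean field value** -/
theorem seaG_eq (s : ℝ) (g : Gd) : seaG s g = s * NUPref.MF g.c g.w := by
  have h1 := NUPref.sum_gp g.c g.σ g.w
  have i1 := (NUPref.int_gp g.c true g.σ g.w).1
  have i2 := (NUPref.int_gp g.c false g.σ g.w).1
  unfold seaG
  rw [← h1, ← integral_add i1 i2]
  congr 1
  refine integral_congr_ae (ae_of_all _ fun t => ?_)
  show NUSea.P t * ((NUSp.gp true g.G t).re + (NUSp.gp false g.G t).re) =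
    NUSea.Ph t * (NUSp.gp true (NUSp.grp g.c g.σ g.w) t).re +
      NUSea.Ph t * (NUSp.gp false (NUSp.grp g.c g.σ g.w) t).re
  have e : NUSea.P t = NUSea.Ph t := rfl
  have e2 : g.G = NUSp.grp g.c g.σ g.w := rfl
  rw [e, e2]
  ring

/-- **pinned heights with the remainders against the true heights** -/
theorem exists_seaLin_abs {ep : ℝ} (h0 : 0 < ep) {e1 : ℝ} (he : 0 < e1)
    (he' : e1 ≤ 1 / 100) {J : ℝ} (hJ : 0 ≤ J) :
    ∃ (C : ℝ) (m0 : ℕ), 0 ≤ C ∧ ∀ m : ℕ, m0 ≤ m → ∀ n : ℕ, n ≤ 2 → ∀ (g : Fin n → Gd) (T1 : ℝ),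
      TW ep e1 m ≤ T1 →
      |(∑ i, seaG m (gP T1 g i)) + (∑ a, ∫ t, (m : ℝ) * NUSea.P t * BF T1 g (etaC e1 J m m) a t) -
        (m : ℝ) * ∑ i, NUPref.MF (g i).c (g i).w| ≤ C := by
  obtain ⟨K, hK, H⟩ := NUSea.H0.exists_linT
  have hl := NUMF.l_pos
  obtain ⟨C1, -, m1, hm1, H1⟩ := exists_curC he he' hJ (x := NUMF.l / 6) (by positivity)
  refine ⟨K * 2 * (1 / (6 * e1) + J + 1), max m1 1, by positivity, fun m hm n hn g T1 hT1 => ?_⟩
  have hmm1 : m1 ≤ m := (le_max_left _ _).trans hm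
  have hm0 : 1 ≤ m := (le_max_right _ _).trans hm
  have hmp : (0 : ℝ) < m := by exact_mod_cast hm0
  obtain ⟨hT, H1⟩ := H1 m hmm1
  obtain ⟨ε, e, hcur, hε0, -, hεx⟩ := H1 m (by linarith)
  obtain ⟨T, hTd⟩ : ∃ T, T = Tb (Real.log m) := ⟨_, rfl⟩
  have hTW : TW ep e1 m = (1 + 2 * e1 + 2 * ep) * T := by
    rw [hTd]
    rfl
  rw [← hTd] at hT
  rw [hTW] at hT1
  have hT0 : 0 < T := by linarith
  have hb : (1 - e1) * T ≤ T1 := by nlinarith
  have hT10 : 0 ≤ T1 := by nlinarith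
  have hgap : 3 * e1 * T ≤ T1 - (1 - e1) * T := by nlinarith
  have hη : ∀ t, |etaC e1 J m m t| < NUMF.l / 5 := by
    intro t
    have h5 := hcur.O4.1 t
    exact lt_of_le_of_lt (h5.trans hεx) (by linarith)
  have hHm0 : 0 ≤ 1 / 2 * T + J := by positivity
  have hH : ∀ t, (m : ℝ) * NUSea.P t * |etaC e1 J m m t| ≤ 1 / 2 * T + J := by
    intro t
    have h5 := etaC_nonneg (e1 := e1) (J := J) (m := m) he' hJ (by rw [← hTd]; exact hT) hmp.le t
    rw [abs_of_nonneg h5, mul_etaC hmp, hTd]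
    exact hC_le he he' hJ (by rw [← hTd]; exact hT) t
  have h := H n g T1 ((1 - e1) * T) m (1 / 2 * T + J) (etaC e1 J m m) (etaC' e1 J m m) hT10 hb
    hmp.le hHm0 hη (etaC_hasDeriv e1 J m m)
    (fun t ht => etaC_zero he he' (by rw [← hTd]; exact hT) m (by rw [← hTd]; exact ht.le)) hH
  rw [sum_seaG (m : ℝ) (fun i => (g i).pin T1), sum_seaG (m : ℝ) g] at h
  have e1' : ∑ i, seaG (m : ℝ) (g i) = (m : ℝ) * ∑ i, NUPref.MF (g i).c (g i).w := by
    rw [Finset.mul_sum]
    exact Finset.sum_congr rfl fun i _ => seaG_eq m (g i)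
  rw [e1'] at h
  refine h.trans ?_
  -- the two constants
  have k1 : (1 / 2 * T + J) * Real.exp (-(T1 - (1 - e1) * T)) ≤ 1 / (6 * e1) + J := by
    have a1 : Real.exp (-(T1 - (1 - e1) * T)) ≤ Real.exp (-(3 * e1 * T)) :=
      Real.exp_le_exp.2 (by linarith)
    have a2 : Real.exp (-(3 * e1 * T)) ≤ 1 := Real.exp_le_one_iff.2 (by
      have : 0 ≤ 3 * e1 * T := by positivity
      linarith)
    have a3 : 1 / 2 * T * Real.exp (-(3 * e1 * T)) ≤ 1 / (6 * e1) := by
      have b1 := Real.add_one_le_exp (3 * e1 * T)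
      have b2 : Real.exp (-(3 * e1 * T)) * Real.exp (3 * e1 * T) = 1 := by
        rw [← Real.exp_add]
        simp
      have b3 := Real.exp_pos (-(3 * e1 * T))
      rw [le_div_iff₀ (by positivity)]
      have b4 : 3 * e1 * T * Real.exp (-(3 * e1 * T)) ≤ 1 := by
        have : 3 * e1 * T * Real.exp (-(3 * e1 * T)) ≤
            Real.exp (3 * e1 * T) * Real.exp (-(3 * e1 * T)) :=
          mul_le_mul_of_nonneg_right (by linarith) b3.le
        linarith
      linarith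
    have a4 : J * Real.exp (-(3 * e1 * T)) ≤ J * 1 := mul_le_mul_of_nonneg_left a2 hJ
    calc (1 / 2 * T + J) * Real.exp (-(T1 - (1 - e1) * T)) ≤
          (1 / 2 * T + J) * Real.exp (-(3 * e1 * T)) := mul_le_mul_of_nonneg_left a1 hHm0
      _ = 1 / 2 * T * Real.exp (-(3 * e1 * T)) + J * Real.exp (-(3 * e1 * T)) := by ring
      _ ≤ _ := by linarith
  have k2 : (m : ℝ) * Real.exp (-(8 / 3 * T1)) ≤ 1 := by
    have a1 : Real.log m ≤ 8 / 3 * T1 := by
      have b1 : 8 / 3 * T = Real.log m := by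
        rw [hTd]
        unfold NUO.Tb
        ring
      nlinarith
    have a2 : Real.exp (-(8 / 3 * T1)) ≤ Real.exp (-Real.log m) := Real.exp_le_exp.2 (by linarith)
    rw [Real.exp_neg (Real.log m), Real.exp_log hmp] at a2
    calc (m : ℝ) * Real.exp (-(8 / 3 * T1)) ≤ (m : ℝ) * (m : ℝ)⁻¹ :=
          mul_le_mul_of_nonneg_left a2 hmp.le
      _ = 1 := mul_inv_cancel₀ hmp.ne'
  have hn2 : (n : ℝ) ≤ 2 := by exact_mod_cast hn
  have k3 : 0 ≤ (1 / 2 * T + J) * Real.exp (-(T1 - (1 - e1) * T)) +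
      (m : ℝ) * Real.exp (-(8 / 3 * T1)) := by positivity
  calc K * n * ((1 / 2 * T + J) * Real.exp (-(T1 - (1 - e1) * T)) +
        (m : ℝ) * Real.exp (-(8 / 3 * T1))) ≤ K * 2 * ((1 / 2 * T + J) *
        Real.exp (-(T1 - (1 - e1) * T)) + (m : ℝ) * Real.exp (-(8 / 3 * T1))) :=
        mul_le_mul_of_nonneg_right (mul_le_mul_of_nonneg_left hn2 hK) k3
    _ ≤ K * 2 * (1 / (6 * e1) + J + 1) := by
        refine mul_le_mul_of_nonneg_left ?_ (by positivity)
        linarith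

/-- **the sea terms of a configuration**: the form used in the reduction -/
theorem exists_seaLin {ep : ℝ} (h0 : 0 < ep) (_h1 : ep ≤ 1 / 100) {e1 : ℝ} (he : 0 < e1)
    (he' : e1 ≤ 1 / 100) {J : ℝ} (hJ : 0 ≤ J) :
    ∃ (C : ℝ) (m0 : ℕ), 0 ≤ C ∧ ∀ m : ℕ, m0 ≤ m → ∀ n : ℕ, n ≤ 2 → ∀ (g : Fin n → Gd) (T1 : ℝ),
      TW ep e1 m ≤ T1 →
      (∑ i, seaG m (gP T1 g i)) + (∑ a, ∫ t, (m : ℝ) * NUSea.P t * BF T1 g (etaC e1 J m m) a t) ≤
        (m : ℝ) * (∑ i, NUPref.MF (g i).c (g i).w) + C := by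
  obtain ⟨C, m0, hC, H⟩ := exists_seaLin_abs h0 he he' hJ
  refine ⟨C, m0, hC, fun m hm n hn g T1 hT1 => ?_⟩
  have := (abs_le.1 (H m hm n hn g T1 hT1)).2
  linarith

end NUGC

end
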