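import Pool.Agent.NUGC.InC
import Pool.Agent.NUO.InA

/-!
# The one body factors of a family of groups of spectators

`m = 2M+1`, curve `etaC e1 J m m`, windows `T1 ≥ TW ep e1 m`.

* `exists_cfW`: the majorant `B` of the cutoff with the far factor, `B ≤ W`, `W` depends only on the
  constant of the far factor;
* `dom_fam`, `dom_C`: pointwise domination of the true factors by the pinned ones;
* `exists_shlC`: the majorant `B1` of the cutoff, its sizes, and for every family, every tilt, every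
  configuration: `Shl`, with the size of the cutoff at the end of the window.
-/

set_option autoImplicit false
set_option linter.unusedSectionVars false

open MeasureTheory Set Filter Topology

namespace NUGC

open NUMF
open NUO (Xo ht Par Tb TW excS chgO)
open NUSea.H0 (Inp Gd TG BF cfP hfar aR datO DatC cstF Geo Shl)
open NUSp (DD kfar)

noncomputable section

variable [NUSea.Sea]

/-- **the cutoff on the curve with the far factor**, uniform bound of the majorant -/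
theorem exists_cfW {Cc : ℝ} (hCc : 1 ≤ Cc) : ∃ W : ℝ, 1 ≤ W ∧ ∀ ep : ℝ, 0 < ep → ep ≤ 1 / 100 →
    ∃ C : ℝ, 1 ≤ C ∧ ∃ m0 : ℝ, 1 ≤ m0 ∧ ∀ (m T1 : ℝ) (M : ℕ), m0 ≤ m → 1 ≤ M → (M : ℝ) ≤ m →
    (1 + 2 * ep) * (3 / 8 * Real.log m) ≤ T1 →
    ∃ B B' : ℝ → ℝ, ContDiff ℝ 4 B ∧ (∀ t, HasDerivAt B (B' t) t) ∧ Continuous B' ∧ (∀ t, 0 ≤ B t) ∧
      (∀ t, B t ≤ W) ∧ (∀ t, |B' t| ≤ C) ∧
      Integrable (fun t => M * NUSea.P t * B t) ∧ (∫ t, M * NUSea.P t * B t) ≤ C ∧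
      Integrable (fun t => B t ^ 2 + B' t ^ 2) ∧ (∫ t, B t ^ 2 + B' t ^ 2) ≤ C ∧
      ∀ η : ℝ → ℝ, Continuous η → (∀ t, -(3 / 4 * NUP1.l * ep) ≤ η t) → (∀ t, η t ≤ NUP1.l) →
        ∀ x : ℝ, 0 ≤ x →
        Measurable (fun t => cfP M (4 / 3 * (1 - ep)) η t * hfar Cc T1 x t) ∧ ∀ t,
        0 ≤ cfP M (4 / 3 * (1 - ep)) η t * hfar Cc T1 x t ∧
        cfP M (4 / 3 * (1 - ep)) η t * hfar Cc T1 x t ≤ Real.exp (B t) ∧
        cfP M (4 / 3 * (1 - ep)) η t * hfar Cc T1 x t ≤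
          (2 + Cc) * Real.exp (37 / 20 * x) * Real.exp (49 / 20 * T1) *
            Real.exp (-(49 / 20) * |t|) := by
  obtain ⟨C2, hC2, hF⟩ := NUSea.H0.exists_far hCc
  refine ⟨1 + C2, by linarith, fun ep h0 h1 => ?_⟩
  obtain ⟨C1, hC1, hN⟩ := NUSea.H0.exists_cfP h0 h1
  obtain ⟨m0, hm0, hnum⟩ := NUSea.H0.far_num (ep := ep) (C := C1) h0 h1
  refine ⟨2 * C1 + 2 * C2 + 1, by linarith, max m0 (Real.exp 3), hm0.trans (le_max_left _ _), ?_⟩
  intro m T1 M hm hM hMm hT1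
  have hmm := (le_max_left m0 (Real.exp 3)).trans hm
  have hL : 3 ≤ Real.log m := by
    have h2 := (le_max_right m0 (Real.exp 3)).trans hm
    rw [Real.le_log_iff_exp_le (by linarith)]
    exact h2
  have hT : 1 ≤ T1 := by nlinarith
  obtain ⟨n1, n2⟩ := hnum m M T1 hmm (Nat.cast_nonneg _) hMm hT1 (by linarith)
  obtain ⟨B, B', g1, g2, g3, g4, g5, g6, g7, g8, g9, g10, g11⟩ := hN M hM
  obtain ⟨b, b', k1, k2, k3, k4, k5, k6, k7, k8, k9, k10⟩ := hF T1 hT
  obtain ⟨k91, k92⟩ := k9 M (Nat.cast_nonneg _) n2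
  have hB' : B' = deriv B := funext fun t => (g2 t).deriv.symm
  have hb' : b' = deriv b := funext fun t => (k2 t).deriv.symm
  have hBc' : Continuous B' := by
    rw [hB']
    exact g1.continuous_deriv (by norm_num)
  have hbc' : Continuous b' := by
    rw [hb']
    exact k1.continuous_deriv (by norm_num)
  have hB1 : ∀ t, |B' t| ≤ C1 := fun t => by
    have h2 := g5 1 (by norm_num) t
    rw [iteratedDeriv_one, ← hB'] at h2
    exact h2
  have hsq : ∀ t, (B t + b t) ^ 2 + (B' t + b' t) ^ 2 ≤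
      2 * (B t ^ 2 + B' t ^ 2) + 2 * (b t ^ 2 + b' t ^ 2) := fun t => by
    nlinarith [sq_nonneg (B t - b t), sq_nonneg (B' t - b' t)]
  have hI : Integrable fun t => 2 * (B t ^ 2 + B' t ^ 2) + 2 * (b t ^ 2 + b' t ^ 2) :=
    (g9.const_mul 2).add (k7.const_mul 2)
  have hcont : Continuous fun t => (B t + b t) ^ 2 + (B' t + b' t) ^ 2 :=
    ((g1.continuous.add k1.continuous).pow 2).add ((hBc'.add hbc').pow 2)
  have hI2 : Integrable fun t => (B t + b t) ^ 2 + (B' t + b' t) ^ 2 := by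
    refine hI.mono' hcont.aestronglyMeasurable (ae_of_all _ fun t => ?_)
    rw [Real.norm_eq_abs, abs_of_nonneg (by positivity)]
    exact hsq t
  have hMP : (fun t => (M : ℝ) * NUSea.P t * (B t + b t)) =
      fun t => (M : ℝ) * NUSea.P t * B t + M * NUSea.P t * b t := funext fun t => by ring
  refine ⟨fun t => B t + b t, fun t => B' t + b' t, g1.add k1, fun t => (g2 t).add (k2 t),
    hBc'.add hbc', fun t => add_nonneg (g3 t) (k3 t), ?_, ?_, ?_, ?_, hI2, ?_, ?_⟩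
  · intro t
    have e1 := g4 t
    have e2 := k4 t
    show B t + b t ≤ _
    linarith
  · intro t
    have e1 := hB1 t
    have e2 := k5 t
    refine (abs_add_le _ _).trans ?_
    linarith
  · rw [hMP]
    exact g7.add k91
  · rw [hMP, integral_add g7 k91]
    linarith
  · calc ∫ t, (B t + b t) ^ 2 + (B' t + b' t) ^ 2 ≤
          ∫ t, (2 * (B t ^ 2 + B' t ^ 2) + 2 * (b t ^ 2 + b' t ^ 2)) := integral_mono hI2 hI hsq
      _ = 2 * (∫ t, B t ^ 2 + B' t ^ 2) + 2 * ∫ t, b t ^ 2 + b' t ^ 2 := by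
          rw [integral_add (g9.const_mul 2) (k7.const_mul 2), integral_const_mul, integral_const_mul]
      _ ≤ _ := by linarith
  · intro η hηc hη hη' x hx
    have hcf := g11 η hη hη'
    refine ⟨(NUSea.H0.cfP_meas M _ hηc).mul (NUSea.H0.hfar_meas Cc T1 x), fun t => ?_⟩
    obtain ⟨e1, e2⟩ := k10 (cf := cfP M (4 / 3 * (1 - ep)) η) (B := B) (a := 8 / 3 * (1 - ep))
      (D := C1 * M) (x := x) (by linarith) hx (fun t => NUSea.H0.cfP_nonneg _ _ _ t) g3
      (fun t => (hcf t).1) (fun t => (hcf t).2.2) (fun t => (hcf t).2.1) n1 t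
    exact ⟨mul_nonneg (NUSea.H0.cfP_nonneg _ _ _ t) (NUSea.H0.hfar_nonneg (by linarith) t), e1, e2⟩

/-- the far factor with excess `0` decreases in the end of the window -/
theorem hfar_anti {Cc T T1 : ℝ} (hCc : 1 ≤ Cc) (h : T ≤ T1) (t : ℝ) :
    hfar Cc T1 0 t ≤ hfar Cc T 0 t := by
  unfold hfar
  split_ifs with h1 h2 h2
  · exact le_rfl
  · rw [min_eq_right (by linarith), mul_zero, Real.exp_zero, mul_one]
    exact hCc
  · exact absurd (h2.trans h) h1
  · rw [min_eq_right (by linarith), min_eq_right (by linarith)]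

/-! ### domination -/

variable {G : ℕ}

/-- **pointwise domination of the true factors** -/
theorem dom_fam {g : Fin G → Gd} {T1 x : ℝ} (hF : FamOk T1 x g) (hT : 0 ≤ T1) {η : ℝ → ℝ}
    (p q : ℂ) (a : Bool) {t : ℝ} (hη : |η t| < NUMF.l / 5) :
    Real.exp (DD p q (List.ofFn fun i => (g i).G) a (NUAct.zt (NUKer.iD η) t)).re ≤
      Real.exp (cstF T1 g a) * (Real.exp ((DD p q (List.ofFn fun i => (gP T1 g i).G) a
        (NUAct.zt (NUKer.iD η) t)).re + BF T1 g η a t) * hfar (CcF G) T1 x t) := by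
  have h := NUSea.H0.fam_up g p q hT hF.cl hF.sp hF.x0 hF.ex a hη
  have hz : NUAct.zt (NUKer.iD η) t = (t : ℂ) + (η t : ℂ) * Complex.I := rfl
  have hg : (fun i => (gP T1 g i).G) = fun i => ((g i).pin T1).G := rfl
  rw [hz, hg]
  by_cases ht : |t| ≤ T1
  · rw [if_pos ht, max_eq_right (by linarith), min_eq_left hF.x0] at h
    rw [NUSea.H0.hfar_in ht, mul_one, ← Real.exp_add]
    exact Real.exp_le_exp.2 (by linarith)
  · rw [if_neg ht, max_eq_left (by linarith)] at h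
    rw [NUSea.H0.hfar_out (not_le.1 ht), CcF, ← Real.exp_add, ← Real.exp_add, ← Real.exp_add]
    exact Real.exp_le_exp.2 (by linarith)

/-- **domination with the cutoff**, in the form of `NUBR.Z1c_le_obC` -/
theorem dom_C {g : Fin G → Gd} {T1 x : ℝ} (hF : FamOk T1 x g) (hT : 0 ≤ T1) {ep e1 J : ℝ}
    {m M : ℕ} (p q : ℂ) (a : Bool) {t : ℝ} (hη : |etaC e1 J m m t| < NUMF.l / 5) :
    Real.exp (DD p q (List.ofFn fun i => (g i).G) a (NUAct.zt (NUKer.iD (etaC e1 J m m)) t)).re *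
        ‖phP M (4 / 3 * (1 - ep)) (NUO.pA (etaC e1 J m m) t)‖ ≤
      Real.exp (cstF T1 g a) * (Real.exp ((DD p q (List.ofFn fun i => (gP T1 g i).G) a
        (NUAct.zt (NUKer.iD (etaC e1 J m m)) t)).re + BF T1 g (etaC e1 J m m) a t) *
          cfC ep e1 J m M G T1 x t) := by
  refine (mul_le_mul_of_nonneg_right (dom_fam hF hT p q a hη) (norm_nonneg _)).trans
    (le_of_eq ?_)
  unfold cfC cfP
  ring

/-! ### the field `shl` -/

/-- decay constant of the cutoff with the far factor -/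
def DCf (ep e1 : ℝ) (m G : ℕ) (T1 x : ℝ) : ℝ :=
  if x = 0 then (2 + CcF G) * Real.exp (49 / 20 * TW ep e1 m)
  else (2 + CcF G) * Real.exp (37 / 20 * x) * Real.exp (49 / 20 * T1)

theorem DCf_nonneg (ep e1 : ℝ) (m G : ℕ) (T1 x : ℝ) : 0 ≤ DCf ep e1 m G T1 x := by
  have := CcF_one G
  unfold DCf
  split_ifs <;> positivity

theorem DCf_le {ep e1 : ℝ} {m : ℕ} (G : ℕ) {T1 : ℝ} (x : ℝ) (h : TW ep e1 m ≤ T1) :
    DCf ep e1 m G T1 x * Real.exp (-(49 / 20 * T1)) ≤ SC G x := by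
  have := CcF_one G
  unfold DCf SC
  split_ifs with hx
  · rw [hx, mul_zero, Real.exp_zero, mul_one, mul_assoc, ← Real.exp_add]
    have h2 : Real.exp (49 / 20 * TW ep e1 m + -(49 / 20 * T1)) ≤ 1 := by
      rw [Real.exp_le_one_iff]
      linarith
    exact mul_le_of_le_one_right (by linarith) h2
  · rw [mul_assoc, ← Real.exp_add, add_neg_cancel, Real.exp_zero, mul_one]

theorem DCf_le0 {ep e1 : ℝ} {m : ℕ} (G : ℕ) (T1 : ℝ) {x : ℝ} (hx : x = 0) :
    DCf ep e1 m G T1 x * Real.exp (-(49 / 20 * TW ep e1 m)) ≤ SC G x := by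
  unfold DCf SC
  rw [if_pos hx, hx, mul_zero, Real.exp_zero, mul_one, mul_assoc, ← Real.exp_add, add_neg_cancel,
    Real.exp_zero, mul_one]

/-- **the field `shl` of `DatGC`**: the majorant `B1` of the cutoff, its sizes, and for every family,
every tilt, every configuration the one body factors -/
theorem exists_shlC (G : ℕ) : ∃ W : ℝ, 1 ≤ W ∧ ∀ ep : ℝ, 0 < ep → ep ≤ 1 / 100 →
    ∀ e1 : ℝ, 0 < e1 → e1 ≤ 1 / 100 → ∀ J : ℝ, 0 ≤ J →
    ∃ C : ℝ, 1 ≤ C ∧ ∃ m0 : ℕ, 1 ≤ m0 ∧ ∀ M : ℕ, m0 ≤ M → ∀ m : ℕ, m = 2 * M + 1 →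
    0 ≤ TW ep e1 m ∧ (∀ t, 0 ≤ etaC e1 J m m t) ∧ (∀ t, |etaC e1 J m m t| ≤ 1 / 40) ∧
    (∀ t, |etaC e1 J m m t| < NUMF.l / 5) ∧
    ∀ T1 : ℝ, TW ep e1 m ≤ T1 →
    ∃ B B' : ℝ → ℝ, ContDiff ℝ 4 B ∧ (∀ t, HasDerivAt B (B' t) t) ∧ Continuous B' ∧
      (∀ t, 0 ≤ B t) ∧ (∀ t, B t ≤ W) ∧ (∀ t, |B' t| ≤ C) ∧
      Integrable (fun t => (m : ℝ) * NUSea.P t * B t) ∧ (∫ t, (m : ℝ) * NUSea.P t * B t) ≤ C ∧
      Integrable (fun t => B t ^ 2 + B' t ^ 2) ∧ (∫ t, B t ^ 2 + B' t ^ 2) ≤ C ∧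
      ∀ (x : ℝ) (g : Fin G → Gd), FamOk T1 x g → ∀ (b' : ℝ) (P : Par) (r : ℕ) (O : Fin r → Xo)
        (Cκ : ℝ), Geo (datO (inC e1 J m T1 b' g B) P O) Cκ →
        Shl (datO (inC e1 J m T1 b' g B) P O)
          (aR (datO (inC e1 J m T1 b' g B) P O) (raC e1 J m T1 b' g) true)
          (aR (datO (inC e1 J m T1 b' g B) P O) (raC e1 J m T1 b' g) false)
          (cfC ep e1 J m M G T1 x) B (DCf ep e1 m G T1 x) (49 / 20) := by
  obtain ⟨W, hW, HW⟩ := exists_cfW (CcF_one G)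
  refine ⟨W, hW, fun ep h0 h1 e1 he he1 J hJ => ?_⟩
  obtain ⟨C, hC, mr, hmr, H⟩ := HW ep h0 h1
  obtain ⟨Cc, hCc, m1, hm1, Hc⟩ := exists_curC (x := 1 / 40) he he1 hJ (by norm_num)
  refine ⟨3 * C, by linarith, max m1 ⌈mr⌉₊, hm1.trans (le_max_left _ _), fun M hM m hmM => ?_⟩
  have hMm' : M ≤ m := by omega
  have a1 : m1 ≤ m := ((le_max_left _ _).trans hM).trans hMm'
  have a2 : ⌈mr⌉₊ ≤ m := ((le_max_right _ _).trans hM).trans hMm'
  have a4 : mr ≤ m := (Nat.le_ceil mr).trans (by exact_mod_cast a2)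
  have hM1 : 1 ≤ M := hm1.trans ((le_max_left _ _).trans hM)
  have hMm : (M : ℝ) ≤ m := by exact_mod_cast hMm'
  have hm3 : (m : ℝ) ≤ 3 * M := by
    have : m ≤ 3 * M := by omega
    exact_mod_cast this
  obtain ⟨hT20, Hs⟩ := Hc m a1
  obtain ⟨ε, e, hcur, hε0, -, hε⟩ := Hs m (by
    have : (0:ℝ) ≤ m := Nat.cast_nonneg m
    linarith)
  have hlog : 0 ≤ Real.log m := by
    unfold Tb at hT20
    linarith
  have hTW0 : (1 + 2 * ep) * (3 / 8 * Real.log m) ≤ TW ep e1 m := by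
    unfold TW Tb
    nlinarith
  have hTWn : 0 ≤ TW ep e1 m := by
    refine le_trans ?_ hTW0
    positivity
  have hm0 : (0 : ℝ) < m := by
    have : 0 < m := by omega
    exact_mod_cast this
  have hη0 : ∀ t, 0 ≤ etaC e1 J m m t := fun t => etaC_nonneg he1 hJ hT20 hm0.le t
  have hηc : Continuous (etaC e1 J m m) := (etaC_contDiff e1 J m m 1).continuous
  have hηε : ∀ t, |etaC e1 J m m t| ≤ 1 / 40 := fun t =>
    ((NU42.norm_iD (etaC e1 J m m) t).symm.le.trans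
      ((hcur.oc.le t).trans (hcur.le t))).trans hε
  have hl : NUP1.l = NUMF.l := rfl
  have hl40 : (1 : ℝ) / 40 < NUMF.l / 5 := by
    unfold NUMF.l
    linarith [Real.pi_gt_d2]
  have hlp := NUMF.l_pos
  have hη1 : ∀ t, -(3 / 4 * NUP1.l * ep) ≤ etaC e1 J m m t := fun t => by
    have h2 := hη0 t
    have : 0 ≤ 3 / 4 * NUP1.l * ep := by
      rw [hl]
      positivity
    linarith
  have hη2 : ∀ t, etaC e1 J m m t ≤ NUP1.l := fun t => by
    have h2 := (le_abs_self _).trans (hηε t)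
    rw [hl]
    linarith
  refine ⟨hTWn, hη0, hηε, fun t => (hηε t).trans_lt hl40, fun T1 hT1 => ?_⟩
  obtain ⟨B, B', g1, g2, g3, g4, g5, g7, g8, g9, g10, g11, g12⟩ :=
    H m T1 M a4 hM1 hMm (hTW0.trans hT1)
  obtain ⟨_, _, _, _, _, _, _, _, _, _, _, _, g13⟩ := H m (TW ep e1 m) M a4 hM1 hMm hTW0
  have hP : ∀ t, 0 ≤ (m : ℝ) * NUSea.P t * B t := fun t =>
    mul_nonneg (mul_nonneg hm0.le (NUSea.P_pos t).le) (g4 t)
  have hle : ∀ t, (m : ℝ) * NUSea.P t * B t ≤ 3 * (M * NUSea.P t * B t) := fun t => by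
    have h2 : 0 ≤ NUSea.P t * B t := mul_nonneg (NUSea.P_pos t).le (g4 t)
    calc (m : ℝ) * NUSea.P t * B t = m * (NUSea.P t * B t) := by ring
      _ ≤ 3 * M * (NUSea.P t * B t) := mul_le_mul_of_nonneg_right hm3 h2
      _ = _ := by ring
  have hint : Integrable fun t => (m : ℝ) * NUSea.P t * B t := by
    refine (g8.const_mul 3).mono' ?_ (ae_of_all _ fun t => ?_)
    · have hPc : Continuous (NUSea.P : ℝ → ℝ) := NUSea.P_cont
      exact ((continuous_const.mul hPc).mul g1.continuous).aestronglyMeasurable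
    · rw [Real.norm_eq_abs, abs_of_nonneg (hP t)]
      exact hle t
  refine ⟨B, B', g1, g2, g3, g4, g5, fun t => (g7 t).trans (by linarith),
    hint, ?_, g10, g11.trans (by linarith), fun x g hF b' P r O Cκ hG => ?_⟩
  · calc ∫ t, (m : ℝ) * NUSea.P t * B t ≤ ∫ t, 3 * (M * NUSea.P t * B t) :=
          integral_mono hint (g8.const_mul 3) hle
      _ = 3 * ∫ t, (M : ℝ) * NUSea.P t * B t := integral_const_mul _ _
      _ ≤ 3 * C := by linarith
  · obtain ⟨k1, k2⟩ := g12 _ hηc hη1 hη2 x hF.x0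
    refine NUSea.H0.shl_gen hG (DCf_nonneg _ _ _ _ _ _) (by norm_num) k1
      g1.continuous.measurable (fun t => (k2 t).1) g4 (fun t => (k2 t).2.1) (fun t => ?_)
      (fun a => ?_) fun a t => ?_
    · unfold DCf
      split_ifs with hx
      · obtain ⟨-, k4⟩ := g13 _ hηc hη1 hη2 0 le_rfl
        have k5 := (k4 t).2.2
        rw [mul_zero, Real.exp_zero, mul_one] at k5
        rw [hx]
        exact (mul_le_mul_of_nonneg_left (hfar_anti (CcF_one G) hT1 t)
          (NUSea.H0.cfP_nonneg _ _ _ _)).trans k5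
      · exact (k2 t).2.2
    · have hd : Continuous (BF T1 g (etaC e1 J m m) a) :=
        continuous_iff_continuousAt.2 fun t => (NUSea.H0.hasDerivAt_BF g T1 a
          ((hηε t).trans_lt hl40) (etaC_hasDeriv e1 J m m t)).continuousAt
      exact (hd.sub continuous_const).measurable
    · have h2 : (datO (inC e1 J m T1 b' g B) P O).E a t =
          NUH0.slO O a t + (B t + BF T1 g (etaC e1 J m m) a t - b' / 2) := rfl
      have h3 : raC e1 J m T1 b' g a t = BF T1 g (etaC e1 J m m) a t - b' / 2 := rfl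
      rw [h2, h3]
      linarith [NUO.slO_nonneg O a t]

end

end NUGC
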