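import Pool.Agent.NUGC.S4C
import Pool.Agent.NUGC.ShlF
import Pool.Agent.NUGC.ExD
import Pool.Agent.NUGC.ExpS
import Pool.Agent.NUGC.CuOkC
import Pool.Agent.NUGC.SeaLin
import Pool.Agent.NUBR.Z1C
import Pool.Agent.NUS4C.RowC
import Pool.Agent.NUSea.H0.InstC

/-!
# TARGET-C: from the gas with the data of a configuration to `CrudeR`, `SharpR`

`m = 2 M + 1`, sea `seaH`.

* `gas_z1`: from the gas bound (53's form) to the gas `Z1c` of the one body data `obF`, with the tilt;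
* `exists_enI`: the exponent `En` of the data `inC`;
* `red_step`: one configuration;
* **`crudeR_of`, `sharpR_of`**: `DatGC` gives `CrudeR`, `SharpR`.
-/

set_option autoImplicit false
set_option linter.unusedSectionVars false

noncomputable section

open MeasureTheory Finset Filter Topology
open scoped ENNReal

namespace NUGC

open NUO (Xo kd ht Par Tb TW excS chgO PG slkK cons exc)
open NUSea.H0 (Inp Gd TG BF BF1 cstF aR datO DatC SpI)
open NUStabP (enC)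
open NUDispW (win)

attribute [local instance] NUSea.seaH

/-! ### the gas -/

/-- the factors of a group -/
lemma spL_lsG (g : Gd) (a : Bool) (u : ℂ) :
    spL (lsG g) a u = ((NUSp.kG g.c g.rt).map fun x => Ek.f (NUSp.spo g.σ x.1) x.2 g.τ a u).prod := by
  unfold spL lsG
  rw [List.map_map]
  rfl

/-- **base factor and groups on the curve** -/
theorem ThN_spF {n : ℕ} (g : Fin n → Gd) {η : ℝ → ℝ} (a : Bool) {t : ℝ}
    (h : |η t| < NUMF.l / 5) :
    ThN (NUO.pA η t) * spF g a (NUO.pA η t) =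
      Real.exp (NUSp.DD pE qE (List.ofFn fun i => (g i).G) a (NUAct.zt (NUKer.iD η) t)).re := by
  have hl := NUMF.l_pos
  have h1 := ex_DD_pA (fun i => (g i).c) (fun i => (g i).rt) (fun i => (g i).σ) (fun i => (g i).τ) a
    (η := η) (t := t) (by linarith)
  have e1 : spF g a (NUO.pA η t) = ∏ i, ((NUSp.kG (g i).c (g i).rt).map fun x =>
      Ek.f (NUSp.spo (g i).σ x.1) x.2 (g i).τ a (NUO.pA η t)).prod := by
    unfold spF
    exact Finset.prod_congr rfl fun i _ => spL_lsG (g i) a _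
  have e2 : NUAct.zt (NUKer.iD η) t = (t : ℂ) + (η t : ℂ) * Complex.I := by
    unfold NUAct.zt NUKer.iD
    ring
  rw [e1, e2]
  exact h1

lemma spL_nonneg (L : List Spt) (a : Bool) (u : ℂ) : 0 ≤ spL L a u := by
  unfold spL
  refine List.prod_nonneg fun x hx => ?_
  obtain ⟨d, -, rfl⟩ := List.mem_map.1 hx
  exact Ek.f_nonneg _ _ _ _ _

/-- the factors are nonnegative -/
lemma ThN_spF_nonneg {n : ℕ} (g : Fin n → Gd) (a : Bool) (u : ℂ) : 0 ≤ ThN u * spF g a u :=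
  mul_nonneg (ThN_nonneg u) (Finset.prod_nonneg fun _ _ => spL_nonneg _ _ _)

/-- **from the gas bound to `Z1c`**: constant `Q`, exponent `E` -/
theorem gas_z1 {ep e1 J : ℝ} {M : ℕ} {T1 x b' : ℝ} {n : ℕ} {g : Fin n → Gd}
    (hF : FamOk T1 x g) (hT : 0 ≤ T1) {B1 : ℝ → ℝ} (hP : PG (1 / 8) (parC M))
    (hη : ∀ t, |etaC e1 J (2 * M + 1) (2 * M + 1 : ℕ) t| < 1 / 8 * NUMF.l) {r : ℕ}
    {O : Fin r → Xo} {p q : ℕ} {Q E : ℝ} (hQ : 0 < Q)
    (h : ∫⁻ y, ENNReal.ofReal (NUSea.H0.W0 (datO (inC e1 J (2 * M + 1) T1 b' g B1) (parC M) O) p q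
        (aCC e1 J (2 * M + 1) T1 b' g B1 O true) (aCC e1 J (2 * M + 1) T1 b' g B1 O false)
        (cfC ep e1 J (2 * M + 1) M n T1 x) y) ≤
      ENNReal.ofReal ((p.factorial : ℝ) * q.factorial *
        (Q * Real.exp (NUSea.MFs (inC e1 J (2 * M + 1) T1 b' g B1).s p q + E)))) :
    ENNReal.ofReal (Real.exp (-(b' / 2) * ((p : ℝ) + q))) *
      Z1c (obF M (4 / 3 * (1 - ep)) g) (parC M) (etaC e1 J (2 * M + 1) (2 * M + 1 : ℕ))
        (etaC' e1 J (2 * M + 1) (2 * M + 1 : ℕ)) O p q ≤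
      ENNReal.ofReal (Q * Real.exp (NUSea.MF ((2 * M + 1 : ℕ) : ℝ) + E + cstF T1 g true * p +
        cstF T1 g false * q)) := by
  have hl := NUMF.l_pos
  obtain ⟨I, hI⟩ : ∃ I, I = inC e1 J (2 * M + 1) T1 b' g B1 := ⟨_, rfl⟩
  have hs : I.s = ((2 * M + 1 : ℕ) : ℝ) := by rw [hI]; rfl
  have hIη : I.η = etaC e1 J (2 * M + 1) (2 * M + 1 : ℕ) := by rw [hI]; rfl
  have hIη1 : I.η1 = etaC' e1 J (2 * M + 1) (2 * M + 1 : ℕ) := by rw [hI]; rfl
  have hIA : ∀ a z, I.A a z = NUSp.DD pE qE (List.ofFn fun i => (gP T1 g i).G) a z := by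
    intro a z
    rw [hI]
    rfl
  rw [← hI] at h
  have ea : ∀ a, aCC e1 J (2 * M + 1) T1 b' g B1 O a =
      NUBR.aFe (datO I (parC M) O) (fun a t => BF T1 g (etaC e1 J (2 * M + 1) (2 * M + 1 : ℕ)) a t +
        -(b' / 2)) a := by
    intro a
    funext t
    unfold aCC aR NUBR.aFe raC
    rw [hI, sub_eq_add_neg]
  rw [ea true, ea false] at h
  have eQ : ∀ y : ℝ, Q * Real.exp y = Real.exp (Real.log Q + y) := by
    intro y
    rw [Real.exp_add, Real.exp_log hQ]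
  have h' : ∫⁻ y, ENNReal.ofReal (NUSea.H0.W0 (datO I (parC M) O) p q
      (NUBR.aFe (datO I (parC M) O) (fun a t => BF T1 g (etaC e1 J (2 * M + 1) (2 * M + 1 : ℕ)) a t +
        -(b' / 2)) true)
      (NUBR.aFe (datO I (parC M) O) (fun a t => BF T1 g (etaC e1 J (2 * M + 1) (2 * M + 1 : ℕ)) a t +
        -(b' / 2)) false) (cfC ep e1 J (2 * M + 1) M n T1 x) y) ≤
      ENNReal.ofReal ((p.factorial : ℝ) * q.factorial *
        Real.exp (NUSea.MFs I.s p q + (Real.log Q + E))) := by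
    refine h.trans (le_of_eq ?_)
    rw [eQ]
    congr 3
    ring
  have hη2 : ∀ t, |etaC e1 J (2 * M + 1) (2 * M + 1 : ℕ) t| < NUMF.l / 5 := fun t => by
    have := hη t
    linarith
  have hη3 : ∀ t, |etaC e1 J (2 * M + 1) (2 * M + 1 : ℕ) t| < NUMF.l / 2 := fun t => by
    have := hη t
    linarith
  have hrow : ∀ t, Rrow ((M : ℝ) + 1 / 2) (NUO.pA I.η t) = 2 * Real.cos NUP1.l *
      Real.exp (I.s * (NUSea.vc (NUAct.zt (NUKer.iD I.η) t)).re) := by
    intro t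
    rw [hIη, NUS4C.Rrow_pA _ (hη3 t), hs]
    congr 3
    push_cast
    ring
  have key := NUBR.Z1c_le_obC (κ := (M : ℝ) + 1 / 2) (β := 4 / 3 * (1 - ep)) (M := M)
    (g := fun a u => ThN u * spF g a u) (fun a u => ThN_spF_nonneg g a u) (I := I) (P := parC M)
    (δ := 1 / 8) hP (by rw [hIη]; exact hη) (cc := cstF T1 g)
    (e := fun a t => BF T1 g (etaC e1 J (2 * M + 1) (2 * M + 1 : ℕ)) a t)
    (cf := cfC ep e1 J (2 * M + 1) M n T1 x) (c := -(b' / 2)) (E := Real.log Q + E) (O := O)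
    (p := p) (n := q) hrow ?_ h'
  · rw [hIη, hIη1, hs] at key
    refine key.trans (le_of_eq ?_)
    rw [eQ]
    congr 2
    ring
  · intro a t
    rw [hIη, ThN_spF g a (hη2 t), hIA]
    exact dom_C hF hT pE qE a (hη2 t)

/-! ### the exponent -/

/-- the data with the groups -/
theorem spI_inC {e1 J : ℝ} {m : ℕ} {T1 b' : ℝ} {n : ℕ} (g : Fin n → Gd) {B1 : ℝ → ℝ}
    (hB : ContDiff ℝ 1 B1) (hη : ∀ t, |etaC e1 J m m t| < NUMF.l / 5) :
    SpI pE qE (gP T1 g) (inC e1 J m T1 b' g B1) fun a t =>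
      deriv B1 t + BF1 T1 g (etaC e1 J m m) (etaC' e1 J m m) a t where
  hp := by simp [pE]
  hq := by simp [qE]
  him := by simp [pE, qE]
  A _ _ := rfl
  ν := rfl
  τ := rfl
  dB a t := by
    have h1 := (hB.differentiable one_ne_zero t).hasDerivAt
    have h2 := NUSea.H0.hasDerivAt_BF g T1 a (hη t) (etaC_hasDeriv e1 J m m t)
    exact (h1.add h2).sub_const (b' / 2)
  cB a := (hB.continuous_deriv le_rfl).add (NUSea.H0.cont_BF1 g T1 a hη
    (continuous_iff_continuousAt.2 fun t => (etaC_hasDeriv e1 J m m t).continuousAt)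
    (etaC'_cont e1 J m m))

/-- the real potentials against the sea -/
theorem int_B_inC {e1 J : ℝ} {m : ℕ} {T1 b' : ℝ} {n : ℕ} (g : Fin n → Gd) {B1 : ℝ → ℝ}
    {KB : ℝ} (hη : ∀ t, |etaC e1 J m m t| < NUMF.l / 5)
    (hBi : Integrable fun t => (m : ℝ) * NUSea.P t * B1 t)
    (hK : ∀ (a : Bool) (t : ℝ), |BF T1 g (etaC e1 J m m) a t| ≤ KB) :
    (∑ a, ∫ t, (inC e1 J m T1 b' g B1).s * NUSea.P t * (inC e1 J m T1 b' g B1).B a t) =
      2 * (∫ t, (m : ℝ) * NUSea.P t * B1 t) +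
        (∑ a, ∫ t, (m : ℝ) * NUSea.P t * BF T1 g (etaC e1 J m m) a t) - b' * m := by
  have hc : ∀ a, Continuous (BF T1 g (etaC e1 J m m) a) := fun a =>
    continuous_iff_continuousAt.2 fun t =>
      (NUSea.H0.hasDerivAt_BF g T1 a (hη t) (etaC_hasDeriv e1 J m m t)).continuousAt
  have hi : ∀ a, Integrable fun t => (m : ℝ) * NUSea.P t * BF T1 g (etaC e1 J m m) a t := by
    intro a
    refine ((NUSea.H0.P_B_int (hc a) (hK a)).const_mul (m : ℝ)).congr (Eventually.of_forall fun t => ?_)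
    simp only
    ring
  have h1 : ∀ a, (∫ t, (inC e1 J m T1 b' g B1).s * NUSea.P t * (inC e1 J m T1 b' g B1).B a t) =
      (∫ t, (m : ℝ) * NUSea.P t * B1 t) +
        (∫ t, (m : ℝ) * NUSea.P t * BF T1 g (etaC e1 J m m) a t) - b' / 2 * m := by
    intro a
    have h2 : ∀ t, (inC e1 J m T1 b' g B1).s * NUSea.P t * (inC e1 J m T1 b' g B1).B a t =
        ((m : ℝ) * NUSea.P t * B1 t + (m : ℝ) * NUSea.P t * BF T1 g (etaC e1 J m m) a t) -
          (b' / 2 * m) * NUSea.P t := by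
      intro t
      show (m : ℝ) * NUSea.P t * (B1 t + BF T1 g (etaC e1 J m m) a t - b' / 2) = _
      ring
    simp_rw [h2]
    have h3 : Integrable fun t => (m : ℝ) * NUSea.P t * B1 t +
        (m : ℝ) * NUSea.P t * BF T1 g (etaC e1 J m m) a t := hBi.add (hi a)
    rw [integral_sub h3 (NUSea.P_int.const_mul _), integral_add hBi (hi a), integral_const_mul,
      NUSea.P_mass, mul_one]
  rw [Fintype.sum_bool, h1, h1, Fintype.sum_bool]
  ring

/-- **the exponent `En` of the data of TARGET-C** -/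
theorem exists_enI {W : ℝ} (hW : 0 ≤ W) : ∃ K0 : ℝ, 0 ≤ K0 ∧ ∀ kap : ℝ, 0 < kap →
    ∀ ep : ℝ, 0 < ep → ep ≤ 1 / 100 → ∀ e1 : ℝ, 0 < e1 → e1 ≤ 1 / 100 → ∀ J : ℝ, 0 ≤ J →
    ∀ (k : ℕ) (κ C : ℝ), 0 < κ → ∃ (Cc : ℝ) (m0 : ℕ), ∀ m ≥ m0, ∀ b' : ℝ, |b'| ≤ 1 →
    ∀ n : ℕ, n ≤ 2 → ∀ (g : Fin n → Gd) (T1 : ℝ), TW ep e1 m ≤ T1 →
    ∀ B1 : ℝ → ℝ, ContDiff ℝ 1 B1 → (∀ t, 0 ≤ B1 t) → (∀ t, B1 t ≤ W) →
    Integrable (fun t => (m : ℝ) * NUSea.P t * B1 t) → (∫ t, (m : ℝ) * NUSea.P t * B1 t) ≤ C →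
    ∀ (r : ℕ) (O : Fin r → Xo), ∑ i, NUO.rr (NUSea.O.par0 m) O i ≤ 1 →
    (∃ (dl ε M : ℝ) (e : ℝ → ℝ), NUSea.H0.IOk dl ε M ((1 - e1) * Tb (Real.log m)) e
      (inC e1 J m T1 b' g B1) (NUSea.O.par0 m) r ∧
      ε ≤ (m : ℝ) ^ (-κ) ∧ M ≤ Real.log m ^ k ∧
      dl ≤ 1 / (6000 * ((r : ℝ) + 1) ^ 2) + 3 * (m : ℝ) ^ (-κ)) →
      (datO (inC e1 J m T1 b' g B1) (NUSea.O.par0 m) O).En ≤
        (∑ i, ((m : ℝ) * mfH (cons (NUSea.O.par0 m) O i) +
          (m : ℝ) * slkK NUMFH.slkh (kd (O i)) (ht (O i)) -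
          2 * Real.pi * NUO.wK (kd (O i)) * NUCUR.cur e1 (Tb (Real.log m)) J (ht (O i)))) + enC O +
        (∑ i, ∑ d, ES (obSr (NUSea.O.par0 m).jL (NUSea.O.par0 m).e (O i)) (TG (gP T1 g) d)) +
        1 / 2 * (∑ d, ∑ d', ES (TG (gP T1 g) d) (TG (gP T1 g) d')) +
        (m : ℝ) * (∑ i, NUPref.MF (g i).c (g i).w) - b' * m - (1 - e1) * Tb (Real.log m) +
        K0 * r + kap * win univ (fun i => ht (O i)) + Cc := by
  obtain ⟨KB, hKB, HBF⟩ := NUSea.H0.exists_BF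
  obtain ⟨K0, hK0, H⟩ := exists_enS (WB := W + KB * 2 + 1 / 2) (by positivity)
  refine ⟨K0, hK0, ?_⟩
  intro kap hkap ep hep hep1 e1 he he1 J hJ k κ C hκ
  obtain ⟨Cc, m1, H⟩ := H kap hkap κ hκ k
  obtain ⟨Cb, m2, HC⟩ := cuOkC he he1 hJ
  obtain ⟨CS, m3, hCS, HS⟩ := exists_seaLin hep hep1 he he1 hJ
  obtain ⟨C4, -, m4, -, Hcur⟩ := exists_curC he he1 hJ (x := 1 / 40) (by norm_num)
  refine ⟨Cc + Cb + CS + 2 * C, max (max m1 m2) (max m3 m4), ?_⟩
  intro m hm b' hb' n hn g T1 hT1 B1 hB hB0 hB1 hBi hBC r O hrr hok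
  have hm1 : m1 ≤ m := ((le_max_left _ _).trans (le_max_left _ _)).trans hm
  have hm2 : m2 ≤ m := ((le_max_right _ _).trans (le_max_left _ _)).trans hm
  have hm3 : m3 ≤ m := ((le_max_left _ _).trans (le_max_right _ _)).trans hm
  have hm4 : m4 ≤ m := ((le_max_right _ _).trans (le_max_right _ _)).trans hm
  have hm0 : (0 : ℝ) ≤ m := Nat.cast_nonneg m
  obtain ⟨hT20, Hcur⟩ := Hcur m hm4
  obtain ⟨ε, e, hcur, -, -, hε⟩ := Hcur m (by linarith)
  have hder := etaC_hasDeriv e1 J m (m : ℝ)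
  have hl := NUMF.l_pos
  have hl5 : 1 / 40 < NUMF.l / 5 := by
    have := Real.pi_gt_three
    unfold NUMF.l
    linarith
  have n1 : ∀ t, |etaC e1 J m m t| ≤ 1 / 40 := by
    intro t
    have h1 := hcur.oc.le t
    have h2 : ‖NUKer.iD (etaC e1 J m m) t‖ = |etaC e1 J m m t| := by
      unfold NUKer.iD
      simp
    rw [h2] at h1
    exact h1.trans ((hcur.le t).trans hε)
  have n2 : ∀ t, |etaC' e1 J m m t| ≤ 1 := by
    intro t
    have h1 := (hcur.oc1 hder).le t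
    have h2 : ‖NUKer.iD (etaC' e1 J m m) t‖ = |etaC' e1 J m m t| := by
      unfold NUKer.iD
      simp
    rw [h2] at h1
    linarith [hcur.le t]
  have n3 : ∀ t, |etaC e1 J m m t| < NUMF.l / 5 := fun t => (n1 t).trans_lt hl5
  have hTW0 : 0 ≤ TW ep e1 m := by
    unfold TW
    have : 0 ≤ 1 + 2 * e1 + 2 * ep := by linarith
    exact mul_nonneg this (by linarith)
  have hT0 : 0 ≤ T1 := hTW0.trans hT1
  obtain ⟨-, -, hBF, -⟩ := HBF n g T1 (etaC e1 J m m) (etaC' e1 J m m) hT0 n1 n2 hder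
    (etaC'_cont e1 J m m)
  have hBF2 : ∀ (a : Bool) (t : ℝ), |BF T1 g (etaC e1 J m m) a t| ≤ KB * 2 := by
    intro a t
    refine (hBF a t).trans (mul_le_mul_of_nonneg_left ?_ (by linarith))
    have h1 : ∑ i, Real.exp (-2 * |t - NUSp.pin T1 (g i).τ|) ≤ ∑ _i : Fin n, (1 : ℝ) :=
      Finset.sum_le_sum fun i _ => Real.exp_le_one_iff.2 (by
        have := abs_nonneg (t - NUSp.pin T1 (g i).τ)
        linarith)
    refine h1.trans ?_
    rw [Finset.sum_const, card_univ, Fintype.card_fin, nsmul_eq_mul, mul_one]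
    exact_mod_cast hn
  have hS := spI_inC (T1 := T1) (b' := b') g hB n3
  have hBb : ∀ a t, |(inC e1 J m T1 b' g B1).B a t| ≤ W + KB * 2 + 1 / 2 := by
    intro a t
    show |B1 t + BF T1 g (etaC e1 J m m) a t - b' / 2| ≤ _
    have h1 := hB0 t
    have h2 := hB1 t
    have h3 := abs_le.1 (hBF2 a t)
    have h4 := abs_le.1 hb'
    rw [abs_le]
    constructor <;> linarith [h3.1, h3.2, h4.1, h4.2]
  have h1 := H m hm1 e1 he he1 J Cb n hn (gP T1 g) pE qE (inC e1 J m T1 b' g B1) _ hS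
    (by simp [pE]) hBb (HC m hm2 m (by linarith)) (NUSea.O.par0 m) r O rfl rfl hrr hok
  rw [int_B_inC g n3 hBi hBF2] at h1
  have h2 := HS m hm3 n hn g T1 hT1
  have h3 : (∑ i, oneH (inC e1 J m T1 b' g B1) (NUSea.O.par0 m) O
      (NUCUR.cur e1 (Tb (Real.log m)) J) i) =
      ∑ i, ((m : ℝ) * mfH (cons (NUSea.O.par0 m) O i) +
          (m : ℝ) * slkK NUMFH.slkh (kd (O i)) (ht (O i)) -
          2 * Real.pi * NUO.wK (kd (O i)) * NUCUR.cur e1 (Tb (Real.log m)) J (ht (O i))) := by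
    refine Finset.sum_congr rfl fun i _ => ?_
    unfold oneH
    rw [slkC_eq]
    rfl
  rw [h3] at h1
  have h4 : (∑ i, seaG (inC e1 J m T1 b' g B1).s (gP T1 g i)) = ∑ i, seaG m (gP T1 g i) := rfl
  rw [h4] at h1
  linarith

/-! ### one configuration -/

/-- the mean field value of the sea -/
lemma MF_seaH (M : ℕ) : NUSea.MF ((2 * M + 1 : ℕ) : ℝ) =
    (2 * (M : ℝ) + 1) ^ 2 * ∫ t, NUMFH.Pd t * NUMFH.vd t := by
  unfold NUSea.MF
  rw [NUSea.P_seaH, NUSea.v_seaH]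
  push_cast
  ring

lemma chgx_le2 (s : Bool) (x : Xo) : NUO.chg s x ≤ 2 := by
  rcases x with ⟨⟨a, K⟩, t, α⟩
  cases s <;> cases a <;> cases K <;> simp [NUO.chg, NUO.sp]

lemma chgOx_le2 {r : ℕ} (O : Fin r → Xo) (s : Bool) : (chgO O s : ℝ) ≤ 2 * r := by
  have h : chgO O s ≤ 2 * r := by
    unfold NUO.chgO
    refine (Finset.sum_le_sum fun i _ => chgx_le2 s (O i)).trans ?_
    simp [mul_comm]
  exact_mod_cast h

/-- the constant of the far factors -/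
lemma CcF_mono {n : ℕ} (hn : n ≤ 2) : CcF n ≤ CcF 2 := by
  have h1 : (n : ℝ) ≤ (2 : ℕ) := by exact_mod_cast hn
  unfold CcF
  exact Real.exp_le_exp.2 (mul_le_mul_of_nonneg_right h1 (NUSp.kfar_nonneg _ _))

/-- the exponent of the objects, split -/
lemma confEC_split {M : ℕ} {e1 J T' K kap : ℝ} {r : ℕ} (O : Fin r → Xo) :
    confEC M e1 J T' K kap O =
      (∑ i, (((2 * M + 1 : ℕ) : ℝ) * mfH (cons (parC M) O i) +
        ((2 * M + 1 : ℕ) : ℝ) * slkK NUMFH.slkh (kd (O i)) (ht (O i)) -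
        2 * Real.pi * NUO.wK (kd (O i)) * NUCUR.cur e1 (Tb (Lm M)) J (ht (O i)))) +
      5 / 2 * excS T' O + K * r + enC O + kap * win univ (fun i => ht (O i)) := by
  unfold confEC oneEC excS exc
  rw [Finset.sum_add_distrib, ← Finset.mul_sum]

/-- the tilt -/
lemma tilt_num {b' ν m N aX aY cX cY r : ℝ} (hb' : |b'| ≤ 1) (hν : |ν - m| ≤ 2) (hax : aX ≤ 3)
    (hay : aY ≤ 3) (hax0 : 0 ≤ aX) (hay0 : 0 ≤ aY) (h1 : 0 ≤ cX) (h2 : 0 ≤ cY) (h3 : cX ≤ 2 * r)
    (h4 : cY ≤ 2 * r) :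
    b' * (ν - N) + b' / 2 * ((N + aX - cX) + (N + aY - cY)) - b' * m ≤ 5 + 2 * r := by
  have h5 : b' * (ν - N) + b' / 2 * ((N + aX - cX) + (N + aY - cY)) - b' * m =
      b' * (ν - m) + b' / 2 * (aX + aY) + -(b' / 2) * (cX + cY) := by ring
  have h6 : |b' * (ν - m)| ≤ 1 * 2 := by
    rw [abs_mul]
    exact mul_le_mul hb' hν (abs_nonneg _) zero_le_one
  have h7 := le_abs_self (b' * (ν - m))
  obtain ⟨h8, h9⟩ := abs_le.1 hb'
  have h10 : b' / 2 * (aX + aY) ≤ 1 / 2 * (aX + aY) :=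
    mul_le_mul_of_nonneg_right (by linarith) (by linarith)
  have h11 : -(b' / 2) * (cX + cY) ≤ 1 / 2 * (cX + cY) :=
    mul_le_mul_of_nonneg_right (by linarith) (by linarith)
  rw [h5]
  linarith

/-- **one configuration**: from the bound of the gas to the bound of `lhsC`; `α` the power of `m` in
the bound of the gas, `x'` the excess in the cutoff -/
theorem red_step {K0 KG kap Cc Cst α S : ℝ} {ep e1 J : ℝ} {M : ℕ} {n : ℕ} {g : Fin n → Gd} {aX aY : ℕ} {ν : ℝ} {N : ℕ} {b' : ℝ} {r : ℕ} {O : Fin r → Xo}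
    {E x x' : ℝ} (hb' : |b'| ≤ 1) (hR : RgC ep e1 M g aX aY ν N O E x)
    (hF : FamOk (T1C ep e1 M O E) x' g) (hT : 0 ≤ T1C ep e1 M O E) {B1 : ℝ → ℝ}
    (hP : PG (1 / 8) (parC M))
    (hη : ∀ t, |etaC e1 J (2 * M + 1) (2 * M + 1 : ℕ) t| < 1 / 8 * NUMF.l) (hCst : 0 ≤ Cst)
    (hS0 : 0 ≤ S) (hS : S ≤ (2 + CcF 2) * Real.exp (37 / 20 * x))
    (hEn : (datO (inC e1 J (2 * M + 1) (T1C ep e1 M O E) b' g B1) (parC M) O).En ≤
        (∑ i, (((2 * M + 1 : ℕ) : ℝ) * mfH (cons (parC M) O i) +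
          ((2 * M + 1 : ℕ) : ℝ) * slkK NUMFH.slkh (kd (O i)) (ht (O i)) -
          2 * Real.pi * NUO.wK (kd (O i)) * NUCUR.cur e1 (Tb (Lm M)) J (ht (O i)))) + enC O +
        (∑ i, ∑ d, ES (obSr (parC M).jL (parC M).e (O i)) (TG (gP (T1C ep e1 M O E) g) d)) +
        1 / 2 * (∑ d, ∑ d', ES (TG (gP (T1C ep e1 M O E) g) d) (TG (gP (T1C ep e1 M O E) g) d')) +
        ((2 * M + 1 : ℕ) : ℝ) * (∑ i, NUPref.MF (g i).c (g i).w) - b' * (2 * M + 1 : ℕ) -
        (1 - e1) * Tb (Lm M) + K0 * r + kap / 2 * win univ (fun i => ht (O i)) + Cc)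
    (h : ∫⁻ y, ENNReal.ofReal (NUSea.H0.W0
        (datO (inC e1 J (2 * M + 1) (T1C ep e1 M O E) b' g B1) (parC M) O)
        (N + aX - chgO O true) (N + aY - chgO O false)
        (aCC e1 J (2 * M + 1) (T1C ep e1 M O E) b' g B1 O true)
        (aCC e1 J (2 * M + 1) (T1C ep e1 M O E) b' g B1 O false)
        (cfC ep e1 J (2 * M + 1) M n (T1C ep e1 M O E) x') y) ≤
      ENNReal.ofReal (((N + aX - chgO O true).factorial : ℝ) * (N + aY - chgO O false).factorial *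
        (Cst * ((2 * M + 1 : ℕ) : ℝ) ^ α * (1 + S) *
          Real.exp (NUSea.H0.confC ep e1 (2 * M + 1)
            (inC e1 J (2 * M + 1) (T1C ep e1 M O E) b' g B1) (parC M)
            (N + aX - chgO O true) (N + aY - chgO O false) KG (kap / 2) O (T1C ep e1 M O E))))) :
    lhsC ep e1 J M g aX aY ν N b' O ≤
      ENNReal.ofReal (prefC M g E x ((Cst + 1) * (3 + CcF 2) * Real.exp (Cc + 5)) *
        ((2 * M + 1 : ℕ) : ℝ) ^ (α - 3 / 8 * (1 - e1)) *
        Real.exp (confEC M e1 J (TWC ep e1 M) (KG + K0 + 2) kap O -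
          1 / 10 * excS (TWC ep e1 M) O +
          enG M g O (T1C ep e1 M O E) (N + aX - chgO O true) (N + aY - chgO O false))) := by
  obtain ⟨T1, hT1⟩ : ∃ T1, T1 = T1C ep e1 M O E := ⟨_, rfl⟩
  obtain ⟨p, hp⟩ : ∃ p, p = N + aX - chgO O true := ⟨_, rfl⟩
  obtain ⟨q, hq⟩ : ∃ q, q = N + aY - chgO O false := ⟨_, rfl⟩
  have hpR : (p : ℝ) = (N : ℝ) + aX - chgO O true := by
    rw [hp, Nat.cast_sub hR.hc1]
    push_cast
    ring
  have hqR : (q : ℝ) = (N : ℝ) + aY - chgO O false := by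
    rw [hq, Nat.cast_sub hR.hc2]
    push_cast
    ring
  rw [← hT1] at hF hT hEn h ⊢
  rw [← hp, ← hq] at h ⊢
  have hmp : (0 : ℝ) < ((2 * M + 1 : ℕ) : ℝ) := by positivity
  obtain ⟨m, hm⟩ : ∃ m : ℝ, m = ((2 * M + 1 : ℕ) : ℝ) := ⟨_, rfl⟩
  have hmp' : 0 < m := by rw [hm]; exact hmp
  have hL : Lm M = Real.log m := by rw [hm]
  obtain ⟨I, hI⟩ : ∃ I, I = inC e1 J (2 * M + 1) T1 b' g B1 := ⟨_, rfl⟩
  obtain ⟨E', hE'⟩ : ∃ E', E' = (datO I (parC M) O).En + KG * r +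
      12 / 5 * (T1 - TW ep e1 (2 * M + 1)) + kap / 2 * win univ (fun i => ht (O i)) := ⟨_, rfl⟩
  have hconf : NUSea.H0.confC ep e1 (2 * M + 1) (inC e1 J (2 * M + 1) T1 b' g B1) (parC M) p q KG
      (kap / 2) O T1 = NUSea.MFs (inC e1 J (2 * M + 1) T1 b' g B1).s p q + E' := by
    rw [hE', hI]
    unfold NUSea.H0.confC
    ring
  rw [hconf] at h
  obtain ⟨Q, hQd⟩ : ∃ Q, Q = (Cst + 1) * m ^ α * (1 + S) := ⟨_, rfl⟩
  have hma : 0 < m ^ α := Real.rpow_pos_of_pos hmp' _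
  have hQ : 0 < Q := by rw [hQd]; positivity
  have h' : ∫⁻ y, ENNReal.ofReal (NUSea.H0.W0 (datO (inC e1 J (2 * M + 1) T1 b' g B1) (parC M) O) p q
        (aCC e1 J (2 * M + 1) T1 b' g B1 O true) (aCC e1 J (2 * M + 1) T1 b' g B1 O false)
        (cfC ep e1 J (2 * M + 1) M n T1 x') y) ≤
      ENNReal.ofReal ((p.factorial : ℝ) * q.factorial *
        (Q * Real.exp (NUSea.MFs (inC e1 J (2 * M + 1) T1 b' g B1).s p q + E'))) := by
    refine h.trans (ENNReal.ofReal_le_ofReal ?_)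
    rw [hQd, ← hm]
    have h1 : (0 : ℝ) ≤ (p.factorial : ℝ) * q.factorial := by positivity
    refine mul_le_mul_of_nonneg_left (mul_le_mul_of_nonneg_right ?_ (Real.exp_pos _).le) h1
    have h2 : 0 ≤ m ^ α * (1 + S) := by positivity
    nlinarith
  have hz := gas_z1 (ep := ep) (x := x') hF hT hP hη hQ h'
  -- the tilt
  have e1' : lhsC ep e1 J M g aX aY ν N b' O =
      ENNReal.ofReal (Real.exp (b' * (ν - N) + b' / 2 * ((p : ℝ) + q))) *
        (ENNReal.ofReal (Real.exp (-(b' / 2) * ((p : ℝ) + q))) *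
          Z1c (obF M (4 / 3 * (1 - ep)) g) (parC M) (etaC e1 J (2 * M + 1) (2 * M + 1 : ℕ))
            (etaC' e1 J (2 * M + 1) (2 * M + 1 : ℕ)) O p q) := by
    unfold lhsC
    rw [← mul_assoc, ← ENNReal.ofReal_mul (Real.exp_pos _).le, ← Real.exp_add, ← hp, ← hq]
    congr 3
    ring
  rw [e1']
  refine (mul_le_mul_right hz _).trans ?_
  rw [← ENNReal.ofReal_mul (Real.exp_pos _).le]
  refine ENNReal.ofReal_le_ofReal ?_
  -- the real inequality
  obtain ⟨c1, hc1⟩ : ∃ c1 : ℝ, c1 = cstF T1 g true := ⟨_, rfl⟩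
  have hc2 : cstF T1 g false = -c1 := by
    have := NUSea.H0.cstF_cancel g T1
    rw [hc1]
    linarith
  obtain ⟨X1, hX1⟩ : ∃ X1, X1 = b' * (ν - N) + b' / 2 * ((p : ℝ) + q) +
      (NUSea.MF ((2 * M + 1 : ℕ) : ℝ) + E' + cstF T1 g true * p + cstF T1 g false * q) := ⟨_, rfl⟩
  have hpow : m ^ α = m ^ (α - 3 / 8 * (1 - e1)) * Real.exp ((1 - e1) * Tb (Lm M)) := by
    have h2 : Real.exp ((1 - e1) * Tb (Lm M)) = m ^ (3 / 8 * (1 - e1)) := by
      rw [Real.rpow_def_of_pos hmp', hL]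
      congr 1
      unfold Tb
      ring
    rw [h2, ← Real.rpow_add hmp']
    congr 1
    ring
  have hSx : 1 + S ≤ (3 + CcF 2) * Real.exp (37 / 20 * x) := by
    have h2 : 1 ≤ Real.exp (37 / 20 * x) := Real.one_le_exp (by have := hR.x0; positivity)
    nlinarith
  have hCc0 := CcF_one 2
  have hlhs : Real.exp (b' * (ν - N) + b' / 2 * ((p : ℝ) + q)) *
      (Q * Real.exp (NUSea.MF ((2 * M + 1 : ℕ) : ℝ) + E' + cstF T1 g true * p +
        cstF T1 g false * q)) = (Cst + 1) * m ^ (α - 3 / 8 * (1 - e1)) * (1 + S) *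
          Real.exp ((1 - e1) * Tb (Lm M) + X1) := by
    rw [hX1, hQd, hpow, Real.exp_add ((1 - e1) * Tb (Lm M)),
      Real.exp_add (b' * (ν - N) + b' / 2 * ((p : ℝ) + q))]
    ring
  rw [hlhs]
  obtain ⟨X2, hX2⟩ : ∃ X2, X2 = (2 * (M : ℝ) + 1) ^ 2 * (∫ t, NUMFH.Pd t * NUMFH.vd t) +
      m * (∑ i, NUPref.MF (g i).c (g i).w) + 12 / 5 * E + (Cc + 5) +
      (confEC M e1 J (TWC ep e1 M) (KG + K0 + 2) kap O - 1 / 10 * excS (TWC ep e1 M) O +
          enG M g O T1 p q) := ⟨_, rfl⟩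
  have hrhs : prefC M g E x ((Cst + 1) * (3 + CcF 2) * Real.exp (Cc + 5)) *
        ((2 * M + 1 : ℕ) : ℝ) ^ (α - 3 / 8 * (1 - e1)) *
        Real.exp (confEC M e1 J (TWC ep e1 M) (KG + K0 + 2) kap O -
          1 / 10 * excS (TWC ep e1 M) O + enG M g O T1 p q) =
      (Cst + 1) * m ^ (α - 3 / 8 * (1 - e1)) * ((3 + CcF 2) * Real.exp (37 / 20 * x)) *
        Real.exp X2 := by
    unfold prefC
    rw [hX2, ← hm, Real.exp_add _ (confEC M e1 J (TWC ep e1 M) (KG + K0 + 2) kap O -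
      1 / 10 * excS (TWC ep e1 M) O + enG M g O T1 p q), Real.exp_add _ (Cc + 5),
      Real.exp_add _ (12 / 5 * E), Real.exp_add _ (12 / 5 * E), Real.exp_add _ (m * _)]
    ring
  rw [hrhs]
  have hma' : 0 < m ^ (α - 3 / 8 * (1 - e1)) := Real.rpow_pos_of_pos hmp' _
  refine mul_le_mul (mul_le_mul_of_nonneg_left hSx (by positivity)) (Real.exp_le_exp.2 ?_)
    (Real.exp_pos _).le (by positivity)
  -- exponents
  have hexc : T1 - TW ep e1 (2 * M + 1) ≤ excS (TWC ep e1 M) O + E := by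
    rw [hT1]
    unfold T1C
    have h2 := NUO.excS_nonneg (TWC ep e1 M) O
    have h3 : max (excS (TWC ep e1 M) O) E ≤ excS (TWC ep e1 M) O + E :=
      max_le (by linarith [hR.E0]) (by linarith)
    show TWC ep e1 M + max (excS (TWC ep e1 M) O) E - TWC ep e1 M ≤ _
    linarith
  have hchg1 := chgOx_le2 O true
  have hchg2 := chgOx_le2 O false
  have hch1 : (0 : ℝ) ≤ chgO O true := Nat.cast_nonneg _
  have hch2 : (0 : ℝ) ≤ chgO O false := Nat.cast_nonneg _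
  have hax : (aX : ℝ) ≤ 3 := by exact_mod_cast hR.ax
  have hay : (aY : ℝ) ≤ 3 := by exact_mod_cast hR.ay
  have hax0 : (0 : ℝ) ≤ aX := Nat.cast_nonneg _
  have hay0 : (0 : ℝ) ≤ aY := Nat.cast_nonneg _
  have htilt : b' * (ν - N) + b' / 2 * ((p : ℝ) + q) - b' * m ≤ 5 + 2 * r := by
    rw [hpR, hqR]
    exact tilt_num hb' (by rw [hm]; exact hR.nu) hax hay hax0 hay0 hch1 hch2 hchg1 hchg2
  clear hz h' h hconf e1' hlhs hrhs hpow
  rw [hX1, hX2, hc2, ← hc1, confEC_split, MF_seaH]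
  unfold enG
  rw [← hc1]
  rw [hE']
  have e5 : (fun i => (g i).pin T1) = gP T1 g := rfl
  rw [e5]
  rw [← hI, ← hm] at hEn
  rw [← hm]
  linarith

/-! ### all configurations -/

/-- three values of the number of groups -/
lemma max3 {F : ℕ → ℝ → ℝ → ℕ → Prop}
    (hF : ∀ G d d' C C' m m', F G d C m → d' ≤ d → C ≤ C' → m ≤ m' → F G d' C' m')
    (h : ∀ G ≤ 2, ∃ d C : ℝ, 0 < d ∧ 0 ≤ C ∧ ∃ m, F G d C m) :
    ∃ d C : ℝ, 0 < d ∧ 0 ≤ C ∧ ∃ m, ∀ G ≤ 2, F G d C m := by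
  obtain ⟨d0, C0, a0, b0, m0, h0⟩ := h 0 (by norm_num)
  obtain ⟨d1, C1, a1, b1, m1, h1⟩ := h 1 (by norm_num)
  obtain ⟨d2, C2, a2, b2, m2, h2⟩ := h 2 (by norm_num)
  refine ⟨min d0 (min d1 d2), C0 + C1 + C2, lt_min a0 (lt_min a1 a2), by positivity,
    max m0 (max m1 m2), ?_⟩
  intro G hG
  interval_cases G
  · exact hF _ _ _ _ _ _ _ h0 (min_le_left _ _) (by linarith) (le_max_left _ _)
  · exact hF _ _ _ _ _ _ _ h1 ((min_le_right _ _).trans (min_le_left _ _)) (by linarith)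
      ((le_max_left _ _).trans (le_max_right _ _))
  · exact hF _ _ _ _ _ _ _ h2 ((min_le_right _ _).trans (min_le_right _ _)) (by linarith)
      ((le_max_right _ _).trans (le_max_right _ _))

/-- the right side is monotone in the constant and in the power -/
lemma rhs_mono {M n : ℕ} {g : Fin n → Gd} {E x C C' a a' z z' : ℝ} (hC : 0 ≤ C) (hCC : C ≤ C')
    (ha : a ≤ a') (hz : z ≤ z') :
    ENNReal.ofReal (prefC M g E x C * ((2 * M + 1 : ℕ) : ℝ) ^ a * Real.exp z) ≤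
      ENNReal.ofReal (prefC M g E x C' * ((2 * M + 1 : ℕ) : ℝ) ^ a' * Real.exp z') := by
  have h1 : (1 : ℝ) ≤ ((2 * M + 1 : ℕ) : ℝ) := by exact_mod_cast (by omega : 1 ≤ 2 * M + 1)
  refine ENNReal.ofReal_le_ofReal ?_
  refine mul_le_mul (mul_le_mul (prefC_mono hCC) (Real.rpow_le_rpow_of_exponent_le h1 ha)
    (Real.rpow_nonneg (by linarith) _) (prefC_nonneg (hC.trans hCC))) (Real.exp_le_exp.2 hz)
    (Real.exp_pos _).le (mul_nonneg (prefC_nonneg (hC.trans hCC)) (Real.rpow_nonneg (by linarith) _))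

/-- the end of the window -/
lemma TWC_le (ep e1 : ℝ) (M : ℕ) {r : ℕ} (O : Fin r → Xo) {E : ℝ} (hE : 0 ≤ E) :
    TWC ep e1 M ≤ T1C ep e1 M O E ∧
      TWC ep e1 M + excS (TWC ep e1 M) O ≤ T1C ep e1 M O E ∧ TWC ep e1 M + E ≤ T1C ep e1 M O E := by
  unfold T1C
  have h1 := le_max_left (excS (TWC ep e1 M) O) E
  have h2 := le_max_right (excS (TWC ep e1 M) O) E
  exact ⟨by linarith, by linarith, by linarith⟩

/-- the families of the range are admissible -/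
lemma famOk_of {ep e1 : ℝ} {M : ℕ} {n : ℕ} {g : Fin n → Gd} {aX aY : ℕ} {ν : ℝ} {N : ℕ} {r : ℕ}
    {O : Fin r → Xo} {E x : ℝ} (hR : RgC ep e1 M g aX aY ν N O E x) :
    FamOk (T1C ep e1 M O E) x g where
  cl i := by
    rcases hR.hE i with h | h | h
    · exact Or.inl h
    · exact Or.inr (Or.inl h)
    · exact Or.inr (Or.inr (h.trans (TWC_le ep e1 M O hR.E0).2.2))
  sp := hR.sp
  x0 := hR.x0
  ex := hR.hx

lemma TWC_nonneg {ep e1 : ℝ} (h0 : 0 < ep) (h1 : 0 < e1) (M : ℕ) : 0 ≤ TWC ep e1 M := by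
  have h2 : 0 ≤ Real.log ((2 * M + 1 : ℕ) : ℝ) := Real.log_nonneg (by
    exact_mod_cast (by omega : 1 ≤ 2 * M + 1))
  unfold TWC TW Tb
  positivity

/-- **the crude bound from the data** -/
theorem crudeR_of (hD : DatGC) : CrudeR := by
  obtain ⟨KG, Ca, hKG, hCa, hG⟩ := NUSea.H0.crudeC
  choose W hW hD using hD
  have hW0 := hW 0
  have hW1 := hW 1
  have hW2 := hW 2
  obtain ⟨K0, hK0, hEn⟩ := exists_enI (W := W 0 + W 1 + W 2) (by positivity)
  refine ⟨KG + K0 + 2, Ca + 3 / 8, by positivity, by positivity, ?_⟩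
  intro kap hkap ep hep hep1 e1 he he1 J hJ δ hδ
  have key := max3 (F := fun G d C M0 => ∀ M ≥ M0, ∀ (g : Fin G → Gd) (aX aY : ℕ) (ν : ℝ) (N : ℕ)
      (b' : ℝ) (r : ℕ) (O : Fin r → Xo) (E x : ℝ), |b'| ≤ d → RgC ep e1 M g aX aY ν N O E x →
        lhsC ep e1 J M g aX aY ν N b' O ≤
          ENNReal.ofReal (prefC M g E x C *
            ((2 * M + 1 : ℕ) : ℝ) ^ (1 / 2 + (Ca + 3 / 8) * (ep + e1) + δ) *
            Real.exp (confEC M e1 J (TWC ep e1 M) (KG + K0 + 2) kap O -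
              1 / 10 * excS (TWC ep e1 M) O +
              enG M g O (T1C ep e1 M O E) (N + aX - chgO O true) (N + aY - chgO O false))) ∧
        0 ≤ C) ?_ ?_
  · obtain ⟨d, C, hd, hC, M0, H⟩ := key
    exact ⟨d, C, hd, hC, M0, fun M hM n g aX aY ν N b' r O E x hb' hR =>
      (H n hR.n2 M hM g aX aY ν N b' r O E x hb' hR).1⟩
  · intro G d d' C C' m m' h hd hC hm M hM g aX aY ν N b' r O E x hb' hR
    obtain ⟨h1, h2⟩ := h M (hm.trans hM) g aX aY ν N b' r O E x (hb'.trans hd) hR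
    exact ⟨h1.trans (rhs_mono h2 hC le_rfl le_rfl), h2.trans hC⟩
  · intro G hG2
    obtain ⟨k, κ, CB, w, C, hκ, hCB, hw, hw1, hC, hD⟩ := hD G ep hep hep1 e1 he he1 J hJ
    obtain ⟨ϑ, Cst, hϑ, hCst, m1, hG⟩ := hG G (kap / 2) (by positivity) ep hep hep1 e1 he he1 δ hδ k κ
      CB hκ hCB
    obtain ⟨d, hd, m2, hD⟩ := hD ϑ hϑ
    obtain ⟨Cc, m3, hEn⟩ := hEn (kap / 2) (by positivity) ep hep hep1 e1 he he1 J hJ k κ C hκ
    have hCF := CcF_one 2
    refine ⟨min d 1, (Cst + 1) * (3 + CcF 2) * Real.exp (Cc + 5), lt_min hd one_pos, by positivity,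
      max (max m1 m2) (max m3 3), ?_⟩
    intro M hM g aX aY ν N b' r O E x hb' hR
    have hm1 : m1 ≤ M := ((le_max_left _ _).trans (le_max_left _ _)).trans hM
    have hm2 : m2 ≤ M := ((le_max_right _ _).trans (le_max_left _ _)).trans hM
    have hm3 : m3 ≤ M := ((le_max_left _ _).trans (le_max_right _ _)).trans hM
    have hm4 : 3 ≤ M := ((le_max_right _ _).trans (le_max_right _ _)).trans hM
    refine ⟨?_, by positivity⟩
    obtain ⟨t1, t2, t3⟩ := TWC_le ep e1 M O hR.E0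
    have hF := famOk_of hR
    have hT0 : 0 ≤ T1C ep e1 M O E := (TWC_nonneg hep he M).trans t1
    have hN := hR.hN
    have hax := hR.ax
    have hay := hR.ay
    have hrr := hR.hr
    obtain ⟨B1, hB, hB0, hB1, hBi, hBC, hD⟩ := hD M hm2 (2 * M + 1) rfl b'
      (hb'.trans (min_le_left _ _)) (T1C ep e1 M O E) x g t1 hF
    obtain ⟨D, hdat, -, -⟩ := hD (N + aX) (N + aY) (by omega) (by omega)
      (by
        have h1 := hR.q
        unfold chG
        push_cast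
        linarith) r (by omega) O hR.hc1 hR.hc2 t2
    have h1 := hG (2 * M + 1) (by omega) _ _ r O _ _ _ _ _ _ _ _ _ _ _ hdat
    have hsum : ∑ i, NUO.rr (NUSea.O.par0 (2 * M + 1)) O i ≤ 1 := by
      refine (NUO.sum_rr hdat.par (by omega) O).trans ?_
      have h2 : 0 ≤ Real.log ((2 * M + 1 : ℕ) : ℝ) := Real.log_nonneg (by
        exact_mod_cast (by omega : 1 ≤ 2 * M + 1))
      rw [div_le_one (by positivity)]
      linarith
    have h2 := hEn (2 * M + 1) (by omega) b' (hb'.trans (min_le_right _ _)) G hG2 g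
      (T1C ep e1 M O E) t1 B1 hB hB0 (fun t => (hB1 t).trans (by
        interval_cases G <;> linarith)) hBi hBC r O hsum hdat.ok
    obtain ⟨dl, ε, Mc, e, hI, -, -, -⟩ := hdat.ok
    have hS : SC G x ≤ (2 + CcF 2) * Real.exp (37 / 20 * x) := by
      unfold SC
      have := CcF_mono hG2
      gcongr
    have hS0 : 0 ≤ SC G x := by
      unfold SC
      have := CcF_one G
      positivity
    have h3 := red_step (kap := kap) (hb'.trans (min_le_right _ _)) hR hF hT0 hI.pg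
      (fun t => hI.eta_lt t) hCst hS0 hS h2 h1
    refine h3.trans (rhs_mono (by positivity) le_rfl ?_ le_rfl)
    nlinarith

/-- **the sharp bound from the data** -/
theorem sharpR_of (hD : DatGC) : SharpR := by
  obtain ⟨KG, Ca, hKG, hCa, hG⟩ := NUSea.H0.sharpC
  choose W hW hD using hD
  have hW0 := hW 0
  have hW1 := hW 1
  have hW2 := hW 2
  obtain ⟨K0, hK0, hEn⟩ := exists_enI (W := W 0 + W 1 + W 2) (by positivity)
  refine ⟨KG + K0 + 2, Ca + 3 / 8, by positivity, by positivity, ?_⟩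
  intro kap hkap ep hep hep1 e1 he he1 J hJ δ hδ
  have key := max3 (F := fun G d C M0 => ∀ M ≥ M0, ∀ (g : Fin G → Gd) (aX aY : ℕ) (ν : ℝ) (N : ℕ)
      (b' : ℝ) (r : ℕ) (O : Fin r → Xo) (E x : ℝ), |b'| ≤ d → RgC ep e1 M g aX aY ν N O E x →
        (∀ i, |(g i).τ| ≤ TWC ep e1 M) → (r : ℝ) + 2 ≤ Lm M → (∀ i, |ht (O i)| ≤ Lm M ^ 2) →
        lhsC ep e1 J M g aX aY ν N b' O ≤
          ENNReal.ofReal (prefC M g E x C *
            ((2 * M + 1 : ℕ) : ℝ) ^ ((Ca + 3 / 8) * (ep + e1) + δ) *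
            Real.exp (confEC M e1 J (TWC ep e1 M) (KG + K0 + 2) kap O +
              enG M g O (T1C ep e1 M O E) (N + aX - chgO O true) (N + aY - chgO O false))) ∧
        0 ≤ C) ?_ ?_
  · obtain ⟨d, C, hd, hC, M0, H⟩ := key
    exact ⟨d, C, hd, hC, M0, fun M hM n g aX aY ν N b' r O E x hb' hR h1 _ h3 h4 =>
      (H n hR.n2 M hM g aX aY ν N b' r O E x hb' hR h1 h3 h4).1⟩
  · intro G d d' C C' m m' h hd hC hm M hM g aX aY ν N b' r O E x hb' hR h1 h3 h4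
    obtain ⟨h1, h2⟩ := h M (hm.trans hM) g aX aY ν N b' r O E x (hb'.trans hd) hR h1 h3 h4
    exact ⟨h1.trans (rhs_mono h2 hC le_rfl le_rfl), h2.trans hC⟩
  · intro G hG2
    obtain ⟨k, κ, CB, w, C, hκ, hCB, hw, hw1, hC, hD⟩ := hD G ep hep hep1 e1 he he1 J hJ
    obtain ⟨ϑ, Cst, hϑ, hCst, m1, hG⟩ := hG G (kap / 2) (by positivity) ep hep hep1 e1 he he1 δ hδ k κ
      CB w hκ hCB hw hw1
    obtain ⟨d, hd, m2, hD⟩ := hD ϑ hϑ
    obtain ⟨Cc, m3, hEn⟩ := hEn (kap / 2) (by positivity) ep hep hep1 e1 he he1 J hJ k κ C hκ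
    obtain ⟨m5, hm5⟩ := NUO.log_large 1
    have hCF := CcF_one 2
    refine ⟨min d 1, (Cst + 1) * (3 + CcF 2) * Real.exp (Cc + 5), lt_min hd one_pos, by positivity,
      max (max m1 m2) (max m3 (max m5 3)), ?_⟩
    intro M hM g aX aY ν N b' r O E x hb' hR hnear hrL hht
    have hm1 : m1 ≤ M := ((le_max_left _ _).trans (le_max_left _ _)).trans hM
    have hm2 : m2 ≤ M := ((le_max_right _ _).trans (le_max_left _ _)).trans hM
    have hm3 : m3 ≤ M := ((le_max_left _ _).trans (le_max_right _ _)).trans hM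
    have hm6 : m5 ≤ M :=
      (((le_max_left _ _).trans (le_max_right _ _)).trans (le_max_right _ _)).trans hM
    have hm4 : 3 ≤ M :=
      (((le_max_right _ _).trans (le_max_right _ _)).trans (le_max_right _ _)).trans hM
    refine ⟨?_, by positivity⟩
    obtain ⟨t1, t2, t3⟩ := TWC_le ep e1 M O hR.E0
    have hL1 : 1 ≤ Lm M := hm5 (2 * M + 1) (by omega)
    have hTL : TWC ep e1 M ≤ Lm M := by
      unfold TWC TW Tb
      have : (1 + 2 * e1 + 2 * ep) ≤ 2 := by linarith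
      nlinarith
    have hF : FamOk (T1C ep e1 M O E) 0 g :=
      { cl := fun i => Or.inr (Or.inr ((hnear i).trans t1))
        sp := hR.sp
        x0 := le_rfl
        ex := fun i => by
          unfold NUSp.exc
          exact max_le (by linarith [hnear i]) le_rfl }
    have hT0 : 0 ≤ T1C ep e1 M O E := (TWC_nonneg hep he M).trans t1
    have hN := hR.hN
    have hax := hR.ax
    have hay := hR.ay
    have hrr := hR.hr
    obtain ⟨B1, hB, hB0, hB1, hBi, hBC, hD⟩ := hD M hm2 (2 * M + 1) rfl b'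
      (hb'.trans (min_le_left _ _)) (T1C ep e1 M O E) 0 g t1 hF
    obtain ⟨D, hdat, hD0, hGD⟩ := hD (N + aX) (N + aY) (by omega) (by omega)
      (by
        have h1 := hR.q
        unfold chG
        push_cast
        linarith) r (by omega) O hR.hc1 hR.hc2 t2
    have hG2' : (G : ℝ) ≤ 2 := by exact_mod_cast hG2
    have hrG : (r : ℝ) + G ≤ Real.log ((2 * M + 1 : ℕ) : ℝ) := by linarith
    have hgd := hGD hnear rfl hrG hht
    have hgp : ∀ j, |(gP (T1C ep e1 M O E) g j).τ| ≤ Real.log ((2 * M + 1 : ℕ) : ℝ) ^ 2 := by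
      intro j
      show |NUSp.pin (T1C ep e1 M O E) (g j).τ| ≤ _
      rw [NUSp.pin_of_le ((hnear j).trans t1)]
      refine (hnear j).trans (hTL.trans ?_)
      have : Lm M = Real.log ((2 * M + 1 : ℕ) : ℝ) := rfl
      rw [← this]
      nlinarith
    have h1 := hG (2 * M + 1) (by omega) _ _ r O _ _ _ _ _ _ _ _ _ _ _ hdat hgd hrG hht hgp (hD0 rfl)
    have hsum : ∑ i, NUO.rr (NUSea.O.par0 (2 * M + 1)) O i ≤ 1 := by
      refine (NUO.sum_rr hdat.par (by omega) O).trans ?_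
      have h2 : 0 ≤ Real.log ((2 * M + 1 : ℕ) : ℝ) := by linarith
      rw [div_le_one (by positivity)]
      linarith
    have h2 := hEn (2 * M + 1) (by omega) b' (hb'.trans (min_le_right _ _)) G hG2 g
      (T1C ep e1 M O E) t1 B1 hB hB0 (fun t => (hB1 t).trans (by
        interval_cases G <;> linarith)) hBi hBC r O hsum hdat.ok
    obtain ⟨dl, ε, Mc, e, hI, -, -, -⟩ := hdat.ok
    have hS : SC G 0 ≤ (2 + CcF 2) * Real.exp (37 / 20 * x) := by
      unfold SC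
      have h4 := CcF_mono hG2
      have h5 : Real.exp (37 / 20 * 0) ≤ Real.exp (37 / 20 * x) :=
        Real.exp_le_exp.2 (by have := hR.x0; linarith)
      have h6 := CcF_one G
      exact mul_le_mul (by linarith) h5 (Real.exp_pos _).le (by linarith)
    have hS0 : 0 ≤ SC G 0 := by
      unfold SC
      have := CcF_one G
      positivity
    have h3 := red_step (kap := kap) (hb'.trans (min_le_right _ _)) hR hF hT0 hI.pg
      (fun t => hI.eta_lt t) hCst hS0 hS h2 h1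
    have hexc := NUO.excS_nonneg (TWC ep e1 M) O
    refine h3.trans (rhs_mono (by positivity) le_rfl ?_ (by linarith))
    nlinarith

end NUGC

end
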