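import Pool.Agent.NUO.Glue
import Pool.Agent.NUO.GasSum
import Pool.Agent.NUO.ActInt
import Pool.Agent.NUCR.SumN

/-!
# The glue, abstract form

The sum over the number `r` of objects, their integral and the sum over the number `n` of quanta (by two
tilts): everything in `NUCR/GlueB` which does not depend on the one body functions.
-/

set_option autoImplicit false

noncomputable section

open MeasureTheory Finset Filter
open scoped ENNReal

namespace NUGC

open NUO NUP1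

/-- the bound of one configuration of `r` objects (without the prefactor) -/
def cfB (C C' c b : ℝ) (k : ℕ) (c1 c' L ep J : ℝ) (W : Finset ℤ) {r : ℕ} (O : Fin r → Xo) : ℝ :=
  (if (r : ℝ) ≤ L then 1 else Real.exp (c' * L)) *
    (∏ i, act C C' c b k L ep ep J r (ht (O i))) *
    Real.exp (-(c1 * ∑ w ∈ W, (cO O w : ℝ) ^ 2))

/-- `F` is at most a sum over objects with the bound `Mv` -/
def RepB (C C' c b : ℝ) (k : ℕ) (c1 c' L ep J Mv w : ℝ) (F : ℝ≥0∞) (K : ℕ) : Prop :=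
  ∃ Φ : (r : ℕ) → (Fin r → Xo) → ℝ≥0∞,
    F ≤ ∑ r ∈ range (K + 1), ((r.factorial : ℝ≥0∞))⁻¹ * ∫⁻ O, Φ r O ∂(Measure.pi fun _ => nu) ∧
    ∀ r ≤ K, ∀ (O : Fin r → Xo) (W : Finset ℤ), ENNReal.ofReal w * Φ r O ≤
      ENNReal.ofReal (Mv * cfB C C' c b k c1 c' L ep J W O)

/-- **The sum over the objects.** -/
theorem objSum {C c b c1 c' : ℝ} {k : ℕ} (hC : 0 < C) (hc : 0 < c) (hb : 0 < b) (hc1 : 0 < c1)
    (hc' : 0 ≤ c') {ε : ℝ} (hε : 0 < ε) :
    ∃ κ : ℝ, 0 < κ ∧ ∀ ep : ℝ, 0 < ep → ep ≤ 1 / 100 → ep ≤ κ → ∀ J : ℝ, 0 ≤ J →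
      Real.exp (-(2 * Real.pi * J)) ≤ κ → ∀ C' : ℝ, 0 ≤ C' → ∃ L0 : ℝ, ∀ L ≥ L0, ∀ K : ℕ,
        (K : ℝ) ≤ Real.exp (2 * L) → ∀ Mv w : ℝ, 0 ≤ Mv → ∀ F : ℝ≥0∞,
        RepB C C' c b k c1 c' L ep J Mv w F K →
          ENNReal.ofReal w * F ≤ ENNReal.ofReal (Mv * Real.exp (ε * L)) := by
  obtain ⟨a, ha, hcore⟩ := sum_core (c' := c') (δ := ε) hc' hε
  refine ⟨a / 2 / (70 * C), by positivity, fun ep hep0 hep2' hep1 J hJ0 hJ C' hC' => ?_⟩
  have hep2 : ep ≤ 1 / 4 := hep2'.trans (by norm_num)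
  obtain ⟨D, k', C3, LA, hD, hC3, hA⟩ := act_sum (c1 := c1) hC hC' hc1 ha
    (show 0 < ε / 2 by positivity) 10 (actInt hC.le hC' hc hb k)
  obtain ⟨LS, hS⟩ := hcore C3 hC3
  refine ⟨max (max LA LS) 0, fun L hL K hK Mv w hM0 F hF => ?_⟩
  have gA : LA ≤ L := ((le_max_left _ _).trans (le_max_left _ _)).trans hL
  have gS : LS ≤ L := ((le_max_right _ _).trans (le_max_left _ _)).trans hL
  have hL0 : 0 ≤ L := (le_max_right _ _).trans hL
  obtain ⟨Φ, hrep, hper⟩ := hF
  have hsm : (10 : ℕ) * C * (Real.exp (-(2 * Real.pi * J)) + 3 * ep + 3 * ep) ≤ a / 2 := by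
    rw [le_div_iff₀ (by positivity)] at hep1 hJ
    push_cast
    nlinarith
  have hAr := hA L gA ep hep0.le hep2 ep hep0 hep2 J hJ0 hsm
  set A : ℕ → ℝ := fun r => 10 * ∫ t, act C C' c b k L ep ep J r t *
    Real.exp (-tilt (WZ D L r) (lamZ k' L r) t) with hAdef
  set Bf : ℕ → ℝ := fun r => if (r : ℝ) ≤ L then Mv else Mv * Real.exp (c' * L) with hBf
  have hBf0 : ∀ r, 0 ≤ Bf r := fun r => by
    simp only [hBf]
    split_ifs
    · exact hM0
    · positivity
  have hact0 : ∀ r t, 0 ≤ act C C' c b k L ep ep J r t := fun r t => act_nonneg hC.le hC' hL0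
  have hrR : ∀ r < K + 1, (r : ℝ) ≤ Real.exp (2 * L) := by
    intro r hr
    have h1 : (r : ℝ) ≤ K := by exact_mod_cast Nat.lt_succ_iff.1 hr
    exact h1.trans hK
  have key : ENNReal.ofReal w * F ≤
      ENNReal.ofReal (∑ r ∈ range (K + 1),
        Bf r * Real.exp (cost D k' c1 L r) * (A r ^ r / (r.factorial : ℝ))) := by
    calc _ ≤ ENNReal.ofReal w * ∑ r ∈ range (K + 1), ((r.factorial : ℝ≥0∞))⁻¹ *
          ∫⁻ O : Fin r → Xo, Φ r O ∂(Measure.pi fun _ => nu) :=
          mul_le_mul_right hrep _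
      _ = ∑ r ∈ range (K + 1), ((r.factorial : ℝ≥0∞))⁻¹ *
          ∫⁻ O : Fin r → Xo, ENNReal.ofReal w * Φ r O ∂(Measure.pi fun _ => nu) := by
          rw [Finset.mul_sum]
          refine Finset.sum_congr rfl fun r _ => ?_
          rw [lintegral_const_mul' _ _ ENNReal.ofReal_ne_top]
          ring
      _ ≤ ∑ r ∈ range (K + 1), ((r.factorial : ℝ≥0∞))⁻¹ *
          ENNReal.ofReal (Bf r * Real.exp (cost D k' c1 L r) * A r ^ r) := by
          refine Finset.sum_le_sum fun r hr => ?_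
          refine mul_le_mul_right ?_ _
          have hr4 : r ≤ K := Nat.lt_succ_iff.1 (Finset.mem_range.1 hr)
          obtain ⟨hi, -, -, -, -⟩ := hAr r (hrR r (Finset.mem_range.1 hr))
          refine le_trans (lintegral_mono fun O => hper r hr4 O (WZ D L r)) ?_
          have h1 := lint_conf_le (r := r) (act C C' c b k L ep ep J r) (hact0 r) (WZ D L r)
            (lamZ k' L r) hc1 (hBf0 r) hi
          refine le_trans (le_of_eq ?_) h1
          refine lintegral_congr fun O => ?_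
          congr 1
          simp only [hBf, cO, cfB]
          split_ifs <;> ring
      _ = ENNReal.ofReal (∑ r ∈ range (K + 1),
        Bf r * Real.exp (cost D k' c1 L r) * (A r ^ r / (r.factorial : ℝ))) := by
          rw [ENNReal.ofReal_sum_of_nonneg]
          · refine Finset.sum_congr rfl fun r hr => ?_
            have hfac : (0 : ℝ) < (r.factorial : ℝ) := by positivity
            have e1 : ((r.factorial : ℝ≥0∞))⁻¹ = ENNReal.ofReal ((r.factorial : ℝ)⁻¹) := by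
              rw [ENNReal.ofReal_inv_of_pos hfac, ENNReal.ofReal_natCast]
            rw [e1, ← ENNReal.ofReal_mul (by positivity)]
            congr 1
            field_simp
          · intro r hr
            have hI := (hAr r (hrR r (Finset.mem_range.1 hr))).2.1
            have h2 := hBf0 r
            have h3 : 0 ≤ A r := by simp only [hAdef]; positivity
            positivity
  have hsum : ∑ r ∈ range (K + 1),
      Bf r * Real.exp (cost D k' c1 L r) * (A r ^ r / (r.factorial : ℝ)) ≤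
        Mv * Real.exp (ε * L) := by
    refine hS L gS Mv hM0 (K + 1) A (cost D k' c1 L) _ ?_ ?_ ?_ ?_ ?_
    · intro r hr
      have hI := (hAr r (hrR r hr)).2.1
      simp only [hAdef]
      positivity
    · intro r hr
      have hI := (hAr r (hrR r hr)).2.2.1
      simpa [hAdef] using hI
    · intro r hr h
      have := (hAr r (hrR r hr)).2.2.2.1 h
      linarith
    · intro r hr h
      exact (hAr r (hrR r hr)).2.2.2.2 h
    · intro r hr
      exact le_rfl
  exact key.trans (ENNReal.ofReal_le_ofReal hsum)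

/-- the sum over the number of quanta by two tilts, `ℝ≥0∞` form -/
theorem sumN_le {b d s Q : ℝ} (hd : 0 < d) (hQ : 0 ≤ Q) (F : ℕ → ℝ≥0∞) (N : ℕ)
    (h1 : ∀ n < N, ENNReal.ofReal (Real.exp ((b + d) * (s - n))) * F n ≤ ENNReal.ofReal Q)
    (h2 : ∀ n < N, ENNReal.ofReal (Real.exp ((b - d) * (s - n))) * F n ≤ ENNReal.ofReal Q) :
    ∑ n ∈ range N, ENNReal.ofReal (Real.exp (b * (s - n))) * F n ≤
      ENNReal.ofReal (4 * (1 + 1 / d) * Q) := by
  have hfin : ∀ n < N, F n ≠ ⊤ := by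
    intro n hn h
    have := h1 n hn
    rw [h, ENNReal.mul_top (by simpa using Real.exp_pos _)] at this
    simp at this
  have hF : ∀ n < N, F n = ENNReal.ofReal (F n).toReal := fun n hn =>
    (ENNReal.ofReal_toReal (hfin n hn)).symm
  have key := NUCR.sum_n_le (b := b) (d := d) (s := s) hd hQ (fun n => (F n).toReal) N
    (fun n hn => by
      have := h1 n hn
      rw [hF n hn, ← ENNReal.ofReal_mul (Real.exp_pos _).le] at this
      exact (ENNReal.ofReal_le_ofReal_iff hQ).1 this)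
    (fun n hn => by
      have := h2 n hn
      rw [hF n hn, ← ENNReal.ofReal_mul (Real.exp_pos _).le] at this
      exact (ENNReal.ofReal_le_ofReal_iff hQ).1 this)
  refine le_trans (le_of_eq ?_) (ENNReal.ofReal_le_ofReal key)
  rw [ENNReal.ofReal_sum_of_nonneg (fun n _ => by positivity)]
  refine Finset.sum_congr rfl fun n hn => ?_
  rw [ENNReal.ofReal_mul (Real.exp_pos _).le, ← hF n (Finset.mem_range.1 hn)]

/-- **The glue, abstract form.**  `Ca` is the constant of the exponent `Ca (ep + e1)`. -/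
theorem glue_core {C c b c1 c' Ca : ℝ} {k : ℕ} (hC : 0 < C) (hc : 0 < c) (hb : 0 < b)
    (hc1 : 0 < c1) (hc' : 0 ≤ c') (hCa : 0 ≤ Ca) {ε : ℝ} (hε : 0 < ε) :
    ∃ ep J : ℝ, 0 < ep ∧ ep ≤ 1 / 100 ∧ Ca * ep ≤ ε ∧ 0 ≤ J ∧
      ∀ d C' : ℝ, 0 < d → 0 ≤ C' → ∃ L0 : ℝ, ∀ L ≥ L0, ∀ Mv s b0 : ℝ, 0 ≤ Mv →
        ∀ (N : ℕ) (K : ℕ → ℕ), (∀ n < N, (K n : ℝ) ≤ Real.exp (2 * L)) → ∀ F : ℕ → ℝ≥0∞,
        (∀ n < N, ∀ b' : ℝ, b' = b0 + d ∨ b' = b0 - d →
          RepB C C' c b k c1 c' L ep J Mv (Real.exp (b' * (s - n))) (F n) (K n)) →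
        ∑ n ∈ range N, ENNReal.ofReal (Real.exp (b0 * (s - n))) * F n ≤
          ENNReal.ofReal (4 * (1 + 1 / d) * (Mv * Real.exp (ε * L))) := by
  obtain ⟨κ, hκ, hobj⟩ := objSum (k := k) hC hc hb hc1 hc' hε
  set ep : ℝ := min κ (min (1 / 100) (ε / (Ca + 1))) with hep
  have hep0 : 0 < ep := lt_min hκ (lt_min (by norm_num) (by positivity))
  have hep1 : ep ≤ κ := min_le_left _ _
  have hep2 : ep ≤ 1 / 100 := (min_le_right _ _).trans (min_le_left _ _)
  have hep3 : ep ≤ ε / (Ca + 1) := (min_le_right _ _).trans (min_le_right _ _)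
  have hCe : Ca * ep ≤ ε := by
    rw [le_div_iff₀ (by positivity)] at hep3
    nlinarith
  obtain ⟨J, hJ0, hJ⟩ : ∃ J : ℝ, 0 ≤ J ∧ Real.exp (-(2 * Real.pi * J)) ≤ κ := by
    refine ⟨max 0 (-Real.log κ), le_max_left _ _, ?_⟩
    have hpi := Real.pi_gt_three
    have h1 : -Real.log κ ≤ 2 * Real.pi * max 0 (-Real.log κ) := by
      have h2 := le_max_right 0 (-Real.log κ)
      have h3 := le_max_left 0 (-Real.log κ)
      nlinarith
    calc Real.exp (-(2 * Real.pi * max 0 (-Real.log κ))) ≤ Real.exp (Real.log κ) :=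
          Real.exp_le_exp.2 (by linarith)
      _ = κ := Real.exp_log hκ
  refine ⟨ep, J, hep0, hep2, hCe, hJ0, fun d C' hd hC' => ?_⟩
  obtain ⟨L0, hL0⟩ := hobj ep hep0 hep2 hep1 J hJ0 hJ C' hC'
  refine ⟨L0, fun L hL Mv s b0 hMv N K hK F hF => ?_⟩
  exact sumN_le hd (by positivity) F N
    (fun n hn => hL0 L hL (K n) (hK n hn) Mv _ hMv (F n) (hF n hn _ (Or.inl rfl)))
    (fun n hn => hL0 L hL (K n) (hK n hn) Mv _ hMv (F n) (hF n hn _ (Or.inr rfl)))

end NUGC

end
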