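import Pool.Agent.NURow.Cls

/-!
# Direct factors of the final classes (board/GAM G3, helper27)

`gwc t t'` = pair function of the half quanta of the final class `t, t'` (`gw` of `NURow.cF`, with the
host strings and the captured quanta); `spc t` = factor of the half quantum of type `t` and of its
members on a quantum of the other species.

`gwc_bd`: `‖gwc t t'‖ ≤ C exp (-(q q' + 1) / 2 |im|)` on the difference of the final lines,
`q = 1, 1, -1, -3` for `W, F, P, H`; `spc_bd`: `‖spc t‖ ≤ C exp (-q |im|)` on the difference of the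
final line and `5/8 l`.
-/

set_option autoImplicit false

noncomputable section

open Complex MeasureTheory

namespace NUGC

open NUP1 NUP1S NUP1.Bd NUP1.Leg NURow

/-- one real part in units `l / 8` -/
def pt (n : ℤ) : Set ℝ := {(n : ℝ) * (l / 8)}

theorem isCompact_pt (n : ℤ) : IsCompact (pt n) := isCompact_singleton

theorem sin_pt8 {n : ℤ} (h : n % 64 ≠ 0) : Real.sin ((n : ℝ) * (l / 8)) ≠ 0 := by
  intro h0
  rw [Real.sin_eq_zero_iff] at h0
  obtain ⟨k, hk⟩ := h0
  apply h
  have hpi := Real.pi_pos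
  have h1 : (k : ℝ) * Real.pi = n * (Real.pi / 8 / 8) := hk
  have h2 : ((64 * k : ℤ) : ℝ) * Real.pi = (n : ℝ) * Real.pi := by
    push_cast
    linarith
  have h3 : ((64 * k : ℤ) : ℝ) = (n : ℝ) := mul_right_cancel₀ hpi.ne' h2
  have h4 : 64 * k = n := by exact_mod_cast h3
  omega

theorem sin_pt {n m : ℤ} {a : ℝ} (ha : a = m * (l / 8)) (h : (n + m) % 64 ≠ 0) :
    ∀ d ∈ pt n, Real.sin (d + a) ≠ 0 := by
  rintro d rfl
  have := sin_pt8 h
  rw [ha, ← add_mul]
  exact_mod_cast this

theorem pt_shift {n m k : ℤ} {a : ℝ} (ha : a = k * (l / 8)) (hm : n + k = m) :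
    ∀ x ∈ pt n, x + a ∈ pt m := by
  rintro x rfl
  show (n : ℝ) * (l / 8) + a = _
  rw [ha, ← hm]
  push_cast
  ring

theorem pt_refl {n m k : ℤ} {a : ℝ} (ha : a = k * (l / 8)) (hm : -n - k = m) :
    ∀ x ∈ pt n, -x - a ∈ pt m := by
  rintro x rfl
  show -((n : ℝ) * (l / 8)) - a = _
  rw [ha, ← hm]
  push_cast
  ring

section pieces

variable {n : ℤ}

theorem pDk (h1 : (n + 24) % 64 ≠ 0) (h2 : (n + -24) % 64 ≠ 0) : PB (-1) (pt n) Dk :=
  PB_Dk (isCompact_pt n) (sin_pt (m := 24) (by push_cast; ring) h1) fun d hd => by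
    rw [sub_eq_add_neg]
    exact sin_pt (m := -24) (by push_cast; ring) h2 d hd

theorem pqg (h1 : (n + 24) % 64 ≠ 0) (h2 : (n + -24) % 64 ≠ 0) : PB (-2) (pt n) qg :=
  PB_qg (isCompact_pt n) (sin_pt (m := 24) (by push_cast; ring) h1)
    (sin_pt (m := -24) (by push_cast; ring) h2)

theorem pCk (h1 : (n + 8) % 64 ≠ 0) : PB 1 (pt n) Ck :=
  PB_Ck (isCompact_pt n) (sin_pt (m := 8) (by push_cast; ring) h1)

theorem pQQ (h1 : (n + -24) % 64 ≠ 0) (h2 : (n + 16) % 64 ≠ 0) : PB (-4) (pt n) QQ :=
  PB_QQ (isCompact_pt n) (fun d hd => by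
    rw [sub_eq_add_neg]
    exact sin_pt (m := -24) (by push_cast; ring) h1 d hd) (sin_pt (m := 16) (by push_cast; ring) h2)

/-- `Ck (x - 3 l)` -/
theorem pCkL (h : (n + -24 + 8) % 64 ≠ 0) : PB 1 (pt n) fun x => Ck (x - 3 * l) := by
  have h1 := (pCk (n := n + -24) h).shift (K := pt n) (-(3 * l))
    (pt_shift (k := -24) (by push_cast; ring) rfl)
  refine h1.congr' fun z => ?_
  push_cast
  rw [← sub_eq_add_neg]

/-- `Ck (-x - 3 l)` -/
theorem pCkR (h : (-n - 24 + 8) % 64 ≠ 0) : PB 1 (pt n) fun x => Ck (-x - 3 * l) := by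
  have h1 := (pCk (n := -n - 24) h).refl (K := pt n) (3 * l)
    (pt_refl (k := 24) (by push_cast; ring) rfl)
  refine h1.congr' fun z => ?_
  push_cast
  rfl

/-- `CC (2 l - x)` -/
theorem pCCR : PB 2 (pt n) fun x => CC (2 * l - x) := by
  have h1 := (PB_CC (pt (-n - -16))).refl (K := pt n) (-(2 * l))
    (pt_refl (k := -16) (by push_cast; ring) rfl)
  refine h1.congr' fun z => ?_
  congr 1
  push_cast
  ring

/-- `CC (x + 2 l)` -/
theorem pCCL : PB 2 (pt n) fun x => CC (x + 2 * l) := by
  have h1 := (PB_CC (pt (n + 16))).shift (K := pt n) (2 * l)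
    (pt_shift (k := 16) (by push_cast; ring) rfl)
  refine h1.congr' fun z => ?_
  congr 1
  push_cast
  ring

/-- `CCP x` -/
theorem pCCP (h1 : (-n - 24 + -24) % 64 ≠ 0) (h2 : (-n - 24 + 16) % 64 ≠ 0) : PB (-2) (pt n) CCP := by
  have e1 := (pQQ (n := -n - 24) h1 h2).refl (K := pt n) (3 * l)
    (pt_refl (k := 24) (by push_cast; ring) rfl)
  refine (((PB_CC (pt n)).mul e1).rate (by norm_num)).congr' fun z => ?_
  unfold CCP
  push_cast
  rfl

/-- `CCP (2 l - x)` -/
theorem pCCPR (h1 : (-(-n - -16) - 24 + -24) % 64 ≠ 0) (h2 : (-(-n - -16) - 24 + 16) % 64 ≠ 0) :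
    PB (-2) (pt n) fun x => CCP (2 * l - x) := by
  have e1 := (pCCP (n := -n - -16) h1 h2).refl (K := pt n) (-(2 * l))
    (pt_refl (k := -16) (by push_cast; ring) rfl)
  refine e1.congr' fun z => ?_
  congr 1
  push_cast
  ring

/-- `CCP (x + 2 l)` -/
theorem pCCPL (h1 : (-(n + 16) - 24 + -24) % 64 ≠ 0) (h2 : (-(n + 16) - 24 + 16) % 64 ≠ 0) :
    PB (-2) (pt n) fun x => CCP (x + 2 * l) := by
  have e1 := (pCCP (n := n + 16) h1 h2).shift (K := pt n) (2 * l)
    (pt_shift (k := 16) (by push_cast; ring) rfl)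
  refine e1.congr' fun z => ?_
  congr 1
  push_cast
  ring

/-- two host strings -/
theorem pSS : Bdd (pt 0) (-8) (gz (false, .S) (true, .S)) := by
  have h1 := bdd_gz (isCompact_pt 0) (false, .S) (true, .S) ?_
  · refine h1.rate ?_
    unfold rt sc
    norm_num [chg]
  · intro d hd
    unfold NUP1S.Ok poles
    simp only [Bool.false_eq_true, if_false, List.forall_mem_cons, List.not_mem_nil,
      IsEmpty.forall_iff, implies_true, and_true]
    refine ⟨?_, ?_, ?_, ?_, ?_, ?_⟩
    · exact sin_pt (m := 24) (by push_cast; ring) (by decide) d hd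
    · exact sin_pt (m := -24) (by push_cast; ring) (by decide) d hd
    · exact sin_pt (m := 32) (by push_cast; ring) (by decide) d hd
    · exact sin_pt (m := -16) (by push_cast; ring) (by decide) d hd
    · exact sin_pt (m := 16) (by push_cast; ring) (by decide) d hd
    · exact sin_pt (m := -32) (by push_cast; ring) (by decide) d hd

end pieces

/-! ## the classes -/

/-- pair function of the final class -/
def gwc (t t' : HT) : ℂ → ℂ :=
  (cF (fun _ _ => 0) (fun _ _ => 0) (fun _ => 0) (fun _ => 0) (fun _ => 0) (fun _ => 0) t t').gw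

theorem cF_gw (X Y : Option O3 → ℂ → ℂ) (kF kP kF' kP' : ℂ → ℂ) (t t' : HT) :
    (cF X Y kF kP kF' kP' t t').gw = gwc t t' := by
  cases t <;> cases t' <;> rfl

/-- charge (doubled) -/
def qHT : HT → ℝ
  | .W => 1
  | .F => 1
  | .P => -1
  | .H => -3

/-- final line in units `l / 8` -/
def zHT : HT → ℤ
  | .W => 10
  | .F => -22
  | .P => -22
  | .H => 5

/-- **the pair functions of the final classes** -/
theorem gwc_bd (t t' : HT) : Bdd (pt (zHT t - zHT t')) (-((qHT t * qHT t' + 1) / 2)) (gwc t t') := by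
  cases t <;> cases t'
  · exact ((pDk (by decide) (by decide)).rate (by norm_num [qHT])).1
  · exact ((pDk (by decide) (by decide)).rate (by norm_num [qHT])).1
  · exact (((pDk (by decide) (by decide)).mul (pCkL (by decide))).rate (by norm_num [qHT])).1
  · exact (((pDk (by decide) (by decide)).mul pCCL).rate (by norm_num [qHT])).1
  · exact ((pDk (by decide) (by decide)).rate (by norm_num [qHT])).1
  · exact ((pDk (by decide) (by decide)).rate (by norm_num [qHT])).1
  · exact (((pDk (by decide) (by decide)).mul (pCkL (by decide))).rate (by norm_num [qHT])).1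
  · exact (((pDk (by decide) (by decide)).mul pCCL).rate (by norm_num [qHT])).1
  · exact (((pDk (by decide) (by decide)).mul (pCkR (by decide))).rate (by norm_num [qHT])).1
  · exact (((pDk (by decide) (by decide)).mul (pCkR (by decide))).rate (by norm_num [qHT])).1
  · exact (((((pDk (by decide) (by decide)).mul (pCkR (by decide))).mul (pCkL (by decide))).mul
      (pqg (by decide) (by decide))).rate (by norm_num [qHT])).1
  · exact ((((pDk (by decide) (by decide)).mul (pCkR (by decide))).mul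
      (pCCPL (by decide) (by decide))).rate (by norm_num [qHT])).1
  · exact (((pDk (by decide) (by decide)).mul pCCR).rate (by norm_num [qHT])).1
  · exact (((pDk (by decide) (by decide)).mul pCCR).rate (by norm_num [qHT])).1
  · exact ((((pDk (by decide) (by decide)).mul (pCkL (by decide))).mul
      (pCCPR (by decide) (by decide))).rate (by norm_num [qHT])).1
  · have h1 := (((pDk (n := 0) (by decide) (by decide)).mul pCCR).1.mul (pSS.mul (pCCL (n := 0)).1)).rate
      (show (-1 : ℝ) + 2 + (-8 + 2) = -((qHT .H * qHT .H + 1) / 2) by norm_num [qHT])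
    have e : gwc .H .H = fun x => Dk x * CC (2 * l - x) * (gz (false, .S) (true, .S) x *
        CC (x + 2 * l)) := by
      funext x
      show Dk x * CC (2 * l - x) * (gz (false, .S) (true, .S) (x + 2 * l - 2 * l) *
        CC (x + 2 * l)) = _
      rw [add_sub_cancel_right]
    rw [e]
    exact h1

/-- factor of a half quantum and its members on a quantum of the other species -/
def spc : HT → ℂ → ℂ
  | .W => SF false none
  | .F => SF false none
  | .P => SP false none
  | .H => hostS false SF false none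

/-- **the factor on a quantum at the place of a half quantum of type `H`** -/
theorem spc_bd (t : HT) : Bdd (pt (zHT t - 5)) (-qHT t) (spc t) := by
  cases t
  · exact ((pDk (by decide) (by decide)).rate (by norm_num [qHT])).1
  · exact ((pDk (by decide) (by decide)).rate (by norm_num [qHT])).1
  · exact ((pCkR (by decide)).rate (by norm_num [qHT])).1
  · have h0 : Bdd (pt 0) 4 fun x => q1 (-(x + ((-(2 * l) : ℝ) : ℂ))) :=
      Bdd.shift (g := fun z => q1 (-z)) (-(2 * l)) (bdd_q1n _)
    have h2 := (h0.mul (pDk (n := 0) (by decide) (by decide)).1).rate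
      (show (4 : ℝ) + -1 = -qHT .H by norm_num [qHT])
    have e : spc .H = fun x => q1 (-(x + ((-(2 * l) : ℝ) : ℂ))) * Dk x := by
      funext x
      show q1 (-(x - 2 * l)) * Dk x = _
      push_cast
      rw [← sub_eq_add_neg]
    rw [e]
    exact h2

/-- two quanta at the places of half quanta of type `H` -/
theorem qg_bd : Bdd (pt 0) (-2) qg := (pqg (by decide) (by decide)).1

/-- the place of the difference of two points on lines -/
theorem vl_sub_pt {a b : ℝ} {n : ℤ} (h : a - b = (n : ℝ) * (l / 8)) (τ τ' : ℝ) :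
    (vl a τ - vl b τ').re ∈ pt n ∧ (vl a τ - vl b τ').im = τ - τ' := by
  refine ⟨?_, ?_⟩
  · rw [sub_re, re_vl, re_vl, h]
    rfl
  · rw [sub_im, im_vl, im_vl]

/-- bound at a difference -/
theorem Bdd.at {n : ℤ} {s : ℝ} {g : ℂ → ℂ} (h : Bdd (pt n) s g) : ∃ C : ℝ, 0 ≤ C ∧
    ∀ (a b : ℝ), a - b = (n : ℝ) * (l / 8) → ∀ τ τ' : ℝ,
      ‖g (vl a τ - vl b τ')‖ ≤ C * Real.exp (s * |τ - τ'|) := by
  obtain ⟨C, hC, h1⟩ := h
  refine ⟨C, hC, fun a b hab τ τ' => ?_⟩
  obtain ⟨e1, e2⟩ := vl_sub_pt hab τ τ'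
  have := h1 _ e1
  rwa [e2] at this

end NUGC

end
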