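import Pool.Agent.NUGC.QC2
import Pool.Agent.NUGC.DirA

/-!
# Bound of the direct factors of the two groups (`DirLe` of `NUGC/QC2`, helper27)
-/

set_option autoImplicit false

noncomputable section

open Complex MeasureTheory

namespace NUGC

open NUO NUP1 NUCR NUP1S NURow NUP1.Leg NUP1.Bd

theorem htL_z (t : HT) : htL t = (zHT t : ℝ) * (l / 8) := by
  cases t <;> simp only [htL, zHT] <;> push_cast <;> ring

theorem htT_spc (t : HT) : htT t false = spc t := by
  cases t <;> rfl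

theorem qh_false (t : HT) : qh t false = qHT t := by
  cases t <;> rfl

theorem qh_H : qh .H true = -1 := rfl

/-- **the direct factors of the two groups** -/
theorem dirLe : ∃ C : ℝ, 0 ≤ C ∧ DirLe C := by
  have h1 : ∀ t t' : HT, ∃ C : ℝ, 0 ≤ C ∧ ∀ τ τ' : ℝ,
      ‖gwc t t' (vl (htL t) τ - vl (htL t') τ')‖ ≤
        C * Real.exp (-((qHT t * qHT t' + 1) / 2) * |τ - τ'|) := by
    intro t t'
    obtain ⟨C, h0, h⟩ := Bdd.at (gwc_bd t t')
    refine ⟨C, h0, h _ _ ?_⟩
    rw [htL_z, htL_z]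
    push_cast
    ring
  have h2 : ∀ t : HT, ∃ C : ℝ, 0 ≤ C ∧ ∀ τ τ' : ℝ,
      ‖spc t (vl (htL t) τ - vl (htL .H) τ')‖ ≤ C * Real.exp (-qHT t * |τ - τ'|) := by
    intro t
    obtain ⟨C, h0, h⟩ := Bdd.at (spc_bd t)
    refine ⟨C, h0, h _ _ ?_⟩
    rw [htL_z, htL_z]
    simp only [zHT]
    push_cast
    ring
  obtain ⟨C3, g0, g⟩ := Bdd.at qg_bd
  choose C1 a0 a using h1
  choose C2 b0 b using h2
  have s1 : ∀ t t', C1 t t' ≤ ∑ t, ∑ t', C1 t t' := fun t t' =>
    (Finset.single_le_sum (f := fun t' => C1 t t') (fun t' _ => a0 t t') (Finset.mem_univ t')).trans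
      (Finset.single_le_sum (f := fun t => ∑ t', C1 t t')
        (fun t _ => Finset.sum_nonneg fun t' _ => a0 t t') (Finset.mem_univ t))
  have s2 : ∀ t, C2 t ≤ ∑ t, C2 t := fun t =>
    Finset.single_le_sum (f := fun t => C2 t) (fun t _ => b0 t) (Finset.mem_univ t)
  set K1 := ∑ t, ∑ t', C1 t t'
  set K2 := ∑ t, C2 t
  have k1 : 0 ≤ K1 := (a0 .W .W).trans (s1 _ _)
  have k2 : 0 ≤ K2 := (b0 .W).trans (s2 _)
  refine ⟨K1 * (1 + K2) * (1 + K2) * (1 + C3), by positivity, ?_⟩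
  intro ep M t t' i i' hi hi' τ τ'
  have A : ‖(clC ep M t t').gw (vl (htL t) τ - vl (htL t') τ')‖ ≤
      K1 * Real.exp (-((qHT t * qHT t' + 1) / 2) * |τ - τ'|) := by
    unfold clC
    rw [cF_gw]
    exact (a t t' τ τ').trans (mul_le_mul_of_nonneg_right (s1 t t') (Real.exp_pos _).le)
  have hs : |τ' - τ| = |τ - τ'| := abs_sub_comm _ _
  have B : ∀ t : HT, ∀ τ τ' : ℝ, ‖spc t (vl (htL t) τ - vl (htL .H) τ')‖ ≤
      (1 + K2) * Real.exp (-qHT t * |τ - τ'|) := fun t τ τ' =>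
    (b t τ τ').trans (mul_le_mul_of_nonneg_right (by linarith [s2 t]) (Real.exp_pos _).le)
  have D : ‖Bd.qg (vl (htL .H) τ - vl (htL .H) τ')‖ ≤ (1 + C3) * Real.exp (-2 * |τ - τ'|) :=
    (g _ _ (by push_cast; ring) τ τ').trans
      (mul_le_mul_of_nonneg_right (by linarith) (Real.exp_pos _).le)
  have one : ∀ K : ℝ, 0 ≤ K → (1 : ℝ) ≤ (1 + K) * Real.exp (0 * |τ - τ'|) := by
    intro K hK
    rw [zero_mul, Real.exp_zero]
    linarith
  have key : ∀ {x1 x2 x3 x4 e1 e2 e3 e4 e : ℝ}, 0 ≤ x1 → 0 ≤ x2 → 0 ≤ x3 → 0 ≤ x4 →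
      x1 ≤ K1 * Real.exp (e1 * |τ - τ'|) → x2 ≤ (1 + K2) * Real.exp (e2 * |τ - τ'|) →
      x3 ≤ (1 + K2) * Real.exp (e3 * |τ - τ'|) → x4 ≤ (1 + C3) * Real.exp (e4 * |τ - τ'|) →
      e1 + e2 + e3 + e4 = e →
      x1 * x2 * x3 * x4 ≤ K1 * (1 + K2) * (1 + K2) * (1 + C3) * Real.exp (e * |τ - τ'|) := by
    intro x1 x2 x3 x4 e1 e2 e3 e4 e p1 p2 p3 p4 q1 q2 q3 q4 he
    have m1 := mul_le_mul q1 q2 p2 (by positivity)
    have m2 := mul_le_mul m1 q3 p3 (by positivity)
    have m3 := mul_le_mul m2 q4 p4 (by positivity)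
    refine m3.trans (le_of_eq ?_)
    have hE : Real.exp (e * |τ - τ'|) = Real.exp (e1 * |τ - τ'|) * Real.exp (e2 * |τ - τ'|) *
        Real.exp (e3 * |τ - τ'|) * Real.exp (e4 * |τ - τ'|) := by
      rw [← he, ← Real.exp_add, ← Real.exp_add, ← Real.exp_add]
      congr 1
      ring
    rw [hE]
    ring
  unfold gO
  rw [htT_spc, htT_spc]
  rcases i with _ | _ <;> rcases i' with _ | _
  · simp only [Bool.false_eq_true, if_false, Bool.and_false]
    rw [qh_false, qh_false]
    exact key (norm_nonneg _) zero_le_one zero_le_one zero_le_one A (one K2 k2) (one K2 k2)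
      (one C3 g0) (by ring)
  · have ht : t' = .H := by
      have := hi' rfl
      cases t' <;> simp_all [htP]
    subst ht
    simp only [Bool.false_eq_true, if_false, if_true, Bool.false_and]
    rw [qh_false, qh_H]
    refine key (norm_nonneg _) zero_le_one (norm_nonneg _) zero_le_one A (one K2 k2)
      (B t τ τ') (one C3 g0) ?_
    simp only [qHT]
    ring
  · have ht : t = .H := by
      have := hi rfl
      cases t <;> simp_all [htP]
    subst ht
    simp only [Bool.false_eq_true, if_false, if_true, Bool.and_false]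
    rw [qh_false, qh_H]
    have B' := B t' τ' τ
    rw [hs] at B'
    refine key (norm_nonneg _) (norm_nonneg _) zero_le_one zero_le_one A B' (one K2 k2)
      (one C3 g0) ?_
    simp only [qHT]
    ring
  · have ht : t = .H := by
      have := hi rfl
      cases t <;> simp_all [htP]
    have ht' : t' = .H := by
      have := hi' rfl
      cases t' <;> simp_all [htP]
    subst ht
    subst ht'
    simp only [if_true, Bool.and_self]
    rw [qh_H]
    have B' := B .H τ' τ
    rw [hs] at B'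
    refine key (norm_nonneg _) (norm_nonneg _) (norm_nonneg _) (norm_nonneg _) A B' (B .H τ τ') D ?_
    simp only [qHT]
    norm_num

end NUGC

end
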