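import Pool.Agent.NUGC.QInt2

/-!
# The prefactor of a pair of groups of TARGET-C, free of the objects

* `cut`, `ex`: the own cutoff and the excess of a composite group (`1`, `0` for a bare half quantum);
* `MQ`: the majorant of a pair of groups (`QI0` near, `MJ` far);
* `QX`: the prefactor; `QX_ge`: it dominates the exponent with pinned heights for every `T₁ ≥ T`;
  `QX_use`: kernels times direct factor times `QX` is at most a constant times `MQ`;
* `maj_int`: the near majorant plus `m ^ (1 / 2)` times the far one has a bounded integral;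
* `d1_maj`, `d1_int`: the same for a neutral group.
-/

set_option autoImplicit false

open MeasureTheory

namespace NUGC

noncomputable section

/-- the cutoff of a composite group (`L = log m`) -/
def cut (L ep q τ : ℝ) : ℝ := if q = 1 then 1 else min 1 (Real.exp (L - 8 / 3 * (1 - ep) * |τ|))

/-- the excess of a composite group -/
def ex (T q τ : ℝ) : ℝ := if q = 1 then 0 else xs T τ

/-- the majorant of a pair of groups -/
def MQ (T : ℝ) (z : ℝ × ℝ) : ℝ := if |z.1| ≤ T ∧ |z.2| ≤ T then QI0 z else MJ T z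

/-- **the prefactor of a pair of groups**, free of the objects -/
def QX (T q q' τ τ' : ℝ) : ℝ :=
  Real.exp (|τ| + |τ'| + (q * q' + 1) / 2 * |τ - τ'| + 12 / 5 * max (ex T q τ) (ex T q' τ')) *
    MQ T (τ, τ')

theorem cut_nonneg (L ep q τ : ℝ) : 0 ≤ cut L ep q τ := by
  unfold cut
  split_ifs
  · exact zero_le_one
  · exact le_min zero_le_one (Real.exp_pos _).le

theorem cut_le_one (L ep q τ : ℝ) : cut L ep q τ ≤ 1 := by
  unfold cut
  split_ifs
  · exact le_rfl
  · exact min_le_left _ _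

theorem ex_nonneg (T q τ : ℝ) : 0 ≤ ex T q τ := by
  unfold ex
  split_ifs
  · exact le_rfl
  · exact xs_nonneg _ _

theorem MQ_nonneg (T : ℝ) (z : ℝ × ℝ) : 0 ≤ MQ T z := by
  unfold MQ QI0 MJ
  split_ifs
  · exact (Real.exp_pos _).le
  · exact (Real.exp_pos _).le

theorem QX_nonneg (T q q' τ τ' : ℝ) : 0 ≤ QX T q q' τ τ' :=
  mul_nonneg (Real.exp_pos _).le (MQ_nonneg _ _)

/-- the exponent at the pinned heights is at most the majorant -/
theorem qc_MQ {T T₁ q q' τ τ' p p' x x' : ℝ} (hT : 0 ≤ T) (hTT : T ≤ T₁) (h : PX T₁ q τ p x)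
    (h' : PX T₁ q' τ' p' x') :
    Real.exp (-|p| - |p'| - |p - p'| / 2 - 3 / 40 * (x + x')) ≤ MQ T (τ, τ') := by
  unfold MQ
  split_ifs with hn
  · exact (qc_near hTT h h' hn.1 hn.2).le
  · refine qc_far hT hTT h h' ?_
    simp only [FarS, Set.mem_ofPred_eq]
    by_contra hc
    apply hn
    simp only [not_or, not_lt] at hc
    exact hc

/-- **`QX` dominates the energies and the cost of the far heights**, for every `T₁ ≥ T` -/
theorem QX_ge {T T₁ q q' τ τ' p p' x x' : ℝ} (hT : 0 ≤ T) (hTT : T ≤ T₁) (h : PX T₁ q τ p x)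
    (h' : PX T₁ q' τ' p' x') :
    Real.exp (q * q' / 2 * |p - p'| - x * (1 - q') / 2 - x' * (1 - q) / 2 + 37 / 20 * max x x' +
      12 / 5 * max (ex T q τ) (ex T q' τ')) ≤ QX T q q' τ τ' := by
  have h1 := qc_le (hT.trans hTT) h h'
  have h2 := qc_MQ hT hTT h h'
  unfold QX
  refine le_trans ?_ (mul_le_mul_of_nonneg_left h2 (Real.exp_pos _).le)
  rw [← Real.exp_add]
  refine Real.exp_le_exp.2 ?_
  linarith

/-- the same with the standard pinned heights and any bound `X` of the excesses -/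
theorem QX_ge' {T T₁ q q' : ℝ} (hT : 0 ≤ T) (hTT : T ≤ T₁) (hq : QOK q) (hq' : QOK q')
    (τ τ' : ℝ) :
    Real.exp (q * q' / 2 * |pq T₁ q τ - pq T₁ q' τ'| - xq T₁ q τ * (1 - q') / 2 -
      xq T₁ q' τ' * (1 - q) / 2 + 37 / 20 * max (xq T₁ q τ) (xq T₁ q' τ') +
      12 / 5 * max (ex T q τ) (ex T q' τ')) ≤ QX T q q' τ τ' :=
  QX_ge hT hTT (PX_of hq) (PX_of hq')

/-- the cutoff of a composite group pays its excess -/
theorem cut_ex {L ep e1 T q τ : ℝ} (hL : 0 ≤ L) (hep : 0 ≤ ep) (hep' : ep ≤ 1 / 100) (he1 : 0 ≤ e1)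
    (hT : T = (1 + 2 * e1 + 2 * ep) * (3 / 8 * L)) :
    Real.exp (12 / 5 * ex T q τ) * cut L ep q τ ≤ 1 := by
  unfold ex cut
  split_ifs with hq
  · rw [mul_zero, Real.exp_zero, one_mul]
  · refine (comp_cut hL hep hep' he1 hT).trans ?_
    rw [Real.exp_le_one_iff]
    have := xs_nonneg T τ
    linarith

/-- **kernels times direct factor times prefactor** -/
theorem QX_use {L ep e1 T q q' τ τ' : ℝ} (hL : 0 ≤ L) (hep : 0 ≤ ep) (hep' : ep ≤ 1 / 100)
    (he1 : 0 ≤ e1) (hT : T = (1 + 2 * e1 + 2 * ep) * (3 / 8 * L)) {k k' g C C' C'' : ℝ}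
    (k0' : 0 ≤ k') (g0 : 0 ≤ g) (hC : 0 ≤ C) (hC' : 0 ≤ C') (hC'' : 0 ≤ C'')
    (hk : k ≤ C * Real.exp (-|τ|) * cut L ep q τ)
    (hk' : k' ≤ C' * Real.exp (-|τ'|) * cut L ep q' τ')
    (hg : g ≤ C'' * Real.exp (-((q * q' + 1) / 2) * |τ - τ'|)) :
    k * k' * g * QX T q q' τ τ' ≤ C * C' * C'' * MQ T (τ, τ') := by
  have c0 := cut_nonneg L ep q τ
  have c0' := cut_nonneg L ep q' τ'
  have m0 := MQ_nonneg T (τ, τ')
  have e1' := cut_ex (q := q) (τ := τ) hL hep hep' he1 hT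
  have e2' := cut_ex (q := q') (τ := τ') hL hep hep' he1 hT
  have x0 := ex_nonneg T q τ
  have x0' := ex_nonneg T q' τ'
  have hX : max (ex T q τ) (ex T q' τ') ≤ ex T q τ + ex T q' τ' := max_le (by linarith) (by linarith)
  have s1 : k * k' * g ≤ (C * Real.exp (-|τ|) * cut L ep q τ) *
      (C' * Real.exp (-|τ'|) * cut L ep q' τ') *
      (C'' * Real.exp (-((q * q' + 1) / 2) * |τ - τ'|)) :=
    mul_le_mul (mul_le_mul hk hk' k0' (by positivity)) hg g0 (by positivity)
  refine (mul_le_mul_of_nonneg_right s1 (QX_nonneg _ _ _ _ _)).trans ?_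
  unfold QX
  have s2 : Real.exp (|τ| + |τ'| + (q * q' + 1) / 2 * |τ - τ'| +
      12 / 5 * max (ex T q τ) (ex T q' τ')) ≤ Real.exp (|τ|) * Real.exp (|τ'|) *
      Real.exp ((q * q' + 1) / 2 * |τ - τ'|) * (Real.exp (12 / 5 * ex T q τ) *
        Real.exp (12 / 5 * ex T q' τ')) := by
    rw [← Real.exp_add, ← Real.exp_add, ← Real.exp_add, ← Real.exp_add]
    refine Real.exp_le_exp.2 ?_
    linarith
  have a1 : Real.exp (-|τ|) * Real.exp (|τ|) = 1 := by rw [← Real.exp_add]; simp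
  have a2 : Real.exp (-|τ'|) * Real.exp (|τ'|) = 1 := by rw [← Real.exp_add]; simp
  have a3 : Real.exp (-((q * q' + 1) / 2) * |τ - τ'|) * Real.exp ((q * q' + 1) / 2 * |τ - τ'|) =
      1 := by
    rw [← Real.exp_add, show -((q * q' + 1) / 2) * |τ - τ'| + (q * q' + 1) / 2 * |τ - τ'| = 0 by
      ring, Real.exp_zero]
  have e3 : (Real.exp (12 / 5 * ex T q τ) * cut L ep q τ) *
      (Real.exp (12 / 5 * ex T q' τ') * cut L ep q' τ') ≤ 1 :=
    mul_le_one₀ e1' (by positivity) e2'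
  calc (C * Real.exp (-|τ|) * cut L ep q τ) * (C' * Real.exp (-|τ'|) * cut L ep q' τ') *
      (C'' * Real.exp (-((q * q' + 1) / 2) * |τ - τ'|)) *
      (Real.exp (|τ| + |τ'| + (q * q' + 1) / 2 * |τ - τ'| +
        12 / 5 * max (ex T q τ) (ex T q' τ')) * MQ T (τ, τ'))
      ≤ (C * Real.exp (-|τ|) * cut L ep q τ) * (C' * Real.exp (-|τ'|) * cut L ep q' τ') *
      (C'' * Real.exp (-((q * q' + 1) / 2) * |τ - τ'|)) *
      ((Real.exp (|τ|) * Real.exp (|τ'|) *
      Real.exp ((q * q' + 1) / 2 * |τ - τ'|) * (Real.exp (12 / 5 * ex T q τ) *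
        Real.exp (12 / 5 * ex T q' τ'))) * MQ T (τ, τ')) := by
        refine mul_le_mul_of_nonneg_left (mul_le_mul_of_nonneg_right s2 m0) (by positivity)
    _ = C * C' * C'' * ((Real.exp (-|τ|) * Real.exp (|τ|)) * (Real.exp (-|τ'|) * Real.exp (|τ'|)) *
        (Real.exp (-((q * q' + 1) / 2) * |τ - τ'|) * Real.exp ((q * q' + 1) / 2 * |τ - τ'|)) *
        ((Real.exp (12 / 5 * ex T q τ) * cut L ep q τ) *
          (Real.exp (12 / 5 * ex T q' τ') * cut L ep q' τ'))) * MQ T (τ, τ') := by ring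
    _ ≤ C * C' * C'' * MQ T (τ, τ') := by
        rw [a1, a2, a3, one_mul, one_mul, one_mul]
        refine mul_le_mul_of_nonneg_right ?_ m0
        exact mul_le_of_le_one_right (by positivity) e3

/-- the factor of the far range -/
def fr (T L : ℝ) (z : ℝ × ℝ) : ℝ := if |z.1| ≤ T ∧ |z.2| ≤ T then 1 else Real.exp (L / 2)

/-- the integrable majorant -/
def GQ (T L : ℝ) (z : ℝ × ℝ) : ℝ := QI0 z + Real.exp (L / 2) * MJ T z

theorem fr_MQ (T L : ℝ) (z : ℝ × ℝ) : fr T L z * MQ T z ≤ GQ T L z := by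
  unfold fr MQ GQ
  have h1 : 0 ≤ QI0 z := (Real.exp_pos _).le
  have h2 : 0 ≤ Real.exp (L / 2) * MJ T z := mul_nonneg (Real.exp_pos _).le (Real.exp_pos _).le
  split_ifs
  · rw [one_mul]
    linarith
  · linarith

/-- **the majorant has a bounded integral** -/
theorem GQ_int {T L : ℝ} (hL : 0 ≤ L) (hT : 3 / 8 * L ≤ T) :
    Integrable (GQ T L) ∧ ∫ z, GQ T L z ≤ 432004 := by
  have hT0 : 0 ≤ T := by linarith
  obtain ⟨i1, i2⟩ := QI0_int
  obtain ⟨j1, j2⟩ := MJ_int hT0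
  have e : GQ T L = fun z => QI0 z + Real.exp (L / 2) * MJ T z := rfl
  refine ⟨e ▸ i1.add (j1.const_mul _), ?_⟩
  rw [e, integral_add i1 (j1.const_mul _), integral_const_mul]
  have h1 := sq_le_exp hT0 (show (0 : ℝ) < 1 / 6 by norm_num) (by norm_num)
  have h2 : Real.exp (L / 2) * ∫ z, MJ T z ≤ 432000 := by
    calc Real.exp (L / 2) * ∫ z, MJ T z
        ≤ Real.exp (L / 2) * (3000 * (1 + T) ^ 2 * Real.exp (-(3 / 2) * T)) :=
          mul_le_mul_of_nonneg_left j2 (Real.exp_pos _).le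
      _ ≤ Real.exp (L / 2) * (3000 * (4 / (1 / 6) ^ 2 * Real.exp (1 / 6 * T)) *
          Real.exp (-(3 / 2) * T)) := by gcongr
      _ = 432000 * (Real.exp (L / 2) * Real.exp (1 / 6 * T) * Real.exp (-(3 / 2) * T)) := by ring
      _ ≤ 432000 * 1 := by
          refine mul_le_mul_of_nonneg_left ?_ (by norm_num)
          rw [← Real.exp_add, ← Real.exp_add, Real.exp_le_one_iff]
          linarith
      _ = 432000 := by norm_num
  linarith

/-- the majorant of a neutral group -/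
theorem d1_maj {T L τ : ℝ} (hL : 0 ≤ L) (hT : 3 / 8 * L ≤ T) :
    Real.exp (-2 * |τ|) * ((if |τ| ≤ T then 1 else Real.exp (L / 2)) * Real.exp (37 / 20 * xs T τ)) ≤
      Real.exp (-(3 / 20) * |τ|) := by
  unfold xs
  split_ifs with h
  · rw [one_mul, ← Real.exp_add, max_eq_right (by linarith)]
    refine Real.exp_le_exp.2 ?_
    have := abs_nonneg τ
    linarith
  · rw [← Real.exp_add, ← Real.exp_add]
    refine Real.exp_le_exp.2 ?_
    push Not at h
    rw [max_eq_left (by linarith)]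
    linarith

theorem d1_int : Integrable (fun τ : ℝ => Real.exp (-(3 / 20) * |τ|)) ∧
    ∫ τ : ℝ, Real.exp (-(3 / 20) * |τ|) = 40 / 3 := by
  have h := qi_exp_abs (a := 3 / 20) (by norm_num) 0
  simp only [sub_zero] at h
  refine ⟨h.1, ?_⟩
  rw [h.2]
  norm_num

end

end NUGC
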