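import Pool.Agent.NUGC.MasterC
import Pool.Agent.NUGC.PrefMF
import Pool.Agent.NUGC.QC1
import Pool.Agent.NUO.S4

/-!
# The prefactors of the final classes of TARGET-C and their integral (`PerAll`, first part)

* `clh t i`: the class of spectators (75) of the type `t` with (`i = true`) or without the quantum at
  the simple pole;
* `ownX`, `ownY`: the own factors of `w`, `w'`; `gO`: the direct factor of the two groups;
  `pre_wK`: prefactor times weight of a choice is their product;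
* `OwnLe`, `DirLe`: their bounds (45, 94; 25, 27);
* `QF`: the prefactor of `PerGen`; **`int_QF`**: the integral of `PerAll`; `int_QD`: the same for D1, D1'.
-/

set_option autoImplicit false
set_option linter.unusedSectionVars false

noncomputable section

open MeasureTheory Finset
open scoped ENNReal

namespace NUGC

open NUO NUP1 NUCR NUP1S NURow NUP1.Leg NUP1.Bd

/-- the class of spectators of the type `t` with the choice `i` -/
def clh : HT → Bool → NUSp.Cl
  | .W, _ => .w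
  | .F, _ => .w
  | .P, _ => .p
  | .H, false => .hs
  | .H, true => .hp

/-- doubled charge -/
def qh (t : HT) (i : Bool) : ℝ := NUSp.qc (clh t i)

theorem qh_ok (t : HT) (i : Bool) : QOK (qh t i) := by
  unfold qh QOK
  cases t <;> cases i <;> simp [clh, NUSp.qc]

/-- own factor of a half quantum: kernel with the host string -/
def ownK (kF kP : ℂ → ℂ) (Y : Option O3 → ℂ → ℂ) : HT → ℂ → ℂ
  | .W => kF
  | .F => kF
  | .P => kP
  | .H => fun w => -(2 * Real.pi * rD (2 * l) * wt .S * Y (some .S) (w - 2 * l)) * kF w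

section cF
variable (X Y : Option O3 → ℂ → ℂ) (kF kP kF' kP' : ℂ → ℂ) (t t' : HT)

theorem cF_K : (cF X Y kF kP kF' kP' t t').K = ownK kF kP Y t := by
  cases t <;> cases t' <;> rfl

theorem cF_K' : (cF X Y kF kP kF' kP' t t').K' = ownK kF' kP' X t' := by
  cases t <;> cases t' <;> rfl

end cF

/-- weight of the quantum of species `a` at the simple pole, own part -/
def ownQ (ep : ℝ) (M : ℕ) (a : Bool) (w : ℂ) : ℝ :=
  ‖R1 (ccM M a) M w * phN (beC ep) M w * hR1 0‖

/-- own factor of `w` -/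
def ownX (ep : ℝ) (M : ℕ) (t : HT) (i : Bool) (w : ℂ) : ℝ :=
  ‖ownK (KF M) (KP (NUP1.Leg.cc (2 * M)) (beC ep) M M) (XC ep M false) t w‖ *
    (if i then ownQ ep M true w else 1)

/-- own factor of `w'` -/
def ownY (ep : ℝ) (M : ℕ) (t : HT) (i : Bool) (w : ℂ) : ℝ :=
  ‖ownK (KF' M) (KP' (NUP1.Leg.cc (2 * M)) (beC ep) M M) (XC ep M true) t w‖ *
    (if i then ownQ ep M false w else 1)

/-- direct factor of the two groups -/
def gO (ep : ℝ) (M : ℕ) (t t' : HT) (i i' : Bool) (w w' : ℂ) : ℝ :=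
  ‖(clC ep M t t').gw (w - w')‖ * (if i then ‖htT t' false (w' - w)‖ else 1) *
    (if i' then ‖htT t false (w - w')‖ else 1) * (if i && i' then ‖Bd.qg (w - w')‖ else 1)

theorem ownX_nonneg (ep : ℝ) (M : ℕ) (t : HT) (i : Bool) (w : ℂ) : 0 ≤ ownX ep M t i w := by
  unfold ownX ownQ
  split_ifs <;> positivity

theorem ownY_nonneg (ep : ℝ) (M : ℕ) (t : HT) (i : Bool) (w : ℂ) : 0 ≤ ownY ep M t i w := by
  unfold ownY ownQ
  split_ifs <;> positivity

theorem gO_nonneg (ep : ℝ) (M : ℕ) (t t' : HT) (i i' : Bool) (w w' : ℂ) :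
    0 ≤ gO ep M t t' i i' w w' := by
  unfold gO
  split_ifs <;> positivity

/-- **prefactor times weight of a choice** -/
theorem pre_wK (ep : ℝ) (M : ℕ) {t t' : HT} {i i' : Bool} (h : i = true → htP t = true)
    (h' : i' = true → htP t' = true) (w w' : ℂ) :
    ‖(clC ep M t t').pre w w'‖ * wK (ccM M) (beC ep) M M t t' w w' i i' =
      ownX ep M t i w * ownY ep M t' i' w' * gO ep M t t' i i' w w' := by
  have e1 : (clC ep M t t').pre w w' = ownK (KF M) (KP (NUP1.Leg.cc (2 * M)) (beC ep) M M)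
      (XC ep M false) t w * ownK (KF' M) (KP' (NUP1.Leg.cc (2 * M)) (beC ep) M M) (XC ep M true)
      t' w' * (clC ep M t t').gw (w - w') := by
    unfold CD.pre Pre clC
    rw [cF_K, cF_K']
  have e2 : i = true → GrX (ccM M) (beC ep) M M (tG (htT t) (htT t') w w') true w =
      (R1 (ccM M true) M w * phN (beC ep) M w * hR1 0) * htT t' false (w' - w) := by
    intro hi
    have ht : t = .H := by
      have := h hi
      cases t <;> simp_all [htP]
    subst ht
    unfold GrX tG htT hT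
    simp only [sub_self, if_true, Bool.not_true]
    ring
  have e3 : i' = true → GrX (ccM M) (beC ep) M M (tG (htT t) (htT t') w w') false w' =
      (R1 (ccM M false) M w' * phN (beC ep) M w' * hR1 0) * htT t false (w - w') := by
    intro hi
    have ht : t' = .H := by
      have := h' hi
      cases t' <;> simp_all [htP]
    subst ht
    unfold GrX tG
    simp only [htT, hT, sub_self, if_true, Bool.not_false]
    ring
  unfold wK
  rw [if_pos ⟨h, h'⟩, e1]
  unfold wgt2 ownX ownY gO ownQ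
  rcases i with _ | _ <;> rcases i' with _ | _
  · simp only [Bool.false_eq_true, if_false, Bool.and_false, norm_mul]
    ring
  · rw [e3 rfl]
    simp only [Bool.false_eq_true, if_false, if_true, Bool.false_and, norm_mul]
    ring
  · rw [e2 rfl]
    simp only [Bool.false_eq_true, if_false, if_true, Bool.and_false, norm_mul]
    ring
  · rw [e2 rfl, e3 rfl]
    simp only [if_true, Bool.and_self, norm_mul]
    ring

/-! ### the bounds of the parts -/

/-- bound of the own factors with the sea term -/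
def OwnLe (C : ℝ) : Prop := ∀ (ep : ℝ), 0 < ep → ep ≤ 1 / 100 → ∀ (M : ℕ), 1 ≤ M →
  ∀ (t : HT) (i : Bool), (i = true → htP t = true) → ∀ τ : ℝ,
    ownX ep M t i (vl (htL t) τ) * Real.exp ((2 * (M : ℝ) + 1) *
        NUPref.MF (clh t i) (vl (htL t) τ)) ≤
      C * Real.exp (-|τ|) * cut (Real.log (2 * M + 1)) ep (qh t i) τ ∧
    ownY ep M t i (vl (htL t) τ) * Real.exp ((2 * (M : ℝ) + 1) *
        NUPref.MF (clh t i) (vl (htL t) τ)) ≤
      C * Real.exp (-|τ|) * cut (Real.log (2 * M + 1)) ep (qh t i) τ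

/-- bound of the direct factors of the two groups -/
def DirLe (C : ℝ) : Prop := ∀ (ep : ℝ) (M : ℕ) (t t' : HT) (i i' : Bool),
  (i = true → htP t = true) → (i' = true → htP t' = true) → ∀ τ τ' : ℝ,
    gO ep M t t' i i' (vl (htL t) τ) (vl (htL t') τ') ≤
      C * Real.exp (-((qh t i * qh t' i' + 1) / 2) * |τ - τ'|)

/-- bound of the kernels of D1, D1' with the sea term -/
def OwnDLe (C : ℝ) : Prop := ∀ (M : ℕ), 1 ≤ M → ∀ (o : Bool) (τ : ℝ),
  ‖(clD M o).K (vl (-(11 / 4) * l) τ)‖ * Real.exp ((2 * (M : ℝ) + 1) *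
    NUPref.MF .d (vl (-(11 / 4) * l) τ)) ≤ C * Real.exp (-2 * |τ|)

/-! ### the integral of the two groups -/

/-- **the prefactor of the choice `u` of the class `t, t'`** (`A` = constant) -/
def QF (ep e1 : ℝ) (M : ℕ) (A : ℝ) (t t' : HT) (y : ℝ × ℝ) (u : Bool × Bool) : ℝ :=
  A * (Real.exp ((2 * (M : ℝ) + 1) * NUPref.MF (clh t u.1) (vl (htL t) y.1)) *
    Real.exp ((2 * (M : ℝ) + 1) * NUPref.MF (clh t' u.2) (vl (htL t') y.2)) *
    (fr (TW ep e1 (2 * M + 1)) (Real.log (2 * M + 1)) y *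
      QX (TW ep e1 (2 * M + 1)) (qh t u.1) (qh t' u.2) y.1 y.2))

/-- **the prefactor of D1, D1'** -/
def QD (ep e1 : ℝ) (M : ℕ) (A : ℝ) (τ : ℝ) : ℝ :=
  A * (Real.exp ((2 * (M : ℝ) + 1) * NUPref.MF .d (vl (-(11 / 4) * l) τ)) *
    ((if |τ| ≤ TW ep e1 (2 * M + 1) then 1 else Real.exp (Real.log (2 * M + 1) / 2)) *
      Real.exp (37 / 20 * xs (TW ep e1 (2 * M + 1)) τ)))

theorem fr_nonneg (T L : ℝ) (z : ℝ × ℝ) : 0 ≤ fr T L z := by
  unfold fr
  split_ifs
  · exact zero_le_one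
  · exact (Real.exp_pos _).le

theorem QF_nonneg {ep e1 : ℝ} {M : ℕ} {A : ℝ} (hA : 0 ≤ A) (t t' : HT) (y : ℝ × ℝ)
    (u : Bool × Bool) : 0 ≤ QF ep e1 M A t t' y u :=
  mul_nonneg hA (mul_nonneg (mul_nonneg (Real.exp_pos _).le (Real.exp_pos _).le)
    (mul_nonneg (fr_nonneg _ _ _) (QX_nonneg _ _ _ _ _)))

theorem QD_nonneg {ep e1 : ℝ} {M : ℕ} {A : ℝ} (hA : 0 ≤ A) (τ : ℝ) : 0 ≤ QD ep e1 M A τ := by
  unfold QD
  refine mul_nonneg hA (mul_nonneg (Real.exp_pos _).le (mul_nonneg ?_ (Real.exp_pos _).le))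
  split_ifs
  · exact zero_le_one
  · exact (Real.exp_pos _).le

theorem TW_cast (ep e1 : ℝ) (M : ℕ) : TW ep e1 (2 * M + 1) =
    (1 + 2 * e1 + 2 * ep) * (3 / 8 * Real.log (2 * (M : ℝ) + 1)) := by
  unfold TW Tb
  push_cast
  rfl

theorem log_m_nonneg (M : ℕ) : 0 ≤ Real.log (2 * (M : ℝ) + 1) :=
  Real.log_nonneg (by have : (0 : ℝ) ≤ M := Nat.cast_nonneg M; linarith)

/-- one choice -/
theorem choice_le {C CG : ℝ} (hC : 0 ≤ C) (hCG : 0 ≤ CG) (hO : OwnLe C) (hG : DirLe CG) {ep e1 : ℝ}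
    (hep : 0 < ep) (hep' : ep ≤ 1 / 100) (he1 : 0 ≤ e1) {M : ℕ} (hM : 1 ≤ M) {A : ℝ} (hA : 0 ≤ A)
    (t t' : HT) (y : ℝ × ℝ) (u : Bool × Bool) :
    ‖(clC ep M t t').pre (vl (htL t) y.1) (vl (htL t') y.2)‖ *
      (wK (ccM M) (beC ep) M M t t' (vl (htL t) y.1) (vl (htL t') y.2) u.1 u.2 *
        QF ep e1 M A t t' y u) ≤
      A * (C * C * CG) * GQ (TW ep e1 (2 * M + 1)) (Real.log (2 * M + 1)) y := by
  have hL := log_m_nonneg M
  have g0 : 0 ≤ GQ (TW ep e1 (2 * M + 1)) (Real.log (2 * M + 1)) y :=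
    (mul_nonneg (fr_nonneg _ _ _) (MQ_nonneg _ _)).trans (fr_MQ _ _ _)
  by_cases hf : (u.1 = true → htP t = true) ∧ (u.2 = true → htP t' = true)
  · obtain ⟨h, h'⟩ := hf
    obtain ⟨a1, -⟩ := hO ep hep hep' M hM t u.1 h y.1
    obtain ⟨-, a2⟩ := hO ep hep hep' M hM t' u.2 h' y.2
    have a3 := hG ep M t t' u.1 u.2 h h' y.1 y.2
    have key := QX_use (q := qh t u.1) (q' := qh t' u.2) hL hep.le hep' he1 (TW_cast ep e1 M)
      (mul_nonneg (ownY_nonneg ep M t' u.2 (vl (htL t') y.2)) (Real.exp_pos _).le)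
      (gO_nonneg ep M t t' u.1 u.2 _ _) hC hC hCG a1 a2 a3
    rw [← mul_assoc, pre_wK ep M h h']
    unfold QF
    set E1 := Real.exp ((2 * (M : ℝ) + 1) * NUPref.MF (clh t u.1) (vl (htL t) y.1))
    set E2 := Real.exp ((2 * (M : ℝ) + 1) * NUPref.MF (clh t' u.2) (vl (htL t') y.2))
    set k1 := ownX ep M t u.1 (vl (htL t) y.1)
    set k2 := ownY ep M t' u.2 (vl (htL t') y.2)
    set g := gO ep M t t' u.1 u.2 (vl (htL t) y.1) (vl (htL t') y.2)
    set qx := QX (TW ep e1 (2 * M + 1)) (qh t u.1) (qh t' u.2) y.1 y.2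
    set f := fr (TW ep e1 (2 * M + 1)) (Real.log (2 * M + 1)) y with hfr
    have f0 : 0 ≤ f := fr_nonneg _ _ _
    calc k1 * k2 * g * (A * (E1 * E2 * (f * qx)))
        = A * f * (k1 * E1 * (k2 * E2) * g * qx) := by ring
      _ ≤ A * f * (C * C * CG * MQ (TW ep e1 (2 * M + 1)) (y.1, y.2)) :=
          mul_le_mul_of_nonneg_left key (mul_nonneg hA f0)
      _ = A * (C * C * CG) * (f * MQ (TW ep e1 (2 * M + 1)) y) := by ring
      _ ≤ _ := mul_le_mul_of_nonneg_left (fr_MQ _ _ _) (by positivity)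
  · have : wK (ccM M) (beC ep) M M t t' (vl (htL t) y.1) (vl (htL t') y.2) u.1 u.2 = 0 := by
      unfold wK
      rw [if_neg hf]
    rw [this, zero_mul, mul_zero]
    exact mul_nonneg (by positivity) g0

/-- **the integral of the prefactors of the class `t, t'`** -/
theorem int_QF {C CG : ℝ} (hC : 0 ≤ C) (hCG : 0 ≤ CG) (hO : OwnLe C) (hG : DirLe CG) {ep e1 : ℝ}
    (hep : 0 < ep) (hep' : ep ≤ 1 / 100) (he1 : 0 ≤ e1) {M : ℕ} (hM : 1 ≤ M) {A : ℝ} (hA : 0 ≤ A)
    (t t' : HT) :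
    ∫⁻ y : ℝ × ℝ, ‖(clC ep M t t').pre (vl (htL t) y.1) (vl (htL t') y.2)‖ₑ *
        ENNReal.ofReal (∑ u : Bool × Bool, wK (ccM M) (beC ep) M M t t' (vl (htL t) y.1)
          (vl (htL t') y.2) u.1 u.2 * QF ep e1 M A t t' y u) ≤
      ENNReal.ofReal (1728016 * (C * C * CG) * A) := by
  have hL := log_m_nonneg M
  have hT : 3 / 8 * Real.log (2 * M + 1) ≤ TW ep e1 (2 * M + 1) := by
    rw [TW_cast]
    nlinarith
  obtain ⟨i1, i2⟩ := GQ_int hL hT
  set T := TW ep e1 (2 * M + 1)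
  set L := Real.log (2 * (M : ℝ) + 1)
  have hB : 0 ≤ A * (C * C * CG) := by positivity
  calc ∫⁻ y : ℝ × ℝ, ‖(clC ep M t t').pre (vl (htL t) y.1) (vl (htL t') y.2)‖ₑ *
        ENNReal.ofReal (∑ u : Bool × Bool, wK (ccM M) (beC ep) M M t t' (vl (htL t) y.1)
          (vl (htL t') y.2) u.1 u.2 * QF ep e1 M A t t' y u)
      ≤ ∫⁻ y : ℝ × ℝ, ENNReal.ofReal (4 * (A * (C * C * CG)) * GQ T L y) := by
        refine lintegral_mono fun y => ?_
        rw [← ofReal_norm, ← ENNReal.ofReal_mul (norm_nonneg _)]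
        refine ENNReal.ofReal_le_ofReal ?_
        rw [mul_sum]
        calc ∑ u : Bool × Bool, ‖(clC ep M t t').pre (vl (htL t) y.1) (vl (htL t') y.2)‖ *
              (wK (ccM M) (beC ep) M M t t' (vl (htL t) y.1) (vl (htL t') y.2) u.1 u.2 *
                QF ep e1 M A t t' y u)
            ≤ ∑ _u : Bool × Bool, A * (C * C * CG) * GQ T L y :=
              sum_le_sum fun u _ => choice_le hC hCG hO hG hep hep' he1 hM hA t t' y u
          _ = 4 * (A * (C * C * CG)) * GQ T L y := by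
              rw [sum_const, card_univ, Fintype.card_prod, Fintype.card_bool]
              simp only [nsmul_eq_mul]
              push_cast
              ring
    _ = ENNReal.ofReal (∫ y : ℝ × ℝ, 4 * (A * (C * C * CG)) * GQ T L y) := by
        refine (ofReal_integral_eq_lintegral_ofReal (i1.const_mul _) ?_).symm
        refine Filter.Eventually.of_forall fun y => mul_nonneg (by positivity) ?_
        exact (mul_nonneg (fr_nonneg _ _ _) (MQ_nonneg _ _)).trans (fr_MQ _ _ _)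
    _ ≤ _ := by
        refine ENNReal.ofReal_le_ofReal ?_
        rw [integral_const_mul]
        calc 4 * (A * (C * C * CG)) * ∫ y, GQ T L y ≤ 4 * (A * (C * C * CG)) * 432004 :=
              mul_le_mul_of_nonneg_left i2 (by positivity)
          _ = 1728016 * (C * C * CG) * A := by ring

/-- **the integral of the prefactors of D1, D1'** -/
theorem int_QD {C : ℝ} (hC : 0 ≤ C) (hD : OwnDLe C) {ep e1 : ℝ} (hep : 0 ≤ ep) (he1 : 0 ≤ e1)
    {M : ℕ} (hM : 1 ≤ M) {A : ℝ} (hA : 0 ≤ A) (o : Bool) :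
    ∫⁻ y : ℝ, ‖(clD M o).K (vl (-(11 / 4) * l) y)‖ₑ * ENNReal.ofReal (QD ep e1 M A y) ≤
      ENNReal.ofReal (40 / 3 * C * A) := by
  have hL := log_m_nonneg M
  have hT : 3 / 8 * Real.log (2 * M + 1) ≤ TW ep e1 (2 * M + 1) := by
    rw [TW_cast]
    nlinarith
  obtain ⟨i1, i2⟩ := d1_int
  calc ∫⁻ y : ℝ, ‖(clD M o).K (vl (-(11 / 4) * l) y)‖ₑ * ENNReal.ofReal (QD ep e1 M A y)
      ≤ ∫⁻ y : ℝ, ENNReal.ofReal (C * A * Real.exp (-(3 / 20) * |y|)) := by
        refine lintegral_mono fun y => ?_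
        rw [← ofReal_norm, ← ENNReal.ofReal_mul (norm_nonneg _)]
        refine ENNReal.ofReal_le_ofReal ?_
        have a1 := hD M hM o y
        have a2 := d1_maj (τ := y) hL hT
        unfold QD
        set f : ℝ := (if |y| ≤ TW ep e1 (2 * M + 1) then 1 else
          Real.exp (Real.log (2 * M + 1) / 2)) * Real.exp (37 / 20 * xs (TW ep e1 (2 * M + 1)) y)
          with hf
        have f0 : 0 ≤ f := by
          rw [hf]
          refine mul_nonneg ?_ (Real.exp_pos _).le
          split_ifs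
          · exact zero_le_one
          · exact (Real.exp_pos _).le
        set E := Real.exp ((2 * (M : ℝ) + 1) * NUPref.MF .d (vl (-(11 / 4) * l) y))
        set k := ‖(clD M o).K (vl (-(11 / 4) * l) y)‖
        calc k * (A * (E * f)) = A * f * (k * E) := by ring
          _ ≤ A * f * (C * Real.exp (-2 * |y|)) := mul_le_mul_of_nonneg_left a1 (by positivity)
          _ = C * A * (Real.exp (-2 * |y|) * f) := by ring
          _ ≤ _ := mul_le_mul_of_nonneg_left a2 (by positivity)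
    _ = ENNReal.ofReal (∫ y : ℝ, C * A * Real.exp (-(3 / 20) * |y|)) :=
        (ofReal_integral_eq_lintegral_ofReal (i1.const_mul _)
          (Filter.Eventually.of_forall fun y => by positivity)).symm
    _ ≤ _ := by
        refine ENNReal.ofReal_le_ofReal ?_
        rw [integral_const_mul, i2]
        exact le_of_eq (by ring)

end NUGC

end
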