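import Pool.Agent.NUGC.PrefU
import Pool.Agent.NUGC.QC2

/-!
# `OwnLe` for the types `W`, `F`, `P`, and `OwnDLe` (helper45)
-/

set_option autoImplicit false
set_option linter.unusedSectionVars false

noncomputable section

open MeasureTheory Finset
open scoped ENNReal

namespace NUGC

open NUO NUP1 NUCR NUP1S NURow NUP1.Leg NUP1.Bd

/-- **`OwnLe` for the types `W`, `F`, `P`** -/
theorem own_ne_H : ∃ C : ℝ, 0 < C ∧ ∀ (ep : ℝ), 0 < ep → ep ≤ 1 / 100 → ∀ (M : ℕ), 1 ≤ M →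
    ∀ (t : HT) (i : Bool), t ≠ .H → (i = true → htP t = true) → ∀ τ : ℝ,
    ownX ep M t i (vl (htL t) τ) * Real.exp ((2 * (M : ℝ) + 1) *
        NUPref.MF (clh t i) (vl (htL t) τ)) ≤
      C * Real.exp (-|τ|) * cut (Real.log (2 * M + 1)) ep (qh t i) τ ∧
    ownY ep M t i (vl (htL t) τ) * Real.exp ((2 * (M : ℝ) + 1) *
        NUPref.MF (clh t i) (vl (htL t) τ)) ≤
      C * Real.exp (-|τ|) * cut (Real.log (2 * M + 1)) ep (qh t i) τ := by
  obtain ⟨C, hC, H⟩ := NUPn.own_WFP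
  refine ⟨C, hC, fun ep h0 h1 M hM t i ht hi τ => ?_⟩
  have hc : ‖NUP1.Leg.cc (2 * M)‖ = 2 * Real.cos NUP1.l := norm_ccM M true
  obtain ⟨a1, a2, a3⟩ := H true M τ
  obtain ⟨b1, b2, b3⟩ := H false M τ
  have a4 := a3 (NUP1.Leg.cc (2 * M)) ep hc h0.le (by linarith)
  have b4 := b3 (NUP1.Leg.cc (2 * M)) ep hc h0.le (by linarith)
  have c1 : ∀ τ : ℝ, cut (Real.log (2 * M + 1)) ep 1 τ = 1 := fun τ => if_pos rfl
  cases t
  · cases i
    · have e : qh .W false = 1 := rfl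
      rw [e, c1, mul_one]
      exact ⟨by simpa [ownX, ownK, NUPn.KFs, clh, htL] using a1,
        by simpa [ownY, ownK, NUPn.KFs, clh, htL] using b1⟩
    · exact absurd (hi rfl) (by simp [htP])
  · cases i
    · have e : qh .F false = 1 := rfl
      rw [e, c1, mul_one]
      exact ⟨by simpa [ownX, ownK, NUPn.KFs, clh, htL] using a2,
        by simpa [ownY, ownK, NUPn.KFs, clh, htL] using b2⟩
    · exact absurd (hi rfl) (by simp [htP])
  · cases i
    · have e : qh .P false = -1 := rfl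
      rw [e]
      exact ⟨by simpa [ownX, ownK, NUPn.KPs, clh, htL, beC] using a4,
        by simpa [ownY, ownK, NUPn.KPs, clh, htL, beC] using b4⟩
    · exact absurd (hi rfl) (by simp [htP])
  · exact absurd rfl ht

/-- **`OwnDLe`** -/
theorem ownD : ∃ C : ℝ, 0 < C ∧ OwnDLe C := by
  obtain ⟨C, hC, H⟩ := NUPn.own_D
  refine ⟨C, hC, fun M hM o τ => ?_⟩
  cases o
  · exact H true M τ
  · exact H false M τ

end NUGC

end
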