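import Pool.Agent.NUGC.PrefMF
import Pool.Agent.NURow.Pref
import Pool.Agent.NURow.Pcut
import Pool.Agent.NUMFH.Weights

/-!
# The factors of the rows and ends as exponentials of `la w a = log |sin (w + a l)|`

`Gd p`: no half integer translate of `p` is a multiple of `8` (real part `p l` without row poles);
`exists_K`: bound of the difference of `la w (n + 1/2)` and the height; `nKF`, `nKF'`, `nR1` exact moduli;
`phN_le`: the cutoff, uniform in `β ≤ 4/3`.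
-/

set_option autoImplicit false

open Complex

namespace NUPrefH

open NUHM NUPref
open NURow hiding Th
open NUO hiding Ph

noncomputable section

/-! ### one sine -/

lemma la_eq {w : ℂ} {a : ℝ} (h : Complex.sin (w + ((a * NUMF.l : ℝ) : ℂ)) ≠ 0) :
    ‖Complex.sin (w + ((a * NUMF.l : ℝ) : ℂ))‖ = Real.exp (la w a) := by
  have hl := NUMF.l_pos
  have e : w + ((a * NUMF.l : ℝ) : ℂ) = NUMF.zj (w.re / NUMF.l + a) w.im := by
    unfold NUMF.zj
    have h1 : (w.re / NUMF.l + a) * NUMF.l = w.re + a * NUMF.l := by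
      field_simp
    rw [h1]
    apply Complex.ext <;> simp
  rw [e] at h ⊢
  unfold la
  rw [← ls_eq h, Real.exp_log (norm_pos_iff.2 h)]

lemma ls_bd {w : ℂ} {a δ : ℝ} (hδ : 0 < δ) (h : δ ≤ |Real.sin (w.re + a * NUMF.l)|) :
    Complex.sin (w + ((a * NUMF.l : ℝ) : ℂ)) ≠ 0 ∧ |la w a - (|w.im|)| ≤ Real.log (2 / δ) := by
  have h0 : Complex.sin (w + ((a * NUMF.l : ℝ) : ℂ)) ≠ 0 := by
    refine NUP1.Bd.sin_ne_zero_of_re ?_
    rw [Complex.add_re, Complex.ofReal_re]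
    intro h1
    rw [h1, abs_zero] at h
    linarith
  refine ⟨h0, ?_⟩
  have e := la_eq h0
  have h1 := NUP1.Bd.le_norm_sin_add w (a * NUMF.l)
  have h2 := NUP1.Bd.norm_sin_add_le w (a * NUMF.l)
  rw [e] at h1 h2
  have h3 := NUP1.Bd.exp_le_cosh w.im
  have h4 := NUP1.Bd.cosh_le_exp w.im
  have hδ1 : δ ≤ 1 := h.trans (Real.abs_sin_le_one _)
  have u1 : la w a ≤ |w.im| := Real.exp_le_exp.1 (h2.trans h4)
  have u2 : Real.exp (|w.im| - Real.log (2 / δ)) ≤ Real.exp (la w a) := by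
    rw [Real.exp_sub, Real.exp_log (by positivity)]
    refine le_trans ?_ h1
    have h5 : δ * (Real.exp |w.im| / 2) ≤ |Real.sin (w.re + a * NUMF.l)| * Real.cosh w.im :=
      mul_le_mul h (by linarith) (by positivity) (abs_nonneg _)
    refine le_trans (le_of_eq ?_) h5
    field_simp
  have u3 := Real.exp_le_exp.1 u2
  have u4 : 0 ≤ Real.log (2 / δ) := by
    refine Real.log_nonneg ?_
    rw [le_div_iff₀ hδ]
    linarith
  rw [abs_le]
  constructor <;> linarith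

/-- the real part `p l` meets no row and no end -/
def Gd (p : ℝ) : Prop := ∀ n : ℤ, Real.sin ((p + (n + 1 / 2)) * NUMF.l) ≠ 0

lemma Gd_of {p : ℝ} (h : ∀ n : ℤ, p + (n + 1 / 2) ≠ 0) (h8 : ∀ n m : ℤ, p + (n + 1 / 2) ≠ 8 * m) :
    Gd p := by
  intro n h0
  obtain ⟨m, hm⟩ := Real.sin_eq_zero_iff.1 h0
  have hl := NUMF.l_pos
  have e : (8 : ℝ) * NUMF.l = Real.pi := by unfold NUMF.l; ring
  rw [← e] at hm
  apply h8 n m
  have : (p + (n + 1 / 2)) * NUMF.l = (8 * m) * NUMF.l := by linarith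
  exact mul_right_cancel₀ hl.ne' this

lemma Gd_54 : Gd (5 / 4) := by
  refine Gd_of (fun n h => ?_) fun n m h => ?_
  · have : (7 : ℝ) + 4 * n = 0 := by linarith
    have : (7 : ℤ) + 4 * n = 0 := by exact_mod_cast this
    omega
  · have : (7 : ℝ) + 4 * n = 32 * m := by linarith
    have : (7 : ℤ) + 4 * n = 32 * m := by exact_mod_cast this
    omega

lemma Gd_114 : Gd (-(11 / 4)) := by
  refine Gd_of (fun n h => ?_) fun n m h => ?_
  · have : (-9 : ℝ) + 4 * n = 0 := by linarith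
    have : (-9 : ℤ) + 4 * n = 0 := by exact_mod_cast this
    omega
  · have : (-9 : ℝ) + 4 * n = 32 * m := by linarith
    have : (-9 : ℤ) + 4 * n = 32 * m := by exact_mod_cast this
    omega

lemma Gd_58 : Gd (5 / 8) := by
  refine Gd_of (fun n h => ?_) fun n m h => ?_
  · have : (9 : ℝ) + 8 * n = 0 := by linarith
    have : (9 : ℤ) + 8 * n = 0 := by exact_mod_cast this
    omega
  · have : (9 : ℝ) + 8 * n = 64 * m := by linarith
    have : (9 : ℤ) + 8 * n = 64 * m := by exact_mod_cast this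
    omega

lemma sin_per (x : ℝ) (q : ℤ) : |Real.sin ((x + 8 * q) * NUMF.l)| = |Real.sin (x * NUMF.l)| := by
  have e : (x + 8 * q) * NUMF.l = x * NUMF.l + q * Real.pi := by unfold NUMF.l; ring
  rw [e, Real.sin_add_int_mul_pi, abs_mul]
  rcases Int.even_or_odd q with h | h
  · rw [h.neg_one_zpow, abs_one, one_mul]
  · rw [h.neg_one_zpow, abs_neg, abs_one, one_mul]

lemma exists_δ {p : ℝ} (h : Gd p) : ∃ δ : ℝ, 0 < δ ∧
    ∀ n : ℤ, δ ≤ |Real.sin ((p + (n + 1 / 2)) * NUMF.l)| := by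
  obtain ⟨r, -, hr⟩ := Finset.exists_min_image (Finset.range 8)
    (fun r : ℕ => |Real.sin ((p + ((r : ℤ) + 1 / 2)) * NUMF.l)|) ⟨0, by simp⟩
  refine ⟨|Real.sin ((p + ((r : ℤ) + 1 / 2)) * NUMF.l)|, abs_pos.2 (h r), fun n => ?_⟩
  have h1 : 0 ≤ n % 8 := Int.emod_nonneg n (by norm_num)
  have h2 : n % 8 < 8 := Int.emod_lt_of_pos n (by norm_num)
  have h3 : ((n % 8).toNat : ℤ) = n % 8 := Int.toNat_of_nonneg h1
  have h4 := hr (n % 8).toNat (by rw [Finset.mem_range]; omega)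
  have h5 : (n : ℝ) = ((n % 8).toNat : ℤ) + 8 * (n / 8 : ℤ) := by
    have : n = ((n % 8).toNat : ℤ) + 8 * (n / 8) := by omega
    exact_mod_cast this
  have h6 : (p + (n + 1 / 2)) * NUMF.l =
      ((p + (((n % 8).toNat : ℤ) + 1 / 2)) + 8 * (n / 8 : ℤ)) * NUMF.l := by rw [h5]; ring
  rw [h6, sin_per]
  exact h4

/-- **the sines at half integer distance** -/
theorem exists_K {p : ℝ} (h : Gd p) : ∃ K : ℝ, 0 ≤ K ∧ ∀ w : ℂ, w.re = p * NUMF.l → ∀ n : ℤ,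
    Complex.sin (w + (((n + 1 / 2) * NUMF.l : ℝ) : ℂ)) ≠ 0 ∧
      |la w (n + 1 / 2) - (|w.im|)| ≤ K := by
  obtain ⟨δ, hδ, h1⟩ := exists_δ h
  refine ⟨Real.log (2 / δ), ?_, fun w hw n => ?_⟩
  · refine Real.log_nonneg ?_
    rw [le_div_iff₀ hδ]
    have := (h1 0).trans (Real.abs_sin_le_one _)
    linarith
  · refine ls_bd hδ ?_
    rw [hw, ← add_mul]
    exact h1 n

/-- the line of `w` is good -/
def GW (w : ℂ) : Prop := ∀ n : ℤ, Complex.sin (w + (((n + 1 / 2) * NUMF.l : ℝ) : ℂ)) ≠ 0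

lemma GW_of {p : ℝ} (h : Gd p) {w : ℂ} (hw : w.re = p * NUMF.l) : GW w := by
  obtain ⟨K, -, hK⟩ := exists_K h
  exact fun n => (hK w hw n).1

/-! ### row factors -/

lemma la92 (w : ℂ) : la w (-(9 / 2)) = la w (7 / 2) := by rw [← la_per w (-(9 / 2))]; norm_num

lemma la112 (w : ℂ) : la w (-(11 / 2)) = la w (5 / 2) := by rw [← la_per w (-(11 / 2))]; norm_num

lemma one_div_exp (x : ℝ) : 1 / Real.exp x = Real.exp (-x) := by rw [Real.exp_neg, one_div]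

lemma div_exp (x y : ℝ) : Real.exp x / Real.exp y = Real.exp (x - y) := (Real.exp_sub x y).symm

section rows

variable {w : ℂ} (h : GW w)
include h

lemma nsin (n : ℤ) {z : ℂ} (hz : z = w + (n + 1 / 2) * NUP1.l) :
    z = z ∧ Complex.sin z ≠ 0 ∧ ‖Complex.sin z‖ = Real.exp (la w (n + 1 / 2)) := by
  have e : z = w + (((n + 1 / 2) * NUMF.l : ℝ) : ℂ) := by
    rw [hz]
    push_cast
    rfl
  rw [e]
  exact ⟨rfl, h n, la_eq (h n)⟩

/-- **rows of both groups** -/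
theorem nKr (M : ℕ) : ‖Kr M w‖ =
    Real.exp (M * (-la w (-(1 / 2)) - la w (1 / 2) + la w (5 / 2) + la w (7 / 2))) := by
  have a1 := (nsin h (-1) (z := w - NUP1.l / 2) (by push_cast; ring)).2.2
  have a2 := (nsin h 0 (z := w + NUP1.l / 2) (by push_cast; ring)).2.2
  have a3 := (nsin h 2 (z := w + 5 * NUP1.l / 2) (by push_cast; ring)).2.2
  have a4 := (nsin h 3 (z := w + 7 * NUP1.l / 2) (by push_cast; ring)).2.2
  rw [show ((-1 : ℤ) : ℝ) + 1 / 2 = -(1 / 2) by norm_num] at a1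
  rw [show ((0 : ℤ) : ℝ) + 1 / 2 = 1 / 2 by norm_num] at a2
  rw [show ((2 : ℤ) : ℝ) + 1 / 2 = 5 / 2 by norm_num] at a3
  rw [show ((3 : ℤ) : ℝ) + 1 / 2 = 7 / 2 by norm_num] at a4
  unfold Kr
  simp only [norm_mul, norm_pow, norm_div, norm_one, a1, a2, a3, a4, one_div_exp]
  simp only [← Real.exp_nat_mul, ← Real.exp_add]
  congr 1
  ring

/-- **the half quantum X** -/
theorem nKF (M : ℕ) : ‖KF M w‖ = ‖Complex.sin (2 * NUP1.l)‖ *
    Real.exp (-la w (1 / 2) - la w (-(3 / 2)) + la w (5 / 2) +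
      M * (-la w (-(1 / 2)) - la w (1 / 2) + la w (5 / 2) + la w (7 / 2))) := by
  have a1 := (nsin h (-2) (z := w + NUP1.l / 2 - 2 * NUP1.l) (by push_cast; ring)).2.2
  have a2 := (nsin h 0 (z := w + NUP1.l / 2) (by push_cast; ring)).2.2
  have a3 := (nsin h 2 (z := w + 5 * NUP1.l / 2) (by push_cast; ring)).2.2
  rw [show ((-2 : ℤ) : ℝ) + 1 / 2 = -(3 / 2) by norm_num] at a1
  rw [show ((0 : ℤ) : ℝ) + 1 / 2 = 1 / 2 by norm_num] at a2
  rw [show ((2 : ℤ) : ℝ) + 1 / 2 = 5 / 2 by norm_num] at a3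
  unfold KF NUP1.Leg.kap
  rw [norm_mul, norm_mul, norm_div, norm_mul, nKr h, a1, a2, a3, div_eq_mul_one_div, ← Real.exp_add,
    one_div_exp, mul_assoc, mul_assoc, ← Real.exp_add, ← Real.exp_add]
  congr 2
  ring

/-- **the half quantum Y** -/
theorem nKF' (M : ℕ) : ‖KF' M w‖ = ‖Complex.sin (2 * NUP1.l)‖ *
    Real.exp (-la w (-(1 / 2)) - la w (-(5 / 2)) + la w (7 / 2) +
      M * (-la w (-(1 / 2)) - la w (1 / 2) + la w (5 / 2) + la w (7 / 2))) := by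
  have a1 := (nsin h (-3) (z := w - NUP1.l / 2 - 2 * NUP1.l) (by push_cast; ring)).2.2
  have a2 := (nsin h (-1) (z := w - NUP1.l / 2) (by push_cast; ring)).2.2
  have a3 := (nsin h 3 (z := w + 7 * NUP1.l / 2) (by push_cast; ring)).2.2
  rw [show ((-3 : ℤ) : ℝ) + 1 / 2 = -(5 / 2) by norm_num] at a1
  rw [show ((-1 : ℤ) : ℝ) + 1 / 2 = -(1 / 2) by norm_num] at a2
  rw [show ((3 : ℤ) : ℝ) + 1 / 2 = 7 / 2 by norm_num] at a3
  unfold KF' NUP1.Leg.kap
  rw [norm_mul, norm_mul, norm_div, norm_mul, nKr h, a1, a2, a3, div_eq_mul_one_div, ← Real.exp_add,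
    one_div_exp, mul_assoc, mul_assoc, ← Real.exp_add, ← Real.exp_add]
  congr 2
  ring

/-- **a quantum at `w + k l`** -/
theorem nR1 (c : ℂ) (M : ℕ) (k : ℤ) {u : ℂ} (hu : u = w + k * NUP1.l) : ‖R1 c M u‖ = ‖c‖ *
    Real.exp (-(M * la w (k - 1 + 1 / 2)) - (M + 1) * la w (k - 3 + 1 / 2) -
      (M + 1) * la w (k - 2 + 1 / 2) + (2 * M + 1) * la w (k + 2 + 1 / 2) +
      (2 * M + 1) * la w (k + 3 + 1 / 2) - M * la w (k + 1 / 2)) := by
  have a1 := (nsin h (k - 1) (z := u - NUP1.l / 2) (by rw [hu]; push_cast; ring)).2.2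
  have a2 := (nsin h (k - 3) (z := u - 5 * NUP1.l / 2) (by rw [hu]; push_cast; ring)).2.2
  have a3 := (nsin h (k - 2) (z := u - 3 * NUP1.l / 2) (by rw [hu]; push_cast; ring)).2.2
  have a4 := (nsin h (k + 2) (z := u + 5 * NUP1.l / 2) (by rw [hu]; push_cast; ring)).2.2
  have a5 := (nsin h (k + 3) (z := u + 7 * NUP1.l / 2) (by rw [hu]; push_cast; ring)).2.2
  have a6 := (nsin h k (z := u + NUP1.l / 2) (by rw [hu]; push_cast; ring)).2.2
  push_cast at a1 a2 a3 a4 a5 a6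
  unfold R1 Rh
  simp only [norm_mul, norm_pow, norm_div, norm_one, a1, a2, a3, a4, a5, a6, one_div_exp]
  simp only [← Real.exp_nat_mul]
  simp only [mul_assoc ‖c‖, ← Real.exp_add]
  congr 2
  push_cast
  ring

end rows

/-! ### the cutoff -/

lemma cos3_pos : 0 < Real.cos (3 * NUP1.l) := by
  have hl := NUP1.l_pos
  have e : 4 * NUP1.l = Real.pi / 2 := by unfold NUP1.l; ring
  exact Real.cos_pos_of_mem_Ioo ⟨by linarith, by linarith⟩

/-- **the cutoff** at the positions `-11/8` and `5/8`, uniform in `β ≤ 4 / 3` -/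
theorem phN_le {β : ℝ} (hβ : 0 < β) (hβ' : β ≤ 4 / 3) (N : ℕ) {u : ℂ}
    (hu : |u.re + NUP1.l / 2| ≤ 9 / 8 * NUP1.l) :
    ‖phN β N u‖ ≤ 8 / Real.cos (3 * NUP1.l) * min 1 (N * Real.exp (-(2 * β) * |u.im|)) := by
  have hl := NUP1.l_pos
  have e4 : 4 * NUP1.l = Real.pi / 2 := by unfold NUP1.l; ring
  have hc := cos3_pos
  have hc1 : Real.cos (3 * NUP1.l) ≤ 1 := Real.cos_le_one _
  have hA : NUP1.Adm β (9 / 8 * NUP1.l) := by
    refine ⟨hβ, by positivity, ?_, ?_⟩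
    · rw [← e4]
      nlinarith
    · rw [← e4]
      nlinarith
  have h2 : 2 * β * NUP1.l < Real.pi / 2 := by
    rw [← e4]
    nlinarith
  have h3 := norm_one_sub_Psi_pow h2 hA hu N
  have hk : Real.cos (3 * NUP1.l) ≤ NUP1.kap β (9 / 8 * NUP1.l) := by
    unfold NUP1.kap
    refine Real.cos_le_cos_of_nonneg_of_le_pi (by positivity) (by linarith [Real.pi_pos]) ?_
    nlinarith
  have hk0 := hA.kap_pos
  set X := (N : ℝ) * Real.exp (-(2 * β) * |u.im|) with hX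
  have hX0 : 0 ≤ X := by positivity
  have h4 : 8 / NUP1.kap β (9 / 8 * NUP1.l) * X ≤ 8 / Real.cos (3 * NUP1.l) * X :=
    mul_le_mul_of_nonneg_right (by gcongr) hX0
  have h5 : (8 : ℝ) ≤ 8 / Real.cos (3 * NUP1.l) := by
    rw [le_div_iff₀ hc]
    linarith
  have h6 : ‖phN β N u‖ ≤ min 2 (8 / NUP1.kap β (9 / 8 * NUP1.l) * X) := h3
  refine h6.trans ?_
  rcases le_total 1 X with hx | hx
  · rw [min_eq_left hx, mul_one]
    exact (min_le_left _ _).trans (by linarith)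
  · rw [min_eq_right hx]
    exact (min_le_right _ _).trans h4

/-! ### `Hs` and `Hs+` -/

lemma dl_58 (t : ℝ) : dl t (37 / 8) = 2 * Th (3 / 8) t := by
  rw [dl_Th' t (by norm_num) (by norm_num) (by norm_num)]
  norm_num

section hs

variable {w : ℂ} (hw : w.re = 5 / 8 * NUMF.l)
include hw

lemma p58 : w.re / NUMF.l = 5 / 8 := by
  rw [hw, mul_div_cancel_right₀ _ NUMF.l_pos.ne']

lemma MDv1 : MD w (-1) = 2 * Th (3 / 8) w.im + la w (1 / 2) + la w (-(1 / 2)) := by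
  rw [MD_eq, p58 hw]
  push_cast
  rw [show (3 : ℝ) - -1 + 5 / 8 = 37 / 8 by norm_num, dl_58, show -(-1 : ℝ) - 1 / 2 = 1 / 2 by norm_num,
    show -(-1 : ℝ) - 3 / 2 = -(1 / 2) by norm_num]

lemma MDv2 : MD w (-2) = la w (3 / 2) + la w (1 / 2) := by
  rw [MD_eq, p58 hw]
  push_cast
  rw [show (3 : ℝ) - -2 + 5 / 8 = 45 / 8 by norm_num, dl_zero' _ (by norm_num) (by norm_num),
    show -(-2 : ℝ) - 1 / 2 = 3 / 2 by norm_num, show -(-2 : ℝ) - 3 / 2 = 1 / 2 by norm_num, zero_add]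

lemma MDv3 : MD w 1 = la w (-(3 / 2)) + la w (-(5 / 2)) := by
  rw [MD_eq, p58 hw]
  push_cast
  rw [show (3 : ℝ) - 1 + 5 / 8 = 21 / 8 by norm_num, dl_zero _ (by rw [abs_le]; constructor <;> norm_num),
    show -(1 : ℝ) - 1 / 2 = -(3 / 2) by norm_num, show -(1 : ℝ) - 3 / 2 = -(5 / 2) by norm_num, zero_add]

lemma MDv4 : MD w 2 = la w (-(5 / 2)) + la w (-(7 / 2)) := by
  rw [MD_eq, p58 hw]
  push_cast
  rw [show (3 : ℝ) - 2 + 5 / 8 = 13 / 8 by norm_num, dl_zero _ (by rw [abs_le]; constructor <;> norm_num),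
    show -(2 : ℝ) - 1 / 2 = -(5 / 2) by norm_num, show -(2 : ℝ) - 3 / 2 = -(7 / 2) by norm_num, zero_add]

lemma MDv5 : MD w 3 = la w (-(7 / 2)) + la w (7 / 2) := by
  rw [MD_eq, p58 hw]
  push_cast
  rw [show (3 : ℝ) - 3 + 5 / 8 = 5 / 8 by norm_num, dl_zero _ (by rw [abs_le]; constructor <;> norm_num),
    show -(3 : ℝ) - 1 / 2 = -(7 / 2) by norm_num, show -(3 : ℝ) - 3 / 2 = -(9 / 2) by norm_num, zero_add,
    la92]

lemma MDv6 : MD w 4 = la w (7 / 2) + la w (5 / 2) := by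
  rw [MD_eq, p58 hw]
  push_cast
  rw [show (3 : ℝ) - 4 + 5 / 8 = -(3 / 8) by norm_num, dl_zero _ (by rw [abs_le]; constructor <;> norm_num),
    show -(4 : ℝ) - 1 / 2 = -(9 / 2) by norm_num, show -(4 : ℝ) - 3 / 2 = -(11 / 2) by norm_num, zero_add,
    la92, la112]

/-- the two quanta of the host -/
lemma nHost (c : ℂ) (M : ℕ) : ‖R1 c M (w - 2 * NUP1.l)‖ * ‖R1 c M (w - 2 * NUP1.l - NUP1.l)‖ =
    ‖c‖ ^ 2 * Real.exp (-(2 * M * la w (-(5 / 2))) - (2 * M + 2) * la w (7 / 2) -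
      (2 * M + 1) * la w (-(7 / 2)) + (4 * M + 2) * la w (1 / 2) + (2 * M + 1) * la w (3 / 2) -
      M * la w (-(3 / 2)) - (M + 1) * la w (5 / 2) + (2 * M + 1) * la w (-(1 / 2))) := by
  have h := GW_of Gd_58 hw
  have r1 := nR1 h c M (-2) (u := w - 2 * NUP1.l) (by push_cast; ring)
  have r2 := nR1 h c M (-3) (u := w - 2 * NUP1.l - NUP1.l) (by push_cast; ring)
  push_cast at r1 r2
  norm_num at r1 r2
  rw [r1, r2]
  rw [la92, la112]
  rw [mul_mul_mul_comm, ← Real.exp_add, ← sq]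
  congr 2
  ring

end hs

lemma exp3 (A B a b d : ℝ) : A * Real.exp a * (B * Real.exp b) * Real.exp d =
    A * B * Real.exp (a + b + d) := by
  rw [Real.exp_add, Real.exp_add]
  ring

/-- the kernel of a half quantum of type `σ` -/
def KFs (σ : Bool) (M : ℕ) (w : ℂ) : ℂ := if σ then KF M w else KF' M w

/-- **`Hs` without the cutoff** -/
theorem hs_core (c : ℂ) : ∃ C : ℝ, 0 ≤ C ∧ ∀ (σ : Bool) (M : ℕ) (w : ℂ), w.re = 5 / 8 * NUMF.l →
    ‖KFs σ M w‖ * (‖R1 c M (w - 2 * NUP1.l)‖ * ‖R1 c M (w - 2 * NUP1.l - NUP1.l)‖) *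
      Real.exp ((2 * M + 1) * MF .hs w) ≤
    C * Real.exp (-|w.im|) * Real.exp (-((2 * M + 1) * Th (3 / 8) w.im)) := by
  obtain ⟨K, hK, hb⟩ := exists_K Gd_58
  refine ⟨‖Complex.sin (2 * NUP1.l)‖ * ‖c‖ ^ 2 * Real.exp (13 * K), by positivity,
    fun σ M w hw => ?_⟩
  have h := GW_of Gd_58 hw
  have b0 := abs_le.1 (hb w hw 0).2
  have b1 := abs_le.1 (hb w hw 1).2
  have b2 := abs_le.1 (hb w hw 2).2
  have b3 := abs_le.1 (hb w hw 3).2
  have c1 := abs_le.1 (hb w hw (-1)).2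
  have c2 := abs_le.1 (hb w hw (-2)).2
  have c3 := abs_le.1 (hb w hw (-3)).2
  have c4 := abs_le.1 (hb w hw (-4)).2
  norm_num at b0 b1 b2 b3 c1 c2 c3 c4
  have hMF : MF .hs w = -Th (3 / 8) w.im + (-(la w (1 / 2) + la w (-(1 / 2))) -
      2 * (la w (3 / 2) + la w (1 / 2)) + (la w (-(3 / 2)) + la w (-(5 / 2))) +
      (la w (-(5 / 2)) + la w (-(7 / 2))) + (la w (-(7 / 2)) + la w (7 / 2))) / 2 := by
    rw [MF_hs, MDv1 hw, MDv2 hw, MDv3 hw, MDv4 hw, MDv5 hw]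
    ring
  norm_num at hMF
  have key : ∀ x : ℝ, ∀ E : ℝ, E ≤ -|w.im| + 13 * K → x = E - (2 * M + 1) * Th (3 / 8) w.im →
      ‖Complex.sin (2 * NUP1.l)‖ * ‖c‖ ^ 2 * Real.exp x ≤
        ‖Complex.sin (2 * NUP1.l)‖ * ‖c‖ ^ 2 * Real.exp (13 * K) * Real.exp (-|w.im|) *
          Real.exp (-((2 * M + 1) * Th (3 / 8) w.im)) := by
    intro x E hE hx
    have e : ‖Complex.sin (2 * NUP1.l)‖ * ‖c‖ ^ 2 * Real.exp (13 * K) * Real.exp (-|w.im|) *
        Real.exp (-((2 * M + 1) * Th (3 / 8) w.im)) = ‖Complex.sin (2 * NUP1.l)‖ * ‖c‖ ^ 2 *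
        Real.exp (13 * K + -|w.im| + -((2 * M + 1) * Th (3 / 8) w.im)) := by
      rw [Real.exp_add, Real.exp_add]
      ring
    rw [e]
    refine mul_le_mul_of_nonneg_left (Real.exp_le_exp.2 ?_) (by positivity)
    rw [hx]
    linarith
  cases σ
  · have hF : KFs false M w = KF' M w := rfl
    rw [hF, nKF' h, nHost hw, exp3, hMF]
    norm_num
    refine key _ (-la w (-(1 / 2)) - la w (-(5 / 2)) + la w (7 / 2) +
      (-(2 * la w (7 / 2)) - la w (-(7 / 2)) + 2 * la w (1 / 2) + la w (3 / 2) - la w (5 / 2) +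
        la w (-(1 / 2))) + (-(la w (1 / 2) + la w (-(1 / 2))) -
      2 * (la w (3 / 2) + la w (1 / 2)) + (la w (-(3 / 2)) + la w (-(5 / 2))) +
      (la w (-(5 / 2)) + la w (-(7 / 2))) + (la w (-(7 / 2)) + la w (7 / 2))) / 2) ?_ ?_
    · norm_num
      linarith
    · norm_num
      ring
  · have hF : KFs true M w = KF M w := rfl
    rw [hF, nKF h, nHost hw, exp3, hMF]
    norm_num
    refine key _ (-la w (1 / 2) - la w (-(3 / 2)) + la w (5 / 2) +
      (-(2 * la w (7 / 2)) - la w (-(7 / 2)) + 2 * la w (1 / 2) + la w (3 / 2) - la w (5 / 2) +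
        la w (-(1 / 2))) + (-(la w (1 / 2) + la w (-(1 / 2))) -
      2 * (la w (3 / 2) + la w (1 / 2)) + (la w (-(3 / 2)) + la w (-(5 / 2))) +
      (la w (-(5 / 2)) + la w (-(7 / 2))) + (la w (-(7 / 2)) + la w (7 / 2))) / 2) ?_ ?_
    · norm_num
      linarith
    · norm_num
      ring

lemma exp4 (A B D a b d f : ℝ) : A * Real.exp a * (B * Real.exp b) * (D * Real.exp d) * Real.exp f =
    A * B * D * Real.exp (a + b + d + f) := by
  rw [Real.exp_add, Real.exp_add, Real.exp_add]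
  ring

/-- **`Hs+` without the cutoffs** -/
theorem hp_core (c c' : ℂ) : ∃ C : ℝ, 0 ≤ C ∧ ∀ (σ : Bool) (M : ℕ) (w : ℂ), w.re = 5 / 8 * NUMF.l →
    ‖KFs σ M w‖ * (‖R1 c M (w - 2 * NUP1.l)‖ * ‖R1 c M (w - 2 * NUP1.l - NUP1.l)‖) *
      ‖R1 c' M w‖ * Real.exp ((2 * M + 1) * MF .hp w) ≤ C * Real.exp (-|w.im|) := by
  obtain ⟨K, hK, hb⟩ := exists_K Gd_58
  refine ⟨‖Complex.sin (2 * NUP1.l)‖ * ‖c‖ ^ 2 * ‖c'‖ * Real.exp (21 * K), by positivity,
    fun σ M w hw => ?_⟩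
  have h := GW_of Gd_58 hw
  have b0 := abs_le.1 (hb w hw 0).2
  have b1 := abs_le.1 (hb w hw 1).2
  have b2 := abs_le.1 (hb w hw 2).2
  have b3 := abs_le.1 (hb w hw 3).2
  have c1 := abs_le.1 (hb w hw (-1)).2
  have c2 := abs_le.1 (hb w hw (-2)).2
  have c3 := abs_le.1 (hb w hw (-3)).2
  have c4 := abs_le.1 (hb w hw (-4)).2
  norm_num at b0 b1 b2 b3 c1 c2 c3 c4
  have r0 := nR1 h c' M 0 (u := w) (by push_cast; ring)
  push_cast at r0
  norm_num at r0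
  have hMF : MF .hp w = (-2 * (la w (3 / 2) + la w (1 / 2)) + 2 * (la w (-(3 / 2)) + la w (-(5 / 2))) +
      (la w (-(5 / 2)) + la w (-(7 / 2))) + (la w (-(7 / 2)) + la w (7 / 2)) -
      2 * (la w (7 / 2) + la w (5 / 2))) / 2 := by
    rw [MF_hp, MDv2 hw, MDv3 hw, MDv4 hw, MDv5 hw, MDv6 hw]
  have key : ∀ x E : ℝ, E ≤ -|w.im| + 21 * K → x = E →
      ‖Complex.sin (2 * NUP1.l)‖ * ‖c‖ ^ 2 * ‖c'‖ * Real.exp x ≤
        ‖Complex.sin (2 * NUP1.l)‖ * ‖c‖ ^ 2 * ‖c'‖ * Real.exp (21 * K) * Real.exp (-|w.im|) := by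
    intro x E hE hx
    rw [mul_assoc _ (Real.exp (21 * K)), ← Real.exp_add]
    refine mul_le_mul_of_nonneg_left (Real.exp_le_exp.2 ?_) (by positivity)
    rw [hx]
    linarith
  cases σ
  · have hF : KFs false M w = KF' M w := rfl
    rw [hF, nKF' h, nHost hw, r0, exp4, hMF]
    refine key _ (-la w (-(1 / 2)) - la w (-(5 / 2)) + la w (7 / 2) +
      (-(2 * la w (7 / 2)) - la w (-(7 / 2)) + 2 * la w (1 / 2) + la w (3 / 2) - la w (5 / 2) +
        la w (-(1 / 2))) + (-la w (-(5 / 2)) - la w (-(3 / 2)) + la w (5 / 2) + la w (7 / 2)) +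
      (-2 * (la w (3 / 2) + la w (1 / 2)) + 2 * (la w (-(3 / 2)) + la w (-(5 / 2))) +
      (la w (-(5 / 2)) + la w (-(7 / 2))) + (la w (-(7 / 2)) + la w (7 / 2)) -
      2 * (la w (7 / 2) + la w (5 / 2))) / 2) ?_ ?_
    · norm_num
      linarith
    · norm_num
      ring
  · have hF : KFs true M w = KF M w := rfl
    rw [hF, nKF h, nHost hw, r0, exp4, hMF]
    refine key _ (-la w (1 / 2) - la w (-(3 / 2)) + la w (5 / 2) +
      (-(2 * la w (7 / 2)) - la w (-(7 / 2)) + 2 * la w (1 / 2) + la w (3 / 2) - la w (5 / 2) +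
        la w (-(1 / 2))) + (-la w (-(5 / 2)) - la w (-(3 / 2)) + la w (5 / 2) + la w (7 / 2)) +
      (-2 * (la w (3 / 2) + la w (1 / 2)) + 2 * (la w (-(3 / 2)) + la w (-(5 / 2))) +
      (la w (-(5 / 2)) + la w (-(7 / 2))) + (la w (-(7 / 2)) + la w (7 / 2)) -
      2 * (la w (7 / 2) + la w (5 / 2))) / 2) ?_ ?_
    · norm_num
      linarith
    · norm_num
      ring

end

end NUPrefH
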