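import Pool.Agent.NUGC.OwnN
import Pool.Agent.NUGC.PrefNH

/-!
# The own factors of all final classes with their sea terms (`OwnLe` of `QC2`)
-/

set_option autoImplicit false
set_option linter.unusedSectionVars false

open Complex

namespace NUPrefH

open NUP1 NUP1S NUP1.Bd NUPref NUGC
open NURow hiding Th

noncomputable section

/-! ### the half quantum bound to a string -/

lemma re_host {w : ℂ} (hw : w.re = 5 / 8 * NUMF.l) :
    |(w - 2 * (NUP1.l : ℂ)).re + NUP1.l / 2| ≤ 9 / 8 * NUP1.l := by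
  have hl := NUP1.l_pos
  have e : (w - 2 * (NUP1.l : ℂ)).re = w.re - 2 * NUP1.l := by
    have : (w - ((2 * NUP1.l : ℝ) : ℂ)).re = w.re - 2 * NUP1.l := by simp
    push_cast at this
    exact this
  have e2 : NUMF.l = NUP1.l := rfl
  rw [e, hw, e2, abs_le]
  constructor <;> linarith

lemma re_self {w : ℂ} (hw : w.re = 5 / 8 * NUMF.l) : |w.re + NUP1.l / 2| ≤ 9 / 8 * NUP1.l := by
  have hl := NUP1.l_pos
  have e2 : NUMF.l = NUP1.l := rfl
  rw [hw, e2, abs_le]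
  constructor <;> linarith

lemma im_host (w : ℂ) : (w - 2 * (NUP1.l : ℂ)).im = w.im := by
  have : (w - ((2 * NUP1.l : ℝ) : ℂ)).im = w.im := by simp
  push_cast at this
  exact this

/-- modulus of the bound kernel -/
lemma norm_KH (c : ℂ) (β : ℝ) (M N : ℕ) (k w : ℂ) :
    ‖-(2 * Real.pi * rD (2 * NUP1.l) * wt .S *
      XH c β M N (fun _ => 1) (fun _ => 1) (some .S) (w - 2 * NUP1.l)) * k‖ =
    ‖(2 * Real.pi * rD (2 * NUP1.l) * wt .S : ℂ)‖ *
      (‖k‖ * (‖R1 c M (w - 2 * NUP1.l)‖ * ‖R1 c M (w - 2 * NUP1.l - NUP1.l)‖)) *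
      ‖phN (4 / 3) N (w - 2 * NUP1.l)‖ := by
  show ‖-(2 * Real.pi * rD (2 * NUP1.l) * wt .S * (R1 c M (w - 2 * NUP1.l) *
    R1 c M (w - 2 * NUP1.l - NUP1.l) * phN (4 / 3) N (w - 2 * NUP1.l) * 1)) * k‖ = _
  simp only [norm_mul, norm_neg, norm_one]
  ring

/-- **`Hs`** -/
theorem own_hs (c : ℂ) : ∃ C : ℝ, 0 ≤ C ∧ ∀ (σ : Bool) (β : ℝ) (M N : ℕ) (w : ℂ),
    w.re = 5 / 8 * NUMF.l →
    ‖-(2 * Real.pi * rD (2 * NUP1.l) * wt .S *
      XH c β M N (fun _ => 1) (fun _ => 1) (some .S) (w - 2 * NUP1.l)) * KFs σ M w‖ *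
      Real.exp ((2 * M + 1) * MF .hs w) ≤
    C * Real.exp (-|w.im|) * min 1 (N * Real.exp (-(8 / 3) * |w.im|)) := by
  obtain ⟨C, hC, h⟩ := hs_core c
  have hc := cos3_pos
  refine ⟨‖(2 * Real.pi * rD (2 * NUP1.l) * wt .S : ℂ)‖ * C * (8 / Real.cos (3 * NUP1.l)),
    by positivity, fun σ β M N w hw => ?_⟩
  have h1 := h σ M w hw
  have hTh : Real.exp (-((2 * M + 1) * NUHM.Th (3 / 8) w.im)) ≤ 1 := by
    have := NUMFH.Th_nonneg (a := 3 / 8) (by norm_num) (by norm_num) (by norm_num) w.im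
    refine Real.exp_le_one_iff.2 ?_
    have : 0 ≤ (2 * (M : ℝ) + 1) * NUHM.Th (3 / 8) w.im := by positivity
    linarith
  have h1' := h1.trans (mul_le_of_le_one_right (by positivity) hTh)
  have h2 := phN_le (β := 4 / 3) (by norm_num) le_rfl N (re_host hw)
  rw [im_host, show (-(2 * (4 / 3)) : ℝ) = -(8 / 3) by norm_num] at h2
  rw [norm_KH]
  set A := ‖(2 * Real.pi * rD (2 * NUP1.l) * wt .S : ℂ)‖
  set K := KFs σ M w
  calc A * (‖K‖ * (‖R1 c M (w - 2 * NUP1.l)‖ * ‖R1 c M (w - 2 * NUP1.l - NUP1.l)‖)) *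
        ‖phN (4 / 3) N (w - 2 * NUP1.l)‖ * Real.exp ((2 * M + 1) * MF .hs w) =
      A * ((‖K‖ * (‖R1 c M (w - 2 * NUP1.l)‖ * ‖R1 c M (w - 2 * NUP1.l - NUP1.l)‖) *
        Real.exp ((2 * M + 1) * MF .hs w)) * ‖phN (4 / 3) N (w - 2 * NUP1.l)‖) := by ring
    _ ≤ A * ((C * Real.exp (-|w.im|)) *
        (8 / Real.cos (3 * NUP1.l) * min 1 (N * Real.exp (-(8 / 3) * |w.im|)))) := by
        refine mul_le_mul_of_nonneg_left (mul_le_mul h1' h2 (norm_nonneg _) (by positivity))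
          (norm_nonneg _)
    _ = _ := by ring

/-- **`Hs+`** -/
theorem own_hp (c c' : ℂ) : ∃ C : ℝ, 0 ≤ C ∧ ∀ (σ : Bool) (β : ℝ), 0 < β → β ≤ 4 / 3 →
    ∀ (M N : ℕ) (w : ℂ), w.re = 5 / 8 * NUMF.l →
    ‖-(2 * Real.pi * rD (2 * NUP1.l) * wt .S *
      XH c β M N (fun _ => 1) (fun _ => 1) (some .S) (w - 2 * NUP1.l)) * KFs σ M w‖ *
      ‖R1 c' M w * phN β N w * hR1 0‖ * Real.exp ((2 * M + 1) * MF .hp w) ≤
    C * Real.exp (-|w.im|) * min 1 (N * Real.exp (-(8 / 3) * |w.im|)) := by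
  obtain ⟨C, hC, h⟩ := hp_core c c'
  have hc := cos3_pos
  refine ⟨‖(2 * Real.pi * rD (2 * NUP1.l) * wt .S : ℂ)‖ * C * (8 / Real.cos (3 * NUP1.l)) *
    (8 / Real.cos (3 * NUP1.l)) * ‖hR1 0‖, by positivity, fun σ β hβ hβ' M N w hw => ?_⟩
  have h1 := h σ M w hw
  have h2 := phN_le (β := 4 / 3) (by norm_num) le_rfl N (re_host hw)
  have h3 : ‖phN β N w‖ ≤ 8 / Real.cos (3 * NUP1.l) :=
    (phN_le hβ hβ' N (re_self hw)).trans
      (mul_le_of_le_one_right (by positivity) (min_le_left _ _))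
  rw [im_host, show (-(2 * (4 / 3)) : ℝ) = -(8 / 3) by norm_num] at h2
  rw [norm_KH, show ‖R1 c' M w * phN β N w * hR1 0‖ = ‖R1 c' M w‖ * ‖phN β N w‖ * ‖hR1 0‖ by
    rw [norm_mul, norm_mul]]
  set A := ‖(2 * Real.pi * rD (2 * NUP1.l) * wt .S : ℂ)‖
  set K := KFs σ M w
  have hm0 : 0 ≤ min 1 ((N : ℝ) * Real.exp (-(8 / 3) * |w.im|)) := le_min zero_le_one (by positivity)
  calc A * (‖K‖ * (‖R1 c M (w - 2 * NUP1.l)‖ * ‖R1 c M (w - 2 * NUP1.l - NUP1.l)‖)) *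
        ‖phN (4 / 3) N (w - 2 * NUP1.l)‖ * (‖R1 c' M w‖ * ‖phN β N w‖ * ‖hR1 0‖) *
        Real.exp ((2 * M + 1) * MF .hp w) =
      A * ‖hR1 0‖ * ((‖K‖ * (‖R1 c M (w - 2 * NUP1.l)‖ *
        ‖R1 c M (w - 2 * NUP1.l - NUP1.l)‖) * ‖R1 c' M w‖ * Real.exp ((2 * M + 1) * MF .hp w)) *
        (‖phN (4 / 3) N (w - 2 * NUP1.l)‖ * ‖phN β N w‖)) := by ring
    _ ≤ A * ‖hR1 0‖ * ((C * Real.exp (-|w.im|)) *
        ((8 / Real.cos (3 * NUP1.l) * min 1 (N * Real.exp (-(8 / 3) * |w.im|))) *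
        (8 / Real.cos (3 * NUP1.l)))) := by
        refine mul_le_mul_of_nonneg_left (mul_le_mul h1 (mul_le_mul h2 h3 (norm_nonneg _) ?_)
          (by positivity) (by positivity)) (by positivity)
        positivity
    _ = _ := by ring

/-- the cutoff in the form of `QC1` -/
lemma cut_ge {M : ℕ} {ep q b : ℝ} (hb : 8 / 3 * (1 - ep) ≤ b) (τ : ℝ) :
    min 1 ((M : ℝ) * Real.exp (-b * |τ|)) ≤ cut (Real.log (2 * M + 1)) ep q τ := by
  unfold cut
  split_ifs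
  · exact min_le_left _ _
  · refine min_le_min le_rfl ?_
    rw [Real.exp_sub, Real.exp_log (by positivity), div_eq_mul_inv, ← Real.exp_neg]
    have hM : (M : ℝ) ≤ 2 * M + 1 := by
      have : (0 : ℝ) ≤ M := Nat.cast_nonneg M
      linarith
    refine mul_le_mul hM (Real.exp_le_exp.2 ?_) (Real.exp_pos _).le (by positivity)
    have := mul_le_mul_of_nonneg_right hb (abs_nonneg τ)
    linarith

lemma XC_S (ep : ℝ) (M : ℕ) (a : Bool) (z : ℂ) : XC ep M a (some .S) z =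
    XH (Complex.sin (2 * NUP1.l) / Complex.sin NUP1.l) (beC ep) M M (fun _ => 1) (fun _ => 1)
      (some .S) z := by
  unfold XC XM ccM
  rw [cc_even]

lemma beC_pos {ep : ℝ} (h' : ep ≤ 1 / 100) : 0 < beC ep := by
  unfold beC
  linarith

lemma beC_le {ep : ℝ} (h : 0 < ep) : beC ep ≤ 4 / 3 := by
  unfold beC
  linarith

theorem own_H : ∃ C : ℝ, 0 ≤ C ∧ ∀ (ep : ℝ), 0 < ep → ep ≤ 1 / 100 → ∀ (M : ℕ) (i : Bool) (τ : ℝ),
    ownX ep M .H i (vl (htL .H) τ) * Real.exp ((2 * (M : ℝ) + 1) *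
        MF (clh .H i) (vl (htL .H) τ)) ≤
      C * Real.exp (-|τ|) * cut (Real.log (2 * M + 1)) ep (qh .H i) τ ∧
    ownY ep M .H i (vl (htL .H) τ) * Real.exp ((2 * (M : ℝ) + 1) *
        MF (clh .H i) (vl (htL .H) τ)) ≤
      C * Real.exp (-|τ|) * cut (Real.log (2 * M + 1)) ep (qh .H i) τ := by
  obtain ⟨C1, hC1, h1⟩ := own_hs (Complex.sin (2 * NUP1.l) / Complex.sin NUP1.l)
  obtain ⟨C3, hC3, h3⟩ := own_hp (Complex.sin (2 * NUP1.l) / Complex.sin NUP1.l)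
    (Complex.sin (2 * NUP1.l) / Complex.sin NUP1.l)
  refine ⟨C1 + C3, by positivity, fun ep hep hep' M i τ => ?_⟩
  have hβ := beC_pos hep'
  have hβ' := beC_le hep
  have wre : (vl (htL .H) τ).re = 5 / 8 * NUMF.l := re_vl _ _
  have wim : (vl (htL .H) τ).im = τ := im_vl _ _
  have hm0 : 0 ≤ min 1 ((M : ℝ) * Real.exp (-(8 / 3) * |τ|)) :=
    le_min zero_le_one (by positivity)
  have fin : ∀ {q : ℝ} {D x : ℝ}, 0 ≤ D → D ≤ C1 + C3 →
      x ≤ D * Real.exp (-|τ|) * min 1 ((M : ℝ) * Real.exp (-(8 / 3) * |τ|)) →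
      x ≤ (C1 + C3) * Real.exp (-|τ|) * cut (Real.log (2 * M + 1)) ep q τ := by
    intro q D x hD hD' hx
    refine hx.trans ?_
    have h5 := cut_ge (M := M) (ep := ep) (q := q) (b := 8 / 3) (by linarith) τ
    have h6 : D * Real.exp (-|τ|) ≤ (C1 + C3) * Real.exp (-|τ|) :=
      mul_le_mul_of_nonneg_right hD' (Real.exp_pos _).le
    exact mul_le_mul h6 h5 hm0 (by positivity)
  have eX : ∀ w : ℂ, ownK (KF M) (KP (NUP1.Leg.cc (2 * M)) (beC ep) M M) (XC ep M false) .H w =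
      -(2 * Real.pi * rD (2 * NUP1.l) * wt .S *
      XH (Complex.sin (2 * NUP1.l) / Complex.sin NUP1.l) (beC ep) M M (fun _ => 1) (fun _ => 1)
        (some .S) (w - 2 * NUP1.l)) * KFs true M w := fun w => by
    rw [← XC_S ep M false]
    rfl
  have eY : ∀ w : ℂ, ownK (KF' M) (KP' (NUP1.Leg.cc (2 * M)) (beC ep) M M) (XC ep M true) .H w =
      -(2 * Real.pi * rD (2 * NUP1.l) * wt .S *
      XH (Complex.sin (2 * NUP1.l) / Complex.sin NUP1.l) (beC ep) M M (fun _ => 1) (fun _ => 1)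
        (some .S) (w - 2 * NUP1.l)) * KFs false M w := fun w => by
    rw [← XC_S ep M true]
    rfl
  have eQ : ∀ (a : Bool) (w : ℂ), ownQ ep M a w =
      ‖R1 (Complex.sin (2 * NUP1.l) / Complex.sin NUP1.l) M w * phN (beC ep) M w * hR1 0‖ :=
    fun a w => by
    unfold ownQ ccM
    rw [cc_even]
  cases i
  · unfold ownX ownY
    rw [eX, eY]
    simp only [Bool.false_eq_true, if_false, mul_one]
    have u1 := h1 true (beC ep) M M (vl (htL .H) τ) wre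
    have u2 := h1 false (beC ep) M M (vl (htL .H) τ) wre
    rw [wim] at u1 u2
    exact ⟨fin hC1 (by linarith) u1, fin hC1 (by linarith) u2⟩
  · unfold ownX ownY
    rw [eX, eY, eQ, eQ]
    simp only [if_true]
    have u1 := h3 true (beC ep) hβ hβ' M M (vl (htL .H) τ) wre
    have u2 := h3 false (beC ep) hβ hβ' M M (vl (htL .H) τ) wre
    rw [wim] at u1 u2
    exact ⟨fin hC3 (by linarith) u1, fin hC3 (by linarith) u2⟩

/-! ### all types -/

/-- **`OwnLe`** -/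
theorem own_le : ∃ C : ℝ, 0 < C ∧ OwnLe C := by
  obtain ⟨CH, hCH, hH⟩ := own_H
  obtain ⟨C, hC, h⟩ := own_ne_H
  refine ⟨CH + C, by positivity, fun ep hep hep' M hM t i hi τ => ?_⟩
  have hcut : 0 ≤ cut (Real.log (2 * M + 1)) ep (qh t i) τ := by
    unfold cut
    split_ifs
    · exact zero_le_one
    · exact le_min zero_le_one (Real.exp_pos _).le
  have hE := Real.exp_pos (-|τ|)
  have fin : ∀ {D x : ℝ}, D ≤ CH + C →
      x ≤ D * Real.exp (-|τ|) * cut (Real.log (2 * M + 1)) ep (qh t i) τ →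
      x ≤ (CH + C) * Real.exp (-|τ|) * cut (Real.log (2 * M + 1)) ep (qh t i) τ :=
    fun {D x} hD hx =>
    hx.trans (mul_le_mul_of_nonneg_right (mul_le_mul_of_nonneg_right hD hE.le) hcut)
  by_cases ht : t = .H
  · subst ht
    obtain ⟨u1, u2⟩ := hH ep hep hep' M i τ
    exact ⟨fin (by linarith) u1, fin (by linarith) u2⟩
  · obtain ⟨u1, u2⟩ := h ep hep hep' M hM t i ht hi τ
    exact ⟨fin (by linarith) u1, fin (by linarith) u2⟩

end

end NUPrefH
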