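import Pool.Agent.NUGC.GdC

/-!
# The data of TARGET-C: curve, equation, size and energy of the remainder

**`exists_datFx`**: the fields `ok`, `fld`, `gs`, `ν0`, `w0`, `w1` of `DatC` for `inC`, for every family of
groups and every majorant `B` of bounded energy.
-/

set_option autoImplicit false
set_option linter.unusedSectionVars false

open MeasureTheory Set Filter Topology

namespace NUGC

open NUO (Xo ht Par Tb TW excS chgO)
open NUSea.H0

noncomputable section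

variable [NUSea.Sea]

/-- energy of a sum of three functions on an interval -/
lemma energy3x {f f' u u' : ℝ → ℝ} (hf : Continuous f) (hf' : Continuous f') (hu : Continuous u)
    (hu' : Continuous u') (c : ℝ) {y E1 E2 : ℝ} (hy : 0 ≤ y)
    (h1 : ∫ t in (-y)..y, (f t ^ 2 + f' t ^ 2) ≤ E1) (h2 : ∫ t in (-y)..y, (u t ^ 2 + u' t ^ 2) ≤ E2) :
    ∫ t in (-y)..y, ((f t + u t - c) ^ 2 + (f' t + u' t) ^ 2) ≤ 3 * E1 + 3 * E2 + 6 * c ^ 2 * y := by
  have hle : -y ≤ y := by linarith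
  have c0 : Continuous fun t => (f t + u t - c) ^ 2 + (f' t + u' t) ^ 2 := by fun_prop
  have c1 : Continuous fun t => 3 * (f t ^ 2 + f' t ^ 2) := by fun_prop
  have c2 : Continuous fun t => 3 * (u t ^ 2 + u' t ^ 2) := by fun_prop
  have c3 : Continuous fun t => 3 * (f t ^ 2 + f' t ^ 2) + 3 * (u t ^ 2 + u' t ^ 2) := by fun_prop
  have c4 : Continuous fun t => (3 * (f t ^ 2 + f' t ^ 2) + 3 * (u t ^ 2 + u' t ^ 2)) + 3 * c ^ 2 := by
    fun_prop
  refine (intervalIntegral.integral_mono_on hle (c0.intervalIntegrable _ _)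
    (c4.intervalIntegrable _ _) fun t _ => ?_).trans ?_
  · nlinarith [sq_nonneg (f t - u t), sq_nonneg (f t + c), sq_nonneg (u t + c), sq_nonneg (f' t - u' t),
      sq_nonneg (f' t), sq_nonneg (u' t)]
  · rw [intervalIntegral.integral_add (c3.intervalIntegrable _ _) intervalIntegrable_const,
      intervalIntegral.integral_add (c1.intervalIntegrable _ _) (c2.intervalIntegrable _ _),
      intervalIntegral.integral_const_mul, intervalIntegral.integral_const_mul,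
      intervalIntegral.integral_const, smul_eq_mul]
    nlinarith

theorem exists_datFx (G : ℕ) {W C : ℝ} (hW : 0 ≤ W) (hC : 0 ≤ C) {e1 J : ℝ} (he : 0 < e1)
    (he1 : e1 ≤ 1 / 100) (hJ : 0 ≤ J) : ∃ (k : ℕ) (κ CB : ℝ), 0 < κ ∧ 0 ≤ CB ∧
    ∀ ϑ : ℝ, 0 < ϑ → ∃ d : ℝ, 0 < d ∧ ∃ m0 : ℕ, ∀ m : ℕ, m0 ≤ m →
    ∀ b' : ℝ, |b'| ≤ d → ∀ (T1 : ℝ) (g : Fin G → Gd), 0 ≤ T1 →
    ∀ B B' : ℝ → ℝ, (∀ t, HasDerivAt B (B' t) t) → Continuous B' →
      (∀ t, 0 ≤ B t) → (∀ t, B t ≤ W) →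
      Integrable (fun t => B t ^ 2 + B' t ^ 2) → (∫ t, B t ^ 2 + B' t ^ 2) ≤ C →
    (∀ r : ℕ, ∃ (dl ε M : ℝ) (e : ℝ → ℝ), IOk dl ε M ((1 - e1) * Tb (Real.log m)) e
        (inC e1 J m T1 b' g B) (NUSea.O.par0 m) r ∧
      ε ≤ (m : ℝ) ^ (-κ) ∧ M ≤ Real.log m ^ k ∧
      dl ≤ 1 / (6000 * ((r : ℝ) + 1) ^ 2) + 3 * (m : ℝ) ^ (-κ)) ∧
    (∀ nX nY : ℕ, (nX : ℝ) - nY = -chG g → ∀ (r : ℕ) (O : Fin r → Xo), chgO O true ≤ nX →
      chgO O false ≤ nY → Fld (datO (inC e1 J m T1 b' g B) (NUSea.O.par0 m) O)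
        (nX - chgO O true) (nY - chgO O false)) ∧
    (∀ i, |(gP T1 g i).τ| ≤ T1) ∧
    (∀ a t, |(inC e1 J m T1 b' g B).ν a t| ≤
      CB * ∑ j, Real.exp (-(5 / 2 * |t - (gP T1 g j).τ|))) ∧
    (∀ a t, |wO (inC e1 J m T1 b' g B) a t| ≤ CB) ∧
    ∀ a T, 0 ≤ T → ∫ t in (-(T + 1))..(T + 1), (wO (inC e1 J m T1 b' g B) a t ^ 2 +
      deriv (wO (inC e1 J m T1 b' g B) a) t ^ 2) ≤ CB + ϑ * (T + 1) := by
  obtain ⟨K, hK, HK⟩ := exists_spG
  obtain ⟨Kb, hKb, HB⟩ := exists_BF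
  obtain ⟨Cc, hCc, m1, hm1, Hc⟩ := exists_curC he he1 hJ (x := 1 / 100) (by norm_num)
  obtain ⟨CB, hCBd⟩ : ∃ CB : ℝ, CB = K + (W + Kb * G + 1 + K * (G + 1)) +
      (6 * C + 6 * (Kb * G) ^ 2 + (K * (G + 1)) ^ 2) := ⟨_, rfl⟩
  have hG0 : (0 : ℝ) ≤ G := Nat.cast_nonneg G
  have q1 : 0 ≤ W + Kb * G + 1 + K * (G + 1) := by positivity
  have q2 : 0 ≤ 6 * C + 6 * (Kb * G) ^ 2 + (K * (G + 1)) ^ 2 := by positivity
  have hK0 : 0 ≤ K := by linarith
  refine ⟨2, e1 / 2, CB, by linarith, by rw [hCBd]; linarith, fun ϑ hϑ => ?_⟩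
  have h4 := (Real.tendsto_log_atTop.comp tendsto_natCast_atTop_atTop).eventually_ge_atTop
    (max 1 Cc : ℝ)
  obtain ⟨m2, hm2⟩ := Filter.eventually_atTop.1 h4
  obtain ⟨d, hd⟩ : ∃ d : ℝ, d = min 1 (ϑ / 3) := ⟨_, rfl⟩
  have hd0 : 0 < d := by
    rw [hd]
    exact lt_min one_pos (by linarith)
  have hd1 : d ≤ 1 := by
    rw [hd]
    exact min_le_left _ _
  have hd2 : d ≤ ϑ / 3 := by
    rw [hd]
    exact min_le_right _ _
  refine ⟨d, hd0, max m1 m2, fun m hm b' hb' T1 g hT1 B B' hB hB' hB0 hBW hBi hBe => ?_⟩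
  have k1 : m1 ≤ m := (le_max_left _ _).trans hm
  have k2 : m2 ≤ m := (le_max_right _ _).trans hm
  have hL : max 1 Cc ≤ Real.log m := hm2 m k2
  have hL1 : 1 ≤ Real.log m := (le_max_left _ _).trans hL
  have hL2 : Cc ≤ Real.log m := (le_max_right _ _).trans hL
  have hm0 : (0 : ℝ) ≤ m := Nat.cast_nonneg m
  obtain ⟨hT, Hs⟩ := Hc m k1
  obtain ⟨ε, e, hcur, hε0, hε, hε1⟩ := Hs m (by linarith)
  have hder := etaC_hasDeriv e1 J m m
  have hη : ∀ t, |etaC e1 J m m t| ≤ 1 / 40 := fun t => (hcur.O4.1 t).trans (by linarith)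
  have hη1 : ∀ t, |etaC' e1 J m m t| ≤ 1 := by
    intro t
    obtain ⟨f', hf, h3⟩ := hcur.O4.2
    obtain rfl : f' = etaC' e1 J m m := funext fun x => (hf x).unique (hder x)
    exact (h3.le t).trans (by linarith)
  obtain ⟨p1, p2, p3, p4, p5, p6⟩ := HB G g T1 (etaC e1 J m m) (etaC' e1 J m m) hT1 hη hη1 hder
    (etaC'_cont e1 J m m)
  have hBc : Continuous B := continuous_iff_continuousAt.2 fun t => (hB t).continuousAt
  have hBFc : ∀ a, Continuous (BF T1 g (etaC e1 J m m) a) := fun a =>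
    continuous_iff_continuousAt.2 fun t => (p1 a t).continuousAt
  have S : SpI pE qE (gP T1 g) (inC e1 J m T1 b' g B)
      (fun a t => B' t + BF1 T1 g (etaC e1 J m m) (etaC' e1 J m m) a t) :=
    { hp := pE_re
      hq := qE_re
      him := by rw [qE_im, pE_im]
      A := fun a z => rfl
      ν := rfl
      τ := rfl
      dB := fun a t => ((hB t).add (p1 a t)).sub_const _
      cB := fun a => hB'.add (p2 a) }
  have hε40 : ε ≤ 1 / 40 := by linarith
  obtain ⟨s1, s2, s3, s4, -, s6, -, s8⟩ := HK G (gP T1 g) pE qE (inC e1 J m T1 b' g B) _ S ε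
    (Cc * Real.log m) ((1 - e1) * Tb (Real.log m)) e hcur hder hε40
  have hIB : ∀ a t, |(inC e1 J m T1 b' g B).B a t| ≤ W + Kb * G + 1 := by
    intro a t
    show |B t + BF T1 g (etaC e1 J m m) a t - b' / 2| ≤ _
    have h1 := abs_sub (B t + BF T1 g (etaC e1 J m m) a t) (b' / 2)
    have h2 := abs_add_le (B t) (BF T1 g (etaC e1 J m m) a t)
    have h3 := p5 a t
    have h5 : |b' / 2| ≤ 1 := by
      rw [abs_div, abs_two]
      linarith
    rw [abs_of_nonneg (hB0 t)] at h2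
    linarith [hBW t]
  have hKε : K * (G + 1) * ε ≤ K * (G + 1) := by
    have : 0 ≤ K * (G + 1) := by positivity
    nlinarith
  have hKε0 : 0 ≤ K * (G + 1) * ε := by positivity
  have b0 : 0 ≤ (1 - e1) * Tb (Real.log m) := by
    have : 0 ≤ 1 - e1 := by linarith
    have : 0 ≤ Tb (Real.log m) := by linarith
    positivity
  have hl := NUMF.l_pos
  have hl3 : 1 ≤ 3 * NUMF.l := by
    unfold NUMF.l
    have := Real.pi_gt_three
    linarith
  have hl0 : NUP1.l = NUMF.l := rfl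
  have hIok : ∀ r : ℕ, ∃ dl : ℝ, IOk dl ε (Cc * Real.log m) ((1 - e1) * Tb (Real.log m)) e
      (inC e1 J m T1 b' g B) (NUSea.O.par0 m) r ∧
      dl ≤ 1 / (6000 * ((r : ℝ) + 1) ^ 2) + 3 * (m : ℝ) ^ (-(e1 / 2)) := by
    intro r
    have hd0 := NUO.d0_pos r
    have hd1 := NUO.d0_le r
    have r1 : ε / NUMF.l ≤ 3 * ε := by
      rw [div_le_iff₀ hl]
      nlinarith
    have r2 : ∀ t, NUSea.O.rad0 m r t / NUMF.l ≤ NUO.d0 r / 64 := by
      intro t
      rw [div_le_iff₀ hl]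
      refine (NUSea.O.rad0_le m r t).trans ?_
      rw [hl0]
      have : (0 : ℝ) ≤ r := Nat.cast_nonneg r
      rw [div_le_iff₀ (by positivity)]
      have : 0 ≤ NUMF.l * NUO.d0 r := by positivity
      nlinarith
    refine ⟨65 / 64 * NUO.d0 r + ε / NUMF.l, s8 (W + Kb * G + 1) _ (NUSea.O.par0 m) r hIB hm0 b0 ?_
      (fun t => ?_) (by linarith), ?_⟩
    · exact
        { δ0 := by norm_num
          j1 := by rw [NUSea.O.par0_jL]; norm_num
          j2 := by rw [NUSea.O.par0_jL]; norm_num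
          e1 := by rw [NUSea.O.par0_e]; norm_num
          d0 := fun r => by rw [NUSea.O.par0_d]; exact (NUO.d0_pos r).le
          e2 := fun r => by
            have := NUO.d0_le r
            rw [NUSea.O.par0_e, NUSea.O.par0_d]
            linarith
          r0 := fun r t => by rw [NUSea.O.par0_rad]; exact (NUSea.O.rad0_pos m r t).le
          r1 := fun r t => by
            rw [NUSea.O.par0_rad]
            refine (NUSea.O.rad0_le_l m r t).trans ?_
            rw [hl0]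
            linarith }
    · have := r2 t
      rw [NUSea.O.par0_d, NUSea.O.par0_rad]
      linarith
    · have q3 : 65 / 64 * NUO.d0 r ≤ 1 / (6000 * ((r : ℝ) + 1) ^ 2) := by
        unfold NUO.d0
        have : (0 : ℝ) < ((r : ℝ) + 1) ^ 2 := by positivity
        rw [mul_div_assoc', div_le_div_iff₀ (by positivity) (by positivity)]
        nlinarith
      linarith
  refine ⟨fun r => ?_, fun nX nY hn r O hX hY => ?_, fun i => ?_, fun a t => ?_, fun a t => ?_,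
    fun a T hT' => ?_⟩
  · obtain ⟨dl, h1, h2⟩ := hIok r
    refine ⟨dl, ε, _, e, h1, hε, ?_, h2⟩
    nlinarith
  · obtain ⟨dl, h1, -⟩ := hIok r
    refine h1.fld' hX hY ?_
    rw [s6, hn]
    rfl
  · show |NUSp.pin T1 (g i).τ| ≤ T1
    exact NUSp.abs_pin_le hT1 _
  · refine (s4 a t).trans (mul_le_mul_of_nonneg_right ?_
      (Finset.sum_nonneg fun _ _ => (Real.exp_pos _).le))
    rw [hCBd]
    linarith
  · refine (s1 a t).trans ?_
    have := hIB a t
    rw [hCBd]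
    linarith
  · have hy : 0 ≤ T + 1 := by linarith
    refine (s3 a T hT').trans ?_
    have e1' : ∫ t in (-(T + 1))..(T + 1), (B t ^ 2 + B' t ^ 2) ≤ C := by
      rw [intervalIntegral.integral_of_le (by linarith)]
      exact (setIntegral_le_integral hBi (ae_of_all _ fun t => by positivity)).trans hBe
    have e2 := energy3x hBc hB' (hBFc a) (p2 a) (b' / 2) hy e1' (p6 a (T + 1) hy)
    have e3 : ∫ t in (-(T + 1))..(T + 1), ((inC e1 J m T1 b' g B).B a t ^ 2 +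
        (B' t + BF1 T1 g (etaC e1 J m m) (etaC' e1 J m m) a t) ^ 2) =
        ∫ t in (-(T + 1))..(T + 1), ((B t + BF T1 g (etaC e1 J m m) a t - b' / 2) ^ 2 +
          (B' t + BF1 T1 g (etaC e1 J m m) (etaC' e1 J m m) a t) ^ 2) := rfl
    rw [e3]
    have e4 : (K * (G + 1) * ε) ^ 2 ≤ (K * (G + 1)) ^ 2 := pow_le_pow_left₀ hKε0 hKε 2
    have e5 : b' ^ 2 ≤ |b'| := by
      rw [← sq_abs]
      have := abs_nonneg b'
      nlinarith
    have e6 : 3 * b' ^ 2 * (T + 1) ≤ ϑ * (T + 1) := mul_le_mul_of_nonneg_right (by linarith) hy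
    rw [hCBd]
    nlinarith

end

end NUGC
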