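import Pool.Agent.NUGC.ShlF
import Pool.Agent.NUGC.DatFx

/-!
# The data of TARGET-C

**`datGC : DatGC`**: the data `inC` of every configuration satisfy the hypotheses of the gas bounds.
-/

set_option autoImplicit false
set_option linter.unusedSectionVars false

open MeasureTheory Set Filter Topology

namespace NUGC

open NUO (Xo ht Par Tb TW excS chgO)
open NUSea.H0

noncomputable section

variable [NUSea.Sea]

/-- **the data of every configuration of TARGET-C** -/
theorem datGC : DatGC := by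
  intro G
  obtain ⟨W, hW, HS⟩ := exists_shlC G
  refine ⟨W, by linarith, fun ep hep hep1 e1 he he1 J hJ => ?_⟩
  obtain ⟨C, hC, mS, -, HS⟩ := HS ep hep hep1 e1 he he1 J hJ
  obtain ⟨k, κ, CB, hκ, hCB, HD⟩ := exists_datFx G (W := W) (C := C) (by linarith) (by linarith)
    he he1 hJ
  obtain ⟨mG, HG⟩ := exists_geoC hκ
  obtain ⟨mD, HGD⟩ := exists_gdC (J := J) hep hep1 he he1 hκ G (k + 3) (by omega)
  refine ⟨k + 8, κ, CB, ep / 2, C, hκ, hCB, by linarith, by linarith, by linarith, fun ϑ hϑ => ?_⟩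
  obtain ⟨d, hd, mF, HD⟩ := HD ϑ hϑ
  have h4 := (Real.tendsto_log_atTop.comp tendsto_natCast_atTop_atTop).eventually_ge_atTop (1 : ℝ)
  obtain ⟨m3, hm3⟩ := Filter.eventually_atTop.1 h4
  refine ⟨min d 1, lt_min hd one_pos, max (max mS mG) (max mD (max mF m3)),
    fun M hM m hm b' hb T1 x g hT1 hF => ?_⟩
  have hMm : M ≤ m := by omega
  have k1 : mS ≤ M := (le_max_left _ _).trans ((le_max_left _ _).trans hM)
  have k2 : mG ≤ m := ((le_max_right _ _).trans ((le_max_left _ _).trans hM)).trans hMm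
  have k3 : mD ≤ m := ((le_max_left _ _).trans ((le_max_right _ _).trans hM)).trans hMm
  have k4 : mF ≤ m := ((le_max_left _ _).trans ((le_max_right _ _).trans
    ((le_max_right _ _).trans hM))).trans hMm
  have k5 : m3 ≤ m := ((le_max_right _ _).trans ((le_max_right _ _).trans
    ((le_max_right _ _).trans hM))).trans hMm
  have hL : 1 ≤ Real.log m := hm3 m k5
  have hpow : ∀ i j : ℕ, i ≤ j → Real.log m ^ i ≤ Real.log m ^ j := fun i j hij =>
    pow_le_pow_right₀ hL hij
  obtain ⟨hTW, -, -, -, HS⟩ := HS M k1 m hm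
  obtain ⟨B, B', b1, b2, b3, b4, b5, b6, b7, b8, b9, b10, HS⟩ := HS T1 hT1
  obtain ⟨f1, f2, f3, f4, f5, f6⟩ := HD m k4 b' (hb.trans (min_le_left _ _)) T1 g
    (hTW.trans hT1) B B' b2 b3 b4 b5 b9 b10
  refine ⟨B, b1.of_le (by norm_num), b4, b5, b7, b8, fun nX nY hnX hnY hn r hr O hX hY hO => ?_⟩
  obtain ⟨dl, ε, Mc, e, hI, hε, hMc, hdl⟩ := f1 r
  obtain ⟨Cκ, hG⟩ := HG m k2 O hI hε
  have hS := HS x g hF b' (NUSea.O.par0 m) r O Cκ hG
  refine ⟨DCf ep e1 m G T1 x, ?_, fun hx => DCf_le0 G T1 hx, fun hg hx hr hht => ?_⟩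
  · have hm0 : (0 : ℝ) ≤ m := Nat.cast_nonneg m
    exact
      { s1 := by show (m : ℝ) / 2 ≤ m; linarith
        s2 := by show (m : ℝ) ≤ 2 * m; linarith
        pk := by
          have : nX - chgO O true ≤ 8 * m := (Nat.sub_le _ _).trans hnX
          exact_mod_cast this
        nk := by
          have : nY - chgO O false ≤ 8 * m := (Nat.sub_le _ _).trans hnY
          exact_mod_cast this
        rk := by exact_mod_cast hr
        par := parG_C m
        ok := ⟨dl, ε, Mc, e, hI, hε, hMc.trans (hpow _ _ (by omega)), hdl⟩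
        fld := f2 nX nY hn r O hX hY
        shl := hS
        q1 := le_rfl
        tw := hO
        DS := DCf_le G x hT1
        gs := f3
        ν0 := fun a t => (f4 a t).trans (mul_le_mul_of_nonneg_left
          (le_add_of_nonneg_right (NUH0.plt_nonneg _ _)) hCB)
        w0 := f5
        w1 := f6 }
  · exact HGD M m hm k3 b' (hb.trans (min_le_right _ _)) T1 x g B r O hT1 hg hS.mc hS.c0
      ⟨dl, ε, Mc, e, hI, hε, hMc.trans (hpow _ _ (by omega))⟩
      (by have : (0 : ℝ) ≤ G := Nat.cast_nonneg G; linarith) hht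

end

end NUGC
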