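import Pool.Agent.NUGC.RedC
import Pool.Agent.NUGC.DatGC

/-!
# TARGET-C: the gas in the presence of the objects and of the groups, unconditional
-/

set_option autoImplicit false

namespace NUGC

/-- **the crude bound** -/
theorem crudeR : CrudeR := crudeR_of (@datGC NUSea.seaH)

/-- **the sharp bound** -/
theorem sharpR : SharpR := sharpR_of (@datGC NUSea.seaH)

/-- **the gas in the presence of the objects and of the groups** -/
theorem s4C : S4C := s4C_of crudeR sharpR

end NUGC
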