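import Pool.Agent.NUGC.AsmK
import Pool.Agent.NUGC.PrefO
import Pool.Agent.NUGC.OwnN
import Pool.Agent.NUGC.DirLe
import Pool.Agent.NUGC.S4CThm
import Pool.Agent.NUM3.Certs4

/-!
# TARGET-C: the gas side

* `perAll_S4C`: `S4C → PerAll`; **`perAll : PerAll`**.
-/

set_option autoImplicit false

namespace NUGC

attribute [local instance] NUSea.seaH

/-- the gas side of TARGET-C from the bound of the gas in the presence of objects and groups -/
theorem perAll_S4C (h4 : S4C) : PerAll := by
  obtain ⟨C0, h0, hO⟩ := NUPrefH.own_le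
  obtain ⟨CG, hG0, hG⟩ := dirLe
  obtain ⟨CD, hD0, hD⟩ := ownD
  exact perAll_of h0.le hG0 hD0.le hO hG hD (perBd_of Pool.Agent.NUM3.stabProd h4)

/-- **the tilted bounds of all classes and the integrals of their prefactors** -/
theorem perAll : PerAll := perAll_S4C s4C

end NUGC
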