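import Pool.Agent.NUGC.LegTop
import Pool.Agent.NUGC.PerC

/-!
# TARGET-C, upper half, without hypotheses
-/

set_option autoImplicit false

noncomputable section

namespace NUGC

/-- **The bound of the gas of two cut rows.** -/
theorem legUp : Pool.Agent.NU5.LegUp := legUp_of perAll

/-- **The growth of the half plane walks from above.** -/
theorem hUp : HexObs.BAR.HUp (61 / 48) := hUp_of perAll

/-- **The decay of the two-point function of the cylinder.** -/
theorem wUp : HexObs.BAR.WUp Pool.Agent.NU5.Wn := wUp_of perAll

end NUGC

end
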