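import Pool.Agent.NUO.OneW
import Pool.Agent.NUSea.HMF3

/-!
# TARGET-C: the cutoff and the mean field on the line of `St`

* `psi_le_one'`, `one_sub_psi'`: `‖psi β z‖ ≤ 1`, `‖1 - psi β z‖ ≤ 8 exp (-2 β |im z|)` on the closed
  strip `|re z + l / 2| ≤ 3 l / 2`, for all `0 < β ≤ 4 / 3`;
* `qT t = ‖psi (4/3) (-l + i t)‖`: closed form, `|tanh t| ≤ √3 qT t`, `-log (qT t) ≤ K e^{-8|t|/3}`;
* `dl_qT`: the mean field of `St` is `1 / qT`, for `t ≠ 0`.
-/

set_option autoImplicit false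

noncomputable section

open Complex MeasureTheory Set Filter Topology

namespace NUGC

open NUP1 NUO

/-! ### the closed strip -/

section strip
variable {β : ℝ} {z : ℂ}

lemma arg_le (h0 : 0 < β) (h1 : β ≤ 4 / 3) (hz : |z.re + l / 2| ≤ 3 * l / 2) :
    0 ≤ Real.cos (2 * β * (z.re + l / 2)) := by
  have hl := l_pos
  have hpl : 8 * l = Real.pi := by unfold l; ring
  have h2 : |2 * β * (z.re + l / 2)| ≤ Real.pi / 2 := by
    rw [abs_mul, abs_of_pos (by linarith : 0 < 2 * β)]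
    calc 2 * β * |z.re + l / 2| ≤ 2 * (4 / 3) * (3 * l / 2) := by gcongr
      _ = Real.pi / 2 := by rw [← hpl]; ring
  exact Real.cos_nonneg_of_mem_Icc (abs_le.1 h2)

lemma cl_ge (h0 : 0 < β) (h1 : β ≤ 4 / 3) : √3 / 2 ≤ cl β := by
  have hl := l_pos
  have hpl : 8 * l = Real.pi := by unfold l; ring
  unfold cl
  rw [← Real.cos_pi_div_six]
  refine Real.cos_le_cos_of_nonneg_of_le_pi (by positivity) (by linarith) ?_
  nlinarith

lemma re_nonneg' (h0 : 0 < β) (h1 : β ≤ 4 / 3) (hz : |z.re + l / 2| ≤ 3 * l / 2) :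
    0 ≤ (cos (2 * β * z + β * l)).re := by
  rw [cos_form]
  have e : ((((Real.cos (2 * β * (z.re + l / 2)) * Real.cosh (2 * β * z.im) : ℝ) : ℂ) +
    ((-(Real.sin (2 * β * (z.re + l / 2)) * Real.sinh (2 * β * z.im)) : ℝ) : ℂ) * I)).re =
    Real.cos (2 * β * (z.re + l / 2)) * Real.cosh (2 * β * z.im) := NUP1.vl_re _ _
  rw [e]
  exact mul_nonneg (arg_le h0 h1 hz) (Real.cosh_pos _).le

lemma cosl_cast (β : ℝ) : cos (β * l : ℂ) = ((cl β : ℝ) : ℂ) := by
  unfold cl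
  push_cast
  rfl

lemma den_ge1 (h0 : 0 < β) (h1 : β ≤ 4 / 3) (hz : |z.re + l / 2| ≤ 3 * l / 2) :
    √3 / 2 ≤ ‖cos (2 * β * z + β * l) + cos (β * l)‖ := by
  refine le_trans ?_ (re_le_norm _)
  rw [add_re, cosl_cast, ofReal_re]
  linarith [re_nonneg' h0 h1 hz, cl_ge h0 h1]

lemma sinh_le_cos (w : ℂ) : |Real.sinh w.im| ≤ ‖cos w‖ := by
  have e : w = ((w.re : ℝ) : ℂ) + ((w.im : ℝ) : ℂ) * I := (re_add_im w).symm
  have h1 : ‖cos w‖ ^ 2 = Real.cos w.re ^ 2 + Real.sinh w.im ^ 2 := by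
    conv_lhs => rw [e]
    rw [Complex.cos_add_mul_I, ← ofReal_cos, ← ofReal_cosh, ← ofReal_sin, ← ofReal_sinh]
    rw [show ((Real.cos w.re : ℝ) : ℂ) * (Real.cosh w.im : ℝ) - (Real.sin w.re : ℝ) * (Real.sinh w.im : ℝ) * I =
      ((Real.cos w.re * Real.cosh w.im : ℝ) : ℂ) + ((-(Real.sin w.re * Real.sinh w.im) : ℝ) : ℂ) * I by
        push_cast; ring, ← Complex.normSq_eq_norm_sq, Complex.normSq_add_mul_I]
    have h1 := Real.sin_sq_add_cos_sq w.re
    have h2 := Real.cosh_sq w.im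
    linear_combination (Real.cos w.re) ^ 2 * h2 + (Real.sinh w.im) ^ 2 * h1
  refine (sq_le_sq₀ (abs_nonneg _) (norm_nonneg _)).1 ?_
  rw [h1, sq_abs]
  linarith [sq_nonneg (Real.cos w.re)]

lemma den_ge2 (h0 : 0 < β) (h1 : β ≤ 4 / 3) (hz : |z.re + l / 2| ≤ 3 * l / 2) :
    Real.sinh (2 * β * |z.im|) ≤ ‖cos (2 * β * z + β * l) + cos (β * l)‖ := by
  have hc : 0 < cl β := lt_of_lt_of_le (by positivity) (cl_ge h0 h1)
  have h2 := sinh_le_cos (2 * β * z + β * l)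
  rw [im_arg, Real.abs_sinh, abs_mul, abs_of_pos (by linarith : 0 < 2 * β)] at h2
  refine h2.trans ?_
  have h3 := re_nonneg' h0 h1 hz
  rw [cosl_cast]
  refine (sq_le_sq₀ (norm_nonneg _) (norm_nonneg _)).1 ?_
  rw [← Complex.normSq_eq_norm_sq, ← Complex.normSq_eq_norm_sq, Complex.normSq_apply,
    Complex.normSq_apply]
  simp only [add_re, add_im, ofReal_re, ofReal_im, add_zero]
  nlinarith

lemma exp_le_den (h0 : 0 < β) (h1 : β ≤ 4 / 3) (hz : |z.re + l / 2| ≤ 3 * l / 2) :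
    Real.exp (2 * β * |z.im|) ≤ 4 * ‖cos (2 * β * z + β * l) + cos (β * l)‖ := by
  have h2 := den_ge1 h0 h1 hz
  have h3 := den_ge2 h0 h1 hz
  set x := 2 * β * |z.im| with hx
  have hx0 : 0 ≤ x := by positivity
  have h4 : Real.exp x ≤ 2 * Real.sinh x + 1 := by
    rw [Real.sinh_eq]
    have : Real.exp (-x) ≤ 1 := Real.exp_le_one_iff.2 (by linarith)
    linarith
  have h5 : (1.7 : ℝ) < √3 := by
    rw [Real.lt_sqrt (by norm_num)]
    norm_num
  nlinarith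

theorem one_sub_psi' (h0 : 0 < β) (h1 : β ≤ 4 / 3) (hz : |z.re + l / 2| ≤ 3 * l / 2) :
    ‖1 - psi β z‖ ≤ 8 * Real.exp (-(2 * β) * |z.im|) := by
  have h2 := den_ge1 h0 h1 hz
  have h3 := exp_le_den h0 h1 hz
  have hp : 0 < ‖cos (2 * β * z + β * l) + cos (β * l)‖ := lt_of_lt_of_le (by positivity) h2
  have hd : cos (2 * β * z + β * l) + cos (β * l) ≠ 0 := norm_pos_iff.1 hp
  have e : 1 - psi β z = 2 * cos (β * l) / (cos (2 * β * z + β * l) + cos (β * l)) := by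
    unfold psi
    rw [eq_div_iff hd, sub_mul, div_mul_cancel₀ _ hd]
    ring
  have hn : ‖(2 : ℂ) * cos (β * l)‖ ≤ 2 := by
    rw [norm_mul, ← ofReal_mul, ← ofReal_cos, Complex.norm_real, Complex.norm_two]
    have := Real.abs_cos_le_one (β * l)
    rw [Real.norm_eq_abs]
    linarith
  rw [e, norm_div, div_le_iff₀ hp, neg_mul, Real.exp_neg]
  have hE := Real.exp_pos (2 * β * |z.im|)
  have h4 : (1 : ℝ) ≤ (Real.exp (2 * β * |z.im|))⁻¹ *
      (4 * ‖cos (2 * β * z + β * l) + cos (β * l)‖) := by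
    rw [inv_mul_eq_div, le_div_iff₀ hE, one_mul]
    exact h3
  nlinarith

theorem psi_le_one' (h0 : 0 < β) (h1 : β ≤ 4 / 3) (hz : |z.re + l / 2| ≤ 3 * l / 2) :
    ‖psi β z‖ ≤ 1 := by
  have h2 := den_ge1 h0 h1 hz
  have hp : 0 < ‖cos (2 * β * z + β * l) + cos (β * l)‖ := lt_of_lt_of_le (by positivity) h2
  have h3 := re_nonneg' h0 h1 hz
  have hc : 0 < cl β := lt_of_lt_of_le (by positivity) (cl_ge h0 h1)
  unfold psi
  rw [norm_div, div_le_one hp, cosl_cast]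
  refine (sq_le_sq₀ (norm_nonneg _) (norm_nonneg _)).1 ?_
  rw [← Complex.normSq_eq_norm_sq, ← Complex.normSq_eq_norm_sq, Complex.normSq_apply,
    Complex.normSq_apply]
  simp only [add_re, add_im, ofReal_re, ofReal_im, add_zero, sub_re, sub_im, sub_zero]
  nlinarith

end strip

/-! ### `qT` -/

/-- `‖psi (4/3) (-l + i t)‖` -/
def qT (t : ℝ) : ℝ := ‖psi (4 / 3) (vl (-l) t)‖

theorem cos43l : Real.cos (4 / 3 * l) = √3 / 2 := by
  rw [show 4 / 3 * l = Real.pi / 6 by unfold l; ring, Real.cos_pi_div_six]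

theorem psi43_half {z : ℂ} (hz : z.re + l / 2 = l / 2 ∨ z.re + l / 2 = -(l / 2)) :
    ‖psi (4 / 3) z‖ ^ 2 = ((2 * Real.cosh (8 / 3 * z.im) - 1) * (Real.cosh (8 / 3 * z.im) - 1)) /
      ((2 * Real.cosh (8 / 3 * z.im) + 1) * (Real.cosh (8 / 3 * z.im) + 1)) := by
  have s3 : 0 < √3 := Real.sqrt_pos.2 (by norm_num)
  have hA : 0 < Real.cos (4 / 3 * l) := by
    rw [cos43l]
    positivity
  have e1 : Real.cos (4 / 3 * (2 * (z.re + l / 2))) = √3 / 2 := by
    rw [← cos43l]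
    rcases hz with h | h
    · rw [h]
      congr 1
      ring
    · rw [h, ← Real.cos_neg (4 / 3 * l)]
      congr 1
      ring
  have e2 : Real.cosh (4 / 3 * (2 * z.im)) = Real.cosh (8 / 3 * z.im) := by
    congr 1
    ring
  have h := (norm_psi_sq (β := 4 / 3) (z := z) hA (by rw [e1]; positivity)).2
  rw [h]
  unfold gq
  rw [cos43l, e1, e2]
  have hC := Real.one_le_cosh (8 / 3 * z.im)
  set C := Real.cosh (8 / 3 * z.im) with hCd
  have e3 : (√3 / 2) ^ 2 = 3 / 4 := by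
    rw [div_pow, Real.sq_sqrt (by norm_num)]
    norm_num
  have e4 : √3 / 2 * (√3 / 2) = 3 / 4 := by
    rw [← sq, e3]
  rw [e3, e4]
  have e5 : (C ^ 2 + 3 / 4 + 3 / 4 - 1) / (3 / 4 * C) - 2 =
      ((2 * C - 1) * (C - 1)) * (2 / (3 * C)) := by
    have : C ≠ 0 := by positivity
    field_simp
    ring
  have e6 : (C ^ 2 + 3 / 4 + 3 / 4 - 1) / (3 / 4 * C) + 2 =
      ((2 * C + 1) * (C + 1)) * (2 / (3 * C)) := by
    have : C ≠ 0 := by positivity
    field_simp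
    ring
  rw [e5, e6]
  have : 2 / (3 * C) ≠ 0 := by positivity
  exact mul_div_mul_right _ _ this

theorem qT_sq (t : ℝ) : qT t ^ 2 = ((2 * Real.cosh (8 / 3 * t) - 1) * (Real.cosh (8 / 3 * t) - 1)) /
      ((2 * Real.cosh (8 / 3 * t) + 1) * (Real.cosh (8 / 3 * t) + 1)) := by
  unfold qT
  have h := psi43_half (z := vl (-l) t) (Or.inr (by rw [NUO.vl_re]; ring))
  rwa [NUO.vl_im] at h

theorem qT_nonneg (t : ℝ) : 0 ≤ qT t := norm_nonneg _

theorem psi_l0 (t : ℝ) : ‖psi (4 / 3) (vl 0 t)‖ = qT t := by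
  refine (sq_eq_sq₀ (norm_nonneg _) (qT_nonneg t)).1 ?_
  rw [qT_sq]
  have h := psi43_half (z := vl 0 t) (Or.inl (by rw [NUO.vl_re]; ring))
  rwa [NUO.vl_im] at h

theorem cosh_gt_one' {t : ℝ} (ht : t ≠ 0) : 1 < Real.cosh (8 / 3 * t) :=
  Real.one_lt_cosh.2 (mul_ne_zero (by norm_num) ht)

theorem qT_pos {t : ℝ} (ht : t ≠ 0) : 0 < qT t := by
  have hC := cosh_gt_one' ht
  have h := qT_sq t
  have h1 : 0 < qT t ^ 2 := by
    rw [h]
    refine div_pos (mul_pos (by linarith) (by linarith)) (mul_pos (by linarith) (by linarith))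
  exact lt_of_le_of_ne (qT_nonneg t) (fun h0 => by rw [← h0] at h1; simp at h1)

theorem qT_le_one (t : ℝ) : qT t ≤ 1 := by
  unfold qT
  refine psi_le_one' (by norm_num) le_rfl ?_
  have hl := l_pos
  rw [NUO.vl_re, show -l + l / 2 = -(l / 2) by ring, abs_neg, abs_of_pos (by positivity)]
  linarith

/-- `|sinh t / cosh t| ≤ √3 qT t` -/
theorem tanh_le_qT (t : ℝ) : |Real.sinh t| / Real.cosh t ≤ √3 * qT t := by
  have hc := Real.cosh_pos t
  refine (sq_le_sq₀ (by positivity) (mul_nonneg (Real.sqrt_nonneg _) (qT_nonneg t))).1 ?_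
  rw [mul_pow, Real.sq_sqrt (by norm_num), qT_sq, div_pow, sq_abs]
  have hc1 := Real.one_le_cosh t
  -- `tanh^2 t = (cosh 2t - 1) / (cosh 2t + 1)`
  have e1 : Real.sinh t ^ 2 / Real.cosh t ^ 2 = (Real.cosh (2 * t) - 1) / (Real.cosh (2 * t) + 1) := by
    rw [Real.cosh_two_mul, Real.cosh_sq t]
    rw [div_eq_div_iff (by positivity) (by positivity)]
    ring
  rw [e1]
  have h2 : Real.cosh (2 * t) ≤ Real.cosh (8 / 3 * t) := by
    refine Real.cosh_le_cosh.2 ?_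
    rw [abs_mul, abs_mul, abs_of_pos (by norm_num : (0 : ℝ) < 2),
      abs_of_pos (by norm_num : (0 : ℝ) < 8 / 3)]
    have := abs_nonneg t
    linarith
  have h3 := Real.one_le_cosh (2 * t)
  set D := Real.cosh (2 * t) with hD
  set C := Real.cosh (8 / 3 * t) with hC
  have h4 : (D - 1) / (D + 1) ≤ (C - 1) / (C + 1) := by
    rw [div_le_div_iff₀ (by linarith) (by linarith)]
    nlinarith
  refine h4.trans ?_
  have h5 : (1 : ℝ) ≤ 3 * ((2 * C - 1) / (2 * C + 1)) := by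
    rw [← mul_div_assoc, le_div_iff₀ (by linarith)]
    linarith
  have h6 : 0 ≤ (C - 1) / (C + 1) := div_nonneg (by linarith) (by linarith)
  calc (C - 1) / (C + 1) = 1 * ((C - 1) / (C + 1)) := (one_mul _).symm
    _ ≤ 3 * ((2 * C - 1) / (2 * C + 1)) * ((C - 1) / (C + 1)) := mul_le_mul_of_nonneg_right h5 h6
    _ = _ := by
      rw [mul_assoc, div_mul_div_comm]

/-- far from the origin `qT` is close to one -/
theorem qT_far {t : ℝ} (ht : 1 ≤ |t|) : Real.exp (-(8 * Real.exp (-(8 / 3) * |t|))) ≤ qT t := by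
  have hq := qT_sq t
  have e0 : Real.cosh (8 / 3 * t) = Real.cosh (8 / 3 * |t|) := by
    rw [← Real.cosh_abs (8 / 3 * t), abs_mul, abs_of_pos (by norm_num : (0 : ℝ) < 8 / 3)]
  rw [e0] at hq
  set C := Real.cosh (8 / 3 * |t|) with hC
  have hE := Real.exp_pos (8 / 3 * |t|)
  have hC1 : Real.exp (8 / 3 * |t|) / 2 ≤ C := by
    rw [hC, Real.cosh_eq]
    have := Real.exp_pos (-(8 / 3 * |t|))
    linarith
  have hE2 : (4 : ℝ) ≤ Real.exp (8 / 3 * |t|) := by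
    have h1 := Real.quadratic_le_exp_of_nonneg (show 0 ≤ 8 / 3 * |t| by positivity)
    nlinarith
  have hC2 : 2 ≤ C := by linarith
  have hinv : Real.exp (-(8 / 3) * |t|) * Real.exp (8 / 3 * |t|) = 1 := by
    rw [← Real.exp_add, neg_mul, neg_add_cancel, Real.exp_zero]
  set E := Real.exp (-(8 / 3) * |t|) with hEd
  have hE0 : 0 < E := Real.exp_pos _
  have hCE : 1 / 2 ≤ C * E := by
    have := mul_le_mul_of_nonneg_right hC1 hE0.le
    have e : Real.exp (8 / 3 * |t|) / 2 * E = 1 / 2 := by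
      rw [div_mul_eq_mul_div, mul_comm, hinv]
    linarith
  refine (sq_le_sq₀ (Real.exp_pos _).le (qT_nonneg t)).1 ?_
  rw [hq, ← Real.exp_nat_mul]
  -- `log ((2C+1)(C+1)/((2C-1)(C-1))) ≤ 16 E`
  have hpos : 0 < ((2 * C - 1) * (C - 1)) / ((2 * C + 1) * (C + 1)) :=
    div_pos (mul_pos (by linarith) (by linarith)) (mul_pos (by linarith) (by linarith))
  rw [← Real.le_log_iff_exp_le hpos]
  have h1 : Real.log (((2 * C + 1) * (C + 1)) / ((2 * C - 1) * (C - 1))) ≤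
      ((2 * C + 1) * (C + 1)) / ((2 * C - 1) * (C - 1)) - 1 :=
    Real.log_le_sub_one_of_pos (div_pos (mul_pos (by linarith) (by linarith))
      (mul_pos (by linarith) (by linarith)))
  have h2 : Real.log (((2 * C - 1) * (C - 1)) / ((2 * C + 1) * (C + 1))) =
      -Real.log (((2 * C + 1) * (C + 1)) / ((2 * C - 1) * (C - 1))) := by
    rw [← Real.log_inv, inv_div]
  have h3 : ((2 * C + 1) * (C + 1)) / ((2 * C - 1) * (C - 1)) - 1 ≤ 16 * E := by
    have e : ((2 * C + 1) * (C + 1)) / ((2 * C - 1) * (C - 1)) - 1 =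
        6 * C / ((2 * C - 1) * (C - 1)) := by
      have n1 : (2 * C - 1) ≠ 0 := by linarith
      have n2 : (C - 1) ≠ 0 := by linarith
      field_simp
      ring
    rw [e, div_le_iff₀ (mul_pos (by linarith) (by linarith))]
    -- `6 C ≤ 16 E (2C-1)(C-1)`
    have h5 : C * (2 * C - 1) / 2 ≤ (2 * C - 1) * (C - 1) := by nlinarith
    have h6 : 16 * E * (C * (2 * C - 1) / 2) ≤ 16 * E * ((2 * C - 1) * (C - 1)) :=
      mul_le_mul_of_nonneg_left h5 (by positivity)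
    have h7 : 1 / 2 * (8 * (2 * C - 1)) ≤ C * E * (8 * (2 * C - 1)) :=
      mul_le_mul_of_nonneg_right hCE (by linarith)
    nlinarith
  rw [h2]
  push_cast
  linarith

/-! ### the mean field of `St` -/

open NUHM (dl hh Hh)

theorem h_cont {t : ℝ} (ht : t ≠ 0) : Continuous fun y => NUMF.h t y := by
  have h1 : 1 < Real.cosh (2 * t) := Real.one_lt_cosh.2 (mul_ne_zero two_ne_zero ht)
  unfold NUMF.h
  refine Continuous.log (by fun_prop) fun y => ?_
  have := Real.neg_one_le_cos (2 * y)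
  linarith

theorem dl_cont {t : ℝ} (ht : t ≠ 0) : Continuous fun y => dl t y := by
  have h1 := NUHM.Hh_cont t
  have h2 := h_cont ht
  have a1 : Continuous fun y : ℝ => Hh t ((y + 1) * NUMF.l) := h1.comp (by fun_prop)
  have a2 : Continuous fun y : ℝ => Hh t ((y - 1) * NUMF.l) := h1.comp (by fun_prop)
  have a3 : Continuous fun y : ℝ => Hh t (y * NUMF.l) := h1.comp (by fun_prop)
  have a4 : Continuous fun y : ℝ => NUMF.h t ((y + 1 / 2) * NUMF.l) := h2.comp (by fun_prop)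
  have a5 : Continuous fun y : ℝ => NUMF.h t ((y - 1 / 2) * NUMF.l) := h2.comp (by fun_prop)
  unfold dl hh
  exact ((a1.add a2).sub a3).sub ((a4.add a5).div_const 2)

/-- **the mean field weight of `St`**, rows at `± l / 2` -/
theorem dl_qT {t : ℝ} (ht : t ≠ 0) : Real.exp (-dl t (7 / 2)) = qT t := by
  have hl := l_pos
  have L : Tendsto (fun y : ℝ => Real.exp (-dl t y)) (𝓝[<] (7 / 2)) (𝓝 (Real.exp (-dl t (7 / 2)))) :=
    ((Real.continuous_exp.comp (dl_cont ht).neg).tendsto _).mono_left nhdsWithin_le_nhds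
  have R : Tendsto (fun y : ℝ => ‖psi (4 / 3) (-(((2 - (y - 5 / 2)) * NUMF.l : ℝ) : ℂ) + t * I)‖ *
      Real.exp (-NUMF.Ag (y - 7 / 2) t)) (𝓝[<] (7 / 2)) (𝓝 (qT t * Real.exp (-NUMF.Ag (7 / 2 - 7 / 2) t))) := by
    have c1 : ContinuousAt (fun y : ℝ => ‖psi (4 / 3) (-(((2 - (y - 5 / 2)) * NUMF.l : ℝ) : ℂ) + t * I)‖)
        (7 / 2) := by
      have e : (-(((2 - (7 / 2 - 5 / 2)) * NUMF.l : ℝ) : ℂ) + t * I : ℂ) = vl (-l) t := by
        unfold vl
        rw [l_eq]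
        push_cast
        ring
      have d : ContinuousAt (psi (4 / 3)) (-(((2 - (7 / 2 - 5 / 2)) * NUMF.l : ℝ) : ℂ) + t * I : ℂ) := by
        rw [e]
        refine (differentiableAt_psi (adm43 (s := l) hl.le (by linarith)) ?_).continuousAt
        rw [NUO.vl_re, show -l + l / 2 = -(l / 2) by ring, abs_neg, abs_of_pos (by positivity)]
        linarith
      refine ContinuousAt.norm ?_
      exact ContinuousAt.comp (f := fun y : ℝ => (-(((2 - (y - 5 / 2)) * NUMF.l : ℝ) : ℂ) + t * I : ℂ))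
        d (by fun_prop)
    have c2 : ContinuousAt (fun y : ℝ => Real.exp (-NUMF.Ag (y - 7 / 2) t)) (7 / 2) := by
      have h1 : ContinuousAt (fun a : ℝ => NUMF.Ag a t) (7 / 2 - 7 / 2) :=
        (NUHM.Ag_contOn t).continuousAt (Ioo_mem_nhds (by norm_num) (by norm_num))
      have h2 : ContinuousAt (fun y : ℝ => NUMF.Ag (y - 7 / 2) t) (7 / 2) :=
        ContinuousAt.comp (f := fun y : ℝ => y - 7 / 2) h1 (by fun_prop)
      exact (Real.continuous_exp.continuousAt).comp h2.neg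
    have c4 : Tendsto (fun y : ℝ => ‖psi (4 / 3) (-(((2 - (y - 5 / 2)) * NUMF.l : ℝ) : ℂ) + t * I)‖ *
        Real.exp (-NUMF.Ag (y - 7 / 2) t)) (𝓝[<] (7 / 2))
        (𝓝 (‖psi (4 / 3) (-(((2 - (7 / 2 - 5 / 2)) * NUMF.l : ℝ) : ℂ) + t * I)‖ *
          Real.exp (-NUMF.Ag (7 / 2 - 7 / 2) t))) := (c1.mul c2).tendsto.mono_left nhdsWithin_le_nhds
    have e : ‖psi (4 / 3) (-(((2 - (7 / 2 - 5 / 2)) * NUMF.l : ℝ) : ℂ) + t * I)‖ = qT t := by
      unfold qT
      congr 2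
      unfold vl
      rw [l_eq]
      push_cast
      ring
    rw [e] at c4
    exact c4
  rw [sub_self, NUMF.Ag_zero, neg_zero, Real.exp_zero, mul_one] at R
  have EQ : (fun y : ℝ => Real.exp (-dl t y)) =ᶠ[𝓝[<] (7 / 2)]
      fun y : ℝ => ‖psi (4 / 3) (-(((2 - (y - 5 / 2)) * NUMF.l : ℝ) : ℂ) + t * I)‖ *
        Real.exp (-NUMF.Ag (y - 7 / 2) t) := by
    have hmem : Ico (3 : ℝ) (7 / 2) ∈ 𝓝[<] (7 / 2 : ℝ) := Ico_mem_nhdsLT (by norm_num)
    filter_upwards [hmem] with y hy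
    have h1 : |y - 5 / 2| < 1 := by
      rw [abs_lt]
      constructor <;> linarith [hy.1, hy.2]
    rw [NUMF.psi_norm h1, ← Real.exp_add, NUHM.dl_mid t hy.1 hy.2]
    congr 1
    unfold NUHM.Agh
    rw [show y - 3 + 1 / 2 = y - 5 / 2 by ring, show y - 3 - 1 / 2 = y - 7 / 2 by ring]
    ring
  exact tendsto_nhds_unique (L.congr' EQ) R

/-- the sum of the mean fields of the two quanta of `St`, per row of each group -/
theorem mf_T (t : ℝ) : (NUHM.mo (3 / 2) t + NUHM.mc (3 / 2) t) +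
    (NUHM.mo (3 / 2 + 1) t + NUHM.mc (3 / 2 + 1) t) = dl t (7 / 2) / 2 := by
  rw [NUHM.mo_eq, NUHM.mo_eq, NUHM.mc_eq, NUHM.mc_eq]
  have z1 := NUHM.dl_zero t (y := 3 - 3 / 2) (by norm_num [abs_le])
  have z2 := NUHM.dl_zero t (y := 3 / 2) (by norm_num [abs_le])
  have z3 := NUHM.dl_zero t (y := 3 - (3 / 2 + 1)) (by norm_num [abs_le])
  have z4 := NUHM.dl_zero t (y := 5 - (3 / 2 + 1)) (by norm_num [abs_le])
  have z5 := NUHM.dl_zero t (y := 3 / 2 + 1) (by norm_num [abs_le])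
  rw [z1, z2, z3, z4, z5, show (5 : ℝ) - 3 / 2 = 7 / 2 by norm_num]
  ring

end NUGC

end
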