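import Pool.Agent.NUGC.PrefA
import Pool.Agent.NUGC.PrefMF
import Pool.Agent.NUGC.PsiT
import Pool.Agent.NUMFH.Weights
import Pool.Agent.NURow.Pref

/-!
# Prefactors of the groups of half quanta, true height, uniform in the number of rows (helper45)

Rows: `M` pairs at `± l / 2` and the ends in each group, `2 M + 1` rows. `KFs σ M w`: prefactor of the half
quantum of species `σ` (`true`: X, end at `-l/2`).  For `w = p l + i τ` and the class `c`,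
`‖prefactor‖ exp ((2 M + 1) MF c w)` (`MF` of `PrefMF`: sea term of the group) is

* `W1` (`p = 5/4`): `≤ C e^{-|τ|}` (`pref_W`);
* `F0` (`p = -11/4`): `≤ C e^{-|τ|} exp (-(2 M + 1) Th (3/4) τ)`, `Th ≥ 0` (`pref_F`);
* `P1` (`p = -11/4`): `≤ C ‖c‖ e^{-|τ|} min 1 (N e^{-2 β |τ|})` (`pref_P`);
* `D1` (`p = -11/4`): `≤ C e^{-2|τ|}` (`pref_D`);
* general positions: `norm_KFs`, `norm_R1`, `norm_XDs` (exact), `KFs_cl`, `R1_cl`, `XDs_cl` (with the clouds).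
-/

set_option autoImplicit false

open MeasureTheory Set Filter Topology

namespace NUPn

open NUGC

open NUMF (l l_pos zj)
open NUSea (Ph)
open NUHM (mo mc hC hD ls Th)
open NUO (Away)
open NUSp (Grp gp grp Cl)
open NURow (KF KF' KP KP' XD XD' R1 phN Psi GH Kr)

noncomputable section

/-! ### sines -/

lemma nsin {a : ℝ} (ha : Real.sin (a * l) ≠ 0) (t : ℝ) : ‖Complex.sin (zj a t)‖ = Real.exp (ls a t) := by
  rw [ls_log ha, Real.exp_log (norm_pos_iff.2 (sin_zj_ne ha t))]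

/-- the positions of the rows seen by a half quantum at `p` -/
structure Nz (p : ℝ) : Prop where
  a1 : Real.sin ((p - 1 / 2) * l) ≠ 0
  a2 : Real.sin ((p + 1 / 2) * l) ≠ 0
  a3 : Real.sin ((p - 3 / 2) * l) ≠ 0
  a4 : Real.sin ((p - 5 / 2) * l) ≠ 0
  a5 : Real.sin ((p + 5 / 2) * l) ≠ 0
  a6 : Real.sin ((p + 7 / 2) * l) ≠ 0
  a7 : Real.sin ((p + 3 / 2) * l) ≠ 0

lemma Nz_W : Nz (5 / 4) := by
  refine ⟨sin_al_ne 0 ?_ ?_, sin_al_ne 0 ?_ ?_, sin_al_ne (-1) ?_ ?_, sin_al_ne (-1) ?_ ?_,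
    sin_al_ne 0 ?_ ?_, sin_al_ne 0 ?_ ?_, sin_al_ne 0 ?_ ?_⟩ <;> norm_num

lemma Nz_F : Nz (-(11 / 4)) := by
  refine ⟨sin_al_ne (-1) ?_ ?_, sin_al_ne (-1) ?_ ?_, sin_al_ne (-1) ?_ ?_, sin_al_ne (-1) ?_ ?_,
    sin_al_ne (-1) ?_ ?_, sin_al_ne 0 ?_ ?_, sin_al_ne (-1) ?_ ?_⟩ <;> norm_num

lemma Nz_Q : Nz (1 / 4) := by
  refine ⟨sin_al_ne (-1) ?_ ?_, sin_al_ne 0 ?_ ?_, sin_al_ne (-1) ?_ ?_, sin_al_ne (-1) ?_ ?_,
    sin_al_ne 0 ?_ ?_, sin_al_ne 0 ?_ ?_, sin_al_ne 0 ?_ ?_⟩ <;> norm_num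

lemma Nz_S : Nz (5 / 8) := by
  refine ⟨sin_al_ne 0 ?_ ?_, sin_al_ne 0 ?_ ?_, sin_al_ne (-1) ?_ ?_, sin_al_ne (-1) ?_ ?_,
    sin_al_ne 0 ?_ ?_, sin_al_ne 0 ?_ ?_, sin_al_ne 0 ?_ ?_⟩ <;> norm_num

lemma sin2l_pos : 0 < Real.sin (2 * l) := by
  have hl := l_pos
  refine Real.sin_pos_of_pos_of_lt_pi (by linarith) ?_
  rw [← NUHM.l8]
  linarith

lemma sin1l_pos : 0 < Real.sin l := by
  have hl := l_pos
  refine Real.sin_pos_of_pos_of_lt_pi hl ?_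
  rw [← NUHM.l8]
  linarith

lemma norm_sin2l : ‖Complex.sin (2 * (NUP1.l : ℂ))‖ = Real.sin (2 * l) := by
  have e : (2 * (NUP1.l : ℂ)) = ((2 * l : ℝ) : ℂ) := by
    push_cast
    rfl
  rw [e, ← Complex.ofReal_sin, Complex.norm_real, Real.norm_eq_abs, abs_of_pos sin2l_pos]

lemma norm_sin1l : ‖Complex.sin (NUP1.l : ℂ)‖ = Real.sin l := by
  have e : (NUP1.l : ℂ) = ((l : ℝ) : ℂ) := rfl
  rw [e, ← Complex.ofReal_sin, Complex.norm_real, Real.norm_eq_abs, abs_of_pos sin1l_pos]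

/-- positions of the factors -/
lemma zp (p τ : ℝ) :
    zj p τ - (NUP1.l : ℂ) / 2 = zj (p - 1 / 2) τ ∧ zj p τ + (NUP1.l : ℂ) / 2 = zj (p + 1 / 2) τ ∧
    zj p τ - 3 * (NUP1.l : ℂ) / 2 = zj (p - 3 / 2) τ ∧ zj p τ - 5 * (NUP1.l : ℂ) / 2 = zj (p - 5 / 2) τ ∧
    zj p τ + 5 * (NUP1.l : ℂ) / 2 = zj (p + 5 / 2) τ ∧ zj p τ + 7 * (NUP1.l : ℂ) / 2 = zj (p + 7 / 2) τ ∧
    zj p τ + 3 * (NUP1.l : ℂ) / 2 = zj (p + 3 / 2) τ ∧
    zj p τ + (NUP1.l : ℂ) / 2 - 2 * NUP1.l = zj (p - 3 / 2) τ ∧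
    zj p τ - (NUP1.l : ℂ) / 2 - 2 * NUP1.l = zj (p - 5 / 2) τ := by
  have e : (NUP1.l : ℂ) = (l : ℂ) := rfl
  unfold NUMF.zj
  rw [e]
  refine ⟨?_, ?_, ?_, ?_, ?_, ?_, ?_, ?_, ?_⟩ <;> (push_cast; ring)

/-! ### half quanta -/

/-- prefactor of the half quantum of species `σ` -/
def KFs (σ : Bool) (M : ℕ) (w : ℂ) : ℂ := if σ then KF M w else KF' M w

/-- the part of the prefactor which belongs to the end -/
def eF (σ : Bool) (p τ : ℝ) : ℝ :=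
  if σ then -ls (p + 1 / 2) τ - ls (p - 3 / 2) τ + ls (p + 5 / 2) τ
    else -ls (p - 1 / 2) τ - ls (p - 5 / 2) τ + ls (p + 7 / 2) τ

lemma inv_exp' (x : ℝ) : 1 / Real.exp x = Real.exp (-x) := by rw [one_div, Real.exp_neg]

lemma exp_pow' (x : ℝ) (M : ℕ) : Real.exp x ^ M = Real.exp (M * x) := (Real.exp_nat_mul x M).symm

lemma norm_Kr {p : ℝ} (h : Nz p) (M : ℕ) (τ : ℝ) :
    ‖Kr M (zj p τ)‖ = Real.exp (M * (rD p τ - rC p τ)) := by
  obtain ⟨z1, z2, z3, z4, z5, z6, z7, z8, z9⟩ := zp p τ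
  unfold NURow.Kr
  rw [z1, z2, z5, z6]
  simp only [norm_mul, norm_pow, norm_div, norm_one]
  rw [nsin h.a1, nsin h.a2, nsin h.a5, nsin h.a6, inv_exp', inv_exp',
    exp_pow', exp_pow', exp_pow', exp_pow', ← Real.exp_add, ← Real.exp_add, ← Real.exp_add]
  congr 1
  unfold rC rD
  ring

/-- **prefactor of a half quantum, exact** -/
theorem norm_KFs {p : ℝ} (h : Nz p) (σ : Bool) (M : ℕ) (τ : ℝ) :
    ‖KFs σ M (zj p τ)‖ = Real.sin (2 * l) * Real.exp (eF σ p τ + M * (rD p τ - rC p τ)) := by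
  obtain ⟨z1, z2, z3, z4, z5, z6, z7, z8, z9⟩ := zp p τ
  unfold KFs eF
  cases σ
  · simp only [Bool.false_eq_true, if_false]
    unfold NURow.KF' NUP1.Leg.kap
    rw [z9, z1, z6, norm_mul, norm_mul, norm_div, norm_mul, norm_sin2l, nsin h.a1, nsin h.a4,
      nsin h.a6, norm_Kr h, ← Real.exp_add, div_eq_mul_inv, ← Real.exp_neg, mul_assoc, mul_assoc,
      ← Real.exp_add, ← Real.exp_add]
    congr 2
    ring
  · simp only [if_true]
    unfold NURow.KF NUP1.Leg.kap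
    rw [z8, z2, z5, norm_mul, norm_mul, norm_div, norm_mul, norm_sin2l, nsin h.a2, nsin h.a3,
      nsin h.a5, norm_Kr h, ← Real.exp_add, div_eq_mul_inv, ← Real.exp_neg, mul_assoc, mul_assoc,
      ← Real.exp_add, ← Real.exp_add]
    congr 2
    ring

/-- the residual of a half quantum with its cloud -/
def wF (σ : Bool) (p τ : ℝ) : ℝ := eF σ p τ + (rC p τ - rD p τ) / 2

/-- **half quantum with its cloud, exact** -/
theorem KFs_cl {p : ℝ} (h : Nz p) (σ : Bool) (M : ℕ) (τ : ℝ) :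
    ‖KFs σ M (zj p τ)‖ * Real.exp ((2 * M + 1) * hcl p τ) =
      Real.sin (2 * l) * Real.exp (wF σ p τ + (2 * M + 1) * (hC p τ + hD p τ)) := by
  rw [norm_KFs h, mul_assoc, ← Real.exp_add]
  congr 2
  unfold wF hcl
  ring

/-! ### quanta -/

/-- **row factor of a quantum with the ends, exact** -/
theorem norm_R1 {v : ℝ} (h : Nz v) (c : ℂ) (M : ℕ) (τ : ℝ) :
    ‖R1 c M (zj v τ)‖ = ‖c‖ * Real.exp (-(M * rC v τ) - (M + 1) * rC (v - 2) τ +
      (2 * M + 1) * rD v τ) := by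
  obtain ⟨z1, z2, z3, z4, z5, z6, z7, z8, z9⟩ := zp v τ
  unfold NURow.R1 NURow.Rh
  rw [z1, z2, z3, z4, z5, z6]
  simp only [norm_mul, norm_pow, norm_div, norm_one]
  rw [nsin h.a1, nsin h.a2, nsin h.a3, nsin h.a4, nsin h.a5, nsin h.a6]
  simp only [inv_exp', exp_pow', mul_assoc, ← Real.exp_add]
  congr 2
  unfold rC rD
  rw [show v - 2 - 1 / 2 = v - 5 / 2 by ring, show v - 2 + 1 / 2 = v - 3 / 2 by ring]
  push_cast
  ring

/-- **quantum with its cloud, exact** -/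
theorem R1_cl {v : ℝ} (h : Nz v) (c : ℂ) (M : ℕ) (τ : ℝ) :
    ‖R1 c M (zj v τ)‖ * Real.exp ((2 * M + 1) * qcl v τ) =
      ‖c‖ * Real.exp ((rC v τ - rC (v - 2) τ) / 2 + (2 * M + 1) * (mo (1 - v) τ + mc (1 - v) τ)) := by
  rw [norm_R1 h, mul_assoc, ← Real.exp_add]
  congr 2
  unfold qcl
  ring

/-! ### class `D1` -/

/-- prefactor of class `D1`, the half quantum on the left has species `σ` -/
def XDs (σ : Bool) (M : ℕ) (w : ℂ) : ℂ := if σ then XD' M w else XD M w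

/-- the part of the prefactor which belongs to the ends -/
def eD (σ : Bool) (p τ : ℝ) : ℝ :=
  if σ then -2 * ls (p + 1 / 2) τ else -ls (p + 3 / 2) τ - ls (p - 1 / 2) τ

theorem norm_XDs {p : ℝ} (h : Nz p) (σ : Bool) (M : ℕ) (τ : ℝ) :
    ‖XDs σ M (zj p τ)‖ = Real.sin (2 * l) ^ 2 * Real.exp (eD σ p τ + M * (rC (p - 2) τ - rC p τ)) := by
  obtain ⟨z1, z2, z3, z4, z5, z6, z7, z8, z9⟩ := zp p τ
  have hr : ‖(-Complex.sin (zj (p - 5 / 2) τ) / Complex.sin (zj (p - 1 / 2) τ)) ^ M *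
      (-Complex.sin (zj (p - 3 / 2) τ) / Complex.sin (zj (p + 1 / 2) τ)) ^ M‖ =
      Real.exp (M * (rC (p - 2) τ - rC p τ)) := by
    simp only [norm_mul, norm_pow, norm_div, norm_neg]
    rw [nsin h.a1, nsin h.a2, nsin h.a3, nsin h.a4, ← Real.exp_sub, ← Real.exp_sub, exp_pow', exp_pow',
      ← Real.exp_add]
    congr 1
    unfold rC
    rw [show p - 2 - 1 / 2 = p - 5 / 2 by ring, show p - 2 + 1 / 2 = p - 3 / 2 by ring]
    ring
  unfold XDs eD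
  cases σ
  · simp only [Bool.false_eq_true, if_false]
    unfold NURow.XD
    rw [z1, z2, z3, z4, z7, norm_mul, hr, norm_div, norm_neg, norm_pow, norm_mul, norm_sin2l,
      nsin h.a7, nsin h.a1, ← Real.exp_add, div_eq_mul_inv, ← Real.exp_neg, mul_assoc, ← Real.exp_add]
    congr 2
    ring
  · simp only [if_true]
    unfold NURow.XD'
    rw [z1, z2, z3, z4, norm_mul, hr, norm_div, norm_neg, norm_pow, norm_mul, norm_sin2l,
      nsin h.a2, ← Real.exp_add, div_eq_mul_inv, ← Real.exp_neg, mul_assoc, ← Real.exp_add]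
    congr 2
    ring

lemma rD_add3 (p τ : ℝ) : rD (p + 3) τ = rC (p - 2) τ := by
  rw [rD_rC, show p + 3 + 3 = p - 2 + 8 by ring, rC_per]

/-- **class `D1` with its cloud, exact** -/
theorem XDs_cl {p : ℝ} (h : Nz p) (σ : Bool) (M : ℕ) (τ : ℝ) :
    ‖XDs σ M (zj p τ)‖ * Real.exp ((2 * M + 1) * (hcl p τ + hcl (p + 3) τ)) =
      Real.sin (2 * l) ^ 2 * Real.exp (eD σ p τ + (rC p τ - rC (p - 2) τ) / 2 +
        (2 * M + 1) * ((hD p τ + hC (p + 3) τ) + (hC p τ + hD (p + 3) τ))) := by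
  rw [norm_XDs h, mul_assoc, ← Real.exp_add]
  congr 2
  unfold hcl
  rw [rD_add3, ← rD_rC]
  ring

/-! ### bounds -/

/-- `f τ = c |τ| + O(1)` -/
def Lin (f : ℝ → ℝ) (c : ℝ) : Prop := ∃ K : ℝ, 0 ≤ K ∧ ∀ t : ℝ, |f t - c * (|t|)| ≤ K

namespace Lin

variable {f g : ℝ → ℝ} {c c' : ℝ}

theorem add (hf : Lin f c) (hg : Lin g c') : Lin (fun t => f t + g t) (c + c') := by
  obtain ⟨K, hK, h⟩ := hf
  obtain ⟨K', hK', h'⟩ := hg
  refine ⟨K + K', by positivity, fun t => ?_⟩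
  have e : f t + g t - (c + c') * |t| = (f t - c * |t|) + (g t - c' * |t|) := by ring
  rw [e]
  exact (abs_add_le _ _).trans (add_le_add (h t) (h' t))

theorem smul (hf : Lin f c) (a : ℝ) : Lin (fun t => a * f t) (a * c) := by
  obtain ⟨K, hK, h⟩ := hf
  refine ⟨|a| * K, by positivity, fun t => ?_⟩
  have e : a * f t - a * c * |t| = a * (f t - c * |t|) := by ring
  rw [e, abs_mul]
  exact mul_le_mul_of_nonneg_left (h t) (abs_nonneg _)

theorem congr (hf : Lin f c) (h : ∀ t, g t = f t) (hc : c' = c) : Lin g c' := by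
  obtain rfl : g = f := funext h
  rw [hc]
  exact hf

/-- upper bound of the exponential -/
theorem exp_le (hf : Lin f c) : ∃ C : ℝ, 0 < C ∧ ∀ t, Real.exp (f t) ≤ C * Real.exp (c * |t|) := by
  obtain ⟨K, hK, h⟩ := hf
  refine ⟨Real.exp K, Real.exp_pos _, fun t => ?_⟩
  rw [← Real.exp_add]
  refine Real.exp_le_exp.2 ?_
  have := (abs_le.1 (h t)).2
  linarith

end Lin

lemma lin_ls {a : ℝ} (ha : Real.sin (a * l) ≠ 0) : Lin (fun t => ls a t) 1 := by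
  obtain ⟨K, hK, h⟩ := ls_bd ha
  exact ⟨K, hK, fun t => by rw [one_mul]; exact h t⟩

lemma lin_wF {p : ℝ} (h : Nz p) (σ : Bool) : Lin (fun t => wF σ p t) (-1) := by
  have b1 := lin_ls h.a1
  have b2 := lin_ls h.a2
  have b3 := lin_ls h.a3
  have b4 := lin_ls h.a4
  have b5 := lin_ls h.a5
  have b6 := lin_ls h.a6
  cases σ
  · refine ((((b1.smul (-(1 / 2))).add (b2.smul (1 / 2))).add (b4.smul (-1))).add
      ((b6.smul (1 / 2)).add (b5.smul (-(1 / 2))))).congr (fun t => ?_) (by norm_num)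
    unfold wF eF rC rD
    simp only [Bool.false_eq_true, if_false]
    ring
  · refine ((((b1.smul (1 / 2)).add (b2.smul (-(1 / 2)))).add (b3.smul (-1))).add
      ((b5.smul (1 / 2)).add (b6.smul (-(1 / 2))))).congr (fun t => ?_) (by norm_num)
    unfold wF eF rC rD
    simp only [if_true]
    ring

lemma lin_q {v : ℝ} (h : Nz v) : Lin (fun t => (rC v t - rC (v - 2) t) / 2) 0 := by
  refine ((((lin_ls h.a1).smul (1 / 2)).add ((lin_ls h.a2).smul (1 / 2))).add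
    (((lin_ls h.a4).smul (-(1 / 2))).add ((lin_ls h.a3).smul (-(1 / 2))))).congr (fun t => ?_)
    (by norm_num)
  unfold rC
  rw [show v - 2 - 1 / 2 = v - 5 / 2 by ring, show v - 2 + 1 / 2 = v - 3 / 2 by ring]
  ring

lemma lin_eD {p : ℝ} (h : Nz p) (σ : Bool) :
    Lin (fun t => eD σ p t + (rC p t - rC (p - 2) t) / 2) (-2) := by
  refine Lin.congr (Lin.add (f := fun t => eD σ p t) (c := -2) ?_ (lin_q h)) (fun t => rfl) (by norm_num)
  cases σ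
  · refine (((lin_ls h.a7).smul (-1)).add ((lin_ls h.a1).smul (-1))).congr (fun t => ?_) (by norm_num)
    unfold eD
    simp only [Bool.false_eq_true, if_false]
    ring
  · refine ((lin_ls h.a2).smul (-2)).congr (fun t => ?_) (by norm_num)
    unfold eD
    simp only [if_true]

/-- the sea term of a class from `CV` -/
lemma MF_val {c : Cl} {σ : Bool} {w : ℂ} {v : ℝ} (h : CV (fun s ζ => gp s (grp c σ w) ζ) v) :
    NUPref.MF c w = v := by
  have i1 := NUPref.int_gp c true σ w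
  have i2 := NUPref.int_gp c false σ w
  rw [← NUPref.sum_gp c σ w, ← integral_add i1.1 i2.1, ← h.val]
  refine integral_congr_ae (Eventually.of_forall fun t => ?_)
  simp only
  ring

lemma away_W (τ : ℝ) : Away (1 / 8) (zj (5 / 4) τ) := away_of 1 (by norm_num) (by norm_num) τ

lemma away_F (τ : ℝ) : Away (1 / 8) (zj (-(11 / 4)) τ) := away_of (-3) (by norm_num) (by norm_num) τ

/-- **`W1`: half quantum on the right line `5/4 l`** -/
theorem pref_W : ∃ C : ℝ, 0 < C ∧ ∀ (σ : Bool) (M : ℕ) (τ : ℝ),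
    ‖KFs σ M (zj (5 / 4) τ)‖ * Real.exp ((2 * M + 1) * NUPref.MF .w (zj (5 / 4) τ)) ≤
      C * Real.exp (-|τ|) := by
  obtain ⟨C1, h1, b1⟩ := (lin_wF Nz_W true).exp_le
  obtain ⟨C2, h2, b2⟩ := (lin_wF Nz_W false).exp_le
  have hs := sin2l_pos
  refine ⟨Real.sin (2 * l) * (C1 + C2), by positivity, fun σ M τ => ?_⟩
  rw [MF_val (mfG_w (by norm_num : (0:ℝ) < 1 / 8) (away_W τ) σ), KFs_cl Nz_W]
  obtain ⟨e1, e2⟩ := NUHM.cls_W1 (a := 5 / 4) (by norm_num) (by norm_num) τ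
  rw [e1, e2, add_zero, mul_zero, add_zero, mul_assoc]
  refine mul_le_mul_of_nonneg_left ?_ hs.le
  have hE := Real.exp_pos (-|τ|)
  have c1 := b1 τ
  have c2 := b2 τ
  rw [neg_one_mul] at c1 c2
  cases σ
  · nlinarith
  · nlinarith

/-- **`F0`: half quantum on the left line `-11/4 l`** -/
theorem pref_F : ∃ C : ℝ, 0 < C ∧ ∀ (σ : Bool) (M : ℕ) (τ : ℝ),
    ‖KFs σ M (zj (-(11 / 4)) τ)‖ * Real.exp ((2 * M + 1) * NUPref.MF .w (zj (-(11 / 4)) τ)) ≤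
      C * Real.exp (-|τ|) * Real.exp (-((2 * M + 1) * Th (3 / 4) τ)) := by
  obtain ⟨C1, h1, b1⟩ := (lin_wF Nz_F true).exp_le
  obtain ⟨C2, h2, b2⟩ := (lin_wF Nz_F false).exp_le
  have hs := sin2l_pos
  refine ⟨Real.sin (2 * l) * (C1 + C2), by positivity, fun σ M τ => ?_⟩
  rw [MF_val (mfG_w (by norm_num : (0:ℝ) < 1 / 8) (away_F τ) σ), KFs_cl Nz_F]
  obtain ⟨e1, e2⟩ := NUHM.cls_F0 (e := 3 / 4) (by norm_num) (by norm_num) (by norm_num) τ
  rw [show (-2 - 3 / 4 : ℝ) = -(11 / 4) by norm_num] at e1 e2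
  rw [e1, e2, zero_add, mul_neg, Real.exp_add, ← mul_assoc]
  refine mul_le_mul_of_nonneg_right ?_ (Real.exp_pos _).le
  rw [mul_assoc]
  refine mul_le_mul_of_nonneg_left ?_ hs.le
  have hE := Real.exp_pos (-|τ|)
  have c1 := b1 τ
  have c2 := b2 τ
  rw [neg_one_mul] at c1 c2
  cases σ
  · nlinarith
  · nlinarith

/-- the extra factor of `F0` is at most `1` -/
theorem pref_F_le_one (M : ℕ) (τ : ℝ) : Real.exp (-((2 * M + 1) * Th (3 / 4) τ)) ≤ 1 := by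
  rw [Real.exp_le_one_iff]
  have h := NUMFH.Th_nonneg (a := 3 / 4) (by norm_num) (by norm_num) (by norm_num) τ
  have : (0:ℝ) ≤ 2 * M + 1 := by positivity
  nlinarith [mul_nonneg this h]

/-- the cutoff of `N` pairs at position `v`, `-2 ≤ v ≤ 1/2` -/
theorem phN_le {β : ℝ} (h0 : 0 < β) (h1 : β ≤ 4 / 3) {v : ℝ} (hv : -(3 / 2) ≤ v) (hv' : v ≤ 1 / 2)
    (N : ℕ) (τ : ℝ) : ‖phN β N (zj v τ)‖ ≤ 16 * min 1 (N * Real.exp (-(2 * β) * |τ|)) := by
  have hl := l_pos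
  obtain ⟨z1, z2, -⟩ := zp v τ
  have e : Psi β (zj v τ) = NUP1.psi β (zj (v - 1 / 2) τ) * NUP1.psi β (zj (v + 1 / 2) τ) := by
    unfold NURow.Psi
    rw [z1, z2]
  have re_zj : ∀ a : ℝ, (zj a τ).re = a * l := fun a => by unfold NUMF.zj; simp
  have im_zj : ∀ a : ℝ, (zj a τ).im = τ := fun a => by unfold NUMF.zj; simp
  have r1 : |(zj (v - 1 / 2) τ).re + NUP1.l / 2| ≤ 3 * NUP1.l / 2 := by
    rw [re_zj, show (NUP1.l : ℝ) = l from rfl, abs_le]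
    constructor <;> nlinarith
  have r2 : |(zj (v + 1 / 2) τ).re + NUP1.l / 2| ≤ 3 * NUP1.l / 2 := by
    rw [re_zj, show (NUP1.l : ℝ) = l from rfl, abs_le]
    constructor <;> nlinarith
  have a1 := psi_le_one' h0 h1 r1
  have a2 := psi_le_one' h0 h1 r2
  have b1 := one_sub_psi' h0 h1 r1
  have b2 := one_sub_psi' h0 h1 r2
  rw [im_zj] at b1 b2
  have c1 : ‖Psi β (zj v τ)‖ ≤ 1 := by
    rw [e, norm_mul]
    exact mul_le_one₀ a1 (norm_nonneg _) a2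
  have c2 : ‖1 - Psi β (zj v τ)‖ ≤ 16 * Real.exp (-(2 * β) * |τ|) := by
    rw [e]
    set a := NUP1.psi β (zj (v - 1 / 2) τ) with ha
    set b := NUP1.psi β (zj (v + 1 / 2) τ) with hb
    have e : 1 - a * b = (1 - a) + a * (1 - b) := by ring
    rw [e]
    refine (norm_add_le _ _).trans ?_
    rw [norm_mul]
    have : ‖a‖ * ‖1 - b‖ ≤ 1 * ‖1 - b‖ := mul_le_mul_of_nonneg_right a1 (norm_nonneg _)
    linarith
  have d1 : ‖phN β N (zj v τ)‖ ≤ N * (16 * Real.exp (-(2 * β) * |τ|)) := by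
    unfold NURow.phN
    exact (NUO.norm_one_sub_pow_le c1 N).trans (mul_le_mul_of_nonneg_left c2 (Nat.cast_nonneg N))
  have d2 : ‖phN β N (zj v τ)‖ ≤ 16 := by
    unfold NURow.phN
    refine (norm_sub_le _ _).trans ?_
    rw [norm_one, norm_pow]
    have := pow_le_one₀ (n := N) (norm_nonneg _) c1
    linarith
  rcases le_total 1 (N * Real.exp (-(2 * β) * |τ|)) with h | h
  · rw [min_eq_left h, mul_one]
    exact d2
  · rw [min_eq_right h]
    calc _ ≤ _ := d1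
      _ = _ := by ring

/-- prefactor of `P1` -/
def KPs (σ : Bool) (c : ℂ) (β : ℝ) (M N : ℕ) (w : ℂ) : ℂ := if σ then KP c β M N w else KP' c β M N w

/-- **`P1`: half quantum at `-11/4 l`, captured quantum at `l/4`** -/
theorem pref_P : ∃ C : ℝ, 0 < C ∧ ∀ (σ : Bool) (c : ℂ) (β : ℝ) (M N : ℕ) (τ : ℝ), 0 < β → β ≤ 4 / 3 →
    ‖KPs σ c β M N (zj (-(11 / 4)) τ)‖ * Real.exp ((2 * M + 1) * NUPref.MF .p (zj (-(11 / 4)) τ)) ≤
      C * ‖c‖ * Real.exp (-|τ|) * min 1 (N * Real.exp (-(2 * β) * |τ|)) := by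
  obtain ⟨C1, h1, b1⟩ := (lin_wF Nz_F true).exp_le
  obtain ⟨C2, h2, b2⟩ := (lin_wF Nz_F false).exp_le
  obtain ⟨C3, h3, b3⟩ := (lin_q Nz_Q).exp_le
  have hs := sin2l_pos
  have hs1 := sin1l_pos
  refine ⟨Real.sin l * (C1 + C2) * C3 * 16, by positivity, fun σ c β M N τ hβ hβ' => ?_⟩
  have hv : (-(11 / 4) + 3 : ℝ) = 1 / 4 := by norm_num
  have e1 : ‖KPs σ c β M N (zj (-(11 / 4)) τ)‖ = Real.sin l / Real.sin (2 * l) *
      (‖KFs σ M (zj (-(11 / 4)) τ)‖ * (‖R1 c M (zj (1 / 4) τ)‖ * ‖phN β N (zj (1 / 4) τ)‖)) := by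
    have z3 : zj (-(11 / 4)) τ + 3 * (NUP1.l : ℂ) = zj (1 / 4) τ := by
      have := zj_add3 (-(11 / 4)) τ
      rwa [hv] at this
    unfold KPs KFs
    cases σ
    · simp only [Bool.false_eq_true, if_false]
      unfold NURow.KP' NURow.GH
      rw [z3, norm_mul, norm_mul, norm_div, norm_sin1l, norm_sin2l, norm_mul, norm_mul, norm_one, mul_one]
    · simp only [if_true]
      unfold NURow.KP NURow.GH
      rw [z3, norm_mul, norm_mul, norm_div, norm_sin1l, norm_sin2l, norm_mul, norm_mul, norm_one, mul_one]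
  rw [MF_val (mfG_p (by norm_num : (0:ℝ) < 1 / 8) (away_F τ) σ), hv, e1, mul_add, Real.exp_add]
  have k1 := KFs_cl Nz_F σ M τ
  have k2 := R1_cl Nz_Q c M τ
  obtain ⟨q1, q2⟩ := NUHM.cls_P1 (e := 3 / 4) (by norm_num) (by norm_num) (by norm_num) τ
  rw [show (-2 - 3 / 4 : ℝ) = -(11 / 4) by norm_num] at q1 q2
  rw [show (1 - 1 / 4 : ℝ) = 3 / 4 by norm_num] at k2
  have e2 : Real.sin l / Real.sin (2 * l) *
      (‖KFs σ M (zj (-(11 / 4)) τ)‖ * (‖R1 c M (zj (1 / 4) τ)‖ * ‖phN β N (zj (1 / 4) τ)‖)) *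
      (Real.exp ((2 * M + 1) * hcl (-(11 / 4)) τ) * Real.exp ((2 * M + 1) * qcl (1 / 4) τ)) =
      Real.sin l * ‖c‖ * (Real.exp (wF σ (-(11 / 4)) τ) * Real.exp ((rC (1 / 4) τ - rC (1 / 4 - 2) τ) / 2)) *
        ‖phN β N (zj (1 / 4) τ)‖ := by
    calc _ = Real.sin l / Real.sin (2 * l) *
        ((‖KFs σ M (zj (-(11 / 4)) τ)‖ * Real.exp ((2 * M + 1) * hcl (-(11 / 4)) τ)) *
          (‖R1 c M (zj (1 / 4) τ)‖ * Real.exp ((2 * M + 1) * qcl (1 / 4) τ))) *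
          ‖phN β N (zj (1 / 4) τ)‖ := by ring
      _ = Real.sin l / Real.sin (2 * l) * ((Real.sin (2 * l) * Real.exp (wF σ (-(11 / 4)) τ +
            (2 * M + 1) * (hC (-(11 / 4)) τ + hD (-(11 / 4)) τ))) *
          (‖c‖ * Real.exp ((rC (1 / 4) τ - rC (1 / 4 - 2) τ) / 2 +
            (2 * M + 1) * (mo (3 / 4) τ + mc (3 / 4) τ)))) * ‖phN β N (zj (1 / 4) τ)‖ := by
          rw [k1, k2]
      _ = Real.sin l * ‖c‖ * (Real.exp (wF σ (-(11 / 4)) τ +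
            (2 * M + 1) * (hC (-(11 / 4)) τ + hD (-(11 / 4)) τ)) *
          Real.exp ((rC (1 / 4) τ - rC (1 / 4 - 2) τ) / 2 +
            (2 * M + 1) * (mo (3 / 4) τ + mc (3 / 4) τ))) * ‖phN β N (zj (1 / 4) τ)‖ := by
          field_simp
      _ = _ := by
          rw [← Real.exp_add, ← Real.exp_add]
          congr 3
          have : (2 * (M : ℝ) + 1) * (hC (-(11 / 4)) τ + hD (-(11 / 4)) τ) +
              (2 * M + 1) * (mo (3 / 4) τ + mc (3 / 4) τ) = (2 * M + 1) *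
              ((hC (-(11 / 4)) τ + mc (3 / 4) τ) + (hD (-(11 / 4)) τ + mo (3 / 4) τ)) := by ring
          rw [q1, q2] at this
          linarith
  rw [e2]
  have hE := Real.exp_pos (-|τ|)
  have c1 := b1 τ
  have c2 := b2 τ
  have c3 := b3 τ
  rw [neg_one_mul] at c1 c2
  rw [zero_mul, Real.exp_zero, mul_one] at c3
  have c4 : Real.exp (wF σ (-(11 / 4)) τ) ≤ (C1 + C2) * Real.exp (-|τ|) := by
    cases σ
    · nlinarith
    · nlinarith
  have c5 := phN_le hβ hβ' (v := 1 / 4) (by norm_num) (by norm_num) N τ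
  have m0 : 0 ≤ min 1 (N * Real.exp (-(2 * β) * |τ|)) := le_min zero_le_one (by positivity)
  calc _ ≤ Real.sin l * ‖c‖ * (((C1 + C2) * Real.exp (-|τ|)) * C3) *
        (16 * min 1 (N * Real.exp (-(2 * β) * |τ|))) := by gcongr
    _ = _ := by ring

/-- **`D1`** -/
theorem pref_D : ∃ C : ℝ, 0 < C ∧ ∀ (σ : Bool) (M : ℕ) (τ : ℝ),
    ‖XDs σ M (zj (-(11 / 4)) τ)‖ * Real.exp ((2 * M + 1) * NUPref.MF .d (zj (-(11 / 4)) τ)) ≤
      C * Real.exp (-2 * |τ|) := by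
  obtain ⟨C1, h1, b1⟩ := (lin_eD Nz_F true).exp_le
  obtain ⟨C2, h2, b2⟩ := (lin_eD Nz_F false).exp_le
  have hs := sin2l_pos
  refine ⟨Real.sin (2 * l) ^ 2 * (C1 + C2), by positivity, fun σ M τ => ?_⟩
  rw [MF_val (mfG_d (by norm_num : (0:ℝ) < 1 / 8) (away_F τ) σ), XDs_cl Nz_F]
  obtain ⟨e1, e2⟩ := NUHM.cls_D1 (e := 3 / 4) (by norm_num) (by norm_num) (by norm_num) τ
  rw [show (-2 - 3 / 4 : ℝ) = -(11 / 4) by norm_num, show (1 - 3 / 4 : ℝ) = -(11 / 4) + 3 by norm_num]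
    at e1 e2
  rw [e1, e2, add_zero, mul_zero, add_zero, mul_assoc]
  refine mul_le_mul_of_nonneg_left ?_ (by positivity)
  have hE := Real.exp_pos (-2 * |τ|)
  have c1 := b1 τ
  have c2 := b2 τ
  cases σ
  · nlinarith
  · nlinarith

end

end NUPn
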