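import Pool.Agent.NUO.OneAct

/-!
# One body factors of objects: from the bounds of the five kinds to the activity (general form)

The last step of `NUO/OneAct`, for arbitrary weights and an arbitrary current.

* `KB`: the bounds of the weight (times the exponential of its mean field) by kinds, with `A` =
  the gain of one row per quantum of a string, `Y` = an extra factor of `St`;
* `kb_actD`: such a weight times `exp (m slack - 2 π w h + (5/2) (|t| - T')_+ + K0)` (times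
  `(r + 1) ^ k0` for `S`, `Sv`) is at most `act`; any density `D` with `D ≥ δ e^{-8|t|/3}`;
* `kb_act`: the case `D = NUMF.P`, `ParOK`.
-/

set_option autoImplicit false

noncomputable section

open Set

namespace NUGC

open NUO NUP1

/-- bounds of a weight by kinds (`A` the gain, `Y` an extra factor of `St`) -/
def KB (B0 : ℝ) (m : ℕ) (β ρ A Y W : ℝ) : Kind → ℝ → Prop
  | .L, t => W ≤ B0 * cut m β t
  | .St, t => W ≤ B0 * (cut m β t * Y)
  | .Svv, t => W ≤ B0 * cut m (4 / 3) t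
  | .S, t => W ≤ B0 * cut m (4 / 3) t * Real.exp (-(2 * m * A))
  | .Sv, t => W ≤ B0 / ρ * cut m (4 / 3) t *
      Real.exp (-(m * A) + B0 * (m * ρ * Real.exp (-(8 / 3) * |t|)))

theorem KB.mono {B0 B1 : ℝ} (h0 : 0 ≤ B0) (h : B0 ≤ B1) {m : ℕ} {β ρ A Y W : ℝ} (hρ : 0 < ρ)
    (hY : 0 ≤ Y) {k : Kind} {t : ℝ} (hk : KB B0 m β ρ A Y W k t) : KB B1 m β ρ A Y W k t := by
  have hc1 := cut_nonneg m β t
  have hc2 := cut_nonneg m (4 / 3) t
  have hB1 := h0.trans h
  cases k with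
  | L => exact le_trans hk (mul_le_mul_of_nonneg_right h hc1)
  | St => exact le_trans hk (mul_le_mul_of_nonneg_right h (mul_nonneg hc1 hY))
  | Svv => exact le_trans hk (mul_le_mul_of_nonneg_right h hc2)
  | S => exact le_trans hk (by gcongr)
  | Sv => exact le_trans hk (by gcongr)

/-- the current factor -/
theorem cur_facG {e1 T J t w h : ℝ} (hh : 0 ≤ h) (hhJ : |t| ≤ (1 - 3 * e1) * T → J ≤ h)
    (hw : 1 ≤ w) : Real.exp (-(2 * Real.pi * w * h)) ≤
      if |t| ≤ (1 - 3 * e1) * T then Real.exp (-(2 * Real.pi * J)) else 1 := by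
  have hpi := Real.pi_pos
  have h1 : 2 * Real.pi * h ≤ 2 * Real.pi * w * h := by
    have : 0 ≤ 2 * Real.pi * h := by positivity
    nlinarith
  split_ifs with ht
  · refine Real.exp_le_exp.2 ?_
    have h2 : 2 * Real.pi * J ≤ 2 * Real.pi * h :=
      mul_le_mul_of_nonneg_left (hhJ ht) (by positivity)
    linarith
  · refine Real.exp_le_one_iff.2 ?_
    have : 0 ≤ 2 * Real.pi * h := by positivity
    linarith

/-- flat objects -/
theorem flat_actG {C₀ C K0 : ℝ} (hC₀ : 0 ≤ C₀) (hC : C₀ * Real.exp K0 ≤ C) {m : ℕ} (hm : 1 ≤ m)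
    {ep e1 J T' t w W h : ℝ} (h1 : ep ≤ 1 / 100) (hh : 0 ≤ h)
    (hhJ : |t| ≤ (1 - 3 * e1) * Tb (Real.log m) → J ≤ h) (hw : 1 ≤ w)
    (hT : Tb (Real.log m) / (1 - ep) ≤ T')
    (ho : W ≤ C₀ * cut m (4 / 3 * (1 - ep)) t) {c : ℝ} (k : ℕ) {r : ℕ} :
    W * Real.exp (0 - 2 * Real.pi * w * h + exc T' t + K0) ≤
      act C 1 c (1 / 10) k (Real.log m) ep e1 J r t := by
  have q1 := cut_exc hm (t := t) h1 hT
  have q2 := cur_facG hh hhJ hw
  set I : ℝ := if |t| ≤ (1 - 3 * e1) * Tb (Real.log m) then Real.exp (-(2 * Real.pi * J)) else 1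
    with hI
  have hPh := Phi_nonneg (C' := 1) (b := 1 / 10) (T := Tb (Real.log m) / (1 - ep)) (t := t)
    zero_le_one
  have hPh2 := Phi_nonneg (C' := 1) (b := 1 / 10) (T := Tb (Real.log m)) (t := t) zero_le_one
  have hC' : 0 ≤ C := le_trans (by positivity) hC
  have e0 : Real.exp (0 - 2 * Real.pi * w * h + exc T' t + K0) =
      Real.exp (-(2 * Real.pi * w * h)) * Real.exp (exc T' t) * Real.exp K0 := by
    rw [← Real.exp_add, ← Real.exp_add]
    ring_nf
  rw [e0]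
  calc W * (Real.exp (-(2 * Real.pi * w * h)) * Real.exp (exc T' t) * Real.exp K0)
      ≤ (C₀ * cut m (4 / 3 * (1 - ep)) t) *
        (Real.exp (-(2 * Real.pi * w * h)) * Real.exp (exc T' t) * Real.exp K0) :=
        mul_le_mul_of_nonneg_right ho (by positivity)
    _ = C₀ * Real.exp K0 * ((cut m (4 / 3 * (1 - ep)) t * Real.exp (exc T' t)) *
        Real.exp (-(2 * Real.pi * w * h))) := by ring
    _ ≤ C * (Phi 1 (1 / 10) (Tb (Real.log m) / (1 - ep)) t * I) := by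
        refine mul_le_mul hC (mul_le_mul q1 q2 (Real.exp_pos _).le hPh) ?_ hC'
        exact mul_nonneg (mul_nonneg (cut_nonneg _ _ _) (Real.exp_pos _).le) (Real.exp_pos _).le
    _ ≤ act C 1 c (1 / 10) k (Real.log m) ep e1 J r t := by
        unfold act
        rw [← hI]
        have : 0 ≤ ((r : ℝ) + Real.log m) ^ k * Phi 1 (1 / 10) (Tb (Real.log m)) t *
            Real.exp (-(c * Real.exp (8 / 3 * (Tb (Real.log m) - |t|)))) := by positivity
        nlinarith

theorem dens_geD {dl D : ℝ} {m : ℕ} (hm : 1 ≤ m) {t : ℝ}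
    (hD : dl * Real.exp (-(8 / 3) * |t|) ≤ D) :
    dl * Real.exp (8 / 3 * (Tb (Real.log m) - |t|)) ≤ m * D := by
  have hm0 : (0 : ℝ) < m := by exact_mod_cast hm
  have e : Real.exp (8 / 3 * (Tb (Real.log m) - |t|)) = m * Real.exp (-(8 / 3) * |t|) := by
    unfold Tb
    rw [show 8 / 3 * (3 / 8 * Real.log m - |t|) = Real.log m + -(8 / 3) * |t| by ring,
      Real.exp_add, Real.exp_log hm0]
  rw [e]
  have := mul_le_mul_of_nonneg_left hD hm0.le
  linarith

/-- suppressed objects -/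
theorem supp_actG {C₀ C K0 κ dl : ℝ} (hC₀ : 0 ≤ C₀) (hC : C₀ * Real.exp K0 ≤ C) (hκ : 0 ≤ κ) {m : ℕ}
    (hm : 1 ≤ m) {ep e1 J T' t w W b h D : ℝ} (hD : dl * Real.exp (-(8 / 3) * |t|) ≤ D)
    (hh : 0 ≤ h) (hw : 0 ≤ w)
    (hT : Tb (Real.log m) ≤ T') {X : ℝ} {k : ℕ} {r : ℕ} (hL : 1 ≤ Real.log m)
    (ho : W * Real.exp b * X ≤ C₀ * ((r : ℝ) + Real.log m) ^ k * (cut m (4 / 3) t *
      Real.exp (-(κ * (m * D))))) :
    W * Real.exp (b - 2 * Real.pi * w * h + exc T' t + K0) *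
      X ≤ act C 1 (dl * κ) (1 / 10) k (Real.log m) ep e1 J r t := by
  have q1 := cut_exc' hm (t := t) hT
  have hpi := Real.pi_pos
  have q2 : Real.exp (-(2 * Real.pi * w * h)) ≤ 1 :=
    Real.exp_le_one_iff.2 (neg_nonpos.2 (by positivity))
  have q3 := dens_geD hm hD
  have hPh := Phi_nonneg (C' := 1) (b := 1 / 10) (T := Tb (Real.log m) / (1 - ep)) (t := t)
    zero_le_one
  have hPh2 := Phi_nonneg (C' := 1) (b := 1 / 10) (T := Tb (Real.log m)) (t := t) zero_le_one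
  have hC' : 0 ≤ C := le_trans (by positivity) hC
  have hrL : 0 ≤ (r : ℝ) + Real.log m := by positivity
  have q4 : Real.exp (-(κ * (m * D))) ≤
      Real.exp (-(dl * κ * Real.exp (8 / 3 * (Tb (Real.log m) - |t|)))) := by
    refine Real.exp_le_exp.2 ?_
    nlinarith
  have e0 : Real.exp (b - 2 * Real.pi * w * h + exc T' t + K0) =
      Real.exp b * Real.exp (-(2 * Real.pi * w * h)) * Real.exp (exc T' t) * Real.exp K0 := by
    rw [← Real.exp_add, ← Real.exp_add, ← Real.exp_add]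
    ring_nf
  rw [e0]
  calc W * (Real.exp b * Real.exp (-(2 * Real.pi * w * h)) * Real.exp (exc T' t) * Real.exp K0) * X =
      (W * Real.exp b * X) * (Real.exp (exc T' t) * Real.exp (-(2 * Real.pi * w * h)) *
        Real.exp K0) := by ring
    _ ≤ (C₀ * ((r : ℝ) + Real.log m) ^ k * (cut m (4 / 3) t *
          Real.exp (-(κ * (m * D))))) * (Real.exp (exc T' t) * 1 * Real.exp K0) := by
        have hc := cut_nonneg m (4 / 3) t
        gcongr
    _ = C₀ * Real.exp K0 * (((r : ℝ) + Real.log m) ^ k * (cut m (4 / 3) t *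
          Real.exp (exc T' t)) * Real.exp (-(κ * (m * D)))) := by ring
    _ ≤ C * (((r : ℝ) + Real.log m) ^ k * Phi 1 (1 / 10) (Tb (Real.log m)) t *
          Real.exp (-(dl * κ * Real.exp (8 / 3 * (Tb (Real.log m) - |t|))))) := by
        have hc := cut_nonneg m (4 / 3) t
        gcongr
    _ ≤ _ := by
        unfold act
        have : 0 ≤ Phi 1 (1 / 10) (Tb (Real.log m) / (1 - ep)) t *
            (if |t| ≤ (1 - 3 * e1) * Tb (Real.log m) then Real.exp (-(2 * Real.pi * J)) else 1) := by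
          refine mul_nonneg hPh ?_
          split_ifs
          · exact (Real.exp_pos _).le
          · exact zero_le_one
        nlinarith

/-- **from the bounds by kinds to the activity**: `W` the weight times the exponential of its mean
field, `A` the gain, `h` the value of the current at the object, `D` the density at the object -/
theorem kb_actD {κ dl : ℝ} (hκ : 0 < κ) (hdl : 0 < dl) (K0 K1 B0 : ℝ) (hK1 : 0 ≤ K1) (hB0 : 0 < B0)
    (k0 : ℕ) :
    ∃ C c : ℝ, 0 < C ∧ 0 < c ∧ ∀ (m : ℕ), 3 ≤ m →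
      ∀ ep : ℝ, 0 < ep → ep ≤ 1 / 100 → ∀ e1 J : ℝ,
      ∀ T' : ℝ, Tb (Real.log m) / (1 - ep) ≤ T' → ∀ (r : ℕ) (kk : Kind)
      (t ρ D W A h : ℝ) (slk : ℝ → ℝ), 0 ≤ h → (|t| ≤ (1 - 3 * e1) * Tb (Real.log m) → J ≤ h) →
      dl * Real.exp (-(8 / 3) * |t|) ≤ D → slk t + κ * D ≤ 2 * A →
      0 < ρ → ρ * (1 + m * D) ≤ 1 →
      1 / ρ ≤ K1 * ((r : ℝ) + 1) ^ 5 * (1 + Real.log m) * (1 + m * D) →
      KB B0 m (4 / 3 * (1 - ep)) ρ A 1 W kk t →
        W * Real.exp (m * slkK slk kk t - 2 * Real.pi * wK kk * h + exc T' t + K0) *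
              colK (((r : ℝ) + 1) ^ k0) kk ≤
          act C 1 c (1 / 10) (k0 + 6) (Real.log m) ep e1 J r t := by
  have hE0 := Real.exp_pos K0
  set CVV : ℝ := B0 * K1 * Real.exp (B0 / dl) * (1 + 1 / (κ / 4)) * 2 with hCVV
  have hCVV0 : 0 ≤ CVV := by positivity
  set C : ℝ := (B0 + CVV) * Real.exp K0 with hC
  have hC0 : 0 < C := by positivity
  have hCB : B0 * Real.exp K0 ≤ C := by
    rw [hC]
    gcongr
    linarith
  have hCV : CVV * Real.exp K0 ≤ C := by
    rw [hC]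
    gcongr
    linarith
  refine ⟨C, dl * (κ / 4), hC0, by positivity, fun m hm ep hep hep1 e1 J T' hT' r kk t ρ D W A h
    slk hh hhJ hD hs hρ0 hρ2 hρ3 hW => ?_⟩
  have hL := log_ge_one hm
  have hm1 : 1 ≤ m := by omega
  have hTb : 0 < Tb (Real.log m) := by
    unfold Tb
    linarith
  have hTT : Tb (Real.log m) ≤ T' := by
    refine le_trans ?_ hT'
    rw [le_div_iff₀ (by linarith)]
    nlinarith
  have hr0 : (0 : ℝ) ≤ r := Nat.cast_nonneg r
  have hrL : (r : ℝ) + 1 ≤ r + Real.log m := by linarith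
  have hβ1 : 4 / 3 * (1 - ep) ≤ 4 / 3 := by linarith
  have hmP' : (0 : ℝ) ≤ m := Nat.cast_nonneg m
  have hD0 : 0 ≤ D := le_trans (by positivity) hD
  have hmP : 0 ≤ m * D := by positivity
  cases kk with
  | L =>
    simp only [slkK, wK, colK, mul_zero, mul_one]
    have h4 := flat_actG (C := C) (K0 := K0) (c := dl * (κ / 4)) (r := r) hB0.le hCB hm1
      (w := 1) hep1 hh hhJ le_rfl hT' hW (k0 + 6)
    rw [mul_one] at h4
    exact h4
  | St =>
    simp only [slkK, wK, colK, mul_zero, mul_one]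
    have hW' : W ≤ B0 * (cut m (4 / 3 * (1 - ep)) t * 1) := hW
    rw [mul_one] at hW'
    have h4 := flat_actG (C := C) (K0 := K0) (c := dl * (κ / 4)) (r := r) hB0.le hCB hm1
      (w := 1) hep1 hh hhJ le_rfl hT' hW' (k0 + 6)
    rw [mul_one] at h4
    exact h4
  | Svv =>
    simp only [slkK, wK, colK, mul_zero, mul_one]
    have h2 : cut m (4 / 3) t ≤ cut m (4 / 3 * (1 - ep)) t := cut_anti m hβ1 _
    have hW' : W ≤ B0 * cut m (4 / 3) t := hW
    exact flat_actG (C := C) (K0 := K0) (c := dl * (κ / 4)) (r := r) hB0.le hCB hm1 (w := 2) hep1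
      hh hhJ (by norm_num) hT' (hW'.trans (mul_le_mul_of_nonneg_left h2 hB0.le)) (k0 + 6)
  | S =>
    simp only [slkK, wK, colK]
    have hW' : W ≤ B0 * cut m (4 / 3) t * Real.exp (-(2 * m * A)) := hW
    refine supp_actG (C₀ := B0) (κ := κ / 4) hB0.le hCB (by positivity) hm1 hD hh le_rfl hTT hL ?_
    have hcut := cut_nonneg m (4 / 3) t
    have h5 : Real.exp (-(2 * m * A)) * Real.exp (m * slk t) ≤
        Real.exp (-(κ / 4 * (m * D))) := by
      rw [← Real.exp_add]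
      refine Real.exp_le_exp.2 ?_
      have h6 : m * (slk t + κ * D) ≤ m * (2 * A) :=
        mul_le_mul_of_nonneg_left hs hmP'
      nlinarith
    have h7 : ((r : ℝ) + 1) ^ k0 ≤ ((r : ℝ) + Real.log m) ^ (k0 + 6) :=
      (pow_le_pow_left₀ (by linarith) hrL k0).trans
        (pow_le_pow_right₀ (by linarith) (by omega))
    calc W * Real.exp (m * slk t) * ((r : ℝ) + 1) ^ k0
        ≤ (B0 * cut m (4 / 3) t * Real.exp (-(2 * m * A))) * Real.exp (m * slk t) *
          ((r : ℝ) + 1) ^ k0 := by gcongr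
      _ = B0 * ((r : ℝ) + 1) ^ k0 * (cut m (4 / 3) t *
          (Real.exp (-(2 * m * A)) * Real.exp (m * slk t))) := by ring
      _ ≤ _ := by gcongr
  | Sv =>
    simp only [slkK, wK, colK]
    have hW' : W ≤ B0 / ρ * cut m (4 / 3) t *
      Real.exp (-(m * A) + B0 * (m * ρ * Real.exp (-(8 / 3) * |t|))) := hW
    refine supp_actG (C₀ := CVV) (κ := κ / 4) hCVV0 hCV (by positivity) hm1 hD hh zero_le_one hTT hL ?_
    have hcut := cut_nonneg m (4 / 3) t
    have hy := one_add_mul_exp (κ := κ / 4) (by positivity) hmP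
    have hKV : B0 * (m * ρ * Real.exp (-(8 / 3) * |t|)) ≤ B0 / dl := by
      have h9 : m * ρ * (dl * Real.exp (-(8 / 3) * |t|)) ≤ m * ρ * D :=
        mul_le_mul_of_nonneg_left hD (by positivity)
      have h10 : m * ρ * (dl * Real.exp (-(8 / 3) * |t|)) ≤ 1 := by nlinarith
      rw [le_div_iff₀ hdl]
      have h11 := mul_le_mul_of_nonneg_left h10 hB0.le
      linarith
    have h5 : Real.exp (-(m * A) + B0 * (m * ρ * Real.exp (-(8 / 3) * |t|))) *
        Real.exp (m * (slk t / 2)) ≤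
        Real.exp (B0 / dl) * (Real.exp (-(κ / 4 * (m * D))) *
          Real.exp (-(κ / 4 * (m * D)))) := by
      rw [← Real.exp_add, ← Real.exp_add, ← Real.exp_add]
      refine Real.exp_le_exp.2 ?_
      have h6 : m * (slk t + κ * D) ≤ m * (2 * A) :=
        mul_le_mul_of_nonneg_left hs hmP'
      nlinarith
    have h7 : ((r : ℝ) + 1) ^ 5 * (1 + Real.log m) * ((r : ℝ) + 1) ^ k0 ≤
        2 * ((r : ℝ) + Real.log m) ^ (k0 + 6) := by
      have h8 : 1 + Real.log m ≤ 2 * ((r : ℝ) + Real.log m) := by linarith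
      have h9 : ((r : ℝ) + 1) ^ (5 + k0) ≤ ((r : ℝ) + Real.log m) ^ (5 + k0) :=
        pow_le_pow_left₀ (by linarith) hrL _
      calc ((r : ℝ) + 1) ^ 5 * (1 + Real.log m) * ((r : ℝ) + 1) ^ k0 =
          ((r : ℝ) + 1) ^ (5 + k0) * (1 + Real.log m) := by ring
        _ ≤ ((r : ℝ) + Real.log m) ^ (5 + k0) * (2 * ((r : ℝ) + Real.log m)) := by
          gcongr
        _ = _ := by ring
    calc W * Real.exp (m * (slk t / 2)) * ((r : ℝ) + 1) ^ k0
        ≤ (B0 / ρ * cut m (4 / 3) t *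
          Real.exp (-(m * A) + B0 * (m * ρ * Real.exp (-(8 / 3) * |t|)))) *
          Real.exp (m * (slk t / 2)) * ((r : ℝ) + 1) ^ k0 := by gcongr
      _ = B0 * (1 / ρ) * ((r : ℝ) + 1) ^ k0 * (cut m (4 / 3) t *
          (Real.exp (-(m * A) + B0 * (m * ρ * Real.exp (-(8 / 3) * |t|))) *
          Real.exp (m * (slk t / 2)))) := by ring
      _ ≤ B0 * (K1 * ((r : ℝ) + 1) ^ 5 * (1 + Real.log m) * (1 + m * D)) * ((r : ℝ) + 1) ^ k0 *
          (cut m (4 / 3) t * (Real.exp (B0 / dl) *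
            (Real.exp (-(κ / 4 * (m * D))) * Real.exp (-(κ / 4 * (m * D)))))) := by
          gcongr
      _ = B0 * K1 * Real.exp (B0 / dl) *
          ((1 + m * D) * Real.exp (-(κ / 4 * (m * D)))) *
          (((r : ℝ) + 1) ^ 5 * (1 + Real.log m) * ((r : ℝ) + 1) ^ k0) *
          (cut m (4 / 3) t * Real.exp (-(κ / 4 * (m * D)))) := by ring
      _ ≤ B0 * K1 * Real.exp (B0 / dl) * (1 + 1 / (κ / 4)) *
          (2 * ((r : ℝ) + Real.log m) ^ (k0 + 6)) *
          (cut m (4 / 3) t * Real.exp (-(κ / 4 * (m * D)))) := by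
          gcongr
      _ = _ := by rw [hCVV]; ring

/-- the case of the density `NUMF.P` and of `ParOK` -/
theorem kb_act {κ : ℝ} (hκ : 0 < κ) (K0 K1 B0 : ℝ) (hK1 : 0 ≤ K1) (hB0 : 0 < B0) (k0 : ℕ) :
    ∃ C c : ℝ, 0 < C ∧ 0 < c ∧ ∀ (m : ℕ), 3 ≤ m → ∀ P : Par, ParOK P m K1 →
      ∀ ep : ℝ, 0 < ep → ep ≤ 1 / 100 → ∀ e1 J : ℝ,
      ∀ T' : ℝ, Tb (Real.log m) / (1 - ep) ≤ T' → ∀ (r : ℕ) (O : Fin r → Xo) (i : Fin r)
      (W A h : ℝ) (slk : ℝ → ℝ), 0 ≤ h → (|ht (O i)| ≤ (1 - 3 * e1) * Tb (Real.log m) → J ≤ h) →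
      slk (ht (O i)) + κ * NUMF.P (ht (O i)) ≤ 2 * A →
      KB B0 m (4 / 3 * (1 - ep)) (rr P O i) A 1 W (kd (O i)) (ht (O i)) →
        W * Real.exp (m * slkK slk (kd (O i)) (ht (O i)) -
            2 * Real.pi * wK (kd (O i)) * h + exc T' (ht (O i)) + K0) *
              colK (((r : ℝ) + 1) ^ k0) (kd (O i)) ≤
          act C 1 c (1 / 10) (k0 + 6) (Real.log m) ep e1 J r (ht (O i)) := by
  obtain ⟨C, c, hC, hc, H⟩ := kb_actD hκ (by norm_num : (0 : ℝ) < 7 / 10) K0 K1 B0 hK1 hB0 k0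
  exact ⟨C, c, hC, hc, fun m hm P hP ep hep hep1 e1 J T' hT' r O i W A h slk hh hhJ hs hW =>
    H m hm ep hep hep1 e1 J T' hT' r _ _ _ _ W A h slk hh hhJ (seven_tenths_le_P _) hs
      (hP.r0 r _) (hP.r2 r _) (hP.r3 r _) hW⟩

end NUGC

end
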