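import Pool.Agent.NUO.AsmAlg

/-!
# Algebra of one configuration with spectators

`conf_algC`: as `NUO.conf_alg`, with the direct factors `sp i` and the energies `es i` of the spectators
and of the object `i`, `sp i * exp (es i) ≤ exp A2`.
-/

set_option autoImplicit false

noncomputable section

open Finset

namespace NUGC

open NUO NUStabP NUDispW

/-- **the algebra of one configuration with spectators** -/
theorem conf_algC {r : ℕ} {x o sp u es act' coll col : Fin r → ℝ}
    {PP EG B K C2 A A2 c1 kap dr : ℝ}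
    (W : Finset ℤ) (hC2 : 0 ≤ C2) (hkap0 : 0 ≤ kap) (hkap : kap ≤ c1 / 2)
    (hdr : (r : ℝ) ^ 2 * dr ≤ r) (ho : ∀ i, 0 ≤ o i) (hsp : ∀ i, 0 ≤ sp i) (hcoll0 : ∀ i, 0 ≤ coll i)
    (hcoll : ∀ i, coll i ≤ Real.exp A * col i)
    (hstab : ∀ W : Finset ℤ, PP * Real.exp EG ≤
      Real.exp (C2 * r + C2 * r ^ 2 * dr) * (∏ i, coll i) *
        Real.exp (-(c1 * ∑ w ∈ W, (cnt x w : ℝ) ^ 2)))
    (hspec : ∀ i, sp i * Real.exp (es i) ≤ Real.exp A2)
    (hone : ∀ i, o i * Real.exp (u i + (2 * C2 + K + A + A2)) * col i ≤ act' i) (hB : 0 ≤ B) :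
    ((∏ i, o i) * ∏ i, sp i) * PP *
        (B * Real.exp (∑ i, u i + ∑ i, es i + K * r + EG + kap * win univ x)) ≤
      B * (∏ i, act' i) * Real.exp (-(c1 / 2 * ∑ w ∈ W, (cnt x w : ℝ) ^ 2)) := by
  rw [← prod_mul_distrib, ← sum_add_distrib]
  refine conf_alg (x := x) (o := fun i => o i * sp i) (u := fun i => u i + es i) (act' := act')
    (coll := coll) (col := col) (A := A) W hC2 hkap0 hkap hdr
    (fun i => mul_nonneg (ho i) (hsp i)) hcoll0 hcoll hstab (fun i => ?_) hB
  have hcol : 0 ≤ col i := by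
    have h1 := (hcoll0 i).trans (hcoll i)
    exact nonneg_of_mul_nonneg_right h1 (Real.exp_pos A)
  refine le_trans ?_ (hone i)
  calc o i * sp i * Real.exp (u i + es i + (2 * C2 + K + A)) * col i
      = o i * Real.exp (u i + (2 * C2 + K + A)) * col i * (sp i * Real.exp (es i)) := by
        rw [show u i + es i + (2 * C2 + K + A) = (u i + (2 * C2 + K + A)) + es i by ring,
          Real.exp_add _ (es i)]
        ring
    _ ≤ o i * Real.exp (u i + (2 * C2 + K + A)) * col i * Real.exp A2 := by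
        refine mul_le_mul_of_nonneg_left (hspec i) ?_
        exact mul_nonneg (mul_nonneg (ho i) (Real.exp_pos _).le) hcol
    _ = _ := by
        rw [show u i + (2 * C2 + K + A + A2) = (u i + (2 * C2 + K + A)) + A2 by ring,
          Real.exp_add _ A2]
        ring

end NUGC

end
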