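import Pool.Agent.NUGC.SpPin
import Pool.Agent.NUGC.AlgC
import Pool.Agent.NUSea.Par0G

/-!
# TARGET-C: the tilted bound of one configuration with groups of spectators

`perG_of : StabProd → S4C → PerG`: for every family `g` of at most two groups of different species the
terms of the representation satisfy `PerCof`, with the prefactor
`Cst exp (m^2 e) m^(Ca (ep + e1) + δ) exp (m Σ MF) (1 or m^(1/2)) Qe` as soon as `Qe` bounds the
energies of the groups pinned at `T1`, the far constants and the far factors, for every end `T1` of the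
window.
-/

set_option autoImplicit false

noncomputable section

open MeasureTheory Finset
open scoped ENNReal

namespace NUGC

open NUO NUP1 NUStabP NUDispW
open NUC43 (sg kq)
open NUSea.H0 (Gd IG TG cstF)
open NUSp (kG spo qc)
open NUDirP (Small)
open Pool.Agent.NUM3 (sgn)

attribute [local instance] NUSea.seaH

/-- energies of the groups pinned at `T1`, far constants with `aX - aY` extra quanta, far factors -/
def enQ {n : ℕ} (g : Fin n → Gd) (aX aY : ℕ) (E x T1 : ℝ) : ℝ :=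
  1 / 2 * (∑ d, ∑ d', ES (TG (fun i => (g i).pin T1) d) (TG (fun i => (g i).pin T1) d')) +
    cstF T1 g true * ((aX : ℝ) - aY) + (37 / 20 * x + 12 / 5 * E)

/-- **the tilted bounds for a family of groups** -/
def PerG (C c b : ℝ) (k : ℕ) (c1 Ca : ℝ) : Prop :=
  ∀ ep : ℝ, 0 < ep → ep ≤ 1 / 100 → ∀ e1 : ℝ, 0 < e1 → e1 ≤ 1 / 100 → ∀ J : ℝ, 0 ≤ J →
    ∀ δ : ℝ, 0 < δ → ∃ d Cst : ℝ, 0 < d ∧ 0 ≤ Cst ∧ ∃ M0 : ℕ, ∀ M ≥ M0,
      ∀ (n : ℕ) (g : Fin n → Gd) (aX aY : ℕ) (ν E Qe : ℝ), n ≤ 2 →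
        (∀ i j, i ≠ j → (g i).σ ≠ (g j).σ) → aX ≤ 3 → aY ≤ 3 →
        (aX : ℝ) - aY = -∑ i, NUC43.sg (g i).σ * qc (g i).c / 2 →
        |ν - (2 * M + 1 : ℕ)| ≤ 2 → 0 ≤ E →
        (∀ i, (g i).c = .w ∨ (g i).c = .d ∨ |(g i).τ| ≤ TWC ep e1 M + E) → 0 ≤ Qe →
        (∀ T1, TWC ep e1 M + E ≤ T1 → ∃ x, 0 ≤ x ∧ (∀ i, NUSp.exc T1 (g i).τ ≤ x) ∧
          Real.exp (enQ g aX aY E x T1) ≤ Qe) →
        PerCof C 1 c b k c1 0 (Lm M) ep e1 J ν d (4 * M) (obF M (4 / 3 * (1 - ep)) g) (parC M)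
          aX aY (Cst * Real.exp ((2 * (M : ℝ) + 1) ^ 2 * ∫ t, NUMFH.Pd t * NUMFH.vd t) *
            ((2 * M + 1 : ℕ) : ℝ) ^ (Ca * (ep + e1) + δ) *
            Real.exp ((2 * M + 1 : ℕ) * ∑ i, NUPref.MF (g i).c (g i).w) *
            (if ∀ i, |(g i).τ| ≤ TWC ep e1 M then 1 else Real.exp (Lm M / 2)) * Qe)

theorem LmA_nonneg (M : ℕ) : 0 ≤ Lm M := by
  refine Real.log_nonneg ?_
  have : 1 ≤ 2 * M + 1 := by omega
  exact_mod_cast this

theorem TWCA_ge {ep e1 : ℝ} (hep : 0 < ep) (hep1 : ep ≤ 1 / 100) (he1 : 0 < e1) (M : ℕ) :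
    Tb (Lm M) / (1 - ep) ≤ TWC ep e1 M := by
  have hL := LmA_nonneg M
  unfold TWC TW
  have hT : 0 ≤ Tb (Lm M) := by
    unfold Tb
    positivity
  rw [div_le_iff₀ (by linarith)]
  have h1 : 1 ≤ (1 + 2 * e1 + 2 * ep) * (1 - ep) := by nlinarith
  have e : (1 + 2 * e1 + 2 * ep) * Tb (Real.log ((2 * M + 1 : ℕ) : ℝ)) * (1 - ep) =
      (1 + 2 * e1 + 2 * ep) * (1 - ep) * Tb (Lm M) := by ring
  rw [e]
  nlinarith

theorem ob1cA_nonneg (M : ℕ) (β : ℝ) {r : ℕ} (O : Fin r → Xo) (i : Fin r) :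
    0 ≤ ob1c (obE M β fun _ _ => 1) (parC M).jL (ei (parC M) O i) (rr (parC M) O i) (O i) := by
  refine ob1c_nonneg ?_ _ _ ?_ _
  · exact obC_nn fun a u => mul_nonneg (ThN_nonneg u) zero_le_one
  · exact (NUSea.O.rad0_pos _ _ _).le

theorem spFA_nonneg {n : ℕ} (g : Fin n → Gd) (a : Bool) (u : ℂ) : 0 ≤ spF g a u := by
  unfold spF
  refine prod_nonneg fun i _ => ?_
  rw [← spM_get]
  exact spM_nonneg _ _ _

theorem obFA_eq (M : ℕ) (β : ℝ) {n : ℕ} (g : Fin n → Gd) :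
    obF M β g = (obE M β fun _ _ => 1).mul (spF g) := by
  unfold obF obE OB.mul obC
  simp only [mul_one, mul_assoc]

/-- **the tilted bounds for a family of groups** from the stability bound and `S4C` -/
theorem perG_of (hS : StabProd) (h4 : S4C) : ∃ (C c b c1 Ca : ℝ) (k : ℕ), 0 < C ∧ 0 < c ∧ 0 < b ∧
    0 < c1 ∧ 0 ≤ Ca ∧ PerG C c b k c1 Ca := by
  obtain ⟨C2, c1, hC2, hc1, hstab⟩ := hS
  obtain ⟨K, Ca, hK, hCa, h4⟩ := h4
  obtain ⟨C3, hC3, hspec⟩ := spec_pin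
  obtain ⟨C, c, hC, hc, hone⟩ := one_actC0 (2 * C2 + K + (C2 * 6144 + 1) * 4 + Real.log C3) 12
  refine ⟨C, c, 1 / 10, c1 / 2, Ca, 12 + 6, hC, hc, by norm_num, by positivity, hCa, ?_⟩
  intro ep hep hep1 e1 he1 he11 J hJ δ hδ
  obtain ⟨d, Cst, hd, hCst, M0, h4⟩ :=
    h4 (c1 / 2) (by positivity) ep hep hep1 e1 he1 he11 J hJ δ hδ
  obtain ⟨m1, hm1, hcur⟩ := curOKC he1 he11 hJ hep
  refine ⟨d, Cst, hd, hCst, max M0 (max m1 1), ?_⟩
  intro M hM n g aX aY ν E Qe hn hσ haX haY hq hν hE hcE hQe hpin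
  have hM0 : M0 ≤ M := (le_max_left _ _).trans hM
  have hM1 : m1 ≤ M := ((le_max_left _ _).trans (le_max_right _ _)).trans hM
  have hM2 : 1 ≤ M := ((le_max_right _ _).trans (le_max_right _ _)).trans hM
  intro N hN b' hb' r hr O
  refine ⟨etaC e1 J (2 * M + 1) (2 * M + 1 : ℕ), etaC' e1 J (2 * M + 1) (2 * M + 1 : ℕ),
    hcur (2 * M + 1) (by omega) _ (by
      have : (0 : ℝ) ≤ (2 * M + 1 : ℕ) := Nat.cast_nonneg _
      linarith), fun W => ?_⟩
  unfold TmC Fnc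
  by_cases hchg : chgO O true ≤ N + aX ∧ chgO O false ≤ N + aY
  swap
  · rw [if_neg hchg, mul_zero]
    exact zero_le
  rw [if_pos hchg]
  -- the end of the window
  obtain ⟨T1, hT1⟩ : ∃ T1, T1 = T1C ep e1 M O E := ⟨_, rfl⟩
  have hexc0 := excS_nonneg (TWC ep e1 M) O
  have hT1E : TWC ep e1 M + E ≤ T1 := by
    rw [hT1]
    unfold T1C
    linarith [le_max_right (excS (TWC ep e1 M) O) E]
  have hT1O : ∀ i, |ht (O i)| ≤ T1 := by
    intro i
    have h1 := excS_ge (TWC ep e1 M) O i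
    have h2 := le_max_left (excS (TWC ep e1 M) O) E
    rw [hT1]
    unfold T1C
    linarith
  obtain ⟨x, hx0, hx, hQ⟩ := hpin T1 hT1E
  have hR : RgC ep e1 M g aX aY ν N O E x :=
    ⟨hn, hσ, haX, haY, hq, hν, hN, hr, hchg.1, hchg.2, hE, hcE, hx0, fun i => by
      rw [← hT1]
      exact hx i⟩
  have h5 := h4 M hM0 n g aX aY ν N b' r O E x hb' hR
  rw [← hT1] at h5
  obtain ⟨F, hF⟩ : ∃ F : ℝ, F = if ∀ i, |(g i).τ| ≤ TWC ep e1 M then 1 else
    Real.exp (Lm M / 2) := ⟨_, rfl⟩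
  rw [← hF] at h5 ⊢
  have hF0 : 0 ≤ F := by
    rw [hF]
    split_ifs
    · exact zero_le_one
    · exact (Real.exp_pos _).le
  obtain ⟨mp, hmp⟩ : ∃ mp, mp = ((2 * M + 1 : ℕ) : ℝ) ^ (Ca * (ep + e1) + δ) := ⟨_, rfl⟩
  rw [← hmp] at h5 ⊢
  have hmp0 : 0 ≤ mp := by
    rw [hmp]
    positivity
  -- the numbers
  have hpq : (((N + aX - chgO O true : ℕ) : ℝ) - ((N + aY - chgO O false : ℕ) : ℝ)) =
      ((aX : ℝ) - aY) - ∑ i, sg (sp (O i)) * kq (kd (O i)) := by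
    rw [NUH0.sum_kq, Nat.cast_sub hchg.1, Nat.cast_sub hchg.2]
    push_cast
    ring
  obtain ⟨EE, hEE⟩ : ∃ EE, EE = 1 / 2 * (∑ d, ∑ d', ES (TG (fun i => (g i).pin T1) d)
    (TG (fun i => (g i).pin T1) d')) := ⟨_, rfl⟩
  obtain ⟨ct, hct⟩ : ∃ ct, ct = cstF T1 g true := ⟨_, rfl⟩
  set es : Fin r → ℝ := fun i => ∑ d, ES (obSr (parC M).jL (parC M).e (O i))
    (TG (fun i => (g i).pin T1) d) - ct * (sg (sp (O i)) * kq (kd (O i))) with hes
  have henG : enG M g O T1 (N + aX - chgO O true) (N + aY - chgO O false) =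
      ∑ i, es i + (EE + ct * ((aX : ℝ) - aY)) := by
    unfold enG
    rw [hpq, hes, sum_sub_distrib, ← mul_sum, ← hEE, ← hct]
    ring
  set B : ℝ := prefC M g E x Cst * mp * F * Real.exp (EE + ct * ((aX : ℝ) - aY)) with hB
  have hB0 : 0 ≤ B := by
    have := prefC_nonneg (M := M) (g := g) (E := E) (x := x) hCst
    positivity
  -- the algebra
  have hobj0 := ob1cA_nonneg M (4 / 3 * (1 - ep)) O
  have hdr : (r : ℝ) ^ 2 * (parC M).d r ≤ r := by
    rcases Nat.eq_zero_or_pos r with h | h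
    · simp [h]
    · have h1 := d0_sq r
      have h2 : (1 : ℝ) ≤ r := by exact_mod_cast h
      rw [NUSea.O.par0_d]
      linarith
  have hTp : 0 < Tb (Lm M) := by
    unfold Tb
    have h1 : (1 : ℝ) < ((2 * M + 1 : ℕ) : ℝ) := by
      have : 1 < 2 * M + 1 := by omega
      exact_mod_cast this
    have := Real.log_pos h1
    positivity
  have key := conf_algC (x := fun i => ht (O i))
    (o := fun i => ob1c (obE M (4 / 3 * (1 - ep)) fun _ _ => 1) (parC M).jL (ei (parC M) O i)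
      (rr (parC M) O i) (O i))
    (sp := fun i => facL (spF g) (cons (parC M) O i))
    (u := fun i => oneEC M e1 J (TWC ep e1 M) O i) (es := es)
    (act' := fun i => act C 1 c (1 / 10) (12 + 6) (Lm M) ep e1 J r (ht (O i)))
    (coll := fun i => collC C2 4 (parC M) r (O i))
    (col := fun i => colK (((r : ℝ) + 1) ^ 12) (kd (O i)))
    (PP := ∏ i, ∏ j, if i < j then pairN (parC M) O i j else 1) (EG := enC O) (B := B)
    (K := K) (C2 := C2) (A := (C2 * 6144 + 1) * 4) (A2 := Real.log C3) (c1 := c1) (kap := c1 / 2)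
    (dr := (parC M).d r) W hC2.le (by positivity) le_rfl hdr hobj0
    (fun i => facL_nonneg (spFA_nonneg g) _)
    (fun i => collC_nonneg hC2.le (d0_pos r) _)
    (fun i => coll_bd hC2.le (by norm_num) (d0_pos r) (d0_inv r).le _)
    (fun W => hstab (parC M) rfl rfl r (NUSea.O.small_par0 _ r) O W)
    (fun i => by
      have h := hspec (parC M) rfl rfl r (NUSea.O.small_par0 _ r) O i T1 (hT1O i) n g hn
      rw [Real.exp_log (by linarith), hes]
      rw [← hct] at h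
      exact h)
    (fun i => hone M hM2 ep hep hep1 e1 J (TWC ep e1 M) (TWCA_ge hep hep1 he1 M)
      (NUCUR.cur e1 (Tb (Lm M)) J) (fun t => NUCUR.cur_nonneg hJ t)
      (fun t ht' => (NUCUR.cur_eq he1 hTp (ht'.trans (by nlinarith))).ge) r O i) hB0
  -- the weight of the objects
  have hobj : objWc (obF M (4 / 3 * (1 - ep)) g) (parC M) O =
      ((∏ i, ob1c (obE M (4 / 3 * (1 - ep)) fun _ _ => 1) (parC M).jL (ei (parC M) O i)
        (rr (parC M) O i) (O i)) * ∏ i, facL (spF g) (cons (parC M) O i)) *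
        ∏ i, ∏ j, if i < j then pairN (parC M) O i j else 1 := by
    unfold objWc
    rw [obFA_eq, prod_ob1c_mul]
  have hobjn : 0 ≤ objWc (obF M (4 / 3 * (1 - ep)) g) (parC M) O := by
    rw [hobj]
    refine mul_nonneg (mul_nonneg (prod_nonneg fun i _ => hobj0 i)
      (prod_nonneg fun i _ => facL_nonneg (spFA_nonneg g) _)) ?_
    refine prod_nonneg fun i _ => prod_nonneg fun j _ => ?_
    split_ifs
    · exact pairN_nonneg _ _ _ _
    · exact zero_le_one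
  have hexp : prefC M g E x Cst * mp * F * Real.exp (confEC M e1 J (TWC ep e1 M) K (c1 / 2) O +
      enG M g O T1 (N + aX - chgO O true) (N + aY - chgO O false)) =
      B * Real.exp (∑ i, oneEC M e1 J (TWC ep e1 M) O i + ∑ i, es i + K * r + enC O +
        c1 / 2 * win univ fun i => ht (O i)) := by
    rw [henG, hB, mul_assoc _ (Real.exp _) (Real.exp _), ← Real.exp_add]
    congr 2
    unfold confEC
    ring
  rw [hexp] at h5
  -- the prefactor
  have hBQ : B ≤ Cst * Real.exp ((2 * (M : ℝ) + 1) ^ 2 * ∫ t, NUMFH.Pd t * NUMFH.vd t) * mp *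
      Real.exp ((2 * M + 1 : ℕ) * ∑ i, NUPref.MF (g i).c (g i).w) * F * Qe := by
    have e1 : B = Cst * Real.exp ((2 * (M : ℝ) + 1) ^ 2 * ∫ t, NUMFH.Pd t * NUMFH.vd t) * mp *
        Real.exp ((2 * M + 1 : ℕ) * ∑ i, NUPref.MF (g i).c (g i).w) * F *
        Real.exp (enQ g aX aY E x T1) := by
      rw [hB]
      unfold prefC enQ
      rw [← hEE, ← hct, Real.exp_add (EE + ct * ((aX : ℝ) - aY))]
      ring
    rw [e1]
    refine mul_le_mul_of_nonneg_left hQ ?_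
    positivity
  have hact0 : 0 ≤ ∏ i, act C 1 c (1 / 10) (12 + 6) (Lm M) ep e1 J r (ht (O i)) :=
    prod_nonneg fun i _ => act_nonneg hC.le zero_le_one (LmA_nonneg M)
  have hlast : B * (∏ i, act C 1 c (1 / 10) (12 + 6) (Lm M) ep e1 J r (ht (O i))) *
      Real.exp (-(c1 / 2 * ∑ w ∈ W, (cnt (fun i => ht (O i)) w : ℝ) ^ 2)) ≤
      Cst * Real.exp ((2 * (M : ℝ) + 1) ^ 2 * ∫ t, NUMFH.Pd t * NUMFH.vd t) * mp *
        Real.exp ((2 * M + 1 : ℕ) * ∑ i, NUPref.MF (g i).c (g i).w) * F * Qe *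
        (if (r : ℝ) ≤ Lm M then 1 else Real.exp (0 * Lm M)) *
        (∏ i, act C 1 c (1 / 10) (12 + 6) (Lm M) ep e1 J r (ht (O i))) *
        Real.exp (-(c1 / 2 * ∑ w ∈ W, (cO O w : ℝ) ^ 2)) := by
    have g3 : ∀ w, cO O w = cnt (fun i => ht (O i)) w := fun w => rfl
    have g4 : (if (r : ℝ) ≤ Lm M then (1 : ℝ) else Real.exp (0 * Lm M)) = 1 := by
      split_ifs
      · rfl
      · rw [zero_mul, Real.exp_zero]
    simp only [g3]
    rw [g4, mul_one]
    refine mul_le_mul_of_nonneg_right ?_ (Real.exp_pos _).le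
    exact mul_le_mul_of_nonneg_right hBQ hact0
  calc ENNReal.ofReal (Real.exp (b' * (ν - N))) *
        (ENNReal.ofReal (objWc (obF M (4 / 3 * (1 - ep)) g) (parC M) O) *
          Z1c (obF M (4 / 3 * (1 - ep)) g) (parC M) (etaC e1 J (2 * M + 1) (2 * M + 1 : ℕ))
            (etaC' e1 J (2 * M + 1) (2 * M + 1 : ℕ)) O (N + aX - chgO O true)
            (N + aY - chgO O false))
      = ENNReal.ofReal (objWc (obF M (4 / 3 * (1 - ep)) g) (parC M) O) *
        lhsC ep e1 J M g aX aY ν N b' O := by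
        unfold lhsC
        ring
    _ ≤ ENNReal.ofReal (objWc (obF M (4 / 3 * (1 - ep)) g) (parC M) O) *
        ENNReal.ofReal (B * Real.exp (∑ i, oneEC M e1 J (TWC ep e1 M) O i + ∑ i, es i + K * r +
          enC O + c1 / 2 * win univ fun i => ht (O i))) := mul_le_mul_right h5 _
    _ = ENNReal.ofReal (objWc (obF M (4 / 3 * (1 - ep)) g) (parC M) O *
        (B * Real.exp (∑ i, oneEC M e1 J (TWC ep e1 M) O i + ∑ i, es i + K * r +
          enC O + c1 / 2 * win univ fun i => ht (O i)))) := (ENNReal.ofReal_mul hobjn).symm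
    _ ≤ ENNReal.ofReal (B * (∏ i, act C 1 c (1 / 10) (12 + 6) (Lm M) ep e1 J r (ht (O i))) *
      Real.exp (-(c1 / 2 * ∑ w ∈ W, (cnt (fun i => ht (O i)) w : ℝ) ^ 2))) := by
        refine ENNReal.ofReal_le_ofReal ?_
        rw [hobj]
        exact key
    _ ≤ _ := ENNReal.ofReal_le_ofReal hlast

end NUGC

end
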