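import Pool.Agent.NUGC.QC2

/-!
# `PerAll` from the tilted bounds with the prefactors `QF`, `QD` and the bounds of the kernels
-/

set_option autoImplicit false

noncomputable section

open MeasureTheory Finset
open scoped ENNReal

namespace NUGC

open NUO NUP1 NUCR NUP1S NURow

/-- the constant `A` of `QF`, `QD` -/
def AC (Cst Ca ep e1 δ : ℝ) (M : ℕ) : ℝ := Cst * (2 * (M : ℝ) + 1) ^ (Ca * (ep + e1) + δ) *
  Real.exp ((2 * (M : ℝ) + 1) ^ 2 * EMF)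

/-- **The tilted bounds of all classes** with the prefactors `QF`, `QD`. -/
def PerBd : Prop :=
  ∃ (C c b c1 c' Ca : ℝ) (k : ℕ), 0 < C ∧ 0 < c ∧ 0 < b ∧ 0 < c1 ∧ 0 ≤ c' ∧ 0 ≤ Ca ∧
    ∀ ep : ℝ, 0 < ep → ep ≤ 1 / 100 → ∀ e1 : ℝ, 0 < e1 → e1 ≤ 1 / 100 → ∀ J : ℝ, 0 ≤ J →
    ∀ δ : ℝ, 0 < δ → ∃ d C' Cst : ℝ, 0 < d ∧ 0 ≤ C' ∧ 0 ≤ Cst ∧ ∃ M0 : ℕ, ∀ M : ℕ, M0 ≤ M →
      ∃ P : Par, ParM P ∧
      (∀ (t t' : HT), ∃ ν : ℝ, ∀ (y : ℝ × ℝ) (u : Bool × Bool), (u.1 = true → htP t = true) →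
          (u.2 = true → htP t' = true) →
          PerGen C C' c b k c1 c' (Real.log (2 * M + 1)) ep e1 J ν d (4 * M)
            (aXt t t' + aYt t t')
            (TmV u.1.toNat u.2.toNat (obK M M (beC ep) t t' (vl (htL t) y.1)
              (vl (htL t') y.2) u.1 u.2) P (aXt t t') (aYt t t'))
            (QF ep e1 M (AC Cst Ca ep e1 δ M) t t' y u)) ∧
      ∀ o : Bool, ∃ ν : ℝ, ∀ y : ℝ, PerCof C C' c b k c1 c' (Real.log (2 * M + 1)) ep e1 J ν d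
          (4 * M) (obD M M (beC ep) o (vl (-(11 / 4) * l) y)) P 0 0
          (QD ep e1 M (AC Cst Ca ep e1 δ M) y)

theorem AC_nonneg {Cst : ℝ} (h : 0 ≤ Cst) (Ca ep e1 δ : ℝ) (M : ℕ) :
    0 ≤ AC Cst Ca ep e1 δ M := by
  unfold AC
  positivity

theorem AC_mul (K Cst Ca ep e1 δ : ℝ) (M : ℕ) :
    K * AC Cst Ca ep e1 δ M = K * Cst * (2 * (M : ℝ) + 1) ^ (Ca * (ep + e1) + δ) *
      Real.exp ((2 * (M : ℝ) + 1) ^ 2 * EMF) := by
  unfold AC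
  ring

/-- **The gas side of TARGET-C.** -/
theorem perAll_of {C0 CG CD : ℝ} (h0 : 0 ≤ C0) (hG0 : 0 ≤ CG) (hD0 : 0 ≤ CD) (hO : OwnLe C0)
    (hG : DirLe CG) (hD : OwnDLe CD) (hP : PerBd) : PerAll := by
  obtain ⟨C, c, b, c1, c', Ca, k, hC, hc, hb, hc1, hc', hCa, hP⟩ := hP
  refine ⟨C, c, b, c1, c', Ca, k, hC, hc, hb, hc1, hc', hCa, ?_⟩
  intro ep hep hep' e1 he1 he1' J hJ δ hδ
  obtain ⟨d, C', Cst, hd, hC', hCst, M0, hM0⟩ := hP ep hep hep' e1 he1 he1' J hJ δ hδ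
  set K : ℝ := 1728016 * (C0 * C0 * CG) + 40 / 3 * CD with hK
  have hK0 : 0 ≤ K := by positivity
  have hK1 : 1728016 * (C0 * C0 * CG) ≤ K := by
    rw [hK]
    linarith
  have hK2 : 40 / 3 * CD ≤ K := by
    have : 0 ≤ 1728016 * (C0 * C0 * CG) := by positivity
    rw [hK]
    linarith
  refine ⟨d, C', K * Cst, hd, hC', by positivity, max M0 1, fun M hM => ?_⟩
  have gM : 1 ≤ M := (le_max_right _ _).trans hM
  obtain ⟨P, hPP, hcl, hclD⟩ := hM0 M ((le_max_left _ _).trans hM)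
  have hA := AC_nonneg hCst Ca ep e1 δ M
  refine ⟨P, hPP, fun t t' => ?_, fun o => ?_⟩
  · obtain ⟨ν, h⟩ := hcl t t'
    refine ⟨ν, QF ep e1 M (AC Cst Ca ep e1 δ M) t t', QF_nonneg hA t t', ?_, h⟩
    refine (int_QF h0 hG0 hO hG hep hep' he1.le gM hA t t').trans
      (ENNReal.ofReal_le_ofReal ?_)
    rw [← AC_mul]
    exact mul_le_mul_of_nonneg_right hK1 hA
  · obtain ⟨ν, h⟩ := hclD o
    refine ⟨ν, QD ep e1 M (AC Cst Ca ep e1 δ M), QD_nonneg hA, ?_, h⟩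
    refine (int_QD hD0 hD hep.le he1.le gM hA o).trans (ENNReal.ofReal_le_ofReal ?_)
    rw [← AC_mul]
    exact mul_le_mul_of_nonneg_right hK2 hA

end NUGC

end
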