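import Pool.Agent.NUSea.H0.PinF
import Pool.Agent.NUGC.DrC
import Pool.Agent.NUGC.QC1

/-!
# The energies of two groups of spectators and their far constants (TARGET-C)

* `ek_ES`: the response energy of two elementary spectators is linear up to `O(1)`;
* `ES_TG`: a family of groups; `grp_en`, `one_en`: two groups of different species, one neutral group;
* `cst_eq`: the constants of the far half quanta;
* **`grp_QX`**: energies of the pinned groups, constants and far factors are at most `QX`;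
  `one_QX`: the same for one neutral group.
-/

set_option autoImplicit false
set_option linter.unusedSectionVars false

open MeasureTheory Finset

namespace NUGC

noncomputable section

open NUC43 (sg)
open NUSea.H0 (Gd IG TG cstF)
open NUSp (kG spo qc srcG)
open Pool.Agent.NUM3 (sgn)

lemma sgn_beq (a a' : Bool) : sgn (a == a') = sg a * sg a' := by
  cases a <;> cases a' <;> norm_num [sgn, sg]

/-- a bound for all elementary spectators from a bound for each -/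
lemma ek_le (f : Ek → ℝ) (h : ∀ k, 0 ≤ f k) (k : Ek) :
    f k ≤ f .h5 + f .hm + f .h1 + f .hs + f .q1 + f .qs + f .sr := by
  have h1 := h .h5
  have h2 := h .hm
  have h3 := h .h1
  have h4 := h .hs
  have h5 := h .q1
  have h6 := h .qs
  have h7 := h .sr
  cases k <;> linarith

/-- **the response energy of two elementary spectators** -/
theorem ek_ES : ∃ C : ℝ, 0 ≤ C ∧ ∀ (a a' : Bool) (k k' : Ek) (τ τ' : ℝ),
    |ES (Ek.src a k τ) (Ek.src a' k' τ') + 2 * ((sg a * k.q) * (sg a' * k'.q)) * (|τ - τ'|)| ≤ C := by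
  have h : ∀ (k k' : Ek) (σ : Bool), ∃ C : ℝ, 0 ≤ C ∧ ∀ x y : ℝ,
      |ERc σ k.F k.G k'.F k'.G x y + 2 * (sgn σ * (k.q * k'.q)) * (|x - y|)| ≤ C := by
    intro k k' σ
    obtain ⟨α, hk⟩ := k.chg
    obtain ⟨α', hk'⟩ := k'.chg
    exact ERc_lin hk hk' σ
  choose C h0 hC using h
  refine ⟨∑ σ : Bool, (fun f : Ek → ℝ => f .h5 + f .hm + f .h1 + f .hs + f .q1 + f .qs + f .sr)
    (fun k => (fun f : Ek → ℝ => f .h5 + f .hm + f .h1 + f .hs + f .q1 + f .qs + f .sr)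
      fun k' => C k k' σ), ?_, fun a a' k k' τ τ' => ?_⟩
  · refine sum_nonneg fun σ _ => ?_
    have g1 : ∀ k, 0 ≤ C k .h5 σ + C k .hm σ + C k .h1 σ + C k .hs σ + C k .q1 σ + C k .qs σ +
        C k .sr σ := fun k => by
      have := h0 k
      have h1 := this .h5 σ
      have h2 := this .hm σ
      have h3 := this .h1 σ
      have h4 := this .hs σ
      have h5 := this .q1 σ
      have h6 := this .qs σ
      have h7 := this .sr σ
      linarith
    have h1 := g1 .h5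
    have h2 := g1 .hm
    have h3 := g1 .h1
    have h4 := g1 .hs
    have h5 := g1 .q1
    have h6 := g1 .qs
    have h7 := g1 .sr
    simp only
    linarith
  · have g1 : ∀ (σ : Bool) k, 0 ≤ (fun f : Ek → ℝ => f .h5 + f .hm + f .h1 + f .hs + f .q1 + f .qs +
        f .sr) fun k' => C k k' σ := fun σ k =>
      (h0 k .h5 σ).trans (ek_le (fun k' => C k k' σ) (fun k' => h0 k k' σ) .h5)
    have b1 := hC k k' (a == a') τ τ'
    have b2 := ek_le (fun k' => C k k' (a == a')) (fun k' => h0 k k' _) k'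
    have b3 := ek_le (fun k => (fun f : Ek → ℝ => f .h5 + f .hm + f .h1 + f .hs + f .q1 + f .qs +
      f .sr) fun k' => C k k' (a == a')) (g1 _) k
    have b4 := single_le_sum (f := fun σ : Bool => (fun f : Ek → ℝ => f .h5 + f .hm + f .h1 +
      f .hs + f .q1 + f .qs + f .sr) (fun k => (fun f : Ek → ℝ => f .h5 + f .hm + f .h1 + f .hs +
      f .q1 + f .qs + f .sr) fun k' => C k k' σ)) (fun σ _ =>
        (g1 σ .h5).trans (ek_le _ (g1 σ) .h5)) (mem_univ (a == a'))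
    refine le_trans (le_of_eq ?_) (b1.trans ((b2.trans b3).trans b4))
    congr 1
    rw [sgn_beq]
    show ERc (a == a') k.F k.G k'.F k'.G τ τ' + _ = _
    ring

/-- **the energies of a family of groups** -/
theorem ES_TG : ∃ C : ℝ, 0 ≤ C ∧ ∀ (n : ℕ) (g : Fin n → Gd),
    |(∑ x, ∑ y, ES (TG g x) (TG g y)) + 2 * ∑ i, ∑ j, (sg (g i).σ * qc (g i).c / 2) *
      (sg (g j).σ * qc (g j).c / 2) * (|(g i).τ - (g j).τ|)| ≤ C * (3 * n) ^ 2 := by
  obtain ⟨C, hC0, hC⟩ := ek_ES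
  refine ⟨C, hC0, fun n g => ?_⟩
  have e1 : ∑ i, ∑ j, (sg (g i).σ * qc (g i).c / 2) * (sg (g j).σ * qc (g j).c / 2) *
      (|(g i).τ - (g j).τ|) = ∑ x : IG g, ∑ y : IG g, (sg (TG g x).a * (TG g x).q) *
        (sg (TG g y).a * (TG g y).q) * (|(g x.1).τ - (g y.1).τ|) := by
    rw [NUSea.H0.sum_TG]
    refine sum_congr rfl fun i _ => ?_
    have h1 : ∀ u : Fin (kG (g i).c (g i).rt).length, ∑ y : IG g,
        (sg (TG g ⟨i, u⟩).a * (TG g ⟨i, u⟩).q) * (sg (TG g y).a * (TG g y).q) *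
          (|(g i).τ - (g y.1).τ|) = (sg (TG g ⟨i, u⟩).a * (TG g ⟨i, u⟩).q) *
            ∑ j, (sg (g j).σ * qc (g j).c / 2) * (|(g i).τ - (g j).τ|) := by
      intro u
      rw [NUSea.H0.sum_TG, mul_sum]
      refine sum_congr rfl fun j _ => ?_
      rw [← NUSp.srcG_q (g j).c (g j).rt (g j).σ (g j).τ, sum_mul, mul_sum]
      exact sum_congr rfl fun v _ => by
        show (sg (TG g ⟨i, u⟩).a * (TG g ⟨i, u⟩).q) * (sg (TG g ⟨j, v⟩).a * (TG g ⟨j, v⟩).q) *
          (|(g i).τ - (g j).τ|) = (sg (TG g ⟨i, u⟩).a * (TG g ⟨i, u⟩).q) *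
          ((sg (TG g ⟨j, v⟩).a * (TG g ⟨j, v⟩).q) * (|(g i).τ - (g j).τ|))
        ring
    calc ∑ j, (sg (g i).σ * qc (g i).c / 2) * (sg (g j).σ * qc (g j).c / 2) *
          (|(g i).τ - (g j).τ|)
        = (sg (g i).σ * qc (g i).c / 2) *
          ∑ j, (sg (g j).σ * qc (g j).c / 2) * (|(g i).τ - (g j).τ|) := by
          rw [mul_sum]
          exact sum_congr rfl fun j _ => by ring
      _ = ∑ u, (sg (TG g ⟨i, u⟩).a * (TG g ⟨i, u⟩).q) *
          ∑ j, (sg (g j).σ * qc (g j).c / 2) * (|(g i).τ - (g j).τ|) := by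
          rw [← NUSp.srcG_q (g i).c (g i).rt (g i).σ (g i).τ, sum_mul]
          rfl
      _ = _ := sum_congr rfl fun u _ => (h1 u).symm
  rw [e1]
  have e2 : (∑ x, ∑ y, ES (TG g x) (TG g y)) + 2 * ∑ x : IG g, ∑ y : IG g,
      (sg (TG g x).a * (TG g x).q) * (sg (TG g y).a * (TG g y).q) * (|(g x.1).τ - (g y.1).τ|) =
      ∑ x : IG g, ∑ y : IG g, (ES (TG g x) (TG g y) + 2 * ((sg (TG g x).a * (TG g x).q) *
        (sg (TG g y).a * (TG g y).q)) * (|(g x.1).τ - (g y.1).τ|)) := by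
    rw [mul_sum, ← sum_add_distrib]
    refine sum_congr rfl fun x _ => ?_
    rw [mul_sum, ← sum_add_distrib]
    exact sum_congr rfl fun y _ => by ring
  rw [e2]
  have h2 : ∀ x y : IG g, |ES (TG g x) (TG g y) + 2 * ((sg (TG g x).a * (TG g x).q) *
        (sg (TG g y).a * (TG g y).q)) * (|(g x.1).τ - (g y.1).τ|)| ≤ C := fun x y => hC _ _ _ _ _ _
  have hcard := NUSea.H0.card_IG g
  have hc0 : (0 : ℝ) ≤ Fintype.card (IG g) := Nat.cast_nonneg _
  calc |∑ x : IG g, ∑ y : IG g, (ES (TG g x) (TG g y) + 2 * ((sg (TG g x).a * (TG g x).q) *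
        (sg (TG g y).a * (TG g y).q)) * (|(g x.1).τ - (g y.1).τ|))|
      ≤ ∑ x : IG g, ∑ y : IG g, |ES (TG g x) (TG g y) + 2 * ((sg (TG g x).a * (TG g x).q) *
        (sg (TG g y).a * (TG g y).q)) * (|(g x.1).τ - (g y.1).τ|)| :=
        (abs_sum_le_sum_abs _ _).trans (sum_le_sum fun x _ => abs_sum_le_sum_abs _ _)
    _ ≤ ∑ _x : IG g, ∑ _y : IG g, C := sum_le_sum fun x _ => sum_le_sum fun y _ => h2 x y
    _ = C * ((Fintype.card (IG g) : ℝ)) ^ 2 := by
        rw [sum_const, sum_const, card_univ]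
        simp only [nsmul_eq_mul]
        ring
    _ ≤ C * (3 * n) ^ 2 := by
        refine mul_le_mul_of_nonneg_left ?_ hC0
        exact pow_le_pow_left₀ hc0 hcard 2

/-- two groups of different species -/
theorem grp_en : ∃ C : ℝ, 0 ≤ C ∧ ∀ g : Fin 2 → Gd, (g 0).σ ≠ (g 1).σ →
    1 / 2 * (∑ x, ∑ y, ES (TG g x) (TG g y)) ≤
      qc (g 0).c * qc (g 1).c / 2 * (|(g 0).τ - (g 1).τ|) + C := by
  obtain ⟨C, hC0, hC⟩ := ES_TG
  refine ⟨18 * C, by positivity, fun g hσ => ?_⟩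
  have h := (abs_le.1 (hC 2 g)).2
  have hs : sg (g 0).σ * sg (g 1).σ = -1 := by
    revert hσ
    cases (g 0).σ <;> cases (g 1).σ <;> simp [sg]
  simp only [Fin.sum_univ_two] at h
  rw [sub_self, sub_self, abs_zero, abs_sub_comm (g 1).τ (g 0).τ] at h
  have e : (sg (g 0).σ * qc (g 0).c / 2) * (sg (g 1).σ * qc (g 1).c / 2) =
      -(qc (g 0).c * qc (g 1).c / 4) := by
    linear_combination (qc (g 0).c * qc (g 1).c / 4) * hs
  rw [mul_comm (sg (g 1).σ * qc (g 1).c / 2), e] at h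
  push_cast at h
  linarith

/-- one group -/
theorem one_en : ∃ C : ℝ, 0 ≤ C ∧ ∀ g : Fin 1 → Gd,
    1 / 2 * (∑ x, ∑ y, ES (TG g x) (TG g y)) ≤ C := by
  obtain ⟨C, hC0, hC⟩ := ES_TG
  refine ⟨9 / 2 * C, by positivity, fun g => ?_⟩
  have h := (abs_le.1 (hC 1 g)).2
  rw [Fin.sum_univ_one (fun i : Fin 1 => ∑ j, (sg (g i).σ * qc (g i).c / 2) *
      (sg (g j).σ * qc (g j).c / 2) * (|(g i).τ - (g j).τ|)), Fin.sum_univ_one, sub_self,
    abs_zero] at h
  push_cast at h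
  linarith

/-- the constants of two groups, the first of species X -/
theorem cst_eq {g : Fin 2 → Gd} (h0 : (g 0).σ = true) (h1 : (g 1).σ = false) (T : ℝ) :
    cstF T g true * (-∑ i, sg (g i).σ * qc (g i).c / 2) =
      -(qc (g 0).c * xs T (g 0).τ - qc (g 1).c * xs T (g 1).τ) * (qc (g 0).c - qc (g 1).c) / 2 := by
  have e0 : NUSp.gq true (g 0).G = qc (g 0).c := by
    have := NUSp.gq_grp (g 0).c true (g 0).σ (g 0).w
    rw [h0, if_pos rfl] at this
    rw [← this]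
    unfold Gd.G
    rw [h0]
  have e1 : NUSp.gq true (g 1).G = -qc (g 1).c := by
    have := NUSp.gq_grp (g 1).c true (g 1).σ (g 1).w
    rw [h1, if_neg (by simp)] at this
    rw [← this]
    unfold Gd.G
    rw [h1]
  unfold cstF
  rw [Fin.sum_univ_two, Fin.sum_univ_two, e0, e1, h0, h1]
  have x0 : NUSp.exc T (g 0).τ = xs T (g 0).τ := rfl
  have x1 : NUSp.exc T (g 1).τ = xs T (g 1).τ := rfl
  rw [x0, x1]
  simp only [sg, if_true, Bool.false_eq_true, if_false]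
  ring

/-- the excess of a group -/
theorem ex_le {c : NUSp.Cl} {T τ : ℝ} (hc : c ≠ .d) :
    ex T (qc c) τ = if c = .w then 0 else xs T τ := by
  unfold ex
  cases c <;> simp [qc] <;> norm_num

/-- **energies of the pinned groups, constants and far factors** -/
theorem grp_QX : ∃ C : ℝ, 0 ≤ C ∧ ∀ (g : Fin 2 → Gd), (g 0).σ = true → (g 1).σ = false →
    (∀ i, (g i).c ≠ .d) → ∀ T T1 : ℝ, 0 ≤ T → T ≤ T1 → (∀ i, (g i).c = .w ∨ |(g i).τ| ≤ T1) →
    Real.exp (1 / 2 * (∑ d, ∑ d', ES (TG (fun i => (g i).pin T1) d)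
        (TG (fun i => (g i).pin T1) d')) +
      cstF T1 g true * (-∑ i, sg (g i).σ * qc (g i).c / 2) +
      37 / 20 * max (xs T1 (g 0).τ) (xs T1 (g 1).τ) +
      12 / 5 * max (ex T (qc (g 0).c) (g 0).τ) (ex T (qc (g 1).c) (g 1).τ)) ≤
    Real.exp C * QX T (qc (g 0).c) (qc (g 1).c) (g 0).τ (g 1).τ := by
  obtain ⟨C, hC0, hC⟩ := grp_en
  refine ⟨C, hC0, fun g h0 h1 hd T T1 hT hTT hc => ?_⟩
  have hne : ((fun i => (g i).pin T1) 0 : Gd).σ ≠ ((fun i => (g i).pin T1) 1 : Gd).σ := by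
    show (g 0).σ ≠ (g 1).σ
    rw [h0, h1]
    simp
  have key := hC (fun i => (g i).pin T1) hne
  have key' : 1 / 2 * (∑ d, ∑ d', ES (TG (fun i => (g i).pin T1) d)
      (TG (fun i => (g i).pin T1) d')) ≤ qc (g 0).c * qc (g 1).c / 2 *
        (|NUSp.pin T1 (g 0).τ - NUSp.pin T1 (g 1).τ|) + C := key
  have p0 : ∃ x, PX T1 (qc (g 0).c) (g 0).τ (NUSp.pin T1 (g 0).τ) x ∧ x = xs T1 (g 0).τ ∧
      (x = 0 ∨ qc (g 0).c = 1) := by
    rcases eq_or_ne (g 0).c .w with hw | hw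
    · exact ⟨_, Or.inl ⟨by rw [hw]; rfl, rfl, rfl⟩, rfl, Or.inr (by rw [hw]; rfl)⟩
    · have hτ : |(g 0).τ| ≤ T1 := (hc 0).resolve_left hw
      have hx : xs T1 (g 0).τ = 0 := by
        unfold xs
        exact max_eq_right (by linarith)
      refine ⟨0, Or.inr ⟨?_, NUSp.pin_of_le hτ, rfl⟩, hx.symm, Or.inl rfl⟩
      have := hd 0
      revert hw this
      cases (g 0).c <;> simp [qc]
  have p1 : ∃ x, PX T1 (qc (g 1).c) (g 1).τ (NUSp.pin T1 (g 1).τ) x ∧ x = xs T1 (g 1).τ ∧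
      (x = 0 ∨ qc (g 1).c = 1) := by
    rcases eq_or_ne (g 1).c .w with hw | hw
    · exact ⟨_, Or.inl ⟨by rw [hw]; rfl, rfl, rfl⟩, rfl, Or.inr (by rw [hw]; rfl)⟩
    · have hτ : |(g 1).τ| ≤ T1 := (hc 1).resolve_left hw
      have hx : xs T1 (g 1).τ = 0 := by
        unfold xs
        exact max_eq_right (by linarith)
      refine ⟨0, Or.inr ⟨?_, NUSp.pin_of_le hτ, rfl⟩, hx.symm, Or.inl rfl⟩
      have := hd 1
      revert hw this
      cases (g 1).c <;> simp [qc]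
  obtain ⟨x, hx, ex0, o0⟩ := p0
  obtain ⟨x', hx', ex1, o1⟩ := p1
  have hq := QX_ge hT hTT hx hx'
  have hcst := cst_eq h0 h1 T1
  rw [hcst, ← ex0, ← ex1]
  refine le_trans ?_ (mul_le_mul_of_nonneg_left hq (Real.exp_pos C).le)
  rw [← Real.exp_add]
  refine Real.exp_le_exp.2 ?_
  have hl : -(qc (g 0).c * x - qc (g 1).c * x') * (qc (g 0).c - qc (g 1).c) / 2 =
      -x * (1 - qc (g 1).c) / 2 - x' * (1 - qc (g 0).c) / 2 := by
    rcases o0 with o0 | o0 <;> rcases o1 with o1 | o1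
    · rw [o0, o1]; ring
    · rw [o0, o1]; ring
    · rw [o0, o1]; ring
    · rw [o0, o1]; ring
  rw [hl]
  linarith

/-- **one neutral group** -/
theorem one_QX : ∃ C : ℝ, 0 ≤ C ∧ ∀ (g : Fin 1 → Gd), (g 0).c = .d → ∀ T T1 : ℝ, T ≤ T1 →
    Real.exp (1 / 2 * (∑ d, ∑ d', ES (TG (fun i => (g i).pin T1) d)
        (TG (fun i => (g i).pin T1) d')) +
      cstF T1 g true * (-∑ i, sg (g i).σ * qc (g i).c / 2) + 37 / 20 * xs T1 (g 0).τ) ≤
    Real.exp C * Real.exp (37 / 20 * xs T (g 0).τ) := by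
  obtain ⟨C, hC0, hC⟩ := one_en
  refine ⟨C, hC0, fun g hd T T1 hTT => ?_⟩
  have key := hC (fun i => (g i).pin T1)
  have e : -∑ i, sg (g i).σ * qc (g i).c / 2 = 0 := by
    rw [Fin.sum_univ_one, hd]
    simp [qc]
  have hx := xs_anti (t := (g 0).τ) hTT
  rw [e, mul_zero, ← Real.exp_add]
  refine Real.exp_le_exp.2 ?_
  linarith

end

end NUGC
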