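import Pool.Agent.NUGC.AsmC
import Pool.Agent.NUGC.PackC
import Pool.Agent.NUGC.QC3

/-!
# TARGET-C: the tilted bounds of the classes from those of families of groups

* `gdK`, `gdD`: the groups of a class, of D1, D1'; `obF_gdK`, `obF_gdD`: their one body data;
* `parM_C`: the parameters are admissible;
* **`perBd_of`**: `StabProd → S4C → PerBd`, the tilted bounds of all classes with the prefactors `QF`,
  `QD`.
-/

set_option autoImplicit false

noncomputable section

open MeasureTheory Finset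
open scoped ENNReal

namespace NUGC

open NUO NUP1 NUCR NUP1S NURow
open NUStabP (StabProd)
open NUC43 (kq)
open NUSea.H0 (Gd IG TG cstF)
open NUSp (kG spo qc)

attribute [local instance] NUSea.seaH

/-- the line of a type -/
def rtH : HT → Bool
  | .W => true
  | _ => false

/-- the groups of the class `t, t'` with the choice `u` at the heights `y` -/
def gdK (t t' : HT) (u : Bool × Bool) (y : ℝ × ℝ) : Fin 2 → Gd :=
  ![⟨clh t u.1, rtH t, true, y.1⟩, ⟨clh t' u.2, rtH t', false, y.2⟩]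

/-- the group of D1 (`o = true`), D1' -/
def gdD (o : Bool) (τ : ℝ) : Fin 1 → Gd := fun _ => ⟨.d, false, !o, τ⟩

theorem lsG_gd (s : Bool) (t : HT) (i : Bool) (τ : ℝ) :
    lsG ⟨clh t i, rtH t, s, τ⟩ = grp s t i τ := by
  cases t <;> cases i <;> rfl

theorem w_gd (s : Bool) (t : HT) (i : Bool) (τ : ℝ) :
    (⟨clh t i, rtH t, s, τ⟩ : Gd).w = vl (htL t) τ := by
  cases t <;> cases i <;> rfl

theorem obF_gdK (M : ℕ) (β : ℝ) (t t' : HT) (u : Bool × Bool) (y : ℝ × ℝ) :
    obF M β (gdK t t' u y) = obS M M β (famK t t' u.1 u.2 y.1 y.2) := by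
  unfold obF obS famK
  congr 1
  funext a z
  rw [spL_append, ← lsG_gd true t u.1 y.1, ← lsG_gd false t' u.2 y.2]
  unfold spF
  rw [Fin.prod_univ_two]
  rfl

theorem obF_gdD (M : ℕ) (β : ℝ) (o : Bool) (τ : ℝ) :
    obF M β (gdD o τ) = obS M M β (famD o τ) := by
  unfold obF obS
  congr 1
  funext a z
  congr 1
  unfold spF
  rw [Fin.prod_univ_one]
  cases o
  · show spL [(true, .hm, τ), (false, .h1, τ)] a z = spL [(false, .h1, τ), (true, .hm, τ)] a z
    unfold spL
    simp only [List.map_cons, List.map_nil, List.prod_cons, List.prod_nil]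
    ring
  · show spL [(false, .hm, τ), (true, .h1, τ)] a z = spL [(true, .h1, τ), (false, .hm, τ)] a z
    unfold spL
    simp only [List.map_cons, List.map_nil, List.prod_cons, List.prod_nil]
    ring

theorem sum_MF_gdK (t t' : HT) (u : Bool × Bool) (y : ℝ × ℝ) :
    ∑ i, NUPref.MF (gdK t t' u y i).c (gdK t t' u y i).w =
      NUPref.MF (clh t u.1) (vl (htL t) y.1) + NUPref.MF (clh t' u.2) (vl (htL t') y.2) := by
  rw [Fin.sum_univ_two, ← w_gd true t u.1 y.1, ← w_gd false t' u.2 y.2]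
  rfl

theorem sum_MF_gdD (o : Bool) (τ : ℝ) :
    ∑ i, NUPref.MF (gdD o τ i).c (gdD o τ i).w = NUPref.MF .d (vl (-(11 / 4) * l) τ) := by
  rw [Fin.sum_univ_one]
  rfl

/-- the charge of a type -/
theorem qc_clh (t : HT) (i : Bool) (h : i = true → htP t = true) :
    qc (clh t i) = 1 - 2 * ((htD t : ℝ) - (i.toNat : ℝ)) := by
  cases t <;> cases i <;> simp_all [clh, qc, htD, htP] <;> norm_num

/-- the numbers of extra quanta of a class -/
theorem aXY_K (t t' : HT) (u : Bool × Bool) (h : u.1 = true → htP t = true)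
    (h' : u.2 = true → htP t' = true) :
    htM t t' - htD t' + shK t t' u.1 u.2 - u.1.toNat ≤ 3 ∧
    htM t t' - htD t + shK t t' u.1 u.2 - u.2.toNat ≤ 3 ∧
    ((htM t t' - htD t' + shK t t' u.1 u.2 - u.1.toNat : ℕ) : ℝ) -
      ((htM t t' - htD t + shK t t' u.1 u.2 - u.2.toNat : ℕ) : ℝ) =
        ((htD t : ℝ) - (u.1.toNat : ℝ)) - ((htD t' : ℝ) - (u.2.toNat : ℝ)) := by
  obtain ⟨i, i'⟩ := u
  cases t <;> cases t' <;> cases i <;> cases i' <;>
    simp_all [shK, htM, htD, htP] <;> norm_num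

theorem shK_le (t t' : HT) (i i' : Bool) : shK t t' i i' ≤ 1 := by
  unfold shK
  split_ifs <;> norm_num

theorem parC_C (M : ℕ) : ParC (parC M) where
  j1 := by rw [NUSea.O.par0_jL]
  j2 := by rw [NUSea.O.par0_jL]; norm_num
  e1 := by rw [NUSea.O.par0_e]; norm_num
  d0 := fun r => by rw [NUSea.O.par0_d]; exact d0_pos r
  e2 := fun r => by
    have := d0_le r
    rw [NUSea.O.par0_e, NUSea.O.par0_d]
    norm_num at this ⊢
    linarith
  rm := NUSea.O.rad0_meas _
  r0 := fun r t => NUSea.O.rad0_pos _ r t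
  r1 := fun r t => by
    refine (NUSea.O.rad0_le _ r t).trans ?_
    have h3 := d0_pos r
    have h4 := l_pos0
    show NUP1.l * d0 r / (64 * (r + 1)) ≤ NUP1.l * d0 r / (8 * (r + 1))
    gcongr
    norm_num

theorem parM_C (M : ℕ) : ParM (parC M) :=
  ⟨parC_C M, NUSea.O.par0_jL _, (NUSea.O.par0_e _).ge⟩

theorem TWC_nonneg67 {ep e1 : ℝ} (hep : 0 < ep) (he1 : 0 < e1) (M : ℕ) : 0 ≤ TWC ep e1 M := by
  have hL := LmA_nonneg M
  unfold TWC TW Tb
  positivity

theorem Lm_cast (M : ℕ) : Lm M = Real.log (2 * M + 1) := by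
  show Real.log ((2 * M + 1 : ℕ) : ℝ) = _
  push_cast
  rfl

theorem perGen_monoQ {C C' c b : ℝ} {k : ℕ} {c1 c' L ep e1 J ν d : ℝ} {N a : ℕ} {T : Term}
    {Q Q' : ℝ} (hC : 0 ≤ C) (hC' : 0 ≤ C') (hL : 0 ≤ L) (hQ : Q ≤ Q')
    (h : PerGen C C' c b k c1 c' L ep e1 J ν d N a T Q) :
    PerGen C C' c b k c1 c' L ep e1 J ν d N a T Q' := by
  intro n hn b' hb' r hr O
  obtain ⟨η, η', hcur, hb⟩ := h n hn b' hb' r hr O
  refine ⟨η, η', hcur, fun W => (hb W).trans (ENNReal.ofReal_le_ofReal ?_)⟩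
  have h1 : 0 ≤ ∏ i, act C C' c b k L ep e1 J r (ht (O i)) :=
    prod_nonneg fun i _ => act_nonneg hC hC' hL
  have h2 : (0 : ℝ) ≤ if (r : ℝ) ≤ L then 1 else Real.exp (c' * L) := by
    split_ifs
    · exact zero_le_one
    · exact (Real.exp_pos _).le
  exact mul_le_mul_of_nonneg_right (mul_le_mul_of_nonneg_right
    (mul_le_mul_of_nonneg_right hQ h2) h1) (Real.exp_pos _).le

/-- **the tilted bounds of all classes** from the stability bound and `S4C` -/
theorem perBd_of (hS : StabProd) (h4 : S4C) : PerBd := by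
  obtain ⟨C, c, b, c1, Ca, k, hC, hc, hb, hc1, hCa, hG⟩ := perG_of hS h4
  obtain ⟨K2, hK2, hQ2⟩ := grp_QX
  obtain ⟨K1, hK1, hQ1⟩ := one_QX
  refine ⟨C, c, b, c1, 0, Ca, k, hC, hc, hb, hc1, le_rfl, hCa, ?_⟩
  intro ep hep hep' e1 he1 he1' J hJ δ hδ
  obtain ⟨d, Cst, hd, hCst, M0, hM0⟩ := hG ep hep hep' e1 he1 he1' J hJ δ hδ
  refine ⟨d, 1, Cst * Real.exp (K1 + K2), hd, zero_le_one, by positivity, M0, fun M hM => ?_⟩
  have hT := TWC_nonneg67 hep he1 M
  have hL := LmA_nonneg M
  have hLc := Lm_cast M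
  have hm : ((2 * M + 1 : ℕ) : ℝ) = 2 * (M : ℝ) + 1 := by push_cast; rfl
  have hAC := AC_nonneg (Cst := Cst * Real.exp (K1 + K2)) (by positivity) Ca ep e1 δ M
  have hexp1 : Real.exp K2 ≤ Real.exp (K1 + K2) := Real.exp_le_exp.2 (by linarith)
  have hexp2 : Real.exp K1 ≤ Real.exp (K1 + K2) := Real.exp_le_exp.2 (by linarith)
  refine ⟨parC M, parM_C M, fun t t' => ⟨2 * M + 1, fun y u h h' => ?_⟩,
    fun o => ⟨2 * M + 1, fun τ => ?_⟩⟩
  · -- the classes
    obtain ⟨a1, a2, a3⟩ := aXY_K t t' u h h'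
    have hsh := shK_le t t' u.1 u.2
    refine perK_of (parM_C M).1 (parM_C M).2.1 (NUSea.O.par0_e _) hep.le hep' hC.le zero_le_one
      (log_m_nonneg M) (QF_nonneg hAC t t' y u) h h' ?_
    obtain ⟨aX, haX⟩ : ∃ aX, aX = htM t t' - htD t' + shK t t' u.1 u.2 - u.1.toNat := ⟨_, rfl⟩
    obtain ⟨aY, haY⟩ : ∃ aY, aY = htM t t' - htD t + shK t t' u.1 u.2 - u.2.toNat := ⟨_, rfl⟩
    rw [← haX, ← haY]
    rw [← haX] at a1
    rw [← haY] at a2
    rw [← haX, ← haY] at a3
    have hq : (aX : ℝ) - aY = -∑ i, NUC43.sg (gdK t t' u y i).σ * qc (gdK t t' u y i).c / 2 := by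
      rw [Fin.sum_univ_two, a3]
      show _ = -(NUC43.sg true * qc (clh t u.1) / 2 + NUC43.sg false * qc (clh t' u.2) / 2)
      rw [qc_clh t u.1 h, qc_clh t' u.2 h']
      unfold NUC43.sg
      simp only [if_true, Bool.false_eq_true, if_false]
      ring
    have hE0 : ∀ q τ, 0 ≤ ex (TWC ep e1 M) q τ := by
      intro q τ
      unfold ex xs
      split_ifs
      · exact le_rfl
      · exact le_max_right _ _
    have hexc : ∀ (c : NUSp.Cl) (τ : ℝ), c ≠ .d → c = .w ∨ |τ| ≤ TWC ep e1 M +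
        ex (TWC ep e1 M) (qc c) τ := by
      intro c τ hc
      rcases eq_or_ne c .w with hw | hw
      · exact Or.inl hw
      · right
        have : qc c ≠ 1 := by
          revert hc hw
          cases c <;> norm_num [qc]
        unfold ex xs
        rw [if_neg this]
        linarith [le_max_left (|τ| - TWC ep e1 M) 0]
    have hcd : ∀ (t : HT) (i : Bool), clh t i ≠ .d := by
      intro t i
      cases t <;> cases i <;> simp [clh]
    set E : ℝ := max (ex (TWC ep e1 M) (qc (clh t u.1)) y.1)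
      (ex (TWC ep e1 M) (qc (clh t' u.2)) y.2) with hE
    have hE1 : ex (TWC ep e1 M) (qc (clh t u.1)) y.1 ≤ E := le_max_left _ _
    have hE2 : ex (TWC ep e1 M) (qc (clh t' u.2)) y.2 ≤ E := le_max_right _ _
    have hall : ∀ i, (gdK t t' u y i).c = .w ∨ |(gdK t t' u y i).τ| ≤ TWC ep e1 M + E := by
      intro i
      fin_cases i
      · rcases hexc (clh t u.1) y.1 (hcd t u.1) with h0 | h0
        · exact Or.inl h0
        · right
          show |y.1| ≤ _
          linarith
      · rcases hexc (clh t' u.2) y.2 (hcd t' u.2) with h0 | h0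
        · exact Or.inl h0
        · right
          show |y.2| ≤ _
          linarith
    have key := hM0 M hM 2 (gdK t t' u y) aX aY (2 * M + 1 - shK t t' u.1 u.2) E
      (Real.exp K2 * QX (TWC ep e1 M) (qh t u.1) (qh t' u.2) y.1 y.2) le_rfl
      (by
        intro i j hij
        fin_cases i <;> fin_cases j
        · exact absurd rfl hij
        · show true ≠ false
          simp
        · show false ≠ true
          simp
        · exact absurd rfl hij)
      a1 a2 hq
      (by
        rw [hm, abs_le]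
        have h1 : (shK t t' u.1 u.2 : ℝ) ≤ 1 := by exact_mod_cast hsh
        have h2 : (0 : ℝ) ≤ (shK t t' u.1 u.2 : ℝ) := Nat.cast_nonneg _
        constructor <;> linarith)
      ((hE0 _ _).trans hE1)
      (fun i => by
        rcases hall i with h0 | h0
        · exact Or.inl h0
        · exact Or.inr (Or.inr h0))
      (mul_nonneg (Real.exp_pos _).le (QX_nonneg _ _ _ _ _))
      (by
        intro T1 hT1
        refine ⟨max (xs T1 y.1) (xs T1 y.2), (le_max_right _ _).trans (le_max_left _ _), ?_, ?_⟩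
        · intro i
          fin_cases i
          · exact le_max_left (xs T1 y.1) (xs T1 y.2)
          · exact le_max_right (xs T1 y.1) (xs T1 y.2)
        · have h0 : 0 ≤ E := (hE0 _ _).trans hE1
          have k1 := hQ2 (gdK t t' u y) rfl rfl (by
            intro i
            fin_cases i
            · exact hcd t u.1
            · exact hcd t' u.2) (TWC ep e1 M) T1 hT (by linarith) (by
              intro i
              rcases hall i with h1 | h1
              · exact Or.inl h1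
              · exact Or.inr (h1.trans hT1))
          rw [← hq] at k1
          refine le_trans (le_of_eq ?_) k1
          unfold enQ
          congr 1
          rw [hE]
          show _ + (37 / 20 * max (xs T1 y.1) (xs T1 y.2) + 12 / 5 * max
            (ex (TWC ep e1 M) (qc (clh t u.1)) y.1) (ex (TWC ep e1 M) (qc (clh t' u.2)) y.2)) =
            _ + 37 / 20 * max (xs T1 y.1) (xs T1 y.2) + 12 / 5 * max
            (ex (TWC ep e1 M) (qc (clh t u.1)) y.1) (ex (TWC ep e1 M) (qc (clh t' u.2)) y.2)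
          ring)
    rw [obF_gdK, sum_MF_gdK, hm, hLc] at key
    refine perGen_monoQ hC.le zero_le_one (log_m_nonneg M) ?_ key
    have hF : (if ∀ i, |(gdK t t' u y i).τ| ≤ TWC ep e1 M then (1 : ℝ) else
        Real.exp (Real.log (2 * M + 1) / 2)) = fr (TWC ep e1 M) (Real.log (2 * M + 1)) y := by
      unfold fr
      by_cases hc : |y.1| ≤ TWC ep e1 M ∧ |y.2| ≤ TWC ep e1 M
      · rw [if_pos hc, if_pos (Fin.forall_fin_two.2 hc)]
      · rw [if_neg hc, if_neg fun hc' => hc (Fin.forall_fin_two.1 hc')]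
    rw [hF]
    unfold QF AC EMF
    have f0 := fr_nonneg (TWC ep e1 M) (Real.log (2 * M + 1)) y
    have q0 := QX_nonneg (TWC ep e1 M) (qh t u.1) (qh t' u.2) y.1 y.2
    rw [mul_add (2 * (M : ℝ) + 1) (NUPref.MF _ _), Real.exp_add ((2 * (M : ℝ) + 1) * NUPref.MF _ _)]
    set f := fr (TWC ep e1 M) (Real.log (2 * M + 1)) y with hf
    set qx := QX (TWC ep e1 M) (qh t u.1) (qh t' u.2) y.1 y.2 with hqx
    set E1 := Real.exp ((2 * (M : ℝ) + 1) * NUPref.MF (clh t u.1) (vl (htL t) y.1)) with hE1'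
    set E2 := Real.exp ((2 * (M : ℝ) + 1) * NUPref.MF (clh t' u.2) (vl (htL t') y.2)) with hE2'
    set X := Real.exp ((2 * (M : ℝ) + 1) ^ 2 * ∫ t, NUMFH.Pd t * NUMFH.vd t) with hX
    set p := (2 * (M : ℝ) + 1) ^ (Ca * (ep + e1) + δ) with hp
    have hp0 : 0 ≤ p := by positivity
    calc Cst * X * p * (E1 * E2) * f * (Real.exp K2 * qx)
        = (Cst * X * p * (E1 * E2) * f * qx) * Real.exp K2 := by ring
      _ ≤ (Cst * X * p * (E1 * E2) * f * qx) * Real.exp (K1 + K2) :=
          mul_le_mul_of_nonneg_left hexp1 (by positivity)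
      _ = Cst * Real.exp (K1 + K2) * p * X * (E1 * E2 * (f * qx)) := by ring
  · -- D1, D1'
    refine perD_of (parM_C M).1 (parM_C M).2.1 (NUSea.O.par0_e _) hep.le hep' ?_
    have hq : ((0 : ℕ) : ℝ) - ((0 : ℕ) : ℝ) =
        -∑ i, NUC43.sg (gdD o τ i).σ * qc (gdD o τ i).c / 2 := by
      rw [Fin.sum_univ_one]
      show ((0 : ℕ) : ℝ) - ((0 : ℕ) : ℝ) = -(NUC43.sg (!o) * qc .d / 2)
      simp [qc]
    have key := hM0 M hM 1 (gdD o τ) 0 0 (2 * M + 1) 0
      (Real.exp K1 * Real.exp (37 / 20 * xs (TWC ep e1 M) τ)) (by norm_num)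
      (by
        intro i j hij
        exact absurd (Subsingleton.elim i j) hij)
      (by norm_num) (by norm_num) hq
      (by
        rw [hm, sub_self, abs_zero]
        norm_num)
      le_rfl
      (fun i => Or.inr (Or.inl rfl))
      (by positivity)
      (by
        intro T1 hT1
        refine ⟨xs T1 τ, le_max_right _ _, fun i => le_rfl, ?_⟩
        have k1 := hQ1 (gdD o τ) rfl (TWC ep e1 M) T1 (by linarith)
        rw [← hq] at k1
        refine le_trans (le_of_eq ?_) k1
        unfold enQ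
        congr 1
        show _ + (37 / 20 * xs T1 τ + 12 / 5 * 0) = _ + 37 / 20 * xs T1 τ
        ring)
    rw [obF_gdD, sum_MF_gdD, hm, hLc] at key
    refine perGen_monoQ hC.le zero_le_one (log_m_nonneg M) ?_ key
    have hF : (if ∀ i, |(gdD o τ i).τ| ≤ TWC ep e1 M then (1 : ℝ) else
        Real.exp (Real.log (2 * M + 1) / 2)) =
        if |τ| ≤ TWC ep e1 M then 1 else Real.exp (Real.log (2 * M + 1) / 2) := by
      by_cases hc : |τ| ≤ TWC ep e1 M
      · rw [if_pos hc, if_pos (Fin.forall_fin_one.2 hc)]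
      · rw [if_neg hc, if_neg fun hc' => hc (Fin.forall_fin_one.1 hc')]
    rw [hF]
    unfold QD AC EMF
    set f : ℝ := if |τ| ≤ TWC ep e1 M then 1 else Real.exp (Real.log (2 * M + 1) / 2) with hf
    have f0 : 0 ≤ f := by
      rw [hf]
      split_ifs
      · exact zero_le_one
      · exact (Real.exp_pos _).le
    set E1 := Real.exp ((2 * (M : ℝ) + 1) * NUPref.MF .d (vl (-(11 / 4) * l) τ)) with hE1'
    set E2 := Real.exp (37 / 20 * xs (TWC ep e1 M) τ) with hE2'
    set X := Real.exp ((2 * (M : ℝ) + 1) ^ 2 * ∫ t, NUMFH.Pd t * NUMFH.vd t) with hX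
    set p := (2 * (M : ℝ) + 1) ^ (Ca * (ep + e1) + δ) with hp
    have hp0 : 0 ≤ p := by positivity
    calc Cst * X * p * E1 * f * (Real.exp K1 * E2)
        = (Cst * X * p * E1 * f * E2) * Real.exp K1 := by ring
      _ ≤ (Cst * X * p * E1 * f * E2) * Real.exp (K1 + K2) :=
          mul_le_mul_of_nonneg_left hexp2 (by positivity)
      _ = Cst * Real.exp (K1 + K2) * p * X * (E1 * (f * E2)) := by ring

end NUGC

end
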