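import Pool.Agent.NUO.DirP6
import Pool.Agent.NUGC.Spec

/-!
# Factors of the spectators on displaced objects (board/GAM G3, helper25)

Up to absolute constants the modulus of the factor of a half quantum (a single) on an object is
`cosh (ht - τ) ^ N`, `N = ±` the number of quanta of the object counted with sign (twice that for a
single), for the displaced positions of the objects.
* `dsp_half`: half quanta at `5/4`, `1/4`, `-11/4` (and `3/4`);
* `dsp_single`: singles at `3/4`, `1/4`;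
* `coll_half`, `coll_single`: half quantum, single at `w = (string k) + 2 l` of the other species.
-/

set_option autoImplicit false
set_option linter.unusedSimpArgs false

noncomputable section

open Complex Finset

namespace NUGC

open NUP1 NUO NUDirP

/-! ### Products of sines -/

/-- product of sines, offsets in units `l / 8` -/
def FL (L : List (ℤ × ℤ)) (z : ℂ) : ℝ :=
  (L.map fun p => ‖sin (z + (((p.1 : ℝ) * (l / 8) : ℝ) : ℂ))‖ ^ p.2).prod

lemma FL_nil (z : ℂ) : FL [] z = 1 := rfl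

lemma FL_cons (p : ℤ × ℤ) (L : List (ℤ × ℤ)) (z : ℂ) : FL (p :: L) z =
    ‖sin (z + (((p.1 : ℝ) * (l / 8) : ℝ) : ℂ))‖ ^ p.2 * FL L z := by
  unfold FL; rw [List.map_cons, List.prod_cons]

lemma FL_nonneg (L : List (ℤ × ℤ)) (z : ℂ) : 0 ≤ FL L z := by
  unfold FL
  refine List.prod_nonneg fun x hx => ?_
  obtain ⟨a, _, rfl⟩ := List.mem_map.1 hx
  exact zpow_nonneg (norm_nonneg _) _

lemma cosh_near {a s : ℝ} (h : |a - s| ≤ 1 / 2) : Real.cosh a ≤ 2 * Real.cosh s := by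
  have h1 : Real.exp (1 / 2) ≤ 2 := by
    have h2 : Real.exp (1 / 2) ^ 2 = Real.exp 1 := by
      rw [← Real.exp_nat_mul]; norm_num
    have h3 := Real.exp_one_lt_d9
    have h4 := Real.exp_pos (1 / 2)
    nlinarith
  rw [abs_le] at h
  rw [Real.cosh_eq, Real.cosh_eq]
  have e1 : Real.exp a ≤ 2 * Real.exp s := by
    calc Real.exp a ≤ Real.exp (1 / 2 + s) := Real.exp_le_exp.2 (by linarith)
      _ = Real.exp (1 / 2) * Real.exp s := Real.exp_add _ _
      _ ≤ _ := mul_le_mul_of_nonneg_right h1 (Real.exp_pos _).le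
  have e2 : Real.exp (-a) ≤ 2 * Real.exp (-s) := by
    calc Real.exp (-a) ≤ Real.exp (1 / 2 + -s) := Real.exp_le_exp.2 (by linarith)
      _ = Real.exp (1 / 2) * Real.exp (-s) := Real.exp_add _ _
      _ ≤ _ := mul_le_mul_of_nonneg_right h1 (Real.exp_pos _).le
  linarith

lemma sin_up {z : ℂ} {s : ℝ} (h : |z.im - s| ≤ 1 / 2) : ‖sin z‖ ≤ 2 * Real.cosh s :=
  (Bd.norm_sin_le z).trans (cosh_near h)

lemma sin_lo {z : ℂ} {s c : ℝ} (h : |z.im - s| ≤ 1 / 2) (h0 : 0 ≤ c) (hc : c ≤ |Real.sin z.re|) :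
    c * Real.cosh s ≤ 2 * ‖sin z‖ := by
  have h1 := Bd.le_norm_sin z
  have h2 : Real.cosh s ≤ 2 * Real.cosh z.im := cosh_near (by rwa [abs_sub_comm])
  have h3 := Real.cosh_pos z.im
  calc c * Real.cosh s ≤ c * (2 * Real.cosh z.im) := mul_le_mul_of_nonneg_left h2 h0
    _ = 2 * (c * Real.cosh z.im) := by ring
    _ ≤ 2 * (|Real.sin z.re| * Real.cosh z.im) := by gcongr
    _ ≤ 2 * ‖sin z‖ := by linarith

lemma zp_up {x c B : ℝ} (hc : 0 < c) (hx0 : 0 ≤ x) (h1 : x ≤ B * c) {m : ℤ}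
    (h2 : m < 0 → c ≤ B * x) : x ^ m ≤ B ^ m.natAbs * c ^ m := by
  rcases lt_or_ge m 0 with h | h
  · obtain ⟨n, rfl⟩ : ∃ n : ℕ, m = -(n : ℤ) := ⟨m.natAbs, by omega⟩
    have h3 := h2 h
    have hx : 0 < x := by
      rcases hx0.lt_or_eq with h4 | h4
      · exact h4
      · rw [← h4, mul_zero] at h3; linarith
    rw [Int.natAbs_neg, Int.natAbs_natCast, zpow_neg, zpow_neg, zpow_natCast, zpow_natCast,
      ← div_eq_mul_inv, inv_eq_one_div, div_le_div_iff₀ (by positivity) (by positivity), one_mul,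
      ← mul_pow]
    exact pow_le_pow_left₀ hc.le h3 n
  · obtain ⟨n, rfl⟩ : ∃ n : ℕ, m = (n : ℤ) := ⟨m.natAbs, by omega⟩
    rw [Int.natAbs_natCast, zpow_natCast, zpow_natCast, ← mul_pow]
    exact pow_le_pow_left₀ hx0 h1 n

lemma sin_shift_ge {x : ℤ} {d : ℝ} (hx : ¬ (64 : ℤ) ∣ x) (hd : |d| ≤ 1 / 64) :
    1 / 64 ≤ |Real.sin ((x : ℝ) * (l / 8) + d)| := by
  have h1 := sin_ge hx
  have h2 : |Real.sin ((x : ℝ) * (l / 8) + d) - Real.sin ((x : ℝ) * (l / 8))| ≤ |d| := by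
    have := Real.abs_sin_sub_sin_le ((x : ℝ) * (l / 8) + d) ((x : ℝ) * (l / 8))
    rwa [add_sub_cancel_left] at this
  have h3 := abs_sub_abs_le_abs_sub (Real.sin ((x : ℝ) * (l / 8)))
    (Real.sin ((x : ℝ) * (l / 8) + d))
  rw [abs_sub_comm] at h3
  linarith

/-- **one list**: no denominator vanishes at the reference position -/
theorem FL_le {L : List (ℤ × ℤ)} {x : ℤ} {s : ℝ} {δ : ℂ} (hδ : ‖δ‖ ≤ 1 / 64)
    (h : ∀ p ∈ L, p.2 < 0 → ¬ (64 : ℤ) ∣ x + p.1) :
    FL L ((((x : ℝ) * (l / 8) : ℝ) : ℂ) + s * I + δ) ≤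
      128 ^ (L.map fun p => p.2.natAbs).sum * Real.cosh s ^ (L.map fun p => p.2).sum := by
  have hre := Complex.abs_re_le_norm δ
  have him := Complex.abs_im_le_norm δ
  have hc := Real.cosh_pos s
  induction L with
  | nil => simp [FL]
  | cons p L ih =>
    have ih1 := ih fun p' hp' => h p' (List.mem_cons_of_mem _ hp')
    rw [FL_cons]
    simp only [List.map_cons, List.sum_cons]
    rw [pow_add, zpow_add₀ hc.ne']
    have e1 : (((x : ℝ) * (l / 8) : ℝ) : ℂ) + s * I + δ + (((p.1 : ℝ) * (l / 8) : ℝ) : ℂ) =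
        ((((x + p.1 : ℤ) : ℝ) * (l / 8) + δ.re : ℝ) : ℂ) + ((s + δ.im : ℝ) : ℂ) * I := by
      apply Complex.ext
      · simp; ring
      · simp
    have r1 : ((((((x + p.1 : ℤ) : ℝ) * (l / 8) + δ.re : ℝ) : ℂ) + ((s + δ.im : ℝ) : ℂ) * I)).re =
        ((x + p.1 : ℤ) : ℝ) * (l / 8) + δ.re := by simp
    have r2 : ((((((x + p.1 : ℤ) : ℝ) * (l / 8) + δ.re : ℝ) : ℂ) + ((s + δ.im : ℝ) : ℂ) * I)).im =
        s + δ.im := by simp
    have k1 : |(((((x + p.1 : ℤ) : ℝ) * (l / 8) + δ.re : ℝ) : ℂ) + ((s + δ.im : ℝ) : ℂ) * I).im - s| ≤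
        1 / 2 := by
      rw [r2, add_sub_cancel_left]; linarith
    have b1 := sin_up k1
    have b2 := zp_up (m := p.2) (B := 128) hc
      (norm_nonneg (sin (((((x + p.1 : ℤ) : ℝ) * (l / 8) + δ.re : ℝ) : ℂ) + ((s + δ.im : ℝ) : ℂ) * I)))
      (by linarith) (by
        intro hm
        have h3 := sin_shift_ge (d := δ.re) (h p List.mem_cons_self hm) (by linarith)
        have h4 := sin_lo k1 (c := 1 / 64) (by norm_num) (by rw [r1]; exact h3)
        linarith)
    rw [e1]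
    calc _ ≤ (128 ^ p.2.natAbs * Real.cosh s ^ p.2) *
          (128 ^ (L.map fun p => p.2.natAbs).sum * Real.cosh s ^ (L.map fun p => p.2).sum) :=
          mul_le_mul b2 ih1 (FL_nonneg _ _) (by positivity)
      _ = _ := by ring

/-! ### The factors of a half quantum and of a single -/

/-- half quantum: (same species, string?) -/
def hL : Bool → Bool → List (ℤ × ℤ)
  | true, false => [(0, 1), (16, 1), (8, -1)]
  | false, false => [(32, 1), (-24, -1), (24, -1)]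
  | true, true => [(0, 1), (24, 1)]
  | false, true => [(-16, -1), (24, -1)]

/-- single -/
def sL : Bool → Bool → List (ℤ × ℤ)
  | true, false => [(0, 2), (16, 1), (-16, 1), (8, -1), (-8, -1)]
  | false, false => [(32, 2), (-24, -2), (24, -2)]
  | true, true => [(0, 1), (8, 1), (-16, 1), (24, 1)]
  | false, true => [(-16, -2), (24, -2)]

lemma a8 (z : ℂ) : z + (((((8 : ℤ) : ℝ) * (l / 8) : ℝ)) : ℂ) = z + l := by push_cast; ring
lemma am8 (z : ℂ) : z + (((((-8 : ℤ) : ℝ) * (l / 8) : ℝ)) : ℂ) = z - l := by push_cast; ring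
lemma a16 (z : ℂ) : z + (((((16 : ℤ) : ℝ) * (l / 8) : ℝ)) : ℂ) = z + 2 * l := by push_cast; ring
lemma am16 (z : ℂ) : z + (((((-16 : ℤ) : ℝ) * (l / 8) : ℝ)) : ℂ) = z - 2 * l := by push_cast; ring
lemma a24 (z : ℂ) : z + (((((24 : ℤ) : ℝ) * (l / 8) : ℝ)) : ℂ) = z + 3 * l := by push_cast; ring
lemma am24 (z : ℂ) : z + (((((-24 : ℤ) : ℝ) * (l / 8) : ℝ)) : ℂ) = z - 3 * l := by push_cast; ring
lemma a32 (z : ℂ) : z + (((((32 : ℤ) : ℝ) * (l / 8) : ℝ)) : ℂ) = z + 4 * l := by push_cast; ring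
lemma a0 (z : ℂ) : z + (((((0 : ℤ) : ℝ) * (l / 8) : ℝ)) : ℂ) = z := by push_cast; ring

lemma nsub (z : ℂ) (a : ℂ) : ‖sin (a - z)‖ = ‖sin (z - a)‖ := by
  rw [← norm_neg_sin (z - a), neg_sub]

lemma Ck_norm (z : ℂ) : ‖Leg.Ck z‖ = FL (hL true false) z := by
  unfold Leg.Ck
  simp only [hL, FL_cons, FL_nil, a0, a16, a8, zpow_one, zpow_neg_one, norm_mul, norm_div]
  ring

lemma Dk_norm (z : ℂ) : ‖Leg.Dk z‖ = FL (hL false false) z := by
  unfold Leg.Dk
  simp only [hL, FL_cons, FL_nil, am24, a32, a24, zpow_one, zpow_neg_one, norm_mul, norm_div]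
  rw [NUDirP.cos_eq, nsub, add_comm (3 * (l : ℂ)) z]
  ring

lemma inv_cancel_le {a b : ℝ} (ha : 0 ≤ a) (hb : 0 ≤ b) : a * a⁻¹ * b ≤ b := by
  rcases ha.lt_or_eq with h | h
  · rw [mul_inv_cancel₀ h.ne', one_mul]
  · rw [← h]; simpa using hb

lemma Ck_str (z : ℂ) : ‖Leg.Ck z‖ * ‖Leg.Ck (z + l)‖ ≤ FL (hL true true) z := by
  unfold Leg.Ck
  simp only [hL, FL_cons, FL_nil, a0, a24, zpow_one, norm_mul, norm_div, mul_one]
  rw [show z + l + 2 * l = z + 3 * (l : ℂ) by ring, show z + l + l = z + 2 * (l : ℂ) by ring]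
  set A := ‖sin z‖
  set B := ‖sin (z + 2 * l)‖
  set C := ‖sin (z + l)‖
  set D := ‖sin (z + 3 * l)‖
  have hA : 0 ≤ A := norm_nonneg _
  have hB : 0 ≤ B := norm_nonneg _
  have hC : 0 ≤ C := norm_nonneg _
  have hD : 0 ≤ D := norm_nonneg _
  have e : A * B / C * (C * D / B) = (B * B⁻¹ * (C * C⁻¹ * (A * D))) := by
    rw [div_eq_mul_inv, div_eq_mul_inv]; ring
  rw [e]
  exact (inv_cancel_le hB (mul_nonneg (mul_nonneg hC (inv_nonneg.2 hC)) (mul_nonneg hA hD))).trans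
    (inv_cancel_le hC (mul_nonneg hA hD))

lemma n8 (z w : ℂ) (h : z = w + 8 * l) : ‖sin z‖ = ‖sin w‖ := norm_sin_eq z w (Or.inl h)

lemma Dk_str (z : ℂ) : ‖Leg.Dk z‖ * ‖Leg.Dk (z + l)‖ ≤ FL (hL false true) z := by
  rw [Dk_norm, Dk_norm]
  simp only [hL, FL_cons, FL_nil, am24, a32, a24, am16, zpow_one, zpow_neg_one, mul_one]
  rw [show z + l + 3 * l = z + 4 * (l : ℂ) by ring, show z + l - 3 * l = z - 2 * (l : ℂ) by ring,
    n8 (z + l + 4 * l) (z - 3 * l) (by ring)]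
  set A := ‖sin (z + 4 * l)‖
  set B := ‖sin (z - 3 * l)‖
  set C := ‖sin (z + 3 * l)‖
  set D := ‖sin (z - 2 * l)‖
  have hA : 0 ≤ A := norm_nonneg _
  have hB : 0 ≤ B := norm_nonneg _
  have hC : 0 ≤ C := norm_nonneg _
  have hD : 0 ≤ D := norm_nonneg _
  have e : A * (B⁻¹ * C⁻¹) * (B * (D⁻¹ * A⁻¹)) = (A * A⁻¹ * (B * B⁻¹ * (D⁻¹ * C⁻¹))) := by ring
  rw [e]
  have h0 : 0 ≤ D⁻¹ * C⁻¹ := mul_nonneg (inv_nonneg.2 hD) (inv_nonneg.2 hC)
  exact (inv_cancel_le hA (mul_nonneg (mul_nonneg hB (inv_nonneg.2 hB)) h0)).trans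
    (inv_cancel_le hB h0)

lemma zpow_two' (a : ℝ) : a ^ (2 : ℤ) = a * a := by
  rw [show (2 : ℤ) = ((2 : ℕ) : ℤ) by rfl, zpow_natCast]; ring

lemma zpow_neg_two' (a : ℝ) : a ^ (-2 : ℤ) = a⁻¹ * a⁻¹ := by
  rw [zpow_neg, zpow_two', mul_inv]

lemma q_norm (z : ℂ) : ‖q z‖ = FL (sL true false) z := by
  unfold q
  simp only [sL, FL_cons, FL_nil, a0, a16, a8, am8, am16, zpow_one, zpow_neg_one, norm_mul,
    norm_div, norm_neg, norm_pow, zpow_two']
  ring

lemma qg_norm (z : ℂ) : ‖Bd.qg z‖ = FL (sL false false) z := by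
  unfold Bd.qg
  simp only [sL, FL_cons, FL_nil, am24, a32, a24, zpow_two', zpow_neg_two', norm_mul,
    norm_div, norm_pow]
  rw [NUDirP.cos_eq]
  ring

lemma inv_sq_le {a b : ℝ} (ha : 0 ≤ a) (hb : 0 ≤ b) : a * a * (a⁻¹ * a⁻¹) * b ≤ b := by
  rcases ha.lt_or_eq with h | h
  · have : a * a * (a⁻¹ * a⁻¹) = 1 := by field_simp
    rw [this, one_mul]
  · rw [← h]; simpa using hb

lemma inv_one_le {a b : ℝ} (ha : 0 ≤ a) (_ : 0 ≤ b) : a * a * a⁻¹ * b ≤ a * b := by
  rcases ha.lt_or_eq with h | h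
  · have : a * a * a⁻¹ = a := by field_simp
    rw [this]
  · rw [← h]; simp

lemma q_str (z : ℂ) : ‖q z‖ * ‖q (z + l)‖ ≤ FL (sL true true) z := by
  rw [q_norm, q_norm]
  simp only [sL, FL_cons, FL_nil, a0, a16, a8, am8, am16, a24, zpow_one, zpow_neg_one, zpow_two',
    mul_one]
  rw [show z + l + 2 * l = z + 3 * (l : ℂ) by ring, show z + l + l = z + 2 * (l : ℂ) by ring,
    show z + l - 2 * l = z - (l : ℂ) by ring, show z + (l : ℂ) - l = z by ring]
  set A := ‖sin z‖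
  set B := ‖sin (z + 2 * l)‖
  set C := ‖sin (z + l)‖
  set D := ‖sin (z + 3 * l)‖
  set E := ‖sin (z - l)‖
  set F := ‖sin (z - 2 * l)‖
  have hA : 0 ≤ A := norm_nonneg _
  have hB : 0 ≤ B := norm_nonneg _
  have hC : 0 ≤ C := norm_nonneg _
  have hD : 0 ≤ D := norm_nonneg _
  have hE : 0 ≤ E := norm_nonneg _
  have hF : 0 ≤ F := norm_nonneg _
  have e : A * A * (B * (F * (C⁻¹ * E⁻¹))) * (C * C * (D * (E * (B⁻¹ * A⁻¹)))) =
      B * B⁻¹ * (E * E⁻¹ * (A * A * A⁻¹ * (C * C * C⁻¹ * (F * D)))) := by ring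
  rw [e]
  have i0 : 0 ≤ F * D := mul_nonneg hF hD
  have i1 : 0 ≤ C * C * C⁻¹ * (F * D) :=
    mul_nonneg (mul_nonneg (mul_nonneg hC hC) (inv_nonneg.2 hC)) i0
  have i2 : 0 ≤ A * A * A⁻¹ * (C * C * C⁻¹ * (F * D)) :=
    mul_nonneg (mul_nonneg (mul_nonneg hA hA) (inv_nonneg.2 hA)) i1
  have i3 : 0 ≤ E * E⁻¹ * (A * A * A⁻¹ * (C * C * C⁻¹ * (F * D))) :=
    mul_nonneg (mul_nonneg hE (inv_nonneg.2 hE)) i2
  refine (inv_cancel_le hB i3).trans ((inv_cancel_le hE i2).trans ((inv_one_le hA i1).trans ?_))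
  calc A * (C * C * C⁻¹ * (F * D)) ≤ A * (C * (F * D)) :=
        mul_le_mul_of_nonneg_left (inv_one_le hC i0) hA
    _ = _ := by ring

lemma qg_str (z : ℂ) : ‖Bd.qg z‖ * ‖Bd.qg (z + l)‖ ≤ FL (sL false true) z := by
  rw [qg_norm, qg_norm]
  simp only [sL, FL_cons, FL_nil, am24, a32, a24, am16, zpow_two', zpow_neg_two', mul_one]
  rw [show z + l + 3 * l = z + 4 * (l : ℂ) by ring, show z + l - 3 * l = z - 2 * (l : ℂ) by ring,
    n8 (z + l + 4 * l) (z - 3 * l) (by ring)]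
  set A := ‖sin (z + 4 * l)‖
  set B := ‖sin (z - 3 * l)‖
  set C := ‖sin (z + 3 * l)‖
  set D := ‖sin (z - 2 * l)‖
  have hA : 0 ≤ A := norm_nonneg _
  have hB : 0 ≤ B := norm_nonneg _
  have hC : 0 ≤ C := norm_nonneg _
  have hD : 0 ≤ D := norm_nonneg _
  have e : A * A * (B⁻¹ * B⁻¹ * (C⁻¹ * C⁻¹)) * (B * B * (D⁻¹ * D⁻¹ * (A⁻¹ * A⁻¹))) =
      (A * A * (A⁻¹ * A⁻¹) * (B * B * (B⁻¹ * B⁻¹) * (D⁻¹ * D⁻¹ * (C⁻¹ * C⁻¹)))) := by ring
  rw [e]
  have h0 : 0 ≤ D⁻¹ * D⁻¹ * (C⁻¹ * C⁻¹) := by positivity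
  exact (inv_sq_le hA (by positivity)).trans (inv_sq_le hB h0)

/-- factor of a half quantum -/
lemma fac_hq (a : Bool) (w : ℂ) (s b : Bool) (u : ℂ) :
    fac (hq a w) (s, b, u) ≤ FL (hL (s == a) b) (w - u) := by
  have e : w - (u - l) = w - u + l := by ring
  unfold fac hq
  by_cases h : s = a
  · rw [beq_iff_eq.2 h]
    cases b
    · simp only [h, if_true, Bool.false_eq_true, if_false]; exact (Ck_norm _).le
    · simp only [h, if_true, e]; exact Ck_str _
  · rw [beq_eq_false_iff_ne.2 h]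
    cases b
    · simp only [h, Bool.false_eq_true, if_false]; exact (Dk_norm _).le
    · simp only [h, if_true, if_false, e]; exact Dk_str _

/-- factor of a single -/
lemma fac_sq (a : Bool) (w : ℂ) (s b : Bool) (u : ℂ) :
    fac (sq a w) (s, b, u) ≤ FL (sL (s == a) b) (w - u) := by
  have e : w - (u - l) = w - u + l := by ring
  unfold fac sq
  by_cases h : s = a
  · rw [beq_iff_eq.2 h]
    cases b
    · simp only [h, if_true, Bool.false_eq_true, if_false]; exact (q_norm _).le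
    · simp only [h, if_true, e]; exact q_str _
  · rw [beq_eq_false_iff_ne.2 h]
    cases b
    · simp only [h, Bool.false_eq_true, if_false]; exact (qg_norm _).le
    · simp only [h, if_true, if_false, e]; exact qg_str _

/-! ### The objects -/

/-- number of quanta of an object counted with sign -/
def qkz : Kind → ℤ
  | .L => 1
  | .St => 2
  | .S => 2
  | .Sv => 1
  | .Svv => 0

/-- number of quanta of an object counted with sign -/
def qk (k : Kind) : ℝ := (qkz k : ℝ)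

/-- sign -/
def sz (b : Bool) : ℤ := if b then 1 else -1

/-- number of quanta of a constituent -/
def nz (b : Bool) : ℤ := if b then 2 else 1

/-- lists of a spectator of charge `q / 2` -/
structure SpL (G : Bool → Bool → List (ℤ × ℤ)) (q : ℤ) : Prop where
  deg : ∀ same b, ((G same b).map fun p => p.2).sum = q * (sz same * nz b)
  abs : ∀ same b, ((G same b).map fun p => p.2.natAbs).sum ≤ 6

theorem hL_Sp : SpL hL 1 := ⟨by decide, by decide⟩
theorem sL_Sp : SpL sL 2 := ⟨by decide, by decide⟩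

/-- no denominator vanishes for a spectator at `nw` (units `l / 8`) -/
def GoodAt (G : Bool → Bool → List (ℤ × ℤ)) (nw : ℤ) : Prop :=
  ∀ (σ : Bool) (k : Kind), ∀ e ∈ rp 2 18 σ k, ∀ p ∈ G e.1 e.2.1, p.2 < 0 → ¬ (64 : ℤ) ∣ nw - e.2.2 + p.1

/-- the same for the constituents other than the strings `S` of the other species -/
def GoodEx (G : Bool → Bool → List (ℤ × ℤ)) (nw : ℤ) : Prop :=
  ∀ (σ : Bool) (k : Kind), ∀ e ∈ rp 2 18 σ k, (σ = true ∨ Sf k = false ∨ e.2.1 = false) →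
    ∀ p ∈ G e.1 e.2.1, p.2 < 0 → ¬ (64 : ℤ) ∣ nw - e.2.2 + p.1

instance (G : Bool → Bool → List (ℤ × ℤ)) (nw : ℤ) : Decidable (GoodAt G nw) := by
  unfold GoodAt; infer_instance

instance (G : Bool → Bool → List (ℤ × ℤ)) (nw : ℤ) : Decidable (GoodEx G nw) := by
  unfold GoodEx; infer_instance

theorem good_h10 : GoodAt hL 10 := by decide
theorem good_h2 : GoodAt hL 2 := by decide
theorem good_hm22 : GoodAt hL (-22) := by decide
theorem good_s6 : GoodEx sL 6 := by decide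
theorem good_s2 : GoodAt sL 2 := by decide
theorem good_h6 : GoodEx hL 6 := by decide

section

variable {G : Bool → Bool → List (ℤ × ℤ)} {q : ℤ} {f : Bool → ℂ → ℝ} {a : Bool} {w : ℂ} {nw : ℤ}
  {τ : ℝ} {δw : ℂ}

/-- one constituent -/
theorem fac_el (hG : SpL G q) (hf : ∀ s b u, fac f (s, b, u) ≤ FL (G (s == a) b) (w - u))
    (hw : w = (((nw : ℝ) * (l / 8) : ℝ) : ℂ) + τ * I + δw) (e : Ec) (t : ℝ)
    (hδ : ‖δw - e.2.2.2‖ ≤ 1 / 64)
    (good : ∀ p ∈ G (e.1 == a) e.2.1, p.2 < 0 → ¬ (64 : ℤ) ∣ nw - e.2.2.1 + p.1) :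
    fac f (toC t e) ≤ 128 ^ 6 * Real.cosh (τ - t) ^ (q * (sz (e.1 == a) * nz e.2.1)) := by
  have h1 := hf e.1 e.2.1 ((((e.2.2.1 : ℝ) * (l / 8) : ℝ) : ℂ) + t * I + e.2.2.2)
  have e1 : w - ((((e.2.2.1 : ℝ) * (l / 8) : ℝ) : ℂ) + t * I + e.2.2.2) =
      ((((nw - e.2.2.1 : ℤ) : ℝ) * (l / 8) : ℝ) : ℂ) + ((τ - t : ℝ) : ℂ) * I + (δw - e.2.2.2) := by
    rw [hw]; push_cast; ring
  rw [e1] at h1
  have h2 := FL_le (s := τ - t) hδ good
  rw [hG.deg] at h2
  have hc := Real.cosh_pos (τ - t)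
  refine h1.trans (h2.trans ?_)
  apply mul_le_mul_of_nonneg_right _ (zpow_nonneg hc.le _)
  exact pow_le_pow_right₀ (by norm_num) (hG.abs _ _)

/-- one object, from bounds of its constituents -/
theorem obj_gen {B : ℝ} (hB : 1 ≤ B) (hf0 : ∀ s u, 0 ≤ f s u) {s : Bool} {k : Kind} {κ ε : ℂ} {t : ℝ}
    (h : ∀ e ∈ dp 2 18 s k κ ε, fac f (toC t e) ≤ (if e.2.1 then B else 1) * 128 ^ 6 *
      Real.cosh (τ - t) ^ (q * (sz (e.1 == a) * nz e.2.1))) :
    facL f ((dp 2 18 s k κ ε).map (toC t)) ≤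
      B * 128 ^ 18 * Real.cosh (τ - t) ^ (q * (sz (s == a) * qkz k)) := by
  have hc := Real.cosh_pos (τ - t)
  set c := Real.cosh (τ - t) with hcdef
  have hns : sz ((!s) == a) = -sz (s == a) := by cases s <;> cases a <;> rfl
  have n0 : ∀ e : Ec, 0 ≤ fac f (toC t e) := fun e => fac_nonneg hf0 _
  have big : (1 : ℝ) ≤ 128 ^ 6 := by norm_num
  cases k <;> simp only [dp, List.forall_mem_cons, List.not_mem_nil, false_imp_iff, implies_true,
    and_true, if_true, Bool.false_eq_true, if_false, hns, nz, one_mul] at h <;>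
    simp only [facL, dp, List.map_cons, List.map_nil, List.prod_cons, List.prod_nil, mul_one, qkz]
  · rw [mul_one] at h
    refine h.trans ?_
    apply mul_le_mul_of_nonneg_right _ (zpow_nonneg hc.le _)
    nlinarith
  · refine h.trans ?_
    apply mul_le_mul_of_nonneg_right _ (zpow_nonneg hc.le _)
    nlinarith
  · refine h.trans ?_
    apply mul_le_mul_of_nonneg_right _ (zpow_nonneg hc.le _)
    nlinarith
  · obtain ⟨h1, h2⟩ := h
    refine (mul_le_mul h1 h2 (n0 _) (by positivity)).trans ?_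
    have e1 : q * sz (s == a) = q * (sz (s == a) * 2) + q * (-sz (s == a) * 1) := by ring
    rw [e1, zpow_add₀ hc.ne']
    have h3 : 0 ≤ c ^ (q * (sz (s == a) * 2)) * c ^ (q * (-sz (s == a) * 1)) := by positivity
    calc _ = B * (128 ^ 6 * 128 ^ 6) * (c ^ (q * (sz (s == a) * 2)) * c ^ (q * (-sz (s == a) * 1))) := by
          ring
      _ ≤ _ := by
          apply mul_le_mul_of_nonneg_right _ h3
          nlinarith
  · obtain ⟨h1, h2, h3⟩ := h
    refine (mul_le_mul h1 (mul_le_mul h2 h3 (n0 _) (by positivity)) (mul_nonneg (n0 _) (n0 _))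
      (by positivity)).trans ?_
    have e1 : q * (sz (s == a) * 0) = q * (sz (s == a) * 2) + (q * (-sz (s == a) * 1) +
      q * (-sz (s == a) * 1)) := by ring
    rw [e1, zpow_add₀ hc.ne', zpow_add₀ hc.ne']
    apply le_of_eq
    ring

lemma dp_rel {s : Bool} {k : Kind} {κ ε : ℂ} {e : Ec} (a : Bool) (h : e ∈ dp 2 18 s k κ ε) :
    ((e.1 == a), e.2.1, e.2.2.1) ∈ rp 2 18 (s == a) k := by
  have hns : ((!s) == a) = !(s == a) := by cases s <;> cases a <;> rfl
  cases k <;> simp only [dp, rp, List.mem_cons, List.not_mem_nil, or_false] at h ⊢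
  · rw [h]
  · rw [h]
  · rw [h]
  · rcases h with h | h <;> simp [h, hns]
  · rcases h with h | h | h <;> simp [h, hns]

end

/-- `cosh ^ n` -/
lemma cosh_zpow (x : ℝ) (n : ℤ) : Real.cosh x ^ n = Real.exp ((n : ℝ) * Real.log (Real.cosh x)) := by
  rw [← Real.rpow_intCast, Real.rpow_def_of_pos (Real.cosh_pos x), mul_comm]

section

variable {P : Par} {r : ℕ} (hS : Small 8 P r) (O : Fin r → Xo) (i : Fin r)

include hS

lemma d_small : P.d r ≤ 1 / 6144 := by
  have := hS.d1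
  norm_num at this
  linarith

/-- the displacements are small -/
lemma disp_small {s : Bool} {k : Kind} : ∀ e ∈ dp 2 18 s k (kap P O i) (eps P O i),
    ‖e.2.2.2‖ ≤ 1 / 1000 := by
  intro e he
  obtain ⟨x, v, h, h1, h2, h3⟩ := dp_disp hS O i he
  have hl := NUP1.l_pos
  have hl2 := l_lt
  have hd := hS.d0
  have hd1 := d_small hS
  rw [h]
  have h4 : ‖((-(x * l) : ℝ) : ℂ)‖ ≤ P.d r * l := by
    rw [Complex.norm_real, Real.norm_eq_abs, abs_neg, abs_mul, abs_of_pos hl, abs_of_nonneg h1]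
    exact mul_le_mul_of_nonneg_right h2 hl.le
  have h5 := norm_add_le ((-(x * l) : ℝ) : ℂ) v
  nlinarith

end

/-- **general position**: a spectator at `nw l / 8 + i τ` -/
theorem dsp_gen {G : Bool → Bool → List (ℤ × ℤ)} {q : ℤ} (hG : SpL G q) {nw : ℤ} (good : GoodAt G nw)
    {P : Par} (he : P.e = 1 / 4) (hj : P.jL = 9 / 4) {r : ℕ} (hS : Small 8 P r) (O : Fin r → Xo)
    (i : Fin r) (a : Bool) (τ : ℝ) {f : Bool → ℂ → ℝ} (hf0 : ∀ s u, 0 ≤ f s u)
    (hf : ∀ s b u, fac f (s, b, u) ≤ FL (G (s == a) b) (vl ((nw : ℝ) * (l / 8)) τ - u)) :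
    facL f (NUO.cons P O i) ≤ 128 ^ 18 *
      Real.cosh (τ - ht (O i)) ^ (q * (sz (sp (O i) == a) * qkz (kd (O i)))) := by
  rw [cons_eq (ne := 2) (nL := 18) (by rw [he]; norm_num) (by rw [hj]; norm_num)]
  have h := obj_gen (q := q) (f := f) (a := a) (τ := τ) (B := 1) le_rfl hf0 (s := sp (O i))
    (k := kd (O i)) (κ := kap P O i) (ε := eps P O i) (t := ht (O i)) (by
      intro e hh
      have hd := disp_small hS O i e hh
      have h1 := fac_el hG hf (nw := nw) (τ := τ) (δw := 0) (by unfold vl; push_cast; ring) e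
        (ht (O i)) (by rw [zero_sub, norm_neg]; linarith)
        (good _ _ _ (dp_rel a hh))
      split_ifs <;> simpa using h1)
  simpa using h

/-- the exponent: `± q` (number of quanta of the object counted with sign) -/
def NN (q : ℤ) (a : Bool) (x : Xo) : ℝ := (q : ℝ) * ((if sp x = a then 1 else -1) * qk (kd x))

lemma NN_eq (q : ℤ) (a : Bool) (x : Xo) :
    ((q * (sz (sp x == a) * qkz (kd x)) : ℤ) : ℝ) = NN q a x := by
  unfold NN qk sz
  by_cases h : sp x = a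
  · rw [beq_iff_eq.2 h, if_pos rfl, if_pos h]; push_cast; ring
  · rw [beq_eq_false_iff_ne.2 h, if_neg h]; push_cast; ring

/-- constant -/
def CD : ℝ := 128 ^ 18

lemma CD_pos : 0 < CD := by unfold CD; positivity

theorem dsp_h {nw : ℤ} (good : GoodAt hL nw) {P : Par} (he : P.e = 1 / 4) (hj : P.jL = 9 / 4) {r : ℕ}
    (hS : Small 8 P r) (O : Fin r → Xo) (i : Fin r) (a : Bool) (τ : ℝ) :
    facL (hq a (vl ((nw : ℝ) * (l / 8)) τ)) (NUO.cons P O i) ≤ CD *
      Real.exp (NN 1 a (O i) * Real.log (Real.cosh (ht (O i) - τ))) := by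
  have h := dsp_gen hL_Sp good he hj hS O i a τ (hq_nonneg _ _) (fac_hq a (vl ((nw : ℝ) * (l / 8)) τ))
  rwa [cosh_zpow, NN_eq, ← Real.cosh_neg, neg_sub] at h

theorem dsp_s {nw : ℤ} (good : GoodAt sL nw) {P : Par} (he : P.e = 1 / 4) (hj : P.jL = 9 / 4) {r : ℕ}
    (hS : Small 8 P r) (O : Fin r → Xo) (i : Fin r) (a : Bool) (τ : ℝ) :
    facL (sq a (vl ((nw : ℝ) * (l / 8)) τ)) (NUO.cons P O i) ≤ CD *
      Real.exp (NN 2 a (O i) * Real.log (Real.cosh (ht (O i) - τ))) := by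
  have h := dsp_gen sL_Sp good he hj hS O i a τ (sq_nonneg' _ _) (fac_sq a (vl ((nw : ℝ) * (l / 8)) τ))
  rwa [cosh_zpow, NN_eq, ← Real.cosh_neg, neg_sub] at h

/-- **half quantum** at `5/4`, `1/4`, `-11/4` -/
theorem dsp_half {p : ℝ} (hp : p = 5 / 4 ∨ p = 1 / 4 ∨ p = -(11 / 4)) {P : Par} (he : P.e = 1 / 4)
    (hj : P.jL = 9 / 4) {r : ℕ} (hS : Small 8 P r) (O : Fin r → Xo) (i : Fin r) (a : Bool) (τ : ℝ) :
    facL (hq a (vl (p * l) τ)) (NUO.cons P O i) ≤ CD *
      Real.exp (NN 1 a (O i) * Real.log (Real.cosh (ht (O i) - τ))) := by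
  rcases hp with rfl | rfl | rfl
  · have h := dsp_h good_h10 he hj hS O i a τ
    rwa [show (((10 : ℤ) : ℝ) * (l / 8)) = 5 / 4 * l by push_cast; ring] at h
  · have h := dsp_h good_h2 he hj hS O i a τ
    rwa [show (((2 : ℤ) : ℝ) * (l / 8)) = 1 / 4 * l by push_cast; ring] at h
  · have h := dsp_h good_hm22 he hj hS O i a τ
    rwa [show (((-22 : ℤ) : ℝ) * (l / 8)) = -(11 / 4) * l by push_cast; ring] at h

/-- **single** at `1/4` -/
theorem dsp_single {P : Par} (he : P.e = 1 / 4)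
    (hj : P.jL = 9 / 4) {r : ℕ} (hS : Small 8 P r) (O : Fin r → Xo) (i : Fin r) (a : Bool) (τ : ℝ) :
    facL (sq a (vl (1 / 4 * l) τ)) (NUO.cons P O i) ≤ CD *
      Real.exp (NN 2 a (O i) * Real.log (Real.cosh (ht (O i) - τ))) := by
  have h := dsp_s good_s2 he hj hS O i a τ
  rwa [show (((2 : ℤ) : ℝ) * (l / 8)) = 1 / 4 * l by push_cast; ring] at h

/-! ### Collisions -/

/-- list with the pole `-16` at distance `16`: `c = |sin (Re δ)|` -/
lemma pole_le {m : ℤ} {s c : ℝ} {δ : ℂ} (hδ : ‖δ‖ ≤ 1 / 64) (hc : 0 < c)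
    (hc1 : c ≤ |Real.sin δ.re|) :
    FL [(-16, m), (24, m)] ((((16 : ℤ) : ℝ) * (l / 8) : ℝ) + s * I + δ) ≤
      (2 / c) ^ m.natAbs * 128 ^ m.natAbs * Real.cosh s ^ (2 * m) := by
  have hre := Complex.abs_re_le_norm δ
  have him := Complex.abs_im_le_norm δ
  have hs := Real.cosh_pos s
  have h1 := FL_le (L := [(24, m)]) (x := 16) (s := s) hδ (by
    intro p hp _
    rw [List.mem_singleton] at hp
    rw [hp]
    show ¬ (64 : ℤ) ∣ 16 + 24
    decide)
  rw [FL_cons]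
  simp only [List.map_cons, List.map_nil, List.sum_cons, List.sum_nil, add_zero] at h1
  rw [am16]
  have e1 : (((((16 : ℤ) : ℝ) * (l / 8) : ℝ)) : ℂ) + s * I + δ - 2 * l =
      ((δ.re : ℝ) : ℂ) + ((s + δ.im : ℝ) : ℂ) * I := by
    apply Complex.ext
    · simp; ring
    · simp
  rw [e1]
  have r1 : (((δ.re : ℝ) : ℂ) + ((s + δ.im : ℝ) : ℂ) * I).re = δ.re := by simp
  have r2 : (((δ.re : ℝ) : ℂ) + ((s + δ.im : ℝ) : ℂ) * I).im = s + δ.im := by simp
  have k1 : |(((δ.re : ℝ) : ℂ) + ((s + δ.im : ℝ) : ℂ) * I).im - s| ≤ 1 / 2 := by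
    rw [r2, add_sub_cancel_left]; linarith
  have b1 := sin_up k1
  have hsin1 : c ≤ 1 := hc1.trans (Real.abs_sin_le_one _)
  have b2 := zp_up (m := m) (B := 2 / c) hs
    (norm_nonneg (sin (((δ.re : ℝ) : ℂ) + ((s + δ.im : ℝ) : ℂ) * I))) (by
      have : 2 ≤ 2 / c := by rw [le_div_iff₀ hc]; linarith
      nlinarith) (by
      intro _
      have h4 := sin_lo k1 hc.le (by rw [r1]; exact hc1)
      rw [div_mul_eq_mul_div, le_div_iff₀ hc]
      linarith)
  rw [two_mul, zpow_add₀ hs.ne']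
  calc _ ≤ ((2 / c) ^ m.natAbs * Real.cosh s ^ m) * (128 ^ m.natAbs * Real.cosh s ^ m) :=
        mul_le_mul b2 h1 (FL_nonneg _ _) (by positivity)
    _ = _ := by ring

/-- separation of the lines of two strings of one species -/
lemma sep {P : Par} {r : ℕ} (hS : Small 8 P r) (O : Fin r → Xo) {i k : Fin r} (hik : i ≠ k)
    (hs : sp (O i) = sp (O k)) :
    P.d r / (4 * r) ≤ |Real.sin (kap P O k - kap P O i).re| ∧ 0 < P.d r / (4 * r) := by
  have hpi := Real.pi_gt_three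
  have hl := NUP1.l_pos
  have hl2 := l_lt
  have hd := hS.d0
  have hd1 := d_small hS
  have hr : (0 : ℝ) < r := by
    have : 0 < r := by have := i.2; omega
    exact_mod_cast this
  have e1 : (kap P O k - kap P O i).re = (dis P O i - dis P O k) * l := by
    unfold NUDirP.kap
    rw [Complex.sub_re, Complex.ofReal_re, Complex.ofReal_re]; ring
  have h1 : |dis P O i - dis P O k| = P.d r * rd O i k / r := by
    unfold dis rd
    rw [← mul_sub, ← sub_div, abs_mul, abs_div, abs_of_pos hd, abs_of_pos hr]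
    ring
  have h2 := one_le_rd O hik hs
  have h3 : |(dis P O i - dis P O k) * l| ≤ Real.pi / 2 := by
    rw [abs_mul, abs_of_pos hl]
    have a1 := dis_nonneg hS O i
    have a2 := dis_le hS O i
    have a3 := dis_nonneg hS O k
    have a4 := dis_le hS O k
    have a5 : |dis P O i - dis P O k| ≤ P.d r := by rw [abs_le]; constructor <;> linarith
    nlinarith
  have h4 := Real.mul_abs_le_abs_sin h3
  rw [e1]
  refine ⟨le_trans ?_ h4, by positivity⟩
  rw [abs_mul, abs_of_pos hl, h1]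
  have e2 : 2 / Real.pi * (P.d r * rd O i k / r * l) = P.d r / (4 * r) * rd O i k := by
    unfold l
    field_simp
    ring
  rw [e2]
  have h5 : 0 < P.d r / (4 * r) := by positivity
  nlinarith

/-- the extra factor of a collision -/
def XF (P : Par) {r : ℕ} (O : Fin r → Xo) (i k : Fin r) : ℝ :=
  if sp (O i) = sp (O k) ∧ Sf (kd (O i)) = true then 8 * r / P.d r else 1

lemma XF_ge {P : Par} {r : ℕ} (hS : Small 8 P r) (O : Fin r → Xo) (i k : Fin r) : 1 ≤ XF P O i k := by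
  have hd := hS.d0
  have hd1 := d_small hS
  have hr : (1 : ℝ) ≤ r := by
    have : 1 ≤ r := by have := i.2; omega
    exact_mod_cast this
  unfold XF
  split_ifs
  · rw [le_div_iff₀ hd]; linarith
  · exact le_rfl

/-- position of the satellites of the string `k` -/
def wS (P : Par) {r : ℕ} (O : Fin r → Xo) (k : Fin r) : ℂ := posS (ei P O k) (ht (O k)) + 2 * l

lemma wS_eq {P : Par} (he : P.e = 1 / 4) {r : ℕ} (O : Fin r → Xo) (k : Fin r) :
    wS P O k = (((((6 : ℤ) : ℝ) * (l / 8) : ℝ) : ℂ) + (ht (O k) : ℝ) * I + kap P O k) := by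
  have e1 : ei P O k = 1 / 4 + dis P O k := by unfold ei dis; rw [he]
  unfold wS posS vl NUDirP.kap
  rw [e1]; push_cast; ring

theorem coll_gen {G : Bool → Bool → List (ℤ × ℤ)} {n : ℕ} (hn : 0 < n) (hn2 : n ≤ 2) (hG : SpL G n)
    (hGp : G false true = [(-16, -(n : ℤ)), (24, -(n : ℤ))])
    (good : GoodEx G 6)
    {P : Par} (he : P.e = 1 / 4) (hj : P.jL = 9 / 4) {r : ℕ} (hS : Small 8 P r) (O : Fin r → Xo)
    {i k : Fin r} (hik : i ≠ k) {f : Bool → ℂ → ℝ} (hf0 : ∀ s u, 0 ≤ f s u)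
    (hf : ∀ s b u, fac f (s, b, u) ≤ FL (G (s == !sp (O k)) b) (wS P O k - u)) :
    facL f (NUO.cons P O i) ≤ XF P O i k ^ n * 128 ^ 18 *
      Real.cosh (ht (O k) - ht (O i)) ^ ((n : ℤ) * (sz (sp (O i) == !sp (O k)) * qkz (kd (O i)))) := by
  rw [cons_eq (ne := 2) (nL := 18) (by rw [he]; norm_num) (by rw [hj]; norm_num)]
  have hX := XF_ge hS O i k
  have hc := Real.cosh_pos (ht (O k) - ht (O i))
  have kk : ‖kap P O k‖ ≤ 1 / 1000 := by
    have := disp_small hS O k (s := true) (k := .S) (true, true, -(8 + 2), kap P O k) (by simp [dp])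
    exact this
  refine obj_gen (q := n) (f := f) (a := !sp (O k)) (τ := ht (O k)) (B := XF P O i k ^ n)
    (one_le_pow₀ hX) hf0 (s := sp (O i))
    (k := kd (O i)) (κ := kap P O i) (ε := eps P O i) (t := ht (O i)) ?_
  intro e hh
  have hd := disp_small hS O i e hh
  have hδ : ‖kap P O k - e.2.2.2‖ ≤ 1 / 64 := by
    refine (norm_sub_le _ _).trans ?_
    linarith
  by_cases hcase : (sp (O i) = sp (O k) ∧ Sf (kd (O i)) = true) ∧ e.2.1 = true
  · obtain ⟨⟨hs, hk⟩, hb⟩ := hcase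
    -- the string of the family `S`
    have he1 : e = (sp (O i), true, -(8 + 2), kap P O i) := by
      revert hk hh
      cases kd (O i) <;> simp only [Sf, dp, List.mem_cons, List.not_mem_nil, or_false,
        Bool.false_eq_true, false_imp_iff, implies_true, forall_true_left] <;> intro hh
      · exact hh
      · rcases hh with h | h
        · exact h
        · rw [h] at hb; simp at hb
      · rcases hh with h | h | h
        · exact h
        · rw [h] at hb; simp at hb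
        · rw [h] at hb; simp at hb
    subst he1
    have hfalse : (sp (O i) == !sp (O k)) = false := by
      rw [hs]; cases sp (O k) <;> rfl
    have h1 := hf (sp (O i)) true (((((-(8 + 2) : ℤ) : ℝ) * (l / 8) : ℝ) : ℂ) +
      (ht (O i) : ℂ) * I + kap P O i)
    rw [hfalse, hGp, wS_eq he] at h1
    have e2 : (((((6 : ℤ) : ℝ) * (l / 8) : ℝ) : ℂ) + (ht (O k) : ℝ) * I + kap P O k) -
        (((((-(8 + 2) : ℤ) : ℝ) * (l / 8) : ℝ) : ℂ) + (ht (O i) : ℂ) * I + kap P O i) =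
        ((((16 : ℤ) : ℝ) * (l / 8) : ℝ) : ℂ) + ((ht (O k) - ht (O i) : ℝ) : ℂ) * I +
          (kap P O k - kap P O i) := by
      push_cast; ring
    rw [e2] at h1
    obtain ⟨s1, s2⟩ := sep hS O hik hs
    have h2 := pole_le (m := -(n : ℤ)) (s := ht (O k) - ht (O i)) (δ := kap P O k - kap P O i)
      hδ s2 s1
    have h3 := h1.trans h2
    have e3 : XF P O i k = 2 / (P.d r / (4 * r)) := by
      unfold XF
      rw [if_pos ⟨hs, hk⟩]
      have hd := hS.d0
      have hr : (0 : ℝ) < r := by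
        have : 0 < r := by have := i.2; omega
        exact_mod_cast this
      field_simp
      norm_num
    simp only [if_true]
    rw [hfalse]
    have e4 : (n : ℤ) * (sz false * nz true) = 2 * -(n : ℤ) := by unfold sz nz; simp; ring
    rw [e4]
    rw [Int.natAbs_neg, Int.natAbs_natCast, ← e3] at h3
    refine h3.trans ?_
    apply mul_le_mul_of_nonneg_right _ (zpow_nonneg hc.le _)
    apply mul_le_mul_of_nonneg_left _ (by positivity)
    exact pow_le_pow_right₀ (by norm_num) (by omega)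
  · have hg : ∀ p ∈ G (e.1 == !sp (O k)) e.2.1, p.2 < 0 → ¬ (64 : ℤ) ∣ 6 - e.2.2.1 + p.1 := by
      refine good (sp (O i) == !sp (O k)) (kd (O i)) _ (dp_rel (!sp (O k)) hh) ?_
      by_contra h
      push Not at h
      apply hcase
      refine ⟨⟨?_, ?_⟩, ?_⟩
      · have := h.1
        revert this
        cases sp (O i) <;> cases sp (O k) <;> simp
      · have := h.2.1
        revert this
        cases Sf (kd (O i)) <;> simp
      · have := h.2.2
        revert this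
        cases e.2.1 <;> simp
    have h1 := fac_el hG hf (nw := 6) (τ := ht (O k)) (δw := kap P O k) (wS_eq he O k) e
      (ht (O i)) hδ hg
    refine h1.trans ?_
    apply mul_le_mul_of_nonneg_right _ (zpow_nonneg hc.le _)
    have hX1 : 1 ≤ XF P O i k ^ n := one_le_pow₀ hX
    split_ifs <;> nlinarith

/-- **half quantum at the collision** `w = (string k) + 2 l` -/
theorem coll_half {P : Par} (he : P.e = 1 / 4) (hj : P.jL = 9 / 4) {r : ℕ} (hS : Small 8 P r)
    (O : Fin r → Xo) {i k : Fin r} (hik : i ≠ k) :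
    facL (hq (!sp (O k)) (wS P O k)) (NUO.cons P O i) ≤ CD * XF P O i k *
      Real.exp (NN 1 (!sp (O k)) (O i) * Real.log (Real.cosh (ht (O i) - ht (O k)))) := by
  have h := coll_gen (n := 1) (by norm_num) (by norm_num) hL_Sp rfl good_h6 he hj hS O hik
    (hq_nonneg _ _) (fac_hq (!sp (O k)) (wS P O k))
  rw [cosh_zpow, NN_eq, ← Real.cosh_neg, neg_sub, pow_one] at h
  refine h.trans (le_of_eq ?_)
  unfold CD
  push_cast
  ring

/-- **single at the collision** `w = (string k) + 2 l` -/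
theorem coll_single {P : Par} (he : P.e = 1 / 4) (hj : P.jL = 9 / 4) {r : ℕ} (hS : Small 8 P r)
    (O : Fin r → Xo) {i k : Fin r} (hik : i ≠ k) :
    facL (sq (!sp (O k)) (wS P O k)) (NUO.cons P O i) ≤ CD * XF P O i k ^ 2 *
      Real.exp (NN 2 (!sp (O k)) (O i) * Real.log (Real.cosh (ht (O i) - ht (O k)))) := by
  have h := coll_gen (n := 2) (by norm_num) (by norm_num) sL_Sp rfl good_s6 he hj hS O hik
    (sq_nonneg' _ _) (fac_sq (!sp (O k)) (wS P O k))
  rw [cosh_zpow, NN_eq, ← Real.cosh_neg, neg_sub] at h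
  refine h.trans (le_of_eq ?_)
  unfold CD
  push_cast
  ring

end NUGC
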