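import Pool.Agent.NUGC.Spk
import Pool.Agent.NUGC.Dsp
import Pool.Agent.NUGC.DrT

/-!
# Spectators against objects (board/GAM G3, helper99)

`Sp = Bool × Ek × ℝ`: species, elementary spectator, height.  `spM D`: modulus of the factor of a finite
family `D` of spectators on a quantum.

* `facL_ek`: direct factor of a spectator and an object, every kind;
* `pair_ek`: `facL (Ek.f ..) (cons P O i) * exp (ES (obSr ..) (Ek.src ..)) ≤ C`;
* `asm_obj`, `asm_conf`: families, all objects.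
-/

set_option autoImplicit false

open MeasureTheory Set Filter Topology

namespace NUGC

noncomputable section

open NUO NUC43 NUDirP
open Pool.Agent.NUM3 (EV EU sgn)

/-- spectator: species, kind, height -/
abbrev Spt := Bool × Ek × ℝ

/-- the source of a spectator -/
def Spt.src (d : Spt) : Sr := Ek.src d.1 d.2.1 d.2.2

/-- the modulus of a spectator -/
def Spt.f (d : Spt) : Bool → ℂ → ℝ := Ek.f d.1 d.2.1 d.2.2

theorem Spt.ok (d : Spt) : d.src.Ok := Ek.src_ok _ _ _

lemma Ek.f_nonneg (a : Bool) (k : Ek) (τ : ℝ) (s : Bool) (u : ℂ) : 0 ≤ Ek.f a k τ s u := by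
  cases k
  · exact hq_nonneg _ _ _ _
  · exact hq_nonneg _ _ _ _
  · exact hq_nonneg _ _ _ _
  · exact hq_nonneg _ _ _ _
  · exact sq_nonneg' _ _ _ _
  · exact sq_nonneg' _ _ _ _
  · exact mul_nonneg (sq_nonneg' _ _ _ _) (sq_nonneg' _ _ _ _)

theorem good_h5 : GoodAt hL 5 := by decide
theorem good_s5 : GoodAt sL 5 := by decide
theorem good_sm11 : GoodAt sL (-11) := by decide
theorem good_sm19 : GoodAt sL (-19) := by decide

lemma kq_eq_qk (k : Kind) : kq k = qk k := by
  cases k <;> norm_num [kq, qk, qkz]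

lemma CD_one : 1 ≤ CD := by
  unfold CD
  norm_num

/-- **direct factor of a spectator and an object** -/
theorem facL_ek {P : Par} (he : P.e = 1 / 4) (hj : P.jL = 9 / 4) {r : ℕ} (hS : Small 8 P r)
    (O : Fin r → Xo) (i : Fin r) (a : Bool) (k : Ek) (τ : ℝ) :
    facL (Ek.f a k τ) (NUO.cons P O i) ≤ CD ^ 2 *
      Real.exp (2 * (sgn (sp (O i) == a) * (kq (kd (O i)) * k.q)) *
        Real.log (Real.cosh (ht (O i) - τ))) := by
  have h1 := CD_one
  have hsg : ∀ q : ℤ, NN q a (O i) = (q : ℝ) * (sgn (sp (O i) == a) * kq (kd (O i))) := by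
    intro q
    unfold NN
    rw [kq_eq_qk]
    by_cases h : sp (O i) = a
    · rw [if_pos h, beq_iff_eq.2 h]
      simp [sgn]
    · rw [if_neg h, beq_eq_false_iff_ne.2 h]
      simp [sgn]
  have key : ∀ (f : Bool → ℂ → ℝ) (q : ℤ) (c : ℝ), c = (q : ℝ) / 2 →
      facL f (NUO.cons P O i) ≤ CD * Real.exp (NN q a (O i) * Real.log (Real.cosh (ht (O i) - τ))) →
      facL f (NUO.cons P O i) ≤ CD ^ 2 *
        Real.exp (2 * (sgn (sp (O i) == a) * (kq (kd (O i)) * c)) *
          Real.log (Real.cosh (ht (O i) - τ))) := by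
    intro f q c hc h
    have e : NN q a (O i) = 2 * (sgn (sp (O i) == a) * (kq (kd (O i)) * c)) := by
      rw [hsg, hc]
      ring
    rw [e] at h
    refine h.trans (mul_le_mul_of_nonneg_right ?_ (Real.exp_pos _).le)
    nlinarith
  have pos : ∀ (x : ℝ) (n : ℤ), x = (n : ℝ) / 8 → x * NUP1.l = (n : ℝ) * (NUP1.l / 8) := by
    intro x n h
    rw [h]
    ring
  cases k
  · refine key _ 1 _ (by unfold Ek.q; norm_num) ?_
    unfold Ek.f
    rw [pos (Ek.h5).ps 10 (by unfold Ek.ps Ek.x; norm_num)]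
    exact dsp_h good_h10 he hj hS O i a τ
  · refine key _ 1 _ (by unfold Ek.q; norm_num) ?_
    unfold Ek.f
    rw [pos (Ek.hm).ps (-22) (by unfold Ek.ps Ek.x; norm_num)]
    exact dsp_h good_hm22 he hj hS O i a τ
  · refine key _ 1 _ (by unfold Ek.q; norm_num) ?_
    unfold Ek.f
    rw [pos (Ek.h1).ps 2 (by unfold Ek.ps Ek.x; norm_num)]
    exact dsp_h good_h2 he hj hS O i a τ
  · refine key _ 1 _ (by unfold Ek.q; norm_num) ?_
    unfold Ek.f
    rw [pos (Ek.hs).ps 5 (by unfold Ek.ps Ek.x; norm_num)]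
    exact dsp_h good_h5 he hj hS O i a τ
  · refine key _ 2 _ (by unfold Ek.q; norm_num) ?_
    unfold Ek.f
    rw [pos (Ek.q1).ps 2 (by unfold Ek.ps Ek.x; norm_num)]
    exact dsp_s good_s2 he hj hS O i a τ
  · refine key _ 2 _ (by unfold Ek.q; norm_num) ?_
    unfold Ek.f
    rw [pos (Ek.qs).ps 5 (by unfold Ek.ps Ek.x; norm_num)]
    exact dsp_s good_s5 he hj hS O i a τ
  · have e1 : (Ek.sr).ps * NUP1.l = ((-11 : ℤ) : ℝ) * (NUP1.l / 8) :=
      pos _ _ (by unfold Ek.ps Ek.x; norm_num)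
    have e2 : ((Ek.sr).ps - 1) * NUP1.l = ((-19 : ℤ) : ℝ) * (NUP1.l / 8) :=
      pos _ _ (by unfold Ek.ps Ek.x; norm_num)
    have d1 := dsp_s good_sm11 he hj hS O i a τ
    have d2 := dsp_s good_sm19 he hj hS O i a τ
    have n1 : 0 ≤ facL (sq a (NUP1.vl (((-11 : ℤ) : ℝ) * (NUP1.l / 8)) τ)) (NUO.cons P O i) :=
      facL_nonneg (fun s u => sq_nonneg' _ _ _ _) _
    have n2 : 0 ≤ facL (sq a (NUP1.vl (((-19 : ℤ) : ℝ) * (NUP1.l / 8)) τ)) (NUO.cons P O i) :=
      facL_nonneg (fun s u => sq_nonneg' _ _ _ _) _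
    unfold Ek.f
    simp only
    rw [facL_mul, e1, e2]
    refine (mul_le_mul d1 d2 n2 (by have := CD_pos; positivity)).trans (le_of_eq ?_)
    have e3 : Real.exp (2 * (sgn (sp (O i) == a) * (kq (kd (O i)) * (Ek.sr).q)) *
        Real.log (Real.cosh (ht (O i) - τ))) =
        Real.exp (NN 2 a (O i) * Real.log (Real.cosh (ht (O i) - τ))) *
        Real.exp (NN 2 a (O i) * Real.log (Real.cosh (ht (O i) - τ))) := by
      rw [← Real.exp_add, hsg]
      congr 1
      unfold Ek.q
      push_cast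
      ring
    rw [e3]
    ring

/-- the energy of an object and a spectator -/
theorem ES_ek : ∃ C : ℝ, 0 ≤ C ∧ ∀ (x : Xo) (a : Bool) (k : Ek) (τ : ℝ),
    |2 * (sgn (sp x == a) * (kq (kd x) * k.q)) * Real.log (Real.cosh (ht x - τ)) +
      ES (obSr (9 / 4) (1 / 4) x) (Ek.src a k τ)| ≤ C := by
  have hj : Adm (9 / 4) (1 / 4) := ⟨by norm_num, by norm_num, by norm_num, by norm_num⟩
  have h : ∀ (K : Kind) (k : Ek), ∃ C : ℝ, 0 ≤ C ∧ ∀ (σ : Bool) (x y : ℝ),
      |2 * (sgn σ * (kq K * k.q)) * Real.log (Real.cosh (x - y)) +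
        ERc σ (kF (9 / 4) (1 / 4) K) (kG (9 / 4) (1 / 4) K) k.F k.G x y| ≤ C := by
    intro K k
    obtain ⟨α, hk⟩ := k.chg
    exact chg_ch (chgK hj K) hk
  choose C h0 hC using h
  refine ⟨∑ K : Kind, (C K .h5 + C K .hm + C K .h1 + C K .hs + C K .q1 + C K .qs + C K .sr),
    Finset.sum_nonneg fun K _ => ?_, fun x a k τ => ?_⟩
  · have := h0 K
    have h1 := this .h5
    have h2 := this .hm
    have h3 := this .h1
    have h4 := this .hs
    have h5 := this .q1
    have h6 := this .qs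
    have h7 := this .sr
    positivity
  · have h1 := hC (kd x) k (sp x == a) (ht x) τ
    have h2 : C (kd x) k ≤ C (kd x) .h5 + C (kd x) .hm + C (kd x) .h1 + C (kd x) .hs +
        C (kd x) .q1 + C (kd x) .qs + C (kd x) .sr := by
      have := h0 (kd x)
      have h1 := this .h5
      have h2 := this .hm
      have h3 := this .h1
      have h4 := this .hs
      have h5 := this .q1
      have h6 := this .qs
      have h7 := this .sr
      cases k <;> linarith
    have h3 := Finset.single_le_sum (f := fun K => C K .h5 + C K .hm + C K .h1 + C K .hs +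
      C K .q1 + C K .qs + C K .sr) (fun K _ => by
        have := h0 K
        have h1 := this .h5
        have h2 := this .hm
        have h3 := this .h1
        have h4 := this .hs
        have h5 := this .q1
        have h6 := this .qs
        have h7 := this .sr
        positivity) (Finset.mem_univ (kd x))
    exact h1.trans (h2.trans h3)

/-- **a spectator and an object**: direct factor and response -/
theorem pair_ek : ∃ C : ℝ, 1 ≤ C ∧ ∀ (P : Par), P.e = 1 / 4 → P.jL = 9 / 4 → ∀ (r : ℕ),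
    Small 8 P r → ∀ (O : Fin r → Xo) (i : Fin r) (d : Spt),
    facL d.f (NUO.cons P O i) * Real.exp (ES (obSr P.jL P.e (O i)) d.src) ≤ C := by
  obtain ⟨C, h0, hC⟩ := ES_ek
  refine ⟨CD ^ 2 * Real.exp C, ?_, fun P he hj r hS O i d => ?_⟩
  · have h1 := CD_one
    have h2 := Real.one_le_exp h0
    nlinarith [mul_nonneg (sub_nonneg.2 h1) (sub_nonneg.2 h1)]
  · have h1 := facL_ek he hj hS O i d.1 d.2.1 d.2.2
    have h2 := (abs_le.1 (hC (O i) d.1 d.2.1 d.2.2)).2
    have hCD := CD_pos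
    rw [he, hj]
    set X := 2 * (sgn (sp (O i) == d.1) * (kq (kd (O i)) * d.2.1.q)) *
      Real.log (Real.cosh (ht (O i) - d.2.2)) with hX
    calc facL d.f (NUO.cons P O i) * Real.exp (ES (obSr (9 / 4) (1 / 4) (O i)) d.src)
        ≤ (CD ^ 2 * Real.exp X) * Real.exp (ES (obSr (9 / 4) (1 / 4) (O i)) d.src) :=
          mul_le_mul_of_nonneg_right h1 (Real.exp_pos _).le
      _ = CD ^ 2 * Real.exp (X + ES (obSr (9 / 4) (1 / 4) (O i)) d.src) := by
          rw [Real.exp_add]
          ring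
      _ ≤ CD ^ 2 * Real.exp C := by
          gcongr
          exact h2

variable {κ : Type*} [Fintype κ]

/-- modulus of the factor of a family of spectators on a quantum -/
def spM (D : κ → Spt) (s : Bool) (u : ℂ) : ℝ := ∏ d, (D d).f s u

theorem spM_nonneg (D : κ → Spt) (s : Bool) (u : ℂ) : 0 ≤ spM D s u :=
  Finset.prod_nonneg fun _ _ => Ek.f_nonneg _ _ _ _ _

/-- on the line of the quanta the logarithm of `spM` is the potential of the spectators -/
theorem log_spM (D : κ → Spt) (s : Bool) (t : ℝ) : 0 < spM D s (NUP1.vl NUP1.l t) ∧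
    Real.log (spM D s (NUP1.vl NUP1.l t)) = linS (fun d => (D d).src) s t := by
  have h : ∀ d, 0 < (D d).f s (NUP1.vl NUP1.l t) ∧
      Real.log ((D d).f s (NUP1.vl NUP1.l t)) = (D d).src.p s (t - (D d).src.t) :=
    fun d => Ek.log_f (D d).1 (D d).2.1 (D d).2.2 s t
  refine ⟨Finset.prod_pos fun d _ => (h d).1, ?_⟩
  unfold spM linS
  rw [Real.log_prod fun d _ => (h d).1.ne']
  exact Finset.sum_congr rfl fun d _ => (h d).2

theorem facL_spM (D : κ → Spt) (A : List (Bool × Bool × ℂ)) :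
    facL (spM D) A = ∏ d, facL (D d).f A := by
  unfold facL spM
  induction A with
  | nil => simp
  | cons c A ih =>
    simp only [List.map_cons, List.prod_cons] at ih ⊢
    rw [ih, Finset.prod_mul_distrib]
    congr 1
    unfold fac
    split_ifs
    · rw [Finset.prod_mul_distrib]
    · rfl

/-- **all spectators and one object** -/
theorem asm_obj : ∃ C : ℝ, 1 ≤ C ∧ ∀ (P : Par), P.e = 1 / 4 → P.jL = 9 / 4 → ∀ (r : ℕ),
    Small 8 P r → ∀ (O : Fin r → Xo) (i : Fin r) {κ : Type} [Fintype κ] (D : κ → Spt),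
    facL (spM D) (NUO.cons P O i) *
      Real.exp (∑ d, ES (obSr P.jL P.e (O i)) (D d).src) ≤ C ^ Fintype.card κ := by
  obtain ⟨C, h1, hC⟩ := pair_ek
  refine ⟨C, h1, fun P he hj r hS O i κ _ D => ?_⟩
  rw [facL_spM, Real.exp_sum, ← Finset.prod_mul_distrib]
  calc ∏ d, facL (D d).f (NUO.cons P O i) * Real.exp (ES (obSr P.jL P.e (O i)) (D d).src)
      ≤ ∏ _d : κ, C := Finset.prod_le_prod (fun d _ => mul_nonneg
        (facL_nonneg (fun s u => Ek.f_nonneg _ _ _ _ _) _) (Real.exp_pos _).le)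
        fun d _ => hC P he hj r hS O i (D d)
    _ = C ^ Fintype.card κ := by rw [Finset.prod_const, Finset.card_univ]

/-- **all spectators and all objects** -/
theorem asm_conf : ∃ C : ℝ, 1 ≤ C ∧ ∀ (P : Par), P.e = 1 / 4 → P.jL = 9 / 4 → ∀ (r : ℕ),
    Small 8 P r → ∀ (O : Fin r → Xo) {κ : Type} [Fintype κ] (D : κ → Spt),
    (∏ i, facL (spM D) (NUO.cons P O i)) *
      Real.exp (∑ i, ∑ d, ES (obSr P.jL P.e (O i)) (D d).src) ≤ (C ^ Fintype.card κ) ^ r := by
  obtain ⟨C, h1, hC⟩ := asm_obj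
  refine ⟨C, h1, fun P he hj r hS O κ _ D => ?_⟩
  rw [Real.exp_sum, ← Finset.prod_mul_distrib]
  calc ∏ i, facL (spM D) (NUO.cons P O i) * Real.exp (∑ d, ES (obSr P.jL P.e (O i)) (D d).src)
      ≤ ∏ _i : Fin r, C ^ Fintype.card κ := Finset.prod_le_prod (fun i _ => mul_nonneg
        (facL_nonneg (fun s u => spM_nonneg D s u) _) (Real.exp_pos _).le)
        fun i _ => hC P he hj r hS O i D
    _ = _ := by rw [Finset.prod_const, Finset.card_univ, Fintype.card_fin]

/-- the energies of objects and spectators are symmetric -/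
theorem sym_ek {j e : ℝ} (hj : Adm j e) (x : Xo) (d : Spt) : Sym (obSr j e x) d.src := by
  obtain ⟨α, hk⟩ := d.2.1.chg
  have h1 := ERc_comm (chgK hj (kd x)) hk (sp x == d.1) (ht x) d.2.2
  have h2 := ERc_swap hk (chgK hj (kd x)) (sp x == d.1) (ht x) d.2.2
  have e : (sp x == d.1) = (d.1 == sp x) := by
    cases sp x <;> cases d.1 <;> rfl
  show ERc (sp x == d.1) _ _ _ _ (ht x) d.2.2 = ERc (d.1 == sp x) _ _ _ _ d.2.2 (ht x)
  rw [h1, h2, e]

end

end NUGC
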