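import Pool.Agent.NUGC.FlatR4

/-!
# The representation corollary and the bound of the final classes `cF t t'` (TARGET-C)

* `r4_cF`: `R4genU` of `cF t t'` at fixed half quanta;
* `cls_le`: the sum over the numbers of quanta of the modulus of a class at fixed half quanta, from the
  tilted bounds of its (at most four) choices.
* `r4_cD`, `cls1_le`: the classes D1, D1'.
-/

set_option autoImplicit false
set_option linter.unusedSectionVars false

noncomputable section

open Complex MeasureTheory Finset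
open scoped ENNReal

namespace NUGC

open NUO NUP1 NUCR NUP1S NUP1S.Ab NUP1S.AbC NUP1S.AbG NURow NUP1.Leg

/-- spectators of a half quantum of type `t`, own orientation -/
def htF : HT → Bool → Option O3 → ℂ → ℂ
  | .W => SF
  | .F => SF
  | .P => SP
  | .H => hostS false SF

/-- regular parts -/
def htT : HT → Bool → ℂ → ℂ
  | .W => fun c => SF c none
  | .F => fun c => SF c none
  | .P => fun c => SP c none
  | .H => hT

/-- final line -/
def htL : HT → ℝ
  | .W => 5 / 4 * l
  | .F => -(11 / 4) * l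
  | .P => -(11 / 4) * l
  | .H => 5 / 8 * l

/-- rate -/
def htQ : HT → ℝ
  | .W => 1
  | .F => 1
  | .P => -1
  | .H => -3

/-- simple pole -/
def htP : HT → Bool
  | .H => true
  | _ => false

/-- number of quanta of the other species which belong to the half quantum -/
def htD : HT → ℕ
  | .W => 0
  | .F => 0
  | .P => 1
  | .H => 2

theorem HG_ht (t : HT) : HG (htP t) (htQ t) (htL t) (htF t) (htT t) := by
  cases t
  · exact HG_SF_A
  · exact HG_of HQ_SF_B mulI_SF (by norm_num [htQ])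
  · exact HG_of HQ_SP_B mulI_SP (by norm_num [htQ])
  · exact HG_host

theorem htQ_eq (t : HT) : htQ t = 1 - 2 * (htD t : ℝ) := by
  cases t <;> norm_num [htQ, htD]

section cF
variable (X Y : Option O3 → ℂ → ℂ) (kF kP kF' kP' : ℂ → ℂ) (t t' : HT)

theorem cF_S : (cF X Y kF kP kF' kP' t t').S = htF t := by
  cases t <;> cases t' <;> rfl

theorem cF_S' : (cF X Y kF kP kF' kP' t t').S' = fl (htF t') := by
  cases t <;> cases t' <;> first | rfl | exact host_fl true SF

theorem cF_a : (cF X Y kF kP kF' kP' t t').a = htL t := by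
  cases t <;> cases t' <;> rfl

theorem cF_b : (cF X Y kF kP kF' kP' t t').b = htL t' := by
  cases t <;> cases t' <;> rfl

theorem cF_dX : (cF X Y kF kP kF' kP' t t').dX = htD t' := by
  cases t <;> cases t' <;> rfl

theorem cF_dY : (cF X Y kF kP kF' kP' t t').dY = htD t := by
  cases t <;> cases t' <;> rfl

end cF

variable {P : NUO.Par} {β x : ℝ} {M : ℕ} {cc : Bool → ℂ}

/-- the one body functions of the state sum -/
def XM (cc : Bool → ℂ) (β : ℝ) (M N : ℕ) (a : Bool) : Option O3 → ℂ → ℂ :=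
  XH (cc a) β M N (fun _ => 1) fun _ => 1

/-- number of the quanta which belong to the half quanta -/
def htM (t t' : HT) : ℕ := max (htD t) (htD t')

/-- one body data of the class `t, t'` at fixed half quanta with the choice `i, i'` -/
def obK (M N : ℕ) (β : ℝ) (t t' : HT) (w w' : ℂ) (i i' : Bool) : OB :=
  obC ((M : ℝ) + 1 / 2) N β fun a z => ThN z * ‖sV (sG (htF t) (htF t') w w') w w' i i' a z‖

/-- weight of the choice `i, i'` -/
def wK (cc : Bool → ℂ) (β : ℝ) (M N : ℕ) (t t' : HT) (w w' : ℂ) (i i' : Bool) : ℝ :=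
  if (i = true → htP t = true) ∧ (i' = true → htP t' = true) then
    wgt2 (GrX cc β M N (tG (htT t) (htT t') w w')) w w' i i' else 0

theorem wgt2_nonneg (Gr : Bool → ℂ → ℂ) (w w' : ℂ) (i i' : Bool) : 0 ≤ wgt2 Gr w w' i i' := by
  unfold wgt2
  split_ifs <;> positivity

theorem wK_nonneg (cc : Bool → ℂ) (β : ℝ) (M N : ℕ) (t t' : HT) (w w' : ℂ) (i i' : Bool) :
    0 ≤ wK cc β M N t t' w w' i i' := by
  unfold wK
  split_ifs
  · exact wgt2_nonneg _ _ _ _ _
  · exact le_rfl

/-- **The representation corollary of the class `cF t t'` at fixed half quanta.** -/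
theorem r4_cF {N : ℕ} (hP : ParC P) (hx0 : 0 < x) (hx1 : x ≤ 1 / 100) (hβ : 0 < β)
    (hβ' : β ≤ 4 / 3) (hMN : M ≤ N) (hc : ∀ a, ‖cc a‖ = 2 * Real.cos l) (kF kP kF' kP' : ℂ → ℂ)
    (t t' : HT) {w w' : ℂ} (hw : w.re = htL t) (hw' : w'.re = htL t') :
    R4genU x (htM t t' - htD t' + (htM t t' - htD t))
      (fun u : Bool × Bool => ENNReal.ofReal (wK cc β M N t t' w w' u.1 u.2))
      (fun u => TmV u.1.toNat u.2.toNat (obK M N β t t' w w' u.1 u.2) P
        (htM t t' - htD t') (htM t t' - htD t))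
      fun n => (cF (XM cc β M N true) (XM cc β M N false) kF kP kF' kP' t t').Z
        (XM cc β M N true) (XM cc β M N false) (3 / 5 * l) (n + htM t t') (n + htM t t')
        (lX P) (lY P) w w' := by
  have hl := l_pos
  have h1 : htD t' ≤ htM t t' := le_max_right _ _
  have h2 : htD t ≤ htM t t' := le_max_left _ _
  have key := r4_expl (x := x) (P := P) (c := cc) hP hx0 hx1 hβ hβ' hMN hc (HG_ht t) (HG_ht t') hw hw'
    (aX := htM t t' - htD t') (aY := htM t t' - htD t) (by
      rw [htQ_eq, htQ_eq, Nat.cast_sub h1, Nat.cast_sub h2]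
      ring)
  have e1 : (fun u : Bool × Bool => ENNReal.ofReal (wK cc β M N t t' w w' u.1 u.2)) =
      fun u : Bool × Bool => if (u.1 = true → htP t = true) ∧ (u.2 = true → htP t' = true) then
        ENNReal.ofReal (wgt2 (GrX cc β M N (tG (htT t) (htT t') w w')) w w' u.1 u.2) else 0 := by
    funext u
    unfold wK
    split_ifs
    · rfl
    · exact ENNReal.ofReal_zero
  have e2 : (fun n => (cF (XM cc β M N true) (XM cc β M N false) kF kP kF' kP' t t').Z
        (XM cc β M N true) (XM cc β M N false) (3 / 5 * l) (n + htM t t') (n + htM t t')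
        (lX P) (lY P) w w') = fun n => NURow.ZobjQ
        (XS true (XM cc β M N true) (htF t) (fl (htF t')) w w')
        (XS false (XM cc β M N false) (htF t) (fl (htF t')) w w') (3 / 5 * l)
        (n + (htM t t' - htD t')) (n + (htM t t' - htD t)) (lX P) (lY P) := by
    funext n
    unfold CD.Z
    rw [cF_S, cF_S', cF_dX, cF_dY, if_pos ⟨by omega, by omega⟩,
      Nat.add_sub_assoc h1, Nat.add_sub_assoc h2]
  rw [e1, e2]
  exact key

/-- no class integrand with too few quanta -/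
theorem cF_zero (X Y X' Y' : Option O3 → ℂ → ℂ) (kF kP kF' kP' : ℂ → ℂ) (t t' : HT) (α : ℝ)
    {n : ℕ} (hn : n < htM t t')
    (lnX : ∀ p p' : ℕ, (Fin p → O3) → (Fin p' → O3) → Fin p → ℝ)
    (lnY : ∀ p p' : ℕ, (Fin p → O3) → (Fin p' → O3) → Fin p' → ℝ) (w w' : ℂ) :
    (cF X Y kF kP kF' kP' t t').Z X' Y' α n n lnX lnY w w' = 0 := by
  unfold CD.Z
  rw [if_neg]
  rw [cF_dX, cF_dY]
  rintro ⟨h1, h2⟩
  have : htM t t' ≤ n := max_le h2 h1
  omega

/-- the sum over the numbers from the sum over the shifted ones -/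
theorem sum_shift {f : ℕ → ℝ} (hf : ∀ n, 0 ≤ f n) {D : ℕ} (h0 : ∀ n < D, f n = 0) (N : ℕ) :
    ∑ n ∈ range (N + 1), f n ≤ ∑ n ∈ range (N + 1), f (n + D) := by
  have h1 : ∑ n ∈ range (N + 1), f n ≤ ∑ n ∈ range (N + 1 + D), f n :=
    Finset.sum_le_sum_of_subset_of_nonneg (Finset.range_subset_range.2 (by omega))
      fun n _ _ => hf n
  refine h1.trans (le_of_eq ?_)
  rw [add_comm (N + 1) D, Finset.sum_range_add, Finset.sum_eq_zero fun n hn =>
    h0 n (Finset.mem_range.1 hn), zero_add]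
  exact Finset.sum_congr rfl fun n _ => by rw [add_comm]

/-- **The bound of the class `cF t t'` at fixed half quanta** from the tilted bounds of its
choices. -/
theorem cls_le {C c b c1 c' : ℝ} {k : ℕ} (hC : 0 < C) (hc : 0 < c) (hb : 0 < b) (hc1 : 0 < c1)
    (hc' : 0 ≤ c') {δ : ℝ} (hδ : 0 < δ) :
    ∃ a0 : ℝ, 0 < a0 ∧ ∀ C' : ℝ, 0 ≤ C' → ∃ L0 : ℝ, ∀ L ≥ L0, ∀ ep : ℝ, 0 < ep → ep ≤ 1 / 100 →
      ∀ e1 : ℝ, 0 < e1 → e1 ≤ 1 / 4 → ∀ J : ℝ, 0 ≤ J →
      Real.exp (-(2 * Real.pi * J)) + 3 * e1 + 3 * ep ≤ a0 →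
      ∀ (P : NUO.Par), ParC P → ∀ (β : ℝ), 0 < β → β ≤ 4 / 3 → ∀ (M N : ℕ), M ≤ N →
      ∀ (cc : Bool → ℂ), (∀ a, ‖cc a‖ = 2 * Real.cos l) → ∀ (kF kP kF' kP' : ℂ → ℂ) (t t' : HT)
        (w w' : ℂ), w.re = htL t → w'.re = htL t' →
      ∀ (ν d : ℝ) (K : ℕ) (Q : Bool × Bool → ℝ), 0 < d → (∀ u, 0 ≤ Q u) →
      ((2 * K + (htM t t' - htD t' + (htM t t' - htD t)) + 1 : ℕ) : ℝ) ≤ Real.exp (2 * L) →
      (∀ u : Bool × Bool, (u.1 = true → htP t = true) → (u.2 = true → htP t' = true) →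
        PerGen C C' c b k c1 c' L ep e1 J ν d K (htM t t' - htD t' + (htM t t' - htD t))
          (TmV u.1.toNat u.2.toNat (obK M N β t t' w w' u.1 u.2) P
            (htM t t' - htD t') (htM t t' - htD t)) (Q u)) →
      ∑ n ∈ range (K + 1), ‖(cF (XM cc β M N true) (XM cc β M N false) kF kP kF' kP' t t').Z
        (XM cc β M N true) (XM cc β M N false) (3 / 5 * l) n n (lX P) (lY P) w w'‖ ≤
        4 * (1 + 1 / d) *
          ((∑ u : Bool × Bool, wK cc β M N t t' w w' u.1 u.2 * Q u) * Real.exp (δ * L)) := by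
  obtain ⟨a0, ha0, h⟩ := glue_U (k := k) hC hc hb hc1 hc' hδ
  refine ⟨a0, ha0, fun C' hC' => ?_⟩
  obtain ⟨L0, h⟩ := h C' hC'
  refine ⟨L0, fun L hL ep hep hep' e1 he1 he1' J hJ hsm P hP β hβ hβ' M N hMN cc hcc kF kP kF' kP'
    t t' w w' hw hw' ν d K Q hd hQ hK hPer => ?_⟩
  have key := h L hL ep hep.le (hep'.trans (by norm_num)) e1 he1 he1' J hJ hsm ν d K
    (htM t t' - htD t' + (htM t t' - htD t)) (Bool × Bool) inferInstance
    (fun u => ENNReal.ofReal (wK cc β M N t t' w w' u.1 u.2)) Q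
    (fun u => TmV u.1.toNat u.2.toNat (obK M N β t t' w w' u.1 u.2) P
        (htM t t' - htD t') (htM t t' - htD t)) _ hd hQ (fun u => ENNReal.ofReal_ne_top) hK
    (r4_cF hP hep hep' hβ hβ' hMN hcc kF kP kF' kP' t t' hw hw') (fun u hu => by
      by_cases hf : (u.1 = true → htP t = true) ∧ (u.2 = true → htP t' = true)
      · exact hPer u hf.1 hf.2
      · exact absurd (by unfold wK; rw [if_neg hf, ENNReal.ofReal_zero]) hu)
  have e1 : ∀ u : Bool × Bool, (ENNReal.ofReal (wK cc β M N t t' w w' u.1 u.2)).toReal =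
      wK cc β M N t t' w w' u.1 u.2 := fun u => ENNReal.toReal_ofReal (wK_nonneg _ _ _ _ _ _ _ _ _ _)
  simp only [e1] at key
  refine (sum_shift (D := htM t t') (fun n => norm_nonneg _) (fun n hn => ?_) K).trans key
  rw [cF_zero _ _ _ _ _ _ _ _ _ _ _ hn, norm_zero]

/-! ## classes without poles -/

/-- **the representation corollary of two half quanta without poles** -/
theorem r4_flat {N : ℕ} {q q' p p' : ℝ} {F F' : Bool → Option O3 → ℂ → ℂ} {T T' : Bool → ℂ → ℂ}
    (hP : ParC P) (hx0 : 0 < x) (hx1 : x ≤ 1 / 100) (hβ : 0 < β)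
    (hβ' : β ≤ 4 / 3) (hMN : M ≤ N) (hc : ∀ a, ‖cc a‖ = 2 * Real.cos l)
    (hF : HG false q p F T) (hF' : HG false q' p' F' T') {w w' : ℂ} (hw : w.re = p)
    (hw' : w'.re = p') {aX aY : ℕ} (hq : q' - q = 2 * ((aX : ℝ) - aY)) :
    R4Cof x (obC ((M : ℝ) + 1 / 2) N β fun a z => ThN z * ‖sG F F' w w' a z‖) P aX aY
      fun n => NURow.ZobjQ (XS true (XM cc β M N true) F (fl F') w w')
        (XS false (XM cc β M N false) F (fl F') w w') (3 / 5 * l) (n + aX) (n + aY)
        (lX P) (lY P) := by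
  have key := (r4_expl (x := x) (P := P) (c := cc) hP hx0 hx1 hβ hβ' hMN hc hF hF' hw hw' hq).gen
  have e : (fun (n : ℕ) (r : ℕ) (O : Fin r → Xo) (η η' : ℝ → ℝ) => ∑ u : Bool × Bool,
      (if (u.1 = true → false = true) ∧ (u.2 = true → false = true) then
        ENNReal.ofReal (wgt2 (GrX cc β M N (tG T T' w w')) w w' u.1 u.2) else 0) *
      TmV u.1.toNat u.2.toNat (obC ((M : ℝ) + 1 / 2) N β fun a z =>
        ThN z * ‖sV (sG F F' w w') w w' u.1 u.2 a z‖) P aX aY n r O η η') =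
      TmC (fun _ _ => obC ((M : ℝ) + 1 / 2) N β fun a z => ThN z * ‖sG F F' w w' a z‖)
        P aX aY := by
    funext n r O η η'
    rw [Fintype.sum_prod_type, Fintype.sum_bool, Fintype.sum_bool, Fintype.sum_bool]
    have e1 : (fun a z => ThN z * ‖sV (sG F F' w w') w w' false false a z‖) =
        fun a z => ThN z * ‖sG F F' w w' a z‖ := by
      funext a z
      simp [sV]
    simp [wgt2, TmV, TmC, e1]
  exact cast (congrArg (fun T => R4gen x (aX + aY) T _) e) key

theorem HG_one (p : ℝ) : HG false 0 p (fun _ _ _ => 1) (fun _ _ => 1) :=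
  HG_of (HQ_one p) mulI_one (by norm_num)

theorem HG_SD : HG false 0 (-(11 / 4) * l) SD (fun c => SD c none) :=
  HG_of HQ_SD_B mulI_SD (by norm_num)

/-- one body data of the classes D1 (`o = true`), D1' -/
def obD (M N : ℕ) (β : ℝ) (o : Bool) (w : ℂ) : OB :=
  obC ((M : ℝ) + 1 / 2) N β fun a z => ThN z * ‖SD (if o then a else !a) none (w - z)‖

/-- **the representation corollary of the classes D1, D1'** -/
theorem r4_cD {N : ℕ} (hP : ParC P) (hx0 : 0 < x) (hx1 : x ≤ 1 / 100) (hβ : 0 < β)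
    (hβ' : β ≤ 4 / 3) (hMN : M ≤ N) (hc : ∀ a, ‖cc a‖ = 2 * Real.cos l) (k : ℂ → ℂ) {w : ℂ}
    (hw : w.re = -(11 / 4) * l) :
    R4Cof x (obD M N β true w) P 0 0 (fun n => (cD k).Z (XM cc β M N true)
        (XM cc β M N false) (3 / 5 * l) n n (lX P) (lY P) w) ∧
    R4Cof x (obD M N β false w) P 0 0 (fun n => (cD' k).Z (XM cc β M N true)
        (XM cc β M N false) (3 / 5 * l) n n (lX P) (lY P) w) := by
  constructor
  · have key := r4_flat (x := x) (P := P) (cc := cc) hP hx0 hx1 hβ hβ' hMN hc HG_SD (HG_one 0) hw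
      (w' := 0) (by simp) (aX := 0) (aY := 0) (by norm_num)
    have e1 : (obC ((M : ℝ) + 1 / 2) N β fun a z => ThN z * ‖sG SD (fun _ _ _ => 1) w 0 a z‖) =
        obD M N β true w := by
      unfold obD
      congr 1
      funext a z
      simp [sG]
    rw [e1] at key
    exact key
  · have key := r4_flat (x := x) (P := P) (cc := cc) hP hx0 hx1 hβ hβ' hMN hc (HG_one 0) HG_SD
      (w := 0) (by simp) hw (aX := 0) (aY := 0) (by norm_num)
    have e1 : (obC ((M : ℝ) + 1 / 2) N β fun a z => ThN z * ‖sG (fun _ _ _ => 1) SD 0 w a z‖) =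
        obD M N β false w := by
      unfold obD
      congr 1
      funext a z
      simp [sG]
    have e2 : ∀ a (X : Option O3 → ℂ → ℂ), XS a X (fun _ _ _ => 1) (fl SD) 0 w =
        XS a X (fl SD) (fun _ _ _ => 1) w 0 := by
      intro a X
      funext k z
      unfold XS
      ring
    rw [e1, e2, e2] at key
    exact key

end NUGC

end
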