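import Pool.Agent.NUGC.ClsR4
import Pool.Agent.NUGC.AsmS

/-!
# The spectators of the final classes as families of elementary spectators

* `grp s t i τ`: the elementary spectators of a half quantum of species `s`, type `t`, height `τ`
  (`i` = with a quantum at the half quantum, type H);
* `norm_grp`: the modulus of its factor on a quantum of species `a` at `u`, `u` on the strips `DomC`;
* `Fnc_congr`: the terms only see `DomC`;
* `cls_le'`, `r4_cD'`: the bound of a class with the one body data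
  `obC (M + 1 / 2) N β (ThN * spL (famK ..))`.
-/

set_option autoImplicit false
set_option linter.unusedSectionVars false

noncomputable section

open Complex MeasureTheory Finset
open scoped ENNReal

namespace NUGC

open NUO NUP1 NUCR NUP1S NUP1S.Ab NUP1S.AbC NUP1S.AbG NURow NUP1.Leg

/-- the strips where the one body functions of a configuration are evaluated -/
def DomC : Set ℂ := {z | z.re = -(1 / 2 * l) ∨ z.re = -(3 / 2 * l) ∨
  z.re ∈ Set.Icc (-(13 / 10 * l)) (-(5 / 4 * l)) ∨ z.re ∈ Set.Icc (-(23 / 10 * l)) (-(9 / 4 * l)) ∨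
  z.re ∈ Set.Icc (13 / 20 * l) (21 / 20 * l)}

/-! ## identities at generic points -/

theorem sin_re_ne {z : ℂ} {x : ℝ} (h : z.re = x) (h0 : Real.sin x ≠ 0) : sin z ≠ 0 :=
  sinC_ne h h0

/-- a half quantum and the captured quantum at distance `3 l`, other species -/
theorem Dk_q {x : ℂ} (h1 : cos x ≠ 0) (h2 : sin (3 * l - x) ≠ 0) (h3 : sin (3 * l + x) ≠ 0) :
    Dk x * q (x + 3 * l) = Ck (-x - 3 * l) := by
  have e1 : sin (x + 3 * l + 2 * l) = sin (3 * l - x) := by
    rw [show x + 3 * l + 2 * l = -(3 * l - x) + 8 * l by ring]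
    have := sin_sub_8l (-(3 * l - x) + 8 * l)
    rw [add_sub_cancel_right, Complex.sin_neg] at this
    exact neg_injective this.symm
  have e2 : sin (x + 3 * l - 2 * l) = sin (x + l) := by
    congr 1
    ring
  have e3 : sin (x + 3 * l + l) = cos x := by
    rw [← sin_4l]
    congr 1
    ring
  have e4 : sin (x + 3 * l - l) = sin (x + 2 * l) := by
    congr 1
    ring
  have e5 : sin (x + 3 * l) = sin (3 * l + x) := by rw [add_comm]
  unfold Dk q Ck
  rw [e1, e2, e3, e4, e5, show -x - 3 * l + 2 * l = -(x + l) by ring,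
    show -x - 3 * l + l = -(x + 2 * l) by ring, show -x - 3 * l = -(3 * l + x) by ring,
    Complex.sin_neg, Complex.sin_neg, Complex.sin_neg]
  by_cases h4 : sin (x + 2 * l) = 0
  · simp [h4]
  field_simp

/-- D1, own species: the factors cancel -/
theorem Dk_Ck {x : ℂ} (h1 : cos x ≠ 0) (h2 : sin (3 * l - x) ≠ 0) (h3 : sin (3 * l + x) ≠ 0) :
    Ck (x + 3 * l) * Dk x = 1 := by
  have e1 : sin (x + 3 * l + 2 * l) = sin (3 * l - x) := by
    rw [show x + 3 * l + 2 * l = -(3 * l - x) + 8 * l by ring]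
    have := sin_sub_8l (-(3 * l - x) + 8 * l)
    rw [add_sub_cancel_right, Complex.sin_neg] at this
    exact neg_injective this.symm
  have e3 : sin (x + 3 * l + l) = cos x := by
    rw [← sin_4l]
    congr 1
    ring
  have e5 : sin (x + 3 * l) = sin (3 * l + x) := by rw [add_comm]
  unfold Dk Ck
  rw [e1, e3, e5]
  field_simp

/-- a string of the species of the quantum -/
theorem host_q {x : ℂ} (h1 : sin (2 * l - x) ≠ 0) (h2 : sin (3 * l - x) ≠ 0)
    (h3 : sin (l - x) ≠ 0) (h4 : sin (4 * l - x) ≠ 0) :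
    gz (false, .S) (false, .A) (x - 2 * l) = q (x - 2 * l) * q (x - 3 * l) := by
  have e0 : gz (false, .S) (false, .A) (x - 2 * l) = q1 (2 * l - x) := by
    show q1 (-(x - 2 * l)) = _
    rw [neg_sub]
  have e1 := q1_eq (z := 2 * l - x) h1 (by rw [show 2 * (l : ℂ) - x + l = 3 * l - x by ring]; exact h2)
    (by rw [show 2 * (l : ℂ) - x - l = l - x by ring]; exact h3)
    (by rw [show 2 * (l : ℂ) - x + 2 * l = 4 * l - x by ring]; exact h4)
  rw [e0, ← e1, ← q_neg (x - 2 * l), ← q_neg (x - 3 * l), neg_sub, neg_sub,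
    show 2 * (l : ℂ) - x + l = 3 * l - x by ring]

/-! ## a group -/

/-- the elementary spectators of a half quantum of species `s`, type `t`, height `τ` -/
def grp (s : Bool) (t : HT) (i : Bool) (τ : ℝ) : List Spt :=
  match t with
  | .W => [(s, .h5, τ)]
  | .F => [(s, .hm, τ)]
  | .P => [(s, .hm, τ), (!s, .q1, τ)]
  | .H => if i then [(s, .hs, τ), (!s, .sr, τ), (s, .qs, τ)] else [(s, .hs, τ), (!s, .sr, τ)]

/-- modulus of the factor of a list of spectators -/
def spL (L : List Spt) (s : Bool) (u : ℂ) : ℝ := (L.map fun d => d.f s u).prod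

theorem spM_get (L : List Spt) (s : Bool) (u : ℂ) : spM L.get s u = spL L s u := by
  unfold spM spL
  rw [← List.prod_ofFn]
  congr 1
  conv_rhs => rw [← List.ofFn_get L]
  rw [List.map_ofFn]
  rfl

theorem spL_append (L L' : List Spt) (s : Bool) (u : ℂ) : spL (L ++ L') s u = spL L s u * spL L' s u := by
  unfold spL
  rw [List.map_append, List.prod_append]

theorem vl_ps (k : Ek) {x : ℝ} (h : 1 + k.x = x) (τ : ℝ) : vl (k.ps * l) τ = vl (x * l) τ := by
  unfold Ek.ps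
  rw [h]

theorem sin_dom {z : ℂ} {y : ℝ} (h : z.re = y)
    (h' : (0 < y ∧ y < 8 * l) ∨ (y < 0 ∧ -(8 * l) < y)) : sin z ≠ 0 := by
  refine sin_re_ne h ?_
  rcases h' with h' | h'
  · exact NURow.sin_ne_pos h'.1 h'.2
  · exact NURow.sin_ne_neg h'.1 h'.2

theorem cos_dom {z : ℂ} {y : ℝ} (h : 4 * l + z.re = y)
    (h' : (0 < y ∧ y < 8 * l) ∨ (y < 0 ∧ -(8 * l) < y)) : cos z ≠ 0 := by
  rw [← sin_4l]
  refine sin_dom (y := y) ?_ h'
  rw [← h]
  simp

theorem vl_re' (σ t : ℝ) : (vl σ t).re = σ := by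
  unfold vl
  simp

/-- the sines at `-11/4 l` -/
theorem dom_m {u : ℂ} (hu : u ∈ DomC) (τ : ℝ) :
    cos (vl (-(11 / 4) * l) τ - u) ≠ 0 ∧ sin (3 * l - (vl (-(11 / 4) * l) τ - u)) ≠ 0 ∧
    sin (3 * l + (vl (-(11 / 4) * l) τ - u)) ≠ 0 ∧ sin (vl (-(11 / 4) * l) τ - u) ≠ 0 := by
  have hl := l_pos
  have r0 : (vl (-(11 / 4) * l) τ - u).re = -(11 / 4) * l - u.re := by rw [sub_re, vl_re']
  have r1 : (3 * (l : ℂ) - (vl (-(11 / 4) * l) τ - u)).re = 3 * l - (-(11 / 4) * l - u.re) := by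
    rw [sub_re, r0]
    simp
  have r2 : (3 * (l : ℂ) + (vl (-(11 / 4) * l) τ - u)).re = 3 * l + (-(11 / 4) * l - u.re) := by
    rw [add_re, r0]
    simp
  refine ⟨cos_dom (by rw [r0]) ?_, sin_dom r1 ?_, sin_dom r2 ?_, sin_dom r0 ?_⟩
  all_goals
    rcases hu with h | h | h | h | h
    all_goals first
      | exact Or.inl ⟨by linarith, by linarith⟩
      | exact Or.inr ⟨by linarith, by linarith⟩
      | exact Or.inl ⟨by linarith [h.1, h.2], by linarith [h.1, h.2]⟩
      | exact Or.inr ⟨by linarith [h.1, h.2], by linarith [h.1, h.2]⟩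

/-- the sines at `5/8 l` -/
theorem dom_s {u : ℂ} (hu : u ∈ DomC) (τ : ℝ) :
    sin (2 * l - (vl (5 / 8 * l) τ - u)) ≠ 0 ∧ sin (3 * l - (vl (5 / 8 * l) τ - u)) ≠ 0 ∧
    sin (l - (vl (5 / 8 * l) τ - u)) ≠ 0 ∧ sin (4 * l - (vl (5 / 8 * l) τ - u)) ≠ 0 := by
  have hl := l_pos
  have r0 : (vl (5 / 8 * l) τ - u).re = 5 / 8 * l - u.re := by rw [sub_re, vl_re']
  have r1 : ∀ c : ℝ, ((c : ℂ) * (l : ℂ) - (vl (5 / 8 * l) τ - u)).re =
      c * l - (5 / 8 * l - u.re) := by
    intro c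
    rw [sub_re, r0, ← ofReal_mul, ofReal_re]
  have k1 := r1 2
  have k2 := r1 3
  have k3 := r1 1
  have k4 := r1 4
  push_cast at k1 k2 k3 k4
  rw [one_mul] at k3
  refine ⟨sin_dom k1 ?_, sin_dom k2 ?_, sin_dom k3 ?_, sin_dom k4 ?_⟩
  all_goals
    rcases hu with h | h | h | h | h
    all_goals first
      | exact Or.inl ⟨by linarith, by linarith⟩
      | exact Or.inr ⟨by linarith, by linarith⟩
      | exact Or.inl ⟨by linarith [h.1, h.2], by linarith [h.1, h.2]⟩
      | exact Or.inr ⟨by linarith [h.1, h.2], by linarith [h.1, h.2]⟩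

theorem hq_SF (s a : Bool) (w u : ℂ) : ‖SF (a == s) none (w - u)‖ = hq s w a u := by
  cases a <;> cases s <;> rfl

/-- **the modulus of the factor of a half quantum on a quantum of species `a`** -/
theorem norm_grp (s a : Bool) (t : HT) (i : Bool) (hi : i = true → htP t = true) (τ : ℝ) {u : ℂ}
    (hu : u ∈ DomC) :
    ‖htF t (a == s) none (vl (htL t) τ - u)‖ *
      (if i then ‖PP a s (u - vl (htL t) τ)‖ else 1) = spL (grp s t i τ) a u := by
  cases t
  · have h0 : i = false := by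
      cases i
      · rfl
      · exact absurd (hi rfl) (by decide)
    subst h0
    show ‖SF (a == s) none (vl (5 / 4 * l) τ - u)‖ * 1 = hq s (vl (Ek.ps .h5 * l) τ) a u * 1
    rw [hq_SF, vl_ps .h5 (x := 5 / 4) (by norm_num [Ek.x])]
  · have h0 : i = false := by
      cases i
      · rfl
      · exact absurd (hi rfl) (by decide)
    subst h0
    show ‖SF (a == s) none (vl (-(11 / 4) * l) τ - u)‖ * 1 = hq s (vl (Ek.ps .hm * l) τ) a u * 1
    rw [hq_SF, vl_ps .hm (x := -(11 / 4)) (by norm_num [Ek.x])]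
  · have h0 : i = false := by
      cases i
      · rfl
      · exact absurd (hi rfl) (by decide)
    subst h0
    obtain ⟨d1, d2, d3, -⟩ := dom_m hu τ
    show ‖SP (a == s) none (vl (-(11 / 4) * l) τ - u)‖ * 1 =
      hq s (vl (Ek.ps .hm * l) τ) a u * (sq (!s) (vl (Ek.ps .q1 * l) τ) a u * 1)
    rw [vl_ps .hm (x := -(11 / 4)) (by norm_num [Ek.x]), vl_ps .q1 (x := 1 / 4)
      (by norm_num [Ek.x])]
    have hv : vl (1 / 4 * l) τ - u = vl (-(11 / 4) * l) τ - u + 3 * l := by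
      unfold vl
      push_cast
      ring
    have hown : ‖CP (vl (-(11 / 4) * l) τ - u)‖ = ‖Ck (vl (-(11 / 4) * l) τ - u)‖ *
        ‖Bd.qg (vl (1 / 4 * l) τ - u)‖ := by
      rw [hv, ← norm_mul]
      rfl
    have hoth : ‖DP (vl (-(11 / 4) * l) τ - u)‖ = ‖Dk (vl (-(11 / 4) * l) τ - u)‖ *
        ‖q (vl (1 / 4 * l) τ - u)‖ := by
      rw [hv, ← norm_mul, Dk_q d1 d2 d3]
      rfl
    rw [mul_one, mul_one]
    cases a <;> cases s
    · exact hown
    · exact hoth
    · exact hoth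
    · exact hown
  · obtain ⟨d1, d2, d3, d4⟩ := dom_s hu τ
    have p1 : vl (Ek.ps .hs * l) τ = vl (5 / 8 * l) τ := vl_ps .hs (by norm_num [Ek.x]) τ
    have p2 : vl (Ek.ps .sr * l) τ - u = vl (5 / 8 * l) τ - u - 2 * l := by
      rw [vl_ps .sr (x := -(11 / 8)) (by norm_num [Ek.x])]
      unfold vl
      push_cast
      ring
    have p3 : vl ((Ek.ps .sr - 1) * l) τ - u = vl (5 / 8 * l) τ - u - 3 * l := by
      have : (Ek.ps .sr - 1) * l = -(19 / 8) * l := by
        unfold Ek.ps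
        norm_num [Ek.x]
      rw [this]
      unfold vl
      push_cast
      ring
    have p4 : vl (Ek.ps .qs * l) τ = vl (5 / 8 * l) τ := vl_ps .qs (by norm_num [Ek.x]) τ
    -- the half quantum with its host
    have hhost : ‖hostS false SF (a == s) none (vl (5 / 8 * l) τ - u)‖ =
        hq s (vl (Ek.ps .hs * l) τ) a u * (sq (!s) (vl (Ek.ps .sr * l) τ) a u *
          sq (!s) (vl ((Ek.ps .sr - 1) * l) τ) a u) := by
      have hown : ‖hostS false SF true none (vl (5 / 8 * l) τ - u)‖ =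
          ‖Ck (vl (5 / 8 * l) τ - u)‖ * (‖Bd.qg (vl (Ek.ps .sr * l) τ - u)‖ *
            ‖Bd.qg (vl ((Ek.ps .sr - 1) * l) τ - u)‖) := by
        rw [p2, p3, ← norm_mul, ← norm_mul]
        congr 1
        show Bd.qg (vl (5 / 8 * l) τ - u - 2 * l) * Bd.qg (vl (5 / 8 * l) τ - u - 2 * l - l) *
          Ck (vl (5 / 8 * l) τ - u) = _
        rw [show vl (5 / 8 * l) τ - u - 2 * (l : ℂ) - l = vl (5 / 8 * l) τ - u - 3 * l by ring]
        ring
      have hoth : ‖hostS false SF false none (vl (5 / 8 * l) τ - u)‖ =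
          ‖Dk (vl (5 / 8 * l) τ - u)‖ * (‖q (vl (Ek.ps .sr * l) τ - u)‖ *
            ‖q (vl ((Ek.ps .sr - 1) * l) τ - u)‖) := by
        rw [p2, p3, ← norm_mul, ← norm_mul]
        congr 1
        show gz (false, .S) (false, .A) (vl (5 / 8 * l) τ - u - 2 * l) *
          Dk (vl (5 / 8 * l) τ - u) = _
        rw [host_q d1 d2 d3 d4]
        ring
      rw [p1]
      cases a <;> cases s
      · exact hown
      · exact hoth
      · exact hoth
      · exact hown
    have hpp : ‖PP a s (u - vl (5 / 8 * l) τ)‖ = sq s (vl (Ek.ps .qs * l) τ) a u := by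
      rw [p4, ← PP_neg, neg_sub]
      cases a <;> cases s <;> rfl
    cases i
    · show ‖hostS false SF (a == s) none (vl (5 / 8 * l) τ - u)‖ * 1 =
        hq s (vl (Ek.ps .hs * l) τ) a u * ((sq (!s) (vl (Ek.ps .sr * l) τ) a u *
          sq (!s) (vl ((Ek.ps .sr - 1) * l) τ) a u) * 1)
      rw [hhost, mul_one, mul_one]
    · show ‖hostS false SF (a == s) none (vl (5 / 8 * l) τ - u)‖ *
          ‖PP a s (u - vl (5 / 8 * l) τ)‖ =
        hq s (vl (Ek.ps .hs * l) τ) a u * ((sq (!s) (vl (Ek.ps .sr * l) τ) a u *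
          sq (!s) (vl ((Ek.ps .sr - 1) * l) τ) a u) * (sq s (vl (Ek.ps .qs * l) τ) a u * 1))
      rw [hhost, hpp]
      ring

/-! ## the terms only see `DomC` -/

section congr
variable {r : ℕ} {P : NUO.Par} {B B' : OB} {ep : ℝ}

theorem ob1c_congr (hR : ∀ a, ∀ z ∈ DomC, B.R a z = B'.R a z) (hφ : B.φ = B'.φ)
    (hφ0 : B.φ0 = B'.φ0) {e ρ : ℝ} (he : 1 / 4 ≤ e) (he' : e ≤ 3 / 10) (hρ : 0 ≤ ρ)
    (hρ' : ρ ≤ l / 20) (x : Xo) : ob1c B (9 / 4) e ρ x = ob1c B' (9 / 4) e ρ x := by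
  have hl := l_pos
  have dL : posL (9 / 4) (ht x) ∈ DomC := by
    refine Or.inr (Or.inr (Or.inl ?_))
    unfold posL
    rw [vl_re']
    exact ⟨by linarith, by linarith⟩
  have dT : posT (ht x) ∈ DomC := by
    refine Or.inl ?_
    unfold posT
    rw [vl_re']
  have dT' : posT (ht x) - l ∈ DomC := by
    refine Or.inr (Or.inl ?_)
    unfold posT
    rw [sub_re, vl_re', ofReal_re]
    ring
  have dS : posS e (ht x) ∈ DomC := by
    refine Or.inr (Or.inr (Or.inl ?_))
    unfold posS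
    rw [vl_re']
    exact ⟨by nlinarith, by nlinarith⟩
  have dS' : posS e (ht x) - l ∈ DomC := by
    refine Or.inr (Or.inr (Or.inr (Or.inl ?_)))
    unfold posS
    rw [sub_re, vl_re', ofReal_re]
    exact ⟨by nlinarith, by nlinarith⟩
  have dV0 : posS e (ht x) + 2 * l ∈ DomC := by
    refine Or.inr (Or.inr (Or.inr (Or.inr ?_)))
    have : (posS e (ht x) + 2 * (l : ℂ)).re = (1 - e) * l := by
      unfold posS
      rw [add_re, vl_re']
      simp
      ring
    rw [this]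
    exact ⟨by nlinarith, by nlinarith⟩
  have dV : posV e ρ (ht x) (an x) ∈ DomC := by
    refine Or.inr (Or.inr (Or.inr (Or.inr ?_)))
    rw [posV_re']
    have h1 := Real.abs_cos_le_one (2 * Real.pi * an x)
    have h2 : |ρ * Real.cos (2 * Real.pi * an x)| ≤ l / 20 := by
      rw [abs_mul, abs_of_nonneg hρ]
      calc ρ * |Real.cos (2 * Real.pi * an x)| ≤ ρ * 1 := mul_le_mul_of_nonneg_left h1 hρ
        _ ≤ l / 20 := by linarith
    obtain ⟨h3, h4⟩ := abs_le.1 h2
    exact ⟨by nlinarith, by nlinarith⟩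
  unfold ob1c oSc
  rcases hk : NUO.kd x with _ | _ | _ | _ | _ <;> simp only []
  · rw [hR _ _ dL, hφ]
  · rw [hR _ _ dT, hR _ _ dT', hφ, hφ0]
  · rw [hR _ _ dS, hR _ _ dS', hφ0]
  · rw [hR _ _ dS, hR _ _ dS', hR _ _ dV, hφ, hφ0]
  · rw [hR _ _ dS, hR _ _ dS', hR _ _ dV0, hφ, hφ0]

theorem Fnc_congr (hP : ParC P) (hj : P.jL = 9 / 4) (he : P.e = 1 / 4)
    (hR : ∀ a, ∀ z ∈ DomC, B.R a z = B'.R a z) (hφ : B.φ = B'.φ)
    (hφ0 : B.φ0 = B'.φ0) (hep : 0 ≤ ep) (hep' : ep ≤ 1 / 100) {η η' : ℝ → ℝ}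
    (hη : CurB ep η η') (nX nY : ℕ) (O : Fin r → Xo) :
    Fnc B P η η' nX nY O = Fnc B' P η η' nX nY O := by
  have hl := l_pos
  have h1 : ∀ i, ob1c B P.jL (ei P O i) (rr P O i) (O i) =
      ob1c B' P.jL (ei P O i) (rr P O i) (O i) := by
    intro i
    have e2 := hP.e2 r
    have d0 := hP.d0 r
    obtain ⟨g1, g2⟩ := ei_mem' hP.d0 O i
    have hρ0 : 0 ≤ rr P O i := (hP.r0 _ _).le
    have hρ : rr P O i ≤ l * P.d r / (8 * (r + 1)) := hP.r1 _ _
    have hr : (0 : ℝ) ≤ r := by positivity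
    have hρ' : l * P.d r / (8 * (r + 1)) ≤ l / 20 := by
      rw [div_le_iff₀ (by positivity)]
      nlinarith [mul_nonneg hl.le hr]
    rw [hj]
    exact ob1c_congr hR hφ hφ0 (by linarith) (by linarith) hρ0 (hρ.trans hρ') _
  have h2 : objWc B P O = objWc B' P O := by
    unfold objWc
    rw [Finset.prod_congr rfl fun i _ => h1 i]
  have h3 : ∀ a, qAc B P η O a = qAc B' P η O a := by
    intro a
    funext t
    unfold qAc
    have : NUO.pA η t ∈ DomC := by
      refine Or.inr (Or.inr (Or.inr (Or.inr ?_)))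
      have h4 := abs_le.1 (hη.h1 t)
      have h5 : (NUO.pA η t).re = l - η t := by
        unfold NUO.pA vl
        simp
      rw [h5]
      exact ⟨by nlinarith [h4.1], by nlinarith [h4.2]⟩
    rw [hR _ _ this, hφ]
  unfold Fnc Z1c
  rw [h2, h3, h3]

theorem perGen_congr {C C' c b : ℝ} {k : ℕ} {c1 c' L e1 J ν d : ℝ} {N a : ℕ} {m m' aX aY : ℕ}
    {Q : ℝ} (hP : ParC P) (hj : P.jL = 9 / 4) (he : P.e = 1 / 4)
    (hR : ∀ a, ∀ z ∈ DomC, B.R a z = B'.R a z) (hφ : B.φ = B'.φ)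
    (hφ0 : B.φ0 = B'.φ0) (hep : 0 ≤ ep) (hep' : ep ≤ 1 / 100)
    (h : PerGen C C' c b k c1 c' L ep e1 J ν d N a (TmV m m' B P aX aY) Q) :
    PerGen C C' c b k c1 c' L ep e1 J ν d N a (TmV m m' B' P aX aY) Q := by
  intro n hn b' hb' r hr O
  obtain ⟨η, η', hcur, hb⟩ := h n hn b' hb' r hr O
  refine ⟨η, η', hcur, fun W => ?_⟩
  have e : TmV m m' B' P aX aY n r O η η' = TmV m m' B P aX aY n r O η η' := by
    unfold TmV
    split_ifs
    · exact (Fnc_congr hP hj he hR hφ hφ0 hep hep' hcur _ _ O).symm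
    · rfl
  rw [e]
  exact hb W

end congr

/-! ## the classes -/

/-- the elementary spectators of the class `t, t'` with the choice `i, i'` -/
def famK (t t' : HT) (i i' : Bool) (τ τ' : ℝ) : List Spt := grp true t i τ ++ grp false t' i' τ'

/-- the elementary spectators of the classes D1 (`o = true`), D1' -/
def famD (o : Bool) (τ : ℝ) : List Spt := [(o, .h1, τ), (!o, .hm, τ)]

/-- the one body data with a list of elementary spectators -/
def obS (M N : ℕ) (β : ℝ) (L : List Spt) : OB :=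
  obC ((M : ℝ) + 1 / 2) N β fun a z => ThN z * spL L a z

theorem obS_spM (M N : ℕ) (β : ℝ) (L : List Spt) :
    obS M N β L = obC ((M : ℝ) + 1 / 2) N β fun a z => ThN z * spM L.get a z := by
  unfold obS
  simp only [spM_get]

theorem obK_eq (M N : ℕ) (β : ℝ) {t t' : HT} {i i' : Bool} (hi : i = true → htP t = true)
    (hi' : i' = true → htP t' = true) (τ τ' : ℝ) (a : Bool) {z : ℂ} (hz : z ∈ DomC) :
    (obK M N β t t' (vl (htL t) τ) (vl (htL t') τ') i i').R a z =
      (obS M N β (famK t t' i i' τ τ')).R a z := by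
  show Rrow _ z * (ThN z * ‖sV (sG (htF t) (htF t') (vl (htL t) τ) (vl (htL t') τ'))
    (vl (htL t) τ) (vl (htL t') τ') i i' a z‖) = Rrow _ z * (ThN z * spL (famK t t' i i' τ τ') a z)
  congr 2
  unfold famK
  rw [spL_append, ← norm_grp true a t i hi τ hz, ← norm_grp false a t' i' hi' τ' hz]
  unfold sV sG
  rw [norm_mul, norm_mul, norm_mul]
  have e1 : (a == true) = a := by cases a <;> rfl
  have e2 : (a == false) = !a := by cases a <;> rfl
  have e3 : ∀ (b : Bool) (x : ℂ), ‖(if b then x else 1)‖ = if b then ‖x‖ else 1 := by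
    intro b x
    cases b <;> simp
  rw [e1, e2, e3, e3]
  ring

theorem obD_eq (M N : ℕ) (β : ℝ) (o : Bool) (τ : ℝ) (a : Bool) {z : ℂ} (hz : z ∈ DomC) :
    (obD M N β o (vl (-(11 / 4) * l) τ)).R a z = (obS M N β (famD o τ)).R a z := by
  show Rrow _ z * (ThN z * ‖SD (if o then a else !a) none (vl (-(11 / 4) * l) τ - z)‖) =
    Rrow _ z * (ThN z * (hq o (vl (Ek.ps .h1 * l) τ) a z *
      (hq (!o) (vl (Ek.ps .hm * l) τ) a z * 1)))
  congr 2
  rw [mul_one, vl_ps .hm (x := -(11 / 4)) (by norm_num [Ek.x]), vl_ps .h1 (x := 1 / 4)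
      (by norm_num [Ek.x])]
  obtain ⟨d1, d2, d3, d4⟩ := dom_m hz τ
  have hv : vl (1 / 4 * l) τ - z = vl (-(11 / 4) * l) τ - z + 3 * l := by
    unfold vl
    push_cast
    ring
  have k1 : ‖(1 : ℂ)‖ = ‖Ck (vl (1 / 4 * l) τ - z)‖ * ‖Dk (vl (-(11 / 4) * l) τ - z)‖ := by
    rw [hv, ← norm_mul, Dk_Ck d1 d2 d3]
  have k2 : ‖Tk (vl (-(11 / 4) * l) τ - z)‖ = ‖Dk (vl (1 / 4 * l) τ - z)‖ *
      ‖Ck (vl (-(11 / 4) * l) τ - z)‖ := by
    rw [hv, ← norm_mul, Tk_eq d4]
  cases o <;> cases a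
  · exact k1
  · exact k2
  · exact k2
  · exact k1

/-- shift of the number of quanta of a choice -/
def shK (t t' : HT) (i i' : Bool) : ℕ := if htP t ∧ htP t' ∧ (i ∨ i') then 1 else 0

/-- **The tilted bound of the terms of `cls_le` from `PerCof` with the elementary spectators.** -/
theorem perK_of {C C' c b : ℝ} {k : ℕ} {c1 c' L ep e1 J ν d : ℝ} {N : ℕ} {P : NUO.Par}
    {M K : ℕ} {β : ℝ} {t t' : HT} {i i' : Bool} {τ τ' Q : ℝ} (hP : ParC P) (hj : P.jL = 9 / 4)
    (he : P.e = 1 / 4) (hep : 0 ≤ ep) (hep' : ep ≤ 1 / 100) (hC : 0 ≤ C) (hC' : 0 ≤ C')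
    (hL : 0 ≤ L) (hQ : 0 ≤ Q) (hi : i = true → htP t = true) (hi' : i' = true → htP t' = true)
    (h : PerCof C C' c b k c1 c' L ep e1 J (ν - shK t t' i i') d N
      (obS M K β (famK t t' i i' τ τ')) P (htM t t' - htD t' + shK t t' i i' - i.toNat)
      (htM t t' - htD t + shK t t' i i' - i'.toNat) Q) :
    PerGen C C' c b k c1 c' L ep e1 J ν d N (htM t t' - htD t' + (htM t t' - htD t))
      (TmV i.toNat i'.toNat (obK M K β t t' (vl (htL t) τ) (vl (htL t') τ') i i') P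
        (htM t t' - htD t') (htM t t' - htD t)) Q := by
  refine perGen_congr (B := obS M K β (famK t t' i i' τ τ')) hP hj he
    (fun a z hz => (obK_eq M K β hi hi' τ τ' a hz).symm) rfl rfl hep hep' ?_
  refine perGen_V (s := shK t t' i i') hep hC hC' hL hQ ?_ ?_ ?_ h
  · cases t <;> cases t' <;> cases i <;> cases i' <;> simp_all [shK, htM, htD, htP]
  · cases t <;> cases t' <;> cases i <;> cases i' <;> simp_all [shK, htM, htD, htP]
  · cases t <;> cases t' <;> cases i <;> cases i' <;> simp_all [shK, htM, htD, htP]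

/-- **The tilted bound of D1, D1' from `PerCof` with the elementary spectators.** -/
theorem perD_of {C C' c b : ℝ} {k : ℕ} {c1 c' L ep e1 J ν d : ℝ} {N : ℕ} {P : NUO.Par}
    {M K : ℕ} {β : ℝ} {o : Bool} {τ Q : ℝ} (hP : ParC P) (hj : P.jL = 9 / 4)
    (he : P.e = 1 / 4) (hep : 0 ≤ ep) (hep' : ep ≤ 1 / 100)
    (h : PerCof C C' c b k c1 c' L ep e1 J ν d N (obS M K β (famD o τ)) P 0 0 Q) :
    PerCof C C' c b k c1 c' L ep e1 J ν d N (obD M K β o (vl (-(11 / 4) * l) τ)) P 0 0 Q := by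
  intro n hn b' hb' r hr O
  obtain ⟨η, η', hcur, hb⟩ := h n hn b' hb' r hr O
  refine ⟨η, η', hcur, fun W => ?_⟩
  have e : TmC (fun _ _ => obD M K β o (vl (-(11 / 4) * l) τ)) P 0 0 n r O η η' =
      TmC (fun _ _ => obS M K β (famD o τ)) P 0 0 n r O η η' :=
    Fnc_congr hP hj he (fun a z hz => obD_eq M K β o τ a hz) rfl rfl hep hep' hcur _ _ O
  rw [e]
  exact hb W

end NUGC

end
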