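import Pool.Agent.NUGC.GdC
import Pool.Agent.NUGC.ShlF

/-!
# The one body factors in the bulk for groups beyond the window

`exists_gdF`: the one body factors of `inC` satisfy `NUS4C.GD` also for bare and neutral groups beyond
the end of the window (heights at most `log² m`): in the bulk the factor at the pinned heights with its
rest is the factor at the true heights, up to constants.

`cfC_le`: the decay of the cutoff with the far factor, with the constant `DCg` at the end `TW` of the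
window, for every excess `x`.
-/

set_option autoImplicit false
set_option linter.unusedSectionVars false

open MeasureTheory Set Filter Topology

namespace NUGC

open NUO (Xo ht Par Tb TW excS chgO)
open NUSea.H0

noncomputable section

/-! ### `GD` depends only on the bulk -/

/-- `GD` depends only on the values of the one body factors in the bulk -/
theorem gd_congr [NUSea.Sea] {m k : ℕ} {κ e w s R b : ℝ} {ηX ηX1 ηY ηY1 aX aY aX' aY' : ℝ → ℝ}
    (h : NUS4C.GD m k κ e w s R b ηX ηX1 ηY ηY1 aX aY) (hX : ∀ x, |x| ≤ b → aX' x = aX x)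
    (hY : ∀ x, |x| ≤ b → aY' x = aY x) (hX0 : ∀ x, 0 ≤ aX' x) (hY0 : ∀ x, 0 ≤ aY' x)
    (hXm : Measurable aX') (hYm : Measurable aY') :
    NUS4C.GD m k κ e w s R b ηX ηX1 ηY ηY1 aX' aY' where
  s1 := h.s1
  s2 := h.s2
  R1 := h.R1
  R2 := h.R2
  b1 := h.b1
  b2 := h.b2
  cX := h.cX
  cY := h.cY
  dX := h.dX
  dY := h.dY
  aX0 := hX0
  aY0 := hY0
  aXm := hXm
  aYm := hYm
  fX := by
    obtain ⟨A, Ar, F, Er, h1, h2, h3, h4, h5, h6⟩ := h.fX
    exact ⟨A, Ar, F, Er, h1, h2, h3, h4, h5, fun x hx => (hX x hx).trans (h6 x hx)⟩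
  fY := by
    obtain ⟨A, Ar, F, Er, h1, h2, h3, h4, h5, h6⟩ := h.fY
    exact ⟨A, Ar, F, Er, h1, h2, h3, h4, h5, fun x hx => (hY x hx).trans (h6 x hx)⟩

variable [NUSea.Sea]

/-! ### the data at the true heights -/

/-- the data with the groups at the true heights -/
def inT (e1 J : ℝ) (m : ℕ) (T1 b' : ℝ) {G : ℕ} (g : Fin G → Gd) (B1 : ℝ → ℝ) : Inp :=
  { inC e1 J m T1 b' g B1 with
    A := fun a z => NUSp.DD pE qE (List.ofFn fun i => (g i).G) a z }

/-- the real rest at the true heights: constants -/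
def raT (T1 b' : ℝ) {G : ℕ} (g : Fin G → Gd) (a : Bool) (_ : ℝ) : ℝ := -cstF T1 g a - b' / 2

/-- the potentials of the ends and of the groups are admissible -/
theorem ext_DDg {G : ℕ} (g : Fin G → Gd) {b : ℝ} (hb : b ≤ NUMF.l / 7) (a : Bool) :
    NUAct.Ext b fun z => NUSp.DD pE qE (List.ofFn fun i => (g i).G) a z := by
  have hl := NUMF.l_pos
  have h1 : NUAct.Ext b (NUSp.th pE qE) := by
    have h2 := NUSp.potB_th (b := NUMF.l / 6) (δ := 1 / 4) (by positivity) (by linarith)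
      (away_p pE_re) (away_q qE_re) (by rw [pE_im, qE_im])
    exact NUSp.ext_of_potB h2 (by linarith)
  have h3 : ∀ i, NUAct.Ext b (NUSp.gp a (g i).G) := fun i =>
    NUSp.ext_gp (b := NUMF.l / 6) (δ := 1 / 4) (by positivity) (by linarith) a (g i).ok (by linarith)
  obtain ⟨A1, hA1⟩ := h1.bd
  choose A hA using fun i => (h3 i).bd
  have e : (fun z => NUSp.DD pE qE (List.ofFn fun i => (g i).G) a z) =
      fun z => NUSp.th pE qE z + ∑ i, NUSp.gp a (g i).G z := by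
    funext z
    unfold NUSp.DD
    rw [List.map_ofFn, List.sum_ofFn]
    rfl
  rw [e]
  refine ⟨fun z hz => (h1.diff z hz).add (DifferentiableAt.fun_sum fun i _ => (h3 i).diff z hz),
    A1 + ∑ i, A i, fun z hz => ?_⟩
  rw [add_mul, Finset.sum_mul]
  exact (norm_add_le _ _).trans (add_le_add (hA1 z hz)
    ((norm_sum_le _ _).trans (Finset.sum_le_sum fun i _ => hA i z hz)))

/-- the geometry at the true heights -/
theorem geo_T {e1 J : ℝ} {m : ℕ} {T1 b' : ℝ} {G : ℕ} {g : Fin G → Gd} {B1 : ℝ → ℝ} {P : Par} {r : ℕ}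
    {O : Fin r → Xo} {Cκ : ℝ} (h : Geo (datO (inC e1 J m T1 b' g B1) P O) Cκ) :
    Geo (datO (inT e1 J m T1 b' g B1) P O) Cκ where
  s0 := h.s0
  path := by
    obtain ⟨b, c, B, h1, h2, h3⟩ := h.path
    refine ⟨b, c, B, h1, h2, fun a => ?_⟩
    have k1 := h3 a
    have k2 := ext_DDg (gP T1 g) h1 a
    have k3 := ext_DDg g h1 a
    obtain ⟨A1, hA1⟩ := k1.bd
    obtain ⟨A2, hA2⟩ := k2.bd
    obtain ⟨A3, hA3⟩ := k3.bd
    have e : (datO (inT e1 J m T1 b' g B1) P O).F a = fun z =>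
        (datO (inC e1 J m T1 b' g B1) P O).F a z -
          NUSp.DD pE qE (List.ofFn fun i => (gP T1 g i).G) a z +
          NUSp.DD pE qE (List.ofFn fun i => (g i).G) a z := by
      funext z
      show NUO.FO P O a z + NUSp.DD pE qE (List.ofFn fun i => (g i).G) a z =
        NUO.FO P O a z + NUSp.DD pE qE (List.ofFn fun i => (gP T1 g i).G) a z - _ + _
      ring
    rw [e]
    refine ⟨fun z hz => ((k1.diff z hz).sub (k2.diff z hz)).add (k3.diff z hz),
      A1 + A2 + A3, fun z hz => ?_⟩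
    rw [add_mul, add_mul]
    exact (norm_add_le _ _).trans (add_le_add ((norm_sub_le _ _).trans
      (add_le_add (hA1 z hz) (hA2 z hz))) (hA3 z hz))
  small := h.small
  bk := h.bk

/-- **in the window the factors at the pinned and at the true heights agree** -/
theorem aR_T {e1 J : ℝ} {m : ℕ} {T1 b' : ℝ} {G : ℕ} {g : Fin G → Gd} {B1 : ℝ → ℝ} {r : ℕ}
    {O : Fin r → Xo} (a : Bool) {t : ℝ} (ht : |t| ≤ T1) :
    aCC e1 J m T1 b' g B1 O a t =
      aR (datO (inT e1 J m T1 b' g B1) (NUSea.O.par0 m) O) (raT T1 b' g) a t := by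
  have h := fam_in g pE qE a (η := etaC e1 J m m) ht
  have hz : NUAct.zt (NUKer.iD (etaC e1 J m m)) t =
      (t : ℂ) + (etaC e1 J m m t : ℂ) * Complex.I := rfl
  have hg : (fun i => (gP T1 g i).G) = fun i => ((g i).pin T1).G := rfl
  unfold aCC aR
  show Real.exp ((m : ℝ) * (NUSea.vc (NUAct.zt (NUKer.iD (etaC e1 J m m)) t)).re +
      (NUO.FO (NUSea.O.par0 m) O a (NUAct.zt (NUKer.iD (etaC e1 J m m)) t) +
        NUSp.DD pE qE (List.ofFn fun i => (gP T1 g i).G) a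
          (NUAct.zt (NUKer.iD (etaC e1 J m m)) t)).re + raC e1 J m T1 b' g a t) =
    Real.exp ((m : ℝ) * (NUSea.vc (NUAct.zt (NUKer.iD (etaC e1 J m m)) t)).re +
      (NUO.FO (NUSea.O.par0 m) O a (NUAct.zt (NUKer.iD (etaC e1 J m m)) t) +
        NUSp.DD pE qE (List.ofFn fun i => (g i).G) a
          (NUAct.zt (NUKer.iD (etaC e1 J m m)) t)).re + raT T1 b' g a t)
  rw [Complex.add_re, Complex.add_re, hz, h, hg]
  unfold raC raT
  congr 1
  ring

/-- size of the constants -/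
lemma cstF_abs {T X : ℝ} (hT : 0 ≤ T) {G : ℕ} {g : Fin G → Gd} (hX : 0 ≤ X)
    (h : ∀ i, |(g i).τ| ≤ X) (a : Bool) : |cstF T g a| ≤ G * (3 * X) := by
  unfold cstF
  refine (Finset.abs_sum_le_sum_abs _ _).trans ?_
  have h1 : ∀ i ∈ (Finset.univ : Finset (Fin G)),
      |NUSp.gq a (g i).G * NUSp.exc T (g i).τ| ≤ 3 * X := by
    intro i _
    rw [abs_mul]
    have h2 : |NUSp.gq a (g i).G| ≤ 3 := NUSp.abs_gq_le _ _ _ _
    have h3 : |NUSp.exc T (g i).τ| ≤ X := by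
      rw [abs_of_nonneg (NUSp.exc_nonneg _ _)]
      unfold NUSp.exc
      exact max_le (by linarith [h i]) hX
    exact mul_le_mul h2 h3 (abs_nonneg _) (by norm_num)
  refine (Finset.sum_le_card_nsmul _ _ _ h1).trans (le_of_eq ?_)
  rw [Finset.card_univ, Fintype.card_fin, nsmul_eq_mul]

/-- **the one body factors in the bulk**, all groups at heights at most `log² m` -/
theorem exists_gdF {ep e1 J κ : ℝ} (hep : 0 < ep) (hep1 : ep ≤ 1 / 100) (he : 0 < e1)
    (he1 : e1 ≤ 1 / 100) (hκ : 0 < κ) (G k : ℕ) (hk : 3 ≤ k) : ∃ m0 : ℕ, ∀ M m : ℕ, m = 2 * M + 1 →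
    m0 ≤ m → ∀ (b' : ℝ), |b'| ≤ 1 → ∀ (T1 x : ℝ) (g : Fin G → Gd) (B1 : ℝ → ℝ) (r : ℕ)
      (O : Fin r → Xo), TW ep e1 m ≤ T1 → (∀ i, |(g i).τ| ≤ Real.log m ^ 2) →
      Measurable (cfC ep e1 J m M G T1 x) → (∀ t, 0 ≤ cfC ep e1 J m M G T1 x t) →
      Measurable (aCC e1 J m T1 b' g B1 O true) → Measurable (aCC e1 J m T1 b' g B1 O false) →
      (∃ (dl ε Mc : ℝ) (e : ℝ → ℝ), IOk dl ε Mc ((1 - e1) * Tb (Real.log m)) e
        (inC e1 J m T1 b' g B1) (NUSea.O.par0 m) r ∧ ε ≤ (m : ℝ) ^ (-κ) ∧ Mc ≤ Real.log m ^ k) →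
      (r : ℝ) ≤ Real.log m → (∀ i, |ht (O i)| ≤ Real.log m ^ 2) →
      NUS4C.GD m (k + 5) κ e1 (ep / 2) m (2 * Real.log m ^ 2) ((1 - e1) * Tb (Real.log m))
        (etaC e1 J m m) (etaC' e1 J m m) (etaC e1 J m m) (etaC' e1 J m m)
        (fun t => aCC e1 J m T1 b' g B1 O true t * cfC ep e1 J m M G T1 x t)
        (fun t => aCC e1 J m T1 b' g B1 O false t * cfC ep e1 J m M G T1 x t) := by
  have hl3 : (3 : ℝ) / 8 < NUMF.l := by
    unfold NUMF.l
    have := Real.pi_gt_three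
    linarith
  obtain ⟨m1, H⟩ := NUS4C.gd_inp (κ := κ) (δ := 1 / 4) hep hep1 he (by linarith) hκ
    (by linarith) G k hk
  obtain ⟨m2, H2⟩ := exists_geoC hκ
  have h4 := (Real.tendsto_log_atTop.comp tendsto_natCast_atTop_atTop).eventually_ge_atTop
    (3 + 3 * G : ℝ)
  obtain ⟨m3, hm3⟩ := Filter.eventually_atTop.1 h4
  refine ⟨max (max m1 m2) (max m3 3), fun M m hmM hm b' hb' T1 x g B1 r O hT1 hg hcm hc0 hra1 hra2
    hI hr hht => ?_⟩
  have k1 : m1 ≤ m := (le_max_left _ _).trans ((le_max_left _ _).trans hm)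
  have k2 : m2 ≤ m := (le_max_right _ _).trans ((le_max_left _ _).trans hm)
  have k3 : m3 ≤ m := (le_max_left _ _).trans ((le_max_right _ _).trans hm)
  have k4 : 3 ≤ m := (le_max_right _ _).trans ((le_max_right _ _).trans hm)
  obtain ⟨dl, ε, Mc, e, hI1, hε, hMc⟩ := hI
  obtain ⟨Cκ, hG⟩ := H2 m k2 O hI1 hε
  have hLG : (3 : ℝ) + 3 * G ≤ Real.log m := hm3 m k3
  have hG0 : (0 : ℝ) ≤ G := Nat.cast_nonneg G
  have hL : 3 ≤ Real.log m := by linarith
  have hmp : (0 : ℝ) ≤ m := Nat.cast_nonneg m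
  have hTb : Tb (Real.log m) = 3 / 8 * Real.log m := rfl
  have hTW : TW ep e1 m = (1 + 2 * e1 + 2 * ep) * (3 / 8 * Real.log m) := rfl
  have hbT : (1 - e1) * Tb (Real.log m) ≤ T1 := by
    refine le_trans ?_ hT1
    rw [hTW, hTb]
    refine mul_le_mul_of_nonneg_right (by linarith) (by linarith)
  have hT0 : 0 ≤ T1 := by
    refine le_trans ?_ hT1
    rw [hTW]
    have : 0 ≤ 1 + 2 * e1 + 2 * ep := by linarith
    positivity
  have hm5 : (m : ℝ) ≤ 5 * M := by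
    have : m ≤ 5 * M := by omega
    exact_mod_cast this
  have hG' := geo_T hG
  have hL2 : 0 ≤ Real.log m ^ 2 := sq_nonneg _
  have key := H m k1 (inT e1 J m T1 b' g B1) (NUSea.O.par0 m) (2 * Real.log m ^ 2) M pE qE
    (List.ofFn fun i => (g i).G) r O (raT T1 b' g) (cfC ep e1 J m M G T1 x) Cκ
    (by show (m : ℝ) / 2 ≤ m; linarith) (by show (m : ℝ) ≤ 2 * m; linarith) hm5 hI1.pg (by nlinarith)
    le_rfl (by rw [hTb]; nlinarith) ⟨ε, Mc, e, hI1.cur, hε, hMc⟩ hI1.der hG' (fun a => rfl)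
    (away_p pE_re) (away_q qE_re) pE_im qE_im (by rw [List.length_ofFn]) ?_ ?_ ?_ hcm hc0 ?_ hr hht
  · have hX := fun (a : Bool) (t : ℝ) (ht : |t| ≤ (1 - e1) * Tb (Real.log m)) =>
      aR_T (e1 := e1) (J := J) (m := m) (b' := b') (g := g) (B1 := B1) (O := O) a (ht.trans hbT)
    refine gd_congr key (fun t ht => ?_) (fun t ht => ?_)
      (fun t => mul_nonneg (Real.exp_pos _).le (hc0 t))
      (fun t => mul_nonneg (Real.exp_pos _).le (hc0 t)) (hra1.mul hcm) (hra2.mul hcm)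
    · rw [hX true t ht]
    · rw [hX false t ht]
  · intro G' hG'
    rw [List.mem_ofFn] at hG'
    obtain ⟨i, rfl⟩ := hG'
    exact ⟨NUSp.gn_grp _ _ _, (g i).τ, hg i, (g i).ok⟩
  · intro a
    refine NUR2.Ext.of_O (NUOC.O.const 4 ?_)
    have h5 := cstF_abs hT0 hL2 hg a
    have h6 : |-cstF T1 g a - b' / 2| ≤ |cstF T1 g a| + 1 / 2 := by
      rw [← abs_neg (cstF T1 g a)]
      refine (abs_sub _ _).trans ?_
      have : |b' / 2| ≤ 1 / 2 := by
        rw [abs_div, abs_two]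
        linarith
      linarith
    have h7 : Real.log m ^ 3 ≤ Real.log m ^ k := pow_le_pow_right₀ (by linarith) hk
    have h8 : (G * (3 * Real.log m ^ 2) : ℝ) + 1 / 2 ≤ Real.log m ^ 3 := by
      have h9 : (1 : ℝ) ≤ Real.log m ^ 2 := one_le_pow₀ (by linarith)
      nlinarith
    show |-cstF T1 g a - b' / 2| ≤ Real.log m ^ k
    linarith
  · intro a
    exact measurable_const
  · intro t ht
    unfold cfC
    rw [hfar_in (ht.trans hbT), mul_one]
    rfl

/-! ### the decay of the cutoff with the far factor -/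

/-- the far factor decreases in the end of the window -/
theorem hfar_mono {Cc T T1 x : ℝ} (hCc : 1 ≤ Cc) (hx : 0 ≤ x) (h : T ≤ T1) (t : ℝ) :
    hfar Cc T1 x t ≤ hfar Cc T x t := by
  unfold hfar
  split_ifs with h1 h2 h2
  · exact le_rfl
  · have h3 : 0 ≤ min (|t| - T) x := le_min (by linarith) hx
    have h4 : 1 ≤ Real.exp (2 * min (|t| - T) x) := Real.one_le_exp (by positivity)
    nlinarith
  · exact absurd (h2.trans h) h1
  · have h3 : min (|t| - T1) x ≤ min (|t| - T) x := min_le_min (by linarith) le_rfl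
    gcongr

/-- decay constant of the cutoff with the far factor, at the end `TW` of the window -/
def DCg (ep e1 : ℝ) (m G : ℕ) (x : ℝ) : ℝ :=
  (2 + CcF G) * Real.exp (37 / 20 * x) * Real.exp (49 / 20 * TW ep e1 m)

theorem DCg_nonneg (ep e1 : ℝ) (m G : ℕ) (x : ℝ) : 0 ≤ DCg ep e1 m G x := by
  have := CcF_one G
  unfold DCg
  positivity

theorem DCg_eq (ep e1 : ℝ) (m G : ℕ) (x : ℝ) :
    DCg ep e1 m G x * Real.exp (-(49 / 20 * TW ep e1 m)) = SC G x := by
  unfold DCg SC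
  rw [mul_assoc, ← Real.exp_add, add_neg_cancel, Real.exp_zero, mul_one]

theorem DCg_le {ep e1 : ℝ} {m : ℕ} (G : ℕ) {T1 : ℝ} (x : ℝ) (h : TW ep e1 m ≤ T1) :
    DCg ep e1 m G x * Real.exp (-(49 / 20 * T1)) ≤ SC G x := by
  rw [← DCg_eq ep e1 m G x]
  exact mul_le_mul_of_nonneg_left (Real.exp_le_exp.2 (by linarith)) (DCg_nonneg _ _ _ _ _)

/-- **the decay of the cutoff with the far factor** -/
theorem exists_cfg (G : ℕ) {ep : ℝ} (h0 : 0 < ep) (h1 : ep ≤ 1 / 100) {e1 : ℝ} (he : 0 < e1)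
    (he1 : e1 ≤ 1 / 100) {J : ℝ} (hJ : 0 ≤ J) : ∃ m0 : ℕ, ∀ M : ℕ, m0 ≤ M → ∀ m : ℕ, m = 2 * M + 1 →
    ∀ T1 : ℝ, TW ep e1 m ≤ T1 → ∀ x : ℝ, 0 ≤ x → ∀ t,
      cfC ep e1 J m M G T1 x t ≤ DCg ep e1 m G x * Real.exp (-(49 / 20) * |t|) := by
  obtain ⟨W, hW, HW⟩ := exists_cfW (CcF_one G)
  obtain ⟨C, hC, mr, hmr, H⟩ := HW ep h0 h1
  obtain ⟨Cc, hCc, m1, hm1, Hc⟩ := exists_curC (x := 1 / 40) he he1 hJ (by norm_num)
  refine ⟨max m1 ⌈mr⌉₊, fun M hM m hmM T1 hT1 x hx t => ?_⟩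
  have hMm' : M ≤ m := by omega
  have a1 : m1 ≤ m := ((le_max_left _ _).trans hM).trans hMm'
  have a2 : ⌈mr⌉₊ ≤ m := ((le_max_right _ _).trans hM).trans hMm'
  have a4 : mr ≤ m := (Nat.le_ceil mr).trans (by exact_mod_cast a2)
  have hM1 : 1 ≤ M := hm1.trans ((le_max_left _ _).trans hM)
  have hMm : (M : ℝ) ≤ m := by exact_mod_cast hMm'
  obtain ⟨hT20, Hs⟩ := Hc m a1
  obtain ⟨ε, e, hcur, hε0, -, hε⟩ := Hs m (by
    have : (0:ℝ) ≤ m := Nat.cast_nonneg m
    linarith)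
  have hlog : 0 ≤ Real.log m := by
    unfold Tb at hT20
    linarith
  have hTW0 : (1 + 2 * ep) * (3 / 8 * Real.log m) ≤ TW ep e1 m := by
    unfold TW Tb
    nlinarith
  have hm0 : (0 : ℝ) < m := by
    have : 0 < m := by omega
    exact_mod_cast this
  have hη0 : ∀ t, 0 ≤ etaC e1 J m m t := fun t => etaC_nonneg he1 hJ hT20 hm0.le t
  have hηc : Continuous (etaC e1 J m m) := (etaC_contDiff e1 J m m 1).continuous
  have hηε : ∀ t, |etaC e1 J m m t| ≤ 1 / 40 := fun t =>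
    ((NU42.norm_iD (etaC e1 J m m) t).symm.le.trans
      ((hcur.oc.le t).trans (hcur.le t))).trans hε
  have hl : NUP1.l = NUMF.l := rfl
  have hl40 : (1 : ℝ) / 40 < NUMF.l / 5 := by
    unfold NUMF.l
    linarith [Real.pi_gt_d2]
  have hlp := NUMF.l_pos
  have hη1 : ∀ t, -(3 / 4 * NUP1.l * ep) ≤ etaC e1 J m m t := fun t => by
    have h2 := hη0 t
    have : 0 ≤ 3 / 4 * NUP1.l * ep := by
      rw [hl]
      positivity
    linarith
  have hη2 : ∀ t, etaC e1 J m m t ≤ NUP1.l := fun t => by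
    have h2 := (le_abs_self _).trans (hηε t)
    rw [hl]
    linarith
  obtain ⟨_, _, _, _, _, _, _, _, _, _, _, _, g13⟩ := H m (TW ep e1 m) M a4 hM1 hMm hTW0
  obtain ⟨-, k4⟩ := g13 _ hηc hη1 hη2 x hx
  have k5 := (k4 t).2.2
  unfold cfC
  exact (mul_le_mul_of_nonneg_left (hfar_mono (CcF_one G) hx hT1 t)
    (NUSea.H0.cfP_nonneg _ _ _ _)).trans k5

end

end NUGC
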