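import Pool.Agent.NUGC.DatGC
import Pool.Agent.NUGC.GdF

/-!
# The data of TARGET-C, groups beyond the window included

**`datGF : DatGF`**: `DatGC` with the last two clauses (size of the cutoff at the end of the window, one
body factors in the bulk) for every excess `x` and for all bare and neutral groups at heights at most
`log² m`.
-/

set_option autoImplicit false
set_option linter.unusedSectionVars false

open MeasureTheory Set Filter Topology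

namespace NUGC

open NUO (Xo ht Par Tb TW excS chgO)
open NUSea.H0

noncomputable section

variable [NUSea.Sea]

/-- **the data of every configuration of TARGET-C**, groups up to `log² m` -/
def DatGF : Prop :=
  ∀ G : ℕ, ∃ W : ℝ, 0 ≤ W ∧ ∀ ep : ℝ, 0 < ep → ep ≤ 1 / 100 → ∀ e1 : ℝ, 0 < e1 → e1 ≤ 1 / 100 →
    ∀ J : ℝ, 0 ≤ J →
    ∃ (k : ℕ) (κ CB w C : ℝ), 0 < κ ∧ 0 ≤ CB ∧ 0 < w ∧ w ≤ 1 / 10 ∧ 0 ≤ C ∧
    ∀ ϑ : ℝ, 0 < ϑ → ∃ d : ℝ, 0 < d ∧ ∃ m0 : ℕ, ∀ M : ℕ, m0 ≤ M → ∀ m : ℕ, m = 2 * M + 1 →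
    ∀ b' : ℝ, |b'| ≤ d → ∀ (T1 x : ℝ) (g : Fin G → Gd), TW ep e1 m ≤ T1 → FamOk T1 x g →
    ∃ B1 : ℝ → ℝ, ContDiff ℝ 1 B1 ∧ (∀ t, 0 ≤ B1 t) ∧ (∀ t, B1 t ≤ W) ∧
      Integrable (fun t => (m : ℝ) * NUSea.P t * B1 t) ∧ (∫ t, (m : ℝ) * NUSea.P t * B1 t) ≤ C ∧
    ∀ nX nY : ℕ, nX ≤ 8 * m → nY ≤ 8 * m → (nX : ℝ) - nY = -chG g →
    ∀ r : ℕ, r ≤ 8 * m → ∀ O : Fin r → Xo, chgO O true ≤ nX → chgO O false ≤ nY →
      TW ep e1 m + excS (TW ep e1 m) O ≤ T1 →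
    ∃ D : ℝ, DatC ep e1 κ CB ϑ k m (inC e1 J m T1 b' g B1) (NUSea.O.par0 m) O
        (fun i => (gP T1 g i).τ) (nX - chgO O true) (nY - chgO O false)
        (aCC e1 J m T1 b' g B1 O true) (aCC e1 J m T1 b' g B1 O false)
        (cfC ep e1 J m M G T1 x) B1 T1 D (49 / 20) (SC G x) ∧
      D * Real.exp (-(49 / 20 * TW ep e1 m)) ≤ SC G x ∧
      ((∀ i, |(g i).τ| ≤ Real.log m ^ 2) → (r : ℝ) + G ≤ Real.log m →
        (∀ i, |ht (O i)| ≤ Real.log m ^ 2) →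
        NUS4C.GD m k κ e1 w m (2 * Real.log m ^ 2) ((1 - e1) * Tb (Real.log m))
          (etaC e1 J m m) (etaC' e1 J m m) (etaC e1 J m m) (etaC' e1 J m m)
          (fun t => aCC e1 J m T1 b' g B1 O true t * cfC ep e1 J m M G T1 x t)
          (fun t => aCC e1 J m T1 b' g B1 O false t * cfC ep e1 J m M G T1 x t))

/-- **the data of every configuration of TARGET-C**, groups up to `log² m` -/
theorem datGF : DatGF := by
  intro G
  obtain ⟨W, hW, H⟩ := datGC G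
  refine ⟨W, hW, fun ep hep hep1 e1 he he1 J hJ => ?_⟩
  obtain ⟨k, κ, CB, w, C, hκ, hCB, -, -, hC, H⟩ := H ep hep hep1 e1 he he1 J hJ
  obtain ⟨mD, HGD⟩ := exists_gdF (J := J) hep hep1 he he1 hκ G (k + 3) (by omega)
  obtain ⟨mc, Hc⟩ := exists_cfg G hep hep1 he he1 hJ
  refine ⟨k + 8, κ, CB, ep / 2, C, hκ, hCB, by linarith, by linarith, hC, fun ϑ hϑ => ?_⟩
  obtain ⟨d, hd, m0, H⟩ := H ϑ hϑ
  have h4 := (Real.tendsto_log_atTop.comp tendsto_natCast_atTop_atTop).eventually_ge_atTop (1 : ℝ)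
  obtain ⟨m3, hm3⟩ := Filter.eventually_atTop.1 h4
  refine ⟨min d 1, lt_min hd one_pos, max (max m0 mD) (max mc m3),
    fun M hM m hm b' hb T1 x g hT1 hF => ?_⟩
  have hMm : M ≤ m := by omega
  have k1 : m0 ≤ M := (le_max_left _ _).trans ((le_max_left _ _).trans hM)
  have k2 : mD ≤ m := ((le_max_right _ _).trans ((le_max_left _ _).trans hM)).trans hMm
  have k3 : mc ≤ M := (le_max_left _ _).trans ((le_max_right _ _).trans hM)
  have k4 : m3 ≤ m := ((le_max_right _ _).trans ((le_max_right _ _).trans hM)).trans hMm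
  have hL : 1 ≤ Real.log m := hm3 m k4
  have hpow : ∀ i j : ℕ, i ≤ j → Real.log m ^ i ≤ Real.log m ^ j := fun i j hij =>
    pow_le_pow_right₀ hL hij
  obtain ⟨B, b1, b2, b3, b4, b5, H⟩ := H M k1 m hm b' (hb.trans (min_le_left _ _)) T1 x g hT1 hF
  refine ⟨B, b1, b2, b3, b4, b5, fun nX nY hnX hnY hn r hr O hX hY hO => ?_⟩
  obtain ⟨D, hdat, -, -⟩ := H nX nY hnX hnY hn r hr O hX hY hO
  obtain ⟨dl, ε, Mc, e, hI, hε, hMc, hdl⟩ := hdat.ok
  refine ⟨DCg ep e1 m G x, ?_, (DCg_eq ep e1 m G x).le, fun hg hrr hht => ?_⟩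
  · exact
      { hdat with
        ok := ⟨dl, ε, Mc, e, hI, hε, hMc.trans (hpow _ _ (by omega)), hdl⟩
        shl := { hdat.shl with
          D0 := DCg_nonneg _ _ _ _ _
          cD := Hc M k3 m hm T1 hT1 x hF.x0 }
        DS := DCg_le G x hT1 }
  · exact HGD M m hm k2 b' (hb.trans (min_le_right _ _)) T1 x g B r O hT1 hg hdat.shl.mc
      hdat.shl.c0 hdat.shl.mX hdat.shl.mY
      ⟨dl, ε, Mc, e, hI, hε, hMc.trans (hpow _ _ (by omega))⟩
      (by have : (0 : ℝ) ≤ G := Nat.cast_nonneg G; linarith) hht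

end

end NUGC
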