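import Pool.Agent.NUGC.Dsp

/-!
# Factors of the spectators on displaced objects, II (board/GAM G3, helper25)

* `dsp_half5`, `dsp_single5`: half quantum, single at `5/8`;
* `tq a v`: the string `(v, v - l)` of species `a` as a spectator; `dsp_host`: at `-11/8`.
-/

set_option autoImplicit false
set_option linter.unusedSimpArgs false

noncomputable section

open Complex Finset

namespace NUGC

open NUP1 NUO NUDirP

theorem good_h5h : GoodAt hL 5 := by decide
theorem good_s5h : GoodAt sL 5 := by decide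

/-- **half quantum** at `5/8` -/
theorem dsp_half5 {P : Par} (he : P.e = 1 / 4) (hj : P.jL = 9 / 4) {r : ℕ} (hS : Small 8 P r)
    (O : Fin r → Xo) (i : Fin r) (a : Bool) (τ : ℝ) :
    facL (hq a (vl (5 / 8 * l) τ)) (NUO.cons P O i) ≤ CD *
      Real.exp (NN 1 a (O i) * Real.log (Real.cosh (ht (O i) - τ))) := by
  have h := dsp_h good_h5h he hj hS O i a τ
  rwa [show (((5 : ℤ) : ℝ) * (l / 8)) = 5 / 8 * l by push_cast; ring] at h

/-- **single** at `5/8` -/
theorem dsp_single5 {P : Par} (he : P.e = 1 / 4) (hj : P.jL = 9 / 4) {r : ℕ} (hS : Small 8 P r)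
    (O : Fin r → Xo) (i : Fin r) (a : Bool) (τ : ℝ) :
    facL (sq a (vl (5 / 8 * l) τ)) (NUO.cons P O i) ≤ CD *
      Real.exp (NN 2 a (O i) * Real.log (Real.cosh (ht (O i) - τ))) := by
  have h := dsp_s good_s5h he hj hS O i a τ
  rwa [show (((5 : ℤ) : ℝ) * (l / 8)) = 5 / 8 * l by push_cast; ring] at h

/-! ### String as a spectator -/

/-- string of species `a` at `v` (and `v - l`) -/
def tq (a : Bool) (v : ℂ) : Bool → ℂ → ℝ := fun s u => ‖pp (s, false, u) (a, true, v)‖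

theorem tq_nonneg (a : Bool) (v : ℂ) (s : Bool) (u : ℂ) : 0 ≤ tq a v s u := norm_nonneg _

/-- lists of a string: (same species, string?) -/
def tL : Bool → Bool → List (ℤ × ℤ)
  | true, false => [(0, 1), (-8, 1), (16, 1), (-24, 1)]
  | false, false => [(-24, -2), (16, -2)]
  | true, true => [(0, 2), (8, 1), (-8, 1), (16, 1), (-16, 1), (24, 1), (-24, 1)]
  | false, true => [(24, -2), (-24, -2), (16, -2), (-16, -2)]

/-- lists of a spectator of charge `q / 2`, at most `K` sines -/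
structure SpK (G : Bool → Bool → List (ℤ × ℤ)) (q : ℤ) (K : ℕ) : Prop where
  deg : ∀ same b, ((G same b).map fun p => p.2).sum = q * (sz same * nz b)
  abs : ∀ same b, ((G same b).map fun p => p.2.natAbs).sum ≤ K

theorem tL_Sp : SpK tL 4 8 := ⟨by decide, by decide⟩
theorem good_tm11 : GoodAt tL (-11) := by decide

lemma q1_norm (z : ℂ) : ‖q1 (-z)‖ = FL (tL true false) z := by
  unfold q1
  simp only [tL, FL_cons, FL_nil, a0, am8, a16, am24, zpow_one, norm_mul]
  have e0 : ‖sin (-z)‖ = ‖sin z‖ := norm_neg_sin z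
  have e1 : ‖sin (-z + l)‖ = ‖sin (z - l)‖ := by
    rw [← nsub]
    congr 2
    ring
  have e2 : ‖sin (-z - 2 * l)‖ = ‖sin (z + 2 * l)‖ := by
    rw [← norm_neg_sin (z + 2 * l)]
    congr 2
    ring
  have e3 : ‖sin (-z + 3 * l)‖ = ‖sin (z - 3 * l)‖ := by
    rw [← nsub]
    congr 2
    ring
  rw [e0, e1, e2, e3]
  ring

lemma qg2_norm (z : ℂ) : ‖Bd.qg (-z) * Bd.qg (-z + l)‖ ≤ FL (tL false false) z := by
  have e1 : Bd.qg (-z + l) = Bd.qg (z - l) := by
    rw [← Bd.qg_neg]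
    congr 1
    ring
  rw [Bd.qg_neg, e1, norm_mul, qg_norm, qg_norm]
  simp only [tL, sL, FL_cons, FL_nil, am24, a32, a24, a16, zpow_two', zpow_neg_two', mul_one]
  rw [show z - l + 4 * (l : ℂ) = z + 3 * l by ring, show z - l + 3 * (l : ℂ) = z + 2 * (l : ℂ) by ring,
    ← n8 (z + 4 * l) (z - l - 3 * l) (by ring)]
  set A := ‖sin (z + 4 * l)‖
  set B := ‖sin (z - 3 * l)‖
  set C := ‖sin (z + 3 * l)‖
  set D := ‖sin (z + 2 * l)‖
  have hA : 0 ≤ A := norm_nonneg _
  have hB : 0 ≤ B := norm_nonneg _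
  have hC : 0 ≤ C := norm_nonneg _
  have hD : 0 ≤ D := norm_nonneg _
  have e : A * A * (B⁻¹ * B⁻¹ * (C⁻¹ * C⁻¹)) * (C * C * (A⁻¹ * A⁻¹ * (D⁻¹ * D⁻¹))) =
      (A * A * (A⁻¹ * A⁻¹) * (C * C * (C⁻¹ * C⁻¹) * (B⁻¹ * B⁻¹ * (D⁻¹ * D⁻¹)))) := by ring
  rw [e]
  exact (inv_sq_le hA (by positivity)).trans (inv_sq_le hC (by positivity))

/-- factor of a string -/
lemma fac_tq (a : Bool) (v : ℂ) (s b : Bool) (u : ℂ) :
    fac (tq a v) (s, b, u) ≤ FL (tL (s == a) b) (v - u) := by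
  have e1 : u - v = -(v - u) := by ring
  have e2 : u - l - v = -(v - u + l) := by ring
  unfold fac tq pp
  by_cases h : s = a
  · rw [beq_iff_eq.2 h]
    cases b
    · simp only [h, if_true, Bool.false_eq_true, if_false, Kn.pz]
      rw [e1]
      exact (q1_norm _).le
    · simp only [h, if_true, Kn.pz]
      rw [e1, e2, q1_norm, q1_norm]
      simp only [tL, FL_cons, FL_nil, a0, am8, a16, am24, a8, am16, a24, zpow_one, zpow_two', mul_one]
      set z := v - u
      rw [show z + l - l = z by ring, show z + l + 2 * (l : ℂ) = z + 3 * l by ring,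
        show z + l - 3 * (l : ℂ) = z - 2 * l by ring]
      apply le_of_eq
      ring
  · rw [beq_eq_false_iff_ne.2 h]
    cases b
    · simp only [h, Bool.false_eq_true, if_false, Kn.cz]
      rw [e1]
      exact qg2_norm _
    · simp only [h, if_true, if_false, Kn.cz]
      rw [e1, e2]
      refine (mul_le_mul (qg2_norm _) (qg2_norm _) (norm_nonneg _) (FL_nonneg _ _)).trans ?_
      simp only [tL, FL_cons, FL_nil, a16, am24, am16, a24, zpow_neg_two', mul_one]
      set z := v - u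
      rw [show z + l - 3 * (l : ℂ) = z - 2 * l by ring, show z + l + 2 * (l : ℂ) = z + 3 * l by ring]
      apply le_of_eq
      ring

section

variable {G : Bool → Bool → List (ℤ × ℤ)} {q : ℤ} {K : ℕ} {f : Bool → ℂ → ℝ} {a : Bool} {w : ℂ}
  {nw : ℤ} {τ : ℝ} {δw : ℂ}

/-- one constituent -/
theorem fac_elK (hG : SpK G q K) (hf : ∀ s b u, fac f (s, b, u) ≤ FL (G (s == a) b) (w - u))
    (hw : w = (((nw : ℝ) * (l / 8) : ℝ) : ℂ) + τ * I + δw) (e : Ec) (t : ℝ)
    (hδ : ‖δw - e.2.2.2‖ ≤ 1 / 64)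
    (good : ∀ p ∈ G (e.1 == a) e.2.1, p.2 < 0 → ¬ (64 : ℤ) ∣ nw - e.2.2.1 + p.1) :
    fac f (toC t e) ≤ 128 ^ K * Real.cosh (τ - t) ^ (q * (sz (e.1 == a) * nz e.2.1)) := by
  have h1 := hf e.1 e.2.1 ((((e.2.2.1 : ℝ) * (l / 8) : ℝ) : ℂ) + t * I + e.2.2.2)
  have e1 : w - ((((e.2.2.1 : ℝ) * (l / 8) : ℝ) : ℂ) + t * I + e.2.2.2) =
      ((((nw - e.2.2.1 : ℤ) : ℝ) * (l / 8) : ℝ) : ℂ) + ((τ - t : ℝ) : ℂ) * I + (δw - e.2.2.2) := by
    rw [hw]; push_cast; ring
  rw [e1] at h1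
  have h2 := FL_le (s := τ - t) hδ good
  rw [hG.deg] at h2
  have hc := Real.cosh_pos (τ - t)
  refine h1.trans (h2.trans ?_)
  apply mul_le_mul_of_nonneg_right _ (zpow_nonneg hc.le _)
  exact pow_le_pow_right₀ (by norm_num) (hG.abs _ _)

/-- one object, from bounds of its constituents -/
theorem obj_genK {A : ℝ} (hA : 1 ≤ A) (hf0 : ∀ s u, 0 ≤ f s u) {s : Bool} {k : Kind} {κ ε : ℂ} {t : ℝ}
    (h : ∀ e ∈ dp 2 18 s k κ ε, fac f (toC t e) ≤ A *
      Real.cosh (τ - t) ^ (q * (sz (e.1 == a) * nz e.2.1))) :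
    facL f ((dp 2 18 s k κ ε).map (toC t)) ≤
      A ^ 3 * Real.cosh (τ - t) ^ (q * (sz (s == a) * qkz k)) := by
  have hc := Real.cosh_pos (τ - t)
  set c := Real.cosh (τ - t) with hcdef
  have hns : sz ((!s) == a) = -sz (s == a) := by cases s <;> cases a <;> rfl
  have n0 : ∀ e : Ec, 0 ≤ fac f (toC t e) := fun e => fac_nonneg hf0 _
  have hA0 : 0 ≤ A := by linarith
  have hA3 : A ≤ A ^ 3 := by
    calc A = A ^ 1 := (pow_one _).symm
      _ ≤ A ^ 3 := pow_le_pow_right₀ hA (by norm_num)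
  have hA2 : A * A ≤ A ^ 3 := by
    calc A * A = A ^ 2 := by ring
      _ ≤ A ^ 3 := pow_le_pow_right₀ hA (by norm_num)
  cases k <;> simp only [dp, List.forall_mem_cons, List.not_mem_nil, false_imp_iff, implies_true,
    and_true, if_true, Bool.false_eq_true, if_false, hns, nz] at h <;>
    simp only [facL, dp, List.map_cons, List.map_nil, List.prod_cons, List.prod_nil, mul_one, qkz]
  · rw [mul_one] at h
    refine h.trans ?_
    exact mul_le_mul_of_nonneg_right hA3 (zpow_nonneg hc.le _)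
  · refine h.trans ?_
    exact mul_le_mul_of_nonneg_right hA3 (zpow_nonneg hc.le _)
  · refine h.trans ?_
    exact mul_le_mul_of_nonneg_right hA3 (zpow_nonneg hc.le _)
  · obtain ⟨h1, h2⟩ := h
    refine (mul_le_mul h1 h2 (n0 _) (by positivity)).trans ?_
    have e1 : q * sz (s == a) = q * (sz (s == a) * 2) + q * (-sz (s == a) * 1) := by ring
    rw [e1, zpow_add₀ hc.ne']
    have h3 : 0 ≤ c ^ (q * (sz (s == a) * 2)) * c ^ (q * (-sz (s == a) * 1)) := by positivity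
    calc _ = (A * A) * (c ^ (q * (sz (s == a) * 2)) * c ^ (q * (-sz (s == a) * 1))) := by
          ring
      _ ≤ _ := mul_le_mul_of_nonneg_right hA2 h3
  · obtain ⟨h1, h2, h3⟩ := h
    refine (mul_le_mul h1 (mul_le_mul h2 h3 (n0 _) (by positivity)) (mul_nonneg (n0 _) (n0 _))
      (by positivity)).trans ?_
    have e1 : q * (sz (s == a) * 0) = q * (sz (s == a) * 2) + (q * (-sz (s == a) * 1) +
      q * (-sz (s == a) * 1)) := by ring
    rw [e1, zpow_add₀ hc.ne', zpow_add₀ hc.ne']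
    apply le_of_eq
    ring

end

/-- **general position**: a spectator at `nw l / 8 + i τ` -/
theorem dsp_genK {G : Bool → Bool → List (ℤ × ℤ)} {q : ℤ} {K : ℕ} (hG : SpK G q K) {nw : ℤ}
    (good : GoodAt G nw)
    {P : Par} (he : P.e = 1 / 4) (hj : P.jL = 9 / 4) {r : ℕ} (hS : Small 8 P r) (O : Fin r → Xo)
    (i : Fin r) (a : Bool) (τ : ℝ) {f : Bool → ℂ → ℝ} (hf0 : ∀ s u, 0 ≤ f s u)
    (hf : ∀ s b u, fac f (s, b, u) ≤ FL (G (s == a) b) (vl ((nw : ℝ) * (l / 8)) τ - u)) :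
    facL f (NUO.cons P O i) ≤ (128 ^ K) ^ 3 *
      Real.cosh (τ - ht (O i)) ^ (q * (sz (sp (O i) == a) * qkz (kd (O i)))) := by
  rw [cons_eq (ne := 2) (nL := 18) (by rw [he]; norm_num) (by rw [hj]; norm_num)]
  refine obj_genK (q := q) (f := f) (a := a) (τ := τ) (one_le_pow₀ (by norm_num)) hf0
    (s := sp (O i)) (k := kd (O i)) (κ := kap P O i) (ε := eps P O i) (t := ht (O i)) ?_
  intro e hh
  have hd := disp_small hS O i e hh
  exact fac_elK hG hf (nw := nw) (τ := τ) (δw := 0) (by unfold vl; push_cast; ring) e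
    (ht (O i)) (by rw [zero_sub, norm_neg]; linarith)
    (good _ _ _ (dp_rel a hh))

/-- constant of a string -/
def CDt : ℝ := 128 ^ 24

lemma CDt_pos : 0 < CDt := by unfold CDt; positivity

/-- **host string** at `-11/8` -/
theorem dsp_host {P : Par} (he : P.e = 1 / 4) (hj : P.jL = 9 / 4) {r : ℕ} (hS : Small 8 P r)
    (O : Fin r → Xo) (i : Fin r) (a : Bool) (τ : ℝ) :
    facL (tq a (vl (-(11 / 8) * l) τ)) (NUO.cons P O i) ≤ CDt *
      Real.exp (NN 4 a (O i) * Real.log (Real.cosh (ht (O i) - τ))) := by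
  have e1 : (((-11 : ℤ) : ℝ) * (l / 8)) = -(11 / 8) * l := by push_cast; ring
  have h := dsp_genK tL_Sp good_tm11 he hj hS O i a τ (tq_nonneg _ _)
    (fac_tq a (vl (((-11 : ℤ) : ℝ) * (l / 8)) τ))
  rw [cosh_zpow, NN_eq, ← Real.cosh_neg, neg_sub, e1, ← pow_mul] at h
  exact h

end NUGC
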