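import Pool.Agent.NUGC.MasterC
import Pool.Agent.NURow.Fin3

/-!
# The eleven integrals as the sum of the final classes, in the names of `MasterC`
-/

set_option autoImplicit false

noncomputable section

namespace NUGC

open NUO NUP1 NUCR NUP1S NURow

/-- **The eleven integrals as a signed sum of the values of the final classes.** -/
theorem e11Form : E11Form := by
  intro ep h0 h1 M _ P hP n
  obtain ⟨hC, hj, he⟩ := hP
  have hb : 1 < beC ep := by
    unfold beC
    linarith
  have hb' : beC ep ≤ 4 / 3 := by
    unfold beC
    linarith
  have hPP : ParP P := ⟨hj, he, hC.d0, fun r => by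
    have h3 := hC.e2 r
    have h4 := hC.d0 r
    linarith⟩
  have L : LnH (lX P) (lY P) := LnH_P hC.goodP hC.j1 hC.j2 fun r => by
    have h3 := hC.e2 r
    have h4 := hC.d0 r
    linarith
  exact E11_fin hb hb' M n hPP L

end NUGC

end

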