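import Pool.Agent.NUSea.H0.DatEC
import Pool.Agent.NUSea.H0.LinC
import Pool.Agent.NUSea.H0.DatNC
import Pool.Agent.NUGC.CurC
import Pool.Agent.NUSea.OOneB
import Pool.Agent.NUO.StabC
import Pool.Agent.NUO.Act
import Pool.Agent.NUSea.H0.WoC

/-!
# TARGET-C: the exponent of a configuration with spectators, upper bound

* `EnOk`: what is needed of the data `datO I P O` and of the sources `T` of the spectators;
* `GrOk`: the potentials of the spectators are a sum of neutral groups with phases `φ d` at `τ d`;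
* `CuOk`: the current `h = s P η`: between the current of TARGET-A and `h 0`, slope at most one,
  energy `bil h' h' - 12 l h(0) ≤ -(1 - e1) T + C`;
* `exists_enG`: `En ≤ one body + densities + sources + sea + linear term + energy of the current`;
* `exists_enC`: with phases `12 l` at the origin (the ends) and total negative phase at most `6 l`:
  the gain `-(1 - e1) (3/8) log m`.
-/

set_option autoImplicit false
set_option linter.unusedSectionVars false

noncomputable section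

open MeasureTheory Finset Filter Topology

namespace NUGC

open NUO (Kind Xo kd ht sp Par PG wK cons slkK rr Tb)
open NUStabP (enC)
open NUDispW (win)
open NUMF (l l_pos)
open NUSea (Cur P hd)
open NUSea.H0 (Inp IOk datO wO)

variable [NUSea.Sea]

/-! ### structures -/

/-- **what the exponent needs of the data.**  `κ`: the curve has size `m^(-κ)`; `k`: power of the
logarithm in the mass of the curve; `W`: bound of the extra remainder; `CB`: mass of the densities of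
the spectators -/
structure EnOk (e1 κ W CB : ℝ) (k m : ℕ) (I : Inp) (Q : Par) {r : ℕ} (O : Fin r → Xo)
    {ι : Type} [Fintype ι] (T : ι → Sr) : Prop where
  jL : Q.jL = 9 / 4
  e : Q.e = 1 / 4
  rr1 : ∑ i, rr Q O i ≤ 1
  ok : ∃ (dl ε M : ℝ) (e : ℝ → ℝ), IOk dl ε M ((1 - e1) * Tb (Real.log m)) e I Q r ∧
    ε ≤ (m : ℝ) ^ (-κ) ∧ M ≤ Real.log m ^ k ∧
    dl ≤ 1 / (6000 * ((r : ℝ) + 1) ^ 2) + 3 * (m : ℝ) ^ (-κ)
  Tok : ∀ d, (T d).Ok
  sy : ∀ i d, Sym (obSr Q.jL Q.e (O i)) (T d)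
  nu : ∀ a, I.ν a = muS T a
  tau : I.τD = tauS T
  mass : ∀ a, ∫ t, |I.ν a t| ≤ CB
  w0 : ∀ a t, |wO I a t| ≤ W

/-- **the potentials of the spectators are a sum of neutral groups** with phases `φ d` at `τ d` -/
structure GrOk (CB : ℝ) (I : Inp) {δ : Type} [Fintype δ] (kp a φ τ : δ → ℝ) (Ψ : δ → ℂ → ℂ) :
    Prop where
  asy : ∀ d, NUSp.Asy (l / 10) (kp d) 0 (a d) (φ d) (τ d) (Ψ d)
  diff : ∀ d (z : ℂ), |z.im| < l / 10 → DifferentiableAt ℂ (Ψ d) z
  sum : ∀ z : ℂ, |z.im| < l / 10 → I.A true z + I.A false z = ∑ d, Ψ d z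
  size : ∑ d, (|a d| + |φ d| + kp d) ≤ CB

/-- **facts on the current** `h = s P η` -/
structure CuOk (e1 J Cb : ℝ) (m : ℕ) (h h' : ℝ → ℝ) : Prop where
  nn : ∀ t, 0 ≤ h t
  le0 : ∀ t, h t ≤ h 0
  ge : ∀ t, NUCUR.cur e1 (Tb (Real.log m)) J t ≤ h t
  lip : ∀ t t', |h t - h t'| ≤ |t - t'|
  en : NUCR.bil h' h' - 12 * (Real.pi / 8) * h 0 ≤ -((1 - e1) * Tb (Real.log m)) + Cb

/-- mean field, slack and current of the object `i` -/
def oneH (I : Inp) (Q : Par) {r : ℕ} (O : Fin r → Xo) (h : ℝ → ℝ) (i : Fin r) : ℝ :=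
  I.s * NUSea.O.mfo (cons Q O i) +
    I.s * slkK (fun t => ∫ u, P u * NUC43.slk (u - t)) (kd (O i)) (ht (O i)) -
    2 * Real.pi * wK (kd (O i)) * h (ht (O i))

/-- the current of the data -/
def curI (I : Inp) (t : ℝ) : ℝ := I.s * P t * I.η t

/-! ### small facts -/

lemma wKd_nonneg (K : Kind) : 0 ≤ wK K := by
  cases K <;> norm_num [wK]

lemma oneH_mono (I : Inp) (Q : Par) {r : ℕ} (O : Fin r → Xo) {h h2 : ℝ → ℝ}
    (hh : ∀ t, h t ≤ h2 t) (i : Fin r) : oneH I Q O h2 i ≤ oneH I Q O h i := by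
  unfold oneH
  have h1 := hh (ht (O i))
  have h3 := wKd_nonneg (kd (O i))
  have h4 := Real.pi_pos
  have h5 : 2 * Real.pi * wK (kd (O i)) * h (ht (O i)) ≤ 2 * Real.pi * wK (kd (O i)) * h2 (ht (O i)) :=
    mul_le_mul_of_nonneg_left h1 (by positivity)
  linarith

lemma ext_mono {b b' : ℝ} (h : b' ≤ b) {F : ℂ → ℂ} (hF : NUAct.Ext b F) : NUAct.Ext b' F := by
  obtain ⟨A, hA⟩ := hF.bd
  exact ⟨fun z hz => hF.diff z (hz.trans h), A, fun z hz => hA z (hz.trans h)⟩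

/-- slope of the current -/
lemma hd_le {s : ℝ} {η η1 : ℝ → ℝ} (h1 : ∀ t, HasDerivAt η (η1 t) t)
    (hL : ∀ t t', |s * P t * η t - s * P t' * η t'| ≤ |t - t'|) (t : ℝ) : |hd s η η1 t| ≤ 1 := by
  have h2 := NUSea.hasDerivAt_hd s h1 t
  have h3 : LipschitzWith 1 fun t => s * P t * η t := by
    refine LipschitzWith.of_dist_le_mul fun x y => ?_
    rw [Real.dist_eq, Real.dist_eq]
    simpa using hL x y
  have h4 := norm_deriv_le_of_lipschitz (x₀ := t) h3
  rw [h2.deriv, Real.norm_eq_abs] at h4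
  simpa using h4

/-- a power of the logarithm against a negative power -/
theorem polylogC (C : ℝ) (j : ℕ) {κ0 y : ℝ} (hκ : 0 < κ0) (hy : 0 < y) :
    ∃ m0 : ℕ, ∀ m ≥ m0, C * Real.log m ^ j * (m : ℝ) ^ (-κ0) ≤ y := by
  have h1 : Tendsto (fun x : ℝ => C * (Real.log x ^ (j : ℝ) / x ^ κ0)) atTop (𝓝 (C * 0)) :=
    (isLittleO_log_rpow_rpow_atTop (j : ℝ) hκ).tendsto_div_nhds_zero.const_mul C
  rw [mul_zero] at h1
  have h2 := (h1.comp tendsto_natCast_atTop_atTop).eventually_le_const hy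
  obtain ⟨m0, hm0⟩ := Filter.eventually_atTop.1 h2
  refine ⟨max m0 1, fun m hm => ?_⟩
  have h3 := hm0 m ((le_max_left _ _).trans hm)
  have hm1 : (0 : ℝ) ≤ m := Nat.cast_nonneg m
  simp only [Function.comp, Real.rpow_natCast] at h3
  rw [Real.rpow_neg hm1, mul_assoc, ← div_eq_mul_inv]
  exact h3

theorem loglargeC (x : ℝ) : ∃ m0 : ℕ, ∀ m ≥ m0, x ≤ Real.log m := by
  have h := (Real.tendsto_log_atTop.comp tendsto_natCast_atTop_atTop).eventually_ge_atTop x
  obtain ⟨m0, hm0⟩ := Filter.eventually_atTop.1 h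
  exact ⟨m0, fun m hm => hm0 m hm⟩

/-- the numbers -/
theorem exists_numC (C A : ℝ) {kap : ℝ} (hkap : 0 < kap) (k : ℕ) {κ : ℝ} (hκ : 0 < κ) :
    ∃ m0 : ℕ, ∀ m ≥ m0, 1 ≤ Real.log m ∧ (m : ℝ) ^ (-κ) ≤ 1 ∧
      C * (2 * Real.log m) ^ 7 * (m : ℝ) ^ (-κ) ≤ 1 ∧
      Real.log m ^ k * (m : ℝ) ^ (-κ) ≤ 1 ∧ Real.log m ^ (k + 1) * (m : ℝ) ^ (-κ) ≤ 1 ∧
      C * (2 * Real.log m) ^ 9 * Real.log m ^ (2 * k) * (m : ℝ) ^ (-κ) ≤ 1 ∧
      A * (m : ℝ) ^ (-κ) ≤ kap ∧ A * (m : ℝ) ^ (-κ) ≤ 1 := by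
  obtain ⟨n0, h0⟩ := loglargeC 1
  obtain ⟨n1, h1⟩ := polylogC (C * 2 ^ 7) 7 hκ one_pos
  obtain ⟨n2, h2⟩ := polylogC 1 k hκ one_pos
  obtain ⟨n3, h3⟩ := polylogC 1 (k + 1) hκ one_pos
  obtain ⟨n4, h4⟩ := polylogC (C * 2 ^ 9) (9 + 2 * k) hκ one_pos
  obtain ⟨n5, h5⟩ := polylogC A 0 hκ hkap
  obtain ⟨n6, h6⟩ := polylogC 1 0 hκ one_pos
  obtain ⟨n7, h7⟩ := polylogC A 0 hκ one_pos
  refine ⟨max n0 (max n1 (max n2 (max n3 (max n4 (max n5 (max n6 n7)))))), fun m hm => ?_⟩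
  simp only [ge_iff_le, max_le_iff] at hm
  obtain ⟨g0, g1, g2, g3, g4, g5, g6, g7⟩ := hm
  have h1 := h1 m g1
  have h2 := h2 m g2
  have h3 := h3 m g3
  have h4 := h4 m g4
  have h5 := h5 m g5
  have h6 := h6 m g6
  have h7 := h7 m g7
  refine ⟨h0 m g0, ?_, ?_, ?_, ?_, ?_, ?_, ?_⟩
  · rwa [pow_zero, mul_one, one_mul] at h6
  · rw [mul_pow, ← mul_assoc]
    exact h1
  · rwa [one_mul] at h2
  · rwa [one_mul] at h3
  · rw [mul_pow]
    calc C * (2 ^ 9 * Real.log m ^ 9) * Real.log m ^ (2 * k) * (m : ℝ) ^ (-κ) =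
        C * 2 ^ 9 * Real.log m ^ (9 + 2 * k) * (m : ℝ) ^ (-κ) := by
          rw [pow_add]
          ring
      _ ≤ 1 := h4
  · rwa [pow_zero, mul_one] at h5
  · rwa [pow_zero, mul_one] at h7

/-! ### the exponent -/

/-- **the exponent of a configuration with spectators**, the linear term and the energy of the current
kept -/
theorem exists_enG {W : ℝ} (hW : 0 ≤ W) : ∃ K0 : ℝ, 0 ≤ K0 ∧ ∀ kap : ℝ, 0 < kap → ∀ κ CB : ℝ, 0 < κ →
    0 ≤ CB → ∀ k : ℕ, ∃ (Cc : ℝ) (m0 : ℕ), ∀ m ≥ m0, ∀ e1 : ℝ, 0 < e1 → e1 ≤ 1 / 100 →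
    ∀ (I : Inp) (Q : Par) (r : ℕ) (O : Fin r → Xo) (ι : Type) [Fintype ι] (T : ι → Sr),
    EnOk e1 κ W CB k m I Q O T → (∀ t t', |curI I t - curI I t'| ≤ |t - t'|) →
    ∀ (δ : Type) [Fintype δ] (kp a φ τ : δ → ℝ) (Ψ : δ → ℂ → ℂ), GrOk CB I kp a φ τ Ψ →
      (datO I Q O).En ≤ (∑ i, oneH I Q O (curI I) i) + enC O +
        (∑ i, ∑ d, ES (obSr Q.jL Q.e (O i)) (T d)) + 1 / 2 * (∑ d, ∑ d', ES (T d) (T d')) +
        (∫ t : ℝ, I.s * P t * (I.A true t + I.A false t).re) + (∑ a, ∫ t, I.s * P t * I.B a t) -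
        2 * (∑ d, φ d * curI I (τ d)) + NUCR.bil (hd I.s I.η I.η1) (hd I.s I.η I.η1) +
        K0 * r + kap * win univ (fun i => ht (O i)) + Cc := by
  obtain ⟨C, hC, H⟩ := NUSea.H0.En_cfgC (δ := 1 / 8) (by norm_num) (by norm_num)
  obtain ⟨K2, hK2, H2⟩ := NUSea.H0.exists_muphi_tot NUC43.adm0
  obtain ⟨C3, hC3, H3⟩ := NUSea.H0.exists_lin_sum
  refine ⟨2 * C + 2 * K2 * (2 + W) + 2, by positivity, ?_⟩
  intro kap hkap κ CB hκ hCB k
  obtain ⟨m0, hm0⟩ := exists_numC C (6 * K2 + 6 * CB * K2) hkap k hκ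
  refine ⟨1 + CB + C3 * CB + 2 * K2 + 2 * CB * (3 * K2 + W), m0, ?_⟩
  intro m hm e1 he1 he1' I Q r O ι _ T hE hL δ _ kp a φ τ Ψ hG
  obtain ⟨n1, n2, n3, n4, n5, n6, n7, n8⟩ := hm0 m hm
  obtain ⟨mk, hmk⟩ : ∃ mk, mk = (m : ℝ) ^ (-κ) := ⟨_, rfl⟩
  obtain ⟨L, hLd⟩ : ∃ L, L = Real.log m := ⟨_, rfl⟩
  obtain ⟨dl, ε, M, e, hok, hε, hM, hdl⟩ := hE.ok
  rw [← hmk] at n2 n3 n4 n5 n6 n7 n8 hε hdl
  rw [← hLd] at n1 n3 n4 n5 n6 hM
  have hmk0 : 0 ≤ mk := by rw [hmk]; positivity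
  have hC0 : 0 < C := by linarith
  have hK20 : 0 < K2 := by linarith
  have hr0 : (0 : ℝ) ≤ r := Nat.cast_nonneg r
  have hε0 : 0 ≤ ε := hok.cur.ε0
  have hM0 : 0 ≤ M := hok.cur.M0 hok.s0
  have hTL : Tb (Real.log m) = 3 / 8 * L := by rw [hLd]; rfl
  obtain ⟨b, hb⟩ : ∃ b, b = (1 - e1) * Tb (Real.log m) := ⟨_, rfl⟩
  have hb0 : 0 ≤ b := hb ▸ hok.b0
  have hbL : b + 1 ≤ 2 * L := by
    rw [hb, hTL]
    nlinarith
  have hbL1 : b ≤ L := by
    rw [hb, hTL]
    nlinarith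
  have hMε : M * ε ≤ L ^ k * mk := mul_le_mul hM hε hε0 (by positivity)
  have hMε0 : 0 ≤ M * ε := mul_nonneg hM0 hε0
  have hMε1 : M * ε ≤ 1 := hMε.trans n4
  have t7 : C * (b + 1) ^ 7 * ε ≤ 1 := by
    calc C * (b + 1) ^ 7 * ε ≤ C * (2 * L) ^ 7 * mk := by gcongr
      _ ≤ 1 := n3
  have t9 : C * (b + 1) ^ 9 * M ^ 2 * ε ≤ 1 := by
    calc C * (b + 1) ^ 9 * M ^ 2 * ε ≤ C * (2 * L) ^ 9 * (L ^ k) ^ 2 * mk := by gcongr
      _ = C * (2 * L) ^ 9 * L ^ (2 * k) * mk := by rw [← pow_mul, mul_comm k 2]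
      _ ≤ 1 := n6
  have tb : b * (M * ε) ≤ 1 := by
    calc b * (M * ε) ≤ L * (L ^ k * mk) := by gcongr
      _ = L ^ (k + 1) * mk := by ring
      _ ≤ 1 := n5
  have hl := l_pos
  -- the exponent of the data
  have hPB : ∀ a, Integrable fun t => P t * I.B a t := fun a => by
    obtain ⟨c, hc⟩ := hok.Bb a
    exact NUSea.H0.P_B_int (hok.Bc a) hc
  have hL' : ∀ t t', |I.s * P t * I.η t - I.s * P t' * I.η t'| ≤ 1 * |t - t'| := fun t t' => by
    rw [one_mul]
    exact hL t t'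
  have hAd : NUC43.Adm Q.jL Q.e := by
    rw [hE.jL, hE.e]
    exact NUC43.adm0
  have h1 := H ε M b 1 e I Q r O ι T hok.pg hAd hok.s0 (hb ▸ hok.cur) hok.der hb0 t7 zero_le_one
    hL' (fun a => ext_mono (by linarith) (hok.Ae a)) hPB hE.Tok hE.sy hE.nu hE.tau
  have h1' := (abs_le.1 h1).2
  -- one body
  have s1 : (∑ i, (I.s * (∫ t, P t * NUO.lpL (cons Q O i) (NUP1.vl NUP1.l t)) +
      I.s * slkK (fun t => ∫ u, P u * NUC43.slk (u - t)) (kd (O i)) (ht (O i)) -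
      2 * Real.pi * (wK (kd (O i)) * (I.s * P (ht (O i)) * I.η (ht (O i)))))) =
      ∑ i, oneH I Q O (curI I) i := by
    refine sum_congr rfl fun i _ => ?_
    unfold oneH curI NUSea.O.mfo
    ring
  have s2 : 1 / 2 * (∑ i, ∑ k, Pool.Agent.NUM3.ER (NUC43.sgX Q.jL Q.e) (NUC43.sgY Q.jL Q.e)
      (NUC43.sgT Q.jL Q.e) (sp (O i) == sp (O k)) (kd (O i)) (kd (O k)) (ht (O i)) (ht (O k))) =
      enC O := by
    rw [hE.jL, hE.e]
    exact (NUC43.cfg_energy NUC43.adm0 O).symm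
  -- the linear term
  have hη : ε < l / 10 := hok.εl
  have s3 := H3 (A := 1) hok.s0 (hok.ε1.trans (by norm_num)) (hb ▸ hok.cur) hok.der hb0 hη hG.asy
    hG.diff (hd_le hok.der hL)
  have hηle : ∀ t, |(NUAct.zt (NUKer.iD I.η) t).im| < l / 10 := fun t => by
    have h2 : (NUAct.zt (NUKer.iD I.η) t).im = I.η t := by simp [NUAct.zt, NUKer.iD]
    rw [h2]
    exact (hok.eta t).trans_lt hη
  have e3 : (∫ t, NUSea.Bf I.s (NUKer.iD I.η) (NUKer.iD I.η1) t *
      ∑ d, Ψ d (NUAct.zt (NUKer.iD I.η) t)) =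
      ∫ t, NUSea.Bf I.s (NUKer.iD I.η) (NUKer.iD I.η1) t *
        (I.A true (NUAct.zt (NUKer.iD I.η) t) + I.A false (NUAct.zt (NUKer.iD I.η) t)) := by
    congr 1
    funext t
    rw [hG.sum _ (hηle t)]
  rw [e3] at s3
  have s3' := (abs_le.1 s3).2
  have hsz : ∑ d, kp d ≤ CB := by
    refine (sum_le_sum fun d _ => ?_).trans hG.size
    have := abs_nonneg (a d)
    have := abs_nonneg (φ d)
    linarith
  have s3'' : (∑ d, kp d) * 1 + C3 * (∑ d, (|a d| + |φ d| + kp d)) * b * (M * ε) ≤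
      CB + C3 * CB := by
    have h2 : C3 * (∑ d, (|a d| + |φ d| + kp d)) * b * (M * ε) ≤ C3 * CB * 1 := by
      rw [mul_assoc (C3 * _)]
      exact mul_le_mul (mul_le_mul_of_nonneg_left hG.size (by linarith)) tb (by positivity)
        (by positivity)
    linarith
  -- the remainder
  have hwin0 : 0 ≤ win univ (fun i => ht (O i)) := NUDispW.win_nonneg _ _
  have hwin1 : win univ (fun i => ht (O i)) ≤ (r : ℝ) ^ 2 := by
    have := NUDispW.win_le_card_sq univ (fun i => ht (O i))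
    rwa [card_univ, Fintype.card_fin] at this
  have hrr := hE.rr1
  have hrr0 : 0 ≤ ∑ i, rr Q O i := sum_nonneg fun i _ => (hok.rr1 i).1
  have hdl0 := hok.dl0
  have s4 : (∑ a, ∫ t, (datO I Q O).μ a t * (datO I Q O).φ a t) ≤
      (2 * K2 * (2 + W) + 1) * r + 2 * K2 + 2 * CB * (3 * K2 + W) +
        kap * win univ (fun i => ht (O i)) := by
    have h0 : ∀ a, (∫ t, (datO I Q O).μ a t * (datO I Q O).φ a t) ≤
        (K2 * (2 + W) + 1 / 2) * r + K2 + CB * (3 * K2 + W) +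
          kap / 2 * win univ (fun i => ht (O i)) := by
      intro a
      refine (le_abs_self _).trans (((H2 (O := O) hE.jL hE.e hok a W (hE.w0 a)).2).trans ?_)
      have q1 : dl * win univ (fun i => ht (O i)) ≤ 1 + 3 * mk * win univ (fun i => ht (O i)) := by
        have h1 : 1 / (6000 * ((r : ℝ) + 1) ^ 2) * win univ (fun i => ht (O i)) ≤ 1 := by
          rw [one_div_mul_eq_div, div_le_one (by positivity)]
          nlinarith
        nlinarith [mul_le_mul_of_nonneg_right hdl hwin0]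
      have q2 : dl * r ≤ 1 + 3 * mk * r := by
        have h1 : 1 / (6000 * ((r : ℝ) + 1) ^ 2) * r ≤ 1 := by
          rw [one_div_mul_eq_div, div_le_one (by positivity)]
          nlinarith
        nlinarith [mul_le_mul_of_nonneg_right hdl hr0]
      have q3 : (∫ t, |I.ν a t|) * (K2 * (M * ε + dl * r + ∑ i, rr Q O i) + W) ≤
          CB * (K2 * (1 + (1 + 3 * mk * r) + 1) + W) := by
        refine mul_le_mul (hE.mass a) ?_ (by positivity) hCB
        have : K2 * (M * ε + dl * r + ∑ i, rr Q O i) ≤ K2 * (1 + (1 + 3 * mk * r) + 1) :=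
          mul_le_mul_of_nonneg_left (by linarith) hK20.le
        linarith
      have q4 : K2 * (r * (M * ε + (∑ i, rr Q O i) + W) + dl * win univ (fun i => ht (O i))) ≤
          K2 * (r * (2 + W) + (1 + 3 * mk * win univ (fun i => ht (O i)))) := by
        refine mul_le_mul_of_nonneg_left ?_ hK20.le
        have : (r : ℝ) * (M * ε + (∑ i, rr Q O i) + W) ≤ r * (2 + W) :=
          mul_le_mul_of_nonneg_left (by linarith) hr0
        linarith
      have q5 : K2 * (3 * mk * win univ (fun i => ht (O i))) ≤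
          kap / 2 * win univ (fun i => ht (O i)) := by
        have h5 : 6 * K2 * mk ≤ kap := by
          have : 0 ≤ 6 * CB * K2 * mk := by positivity
          linarith
        have h6 : K2 * (3 * mk) ≤ kap / 2 := by linarith
        calc K2 * (3 * mk * win univ (fun i => ht (O i))) =
            K2 * (3 * mk) * win univ (fun i => ht (O i)) := by ring
          _ ≤ _ := mul_le_mul_of_nonneg_right h6 hwin0
      have q6 : CB * (K2 * (3 * mk * r)) ≤ 1 / 2 * r := by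
        have h5 : 6 * CB * K2 * mk ≤ 1 := by
          have : 0 ≤ 6 * K2 * mk := by positivity
          linarith
        have h6 : CB * (K2 * (3 * mk)) ≤ 1 / 2 := by linarith
        calc CB * (K2 * (3 * mk * r)) = CB * (K2 * (3 * mk)) * r := by ring
          _ ≤ _ := mul_le_mul_of_nonneg_right h6 hr0
      linarith
    rw [Fintype.sum_bool]
    have g1 := h0 true
    have g2 := h0 false
    linarith
  have s5 : C * r * (M * ε + 1) ≤ 2 * C * r := by
    have : C * r * (M * ε + 1) ≤ C * r * (1 + 1) := mul_le_mul_of_nonneg_left (by linarith)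
      (by positivity)
    linarith
  have e4 : (∑ d, φ d * (I.s * P (τ d) * I.η (τ d))) = ∑ d, φ d * curI I (τ d) := rfl
  rw [s1, s2] at h1'
  rw [e4] at s3'
  linarith

/-! ### the linear term and the energy of the current -/

/-- **ends and groups against the current**: phase `12 l` at the origin, total negative phase of the
groups at most `6 l` -/
theorem lin_cur {e1 J Cb : ℝ} {m : ℕ} {h h' : ℝ → ℝ} (hc : CuOk e1 J Cb m h h') {δ : Type*} [Fintype δ]
    {φ τ : δ → ℝ} (hφ : ∑ d, max (-(φ d)) 0 ≤ 6 * l) :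
    -(2 * (12 * l * h 0 + ∑ d, φ d * h (τ d))) + NUCR.bil h' h' ≤
      -((1 - e1) * Tb (Real.log m)) + Cb := by
  have h0 := hc.nn 0
  have h1 : ∀ d, -(max (-(φ d)) 0 * h 0) ≤ φ d * h (τ d) := by
    intro d
    have a1 := hc.nn (τ d)
    have a2 := hc.le0 (τ d)
    have a3 := le_max_left (-(φ d)) 0
    have a4 := le_max_right (-(φ d)) 0
    nlinarith
  have h2 : -(6 * l * h 0) ≤ ∑ d, φ d * h (τ d) := by
    calc -(6 * l * h 0) ≤ -((∑ d, max (-(φ d)) 0) * h 0) := by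
          have := mul_le_mul_of_nonneg_right hφ h0
          linarith
      _ = ∑ d, -(max (-(φ d)) 0 * h 0) := by rw [Finset.sum_mul, Finset.sum_neg_distrib]
      _ ≤ _ := sum_le_sum fun d _ => h1 d
  have h3 := hc.en
  have hl : l = Real.pi / 8 := rfl
  rw [← hl] at h3
  linarith

/-! ### ends and groups -/

lemma yw_abs (w : ℂ) (k : ℤ) : |NUO.yw w k| ≤ 4 * l := by
  have hl := l_pos
  unfold NUO.yw
  rw [abs_mul, abs_of_pos hl]
  exact mul_le_mul_of_nonneg_right (NUO.abs_red_le _) hl.le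

lemma wph_abs (L : List (ℤ × ℝ)) (w : ℂ) : |NUSp.wph L w| ≤ NUSp.wn L * (4 * l) := by
  induction L with
  | nil => simp
  | cons a L ih =>
    rw [NUSp.wph_cons, NUSp.wn_cons, add_mul]
    refine (abs_add_le _ _).trans (add_le_add ?_ ih)
    rw [abs_mul]
    exact mul_le_mul_of_nonneg_left (yw_abs w a.1) (abs_nonneg _)

lemma sum_map_abs {α : Type*} (L : List α) (f : α → ℝ) {c : ℝ} (h : ∀ x ∈ L, |f x| ≤ c) :
    |(L.map f).sum| ≤ L.length * c := by
  induction L with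
  | nil => simp
  | cons a L ih =>
    rw [List.map_cons, List.sum_cons, List.length_cons]
    push_cast
    rw [add_mul, one_mul, add_comm _ c]
    exact (abs_add_le _ _).trans (add_le_add (h a (by simp)) (ih fun x hx => h x (by simp [hx])))

lemma gph_abs (s : Bool) (G : NUSp.Grp) : |NUSp.gph s G| ≤ NUSp.gn G * (4 * l) := by
  have hl := l_pos
  have h1 := sum_map_abs G.hs (fun h => NUSp.wph (NUSp.hlt (decide (s = h.1))) h.2) (c := 3 * (4 * l))
    fun x _ => by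
      have := wph_abs (NUSp.hlt (decide (s = x.1))) x.2
      rwa [NUSp.wn_hlt] at this
  have h2 := sum_map_abs G.cs (fun x => NUSp.wph (NUO.mlt (decide (s = x.1)) x.2.1) x.2.2)
    (c := 6 * (4 * l)) fun x _ => by
      refine (wph_abs _ _).trans (mul_le_mul_of_nonneg_right (NUSp.wn_mlt _ _) (by positivity))
  unfold NUSp.gph NUSp.gn
  refine (abs_add_le _ _).trans ((add_le_add h1 h2).trans (le_of_eq ?_))
  ring

/-- phases of the ends (`none`) and of the groups, both species together -/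
def φD (p q : ℂ) {n : ℕ} (G : Fin n → NUSp.Grp) : Option (Fin n) → ℝ
  | none => 2 * (NUSp.wph NUSp.wth p + NUSp.wph NUSp.wth q)
  | some i => NUSp.gph true (G i) + NUSp.gph false (G i)

/-- sizes -/
def kD (δ b : ℝ) {n : ℕ} (G : Fin n → NUSp.Grp) : Option (Fin n) → ℝ
  | none => 4 * NUSp.ka δ b
  | some i => 2 * (NUSp.gn (G i) * NUSp.ka δ b)

/-- the potentials, both species together -/
def ΨD (p q : ℂ) {n : ℕ} (G : Fin n → NUSp.Grp) (i : Option (Fin n)) (z : ℂ) : ℂ :=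
  NUSea.H0.fD p q G i true z + NUSea.H0.fD p q G i false z

/-- bound of the sizes -/
def szD (δ N : ℝ) (n : ℕ) : ℝ := (n + 1) * (2 * N * (4 * l + NUSp.ka δ (l / 10)))

theorem szD_nonneg {δ N : ℝ} (hδ : 1 / 10 < δ) (hδ1 : δ ≤ 1) (hN : 0 ≤ N) (n : ℕ) : 0 ≤ szD δ N n := by
  have hl := l_pos
  have hk := NUSp.ka_nonneg (δ := δ) (b := l / 10) (by nlinarith) hδ1 (by positivity)
  unfold szD
  positivity

/-- **ends and groups** -/
theorem grOk_D {δ N : ℝ} {p q : ℂ} {n : ℕ} {G : Fin n → NUSp.Grp} {τ : Fin n → ℝ} {I : Inp}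
    (hδ : 1 / 10 < δ) (hδ1 : δ ≤ 1) (hp : NUO.Away δ p) (hq : NUO.Away δ q) (hpq : q.im = p.im)
    (hG : ∀ i, (G i).Ok δ (τ i)) (hN : 2 ≤ N) (hn : ∀ i, NUSp.gn (G i) ≤ N)
    (hA : ∀ a z, |z.im| < l / 10 → I.A a z = ∑ i, NUSea.H0.fD p q G i a z) :
    GrOk (szD δ N n) I (kD δ (l / 10) G) (fun _ => 0) (φD p q G) (NUSea.H0.hD p τ) (ΨD p q G) := by
  have hl := l_pos
  have hb : l / 10 < δ * l := by nlinarith
  have hb0 : 0 < l / 10 := by positivity
  have hk := NUSp.ka_nonneg (δ := δ) (b := l / 10) hb hδ1 hb0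
  refine ⟨fun d => ?_, fun d z hz => ?_, fun z hz => ?_, ?_⟩
  · rcases d with _ | i
    · have h1 := NUSp.asy_th hb hp hq hpq
      have h2 := h1.add h1
      have e1 : 2 * NUSp.ka δ (l / 10) + 2 * NUSp.ka δ (l / 10) = 4 * NUSp.ka δ (l / 10) := by ring
      have e2 : NUSp.wph NUSp.wth p + NUSp.wph NUSp.wth q +
          (NUSp.wph NUSp.wth p + NUSp.wph NUSp.wth q) =
          2 * (NUSp.wph NUSp.wth p + NUSp.wph NUSp.wth q) := by ring
      rw [e1, e2, add_zero] at h2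
      exact h2
    · have h1 := NUSp.asy_gp hb0 hb hδ1 true (hG i)
      have h2 := NUSp.asy_gp hb0 hb hδ1 false (hG i)
      have h3 := h1.add h2
      have e0 := NUSp.gq_neutral (G i)
      have e1 : NUSp.gn (G i) * NUSp.ka δ (l / 10) + NUSp.gn (G i) * NUSp.ka δ (l / 10) =
          2 * (NUSp.gn (G i) * NUSp.ka δ (l / 10)) := by ring
      have e2 : -(NUSp.gq true (G i) * Real.log 2) + -(NUSp.gq false (G i) * Real.log 2) = 0 := by
        rw [← neg_add, ← add_mul, e0]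
        ring
      rw [e0, e1, e2] at h3
      exact h3
  · rcases d with _ | i
    · have h1 := ((NUSp.potB_th hb0 hb hp hq hpq).hd z hz).differentiableAt
      exact h1.add h1
    · have h1 := ((NUSp.potB_gp hb0 hb true (hG i)).hd z hz).differentiableAt
      have h2 := ((NUSp.potB_gp hb0 hb false (hG i)).hd z hz).differentiableAt
      exact h1.add h2
  · rw [hA true z hz, hA false z hz, ← Finset.sum_add_distrib]
    rfl
  · have h0 : ∀ d : Option (Fin n), |(0:ℝ)| + |φD p q G d| + kD δ (l / 10) G d ≤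
        2 * N * (4 * l + NUSp.ka δ (l / 10)) := by
      intro d
      rw [abs_zero, zero_add]
      rcases d with _ | i
      · have a1 := wph_abs NUSp.wth p
        have a2 := wph_abs NUSp.wth q
        rw [NUSp.wn_wth, one_mul] at a1 a2
        have a3 : |φD p q G none| ≤ 16 * l := by
          show |2 * (NUSp.wph NUSp.wth p + NUSp.wph NUSp.wth q)| ≤ 16 * l
          rw [abs_mul, abs_two]
          have := abs_add_le (NUSp.wph NUSp.wth p) (NUSp.wph NUSp.wth q)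
          linarith
        have a4 : kD δ (l / 10) G none = 4 * NUSp.ka δ (l / 10) := rfl
        rw [a4]
        nlinarith
      · have a1 := gph_abs true (G i)
        have a2 := gph_abs false (G i)
        have a3 : |φD p q G (some i)| ≤ 2 * (NUSp.gn (G i) * (4 * l)) := by
          have := abs_add_le (NUSp.gph true (G i)) (NUSp.gph false (G i))
          have e : φD p q G (some i) = NUSp.gph true (G i) + NUSp.gph false (G i) := rfl
          rw [e]
          linarith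
        have a4 : kD δ (l / 10) G (some i) = 2 * (NUSp.gn (G i) * NUSp.ka δ (l / 10)) := rfl
        rw [a4]
        have a5 := hn i
        calc |φD p q G (some i)| + 2 * (NUSp.gn (G i) * NUSp.ka δ (l / 10)) ≤
            2 * NUSp.gn (G i) * (4 * l + NUSp.ka δ (l / 10)) := by linarith
          _ ≤ _ := by gcongr
    refine (Finset.sum_le_sum fun d _ => h0 d).trans (le_of_eq ?_)
    rw [sum_const, card_univ, Fintype.card_option, Fintype.card_fin, nsmul_eq_mul]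
    unfold szD
    push_cast
    ring

/-- the phase of the ends, rows between `-l` and `l` -/
theorem φD_none {p q : ℂ} (hp : |p.re| < l) (hq : |q.re| < l) {n : ℕ} (G : Fin n → NUSp.Grp) :
    φD p q G none = 12 * l := by
  have hl := l_pos
  have h1 : ∀ {p : ℂ}, |p.re| < l → NUSp.wph NUSp.wth p = 3 * l := by
    intro p hp
    have h2 := abs_lt.1 hp
    refine NUSp.wph_wth ?_ ?_
    · rw [lt_div_iff₀ hl]
      linarith [h2.1]
    · rw [div_lt_one hl]
      exact h2.2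
  unfold φD
  simp only
  rw [h1 hp, h1 hq]
  ring

/-- the negative phase of a class is at most `3 l` -/
theorem neg_ph (c : NUSp.Cl) (σ rt : Bool) {w : ℂ} (h : NUSp.rg c rt (w.re / l)) :
    max (-(NUSp.gph true (NUSp.grp c σ w) + NUSp.gph false (NUSp.grp c σ w))) 0 ≤ 3 * l := by
  have hl := l_pos
  have e : NUSp.gph true (NUSp.grp c σ w) + NUSp.gph false (NUSp.grp c σ w) =
      (NUSp.phX c rt (w.re / l) + NUSp.phY c rt (w.re / l)) * l := by
    rw [NUSp.gph_eq c true σ rt h, NUSp.gph_eq c false σ rt h]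
    unfold NUSp.phc
    cases σ
    · simp
      ring
    · simp
      ring
  rw [e]
  refine max_le ?_ (by positivity)
  have h1 : -3 ≤ NUSp.phX c rt (w.re / l) + NUSp.phY c rt (w.re / l) := by
    cases c <;> cases rt <;> simp only [NUSp.phX, NUSp.phY] <;> linarith
  nlinarith

/-- **the exponent of a configuration with ends and groups, current of TARGET-C** -/
theorem exists_enC {W : ℝ} (hW : 0 ≤ W) : ∃ K0 : ℝ, 0 ≤ K0 ∧ ∀ kap : ℝ, 0 < kap → ∀ κ CB : ℝ, 0 < κ →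
    0 ≤ CB → ∀ k : ℕ, ∀ δ0 N : ℝ, 1 / 10 < δ0 → δ0 ≤ 1 → 2 ≤ N → ∀ n : ℕ,
    ∃ (Cc : ℝ) (m0 : ℕ), ∀ m ≥ m0, ∀ e1 : ℝ, 0 < e1 → e1 ≤ 1 / 100 → ∀ J Cb : ℝ,
    ∀ (I : Inp) (Q : Par) (r : ℕ) (O : Fin r → Xo) (ι : Type) [Fintype ι] (T : ι → Sr),
    EnOk e1 κ W CB k m I Q O T → CuOk e1 J Cb m (curI I) (hd I.s I.η I.η1) →
    ∀ (p q : ℂ) (G : Fin n → NUSp.Grp) (τ : Fin n → ℝ),
      NUO.Away δ0 p → NUO.Away δ0 q → p.im = 0 → q.im = 0 → |p.re| < l → |q.re| < l →
      (∀ i, (G i).Ok δ0 (τ i)) → (∀ i, NUSp.gn (G i) ≤ N) →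
      ∑ i, max (-(NUSp.gph true (G i) + NUSp.gph false (G i))) 0 ≤ 6 * l →
      (∀ a z, |z.im| < l / 10 → I.A a z = ∑ i, NUSea.H0.fD p q G i a z) →
      (datO I Q O).En ≤ (∑ i, oneH I Q O (NUCUR.cur e1 (Tb (Real.log m)) J) i) + enC O +
        (∑ i, ∑ d, ES (obSr Q.jL Q.e (O i)) (T d)) + 1 / 2 * (∑ d, ∑ d', ES (T d) (T d')) +
        (∫ t : ℝ, I.s * P t * (I.A true t + I.A false t).re) + (∑ a, ∫ t, I.s * P t * I.B a t) -
        (1 - e1) * Tb (Real.log m) + K0 * r + kap * win univ (fun i => ht (O i)) + Cc + Cb := by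
  obtain ⟨K0, hK0, H⟩ := exists_enG hW
  refine ⟨K0, hK0, ?_⟩
  intro kap hkap κ CB hκ hCB k δ0 N hδ hδ1 hN n
  have hsz := szD_nonneg hδ hδ1 (by linarith : 0 ≤ N) n
  obtain ⟨Cc, m0, H⟩ := H kap hkap κ (max CB (szD δ0 N n)) hκ (hCB.trans (le_max_left _ _)) k
  refine ⟨Cc, m0, ?_⟩
  intro m hm e1 he1 he1' J Cb I Q r O ι _ T hE hC p q G τ hp hq hp0 hq0 hpl hql hG hn hph hA
  have hE' : EnOk e1 κ W (max CB (szD δ0 N n)) k m I Q O T :=
    { hE with mass := fun a => (hE.mass a).trans (le_max_left _ _) }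
  have hgr := grOk_D hδ hδ1 hp hq (hq0.trans hp0.symm) hG hN hn hA
  have hgr' : GrOk (max CB (szD δ0 N n)) I (kD δ0 (l / 10) G) (fun _ => 0) (φD p q G)
      (NUSea.H0.hD p τ) (ΨD p q G) :=
    { hgr with size := hgr.size.trans (le_max_right _ _) }
  have h1 := H m hm e1 he1 he1' I Q r O ι T hE' hC.lip _ _ _ _ _ _ hgr'
  have h2 := lin_cur (τ := τ) hC hph
  have e1' : (∑ d, φD p q G d * curI I (NUSea.H0.hD p τ d)) =
      12 * l * curI I 0 + ∑ i, (NUSp.gph true (G i) + NUSp.gph false (G i)) * curI I (τ i) := by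
    rw [Fintype.sum_option, φD_none hpl hql]
    congr 2
    show curI I p.im = curI I 0
    rw [hp0]
  rw [e1'] at h1
  have h3 : (∑ i, oneH I Q O (curI I) i) ≤ ∑ i, oneH I Q O (NUCUR.cur e1 (Tb (Real.log m)) J) i :=
    sum_le_sum fun i _ => oneH_mono I Q O hC.ge i
  linarith

end NUGC

end
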