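import Pool.Agent.NUGC.InC
import Pool.Agent.NUSea.Par0G
import Pool.Agent.NUS4C.GDSp
import Pool.Agent.NUO.GasG

/-!
# The data of TARGET-C: the one body factors in the bulk

`parG_C`: the parameters; `exists_geoC`: the geometry; `exists_gdC`: for near groups the one body factors
of `inC` satisfy `NUS4C.GD`.
-/

set_option autoImplicit false
set_option linter.unusedSectionVars false

open MeasureTheory Set Filter Topology

namespace NUGC

open NUO (Xo ht Par Tb TW excS chgO)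
open NUSea.H0

noncomputable section

variable [NUSea.Sea]

/-- the parameters of TARGET-C -/
theorem parG_C (m : ℕ) : NUO.ParG m (NUSea.O.par0 m) where
  jL := rfl
  e := rfl
  d0 r := (NUO.d0_pos r).le
  d1 r := by rw [NUSea.O.par0_d, NUO.d0_mul]
  r0 r t := (NUSea.O.rad0_pos m r t).le
  r1 r t := by
    have h1 := NUO.d0_pos r
    have h2 := NUO.l_pos0
    have h4 := NUO.log_nn m
    rw [NUSea.O.par0_rad, NUSea.O.par0_d]
    have h5 := NUSea.O.rad0_le1 m r t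
    rwa [le_div_iff₀ (by positivity)] at h5

/-- the ends -/
lemma pE_re : pE.re = -(NUMF.l / 2) := Complex.ofReal_re _
lemma pE_im : pE.im = 0 := Complex.ofReal_im _
lemma qE_re : qE.re = NUMF.l / 2 := Complex.ofReal_re _
lemma qE_im : qE.im = 0 := Complex.ofReal_im _

/-- the geometry, for large `m` -/
theorem exists_geoC {κ : ℝ} (hκ : 0 < κ) : ∃ m0 : ℕ, ∀ m : ℕ, m0 ≤ m → ∀ {r : ℕ} {I : Inp}
    {P : Par} (O : Fin r → Xo) {dl ε Mc b : ℝ} {e : ℝ → ℝ}, IOk dl ε Mc b e I P r →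
    ε ≤ (m : ℝ) ^ (-κ) → ∃ Cκ, Geo (datO I P O) Cκ := by
  obtain ⟨K, hK, H⟩ := exists_geo
  have h1 : Filter.Tendsto (fun m : ℕ => (m : ℝ) ^ (-κ)) Filter.atTop (nhds 0) :=
    (tendsto_rpow_neg_atTop hκ).comp tendsto_natCast_atTop_atTop
  have h2 := h1.eventually_le_const (u := 1 / K) (by positivity)
  obtain ⟨m0, hm0⟩ := Filter.eventually_atTop.1 h2
  refine ⟨m0, fun m hm r I P O dl ε Mc b e hI hε => ⟨K * ε, H hI ?_⟩⟩
  have h3 := hε.trans (hm0 m hm)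
  rw [le_div_iff₀ (by linarith)] at h3
  linarith

/-- **the one body factors in the bulk**, near groups -/
theorem exists_gdC {ep e1 J κ : ℝ} (hep : 0 < ep) (hep1 : ep ≤ 1 / 100) (he : 0 < e1)
    (he1 : e1 ≤ 1 / 100) (hκ : 0 < κ) (G k : ℕ) (hk : 3 ≤ k) : ∃ m0 : ℕ, ∀ M m : ℕ, m = 2 * M + 1 →
    m0 ≤ m → ∀ (b' : ℝ), |b'| ≤ 1 → ∀ (T1 x : ℝ) (g : Fin G → Gd) (B1 : ℝ → ℝ) (r : ℕ)
      (O : Fin r → Xo), TW ep e1 m ≤ T1 → (∀ i, |(g i).τ| ≤ TW ep e1 m) →
      Measurable (cfC ep e1 J m M G T1 x) → (∀ t, 0 ≤ cfC ep e1 J m M G T1 x t) →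
      (∃ (dl ε Mc : ℝ) (e : ℝ → ℝ), IOk dl ε Mc ((1 - e1) * Tb (Real.log m)) e
        (inC e1 J m T1 b' g B1) (NUSea.O.par0 m) r ∧ ε ≤ (m : ℝ) ^ (-κ) ∧ Mc ≤ Real.log m ^ k) →
      (r : ℝ) ≤ Real.log m → (∀ i, |ht (O i)| ≤ Real.log m ^ 2) →
      NUS4C.GD m (k + 5) κ e1 (ep / 2) m (2 * Real.log m ^ 2) ((1 - e1) * Tb (Real.log m))
        (etaC e1 J m m) (etaC' e1 J m m) (etaC e1 J m m) (etaC' e1 J m m)
        (fun t => aCC e1 J m T1 b' g B1 O true t * cfC ep e1 J m M G T1 x t)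
        (fun t => aCC e1 J m T1 b' g B1 O false t * cfC ep e1 J m M G T1 x t) := by
  have hl3 : (3 : ℝ) / 8 < NUMF.l := by
    unfold NUMF.l
    have := Real.pi_gt_three
    linarith
  obtain ⟨m1, H⟩ := NUS4C.gd_inp (κ := κ) (δ := 1 / 4) hep hep1 he (by linarith) hκ
    (by linarith) G k hk
  obtain ⟨m2, H2⟩ := exists_geoC hκ
  have h4 := (Real.tendsto_log_atTop.comp tendsto_natCast_atTop_atTop).eventually_ge_atTop (3 : ℝ)
  obtain ⟨m3, hm3⟩ := Filter.eventually_atTop.1 h4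
  refine ⟨max (max m1 m2) (max m3 3), fun M m hmM hm b' hb' T1 x g B1 r O hT1 hg hcm hc0 hI hr hht => ?_⟩
  have k1 : m1 ≤ m := (le_max_left _ _).trans ((le_max_left _ _).trans hm)
  have k2 : m2 ≤ m := (le_max_right _ _).trans ((le_max_left _ _).trans hm)
  have k3 : m3 ≤ m := (le_max_left _ _).trans ((le_max_right _ _).trans hm)
  have k4 : 3 ≤ m := (le_max_right _ _).trans ((le_max_right _ _).trans hm)
  obtain ⟨dl, ε, Mc, e, hI1, hε, hMc⟩ := hI
  obtain ⟨Cκ, hG⟩ := H2 m k2 O hI1 hε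
  have hL : 3 ≤ Real.log m := hm3 m k3
  have hmp : (0 : ℝ) ≤ m := Nat.cast_nonneg m
  have hTb : Tb (Real.log m) = 3 / 8 * Real.log m := rfl
  have hTW : TW ep e1 m = (1 + 2 * e1 + 2 * ep) * (3 / 8 * Real.log m) := rfl
  have hbT : (1 - e1) * Tb (Real.log m) ≤ T1 := by
    refine le_trans ?_ hT1
    rw [hTW, hTb]
    refine mul_le_mul_of_nonneg_right (by linarith) (by linarith)
  have hTWL : TW ep e1 m ≤ Real.log m ^ 2 := by
    rw [hTW]
    nlinarith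
  have hm5 : (m : ℝ) ≤ 5 * M := by
    have : m ≤ 5 * M := by omega
    exact_mod_cast this
  have hgT : ∀ i, |(g i).τ| ≤ T1 := fun i => (hg i).trans hT1
  have hra : raC e1 J m T1 b' g = fun _ _ => -(b' / 2) := by
    funext a t
    have : BF T1 g (etaC e1 J m m) a t = 0 :=
      Finset.sum_eq_zero fun i _ => NUSp.remG_zero (by rw [Gd.im]; exact hgT i) _ _ _ _ _
    unfold raC
    rw [this]
    ring
  have key := H m k1 (inC e1 J m T1 b' g B1) (NUSea.O.par0 m) (2 * Real.log m ^ 2) M pE qE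
    (List.ofFn fun i => (gP T1 g i).G) r O (raC e1 J m T1 b' g) (cfC ep e1 J m M G T1 x) Cκ
    (by show (m : ℝ) / 2 ≤ m; linarith) (by show (m : ℝ) ≤ 2 * m; linarith) hm5 hI1.pg (by nlinarith)
    le_rfl (by rw [hTb]; nlinarith) ⟨ε, Mc, e, hI1.cur, hε, hMc⟩ hI1.der hG (fun a => rfl)
    (away_p pE_re) (away_q qE_re) pE_im qE_im (by rw [List.length_ofFn]) ?_ ?_ ?_ hcm hc0 ?_ hr hht
  · exact key
  · intro G' hG'
    rw [List.mem_ofFn] at hG'
    obtain ⟨i, rfl⟩ := hG'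
    refine ⟨NUSp.gn_grp _ _ _, (gP T1 g i).τ, ?_, (gP T1 g i).ok⟩
    unfold gP
    rw [Gd.pin_of_le (hgT i)]
    exact (hg i).trans hTWL
  · intro a
    rw [hra]
    refine NUR2.Ext.of_O (NUOC.O.const 4 ?_)
    rw [abs_neg, abs_div, abs_two]
    have : (1 : ℝ) ≤ Real.log m ^ k := one_le_pow₀ (by linarith)
    linarith
  · intro a
    rw [hra]
    exact measurable_const
  · intro t ht
    unfold cfC
    rw [hfar_in (ht.trans hbT), mul_one]
    rfl

end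

end NUGC
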