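import Pool.Agent.NUGC.DspH
import Pool.Agent.NUSp.Cls

/-!
# Direct factors of two groups of spectators (board/GAM G3, helper25)

`dirG G G'`: modulus of the pair factor of the members of `G` with the members of `G'` (groups of
different types).  `dirG_le`: for the classes `W1`, `F0`, `P1`, `Hs`, `Hs+` at heights `τ`, `τ'` it is
at most `C cosh (τ - τ') ^ (-(q q' / 2 + 1 / 2))`, `q`, `q'` the charges (`NUSp.qc`) in units of a
half quantum.
-/

set_option autoImplicit false
set_option linter.unusedSimpArgs false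

noncomputable section

open Complex Finset

namespace NUGC

open NUP1 NUO NUDirP NUSp

/-- modulus of the pair factor of two groups of different types -/
def dirG (G G' : Grp) : ℝ :=
  (G.hs.map fun h => (G'.hs.map fun h' => ‖Leg.Dk (h.2 - h'.2)‖).prod).prod *
    (G.cs.map fun x => (G'.hs.map fun h' => ‖hqp x h'‖).prod).prod *
    (G'.cs.map fun x' => (G.hs.map fun h => ‖hqp x' h‖).prod).prod *
    (G.cs.map fun x => (G'.cs.map fun x' => ‖pp x x'‖).prod).prod

/-- a member: species, `none` = half quantum, `some b` = quantum or string, position in units `l / 8` -/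
abbrev Mb := Bool × Option Bool × ℤ

/-- position -/
def mpo (m : Mb) (τ : ℝ) : ℂ := vl ((m.2.2 : ℝ) * (l / 8)) τ

/-- pair factor of two members -/
def pf (τ τ' : ℝ) (m m' : Mb) : ℝ :=
  match m.2.1, m'.2.1 with
  | none, none => ‖Leg.Dk (mpo m τ - mpo m' τ')‖
  | some b, none => ‖hqp (m.1, b, mpo m τ) (m'.1, mpo m' τ')‖
  | none, some b => ‖hqp (m'.1, b, mpo m' τ') (m.1, mpo m τ)‖
  | some b, some b' => ‖pp (m.1, b, mpo m τ) (m'.1, b', mpo m' τ')‖

/-- lists of a constituent -/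
def cL (same b b' : Bool) : List (ℤ × ℤ) := if b' then tL same b else sL same b

/-- difference of the positions and list of a pair -/
def lst (m m' : Mb) : ℤ × List (ℤ × ℤ) :=
  match m.2.1, m'.2.1 with
  | none, none => (m.2.2 - m'.2.2, hL false false)
  | some b, none => (m'.2.2 - m.2.2, hL (m.1 == m'.1) b)
  | none, some b => (m.2.2 - m'.2.2, hL (m'.1 == m.1) b)
  | some b, some b' => (m'.2.2 - m.2.2, cL (m.1 == m'.1) b b')

/-- no pole -/
def Gd (m m' : Mb) : Prop := ∀ p ∈ (lst m m').2, p.2 < 0 → ¬ (64 : ℤ) ∣ (lst m m').1 + p.1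

instance (m m' : Mb) : Decidable (Gd m m') := by unfold Gd; infer_instance

/-- growth -/
def dg (m m' : Mb) : ℤ := ((lst m m').2.map fun p => p.2).sum

lemma cL_abs : ∀ same b b' : Bool, ((cL same b b').map fun p => p.2.natAbs).sum ≤ 8 := by decide

lemma hL_abs : ∀ same b : Bool, ((hL same b).map fun p => p.2.natAbs).sum ≤ 8 := by decide

lemma lst_abs (m m' : Mb) : ((lst m m').2.map fun p => p.2.natAbs).sum ≤ 8 := by
  obtain ⟨a, k, n⟩ := m
  obtain ⟨a', k', n'⟩ := m'
  rcases k with _ | b <;> rcases k' with _ | b'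
  · exact hL_abs false false
  · exact hL_abs (a' == a) b'
  · exact hL_abs (a == a') b
  · exact cL_abs (a == a') b b'

lemma hqp_eq (x : Bool × Bool × ℂ) (h : Bool × ℂ) : ‖hqp x h‖ = fac (hq h.1 h.2) x := by
  obtain ⟨s, b, u⟩ := x
  obtain ⟨a, w⟩ := h
  have e : w - (u - l) = w - u + l := by ring
  unfold hqp fac hq
  simp only [e]
  by_cases hs : s = a
  · cases b <;> simp [hs, norm_mul]
  · cases b <;> simp [hs, norm_mul]

/-- two constituents -/
lemma pp_le (s b a b' : Bool) (u v : ℂ) :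
    ‖pp (s, b, u) (a, b', v)‖ ≤ FL (cL (s == a) b b') (v - u) := by
  unfold cL
  cases b'
  · -- quantum
    simp only [Bool.false_eq_true, if_false]
    unfold pp
    by_cases h : s = a
    · rw [beq_iff_eq.2 h]
      cases b
      · simp only [h, if_true, Kn.pz]
        rw [show u - v = -(v - u) by ring]
        have : ‖q (-(v - u))‖ = ‖q (v - u)‖ := by
          have h2 := q_norm (v - u)
          rw [q_neg]
        rw [this]
        exact (q_norm _).le
      · simp only [h, if_true, Kn.pz]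
        rw [show -(u - v) = v - u by ring]
        unfold q1
        simp only [sL, FL_cons, FL_nil, a0, a8, am16, a24, zpow_one, norm_mul]
        apply le_of_eq
        ring
    · rw [beq_eq_false_iff_ne.2 h]
      cases b
      · simp only [h, if_false, Kn.cz]
        rw [show u - v = -(v - u) by ring, Bd.qg_neg]
        exact (qg_norm _).le
      · simp only [h, if_false, Kn.cz]
        have e1 : Bd.qg (u - v - l) = Bd.qg (v - u + l) := by
          rw [← Bd.qg_neg]
          congr 1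
          ring
        rw [norm_mul, e1, show u - v = -(v - u) by ring, Bd.qg_neg]
        exact qg_str _
  · simp only [if_true]
    refine le_trans (le_of_eq ?_) (fac_tq a v s b u)
    unfold fac tq
    cases b
    · simp
    · simp only [if_true]
      unfold pp
      by_cases h : s = a
      · simp only [h, if_true, Kn.pz, q2, norm_mul]
        rw [show u - v - l = u - l - v by ring]
      · simp only [h, if_false, Kn.cz, norm_mul]
        rw [show u - l - v = u - v - l by ring, show u - v - l + l = u - v by ring]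
        ring

/-- **one pair** -/
theorem pf_le {m m' : Mb} (good : Gd m m') (τ τ' : ℝ) :
    0 ≤ pf τ τ' m m' ∧ pf τ τ' m m' ≤ 128 ^ 8 * Real.cosh (τ - τ') ^ dg m m' := by
  have key : ∀ (x : ℤ) (L : List (ℤ × ℤ)) (s : ℝ) (z : ℂ),
      (∀ p ∈ L, p.2 < 0 → ¬ (64 : ℤ) ∣ x + p.1) →
      (L.map fun p => p.2.natAbs).sum ≤ 8 → z = (((x : ℝ) * (l / 8) : ℝ) : ℂ) + s * I →
      FL L z ≤ 128 ^ 8 * Real.cosh s ^ (L.map fun p => p.2).sum := by
    intro x L s z h1 h2 h3
    have h4 := FL_le (L := L) (x := x) (s := s) (δ := 0) (by norm_num) h1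
    rw [add_zero, ← h3] at h4
    refine h4.trans ?_
    apply mul_le_mul_of_nonneg_right _ (zpow_nonneg (Real.cosh_pos s).le _)
    exact pow_le_pow_right₀ (by norm_num) h2
  have hab := lst_abs m m'
  have hc : Real.cosh (τ' - τ) = Real.cosh (τ - τ') := by rw [← Real.cosh_neg, neg_sub]
  obtain ⟨a, k, n⟩ := m
  obtain ⟨a', k', n'⟩ := m'
  have d1 : mpo (a, k, n) τ - mpo (a', k', n') τ' = ((((n - n' : ℤ) : ℝ) * (l / 8) : ℝ) : ℂ) +
      ((τ - τ' : ℝ) : ℂ) * I := by
    unfold mpo vl; push_cast; ring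
  have d2 : mpo (a', k', n') τ' - mpo (a, k, n) τ = ((((n' - n : ℤ) : ℝ) * (l / 8) : ℝ) : ℂ) +
      ((τ' - τ : ℝ) : ℂ) * I := by
    unfold mpo vl; push_cast; ring
  rcases k with _ | b <;> rcases k' with _ | b'
  · refine ⟨norm_nonneg _, ?_⟩
    show ‖Leg.Dk _‖ ≤ _
    rw [Dk_norm]
    exact key _ _ _ _ good hab d1
  · refine ⟨norm_nonneg _, ?_⟩
    show ‖hqp _ _‖ ≤ _
    rw [hqp_eq]
    exact (fac_hq _ _ _ _ _).trans (key _ _ _ _ good hab d1)
  · refine ⟨norm_nonneg _, ?_⟩
    show ‖hqp _ _‖ ≤ _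
    rw [hqp_eq, ← hc]
    exact (fac_hq _ _ _ _ _).trans (key _ _ _ _ good hab d2)
  · refine ⟨norm_nonneg _, ?_⟩
    show ‖pp _ _‖ ≤ _
    rw [← hc]
    exact (pp_le _ _ _ _ _ _).trans (key _ _ _ _ good hab d2)

/-- one member with a list -/
theorem pf_list1 {m : Mb} {B : List Mb} (h : ∀ m' ∈ B, Gd m m') (τ τ' : ℝ) :
    0 ≤ (B.map fun m' => pf τ τ' m m').prod ∧ (B.map fun m' => pf τ τ' m m').prod ≤
      (128 ^ 8) ^ B.length * Real.cosh (τ - τ') ^ (B.map fun m' => dg m m').sum := by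
  have hc := Real.cosh_pos (τ - τ')
  induction B with
  | nil => simp
  | cons b B ih =>
    obtain ⟨i1, i2⟩ := ih fun m' hm => h m' (List.mem_cons_of_mem _ hm)
    obtain ⟨j1, j2⟩ := pf_le (h b List.mem_cons_self) τ τ'
    simp only [List.map_cons, List.prod_cons, List.sum_cons, List.length_cons]
    refine ⟨mul_nonneg j1 i1, ?_⟩
    rw [pow_succ, zpow_add₀ hc.ne']
    calc _ ≤ (128 ^ 8 * Real.cosh (τ - τ') ^ dg m b) * ((128 ^ 8) ^ B.length *
          Real.cosh (τ - τ') ^ (B.map fun m' => dg m m').sum) :=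
          mul_le_mul j2 i2 i1 (by positivity)
      _ = _ := by ring

/-- two lists -/
theorem pf_list {A B : List Mb} (h : ∀ m ∈ A, ∀ m' ∈ B, Gd m m') (τ τ' : ℝ) :
    0 ≤ (A.map fun m => (B.map fun m' => pf τ τ' m m').prod).prod ∧
    (A.map fun m => (B.map fun m' => pf τ τ' m m').prod).prod ≤
      (128 ^ 8) ^ (A.length * B.length) *
        Real.cosh (τ - τ') ^ (A.map fun m => (B.map fun m' => dg m m').sum).sum := by
  have hc := Real.cosh_pos (τ - τ')
  induction A with
  | nil => simp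
  | cons a A ih =>
    obtain ⟨i1, i2⟩ := ih fun m hm => h m (List.mem_cons_of_mem _ hm)
    obtain ⟨j1, j2⟩ := pf_list1 (h a List.mem_cons_self) τ τ'
    simp only [List.map_cons, List.prod_cons, List.sum_cons, List.length_cons]
    refine ⟨mul_nonneg j1 i1, ?_⟩
    rw [add_mul, one_mul, pow_add, zpow_add₀ hc.ne']
    calc _ ≤ ((128 ^ 8) ^ B.length * Real.cosh (τ - τ') ^ (B.map fun m' => dg a m').sum) *
          ((128 ^ 8) ^ (A.length * B.length) *
          Real.cosh (τ - τ') ^ (A.map fun m => (B.map fun m' => dg m m').sum).sum) :=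
          mul_le_mul j2 i2 i1 (by positivity)
      _ = _ := by ring

/-! ### the classes -/

/-- members of a class, the half quantum at `n l / 8` -/
def mb (c : Cl) (σ : Bool) (n : ℤ) : List Mb :=
  match c with
  | .w => [(σ, none, n)]
  | .p => [(σ, none, n), (!σ, some false, n + 24)]
  | .hs => [(σ, none, n), (!σ, some true, n - 16)]
  | .hp => [(σ, none, n), (!σ, some true, n - 16), (σ, some false, n)]
  | .d => [(σ, none, n), (!σ, none, n + 24)]

lemma vl_add24 (n : ℤ) (τ : ℝ) : vl ((n : ℝ) * (l / 8)) τ + 3 * NUMF.l =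
    vl (((n + 24 : ℤ) : ℝ) * (l / 8)) τ := by
  rw [← ll_eq]
  unfold vl
  push_cast
  ring

lemma vl_sub16 (n : ℤ) (τ : ℝ) : vl ((n : ℝ) * (l / 8)) τ - 2 * NUMF.l =
    vl (((n - 16 : ℤ) : ℝ) * (l / 8)) τ := by
  rw [← ll_eq]
  unfold vl
  push_cast
  ring

theorem dirG_eq {c c' : Cl} (hc : c ≠ .d) (hc' : c' ≠ .d) (σ σ' : Bool) (n n' : ℤ) (τ τ' : ℝ) :
    dirG (grp c σ (vl ((n : ℝ) * (l / 8)) τ)) (grp c' σ' (vl ((n' : ℝ) * (l / 8)) τ')) =
      ((mb c σ n).map fun m => ((mb c' σ' n').map fun m' => pf τ τ' m m').prod).prod := by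
  unfold dirG
  cases c <;> cases c' <;> first | exact absurd rfl hc | exact absurd rfl hc' | skip
  all_goals
    simp only [grp, mb, pf, mpo, vl_add24, vl_sub16, List.map_cons, List.map_nil, List.prod_cons,
      List.prod_nil, mul_one, one_mul]
    try ring

/-- position of the half quantum in units `l / 8` -/
def nz8 : Cl → Bool → ℤ
  | .w, true => 10
  | .w, false => -22
  | .p, _ => -22
  | .hs, _ => 5
  | .hp, _ => 5
  | .d, _ => -22

/-- charge in units of a half quantum -/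
def qz : Cl → ℤ
  | .w => 1
  | .p => -1
  | .hs => -3
  | .hp => -1
  | .d => 0

lemma qz_eq (c : Cl) : (qz c : ℝ) = qc c := by cases c <;> simp [qz, qc]

lemma all_good (c c' : Cl) (rt rt' σ : Bool) (hc : c ≠ .d) (hc' : c' ≠ .d) :
    ∀ m ∈ mb c σ (nz8 c rt), ∀ m' ∈ mb c' (!σ) (nz8 c' rt'), Gd m m' := by
  revert hc hc'
  cases c <;> cases c' <;> cases rt <;> cases rt' <;> cases σ <;> decide

lemma all_deg (c c' : Cl) (rt rt' σ : Bool) (hc : c ≠ .d) (hc' : c' ≠ .d) :
    2 * ((mb c σ (nz8 c rt)).map fun m => ((mb c' (!σ) (nz8 c' rt')).map fun m' => dg m m').sum).sum =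
      -(qz c * qz c' + 1) := by
  revert hc hc'
  cases c <;> cases c' <;> cases rt <;> cases rt' <;> cases σ <;> decide

/-- constant -/
def CG : ℝ := (128 ^ 8) ^ 9

lemma CG_pos : 0 < CG := by unfold CG; positivity

/-- **direct factors of two groups** -/
theorem dirG_le8 (c c' : Cl) (rt rt' σ : Bool) (hc : c ≠ .d) (hc' : c' ≠ .d) (τ τ' : ℝ) :
    dirG (grp c σ (vl ((nz8 c rt : ℝ) * (l / 8)) τ)) (grp c' (!σ) (vl ((nz8 c' rt' : ℝ) * (l / 8)) τ')) ≤
      CG * Real.exp (-(qc c * qc c' / 2 + 1 / 2) * Real.log (Real.cosh (τ - τ'))) := by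
  rw [dirG_eq hc hc']
  obtain ⟨_, h⟩ := pf_list (all_good c c' rt rt' σ hc hc') τ τ'
  have hd := all_deg c c' rt rt' σ hc hc'
  set D := ((mb c σ (nz8 c rt)).map fun m =>
    ((mb c' (!σ) (nz8 c' rt')).map fun m' => dg m m').sum).sum
  have hD : (D : ℝ) = -(qc c * qc c' / 2 + 1 / 2) := by
    have : ((2 * D : ℤ) : ℝ) = ((-(qz c * qz c' + 1) : ℤ) : ℝ) := by rw [hd]
    push_cast at this
    rw [qz_eq, qz_eq] at this
    linarith
  rw [cosh_zpow, hD] at h
  refine h.trans ?_
  apply mul_le_mul_of_nonneg_right _ (Real.exp_pos _).le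
  unfold CG
  apply pow_le_pow_right₀ (by norm_num)
  cases c <;> cases c' <;> simp [mb]

/-- position of the half quantum in units `l` -/
def ps (c : Cl) (rt : Bool) : ℝ := (nz8 c rt : ℝ) / 8

lemma ps_w_t : ps .w true = 5 / 4 := by norm_num [ps, nz8]
lemma ps_w_f : ps .w false = -(11 / 4) := by norm_num [ps, nz8]
lemma ps_p (rt : Bool) : ps .p rt = -(11 / 4) := by norm_num [ps, nz8]
lemma ps_hs (rt : Bool) : ps .hs rt = 5 / 8 := by norm_num [ps, nz8]
lemma ps_hp (rt : Bool) : ps .hp rt = 5 / 8 := by norm_num [ps, nz8]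
lemma ps_d (rt : Bool) : ps .d rt = -(11 / 4) := by norm_num [ps, nz8]

/-- **direct factors of two groups** -/
theorem dirG_le (c c' : Cl) (rt rt' σ : Bool) (hc : c ≠ .d) (hc' : c' ≠ .d) (τ τ' : ℝ) :
    dirG (grp c σ (vl (ps c rt * l) τ)) (grp c' (!σ) (vl (ps c' rt' * l) τ')) ≤
      CG * Real.exp (-(qc c * qc c' / 2 + 1 / 2) * Real.log (Real.cosh (τ - τ'))) := by
  have h := dirG_le8 c c' rt rt' σ hc hc' τ τ'
  have e : ∀ (c : Cl) (rt : Bool), ps c rt * l = (nz8 c rt : ℝ) * (l / 8) := by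
    intro c rt
    unfold ps
    ring
  rwa [e, e]

theorem dirG_nonneg (G G' : Grp) : 0 ≤ dirG G G' := by
  unfold dirG
  have h1 : ∀ (L : List ℝ), (∀ x ∈ L, 0 ≤ x) → 0 ≤ L.prod := fun L h => List.prod_nonneg h
  refine mul_nonneg (mul_nonneg (mul_nonneg ?_ ?_) ?_) ?_ <;>
  · refine h1 _ fun x hx => ?_
    obtain ⟨a, _, rfl⟩ := List.mem_map.1 hx
    refine h1 _ fun y hy => ?_
    obtain ⟨b, _, rfl⟩ := List.mem_map.1 hy
    exact norm_nonneg _

end NUGC
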