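import Pool.Agent.NUSp.Axis
import Pool.Agent.NUGC.GrpD
import Pool.Agent.NUGC.DrT

/-!
# Energies of two groups of spectators (board/GAM G3, helper27)

`srcG c rt σ τ` (`NUSp/Axis`): sources of the group of class `c`, charge `qc c` in units of a half
quantum.

* `ES_ee`: two elementary spectators: `ES = -2 σ q q' |τ - τ'| + O(1)`;
* `cross_grp`: two groups of different types: `∑∑ ES = q q' / 2 |τ - τ'| + O(1)`;
* `own_grp`: one group: `O(1)`; `sym_ee`: symmetry;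
* `grp_pair`: direct factor at the heights `τ`, `τ'` and energies at the heights `p`, `p'`.
-/

set_option autoImplicit false

open MeasureTheory Set Filter Topology

namespace NUGC

noncomputable section

open NUC43 (sg)
open NUSp
open Pool.Agent.NUM3 (EV EU sgn)

instance : Fintype Ek := ⟨{.h5, .hm, .h1, .hs, .q1, .qs, .sr}, fun x => by cases x <;> simp⟩

/-- **two elementary spectators** -/
theorem ES_ee : ∃ C : ℝ, 0 ≤ C ∧ ∀ (a a' : Bool) (k k' : Ek) (τ τ' : ℝ),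
    |ES (Ek.src a k τ) (Ek.src a' k' τ') + 2 * (sgn (a == a') * (k.q * k'.q)) * (|τ - τ'|)| ≤ C := by
  have h : ∀ (k k' : Ek) (σ : Bool), ∃ C : ℝ, 0 ≤ C ∧ ∀ x y,
      |ERc σ k.F k.G k'.F k'.G x y + 2 * (sgn σ * (k.q * k'.q)) * (|x - y|)| ≤ C := by
    intro k k' σ
    obtain ⟨α, hk⟩ := k.chg
    obtain ⟨α', hk'⟩ := k'.chg
    exact ERc_lin hk hk' σ
  choose C h0 hC using h
  refine ⟨∑ k, ∑ k', ∑ σ, C k k' σ, Finset.sum_nonneg fun k _ => Finset.sum_nonneg fun k' _ =>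
    Finset.sum_nonneg fun σ _ => h0 k k' σ, fun a a' k k' τ τ' => ?_⟩
  have h1 : C k k' (a == a') ≤ ∑ σ, C k k' σ :=
    Finset.single_le_sum (f := fun σ => C k k' σ) (fun σ _ => h0 k k' σ) (Finset.mem_univ _)
  have h2 : ∑ σ, C k k' σ ≤ ∑ k', ∑ σ, C k k' σ :=
    Finset.single_le_sum (f := fun k' => ∑ σ, C k k' σ)
      (fun k' _ => Finset.sum_nonneg fun σ _ => h0 k k' σ) (Finset.mem_univ _)
  have h3 : ∑ k', ∑ σ, C k k' σ ≤ ∑ k, ∑ k', ∑ σ, C k k' σ :=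
    Finset.single_le_sum (f := fun k => ∑ k', ∑ σ, C k k' σ)
      (fun k _ => Finset.sum_nonneg fun k' _ => Finset.sum_nonneg fun σ _ => h0 k k' σ)
      (Finset.mem_univ _)
  exact (hC k k' (a == a') τ τ').trans (h1.trans (h2.trans h3))

/-- the energies of two elementary spectators are symmetric -/
theorem sym_ee (a a' : Bool) (k k' : Ek) (τ τ' : ℝ) : Sym (Ek.src a k τ) (Ek.src a' k' τ') := by
  obtain ⟨α, hk⟩ := k.chg
  obtain ⟨α', hk'⟩ := k'.chg
  have h1 := ERc_comm hk hk' (a == a') τ τ'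
  have h2 := ERc_swap hk' hk (a == a') τ τ'
  have e : (a == a') = (a' == a) := by
    cases a <;> cases a' <;> rfl
  show ERc (a == a') _ _ _ _ τ τ' = ERc (a' == a) _ _ _ _ τ' τ
  rw [h1, h2, e]

theorem sgn_mul (a a' : Bool) : sgn (a == a') = sg a * sg a' := by
  cases a <;> cases a' <;> simp [sgn, sg]

/-- a double sum of energies of elementary spectators -/
theorem ES_sum {C : ℝ} (h : ∀ (a a' : Bool) (k k' : Ek) (τ τ' : ℝ),
      |ES (Ek.src a k τ) (Ek.src a' k' τ') + 2 * (sgn (a == a') * (k.q * k'.q)) * (|τ - τ'|)| ≤ C)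
    {m n : ℕ} (A : Fin m → Bool × Ek) (B : Fin n → Bool × Ek) (τ τ' : ℝ) :
    |∑ i, ∑ j, ES (Ek.src (A i).1 (A i).2 τ) (Ek.src (B j).1 (B j).2 τ') +
      2 * ((∑ i, sg (A i).1 * (A i).2.q) * ∑ j, sg (B j).1 * (B j).2.q) * (|τ - τ'|)| ≤
      m * n * C := by
  have e : ∑ i, ∑ j, ES (Ek.src (A i).1 (A i).2 τ) (Ek.src (B j).1 (B j).2 τ') +
      2 * ((∑ i, sg (A i).1 * (A i).2.q) * ∑ j, sg (B j).1 * (B j).2.q) * (|τ - τ'|) =
      ∑ i, ∑ j, (ES (Ek.src (A i).1 (A i).2 τ) (Ek.src (B j).1 (B j).2 τ') +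
        2 * (sgn ((A i).1 == (B j).1) * ((A i).2.q * (B j).2.q)) * (|τ - τ'|)) := by
    rw [Finset.sum_mul_sum]
    simp only [Finset.sum_add_distrib, Finset.mul_sum, Finset.sum_mul]
    congr 1
    refine Finset.sum_congr rfl fun i _ => Finset.sum_congr rfl fun j _ => ?_
    rw [sgn_mul]
    ring
  rw [e]
  refine (Finset.abs_sum_le_sum_abs _ _).trans ?_
  calc ∑ i : Fin m, |∑ j, (ES (Ek.src (A i).1 (A i).2 τ) (Ek.src (B j).1 (B j).2 τ') +
        2 * (sgn ((A i).1 == (B j).1) * ((A i).2.q * (B j).2.q)) * (|τ - τ'|))|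
      ≤ ∑ _i : Fin m, (n : ℝ) * C := Finset.sum_le_sum fun i _ => by
        refine (Finset.abs_sum_le_sum_abs _ _).trans ?_
        refine (Finset.sum_le_sum fun j _ => h _ _ _ _ _ _).trans (le_of_eq ?_)
        rw [Finset.sum_const, Finset.card_univ, Fintype.card_fin, nsmul_eq_mul]
    _ = m * n * C := by
        rw [Finset.sum_const, Finset.card_univ, Fintype.card_fin, nsmul_eq_mul]
        ring

/-- species and kind of the sources of a group -/
def sk (c : Cl) (rt σ : Bool) (i : Fin (kG c rt).length) : Bool × Ek :=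
  (spo σ ((kG c rt).get i).1, ((kG c rt).get i).2)

theorem srcG_sk (c : Cl) (rt σ : Bool) (τ : ℝ) (i : Fin (kG c rt).length) :
    srcG c rt σ τ i = Ek.src (sk c rt σ i).1 (sk c rt σ i).2 τ := rfl

theorem sk_q (c : Cl) (rt σ : Bool) : ∑ i, sg (sk c rt σ i).1 * (sk c rt σ i).2.q =
    sg σ * qc c / 2 := srcG_q c rt σ 0

theorem len_le (c c' : Cl) (rt rt' : Bool) {C : ℝ} (hC : 0 ≤ C) :
    ((kG c rt).length : ℝ) * (kG c' rt').length * C ≤ 9 * C := by
  have h1 : ((kG c rt).length : ℝ) ≤ 3 := by exact_mod_cast kG_len c rt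
  have h2 : ((kG c' rt').length : ℝ) ≤ 3 := by exact_mod_cast kG_len c' rt'
  have h3 : (0 : ℝ) ≤ ((kG c rt).length : ℝ) := Nat.cast_nonneg _
  have h4 : (0 : ℝ) ≤ ((kG c' rt').length : ℝ) := Nat.cast_nonneg _
  refine mul_le_mul_of_nonneg_right ?_ hC
  nlinarith

/-- **two groups, any types**: `σ`, `σ'` their types -/
theorem ES_grp : ∃ C : ℝ, 0 ≤ C ∧ ∀ (c c' : Cl) (rt rt' σ σ' : Bool) (τ τ' : ℝ),
    |∑ i, ∑ j, ES (srcG c rt σ τ i) (srcG c' rt' σ' τ' j) +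
      sgn (σ == σ') * (qc c * qc c') / 2 * (|τ - τ'|)| ≤ C := by
  obtain ⟨C, h0, h⟩ := ES_ee
  refine ⟨9 * C, by positivity, fun c c' rt rt' σ σ' τ τ' => ?_⟩
  have h1 := ES_sum h (sk c rt σ) (sk c' rt' σ') τ τ'
  rw [sk_q, sk_q] at h1
  refine le_trans (le_of_eq ?_) (h1.trans (len_le c c' rt rt' h0))
  simp only [srcG_sk]
  rw [sgn_mul]
  congr 1
  ring

/-- **two groups of different types** -/
theorem cross_grp : ∃ C : ℝ, 0 ≤ C ∧ ∀ (c c' : Cl) (rt rt' σ : Bool) (τ τ' : ℝ),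
    |∑ i, ∑ j, ES (srcG c rt σ τ i) (srcG c' rt' (!σ) τ' j) -
      qc c * qc c' / 2 * (|τ - τ'|)| ≤ C := by
  obtain ⟨C, h0, h⟩ := ES_grp
  refine ⟨C, h0, fun c c' rt rt' σ τ τ' => ?_⟩
  refine le_trans (le_of_eq ?_) (h c c' rt rt' σ (!σ) τ τ')
  congr 1
  have e : sgn (σ == !σ) = -1 := by cases σ <;> simp [sgn]
  rw [e]
  ring

/-- **one group** -/
theorem own_grp : ∃ C : ℝ, 0 ≤ C ∧ ∀ (c : Cl) (rt σ : Bool) (τ : ℝ),
    |∑ i, ∑ j, ES (srcG c rt σ τ i) (srcG c rt σ τ j)| ≤ C := by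
  obtain ⟨C, h0, h⟩ := ES_grp
  refine ⟨C, h0, fun c rt σ τ => ?_⟩
  have := h c c rt rt σ σ τ τ
  rwa [sub_self, abs_zero, mul_zero, add_zero] at this

/-- the energies of the sources of groups are symmetric -/
theorem sym_grp (c c' : Cl) (rt rt' σ σ' : Bool) (τ τ' : ℝ) (i : Fin (kG c rt).length)
    (j : Fin (kG c' rt').length) : Sym (srcG c rt σ τ i) (srcG c' rt' σ' τ' j) :=
  sym_ee _ _ _ _ _ _

/-- the sources of two groups together -/
def src2 (c c' : Cl) (rt rt' σ : Bool) (τ τ' : ℝ) :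
    Fin (kG c rt).length ⊕ Fin (kG c' rt').length → Sr :=
  Sum.elim (srcG c rt σ τ) (srcG c' rt' (!σ) τ')

theorem src2_ok (c c' : Cl) (rt rt' σ : Bool) (τ τ' : ℝ)
    (d : Fin (kG c rt).length ⊕ Fin (kG c' rt').length) : (src2 c c' rt rt' σ τ τ' d).Ok := by
  rcases d with i | i
  · exact srcG_ok _ _ _ _ _
  · exact srcG_ok _ _ _ _ _

/-- **the energy of two groups of different types** (the last term of `cfgM_energy`) -/
theorem self_two : ∃ C : ℝ, 0 ≤ C ∧ ∀ (c c' : Cl) (rt rt' σ : Bool) (τ τ' : ℝ),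
    |1 / 2 * ∑ d, ∑ d', ES (src2 c c' rt rt' σ τ τ' d) (src2 c c' rt rt' σ τ τ' d') -
      qc c * qc c' / 2 * (|τ - τ'|)| ≤ C := by
  obtain ⟨C, h0, h⟩ := cross_grp
  obtain ⟨D, g0, g⟩ := own_grp
  refine ⟨C + D, by positivity, fun c c' rt rt' σ τ τ' => ?_⟩
  have e : ∑ i, ∑ j, ES (srcG c' rt' (!σ) τ' i) (srcG c rt σ τ j) =
      ∑ i, ∑ j, ES (srcG c rt σ τ i) (srcG c' rt' (!σ) τ' j) := by
    rw [Finset.sum_comm]
    exact Finset.sum_congr rfl fun i _ => Finset.sum_congr rfl fun j _ => sym_grp _ _ _ _ _ _ _ _ _ _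
  have e2 : ∑ d, ∑ d', ES (src2 c c' rt rt' σ τ τ' d) (src2 c c' rt rt' σ τ τ' d') =
      ∑ i, ∑ j, ES (srcG c rt σ τ i) (srcG c rt σ τ j) +
      2 * ∑ i, ∑ j, ES (srcG c rt σ τ i) (srcG c' rt' (!σ) τ' j) +
      ∑ i, ∑ j, ES (srcG c' rt' (!σ) τ' i) (srcG c' rt' (!σ) τ' j) := by
    simp only [Fintype.sum_sum_type, src2, Sum.elim_inl, Sum.elim_inr, Finset.sum_add_distrib]
    rw [e]
    ring
  rw [e2]
  have h1 := abs_le.1 (h c c' rt rt' σ τ τ')
  have h2 := abs_le.1 (g c rt σ τ)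
  have h3 := abs_le.1 (g c' rt' (!σ) τ')
  rw [abs_le]
  constructor <;> linarith [h1.1, h1.2, h2.1, h2.2, h3.1, h3.2]

theorem psG_ps (c : Cl) (rt : Bool) : psG c rt = ps c rt := by
  cases c <;> cases rt <;> norm_num [psG, ps, nz8]

/-- a power of `cosh` is an exponential -/
theorem exp_log_cosh_le {E : ℝ} (hE : |E| ≤ 5) (x : ℝ) :
    Real.exp (E * Real.log (Real.cosh x)) ≤ 32 * Real.exp (E * |x|) := by
  have h1 := log_cosh_le x
  have h2 := log_cosh_ge x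
  have h3 : |Real.log (Real.cosh x) - (|x|)| ≤ Real.log 2 := by
    rw [abs_le]
    have h4 := le_abs_self (Real.log (Real.cosh x))
    have h5 := Real.log_nonneg (one_le_two (α := ℝ))
    constructor <;> linarith
  have h4 : E * Real.log (Real.cosh x) ≤ Real.log 32 + E * |x| := by
    have e : Real.log 32 = 5 * Real.log 2 := by
      rw [show (32 : ℝ) = 2 ^ (5 : ℕ) by norm_num, Real.log_pow]
      norm_num
    have h5 : E * (Real.log (Real.cosh x) - |x|) ≤ 5 * Real.log 2 := by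
      refine (le_abs_self _).trans ?_
      rw [abs_mul]
      exact mul_le_mul hE h3 (abs_nonneg _) (by norm_num)
    rw [e]
    linarith
  calc Real.exp (E * Real.log (Real.cosh x)) ≤ Real.exp (Real.log 32 + E * |x|) :=
        Real.exp_le_exp.2 h4
    _ = _ := by rw [Real.exp_add, Real.exp_log (by norm_num)]

theorem qc_le_five (c c' : Cl) : |-(qc c * qc c' / 2 + 1 / 2)| ≤ 5 := by
  cases c <;> cases c' <;> norm_num [qc]

/-- **two groups: direct factors at the heights `τ`, `τ'`, energies at the heights `p`, `p'`** -/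
theorem grp_pair : ∃ C : ℝ, 0 ≤ C ∧ ∀ (c c' : Cl) (rt rt' σ : Bool), c ≠ .d → c' ≠ .d →
    ∀ τ τ' p p' : ℝ, dirG (grp c σ (wG c rt τ)) (grp c' (!σ) (wG c' rt' τ')) *
      Real.exp (∑ i, ∑ j, ES (srcG c rt σ p i) (srcG c' rt' (!σ) p' j)) ≤
      C * Real.exp (-(qc c * qc c' / 2 + 1 / 2) * |τ - τ'| + qc c * qc c' / 2 * |p - p'|) := by
  obtain ⟨C, h0, h⟩ := cross_grp
  refine ⟨CG * 32 * Real.exp C, by have := CG_pos; positivity, fun c c' rt rt' σ hc hc' τ τ' p p' => ?_⟩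
  have hd := dirG_le c c' rt rt' σ hc hc' τ τ'
  rw [← psG_ps, ← psG_ps] at hd
  have h1 := exp_log_cosh_le (qc_le_five c c') (τ - τ')
  have h2 : Real.exp (∑ i, ∑ j, ES (srcG c rt σ p i) (srcG c' rt' (!σ) p' j)) ≤
      Real.exp C * Real.exp (qc c * qc c' / 2 * |p - p'|) := by
    rw [← Real.exp_add]
    refine Real.exp_le_exp.2 ?_
    have := abs_le.1 (h c c' rt rt' σ p p')
    linarith [this.2]
  have hG := CG_pos
  have h3 : dirG (grp c σ (wG c rt τ)) (grp c' (!σ) (wG c' rt' τ')) ≤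
      CG * (32 * Real.exp (-(qc c * qc c' / 2 + 1 / 2) * |τ - τ'|)) :=
    hd.trans (mul_le_mul_of_nonneg_left h1 hG.le)
  calc _ ≤ (CG * (32 * Real.exp (-(qc c * qc c' / 2 + 1 / 2) * |τ - τ'|))) *
        (Real.exp C * Real.exp (qc c * qc c' / 2 * |p - p'|)) :=
        mul_le_mul h3 h2 (Real.exp_pos _).le (by positivity)
    _ = _ := by
        rw [Real.exp_add]
        ring

end

end NUGC
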