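import Pool.Agent.NUGC.GrpD
import Pool.Agent.NURow.Pref

/-!
# Pair functions of the flat classes and direct factors of groups (helper25)

The moduli of 30's `gFF`, `gPF`, `gFP`, `gPP` at `w - w'` are `dirG` of the groups.
-/

set_option autoImplicit false

noncomputable section

open Complex

namespace NUGC

open NUP1 NUO NUSp

lemma ll' : (NUMF.l : ℂ) = (NUP1.l : ℂ) := rfl

theorem dirG_FF (w w' : ℂ) : dirG (grp .w true w) (grp .w false w') = ‖NURow.gFF (w - w')‖ := by
  unfold dirG NURow.gFF
  simp [grp]

theorem dirG_PF (w w' : ℂ) : dirG (grp .p true w) (grp .w false w') = ‖NURow.gPF (w - w')‖ := by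
  unfold dirG NURow.gPF
  simp only [grp, hqp, List.map_cons, List.map_nil, List.prod_cons, List.prod_nil, mul_one,
    norm_mul, Bool.not_true, if_true, Bool.false_eq_true, if_false, ll']
  rw [show w' - (w + 3 * (l : ℂ)) = -(w - w') - 3 * l by ring]

theorem dirG_FP (w w' : ℂ) : dirG (grp .w true w) (grp .p false w') = ‖NURow.gFP (w - w')‖ := by
  unfold dirG NURow.gFP
  simp only [grp, hqp, List.map_cons, List.map_nil, List.prod_cons, List.prod_nil, mul_one,
    norm_mul, Bool.not_false, if_true, Bool.false_eq_true, if_false, ll']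
  rw [show w - (w' + 3 * (l : ℂ)) = w - w' - 3 * l by ring]

theorem dirG_PP (w w' : ℂ) : dirG (grp .p true w) (grp .p false w') = ‖NURow.gPP (w - w')‖ := by
  unfold dirG NURow.gPP
  simp only [grp, hqp, pp, Kn.cz, List.map_cons, List.map_nil, List.prod_cons, List.prod_nil, mul_one,
    norm_mul, Bool.not_false, Bool.not_true, if_true, Bool.false_eq_true, if_false, ll']
  rw [show w - (w' + 3 * (l : ℂ)) = w - w' - 3 * l by ring,
    show w' - (w + 3 * (l : ℂ)) = -(w - w') - 3 * l by ring,
    show w + 3 * (l : ℂ) - (w' + 3 * (l : ℂ)) = w - w' by ring]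

end NUGC
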