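import Pool.Agent.NUC43.Chg
import Pool.Agent.NUP1L.LegDefs

/-!
# Half quanta: potentials and charges (board/GAM G3, helper99)

Positions are `Re u / l` (the line of the quanta is at `1`).  `pC x`, `pD x`: potentials on a quantum
of the same, of the other species of a half quantum which is `x l` to the right of it
(`log ‖Ck‖`, `log ‖Dk‖`).
* `chg_of_lists`: a charge from two lists of `cosh`;
* `chg_h1`: half quantum at position `1 + x`, `0 < x < 3`;
* `chg_h2`: half quantum at position `1 - x`, `0 < x < 1`;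
* `chg_h3`: half quantum at position `y - 3`, `0 < y < 1`.
-/

set_option autoImplicit false

open MeasureTheory Set Filter Topology

namespace NUGC

noncomputable section

open NUMF (l l_pos g h V Lh Uh ck1 sk sk_pos zj)
open NUC43
open NUP1.Leg (Ck Dk)

/-- potential on a quantum of the same species, the half quantum is `x l` to the right of it -/
def pC (x t : ℝ) : ℝ :=
  1 / 2 * (h t ((4 - x) * l) + h t ((2 - x) * l) - h t ((3 - x) * l)) - 1 / 2 * Real.log 2

/-- potential on a quantum of the other species -/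
def pD (x t : ℝ) : ℝ :=
  1 / 2 * (h t (x * l) - h t ((1 + x) * l) - h t ((1 - x) * l)) + 1 / 2 * Real.log 2

/-- `2 log |sin|` where it is not zero -/
lemma ls' {j t : ℝ} (hn : Complex.sin (zj j t) ≠ 0) : 2 * Real.log ‖Complex.sin (zj j t)‖ =
    h t ((4 - j) * l) - Real.log 2 := by
  unfold zj at hn ⊢
  rw [NUMF.log_norm_sin hn, show 4 * l - j * l = (4 - j) * l by ring]

lemma lc' {j t : ℝ} (hn : Complex.cos (zj j t) ≠ 0) : 2 * Real.log ‖Complex.cos (zj j t)‖ =
    h t (j * l) - Real.log 2 := by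
  unfold zj at hn ⊢
  rw [NUMF.log_norm_cos hn]

lemma l_eq : NUP1.l = l := rfl

lemma zj_l (x t a : ℝ) : zj x t + (a * NUP1.l : ℝ) = zj (x + a) t := NUMF.zj_add x t a

/-- own potential -/
theorem log_Ck {x t : ℝ} (h0 : Complex.sin (zj x t) ≠ 0) (h1 : Complex.sin (zj (x + 1) t) ≠ 0)
    (h2 : Complex.sin (zj (x + 2) t) ≠ 0) : Real.log ‖Ck (zj x t)‖ = pC x t := by
  have e1 : zj x t + NUP1.l = zj (x + 1) t := by
    have := zj_l x t 1
    rwa [one_mul] at this
  have e2 : zj x t + 2 * NUP1.l = zj (x + 2) t := by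
    have := zj_l x t 2
    rw [← this]
    push_cast
    rfl
  unfold Ck
  rw [e1, e2, norm_div, norm_mul, Real.log_div (mul_ne_zero (norm_ne_zero_iff.2 h0)
    (norm_ne_zero_iff.2 h2)) (norm_ne_zero_iff.2 h1), Real.log_mul (norm_ne_zero_iff.2 h0)
    (norm_ne_zero_iff.2 h2)]
  have a0 := ls' h0
  have a1 := ls' h1
  have a2 := ls' h2
  rw [show 4 - (x + 1) = 3 - x by ring] at a1
  rw [show 4 - (x + 2) = 2 - x by ring] at a2
  unfold pC
  linarith

/-- other potential -/
theorem log_Dk {x t : ℝ} (h0 : Complex.cos (zj x t) ≠ 0) (h1 : Complex.sin (zj (3 - x) (-t)) ≠ 0)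
    (h2 : Complex.sin (zj (3 + x) t) ≠ 0) : Real.log ‖Dk (zj x t)‖ = pD x t := by
  have e1 : 3 * (NUP1.l : ℂ) - zj x t = zj (3 - x) (-t) := by
    unfold zj
    rw [l_eq]
    push_cast
    ring
  have e2 : 3 * (NUP1.l : ℂ) + zj x t = zj (3 + x) t := by
    unfold zj
    rw [l_eq]
    push_cast
    ring
  unfold Dk
  rw [e1, e2, norm_div, norm_mul, Real.log_div (norm_ne_zero_iff.2 h0)
    (mul_ne_zero (norm_ne_zero_iff.2 h1) (norm_ne_zero_iff.2 h2)), Real.log_mul
    (norm_ne_zero_iff.2 h1) (norm_ne_zero_iff.2 h2)]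
  have a0 := lc' h0
  have a1 := ls' h1
  have a2 := ls' h2
  rw [show 4 - (3 - x) = 1 + x by ring, NUMF.h_neg_left] at a1
  rw [show 4 - (3 + x) = 1 - x by ring] at a2
  unfold pD
  linarith

/-- potentials off the height of the half quantum -/
theorem log_Ck' {x t : ℝ} (ht : t ≠ 0) : Real.log ‖Ck (zj x t)‖ = pC x t :=
  log_Ck (NUMF.zsin_ne ht) (NUMF.zsin_ne ht) (NUMF.zsin_ne ht)

theorem log_Dk' {x t : ℝ} (ht : t ≠ 0) : Real.log ‖Dk (zj x t)‖ = pD x t :=
  log_Dk (NUMF.zcos_ne ht) (NUMF.zsin_ne (neg_ne_zero.2 ht)) (NUMF.zsin_ne ht)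

/-! ### charges from lists -/

/-- minus the transform of a potential given by a list -/
def lT (L : List (ℝ × ℝ)) (k : ℝ) : ℝ := 2 * Real.pi * (cs L k / (k * sk k))

/-- charge from two lists -/
theorem chg_of_lists {α q : ℝ} {LO LX : List (ℝ × ℝ)} {a b : ℝ → ℝ} {F G : ℂ → ℂ}
    (hα : α < 0) (gF : Gr α F) (gG : Gr α G)
    (hO : ∀ p ∈ LO, |p.2| < 4) (hX : ∀ p ∈ LX, |p.2| < 4)
    (zO : cz LO = q) (zX : cz LX = -q)
    (ea : ∀ t, a t = hs LO t - q * Real.log 2) (eb : ∀ t, b t = hs LX t + q * Real.log 2)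
    (hp : ∀ k : ℝ, 0 < k → (Real.cosh (1 * l * k) - 1) * (2 * Real.cosh (1 * l * k) - 1) *
      (2 * Real.cosh (1 * l * k) + 1) ^ 2 * (F k).re = -(cs LO k + cs LX k))
    (hm : ∀ k : ℝ, (2 * Real.cosh (1 * l * k) - 1) ^ 3 *
      (Real.cosh (1 * l * k) + 1) * (G k).re = -(cs LO k - cs LX k)) :
    Chg α q a b (lT LO) (lT LX) F G := by
  obtain rfl : a = fun t => hs LO t - q * Real.log 2 := funext ea
  obtain rfl : b = fun t => hs LX t + q * Real.log 2 := funext eb
  have hpi := Real.pi_pos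
  have nO : ∀ p ∈ LO ++ [(-2 * q, 1), (q, 0)], |p.2| < 4 := by
    intro p hp
    rcases List.mem_append.1 hp with h1 | h1
    · exact hO p h1
    · simp only [List.mem_cons, List.not_mem_nil, or_false] at h1
      rcases h1 with rfl | rfl <;> norm_num
  have nX : ∀ p ∈ LX ++ [(2 * q, 1), (-q, 0)], |p.2| < 4 := by
    intro p hp
    rcases List.mem_append.1 hp with h1 | h1
    · exact hX p h1
    · simp only [List.mem_cons, List.not_mem_nil, or_false] at h1
      rcases h1 with rfl | rfl <;> norm_num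
  have cO : cz (LO ++ [(-2 * q, 1), (q, 0)]) = 0 := by
    rw [cz_append, zO]
    simp only [cz, List.map_cons, List.map_nil, List.sum_cons, List.sum_nil]
    ring
  have cX : cz (LX ++ [(2 * q, 1), (-q, 0)]) = 0 := by
    rw [cz_append, zX]
    simp only [cz, List.map_cons, List.map_nil, List.sum_cons, List.sum_nil]
    ring
  have eO : ∀ k, 2 * Real.pi * (cs (LO ++ [(-2 * q, 1), (q, 0)]) k / (k * sk k)) =
      lT LO k - q * Lh k := by
    intro k
    unfold lT
    rw [cs_append, add_div, mul_add, cs_q]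
    ring
  have eX : ∀ k, 2 * Real.pi * (cs (LX ++ [(2 * q, 1), (-q, 0)]) k / (k * sk k)) =
      lT LX k - -q * Lh k := by
    intro k
    have := cs_q (-q) k
    unfold lT
    rw [cs_append, add_div, mul_add, show (2 * q) = -2 * -q by ring, this]
    ring
  obtain ⟨i1, r1⟩ := hs_neutral nO cO
  obtain ⟨i2, r2⟩ := hs_neutral nX cX
  simp_rw [eO] at i1 r1
  simp_rw [eX] at i2 r2
  refine ⟨hα, gF, gG, ?_, i1, i2, fun t => ?_, fun t => ?_, fun k hk => ?_, fun k hk => ?_⟩
  · have h1 := hm 0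
    have eO0 : cs LO 0 = q := by
      rw [← zO]
      unfold cs cz
      simp only [mul_zero, Real.cosh_zero, mul_one]
    have eX0 : cs LX 0 = -q := by
      rw [← zX]
      unfold cs cz
      simp only [mul_zero, Real.cosh_zero, mul_one]
    rw [eO0, eX0, Complex.ofReal_zero, mul_zero, Real.cosh_zero] at h1
    linarith
  · rw [← r1 t, log_g_hs]
    rw [hs_append]
    unfold hs
    simp only [List.map_cons, List.map_nil, List.sum_cons, List.sum_nil]
    ring
  · rw [← r2 t, log_g_hs]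
    rw [hs_append]
    unfold hs
    simp only [List.map_cons, List.map_nil, List.sum_cons, List.sum_nil]
    ring
  · have hks := NUMF.ksk_pos hk.ne'
    have h1 := hp k hk
    unfold Uh lT
    rw [ck1_eq, ← mul_add, ← add_div, ← mul_neg, ← neg_div, ← h1]
    field_simp
  · have hks := NUMF.ksk_pos hk.ne'
    have h1 := hm k
    rw [Um_eq]
    unfold lT
    rw [← mul_sub, ← sub_div, ← mul_neg, ← neg_div, ← h1]
    field_simp

/-! ### first family -/

def L1O (x : ℝ) : List (ℝ × ℝ) := [(1 / 2, 4 - x), (1 / 2, 2 - x), (-1 / 2, 3 - x)]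
def L1X (x : ℝ) : List (ℝ × ℝ) := [(1 / 2, x), (-1 / 2, 1 + x), (-1 / 2, 1 - x)]
def F1 (x : ℝ) (z : ℂ) : ℂ := ((-1 / 2 : ℝ) : ℂ) * (dc (3 - x) x z * (ip z * ip z))
def G1 (x : ℝ) (z : ℂ) : ℂ := ((-1 / 2 : ℝ) : ℂ) * ((cc (3 - x) z + cc x z) * ((im z * im z) * ih z))

lemma cs1O (x k : ℝ) : cs (L1O x) k =
    1 / 2 * (2 * Real.cosh (1 * l * k) - 1) * Real.cosh ((3 - x) * l * k) := by
  have h1 := sum_cosh ((3 - x) * l * k) (1 * l * k)
  unfold L1O cs
  simp only [List.map_cons, List.map_nil, List.sum_cons, List.sum_nil]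
  rw [show (4 - x) * l * k = (3 - x) * l * k + 1 * l * k by ring,
    show (2 - x) * l * k = (3 - x) * l * k - 1 * l * k by ring]
  linear_combination (1 / 2) * h1

lemma cs1X (x k : ℝ) : cs (L1X x) k =
    -(1 / 2 * (2 * Real.cosh (1 * l * k) - 1) * Real.cosh (x * l * k)) := by
  have h1 := sum_cosh (1 * l * k) (x * l * k)
  unfold L1X cs
  simp only [List.map_cons, List.map_nil, List.sum_cons, List.sum_nil]
  rw [show (1 + x) * l * k = 1 * l * k + x * l * k by ring,
    show (1 - x) * l * k = 1 * l * k - x * l * k by ring]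
  linear_combination (-1 / 2) * h1

theorem chg_h1 {x : ℝ} (h0 : 0 < x) (h3 : x < 3) :
    Chg (-(min x (3 - x))) (1 / 2) (pC x) (pD x) (lT (L1O x)) (lT (L1X x)) (F1 x) (G1 x) := by
  have m0 : 0 < min x (3 - x) := lt_min h0 (by linarith)
  have m1 : min x (3 - x) ≤ x := min_le_left _ _
  have m2 : min x (3 - x) ≤ 3 - x := min_le_right _ _
  refine chg_of_lists (by linarith) ?_ ?_ ?_ ?_ ?_ ?_ (fun t => ?_) (fun t => ?_) (fun k hk => ?_)
    (fun k => ?_)
  · refine Gr.smul (((gr_dc (3 - x) x).mono (β := 2 - min x (3 - x)) ?_).mul'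
      (gr_ip.mul' gr_ip (γ := -2) (by norm_num)) (by ring)) _
    rw [show (3 - x + x) / 2 = 3 / 2 by ring, abs_of_pos (by norm_num : (0:ℝ) < 3 / 2)]
    have : |(3 - x - x) / 2| ≤ 3 / 2 - min x (3 - x) := by
      rw [abs_le]
      constructor <;> linarith
    linarith
  · refine Gr.smul ((((gr_cc' (a := 3 - x) (γ := 3 - min x (3 - x)) ?_)).add
      (gr_cc' (a := x) (γ := 3 - min x (3 - x)) ?_)).mul' gr_im2ih (by ring)) _
    · rw [abs_of_pos (by linarith)]; linarith
    · rw [abs_of_pos h0]; linarith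
  · simp only [L1O, List.forall_mem_cons]
    and_intros <;> first | (rw [abs_lt]; constructor <;> linarith) | simp
  · simp only [L1X, List.forall_mem_cons]
    and_intros <;> first | (rw [abs_lt]; constructor <;> linarith) | simp
  · simp only [L1O, cz, List.map_cons, List.map_nil, List.sum_cons, List.sum_nil]
    norm_num
  · simp only [L1X, cz, List.map_cons, List.map_nil, List.sum_cons, List.sum_nil]
    norm_num
  · simp only [pC, L1O, hs, List.map_cons, List.map_nil, List.sum_cons, List.sum_nil]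
    ring
  · simp only [pD, L1X, hs, List.map_cons, List.map_nil, List.sum_cons, List.sum_nil]
    ring
  · have hc := c1_gt hk
    have e1 : 0 < 2 * Real.cosh (1 * l * k) + 1 := by linarith
    have e2 : Real.cosh (1 * l * k) - 1 ≠ 0 := by linarith
    rw [cs1O, cs1X]
    unfold F1
    rw [dc_real' _ _ hk, ip_real, ← Complex.ofReal_mul, ← Complex.ofReal_mul, ← Complex.ofReal_mul,
      Complex.ofReal_re]
    generalize Real.cosh (1 * l * k) = c at *
    generalize Real.cosh ((3 - x) * l * k) = A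
    generalize Real.cosh (x * l * k) = B
    field_simp
    ring
  · have hc : 1 ≤ Real.cosh (1 * l * k) := Real.one_le_cosh _
    have e1 : 0 < 2 * Real.cosh (1 * l * k) - 1 := by linarith
    have e2 : 0 < Real.cosh (1 * l * k) + 1 := by linarith
    rw [cs1O, cs1X]
    unfold G1
    rw [cc_real, cc_real, im_real, ih_real, ← Complex.ofReal_add, ← Complex.ofReal_mul,
      ← Complex.ofReal_mul, ← Complex.ofReal_mul, ← Complex.ofReal_mul, Complex.ofReal_re]
    generalize Real.cosh (1 * l * k) = c at *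
    generalize Real.cosh ((3 - x) * l * k) = A
    generalize Real.cosh (x * l * k) = B
    field_simp
    ring

end

end NUGC
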