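import Pool.Agent.NUGC.HalfP

/-!
# Half quanta: the second and the third family of charges (helper99)
-/

set_option autoImplicit false

open MeasureTheory Set Filter Topology

namespace NUGC

noncomputable section

open NUMF (l l_pos g h V Lh Uh ck1 sk sk_pos zj)
open NUC43

/-! ### second family: position `1 - x` -/

def L2O (x : ℝ) : List (ℝ × ℝ) := [(1 / 2, 4 - x), (1 / 2, 2 + x), (-1 / 2, 3 + x)]
def L2X (x : ℝ) : List (ℝ × ℝ) := [(1 / 2, x), (-1 / 2, 1 - x), (-1 / 2, 1 + x)]
def F2 (x : ℝ) (z : ℂ) : ℂ := ((-1 / 2 : ℝ) : ℂ) *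
  ((dc (4 - x) (3 + x) z + dc (2 + x) (1 + x) z + dc x (1 - x) z) * (im z * (ip z * ip z)))
def G2 (x : ℝ) (z : ℂ) : ℂ := ((-1 / 2 : ℝ) : ℂ) *
  ((cc (4 - x) z + cc (2 + x) z - cc (3 + x) z + cc x z * pc (-1) 2 0 0 z) *
    ((im z * (im z * im z)) * ih z))

lemma cs2O (x k : ℝ) : cs (L2O x) k = 1 / 2 * (Real.cosh ((4 - x) * l * k) +
    Real.cosh ((2 + x) * l * k) - Real.cosh ((3 + x) * l * k)) := by
  unfold L2O cs
  simp only [List.map_cons, List.map_nil, List.sum_cons, List.sum_nil]
  ring

lemma cs2X (x k : ℝ) : cs (L2X x) k = 1 / 2 * (Real.cosh (x * l * k) -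
    Real.cosh ((1 - x) * l * k) - Real.cosh ((1 + x) * l * k)) := by
  unfold L2X cs
  simp only [List.map_cons, List.map_nil, List.sum_cons, List.sum_nil]
  ring

theorem chg_h2 {x : ℝ} (h0 : 0 < x) (h3 : x < 1) :
    Chg (-(min x (1 - x))) (1 / 2) (pC (-x)) (pD (-x)) (lT (L2O x)) (lT (L2X x)) (F2 x) (G2 x) := by
  have m0 : 0 < min x (1 - x) := lt_min h0 (by linarith)
  have m1 : min x (1 - x) ≤ x := min_le_left _ _
  have m2 : min x (1 - x) ≤ 1 - x := min_le_right _ _
  refine chg_of_lists (by linarith) ?_ ?_ ?_ ?_ ?_ ?_ (fun t => ?_) (fun t => ?_) (fun k hk => ?_)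
    (fun k => ?_)
  · refine Gr.smul (((((gr_dc (4 - x) (3 + x)).mono (β := 3 - min x (1 - x)) ?_).add
      ((gr_dc (2 + x) (1 + x)).mono (β := 3 - min x (1 - x)) ?_)).add
      ((gr_dc x (1 - x)).mono (β := 3 - min x (1 - x)) ?_)).mul' gr_imip2 (by ring)) _
    · rw [show (4 - x + (3 + x)) / 2 = 7 / 2 by ring, abs_of_pos (by norm_num : (0:ℝ) < 7 / 2)]
      have : |(4 - x - (3 + x)) / 2| ≤ 1 / 2 - min x (1 - x) := by
        rw [abs_le]
        constructor
        · linarith
        · linarith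
      linarith
    · rw [show (2 + x - (1 + x)) / 2 = 1 / 2 by ring, abs_of_pos (by norm_num : (0:ℝ) < 1 / 2),
        abs_of_pos (by linarith)]
      linarith
    · rw [show (x + (1 - x)) / 2 = 1 / 2 by ring, abs_of_pos (by norm_num : (0:ℝ) < 1 / 2)]
      have : |(x - (1 - x)) / 2| ≤ 1 / 2 := by
        rw [abs_le]
        constructor <;> linarith
      linarith
  · refine Gr.smul (((((gr_cc' (a := 4 - x) (γ := 4 - min x (1 - x)) ?_).add
      (gr_cc' (a := 2 + x) (γ := 4 - min x (1 - x)) ?_)).sub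
      (gr_cc' (a := 3 + x) (γ := 4 - min x (1 - x)) ?_)).add
      (((gr_cc' (a := x) (γ := x) ?_).mul' (gr_pc1 (-1) 2) (γ := x + 1) rfl).mono
        (β := 4 - min x (1 - x)) ?_)).mul' gr_im3ih (by ring)) _
    · rw [abs_of_pos (by linarith)]; linarith
    · rw [abs_of_pos (by linarith)]; linarith
    · rw [abs_of_pos (by linarith)]; linarith
    · rw [abs_of_pos h0]
    · linarith
  · simp only [L2O, List.forall_mem_cons]
    and_intros <;> first | (rw [abs_lt]; constructor <;> linarith) | simp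
  · simp only [L2X, List.forall_mem_cons]
    and_intros <;> first | (rw [abs_lt]; constructor <;> linarith) | simp
  · simp only [L2O, cz, List.map_cons, List.map_nil, List.sum_cons, List.sum_nil]
    norm_num
  · simp only [L2X, cz, List.map_cons, List.map_nil, List.sum_cons, List.sum_nil]
    norm_num
  · have e1 : h t ((4 - x) * l) = h t ((4 - -x) * l) := h_rd (Or.inr (by ring)) t
    simp only [pC, L2O, hs, List.map_cons, List.map_nil, List.sum_cons, List.sum_nil]
    rw [e1, show 2 - -x = 2 + x by ring, show 3 - -x = 3 + x by ring]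
    ring
  · have e1 : h t (-x * l) = h t (x * l) := by rw [neg_mul, NUMF.h_neg_right]
    simp only [pD, L2X, hs, List.map_cons, List.map_nil, List.sum_cons, List.sum_nil]
    rw [e1, show 1 + -x = 1 - x by ring, show 1 - -x = 1 + x by ring]
    ring
  · have hc := c1_gt hk
    have e1 : 0 < 2 * Real.cosh (1 * l * k) + 1 := by linarith
    have e2 : Real.cosh (1 * l * k) - 1 ≠ 0 := by linarith
    have e3 : 2 * Real.cosh (1 * l * k) - 1 ≠ 0 := by linarith
    have e4 : Real.cosh (1 * l * k) * 2 - 1 ≠ 0 := by linarith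
    rw [cs2O, cs2X]
    unfold F2
    rw [dc_real' _ _ hk, dc_real' _ _ hk, dc_real' _ _ hk, ip_real, im_real, ← Complex.ofReal_add,
      ← Complex.ofReal_add, ← Complex.ofReal_mul, ← Complex.ofReal_mul, ← Complex.ofReal_mul,
      ← Complex.ofReal_mul, Complex.ofReal_re]
    generalize Real.cosh (1 * l * k) = c at *
    generalize Real.cosh ((4 - x) * l * k) = A1
    generalize Real.cosh ((3 + x) * l * k) = A2
    generalize Real.cosh ((2 + x) * l * k) = A3
    generalize Real.cosh ((1 + x) * l * k) = A4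
    generalize Real.cosh (x * l * k) = A5
    generalize Real.cosh ((1 - x) * l * k) = A6
    field_simp
    ring
  · have hc : 1 ≤ Real.cosh (1 * l * k) := Real.one_le_cosh _
    have e1 : 0 < 2 * Real.cosh (1 * l * k) - 1 := by linarith
    have e2 : 0 < Real.cosh (1 * l * k) + 1 := by linarith
    have h4 := sum_cosh (1 * l * k) (x * l * k)
    rw [cs2O, cs2X]
    unfold G2
    rw [cc_real, cc_real, cc_real, cc_real, im_real, ih_real, pc_real, ← Complex.ofReal_add,
      ← Complex.ofReal_sub, ← Complex.ofReal_mul, ← Complex.ofReal_add, ← Complex.ofReal_mul,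
      ← Complex.ofReal_mul, ← Complex.ofReal_mul, ← Complex.ofReal_mul, ← Complex.ofReal_mul,
      Complex.ofReal_re]
    rw [show (1 - x) * l * k = 1 * l * k - x * l * k by ring,
      show (1 + x) * l * k = 1 * l * k + x * l * k by ring]
    rw [show Real.cosh (1 * l * k - x * l * k) = 2 * Real.cosh (1 * l * k) * Real.cosh (x * l * k) -
      Real.cosh (1 * l * k + x * l * k) by linarith]
    generalize Real.cosh (1 * l * k + x * l * k) = A4
    generalize Real.cosh (1 * l * k) = c at *
    generalize Real.cosh ((4 - x) * l * k) = A1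
    generalize Real.cosh ((3 + x) * l * k) = A2
    generalize Real.cosh ((2 + x) * l * k) = A3
    generalize Real.cosh (x * l * k) = A5
    field_simp
    ring

/-! ### third family: position `y - 3` -/

def L3O (y : ℝ) : List (ℝ × ℝ) := [(1 / 2, y), (1 / 2, 2 + y), (-1 / 2, 1 + y)]
def L3X (y : ℝ) : List (ℝ × ℝ) := [(1 / 2, 4 - y), (-1 / 2, 3 - y), (-1 / 2, 3 + y)]
def F3 (y : ℝ) (z : ℂ) : ℂ := ((-1 / 2 : ℝ) : ℂ) *
  ((dc (4 - y) (3 + y) z + dc (2 + y) (3 - y) z + dc y (1 + y) z) * (im z * (ip z * ip z)))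
def G3 (y : ℝ) (z : ℂ) : ℂ := ((-1 / 2 : ℝ) : ℂ) *
  ((cc (1 + y) z * pc (-1) 2 0 0 z - cc (4 - y) z + cc (3 - y) z + cc (3 + y) z) *
    ((im z * (im z * im z)) * ih z))

lemma cs3O (y k : ℝ) : cs (L3O y) k =
    1 / 2 * (2 * Real.cosh (1 * l * k) - 1) * Real.cosh ((1 + y) * l * k) := by
  have h1 := sum_cosh ((1 + y) * l * k) (1 * l * k)
  unfold L3O cs
  simp only [List.map_cons, List.map_nil, List.sum_cons, List.sum_nil]
  rw [show (2 + y) * l * k = (1 + y) * l * k + 1 * l * k by ring,
    show y * l * k = (1 + y) * l * k - 1 * l * k by ring]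
  linear_combination (1 / 2) * h1

lemma cs3O' (y k : ℝ) : cs (L3O y) k = 1 / 2 * (Real.cosh (y * l * k) +
    Real.cosh ((2 + y) * l * k) - Real.cosh ((1 + y) * l * k)) := by
  unfold L3O cs
  simp only [List.map_cons, List.map_nil, List.sum_cons, List.sum_nil]
  ring

lemma cs3X (y k : ℝ) : cs (L3X y) k = 1 / 2 * (Real.cosh ((4 - y) * l * k) -
    Real.cosh ((3 - y) * l * k) - Real.cosh ((3 + y) * l * k)) := by
  unfold L3X cs
  simp only [List.map_cons, List.map_nil, List.sum_cons, List.sum_nil]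
  ring

theorem chg_h3 {y : ℝ} (h0 : 0 < y) (h3 : y < 1) :
    Chg (-(min y (1 - y))) (1 / 2) (pC (y - 4)) (pD (y - 4)) (lT (L3O y)) (lT (L3X y))
      (F3 y) (G3 y) := by
  have m0 : 0 < min y (1 - y) := lt_min h0 (by linarith)
  have m1 : min y (1 - y) ≤ y := min_le_left _ _
  have m2 : min y (1 - y) ≤ 1 - y := min_le_right _ _
  refine chg_of_lists (by linarith) ?_ ?_ ?_ ?_ ?_ ?_ (fun t => ?_) (fun t => ?_) (fun k hk => ?_)
    (fun k => ?_)
  · refine Gr.smul (((((gr_dc (4 - y) (3 + y)).mono (β := 3 - min y (1 - y)) ?_).add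
      ((gr_dc (2 + y) (3 - y)).mono (β := 3 - min y (1 - y)) ?_)).add
      ((gr_dc y (1 + y)).mono (β := 3 - min y (1 - y)) ?_)).mul' gr_imip2 (by ring)) _
    · rw [show (4 - y + (3 + y)) / 2 = 7 / 2 by ring, abs_of_pos (by norm_num : (0:ℝ) < 7 / 2)]
      have : |(4 - y - (3 + y)) / 2| ≤ 1 / 2 - min y (1 - y) := by
        rw [abs_le]
        constructor
        · linarith
        · linarith
      linarith
    · rw [show (2 + y + (3 - y)) / 2 = 5 / 2 by ring, abs_of_pos (by norm_num : (0:ℝ) < 5 / 2)]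
      have : |(2 + y - (3 - y)) / 2| ≤ 1 / 2 := by
        rw [abs_le]
        constructor <;> linarith
      linarith
    · rw [show (y - (1 + y)) / 2 = -(1 / 2) by ring, abs_neg,
        abs_of_pos (by norm_num : (0:ℝ) < 1 / 2), abs_of_pos (by linarith)]
      linarith
  · refine Gr.smul ((((((gr_cc' (a := 1 + y) (γ := 1 + y) ?_).mul' (gr_pc1 (-1) 2)
      (γ := 2 + y) (by ring)).mono (β := 4 - min y (1 - y)) ?_).sub
      (gr_cc' (a := 4 - y) (γ := 4 - min y (1 - y)) ?_)).add
      (gr_cc' (a := 3 - y) (γ := 4 - min y (1 - y)) ?_)).add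
      (gr_cc' (a := 3 + y) (γ := 4 - min y (1 - y)) ?_) |>.mul' gr_im3ih (by ring)) _
    · rw [abs_of_pos (by linarith)]
    · linarith
    · rw [abs_of_pos (by linarith)]; linarith
    · rw [abs_of_pos (by linarith)]; linarith
    · rw [abs_of_pos (by linarith)]; linarith
  · simp only [L3O, List.forall_mem_cons]
    and_intros <;> first | (rw [abs_lt]; constructor <;> linarith) | simp
  · simp only [L3X, List.forall_mem_cons]
    and_intros <;> first | (rw [abs_lt]; constructor <;> linarith) | simp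
  · simp only [L3O, cz, List.map_cons, List.map_nil, List.sum_cons, List.sum_nil]
    norm_num
  · simp only [L3X, cz, List.map_cons, List.map_nil, List.sum_cons, List.sum_nil]
    norm_num
  · have e1 : h t (y * l) = h t ((4 - (y - 4)) * l) := h_rd (Or.inr (by ring)) t
    have e2 : h t ((2 + y) * l) = h t ((2 - (y - 4)) * l) := h_rd (Or.inr (by ring)) t
    have e3 : h t ((1 + y) * l) = h t ((3 - (y - 4)) * l) := h_rd (Or.inr (by ring)) t
    simp only [pC, L3O, hs, List.map_cons, List.map_nil, List.sum_cons, List.sum_nil]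
    rw [e1, e2, e3]
    ring
  · have e1 : h t ((4 - y) * l) = h t ((y - 4) * l) := by
      rw [← NUMF.h_neg_right]
      congr 1
      ring
    have e2 : h t ((3 - y) * l) = h t ((1 + (y - 4)) * l) := by
      rw [← NUMF.h_neg_right]
      congr 1
      ring
    have e3 : h t ((3 + y) * l) = h t ((1 - (y - 4)) * l) := h_rd (Or.inr (by ring)) t
    simp only [pD, L3X, hs, List.map_cons, List.map_nil, List.sum_cons, List.sum_nil]
    rw [e1, e2, e3]
    ring
  · have hc := c1_gt hk
    have e1 : 0 < 2 * Real.cosh (1 * l * k) + 1 := by linarith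
    have e2 : Real.cosh (1 * l * k) - 1 ≠ 0 := by linarith
    have e3 : 2 * Real.cosh (1 * l * k) - 1 ≠ 0 := by linarith
    have e4 : Real.cosh (1 * l * k) * 2 - 1 ≠ 0 := by linarith
    rw [cs3O', cs3X]
    unfold F3
    rw [dc_real' _ _ hk, dc_real' _ _ hk, dc_real' _ _ hk, ip_real, im_real, ← Complex.ofReal_add,
      ← Complex.ofReal_add, ← Complex.ofReal_mul, ← Complex.ofReal_mul, ← Complex.ofReal_mul,
      ← Complex.ofReal_mul, Complex.ofReal_re]
    generalize Real.cosh (1 * l * k) = c at *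
    generalize Real.cosh ((4 - y) * l * k) = A1
    generalize Real.cosh ((3 + y) * l * k) = A2
    generalize Real.cosh ((2 + y) * l * k) = A3
    generalize Real.cosh ((3 - y) * l * k) = A4
    generalize Real.cosh (y * l * k) = A5
    generalize Real.cosh ((1 + y) * l * k) = A6
    field_simp
    ring
  · have hc : 1 ≤ Real.cosh (1 * l * k) := Real.one_le_cosh _
    have e1 : 0 < 2 * Real.cosh (1 * l * k) - 1 := by linarith
    have e2 : 0 < Real.cosh (1 * l * k) + 1 := by linarith
    rw [cs3O, cs3X]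
    unfold G3
    rw [cc_real, cc_real, cc_real, cc_real, im_real, ih_real, pc_real, ← Complex.ofReal_mul,
      ← Complex.ofReal_sub, ← Complex.ofReal_add, ← Complex.ofReal_add, ← Complex.ofReal_mul,
      ← Complex.ofReal_mul, ← Complex.ofReal_mul, ← Complex.ofReal_mul, ← Complex.ofReal_mul,
      Complex.ofReal_re]
    generalize Real.cosh (1 * l * k) = c at *
    generalize Real.cosh ((4 - y) * l * k) = A1
    generalize Real.cosh ((3 + y) * l * k) = A2
    generalize Real.cosh ((3 - y) * l * k) = A4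
    generalize Real.cosh ((1 + y) * l * k) = A6
    field_simp
    ring

end

end NUGC
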