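import Pool.Agent.NUGC.E11F
import Pool.Agent.NU5.GasTop
import Pool.Agent.NU5.Uncond

/-!
# TARGET-C, upper half: `NU5.LegUp`, `HUp (61 / 48)`, `WUp` from `PerAll`
-/

set_option autoImplicit false

noncomputable section

namespace NUGC

/-- the gas of two cut rows from the sum of the eleven integrals -/
theorem gasTop : GasTop Pool.Agent.NU5.GasLe := fun _ hM _ hb hb' _ hS =>
  Pool.Agent.NU5.gasTop hM hb hb' hS

/-- **The bound of the gas of two cut rows.** -/
theorem legUp_of (h : PerAll) : Pool.Agent.NU5.LegUp :=
  legC (Gs := Pool.Agent.NU5.GasLe) (fun h hc => h.mono hc) gasTop e11Form h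

/-- **The growth of the half plane walks from above.** -/
theorem hUp_of (h : PerAll) : HexObs.BAR.HUp (61 / 48) := Pool.Agent.NU5.hUp (legUp_of h)

/-- **The decay of the two-point function of the cylinder.** -/
theorem wUp_of (h : PerAll) : HexObs.BAR.WUp Pool.Agent.NU5.Wn := Pool.Agent.NU5.wUp (legUp_of h)

end NUGC

end
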