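import Pool.Agent.NUSea.H0.PinF

/-!
# The linear term at the true heights of the groups

`gS G t`: real part on the axis of the potentials of a group, both species together (bounded).
`exists_linT`: the linear term of the pinned groups together with the remainders `BF` is the one of the
groups at their true heights, up to `K n (Hm e^{-(T - b)} + s e^{-(8/3) T})`.
-/

set_option autoImplicit false
set_option linter.unusedSectionVars false

open MeasureTheory Set Filter Topology

namespace NUSea.H0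

open NUMF NUO
open NUSp (Cl Grp grp gp gp1 gq gn pinw remG remG1 kr kk Asy)

noncomputable section

variable [Sea]

/-- potentials of a group on the axis, both species together -/
def gS (G : Grp) (t : ℝ) : ℝ := (gp true G t).re + (gp false G t).re

lemma kk4_nonneg : 0 ≤ kk (1 / 4) (NUMF.l / 5) := NUSp.kk_nonneg _ _

lemma l5pos : 0 < NUMF.l / 5 := by
  have := NUMF.l_pos
  positivity

/-- both species together on the axis -/
theorem gS_le (g : Gd) (t : ℝ) :
    |gS g.G t| ≤ 2 * kk (1 / 4) (NUMF.l / 5) * Real.exp (-2 * |t - g.τ|) := by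
  have hz : |((t : ℂ)).im| < NUMF.l / 5 := by simpa using l5pos
  have h1 := NUSp.re_le_z (NUSp.asy_grp l5pos l5 (by norm_num) g.away g.c true g.σ) hz
  have h2 := NUSp.re_le_z (NUSp.asy_grp l5pos l5 (by norm_num) g.away g.c false g.σ) hz
  rw [Gd.im, Complex.ofReal_re] at h1 h2
  have h3 := NUSp.gq_neutral (grp g.c g.σ g.w)
  have e : gS g.G t = ((gp true (grp g.c g.σ g.w) t).re -
      (gq true (grp g.c g.σ g.w) * |t - g.τ| + -(gq true (grp g.c g.σ g.w) * Real.log 2))) +
      ((gp false (grp g.c g.σ g.w) t).re -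
      (gq false (grp g.c g.σ g.w) * |t - g.τ| + -(gq false (grp g.c g.σ g.w) * Real.log 2))) := by
    have h4 : gq false (grp g.c g.σ g.w) = -gq true (grp g.c g.σ g.w) := by linarith
    rw [h4]
    unfold gS Gd.G
    ring
  rw [e]
  refine (abs_add_le _ _).trans ?_
  linarith

lemma gS_cont (g : Gd) : Continuous (gS g.G) := by
  have h : ∀ a, Continuous fun t : ℝ => gp a g.G t := fun a => by
    refine (NUSp.continuous_f (NUSp.potB_grp (w := g.w) l5pos l5 g.away g.c a g.σ)).comp_continuous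
      Complex.continuous_ofReal fun t => ?_
    show |((t : ℂ)).im| < NUMF.l / 5
    simpa using l5pos
  unfold gS
  exact (Complex.continuous_re.comp (h true)).add (Complex.continuous_re.comp (h false))

variable {T b : ℝ} {η : ℝ → ℝ}

/-- the difference of a group -/
def dfG (T : ℝ) (g : Gd) (η : ℝ → ℝ) (t : ℝ) : ℝ :=
  gS (g.pin T).G t + (remG T g.c true g.σ g.w η t + remG T g.c false g.σ g.w η t) - gS g.G t

lemma dfG_zero {g : Gd} (h : |g.τ| ≤ T) (t : ℝ) : dfG T g η t = 0 := by
  unfold dfG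
  have h' : |g.w.im| ≤ T := by rwa [Gd.im]
  rw [Gd.pin_of_le h, NUSp.remG_zero h', NUSp.remG_zero h']
  ring

/-- inside the window -/
theorem dfG_in (g : Gd) (hT : 0 ≤ T) (h : T ≤ |g.τ|) {t : ℝ} (ht : |t| ≤ T) (hη : |η t| < NUMF.l / 5) :
    |dfG T g η t| ≤ 4 * kk (1 / 4) (NUMF.l / 5) * |η t| * Real.exp (-2 * |t - NUSp.pin T g.τ|) := by
  have k0 := kk4_nonneg
  have hw : (g.pin T).w.im = NUSp.pin T g.τ := Gd.im _
  have key : ∀ a, |((gp a (g.pin T).G t).re + remG T g.c a g.σ g.w η t - (gp a g.G t).re) +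
      gq a g.G * NUSp.exc T g.τ| ≤
      2 * kk (1 / 4) (NUMF.l / 5) * |η t| * Real.exp (-2 * |t - NUSp.pin T g.τ|) := by
    intro a
    have h1 := NUSp.gp_in ht g.c a g.σ g.w η
    rw [Gd.im, ← Gd.pin_G] at h1
    have h2 := NUSp.re_curve (NUSp.potB_grp (w := g.w) l5pos l5 g.away g.c a g.σ) (t := t) hη
    have h3 := NUSp.re_curve (NUSp.potB_grp (w := (g.pin T).w) l5pos l5 (g.pin T).away g.c a g.σ)
      (t := t) hη
    rw [Gd.im] at h2 h3
    have h4 : Real.exp (-2 * |t - g.τ|) ≤ Real.exp (-2 * |t - NUSp.pin T g.τ|) := by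
      refine Real.exp_le_exp.2 ?_
      have h5 : NUSp.sg g.τ * t ≤ T := (NUSp.sg_mul_le _ _).trans ht
      have h6 := NUSp.geo_in hT h h5
      have h7 := NUSp.exc_nonneg T g.τ
      linarith
    have h5 : kk (1 / 4) (NUMF.l / 5) * |η t| * Real.exp (-2 * |t - g.τ|) ≤
        kk (1 / 4) (NUMF.l / 5) * |η t| * Real.exp (-2 * |t - NUSp.pin T g.τ|) :=
      mul_le_mul_of_nonneg_left h4 (by positivity)
    have e0 : (g.pin T).τ = NUSp.pin T g.τ := rfl
    rw [e0] at h3
    have e1 : ((gp a (g.pin T).G t).re + remG T g.c a g.σ g.w η t - (gp a g.G t).re) +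
        gq a g.G * NUSp.exc T g.τ =
        ((gp a (grp g.c g.σ g.w) (t + (η t : ℂ) * Complex.I)).re - (gp a (grp g.c g.σ g.w) t).re) -
        ((gp a (grp g.c g.σ (g.pin T).w) (t + (η t : ℂ) * Complex.I)).re -
          (gp a (grp g.c g.σ (g.pin T).w) t).re) := by
      have e2 : gp a (g.pin T).G = gp a (grp g.c g.σ (g.pin T).w) := rfl
      have e3 : gp a g.G = gp a (grp g.c g.σ g.w) := rfl
      have e4 : gq a g.G = gq a (grp g.c g.σ g.w) := rfl
      rw [e2] at h1
      rw [e2, e3, e4, h1]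
      ring
    rw [e1]
    refine (abs_sub _ _).trans ?_
    linarith
  have e : dfG T g η t = (((gp true (g.pin T).G t).re + remG T g.c true g.σ g.w η t -
      (gp true g.G t).re) + gq true g.G * NUSp.exc T g.τ) +
      (((gp false (g.pin T).G t).re + remG T g.c false g.σ g.w η t - (gp false g.G t).re) +
      gq false g.G * NUSp.exc T g.τ) := by
    have h1 := NUSp.gq_neutral g.G
    have h2 : gq false g.G = -gq true g.G := by linarith
    rw [h2]
    unfold dfG gS
    ring
  rw [e]
  refine (abs_add_le _ _).trans ?_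
  have h1 := key true
  have h2 := key false
  linarith

/-- everywhere -/
theorem dfG_all (g : Gd) (hT : 0 ≤ T) {t : ℝ} (hη : |η t| < NUMF.l / 5) :
    |dfG T g η t| ≤ 4 * kk (1 / 4) (NUMF.l / 5) + 2 * kr (1 / 4) (NUMF.l / 5) := by
  have k0 := kk4_nonneg
  have k1 : 0 ≤ kr (1 / 4) (NUMF.l / 5) := NUSp.rc_nonneg (NUSp.kk_nonneg _ _)
  have e1 : ∀ x : ℝ, Real.exp (-2 * |x|) ≤ 1 := fun x =>
    Real.exp_le_one_iff.2 (by have := abs_nonneg x; linarith)
  have h1 := gS_le (g.pin T) t
  have h2 := gS_le g t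
  have h3 := NUSp.remG_le (w := g.w) (t := t) (η := η) l5pos l5 (by norm_num) g.away hT g.c true g.σ hη
  have h4 := NUSp.remG_le (w := g.w) (t := t) (η := η) l5pos l5 (by norm_num) g.away hT g.c false g.σ hη
  have h5 : 2 * kk (1 / 4) (NUMF.l / 5) * Real.exp (-2 * |t - (g.pin T).τ|) ≤
      2 * kk (1 / 4) (NUMF.l / 5) * 1 := mul_le_mul_of_nonneg_left (e1 _) (by positivity)
  have h6 : 2 * kk (1 / 4) (NUMF.l / 5) * Real.exp (-2 * |t - g.τ|) ≤
      2 * kk (1 / 4) (NUMF.l / 5) * 1 := mul_le_mul_of_nonneg_left (e1 _) (by positivity)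
  have h7 : kr (1 / 4) (NUMF.l / 5) * Real.exp (-2 * |t - NUSp.pin T g.w.im|) ≤
      kr (1 / 4) (NUMF.l / 5) * 1 := mul_le_mul_of_nonneg_left (e1 _) k1
  unfold dfG
  rw [abs_le] at h1 h2 h3 h4 ⊢
  constructor <;> linarith [h1.1, h1.2, h2.1, h2.2, h3.1, h3.2, h4.1, h4.2]

lemma pin_absT {τ : ℝ} (hT : 0 ≤ T) (h : T ≤ |τ|) : |NUSp.pin T τ| = T := by
  rw [NUSp.pin_eq_sg hT h, abs_mul, NUSp.sg_abs, one_mul, abs_of_nonneg hT]

/-- **the linear term of a group** -/
theorem exists_dfG : ∃ K : ℝ, 0 ≤ K ∧ ∀ (g : Gd) (T b s Hm : ℝ) (η : ℝ → ℝ), 0 ≤ T → b ≤ T → 0 ≤ s →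
    0 ≤ Hm → (∀ t, |η t| < NUMF.l / 5) → (∀ t, b < |t| → η t = 0) → (∀ t, s * P t * |η t| ≤ Hm) →
    ∀ t, |s * P t * dfG T g η t| ≤ K * Hm * Real.exp (-(T - b)) * Real.exp (-(1 * |t - NUSp.pin T g.τ|)) +
      K * s * Real.exp (-(8 / 3 * T)) * (Real.exp (-(1 * |t - T|)) + Real.exp (-(1 * |t - -T|))) := by
  obtain ⟨C, hC, hP⟩ := NUSea.P_le
  have k0 := kk4_nonneg
  have k1 : 0 ≤ kr (1 / 4) (NUMF.l / 5) := NUSp.rc_nonneg (NUSp.kk_nonneg _ _)
  obtain ⟨A, hA⟩ : ∃ A, A = 4 * kk (1 / 4) (NUMF.l / 5) + 2 * kr (1 / 4) (NUMF.l / 5) := ⟨_, rfl⟩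
  have hA0 : 0 ≤ A := by rw [hA]; positivity
  refine ⟨A * (1 + C), by positivity, ?_⟩
  intro g T b s Hm η hT hb hs hHm hη hz hH t
  have hPt := (NUSea.P_pos t).le
  have q1 : 0 ≤ A * (1 + C) * Hm * Real.exp (-(T - b)) * Real.exp (-(1 * |t - NUSp.pin T g.τ|)) := by
    positivity
  have q2 : 0 ≤ A * (1 + C) * s * Real.exp (-(8 / 3 * T)) *
      (Real.exp (-(1 * |t - T|)) + Real.exp (-(1 * |t - -T|))) := by positivity
  rcases le_total |g.τ| T with h0 | h0
  · rw [dfG_zero h0, mul_zero, abs_zero]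
    positivity
  rcases le_or_gt |t| T with ht | ht
  · -- inside
    refine le_trans ?_ (le_add_of_nonneg_right q2)
    rcases lt_or_ge b |t| with hbt | hbt
    · have h1 := dfG_in g hT h0 ht (hη t)
      rw [hz t hbt, abs_zero, mul_zero, zero_mul] at h1
      rw [abs_mul, abs_of_nonneg (by positivity : 0 ≤ s * P t), le_antisymm h1 (abs_nonneg _), mul_zero]
      exact q1
    · have h1 := dfG_in g hT h0 ht (hη t)
      rw [abs_mul, abs_of_nonneg (by positivity : 0 ≤ s * P t)]
      have h2 : T - b ≤ |t - NUSp.pin T g.τ| := by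
        have h3 := pin_absT hT h0
        have h4 := abs_sub_abs_le_abs_sub (NUSp.pin T g.τ) t
        rw [abs_sub_comm] at h4
        linarith
      have h3 : Real.exp (-2 * |t - NUSp.pin T g.τ|) ≤
          Real.exp (-(T - b)) * Real.exp (-(1 * |t - NUSp.pin T g.τ|)) := by
        rw [← Real.exp_add]
        exact Real.exp_le_exp.2 (by linarith)
      calc s * P t * |dfG T g η t| ≤ s * P t * (4 * kk (1 / 4) (NUMF.l / 5) * |η t| *
            Real.exp (-2 * |t - NUSp.pin T g.τ|)) := mul_le_mul_of_nonneg_left h1 (by positivity)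
        _ = 4 * kk (1 / 4) (NUMF.l / 5) * (s * P t * |η t|) *
            Real.exp (-2 * |t - NUSp.pin T g.τ|) := by ring
        _ ≤ 4 * kk (1 / 4) (NUMF.l / 5) * Hm *
            (Real.exp (-(T - b)) * Real.exp (-(1 * |t - NUSp.pin T g.τ|))) := by
            have := hH t
            gcongr
        _ ≤ A * (1 + C) * Hm *
            (Real.exp (-(T - b)) * Real.exp (-(1 * |t - NUSp.pin T g.τ|))) := by
            have h5 : 4 * kk (1 / 4) (NUMF.l / 5) ≤ A * (1 + C) := by
              have : 4 * kk (1 / 4) (NUMF.l / 5) ≤ A := by rw [hA]; linarith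
              nlinarith
            gcongr
        _ = _ := by ring
  · -- outside
    refine le_trans ?_ (le_add_of_nonneg_left q1)
    have h1 := dfG_all g hT (hη t) (t := t)
    rw [← hA] at h1
    rw [abs_mul, abs_of_nonneg (by positivity : 0 ≤ s * P t)]
    have h2 : Real.exp (-(8 / 3) * |t|) ≤ Real.exp (-(8 / 3 * T)) *
        (Real.exp (-(1 * |t - T|)) + Real.exp (-(1 * |t - -T|))) := by
      rcases le_total 0 t with h3 | h3
      · rw [abs_of_nonneg h3] at ht ⊢
        have h4 : Real.exp (-(8 / 3) * t) ≤ Real.exp (-(8 / 3 * T)) * Real.exp (-(1 * |t - T|)) := by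
          rw [← Real.exp_add, abs_of_nonneg (by linarith)]
          exact Real.exp_le_exp.2 (by linarith)
        have h5 : 0 ≤ Real.exp (-(8 / 3 * T)) * Real.exp (-(1 * |t - -T|)) := by positivity
        linarith
      · rw [abs_of_nonpos h3] at ht ⊢
        have h4 : Real.exp (-(8 / 3) * -t) ≤ Real.exp (-(8 / 3 * T)) * Real.exp (-(1 * |t - -T|)) := by
          rw [← Real.exp_add, abs_of_nonpos (by linarith)]
          exact Real.exp_le_exp.2 (by linarith)
        have h5 : 0 ≤ Real.exp (-(8 / 3 * T)) * Real.exp (-(1 * |t - T|)) := by positivity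
        linarith
    calc s * P t * |dfG T g η t| ≤ s * (C * Real.exp (-(8 / 3) * |t|)) * A := by
          have := hP t
          gcongr
      _ ≤ s * (C * (Real.exp (-(8 / 3 * T)) *
          (Real.exp (-(1 * |t - T|)) + Real.exp (-(1 * |t - -T|))))) * A := by gcongr
      _ = A * C * (s * (Real.exp (-(8 / 3 * T)) *
          (Real.exp (-(1 * |t - T|)) + Real.exp (-(1 * |t - -T|))))) := by ring
      _ ≤ A * (1 + C) * (s * (Real.exp (-(8 / 3 * T)) *
          (Real.exp (-(1 * |t - T|)) + Real.exp (-(1 * |t - -T|))))) := by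
          have : A * C ≤ A * (1 + C) := by nlinarith
          exact mul_le_mul_of_nonneg_right this (by positivity)
      _ = _ := by ring

/-- **the linear term at the true heights** -/
theorem exists_linT : ∃ K : ℝ, 0 ≤ K ∧ ∀ (n : ℕ) (g : Fin n → Gd) (T b s Hm : ℝ) (η η1 : ℝ → ℝ),
    0 ≤ T → b ≤ T → 0 ≤ s → 0 ≤ Hm → (∀ t, |η t| < NUMF.l / 5) →
    (∀ t, HasDerivAt η (η1 t) t) → (∀ t, b < |t| → η t = 0) → (∀ t, s * P t * |η t| ≤ Hm) →
    |(∫ t, s * P t * ∑ i, gS ((g i).pin T).G t) + (∑ a, ∫ t, s * P t * BF T g η a t) -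
      ∫ t, s * P t * ∑ i, gS (g i).G t| ≤
      K * n * (Hm * Real.exp (-(T - b)) + s * Real.exp (-(8 / 3 * T))) := by
  obtain ⟨K, hK, H⟩ := exists_dfG
  refine ⟨4 * K, by positivity, ?_⟩
  intro n g T b s Hm η η1 hT hb hs hHm hη hd hz hH
  have k0 := kk4_nonneg
  have hPc := NUSea.P_cont
  -- integrability
  have iS : ∀ G : Gd, Integrable fun t => s * P t * gS G.G t := by
    intro G
    have h1 : Integrable fun t => s * P t := NUSea.P_int.const_mul s
    refine h1.mul_bdd (c := 2 * kk (1 / 4) (NUMF.l / 5)) (gS_cont G).aestronglyMeasurable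
      (ae_of_all _ fun t => ?_)
    refine (gS_le G t).trans ?_
    have h2 : Real.exp (-2 * |t - G.τ|) ≤ 1 :=
      Real.exp_le_one_iff.2 (by have := abs_nonneg (t - G.τ); linarith)
    have := mul_le_mul_of_nonneg_left h2 (by positivity : 0 ≤ 2 * kk (1 / 4) (NUMF.l / 5))
    linarith
  have iR : ∀ (i : Fin n) (a : Bool), Integrable fun t =>
      s * P t * remG T (g i).c a (g i).σ (g i).w η t := by
    intro i a
    have h1 : Integrable fun t => s * P t := NUSea.P_int.const_mul s
    have hc : Continuous fun t => remG T (g i).c a (g i).σ (g i).w η t :=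
      continuous_iff_continuousAt.2 fun t => (NUSp.hasDerivAt_remG l5pos l5
        (g i).away T (g i).c a (g i).σ (hη t) (hd t)).continuousAt
    refine h1.mul_bdd (c := kr (1 / 4) (NUMF.l / 5)) hc.aestronglyMeasurable
      (ae_of_all _ fun t => ?_)
    have h2 := NUSp.remG_le (w := (g i).w) (t := t) (η := η) l5pos l5 (by norm_num) (g i).away hT
      (g i).c a (g i).σ (hη t)
    refine h2.trans ?_
    have h3 : Real.exp (-2 * |t - NUSp.pin T (g i).w.im|) ≤ 1 :=
      Real.exp_le_one_iff.2 (by have := abs_nonneg (t - NUSp.pin T (g i).w.im); linarith)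
    have h4 : 0 ≤ kr (1 / 4) (NUMF.l / 5) := NUSp.rc_nonneg (NUSp.kk_nonneg _ _)
    have := mul_le_mul_of_nonneg_left h3 h4
    linarith
  have iD : ∀ i, Integrable fun t => s * P t * dfG T (g i) η t := by
    intro i
    refine ((((iS ((g i).pin T)).add (iR i true)).add (iR i false)).sub (iS (g i))).congr
      (ae_of_all _ fun t => ?_)
    show s * P t * gS ((g i).pin T).G t + s * P t * remG T (g i).c true (g i).σ (g i).w η t +
      s * P t * remG T (g i).c false (g i).σ (g i).w η t - s * P t * gS (g i).G t = _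
    unfold dfG
    ring
  -- the sum
  have e1 : (∫ t, s * P t * ∑ i, gS ((g i).pin T).G t) + (∑ a, ∫ t, s * P t * BF T g η a t) -
      ∫ t, s * P t * ∑ i, gS (g i).G t = ∑ i, ∫ t, s * P t * dfG T (g i) η t := by
    have a1 : (∫ t, s * P t * ∑ i, gS ((g i).pin T).G t) =
        ∑ i, ∫ t, s * P t * gS ((g i).pin T).G t := by
      rw [← integral_finsetSum _ fun i _ => iS ((g i).pin T)]
      refine integral_congr_ae (ae_of_all _ fun t => ?_)
      simp only
      rw [Finset.mul_sum]
    have a2 : (∫ t, s * P t * ∑ i, gS (g i).G t) = ∑ i, ∫ t, s * P t * gS (g i).G t := by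
      rw [← integral_finsetSum _ fun i _ => iS (g i)]
      refine integral_congr_ae (ae_of_all _ fun t => ?_)
      simp only
      rw [Finset.mul_sum]
    have a3 : ∀ a, (∫ t, s * P t * BF T g η a t) =
        ∑ i, ∫ t, s * P t * remG T (g i).c a (g i).σ (g i).w η t := by
      intro a
      rw [← integral_finsetSum _ fun i _ => iR i a]
      refine integral_congr_ae (ae_of_all _ fun t => ?_)
      show s * P t * BF T g η a t = _
      unfold BF
      rw [Finset.mul_sum]
    rw [a1, a2, Fintype.sum_bool, a3, a3, ← Finset.sum_add_distrib, ← Finset.sum_add_distrib,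
      ← Finset.sum_sub_distrib]
    refine Finset.sum_congr rfl fun i _ => ?_
    have e : (fun t => s * P t * dfG T (g i) η t) =
        ((fun t => s * P t * gS ((g i).pin T).G t) +
          ((fun t => s * P t * remG T (g i).c true (g i).σ (g i).w η t) +
            (fun t => s * P t * remG T (g i).c false (g i).σ (g i).w η t))) -
        (fun t => s * P t * gS (g i).G t) := by
      funext t
      simp only [Pi.sub_apply, Pi.add_apply]
      unfold dfG
      ring
    rw [e, integral_sub' ((iS ((g i).pin T)).add ((iR i true).add (iR i false))) (iS (g i)),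
      integral_add' (iS ((g i).pin T)) ((iR i true).add (iR i false)),
      integral_add' (iR i true) (iR i false)]
  rw [e1]
  -- the bound of one group
  have key : ∀ i, |∫ t, s * P t * dfG T (g i) η t| ≤
      4 * K * (Hm * Real.exp (-(T - b)) + s * Real.exp (-(8 / 3 * T))) := by
    intro i
    have hE := fun x : ℝ => NUDispW.int_exp_abs (c := 1) one_pos x
    have hx := hE (NUSp.pin T (g i).τ)
    have h1 := hE T
    have h2 := hE (-T)
    have hE2 : Integrable fun t => Real.exp (-(1 * |t - T|)) + Real.exp (-(1 * |t - -T|)) :=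
      h1.1.add h2.1
    have hi : Integrable fun t => K * Hm * Real.exp (-(T - b)) *
        Real.exp (-(1 * |t - NUSp.pin T (g i).τ|)) + K * s * Real.exp (-(8 / 3 * T)) *
        (Real.exp (-(1 * |t - T|)) + Real.exp (-(1 * |t - -T|))) :=
      (hx.1.const_mul _).add (hE2.const_mul _)
    have hpt : ∀ t, ‖s * P t * dfG T (g i) η t‖ ≤ K * Hm * Real.exp (-(T - b)) *
        Real.exp (-(1 * |t - NUSp.pin T (g i).τ|)) + K * s * Real.exp (-(8 / 3 * T)) *
        (Real.exp (-(1 * |t - T|)) + Real.exp (-(1 * |t - -T|))) := fun t =>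
      H (g i) T b s Hm η hT hb hs hHm hη hz hH t
    refine (norm_integral_le_of_norm_le hi (ae_of_all _ hpt)).trans ?_
    rw [integral_add (hx.1.const_mul _) (hE2.const_mul _), integral_const_mul,
      integral_const_mul]
    have e2 : (∫ t, (Real.exp (-(1 * |t - T|)) + Real.exp (-(1 * |t - -T|)))) = 4 := by
      rw [integral_add h1.1 h2.1, h1.2, h2.2]
      norm_num
    rw [e2, hx.2]
    have q1 : 0 ≤ K * Hm * Real.exp (-(T - b)) := by positivity
    linarith
  refine (Finset.abs_sum_le_sum_abs _ _).trans ?_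
  refine (Finset.sum_le_card_nsmul _ _ _ fun i _ => key i).trans (le_of_eq ?_)
  rw [Finset.card_univ, Fintype.card_fin, nsmul_eq_mul]
  ring

end

end NUSea.H0
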