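import Pool.Agent.NUQ2.PreL

/-!
# TARGET-C: from the bounds of the classes to the bound of the gas of two cut rows, abstract form

* `FlatV`: the sum over a finite type of classes of the integrals (over the half quanta) of the moduli;
* `flat_of`: the sum over the numbers of quanta of a signed sum of integrals is at most `FlatV`;
* `flatV_le`: `FlatV` from majorants of the classes;
* `leg_of`, `leg_of_classes`: the bound `C * k ^ ε * bulkh k / 2 ^ (2 * k * (2 * k - 1))` (the right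
  side of `NU5.LegUp`; `Gs` = `NU5.GasLe`).
-/

set_option autoImplicit false

noncomputable section

open MeasureTheory Finset Filter
open scoped ENNReal

namespace NUGC

/-! ### the sum over the classes -/

/-- the sum of the integrals is at most the integral of the sum (no measurability) -/
theorem sum_lintegral_le {E : Type*} [MeasurableSpace E] (μ : Measure E) {κ : Type*} (s : Finset κ)
    (f : κ → E → ℝ≥0∞) : ∑ i ∈ s, ∫⁻ y, f i y ∂μ ≤ ∫⁻ y, ∑ i ∈ s, f i y ∂μ := by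
  classical
  induction s using Finset.induction_on with
  | empty => simp
  | insert i s hi ih =>
    rw [sum_insert hi]
    simp only [sum_insert hi]
    exact (add_le_add_right ih _).trans (le_lintegral_add _ _)

section flat
variable {ι : Type*} [Fintype ι] {Ω : ι → Type*} [∀ c, MeasurableSpace (Ω c)]

/-- sum over the classes of the integrals over the half quanta of the moduli, up to `N` quanta -/
def FlatV (μ : ∀ c, Measure (Ω c)) (wt : ι → ℝ≥0∞) (pr : ∀ c, Ω c → ℂ)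
    (Z : ∀ c, Ω c → ℕ → ℂ) (N : ℕ) : ℝ≥0∞ :=
  ∑ c, wt c * ∫⁻ y, ‖pr c y‖ₑ * ∑ n ∈ range (N + 1), ‖Z c y n‖ₑ ∂μ c

/-- the sum over the numbers of quanta, with a shift -/
theorem sum_shift_le (a : ℝ≥0∞) (f : ℕ → ℝ≥0∞) (s N : ℕ) :
    ∑ n ∈ range (N + 1), (if s ≤ n then a * f (n - s) else 0) ≤ a * ∑ n ∈ range (N + 1), f n := by
  rw [mul_sum, ← sum_filter]
  have hinj : Set.InjOn (fun n => n - s) ((range (N + 1)).filter fun n => s ≤ n) := by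
    intro x hx y hy h
    simp only [coe_filter, Finset.mem_range, Set.mem_ofPred_eq] at hx hy
    simp only at h
    omega
  rw [show ∑ n ∈ (range (N + 1)).filter (fun n => s ≤ n), a * f (n - s) =
      ∑ m ∈ ((range (N + 1)).filter fun n => s ≤ n).image (fun n => n - s), a * f m from
    (sum_image (f := fun m => a * f m) hinj).symm]
  refine sum_le_sum_of_subset ?_
  intro m hm
  simp only [mem_image, mem_filter, Finset.mem_range] at hm ⊢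
  obtain ⟨n, hn, rfl⟩ := hm
  omega

/-- **The sum over the numbers of quanta of a signed sum of integrals.** -/
theorem flat_of {μ : ∀ c, Measure (Ω c)} {ε : ι → ℂ} {s : ι → ℕ} {pr : ∀ c, Ω c → ℂ}
    {Z : ∀ c, Ω c → ℕ → ℂ} {N : ℕ} {E : ℕ → ℂ}
    (hE : ∀ n ≤ N, E n = ∑ c, ε c * ∫ y, (if s c ≤ n then pr c y * Z c y (n - s c) else 0) ∂μ c) :
    ‖∑ n ∈ range (N + 1), E n‖ₑ ≤ FlatV μ (fun c => ‖ε c‖ₑ) pr Z N := by
  calc ‖∑ n ∈ range (N + 1), E n‖ₑ ≤ ∑ n ∈ range (N + 1), ‖E n‖ₑ := enorm_sum_le _ _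
    _ ≤ ∑ n ∈ range (N + 1), ∑ c, ‖ε c‖ₑ *
        ∫⁻ y, (if s c ≤ n then ‖pr c y‖ₑ * ‖Z c y (n - s c)‖ₑ else 0) ∂μ c := by
        refine sum_le_sum fun n hn => ?_
        rw [hE n (Nat.lt_succ_iff.1 (Finset.mem_range.1 hn))]
        refine (enorm_sum_le _ _).trans (sum_le_sum fun c _ => ?_)
        rw [enorm_mul]
        refine mul_le_mul_right ((enorm_integral_le_lintegral_enorm _).trans
          (le_of_eq (lintegral_congr fun y => ?_))) _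
        split_ifs
        · rw [enorm_mul]
        · rw [enorm_zero]
    _ = ∑ c, ‖ε c‖ₑ * ∑ n ∈ range (N + 1),
        ∫⁻ y, (if s c ≤ n then ‖pr c y‖ₑ * ‖Z c y (n - s c)‖ₑ else 0) ∂μ c := by
        rw [sum_comm]
        exact sum_congr rfl fun c _ => (mul_sum _ _ _).symm
    _ ≤ FlatV μ (fun c => ‖ε c‖ₑ) pr Z N := by
        refine sum_le_sum fun c _ => mul_le_mul_right ?_ _
        refine (sum_lintegral_le _ _ _).trans (lintegral_mono fun y => ?_)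
        exact sum_shift_le _ (fun n => ‖Z c y n‖ₑ) _ _

/-- **The value of the classes from majorants.** -/
theorem flatV_le {μ : ∀ c, Measure (Ω c)} {wt : ι → ℝ≥0∞} {pr : ∀ c, Ω c → ℂ}
    {Z : ∀ c, Ω c → ℕ → ℂ} {N : ℕ} {G : ∀ c, Ω c → ℝ} {B : ℝ}
    (hG : ∀ c, Integrable (G c) (μ c))
    (hb : ∀ c, ∀ᵐ y ∂μ c, ‖pr c y‖ * ∑ n ∈ range (N + 1), ‖Z c y n‖ ≤ G c y)
    (hI : ∀ c, ∫ y, G c y ∂μ c ≤ B) :
    FlatV μ wt pr Z N ≤ (∑ c, wt c) * ENNReal.ofReal B := by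
  unfold FlatV
  rw [sum_mul]
  refine sum_le_sum fun c _ => mul_le_mul_right ?_ _
  have h0 : 0 ≤ᵐ[μ c] G c := by
    filter_upwards [hb c] with y hy
    exact le_trans (by positivity) hy
  calc ∫⁻ y, ‖pr c y‖ₑ * ∑ n ∈ range (N + 1), ‖Z c y n‖ₑ ∂μ c
      ≤ ∫⁻ y, ENNReal.ofReal (G c y) ∂μ c := by
        refine lintegral_mono_ae ?_
        filter_upwards [hb c] with y hy
        refine le_trans (le_of_eq ?_) (ENNReal.ofReal_le_ofReal hy)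
        rw [ENNReal.ofReal_mul (norm_nonneg _), ENNReal.ofReal_sum_of_nonneg fun n _ =>
          norm_nonneg _]
        simp only [ofReal_norm]
    _ = ENNReal.ofReal (∫ y, G c y ∂μ c) := (ofReal_integral_eq_lintegral_ofReal (hG c) h0).symm
    _ ≤ ENNReal.ofReal B := ENNReal.ofReal_le_ofReal (hI c)

end flat

/-! ### the bound of the gas of two cut rows -/

/-- **The bound of the gas of two cut rows**: `S` = bound of the sum over the numbers of quanta, `A` =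
prefactor, `Gs` = `GasLe`. -/
theorem leg_of {Gs : ℕ → ℝ → Prop} (mono : ∀ {k : ℕ} {c c' : ℝ}, Gs k c → c ≤ c' → Gs k c')
    {A : ℕ → ℝ} {CA I0 : ℝ}
    (hA : ∀ M : ℕ, 2 ^ (2 * (2 * M + 1) * (2 * (2 * M + 1) - 1)) * A M *
      Real.exp ((2 * (M : ℝ) + 1) ^ 2 * I0) ≤ CA * NUQ2.bulkh (2 * M + 1))
    (h : ∀ ε : ℝ, 0 < ε → ∃ (Cst : ℝ) (M0 : ℕ), 0 ≤ Cst ∧ ∀ M : ℕ, M0 ≤ M →
      Gs (2 * M + 1) (A M * (Cst * (2 * (M : ℝ) + 1) ^ ε *
        Real.exp ((2 * (M : ℝ) + 1) ^ 2 * I0)))) :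
    ∀ ε : ℝ, 0 < ε → ∃ (C : ℝ) (k0 : ℕ), ∀ k : ℕ, k0 ≤ k → k % 2 = 1 →
      Gs k (C * (k : ℝ) ^ ε * NUQ2.bulkh k / 2 ^ (2 * k * (2 * k - 1))) := by
  intro ε hε
  obtain ⟨Cst, M0, hC, h⟩ := h ε hε
  refine ⟨Cst * CA, 2 * M0 + 1, fun k hk hodd => ?_⟩
  obtain ⟨M, rfl⟩ : ∃ M, k = 2 * M + 1 := ⟨k / 2, by omega⟩
  refine mono (h M (by omega)) ?_
  have h2 : (0 : ℝ) < 2 ^ (2 * (2 * M + 1) * (2 * (2 * M + 1) - 1)) := by positivity
  rw [le_div_iff₀ h2]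
  have e : (((2 * M + 1 : ℕ) : ℝ)) = 2 * (M : ℝ) + 1 := by push_cast; ring
  rw [e]
  calc A M * (Cst * (2 * (M : ℝ) + 1) ^ ε * Real.exp ((2 * (M : ℝ) + 1) ^ 2 * I0)) *
        2 ^ (2 * (2 * M + 1) * (2 * (2 * M + 1) - 1))
      = Cst * (2 * (M : ℝ) + 1) ^ ε * (2 ^ (2 * (2 * M + 1) * (2 * (2 * M + 1) - 1)) * A M *
          Real.exp ((2 * (M : ℝ) + 1) ^ 2 * I0)) := by ring
    _ ≤ Cst * (2 * (M : ℝ) + 1) ^ ε * (CA * NUQ2.bulkh (2 * M + 1)) :=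
        mul_le_mul_of_nonneg_left (hA M) (by positivity)
    _ = Cst * CA * (2 * (M : ℝ) + 1) ^ ε * NUQ2.bulkh (2 * M + 1) := by ring

section classes
variable {ι : Type*} [Fintype ι] {Ω : ι → Type*} [∀ c, MeasurableSpace (Ω c)] {Θ : Type*}

/-- **The flat representation**: for admissible parameters `θ` the gas is at most the prefactor times
every bound of the value of the classes. -/
def FlatRep (Gs : ℕ → ℝ → Prop) (Adm : ℕ → Θ → Prop) (μ : ∀ c, Measure (Ω c))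
    (wt : ι → ℝ≥0∞) (pr : ℕ → Θ → ∀ c, Ω c → ℂ) (Z : ℕ → Θ → ∀ c, Ω c → ℕ → ℂ) (A : ℕ → ℝ) :
    Prop :=
  ∀ (M : ℕ) (θ : Θ), Adm M θ → ∀ S : ℝ, 0 ≤ S →
    FlatV μ wt (pr M θ) (Z M θ) (4 * M) ≤ ENNReal.ofReal S → Gs (2 * M + 1) (A M * S)

/-- **The bounds of the classes**: majorants with the mean field value and a small power of `M`. -/
def ClassBd (Adm : ℕ → Θ → Prop) (μ : ∀ c, Measure (Ω c)) (pr : ℕ → Θ → ∀ c, Ω c → ℂ)
    (Z : ℕ → Θ → ∀ c, Ω c → ℕ → ℂ) (I0 : ℝ) : Prop :=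
  ∀ ε : ℝ, 0 < ε → ∃ (Cst : ℝ) (M0 : ℕ), 0 ≤ Cst ∧ ∀ M : ℕ, M0 ≤ M → ∃ θ : Θ, Adm M θ ∧
    ∀ c, ∃ G : Ω c → ℝ, Integrable G (μ c) ∧
      ∫ y, G y ∂μ c ≤ Cst * (2 * (M : ℝ) + 1) ^ ε * Real.exp ((2 * (M : ℝ) + 1) ^ 2 * I0) ∧
      ∀ᵐ y ∂μ c, ‖pr M θ c y‖ * ∑ n ∈ range (4 * M + 1), ‖Z M θ c y n‖ ≤ G y

/-- **The bound of the gas of two cut rows from the classes.** -/
theorem leg_of_classes {Gs : ℕ → ℝ → Prop}
    (mono : ∀ {k : ℕ} {c c' : ℝ}, Gs k c → c ≤ c' → Gs k c') {Adm : ℕ → Θ → Prop}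
    {μ : ∀ c, Measure (Ω c)} {wt : ι → ℝ≥0∞} {pr : ℕ → Θ → ∀ c, Ω c → ℂ}
    {Z : ℕ → Θ → ∀ c, Ω c → ℕ → ℂ} {A : ℕ → ℝ} {CA I0 : ℝ} (hwt : ∀ c, wt c ≠ ∞)
    (hA : ∀ M : ℕ, 2 ^ (2 * (2 * M + 1) * (2 * (2 * M + 1) - 1)) * A M *
      Real.exp ((2 * (M : ℝ) + 1) ^ 2 * I0) ≤ CA * NUQ2.bulkh (2 * M + 1))
    (hF : FlatRep Gs Adm μ wt pr Z A) (hC : ClassBd Adm μ pr Z I0) :
    ∀ ε : ℝ, 0 < ε → ∃ (C : ℝ) (k0 : ℕ), ∀ k : ℕ, k0 ≤ k → k % 2 = 1 →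
      Gs k (C * (k : ℝ) ^ ε * NUQ2.bulkh k / 2 ^ (2 * k * (2 * k - 1))) := by
  refine leg_of mono hA fun ε hε => ?_
  obtain ⟨Cst, M0, hCst, hC⟩ := hC ε hε
  have hW : ∑ c, wt c ≠ ∞ := ENNReal.sum_ne_top.2 fun c _ => hwt c
  refine ⟨(∑ c, wt c).toReal * Cst, M0, by positivity, fun M hM => ?_⟩
  obtain ⟨θ, hθ, hcl⟩ := hC M hM
  choose G hG hI hb using hcl
  have h1 := flatV_le (wt := wt) hG hb hI
  refine hF M θ hθ _ (by positivity) (h1.trans (le_of_eq ?_))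
  rw [show (∑ c, wt c).toReal * Cst * (2 * (M : ℝ) + 1) ^ ε *
      Real.exp ((2 * (M : ℝ) + 1) ^ 2 * I0) = (∑ c, wt c).toReal * (Cst * (2 * (M : ℝ) + 1) ^ ε *
      Real.exp ((2 * (M : ℝ) + 1) ^ 2 * I0)) by ring, ENNReal.ofReal_mul ENNReal.toReal_nonneg,
    ENNReal.ofReal_toReal hW]

end classes

end NUGC

end
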