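import Pool.Agent.NUGC.Master
import Pool.Agent.NUGC.ClsR4
import Pool.Agent.NURow.Pref
import Pool.Agent.NUP1L.RowE

/-!
# TARGET-C: the final assembly

* `clC ep M t t'`, `clD M o`: the 16 + 2 final classes with their kernels;
* `AM M`: the prefactor, `AM_match`;
* `E11Form`: the eleven integrals as a signed sum of the values of the classes (`NURow/Fin`);
* `GasTop`: the gas of two cut rows from a bound of the sum of the eleven integrals;
* `PerAll`: the tilted bounds of all classes and the integrals of their prefactors (gas side);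
* `EE_bound`: `E11Form → PerAll →` the bound of the sum of the eleven integrals;
* **`legC`**: `GasTop → E11Form → PerAll →` the right side of `NU5.LegUp`.
-/

set_option autoImplicit false
set_option linter.unusedSectionVars false

noncomputable section

open MeasureTheory Finset
open scoped ENNReal

namespace NUGC

open NUO NUP1 NUCR NUP1S NURow

/-- the lines of TARGET-C -/
def ParM (P : Par) : Prop := ParC P ∧ P.jL = 9 / 4 ∧ 1 / 4 ≤ P.e

/-- the activity constants -/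
def ccM (M : ℕ) : Bool → ℂ := fun _ => NUP1.Leg.cc (2 * M)

theorem norm_ccM (M : ℕ) (a : Bool) : ‖ccM M a‖ = 2 * Real.cos l := by
  unfold ccM
  have hl := NUP1.l_pos
  have hs : Complex.sin (l : ℂ) ≠ 0 := by
    rw [← Complex.ofReal_sin]
    have : 0 < Real.sin l := Real.sin_pos_of_pos_of_lt_pi hl (by unfold l; linarith [Real.pi_pos])
    exact_mod_cast this.ne'
  rw [cc_even, Complex.sin_two_mul, show 2 * Complex.sin (l : ℂ) * Complex.cos l /
    Complex.sin l = 2 * Complex.cos l by field_simp, norm_mul, ← Complex.ofReal_cos,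
    Complex.norm_real, Real.norm_eq_abs, abs_of_nonneg cosl_nonneg]
  norm_num

/-- cutoff exponent -/
def beC (ep : ℝ) : ℝ := 4 / 3 * (1 - ep)

/-- the one body functions of the state sum with `2 M` rows in each group -/
def XC (ep : ℝ) (M : ℕ) (a : Bool) : Option O3 → ℂ → ℂ := XM (ccM M) (beC ep) M M a

/-- **the 16 final classes** -/
def clC (ep : ℝ) (M : ℕ) (t t' : HT) : CD :=
  cF (XC ep M true) (XC ep M false) (KF M) (KP (NUP1.Leg.cc (2 * M)) (beC ep) M M) (KF' M)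
    (KP' (NUP1.Leg.cc (2 * M)) (beC ep) M M) t t'

/-- **the two classes with one line** -/
def clD (M : ℕ) (o : Bool) : CD1 := if o then cD (XD M) else cD' (XD' M)

/-- value of a class with `n` quanta of each species -/
def vC (ep : ℝ) (M : ℕ) (P : Par) (t t' : HT) (n : ℕ) : ℂ :=
  (clC ep M t t').val (XC ep M true) (XC ep M false) (3 / 5 * l) n n (lX P) (lY P)

/-- value of a class with one line -/
def vD (ep : ℝ) (M : ℕ) (P : Par) (o : Bool) (n : ℕ) : ℂ :=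
  (clD M o).val (XC ep M true) (XC ep M false) (3 / 5 * l) n n (lX P) (lY P)

/-- **The eleven integrals as a signed sum of the values of the final classes.** -/
def E11Form : Prop := ∀ (ep : ℝ), 0 < ep → ep ≤ 1 / 100 → ∀ (M : ℕ), 1 ≤ M → ∀ (P : Par), ParM P →
  ∀ n : ℕ, NUP1.Rws.EE (31 / 50) (beC ep) M n =
    (2 * (Real.pi : ℂ))⁻¹ ^ 2 * (∑ t : HT, ∑ t' : HT, t.sg * t'.sg * vC ep M P t t' n) -
      Complex.sin l / Complex.sin (2 * l) * ((2 * (Real.pi : ℂ))⁻¹ *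
        (vD ep M P true n + vD ep M P false n))

/-- the prefactor -/
def AM (M : ℕ) : ℝ := ‖Complex.sin l * (NUP1.Leg.Bp (-((l : ℂ) / 2)) ((l : ℂ) / 2) (x0 M) *
  NUP1.Leg.Bp ((l : ℂ) / 2) (-((l : ℂ) / 2)) (x0 M))‖

/-- **The gas of two cut rows from the sum of the eleven integrals**; `Gs` = `NU5.GasLe`. -/
def GasTop (Gs : ℕ → ℝ → Prop) : Prop := ∀ (M : ℕ), 1 ≤ M → ∀ b : ℝ, 1 < b → b ≤ 4 / 3 →
  ∀ S : ℝ, ‖∑ n ∈ range (4 * M + 1), NUP1.Rws.EE (31 / 50) b M n‖ ≤ S →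
    Gs (2 * M + 1) (AM M * S)

/-- the exponent of the mean field value -/
def EMF : ℝ := ∫ t, NUMFH.Pd t * NUMFH.vd t

/-- quanta X of a class beyond the common number -/
def aXt (t t' : HT) : ℕ := htM t t' - htD t'

/-- quanta Y of a class beyond the common number -/
def aYt (t t' : HT) : ℕ := htM t t' - htD t

/-- **The gas side of TARGET-C.**  Per class `t, t'` and choice `u` (quanta at the simple poles of the
types H): the tilted bound of every configuration at all positions `y` of the half quanta with the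
prefactor `Q y u`, and the integral of the prefactors; the same for D1, D1'. -/
def PerAll : Prop :=
  ∃ (C c b c1 c' Ca : ℝ) (k : ℕ), 0 < C ∧ 0 < c ∧ 0 < b ∧ 0 < c1 ∧ 0 ≤ c' ∧ 0 ≤ Ca ∧
    ∀ ep : ℝ, 0 < ep → ep ≤ 1 / 100 → ∀ e1 : ℝ, 0 < e1 → e1 ≤ 1 / 100 → ∀ J : ℝ, 0 ≤ J →
    ∀ δ : ℝ, 0 < δ → ∃ d C' Cst : ℝ, 0 < d ∧ 0 ≤ C' ∧ 0 ≤ Cst ∧ ∃ M0 : ℕ, ∀ M : ℕ, M0 ≤ M →
      ∃ P : Par, ParM P ∧
      (∀ t t' : HT, ∃ (ν : ℝ) (Q : ℝ × ℝ → Bool × Bool → ℝ), (∀ y u, 0 ≤ Q y u) ∧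
        ∫⁻ y : ℝ × ℝ, ‖(clC ep M t t').pre (vl (htL t) y.1) (vl (htL t') y.2)‖ₑ *
            ENNReal.ofReal (∑ u : Bool × Bool, wK (ccM M) (beC ep) M M t t' (vl (htL t) y.1)
              (vl (htL t') y.2) u.1 u.2 * Q y u) ≤
          ENNReal.ofReal (Cst * (2 * (M : ℝ) + 1) ^ (Ca * (ep + e1) + δ) *
            Real.exp ((2 * (M : ℝ) + 1) ^ 2 * EMF)) ∧
        ∀ (y : ℝ × ℝ) (u : Bool × Bool), (u.1 = true → htP t = true) →
          (u.2 = true → htP t' = true) →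
          PerGen C C' c b k c1 c' (Real.log (2 * M + 1)) ep e1 J ν d (4 * M)
            (aXt t t' + aYt t t')
            (TmV u.1.toNat u.2.toNat (obK M M (beC ep) t t' (vl (htL t) y.1)
              (vl (htL t') y.2) u.1 u.2) P (aXt t t') (aYt t t')) (Q y u)) ∧
      ∀ o : Bool, ∃ (ν : ℝ) (Q : ℝ → ℝ), (∀ y, 0 ≤ Q y) ∧
        ∫⁻ y : ℝ, ‖(clD M o).K (vl (-(11 / 4) * l) y)‖ₑ * ENNReal.ofReal (Q y) ≤
          ENNReal.ofReal (Cst * (2 * (M : ℝ) + 1) ^ (Ca * (ep + e1) + δ) *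
            Real.exp ((2 * (M : ℝ) + 1) ^ 2 * EMF)) ∧
        ∀ y : ℝ, PerCof C C' c b k c1 c' (Real.log (2 * M + 1)) ep e1 J ν d (4 * M)
          (obD M M (beC ep) o (vl (-(11 / 4) * l) y)) P 0 0 (Q y)

/-! ### the prefactor -/

theorem x0_rw2 (M : ℕ) : x0 M = NUMFH.rw2 fun i : Fin (2 * M) => decide ((i : ℕ) < M) := by
  funext i
  unfold NURow.x0 NUMFH.rw2
  by_cases h : (i : ℕ) < M
  · simp only [h, if_true, decide_true]
    push_cast
    rfl
  · simp only [h, if_false, decide_false, Bool.false_eq_true]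
    push_cast
    rfl

theorem card_x0 (M : ℕ) : (univ.filter fun i : Fin (2 * M) =>
    decide ((i : ℕ) < M) = true).card = M ∧ (univ.filter fun i : Fin (2 * M) =>
    decide ((i : ℕ) < M) = false).card = M := by
  have h1 : (univ.filter fun i : Fin (2 * M) => decide ((i : ℕ) < M) = true).card = M := by
    rw [card_filter]
    simp only [decide_eq_true_eq]
    rw [Fin.sum_univ_eq_sum_range (fun i => if i < M then 1 else 0) (2 * M), ← card_filter,
      show (range (2 * M)).filter (fun i => i < M) = range M by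
        ext i
        simp only [mem_filter, Finset.mem_range]
        omega, card_range]
  refine ⟨h1, ?_⟩
  have h2 := card_filter_add_card_filter_not (s := (univ : Finset (Fin (2 * M))))
    (fun i => decide ((i : ℕ) < M) = true)
  rw [h1, card_univ, Fintype.card_fin] at h2
  simp only [Bool.not_eq_true] at h2
  omega

/-- constant of the prefactor -/
def CA : ℝ := ‖Complex.sin l‖ * (2 * √(4 + 2 * √2) / (2 - √2))

/-- **prefactor times mean field value = bulk term** -/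
theorem AM_match (M : ℕ) : 2 ^ (2 * (2 * M + 1) * (2 * (2 * M + 1) - 1)) * AM M *
    Real.exp ((2 * (M : ℝ) + 1) ^ 2 * EMF) = CA * NUQ2.bulkh (2 * M + 1) := by
  obtain ⟨c1, c2⟩ := card_x0 M
  have key := NUQ2.Bp_match (fun i : Fin (2 * M) => decide ((i : ℕ) < M))
    (fun i : Fin (2 * M) => decide ((i : ℕ) < M)) c1 c2 c1 c2 (r := -(NUP1.l / 2))
    (o := NUP1.l / 2) (r' := NUP1.l / 2) (o' := -(NUP1.l / 2)) (Or.inr ⟨rfl, rfl⟩)
    (Or.inl ⟨rfl, rfl⟩)
  rw [← x0_rw2] at key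
  unfold AM CA EMF
  rw [norm_mul]
  have e1 : ((-(NUP1.l / 2) : ℝ) : ℂ) = -((l : ℂ) / 2) := by push_cast; rfl
  have e2 : ((NUP1.l / 2 : ℝ) : ℂ) = (l : ℂ) / 2 := by push_cast; rfl
  rw [e1, e2] at key
  linear_combination ‖Complex.sin (l : ℂ)‖ * key

/-! ### one class -/

/-- the sum over the numbers of quanta of the values of a class -/
theorem sum_val_le {E : Type*} [MeasurableSpace E] {μ : Measure E} {val : ℕ → ℂ} {pre : E → ℂ}
    {Z : ℕ → E → ℂ} {N : ℕ} (hv : ∀ n, ‖val n‖ₑ ≤ ∫⁻ y, ‖pre y‖ₑ * ‖Z n y‖ₑ ∂μ) {q : E → ℝ}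
    {F B : ℝ} (hF : 0 ≤ F) (hB : 0 ≤ B)
    (hZ : ∀ y, ∑ n ∈ range (N + 1), ‖Z n y‖ ≤ F * q y)
    (hI : ∫⁻ y, ‖pre y‖ₑ * ENNReal.ofReal (q y) ∂μ ≤ ENNReal.ofReal B) :
    ∑ n ∈ range (N + 1), ‖val n‖ ≤ F * B := by
  have h1 : ∑ n ∈ range (N + 1), ‖val n‖ₑ ≤ ENNReal.ofReal (F * B) := by
    calc ∑ n ∈ range (N + 1), ‖val n‖ₑ ≤ ∑ n ∈ range (N + 1),
          ∫⁻ y, ‖pre y‖ₑ * ‖Z n y‖ₑ ∂μ := sum_le_sum fun n _ => hv n
      _ ≤ ∫⁻ y, ∑ n ∈ range (N + 1), ‖pre y‖ₑ * ‖Z n y‖ₑ ∂μ := sum_lintegral_le _ _ _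
      _ ≤ ∫⁻ y, ENNReal.ofReal F * (‖pre y‖ₑ * ENNReal.ofReal (q y)) ∂μ := by
          refine lintegral_mono fun y => ?_
          rw [← mul_sum, mul_left_comm]
          refine mul_le_mul_right ?_ _
          rw [← ENNReal.ofReal_mul hF]
          refine le_trans (le_of_eq ?_) (ENNReal.ofReal_le_ofReal (hZ y))
          rw [ENNReal.ofReal_sum_of_nonneg fun n _ => norm_nonneg _]
          simp only [ofReal_norm]
      _ = ENNReal.ofReal F * ∫⁻ y, ‖pre y‖ₑ * ENNReal.ofReal (q y) ∂μ :=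
          lintegral_const_mul' _ _ ENNReal.ofReal_ne_top
      _ ≤ ENNReal.ofReal F * ENNReal.ofReal B := mul_le_mul_right hI _
      _ = ENNReal.ofReal (F * B) := (ENNReal.ofReal_mul hF).symm
  have h2 : ENNReal.ofReal (∑ n ∈ range (N + 1), ‖val n‖) ≤ ENNReal.ofReal (F * B) := by
    refine le_trans (le_of_eq ?_) h1
    rw [ENNReal.ofReal_sum_of_nonneg fun n _ => norm_nonneg _]
    simp only [ofReal_norm]
  exact (ENNReal.ofReal_le_ofReal_iff (mul_nonneg hF hB)).1 h2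

/-- constant of the sum over the classes -/
def KA : ℝ := 16 * ((2 * Real.pi)⁻¹) ^ 2 + 2 * ‖Complex.sin (l : ℂ) / Complex.sin (2 * l)‖ *
  (2 * Real.pi)⁻¹

theorem KA_nonneg : 0 ≤ KA := by unfold KA; positivity

theorem norm_sg (t : HT) : ‖t.sg‖ = 1 := by
  cases t <;> simp [HT.sg]

theorem card_HT : Fintype.card HT = 4 := rfl

/-- the eleven integrals from the classes -/
theorem sum_EE_le (hE : E11Form) {ep : ℝ} (h0 : 0 < ep) (h1 : ep ≤ 1 / 100) {M : ℕ} (hM : 1 ≤ M)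
    {P : Par} (hP : ParM P) {N : ℕ} {B : ℝ}
    (hC : ∀ t t' : HT, ∑ n ∈ range (N + 1), ‖vC ep M P t t' n‖ ≤ B)
    (hD : ∀ o : Bool, ∑ n ∈ range (N + 1), ‖vD ep M P o n‖ ≤ B) :
    ‖∑ n ∈ range (N + 1), NUP1.Rws.EE (31 / 50) (beC ep) M n‖ ≤ KA * B := by
  have hpi : ‖(2 * (Real.pi : ℂ))⁻¹‖ = (2 * Real.pi)⁻¹ := by
    rw [norm_inv, norm_mul, Complex.norm_real, Real.norm_eq_abs, abs_of_pos Real.pi_pos]
    norm_num
  set r : ℝ := ‖Complex.sin (l : ℂ) / Complex.sin (2 * l)‖ with hr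
  have hone : ∀ n, ‖NUP1.Rws.EE (31 / 50) (beC ep) M n‖ ≤ ((2 * Real.pi)⁻¹) ^ 2 *
      (∑ t : HT, ∑ t' : HT, ‖vC ep M P t t' n‖) + r * ((2 * Real.pi)⁻¹ *
      (‖vD ep M P true n‖ + ‖vD ep M P false n‖)) := by
    intro n
    rw [hE ep h0 h1 M hM P hP n]
    refine (norm_sub_le _ _).trans (add_le_add ?_ ?_)
    · rw [norm_mul, norm_pow, hpi]
      refine mul_le_mul_of_nonneg_left ?_ (by positivity)
      refine (norm_sum_le _ _).trans (sum_le_sum fun t _ => ?_)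
      refine (norm_sum_le _ _).trans (sum_le_sum fun t' _ => le_of_eq ?_)
      rw [norm_mul, norm_mul, norm_sg, norm_sg, one_mul, one_mul]
    · rw [norm_mul, norm_mul, hpi]
      exact mul_le_mul_of_nonneg_left (mul_le_mul_of_nonneg_left (norm_add_le _ _)
        (by positivity)) (by positivity)
  calc ‖∑ n ∈ range (N + 1), NUP1.Rws.EE (31 / 50) (beC ep) M n‖
      ≤ ∑ n ∈ range (N + 1), ‖NUP1.Rws.EE (31 / 50) (beC ep) M n‖ := norm_sum_le _ _
    _ ≤ ∑ n ∈ range (N + 1), (((2 * Real.pi)⁻¹) ^ 2 *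
      (∑ t : HT, ∑ t' : HT, ‖vC ep M P t t' n‖) + r * ((2 * Real.pi)⁻¹ *
      (‖vD ep M P true n‖ + ‖vD ep M P false n‖))) := sum_le_sum fun n _ => hone n
    _ = ((2 * Real.pi)⁻¹) ^ 2 * (∑ t : HT, ∑ t' : HT, ∑ n ∈ range (N + 1), ‖vC ep M P t t' n‖) +
        r * ((2 * Real.pi)⁻¹ * (∑ n ∈ range (N + 1), ‖vD ep M P true n‖ +
          ∑ n ∈ range (N + 1), ‖vD ep M P false n‖)) := by
        rw [sum_add_distrib, ← mul_sum, ← mul_sum, ← mul_sum, sum_add_distrib, sum_comm]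
        congr 2
        refine sum_congr rfl fun t _ => ?_
        rw [sum_comm]
    _ ≤ ((2 * Real.pi)⁻¹) ^ 2 * (∑ _t : HT, ∑ _t' : HT, B) + r * ((2 * Real.pi)⁻¹ * (B + B)) := by
        refine add_le_add ?_ ?_
        · refine mul_le_mul_of_nonneg_left ?_ (by positivity)
          exact sum_le_sum fun t _ => sum_le_sum fun t' _ => hC t t'
        · refine mul_le_mul_of_nonneg_left (mul_le_mul_of_nonneg_left
            (add_le_add (hD true) (hD false)) (by positivity)) (by positivity)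
    _ = KA * B := by
        rw [sum_const, sum_const, card_univ, card_HT]
        unfold KA
        rw [← hr]
        simp only [nsmul_eq_mul]
        push_cast
        ring

/-! ### the final theorems -/

/-- **The sum of the eleven integrals.** -/
theorem EE_bound (hE : E11Form) (hP : PerAll) : ∀ ε : ℝ, 0 < ε → ∃ (Cst : ℝ) (M0 : ℕ), 0 ≤ Cst ∧
    ∀ M : ℕ, M0 ≤ M → ∃ b : ℝ, 1 ≤ M ∧ 1 < b ∧ b ≤ 4 / 3 ∧
      ‖∑ n ∈ range (4 * M + 1), NUP1.Rws.EE (31 / 50) b M n‖ ≤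
        Cst * (2 * (M : ℝ) + 1) ^ ε * Real.exp ((2 * (M : ℝ) + 1) ^ 2 * EMF) := by
  intro ε hε
  obtain ⟨C, c, b, c1, c', Ca, k, hC, hc, hb, hc1, hc', hCa, hP⟩ := hP
  obtain ⟨a0, ha0, hcls⟩ := cls_le (k := k) hC hc hb hc1 hc' (show 0 < ε / 4 by positivity)
  obtain ⟨a0', ha0', hglue⟩ := glue_class (k := k) hC hc hb hc1 hc' (show 0 < ε / 4 by positivity)
  -- the parameters
  set am : ℝ := min a0 a0' with ham
  have ham0 : 0 < am := lt_min ha0 ha0'
  set ep : ℝ := min (am / 12) (min (1 / 100) (ε / (8 * (Ca + 1)))) with hep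
  have hep0 : 0 < ep := lt_min (by positivity) (lt_min (by norm_num) (by positivity))
  have hep1 : ep ≤ am / 12 := min_le_left _ _
  have hep2 : ep ≤ 1 / 100 := (min_le_right _ _).trans (min_le_left _ _)
  have hep3 : ep ≤ ε / (8 * (Ca + 1)) := (min_le_right _ _).trans (min_le_right _ _)
  have hCe : Ca * ep ≤ ε / 8 := by
    rw [le_div_iff₀ (by positivity)] at hep3
    nlinarith
  obtain ⟨J, hJ0, hJ⟩ : ∃ J : ℝ, 0 ≤ J ∧ Real.exp (-(2 * Real.pi * J)) ≤ am / 2 := by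
    refine ⟨max 0 (-Real.log (am / 2)), le_max_left _ _, ?_⟩
    have hpi := Real.pi_gt_three
    have h1 : -Real.log (am / 2) ≤ 2 * Real.pi * max 0 (-Real.log (am / 2)) := by
      have h2 := le_max_right 0 (-Real.log (am / 2))
      have h3 := le_max_left 0 (-Real.log (am / 2))
      nlinarith
    calc Real.exp (-(2 * Real.pi * max 0 (-Real.log (am / 2)))) ≤
          Real.exp (Real.log (am / 2)) := Real.exp_le_exp.2 (by linarith)
      _ = am / 2 := Real.exp_log (by positivity)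
  obtain ⟨d, C', Cst, hd, hC', hCst, M0, hM0⟩ :=
    hP ep hep0 hep2 ep hep0 hep2 J hJ0 (ε / 4) (by positivity)
  obtain ⟨L0, hL0⟩ := hcls C' hC'
  obtain ⟨L0', hL0'⟩ := hglue C' hC'
  have hlog : Filter.Tendsto (fun M : ℕ => Real.log (2 * (M : ℝ) + 1)) Filter.atTop
      Filter.atTop := by
    refine Real.tendsto_log_atTop.comp ?_
    exact Filter.tendsto_atTop_add_const_right _ _
      ((tendsto_natCast_atTop_atTop (R := ℝ)).const_mul_atTop (by norm_num : (0 : ℝ) < 2))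
  obtain ⟨M1, hM1⟩ := Filter.eventually_atTop.1 (hlog.eventually_ge_atTop (max L0 L0'))
  refine ⟨KA * (4 * (1 + 1 / d) * Cst), max M0 (max M1 20), by have := KA_nonneg; positivity,
    fun M hM => ?_⟩
  have g0 : M0 ≤ M := (le_max_left _ _).trans hM
  have g1 : M1 ≤ M := ((le_max_left _ _).trans (le_max_right _ _)).trans hM
  have g2 : 20 ≤ M := ((le_max_right _ _).trans (le_max_right _ _)).trans hM
  have gM : 1 ≤ M := by omega
  have hMR : (0 : ℝ) < M := by exact_mod_cast gM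
  have hK0 : (0 : ℝ) < 2 * (M : ℝ) + 1 := by linarith
  have hK : (1 : ℝ) ≤ 2 * (M : ℝ) + 1 := by linarith
  obtain ⟨P, hPP, hcl, hclD⟩ := hM0 M g0
  have gL := hM1 M g1
  have gL0 : L0 ≤ Real.log (2 * (M : ℝ) + 1) := (le_max_left _ _).trans gL
  have gL0' : L0' ≤ Real.log (2 * (M : ℝ) + 1) := (le_max_right _ _).trans gL
  have hb0 : 0 < beC ep := by
    unfold beC
    linarith
  have hb1 : beC ep ≤ 4 / 3 := by
    unfold beC
    linarith
  have hb2 : 1 < beC ep := by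
    unfold beC
    linarith
  set F : ℝ := 4 * (1 + 1 / d) * Real.exp (ε / 4 * Real.log (2 * (M : ℝ) + 1)) with hF
  have hF0 : 0 ≤ F := by positivity
  set B : ℝ := Cst * (2 * (M : ℝ) + 1) ^ (Ca * (ep + ep) + ε / 4) *
    Real.exp ((2 * (M : ℝ) + 1) ^ 2 * EMF) with hB
  have hB0 : 0 ≤ B := by positivity
  have hN : ∀ a : ℕ, a ≤ 4 → ((2 * (4 * M) + a + 1 : ℕ) : ℝ) ≤
      Real.exp (2 * Real.log (2 * (M : ℝ) + 1)) := by
    intro a ha
    have h2 : 2 * (4 * M) + a + 1 ≤ (2 * M + 1) * (2 * M + 1) := by nlinarith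
    calc ((2 * (4 * M) + a + 1 : ℕ) : ℝ) ≤ (((2 * M + 1) * (2 * M + 1) : ℕ) : ℝ) := by
          exact_mod_cast h2
      _ = Real.exp (Real.log (2 * (M : ℝ) + 1)) * Real.exp (Real.log (2 * (M : ℝ) + 1)) := by
        rw [Real.exp_log hK0]
        push_cast
        ring
      _ = Real.exp (2 * Real.log (2 * (M : ℝ) + 1)) := by rw [← Real.exp_add]; ring_nf
  -- the classes
  have hC1 : ∀ t t' : HT, ∑ n ∈ range (4 * M + 1), ‖vC ep M P t t' n‖ ≤ F * B := by
    intro t t'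
    obtain ⟨ν, Q, hQ, hI, hPer⟩ := hcl t t'
    refine sum_val_le (μ := (volume : Measure (ℝ × ℝ))) (E := ℝ × ℝ)
      (pre := fun y => (clC ep M t t').pre (vl (htL t) y.1) (vl (htL t') y.2))
      (Z := fun n y => (clC ep M t t').Z (XC ep M true) (XC ep M false) (3 / 5 * l) n n
        (lX P) (lY P) (vl (htL t) y.1) (vl (htL t') y.2)) (fun n => ?_)
      (q := fun y => ∑ u : Bool × Bool, wK (ccM M) (beC ep) M M t t' (vl (htL t) y.1)
              (vl (htL t') y.2) u.1 u.2 * Q y u) hF0 hB0 (fun y => ?_) hI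
    · have h := (clC ep M t t').val_le (XC ep M true) (XC ep M false) (3 / 5 * l) n n
        (lX P) (lY P)
      rw [show (clC ep M t t').a = htL t from cF_a _ _ _ _ _ _ _ _,
        show (clC ep M t t').b = htL t' from cF_b _ _ _ _ _ _ _ _] at h
      exact h
    · have ha : aXt t t' + aYt t t' ≤ 4 := by
        cases t <;> cases t' <;> decide
      have h := hL0 (Real.log (2 * (M : ℝ) + 1)) gL0 ep hep0 hep2 ep hep0 (by linarith) J hJ0
        (by linarith [min_le_left a0 a0']) P hPP.1 (beC ep) hb0 hb1 M M le_rfl (ccM M)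
        (norm_ccM M) (KF M) (KP (NUP1.Leg.cc (2 * M)) (beC ep) M M) (KF' M)
        (KP' (NUP1.Leg.cc (2 * M)) (beC ep) M M) t t' (vl (htL t) y.1) (vl (htL t') y.2)
        (vlre _ _) (vlre _ _) ν d (4 * M) (Q y) hd (hQ y) (hN _ ha) (fun u h1 h2 => hPer y u h1 h2)
      refine h.trans (le_of_eq ?_)
      rw [hF]
      ring
  have hD1 : ∀ o : Bool, ∑ n ∈ range (4 * M + 1), ‖vD ep M P o n‖ ≤ F * B := by
    intro o
    obtain ⟨ν, Q, hQ, hI, hPer⟩ := hclD o
    have ea : (clD M o).a = -(11 / 4) * l := by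
      unfold clD
      split_ifs <;> rfl
    refine sum_val_le (μ := (volume : Measure ℝ)) (E := ℝ)
      (pre := fun y => (clD M o).K (vl (-(11 / 4) * l) y))
      (Z := fun n y => (clD M o).Z (XC ep M true) (XC ep M false) (3 / 5 * l) n n
        (lX P) (lY P) (vl (-(11 / 4) * l) y)) (fun n => ?_)
      (q := Q) hF0 hB0 (fun y => ?_) hI
    · have h := (clD M o).val_le (XC ep M true) (XC ep M false) (3 / 5 * l) n n (lX P) (lY P)
      rw [ea] at h
      exact h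
    · have hr4 : R4Cof ep (obD M M (beC ep) o (vl (-(11 / 4) * l) y)) P 0 0
          fun n => (clD M o).Z (XC ep M true) (XC ep M false) (3 / 5 * l) n n
            (lX P) (lY P) (vl (-(11 / 4) * l) y) := by
        cases o
        · exact (r4_cD (P := P) (x := ep) hPP.1 hep0 hep2 hb0 hb1 le_rfl (norm_ccM M) (XD' M)
            (vlre _ _)).2
        · exact (r4_cD (P := P) (x := ep) hPP.1 hep0 hep2 hb0 hb1 le_rfl (norm_ccM M) (XD M)
            (vlre _ _)).1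
      have h := hL0' (Real.log (2 * (M : ℝ) + 1)) gL0' ep hep0.le (by linarith) ep hep0
        (by linarith) J hJ0 (by linarith [min_le_right a0 a0']) ν d (Q y) (4 * M) 0 0 _ P _ hd
        (hQ y) (by simpa using hN 0 (by norm_num)) hr4 (hPer y)
      refine h.trans (le_of_eq ?_)
      rw [hF]
      ring
  have hS := sum_EE_le hE hep0 hep2 gM hPP hC1 hD1
  refine ⟨beC ep, gM, hb2, hb1, hS.trans ?_⟩
  have hE1 : Real.exp (ε / 4 * Real.log (2 * (M : ℝ) + 1)) = (2 * (M : ℝ) + 1) ^ (ε / 4) := by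
    rw [Real.rpow_def_of_pos hK0, mul_comm]
  have hE2 : (2 * (M : ℝ) + 1) ^ (ε / 4) * (2 * (M : ℝ) + 1) ^ (Ca * (ep + ep) + ε / 4) ≤
      (2 * (M : ℝ) + 1) ^ ε := by
    rw [← Real.rpow_add hK0]
    exact Real.rpow_le_rpow_of_exponent_le hK (by linarith)
  have hx0 := (Real.exp_pos ((2 * (M : ℝ) + 1) ^ 2 * EMF)).le
  have hKA := KA_nonneg
  calc KA * (F * B) = KA * (4 * (1 + 1 / d) * Cst) * ((2 * (M : ℝ) + 1) ^ (ε / 4) *
        (2 * (M : ℝ) + 1) ^ (Ca * (ep + ep) + ε / 4)) *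
        Real.exp ((2 * (M : ℝ) + 1) ^ 2 * EMF) := by rw [hF, hB, hE1]; ring
    _ ≤ KA * (4 * (1 + 1 / d) * Cst) * (2 * (M : ℝ) + 1) ^ ε *
        Real.exp ((2 * (M : ℝ) + 1) ^ 2 * EMF) := by
        refine mul_le_mul_of_nonneg_right (mul_le_mul_of_nonneg_left hE2 (by positivity)) hx0

/-- **The final assembly of TARGET-C.** -/
theorem legC {Gs : ℕ → ℝ → Prop} (mono : ∀ {k : ℕ} {c c' : ℝ}, Gs k c → c ≤ c' → Gs k c')
    (hG : GasTop Gs) (hE : E11Form) (hP : PerAll) :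
    ∀ ε : ℝ, 0 < ε → ∃ (C : ℝ) (k0 : ℕ), ∀ k : ℕ, k0 ≤ k → k % 2 = 1 →
      Gs k (C * (k : ℝ) ^ ε * NUQ2.bulkh k / 2 ^ (2 * k * (2 * k - 1))) := by
  refine leg_of mono (A := AM) (CA := CA) (I0 := EMF) (fun M => (AM_match M).le) fun ε hε => ?_
  obtain ⟨Cst, M0, hC, h⟩ := EE_bound hE hP ε hε
  refine ⟨Cst, M0, hC, fun M hM => ?_⟩
  obtain ⟨b, hM1, hb1, hb2, hb⟩ := h M hM
  exact hG M hM1 b hb1 hb2 _ hb

end NUGC

end
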