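import Pool.Agent.NUGC.OneBd
import Pool.Agent.NUGC.ActGen
import Pool.Agent.NUSea.ParOK
import Pool.Agent.NUSea.Bridge
import Pool.Agent.NUMFH.SlackH
import Pool.Agent.NUC43.SlkC

/-!
# TARGET-C: the one body factor of an object is at most the activity (helper78)

`m = 2 M + 1` rows of each group, sea of the rows `± l / 2`, any current `h ≥ 0` with `J ≤ h` in the bulk.

* `wE_KB`: the bounds of the five kinds with one constant;
* `one_actC`: `ob1c * exp (m mfH + m slack - 2 π w h + (5/2) (|t| - T')_+ + K0)` (times `(r + 1)^k0` for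
  the kinds `S`, `Sv`) is at most `act`;
* `one_actC0`: the case of the parameters `par0` and of the slack `slkh`; `slkC_eq`: its integral form.
-/

set_option autoImplicit false

noncomputable section

open MeasureTheory

namespace NUGC

open NUO NUP1
open NUHM (Agh)

/-! ### the five kinds together -/

/-- **the bounds of the five kinds with one constant** -/
theorem wE_KB : ∃ B0 : ℝ, 0 < B0 ∧ ∀ β : ℝ, 0 < β → β ≤ 4 / 3 → ∀ (M : ℕ) (jL e ρ : ℝ) (x : Xo),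
    2 ≤ jL → jL ≤ 5 / 2 → 1 / 4 ≤ e → e ≤ 31 / 100 → 0 < ρ → ρ ≤ l / 20 →
      KB B0 (2 * M + 1) β ρ (Agh e (ht x)) 1 (wE M β jL e ρ x) (kd x) (ht x) := by
  obtain ⟨C1, p1, h1⟩ := wE_L
  obtain ⟨C2, p2, h2⟩ := wE_T
  obtain ⟨C3, p3, h3⟩ := wE_Svv
  obtain ⟨C4, p4, h4⟩ := wE_S
  obtain ⟨C5, p5, h5⟩ := wE_Sv
  refine ⟨C1 + C2 + C3 + C4 + C5, by positivity, fun β b0 b1 M jL e ρ x j0 j1 e0 e1 r0 r1 => ?_⟩
  rcases hk : kd x with _ | _ | _ | _ | _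
  · exact KB.mono (B0 := C1) p1.le (by linarith) r0 zero_le_one (h1 β b0 b1 M jL e ρ x j0 j1 hk)
  · refine KB.mono (B0 := C2) p2.le (by linarith) r0 zero_le_one ?_
    show wE M β jL e ρ x ≤ C2 * (cut (2 * M + 1) β (ht x) * 1)
    rw [mul_one]
    exact h2 β b0 b1 M jL e ρ x hk
  · exact KB.mono (B0 := C4) p4.le (by linarith) r0 zero_le_one (h4 β b0 b1 M jL e ρ x e0 e1 hk)
  · exact KB.mono (B0 := C5) p5.le (by linarith) r0 zero_le_one (h5 β b0 b1 M jL e ρ x e0 e1 r0 r1 hk)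
  · exact KB.mono (B0 := C3) p3.le (by linarith) r0 zero_le_one (h3 β b0 b1 M jL e ρ x e0 e1 hk)

/-- the density of the sea from below -/
lemma Ph_low (t : ℝ) : 2 / Real.pi * Real.exp (-(8 / 3) * |t|) ≤ NUSea.Ph t := by
  rw [NUSea.Ph_eq_Pd]
  exact NUMFH.le_Pd t

/-- the slack of the data in closed form -/
theorem slkC_eq : (fun t : ℝ => ∫ u, @NUSea.P NUSea.seaH u * NUC43.slk (u - t)) = NUMFH.slkh := by
  funext t
  unfold NUMFH.slkh
  congr 1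
  funext u
  rw [NUC43.slk_psiS, ← NUSlk.psiS_neg, neg_sub]
  rfl

attribute [local instance] NUSea.seaH

/-- **the one body factor of every object of TARGET-C is at most the activity** -/
theorem one_actC {κ : ℝ} (hκ : 0 < κ) (K0 K1 : ℝ) (hK1 : 0 ≤ K1) (k0 : ℕ) :
    ∃ C c : ℝ, 0 < C ∧ 0 < c ∧ ∀ M : ℕ, 1 ≤ M → ∀ P : Par,
      @NUSea.O.ParOK NUSea.seaH P (2 * M + 1) K1 →
      ∀ slk : ℝ → ℝ, (∀ t, slk t + κ * NUSea.Ph t ≤ 2 * Agh (1 / 4) t) →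
      ∀ ep : ℝ, 0 < ep → ep ≤ 1 / 100 → ∀ e1 J : ℝ,
      ∀ T' : ℝ, Tb (Real.log (2 * M + 1 : ℕ)) / (1 - ep) ≤ T' → ∀ h : ℝ → ℝ, (∀ t, 0 ≤ h t) →
      (∀ t, |t| ≤ (1 - 3 * e1) * Tb (Real.log (2 * M + 1 : ℕ)) → J ≤ h t) →
      ∀ (r : ℕ) (O : Fin r → Xo) (i : Fin r),
        ob1c (obE M (4 / 3 * (1 - ep)) fun _ _ => 1) P.jL (ei P O i) (rr P O i) (O i) *
          Real.exp ((2 * M + 1 : ℕ) * mfH (cons P O i) +
            (2 * M + 1 : ℕ) * slkK slk (kd (O i)) (ht (O i)) -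
            2 * Real.pi * wK (kd (O i)) * h (ht (O i)) + exc T' (ht (O i)) + K0) *
            colK (((r : ℝ) + 1) ^ k0) (kd (O i)) ≤
          act C 1 c (1 / 10) (k0 + 6) (Real.log (2 * M + 1 : ℕ)) ep e1 J r (ht (O i)) := by
  obtain ⟨B0, hB0, hB⟩ := wE_KB
  have hpi := Real.pi_pos
  obtain ⟨C, c, hC, hc, H⟩ := kb_actD hκ (dl := 2 / Real.pi) (by positivity) K0 K1 B0 hK1 hB0 k0
  refine ⟨C, c, hC, hc, fun M hM P hP slk hslk ep hep hep1 e1 J T' hT' h hh hJ r O i => ?_⟩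
  obtain ⟨q0, q1⟩ := @NUSea.O.ei_bd NUSea.seaH P (2 * M + 1) K1 hP r O i
  have hρ0 : 0 < rr P O i := hP.r0 r _
  have hρ1 : rr P O i ≤ l / 20 := hP.r1 r _
  have hA := NUMFH.Agh_mono (a := 1 / 4) (a' := ei P O i) (by norm_num) q0 (by linarith) (ht (O i))
  have hs := hslk (ht (O i))
  have hW := hB (4 / 3 * (1 - ep)) (by linarith) (by linarith) M P.jL (ei P O i) (rr P O i) (O i)
    hP.j1 hP.j2 q0 q1 hρ0 hρ1
  have hPh : @NUSea.P NUSea.seaH (ht (O i)) = NUSea.Ph (ht (O i)) := rfl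
  have r2 := hP.r2 r (ht (O i))
  have r3 := hP.r3 r (ht (O i))
  rw [hPh] at r2 r3
  have key := H (2 * M + 1) (by omega) ep hep hep1 e1 J T' hT' r (kd (O i)) (ht (O i)) (rr P O i)
    (NUSea.Ph (ht (O i))) (wE M (4 / 3 * (1 - ep)) P.jL (ei P O i) (rr P O i) (O i))
    (Agh (ei P O i) (ht (O i))) (h (ht (O i))) slk (hh _) (hJ _) (Ph_low _) (by linarith) hρ0 r2 r3 hW
  refine le_trans (le_of_eq ?_) key
  unfold wE
  have e : Real.exp ((2 * M + 1 : ℕ) * mfH (cons P O i) +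
            (2 * M + 1 : ℕ) * slkK slk (kd (O i)) (ht (O i)) -
            2 * Real.pi * wK (kd (O i)) * h (ht (O i)) + exc T' (ht (O i)) + K0) =
      Real.exp ((2 * M + 1 : ℕ) * mfH (parts P.jL (ei P O i) (rr P O i) (O i))) *
        Real.exp ((2 * M + 1 : ℕ) * slkK slk (kd (O i)) (ht (O i)) -
          2 * Real.pi * wK (kd (O i)) * h (ht (O i)) + exc T' (ht (O i)) + K0) := by
    rw [← Real.exp_add]
    congr 1
    unfold cons
    ring
  rw [e]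
  ring

/-- **the parameters `par0 (2 M + 1)` and the slack `slkh`** -/
theorem one_actC0 (K0 : ℝ) (k0 : ℕ) :
    ∃ C c : ℝ, 0 < C ∧ 0 < c ∧ ∀ M : ℕ, 1 ≤ M →
      ∀ ep : ℝ, 0 < ep → ep ≤ 1 / 100 → ∀ e1 J : ℝ,
      ∀ T' : ℝ, Tb (Real.log (2 * M + 1 : ℕ)) / (1 - ep) ≤ T' → ∀ h : ℝ → ℝ, (∀ t, 0 ≤ h t) →
      (∀ t, |t| ≤ (1 - 3 * e1) * Tb (Real.log (2 * M + 1 : ℕ)) → J ≤ h t) →
      ∀ (r : ℕ) (O : Fin r → Xo) (i : Fin r),
        ob1c (obE M (4 / 3 * (1 - ep)) fun _ _ => 1) (NUSea.O.par0 (2 * M + 1)).jL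
            (ei (NUSea.O.par0 (2 * M + 1)) O i) (rr (NUSea.O.par0 (2 * M + 1)) O i) (O i) *
          Real.exp ((2 * M + 1 : ℕ) * mfH (cons (NUSea.O.par0 (2 * M + 1)) O i) +
            (2 * M + 1 : ℕ) * slkK NUMFH.slkh (kd (O i)) (ht (O i)) -
            2 * Real.pi * wK (kd (O i)) * h (ht (O i)) + exc T' (ht (O i)) + K0) *
            colK (((r : ℝ) + 1) ^ k0) (kd (O i)) ≤
          act C 1 c (1 / 10) (k0 + 6) (Real.log (2 * M + 1 : ℕ)) ep e1 J r (ht (O i)) := by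
  have hK : 0 ≤ K1c := by
    unfold K1c
    have := l_pos
    positivity
  obtain ⟨C, c, hC, hc, H⟩ := one_actC (κ := 1 / 50) (by norm_num) K0 K1c hK k0
  exact ⟨C, c, hC, hc, fun M hM ep hep hep1 e1 J T' hT' h hh hJ r O i =>
    H M hM _ (NUSea.O.parOK_par0 _) NUMFH.slkh NUMFH.slkh_le ep hep hep1 e1 J T' hT' h hh hJ r O i⟩

end NUGC

end
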