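import Pool.Agent.NUGC.OneRow

/-!
# TARGET-C: bounds of the one body weights of the five kinds

`wE M β jL e ρ x` = weight of the object `x` in the gas with `M` pairs of rows and the ends, times
the exponential of its interaction with the clouds of `2 M + 1` rows of each group.  Same form as
`NUO/OneW`, with the gain `Agh` of the rows at `± l / 2`.
-/

set_option autoImplicit false

noncomputable section

open Complex MeasureTheory Set

namespace NUGC

open NUP1 NUO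
open NUHM (Agh)

/-- cloud of one row of each group in the sea of the rows `± l / 2` -/
abbrev mfH (B : List (Bool × Bool × ℂ)) : ℝ := @NUSea.O.mfo NUSea.seaH B

/-- weight of an object times its mean field, `M` pairs of rows and the ends -/
def wE (M : ℕ) (β jL e ρ : ℝ) (x : Xo) : ℝ :=
  ob1c (obE M β fun _ _ => 1) jL e ρ x * Real.exp ((2 * M + 1 : ℕ) * mfH (parts jL e ρ x))

theorem wE_nonneg (M : ℕ) (β jL e : ℝ) {ρ : ℝ} (hρ : 0 ≤ ρ) (x : Xo) : 0 ≤ wE M β jL e ρ x :=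
  mul_nonneg (ob1c_nonneg (obC_nn fun _ u => mul_nonneg (ThN_nonneg u) zero_le_one) jL e hρ x)
    (Real.exp_pos _).le

theorem wE_T : ∃ C : ℝ, 0 < C ∧ ∀ β : ℝ, 0 < β → β ≤ 4 / 3 → ∀ (M : ℕ) (jL e ρ : ℝ) (x : Xo),
    kd x = .St → wE M β jL e ρ x ≤ C * cut (2 * M + 1) β (ht x) := wE_T0

theorem kap_l : kap (4 / 3) l = 1 / 2 := by
  unfold kap
  rw [show 2 * (4 / 3) * l = Real.pi / 3 by unfold l; ring, Real.cos_pi_div_three]

/-! ### `L` -/

theorem mfH_L (jL e ρ : ℝ) {x : Xo} (hx : kd x = .L) : mfH (parts jL e ρ x) = cH jL (ht x) := by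
  have hp : parts jL e ρ x = [(sp x, false, posL jL (ht x))] := by
    unfold parts
    rw [hx]
  rw [hp]
  exact @NUSea.O.Cloud.val NUSea.seaH _ _ (@NUSea.O.good_quantum NUSea.seaH (sp x) jL (ht x))

theorem wE_L : ∃ C : ℝ, 0 < C ∧ ∀ β : ℝ, 0 < β → β ≤ 4 / 3 → ∀ (M : ℕ) (jL e ρ : ℝ) (x : Xo),
    2 ≤ jL → jL ≤ 5 / 2 → kd x = .L → wE M β jL e ρ x ≤ C * cut (2 * M + 1) β (ht x) := by
  have hl := l_pos
  have hpi := Real.pi_pos
  have hcl := cos_l_pos
  have hT := cTh_pos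
  refine ⟨(2 * Real.pi)⁻¹ * (2 * Real.cos l) * cTh * 16, by positivity,
    fun β h0 h1 M jL e ρ x j2 j3 hx => ?_⟩
  unfold wE
  rw [mfH_L jL e ρ hx]
  unfold ob1c
  rw [hx]
  simp only [obE, obC, mul_one]
  set t := ht x with ht
  have hR := Rrow_cH (j := jL) (by linarith) (by linarith) (by linarith) (by linarith) M t
  rw [NUHM.mo_zero j2 (by linarith), NUHM.mc_zero (by rw [abs_le]; constructor <;> linarith), add_zero,
    mul_zero, Real.exp_zero, mul_one, ← posL_eq] at hR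
  have hTh : ThN (posL jL t) ≤ cTh := by
    rw [posL_eq]
    exact ThN_le (by linarith) (by linarith) t
  have hTh0 := ThN_nonneg (posL jL t)
  have hph : ‖phP M β (posL jL t)‖ ≤ 16 * cut (2 * M + 1) β t := by
    have := phP_le_cut h0 h1 hl.le (by linarith) (u := posL jL t) (by
      rw [posL_eq, NUO.vl_re, show (1 - jL) * l + l / 2 = -((jL - 3 / 2) * l) by ring, abs_neg,
        abs_of_nonneg (mul_nonneg (by linarith) hl.le)]
      nlinarith) M
    rw [kap_l, posL_eq, NUO.vl_im, ← posL_eq] at this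
    linarith
  calc (2 * Real.pi)⁻¹ * (Rrow ((M : ℝ) + 1 / 2) (posL jL t) * ThN (posL jL t) *
        ‖phP M β (posL jL t)‖) * Real.exp ((2 * M + 1 : ℕ) * cH jL t) =
      (2 * Real.pi)⁻¹ * (Rrow ((M : ℝ) + 1 / 2) (posL jL t) * Real.exp ((2 * M + 1 : ℕ) * cH jL t)) *
        ThN (posL jL t) * ‖phP M β (posL jL t)‖ := by ring
    _ ≤ (2 * Real.pi)⁻¹ * (2 * Real.cos l) * cTh * (16 * cut (2 * M + 1) β t) := by
        rw [hR]
        gcongr
    _ = _ := by ring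

/-! ### strings on `-(1 + e) l` -/

theorem mfH_S (jL e ρ : ℝ) {x : Xo} (hx : kd x = .S) :
    mfH (parts jL e ρ x) = cH (2 + e) (ht x) + cH (2 + e + 1) (ht x) := by
  unfold parts
  rw [hx]
  simp only
  rw [posS_eq]
  exact @NUSea.O.Cloud.val NUSea.seaH _ _ (@NUSea.O.good_string NUSea.seaH (sp x) (2 + e) (ht x))

theorem phP_S_le {e : ℝ} (he0 : 1 / 4 ≤ e) (he1 : e ≤ 31 / 100) (M : ℕ) (t : ℝ) :
    ‖phP M (4 / 3) (posS e t)‖ ≤ 16 * cut (2 * M + 1) (4 / 3) t := by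
  have hl := l_pos
  have := phP_le_cut (by norm_num : (0 : ℝ) < 4 / 3) le_rfl hl.le (by linarith) (u := posS e t) (by
    unfold posS
    rw [NUO.vl_re, show -((1 + e) * l) + l / 2 = -((1 / 2 + e) * l) by ring, abs_neg,
      abs_of_nonneg (by positivity)]
    nlinarith) M
  rw [kap_l, show (posS e t).im = t from NUO.vl_im _ _] at this
  linarith

/-- the string, with the ends -/
theorem oSc_cH {e : ℝ} (he0 : 1 / 4 ≤ e) (he1 : e ≤ 31 / 100) (M : ℕ) (β t : ℝ) (a : Bool) :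
    oSc (obE M β fun _ _ => 1) a (posS e t) *
      Real.exp ((2 * M + 1 : ℕ) * (cH (2 + e) t + cH (2 + e + 1) t)) ≤
      aS * (2 * Real.cos l) ^ 2 * cTh ^ 2 * Real.exp (-(2 * (2 * M + 1 : ℕ) * Agh e t)) *
        (16 * cut (2 * M + 1) (4 / 3) t) := by
  have hR := Rrow_S (e := e) (by linarith) (by linarith) M t
  have h1 : ThN (posS e t) ≤ cTh := by
    rw [posS_eq]
    exact ThN_le (by linarith) (by linarith) t
  have h2 : ThN (posS e t - l) ≤ cTh := by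
    rw [posS_eq, vl_sub_l]
    exact ThN_le (by linarith) (by linarith) t
  have h10 := ThN_nonneg (posS e t)
  have h20 := ThN_nonneg (posS e t - l)
  have hac := aS_pos
  have hcl := cos_l_pos
  have hT := cTh_pos
  have hph := phP_S_le he0 he1 M t
  unfold oSc obE obC
  simp only [mul_one]
  calc aS * (Rrow ((M : ℝ) + 1 / 2) (posS e t) * ThN (posS e t) *
        (Rrow ((M : ℝ) + 1 / 2) (posS e t - l) * ThN (posS e t - l))) *
        ‖phP M (4 / 3) (posS e t)‖ * Real.exp ((2 * M + 1 : ℕ) * (cH (2 + e) t + cH (2 + e + 1) t)) =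
      aS * (Rrow ((M : ℝ) + 1 / 2) (posS e t) * Rrow ((M : ℝ) + 1 / 2) (posS e t - l) *
        Real.exp ((2 * M + 1 : ℕ) * (cH (2 + e) t + cH (2 + e + 1) t))) *
        (ThN (posS e t) * ThN (posS e t - l)) * ‖phP M (4 / 3) (posS e t)‖ := by ring
    _ ≤ aS * ((2 * Real.cos l) ^ 2 * Real.exp (-(2 * (2 * M + 1 : ℕ) * Agh e t))) *
        (cTh * cTh) * (16 * cut (2 * M + 1) (4 / 3) t) := by
        rw [hR]
        gcongr
    _ = _ := by ring

theorem wE_S : ∃ C : ℝ, 0 < C ∧ ∀ β : ℝ, 0 < β → β ≤ 4 / 3 → ∀ (M : ℕ) (jL e ρ : ℝ) (x : Xo),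
    1 / 4 ≤ e → e ≤ 31 / 100 → kd x = .S → wE M β jL e ρ x ≤ C * cut (2 * M + 1) (4 / 3) (ht x) *
      Real.exp (-(2 * (2 * M + 1 : ℕ) * Agh e (ht x))) := by
  have hac := aS_pos
  have hcl := cos_l_pos
  have hT := cTh_pos
  refine ⟨aS * (2 * Real.cos l) ^ 2 * cTh ^ 2 * 16, by positivity,
    fun β h0 h1 M jL e ρ x he0 he1 hx => ?_⟩
  unfold wE
  rw [mfH_S jL e ρ hx]
  unfold ob1c
  rw [hx]
  simp only
  refine (oSc_cH he0 he1 M β (ht x) (sp x)).trans (le_of_eq ?_)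
  ring

/-! ### `Svv` -/

theorem mfH_Svv (jL e ρ : ℝ) {x : Xo} (hx : kd x = .Svv) :
    mfH (parts jL e ρ x) = cH (2 + e) (ht x) + cH (2 + e + 1) (ht x) +
      (cH e (ht x) + (cH e (ht x) + 0)) := by
  unfold parts
  rw [hx]
  simp only
  rw [posP_eq, posS_eq]
  exact @NUSea.O.Cloud.val NUSea.seaH _ _ (@NUSea.O.Cloud.cons NUSea.seaH _ _ _ _
    (@NUSea.O.good_string NUSea.seaH (sp x) (2 + e) (ht x)) (@NUSea.O.Cloud.cons NUSea.seaH _ _ _ _
      (@NUSea.O.good_quantum NUSea.seaH (!sp x) e (ht x)) (@NUSea.O.Cloud.cons NUSea.seaH _ _ _ _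
        (@NUSea.O.good_quantum NUSea.seaH (!sp x) e (ht x)) (@NUSea.O.Cloud.nil NUSea.seaH))))

theorem phP_sat {β j : ℝ} (h0 : 0 < β) (h1 : β ≤ 4 / 3) (hj0 : 1 / 5 ≤ j) (hj1 : j ≤ 2 / 5) (M : ℕ)
    (t : ℝ) : ‖phP M β (vl ((1 - j) * l) t)‖ ≤ 2 := by
  have hl := l_pos
  refine phP_le_two h0 h1 (s := 13 / 10 * l) (by positivity) (by linarith) ?_ M
  rw [NUO.vl_re, show (1 - j) * l + l / 2 = (3 / 2 - j) * l by ring,
    abs_of_nonneg (mul_nonneg (by linarith) hl.le)]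
  nlinarith

theorem wE_Svv : ∃ C : ℝ, 0 < C ∧ ∀ β : ℝ, 0 < β → β ≤ 4 / 3 → ∀ (M : ℕ) (jL e ρ : ℝ) (x : Xo),
    1 / 4 ≤ e → e ≤ 31 / 100 → kd x = .Svv → wE M β jL e ρ x ≤ C * cut (2 * M + 1) (4 / 3) (ht x) := by
  have hac := aS_pos
  have hcl := cos_l_pos
  have hT := cTh_pos
  have hs5 : 0 < Real.sin (5 * l) := by
    have hl := l_pos
    have hpi : 8 * l = Real.pi := by unfold l; ring
    exact Real.sin_pos_of_pos_of_lt_pi (by linarith) (by linarith)
  refine ⟨aS * (2 * Real.cos l) ^ 2 * cTh ^ 2 * 16 *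
    (4 * Real.cos l ^ 2 * (2 * Real.cos l * cTh * 2 / Real.sin (5 * l) ^ 2) ^ 2), by positivity,
    fun β h0 h1 M jL e ρ x he0 he1 hx => ?_⟩
  unfold wE
  rw [mfH_Svv jL e ρ hx]
  unfold ob1c
  rw [hx]
  simp only
  set t := ht x with ht
  have h2 := oSc_cH he0 he1 M β t (sp x)
  have h3 := Rrow_sat (j := e) (by linarith) (by linarith) M t
  have h4 := phP_sat h0 h1 (j := e) (by linarith) (by linarith) M t
  have h5 : ThN (vl ((1 - e) * l) t) ≤ cTh := ThN_le (by linarith) (by linarith) t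
  have h50 := ThN_nonneg (vl ((1 - e) * l) t)
  rw [posP_eq]
  set p := vl ((1 - e) * l) t with hp
  have hR0 := Rrow_nonneg ((M : ℝ) + 1 / 2) p
  have e0 : Real.exp ((2 * M + 1 : ℕ) * (cH (2 + e) t + cH (2 + e + 1) t + (cH e t + (cH e t + 0)))) =
      Real.exp ((2 * M + 1 : ℕ) * (cH (2 + e) t + cH (2 + e + 1) t)) *
        Real.exp ((2 * M + 1 : ℕ) * cH e t) ^ 2 := by
    rw [← Real.exp_nat_mul, ← Real.exp_add]
    push_cast
    ring_nf
  have e5 : Real.exp (-(2 * (2 * M + 1 : ℕ) * Agh e t)) *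
      Real.exp ((2 * M + 1 : ℕ) * Agh e t) ^ 2 = 1 := by
    rw [← Real.exp_nat_mul, ← Real.exp_add, ← Real.exp_zero]
    congr 1
    push_cast
    ring
  rw [e0]
  have hob : (obE M β fun _ _ => 1).R (!sp x) p = Rrow ((M : ℝ) + 1 / 2) p * ThN p := by
    unfold obE obC
    simp only [mul_one]
  have hop : (obE M β fun _ _ => 1).φ p = phP M β p := rfl
  rw [hob, hop]
  have hoS0 : 0 ≤ oSc (obE M β fun _ _ => 1) (sp x) (posS e t) := by
    unfold oSc obE obC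
    simp only [mul_one]
    have a1 := Rrow_nonneg ((M : ℝ) + 1 / 2) (posS e t)
    have a2 := Rrow_nonneg ((M : ℝ) + 1 / 2) (posS e t - l)
    have a3 := ThN_nonneg (posS e t)
    have a4 := ThN_nonneg (posS e t - l)
    positivity
  have hcut := cut_nonneg (2 * M + 1) (4 / 3) t
  calc oSc (obE M β fun _ _ => 1) (sp x) (posS e t) * (4 * Real.cos l ^ 2 *
        (Rrow ((M : ℝ) + 1 / 2) p * ThN p * ‖phP M β p‖ / Real.sin (5 * l) ^ 2) ^ 2) *
        (Real.exp ((2 * M + 1 : ℕ) * (cH (2 + e) t + cH (2 + e + 1) t)) *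
          Real.exp ((2 * M + 1 : ℕ) * cH e t) ^ 2) =
        (oSc (obE M β fun _ _ => 1) (sp x) (posS e t) *
          Real.exp ((2 * M + 1 : ℕ) * (cH (2 + e) t + cH (2 + e + 1) t))) *
        (4 * Real.cos l ^ 2 * ((Rrow ((M : ℝ) + 1 / 2) p * Real.exp ((2 * M + 1 : ℕ) * cH e t)) *
          ThN p * ‖phP M β p‖ / Real.sin (5 * l) ^ 2) ^ 2) := by ring
    _ = (oSc (obE M β fun _ _ => 1) (sp x) (posS e t) *
          Real.exp ((2 * M + 1 : ℕ) * (cH (2 + e) t + cH (2 + e + 1) t))) *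
        (4 * Real.cos l ^ 2 * ((2 * Real.cos l) *
          ThN p * ‖phP M β p‖ / Real.sin (5 * l) ^ 2) ^ 2) *
          Real.exp ((2 * M + 1 : ℕ) * Agh e t) ^ 2 := by
        rw [h3]
        ring
    _ ≤ (aS * (2 * Real.cos l) ^ 2 * cTh ^ 2 * Real.exp (-(2 * (2 * M + 1 : ℕ) * Agh e t)) *
        (16 * cut (2 * M + 1) (4 / 3) t)) *
        (4 * Real.cos l ^ 2 * ((2 * Real.cos l) *
          cTh * 2 / Real.sin (5 * l) ^ 2) ^ 2) *
          Real.exp ((2 * M + 1 : ℕ) * Agh e t) ^ 2 := by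
        gcongr
    _ = aS * (2 * Real.cos l) ^ 2 * cTh ^ 2 * (Real.exp (-(2 * (2 * M + 1 : ℕ) * Agh e t)) *
          Real.exp ((2 * M + 1 : ℕ) * Agh e t) ^ 2) *
        (16 * cut (2 * M + 1) (4 / 3) t) *
        (4 * Real.cos l ^ 2 * ((2 * Real.cos l) * cTh * 2 / Real.sin (5 * l) ^ 2) ^ 2) := by ring
    _ = _ := by
        rw [e5]
        ring

/-! ### `Sv` -/

theorem mfH_Sv (jL e ρ : ℝ) {x : Xo} (hx : kd x = .Sv) :
    mfH (parts jL e ρ x) = cH (2 + e) (ht x) + cH (2 + e + 1) (ht x) +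
      (cH (e - ρ * Real.cos (2 * Real.pi * an x) / l)
        (ht x + ρ * Real.sin (2 * Real.pi * an x)) + 0) := by
  unfold parts
  rw [hx]
  simp only
  rw [posV_eq, posS_eq]
  exact @NUSea.O.Cloud.val NUSea.seaH _ _ (@NUSea.O.Cloud.cons NUSea.seaH _ _ _ _
    (@NUSea.O.good_string NUSea.seaH (sp x) (2 + e) (ht x)) (@NUSea.O.Cloud.cons NUSea.seaH _ _ _ _
      (@NUSea.O.good_quantum NUSea.seaH (!sp x) (e - ρ * Real.cos (2 * Real.pi * an x) / l)
        (ht x + ρ * Real.sin (2 * Real.pi * an x))) (@NUSea.O.Cloud.nil NUSea.seaH)))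

/-- constant of the displacement of the satellite -/
def KVc : ℝ := 4 * Real.pi * NUMF.Kb (9 / 10 * l) * Real.exp (8 / 3 * l)

theorem KVc_pos : 0 < KVc := by
  have hl := l_pos
  have := NUMF.Kb_pos (b := 9 / 10 * l) (by positivity) (by rw [l_eq]; linarith)
  have hpi := Real.pi_pos
  unfold KVc
  positivity

theorem Agh_lip {e j ρ : ℝ} (he0 : 1 / 4 ≤ e) (he1 : e ≤ 31 / 100) (hj0 : 1 / 5 ≤ j)
    (hj1 : j ≤ 2 / 5) (hρ : ρ ≤ l / 20) {t t' : ℝ} (h1 : |t' - t| ≤ ρ) (h2 : |j - e| * l ≤ ρ) :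
    |Agh j t' - Agh e t| ≤ KVc * (ρ * Real.exp (-(8 / 3) * |t|)) := by
  have hl := l_pos
  have hpi := Real.pi_pos
  have hb : 9 / 10 * l < NUMF.l := by rw [l_eq]; linarith
  have hK := NUMF.Kb_pos (b := 9 / 10 * l) (by positivity) hb
  have ab : ∀ a : ℝ, |a| ≤ 9 / 10 → |a * NUMF.l| ≤ 9 / 10 * l := by
    intro a ha
    rw [l_eq, abs_mul, abs_of_pos hl]
    exact mul_le_mul_of_nonneg_right ha hl.le
  have g1 := NUMF.Ag_lip hb (a := e + 1 / 2) (a' := j + 1 / 2)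
    (ab _ (by rw [abs_le]; constructor <;> linarith)) (ab _ (by rw [abs_le]; constructor <;> linarith))
    t t'
  have g2 := NUMF.Ag_lip hb (a := e - 1 / 2) (a' := j - 1 / 2)
    (ab _ (by rw [abs_le]; constructor <;> linarith)) (ab _ (by rw [abs_le]; constructor <;> linarith))
    t t'
  rw [show j + 1 / 2 - (e + 1 / 2) = j - e by ring] at g1
  rw [show j - 1 / 2 - (e - 1 / 2) = j - e by ring] at g2
  have hbd : 2 * Real.pi * (NUMF.Kb (9 / 10 * l) * Real.exp (8 / 3 * |t' - t|) *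
      Real.exp (-(8 / 3) * |t|)) * (|t' - t| + |j - e| * NUMF.l) ≤
        KVc * (ρ * Real.exp (-(8 / 3) * |t|)) := by
    have e1 : |t' - t| ≤ l := by linarith
    have e2 : |j - e| * NUMF.l ≤ ρ := by rw [l_eq]; exact h2
    unfold KVc
    calc _ ≤ 2 * Real.pi * (NUMF.Kb (9 / 10 * l) * Real.exp (8 / 3 * l) *
            Real.exp (-(8 / 3) * |t|)) * (ρ + ρ) := by gcongr
      _ = _ := by ring
  have g3 := g1.trans hbd
  have g4 := g2.trans hbd
  unfold NUHM.Agh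
  rw [show (NUMF.Ag (j + 1 / 2) t' + NUMF.Ag (j - 1 / 2) t') / 2 -
      (NUMF.Ag (e + 1 / 2) t + NUMF.Ag (e - 1 / 2) t) / 2 =
      ((NUMF.Ag (j + 1 / 2) t' - NUMF.Ag (e + 1 / 2) t) +
        (NUMF.Ag (j - 1 / 2) t' - NUMF.Ag (e - 1 / 2) t)) / 2 by ring, abs_div,
    abs_of_pos (by norm_num : (0 : ℝ) < 2), div_le_iff₀ (by norm_num)]
  refine (abs_add_le _ _).trans ?_
  linarith

theorem wE_Sv : ∃ C : ℝ, 0 < C ∧ ∀ β : ℝ, 0 < β → β ≤ 4 / 3 → ∀ (M : ℕ) (jL e ρ : ℝ) (x : Xo),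
    1 / 4 ≤ e → e ≤ 31 / 100 → 0 < ρ → ρ ≤ l / 20 → kd x = .Sv →
      wE M β jL e ρ x ≤ C / ρ * cut (2 * M + 1) (4 / 3) (ht x) *
        Real.exp (-((2 * M + 1 : ℕ) * Agh e (ht x)) +
          C * ((2 * M + 1 : ℕ) * ρ * Real.exp (-(8 / 3) * |ht x|))) := by
  have hac := aS_pos
  have hcl := cos_l_pos
  have hT := cTh_pos
  have hKV := KVc_pos
  have hpi := Real.pi_pos
  have hl := l_pos
  set C1 : ℝ := aS * (2 * Real.cos l) ^ 2 * cTh ^ 2 * 16 *
    ((2 * Real.cos l * cTh * 2) * (8 * Real.pi ^ 2)) with hC1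
  have hC10 : 0 < C1 := by positivity
  refine ⟨C1 + KVc, by positivity, fun β h0 h1 M jL e ρ x he0 he1 hρ0 hρ1 hx => ?_⟩
  unfold wE
  rw [mfH_Sv jL e ρ hx]
  unfold ob1c
  rw [hx]
  simp only
  set t := ht x with ht
  set θ : ℝ := 2 * Real.pi * an x with hθ
  set j : ℝ := e - ρ * Real.cos θ / l with hj
  set t' : ℝ := t + ρ * Real.sin θ with ht'
  have hcos := Real.abs_cos_le_one θ
  have hsin := Real.abs_sin_le_one θ
  have hjl : j * l = e * l - ρ * Real.cos θ := by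
    rw [hj]
    field_simp
  have hρc : |ρ * Real.cos θ| ≤ ρ := by
    rw [abs_mul, abs_of_pos hρ0]
    exact mul_le_of_le_one_right hρ0.le hcos
  have hρs : |ρ * Real.sin θ| ≤ ρ := by
    rw [abs_mul, abs_of_pos hρ0]
    exact mul_le_of_le_one_right hρ0.le hsin
  obtain ⟨d1, d2⟩ := abs_le.1 hρc
  have hj0 : 1 / 5 ≤ j := by
    have : 1 / 5 * l ≤ j * l := by rw [hjl]; nlinarith
    exact le_of_mul_le_mul_right this hl
  have hj1 : j ≤ 2 / 5 := by
    have : j * l ≤ 2 / 5 * l := by rw [hjl]; nlinarith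
    exact le_of_mul_le_mul_right this hl
  have hposV : posV e ρ t (an x) = vl ((1 - j) * l) t' := by
    rw [posV_eq]
  have g2 := oSc_cH he0 he1 M β t (sp x)
  have g3 := Rrow_sat (j := j) (by linarith) (by linarith) M t'
  have g4 := phP_sat h0 h1 hj0 hj1 M t'
  have g5 : ‖Kn.cz false true (posV e ρ t (an x) - posS e t)‖ ≤ 8 * Real.pi ^ 2 / ρ ^ 2 := by
    have e1 : posV e ρ t (an x) - posS e t = 2 * l + ρ * Complex.exp (2 * Real.pi * an x * I) := by
      unfold posV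
      ring
    have e2 : ‖(ρ : ℂ) * Complex.exp (2 * Real.pi * an x * I)‖ = ρ := by
      rw [norm_mul, Complex.norm_real, Real.norm_of_nonneg hρ0.le,
        show (2 * Real.pi * an x * I : ℂ) = ((2 * Real.pi * an x : ℝ) : ℂ) * I by push_cast; ring,
        Complex.norm_exp_ofReal_mul_I, mul_one]
    rw [e1]
    have := cz_circle (ζ := ρ * Complex.exp (2 * Real.pi * an x * I))
      (norm_pos_iff.1 (by rw [e2]; exact hρ0)) (by rw [e2]; linarith)
    rwa [e2] at this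
  have g6 : ThN (vl ((1 - j) * l) t') ≤ cTh := ThN_le (by linarith) (by linarith) t'
  have g60 := ThN_nonneg (vl ((1 - j) * l) t')
  have hN : (0 : ℝ) ≤ ((2 * M + 1 : ℕ) : ℝ) := Nat.cast_nonneg _
  have g7 : ((2 * M + 1 : ℕ) : ℝ) * Agh j t' ≤ (2 * M + 1 : ℕ) * Agh e t +
      KVc * ((2 * M + 1 : ℕ) * ρ * Real.exp (-(8 / 3) * |t|)) := by
    have q1 : |t' - t| ≤ ρ := by
      rw [ht', add_sub_cancel_left]
      exact hρs
    have q2 : |j - e| * l ≤ ρ := by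
      have : |j - e| * l = |ρ * Real.cos θ| := by
        have e3 : (j - e) * l = -(ρ * Real.cos θ) := by
          rw [sub_mul, hjl]
          ring
        rw [← abs_neg (ρ * Real.cos θ), ← e3, abs_mul, abs_of_pos hl]
      rw [this]
      exact hρc
    have q3 := Agh_lip he0 he1 hj0 hj1 hρ1 q1 q2
    have q4 := (abs_le.1 q3).2
    calc ((2 * M + 1 : ℕ) : ℝ) * Agh j t' ≤
          (2 * M + 1 : ℕ) * (Agh e t + KVc * (ρ * Real.exp (-(8 / 3) * |t|))) := by
          refine mul_le_mul_of_nonneg_left ?_ hN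
          linarith
      _ = _ := by ring
  have e0 : Real.exp ((2 * M + 1 : ℕ) * (cH (2 + e) t + cH (2 + e + 1) t + (cH j t' + 0))) =
      Real.exp ((2 * M + 1 : ℕ) * (cH (2 + e) t + cH (2 + e + 1) t)) *
        Real.exp ((2 * M + 1 : ℕ) * cH j t') := by
    rw [← Real.exp_add]
    ring_nf
  rw [e0]
  rw [hposV] at g5 ⊢
  set v := vl ((1 - j) * l) t' with hv
  have hob : (obE M β fun _ _ => 1).R (!sp x) v = Rrow ((M : ℝ) + 1 / 2) v * ThN v := by
    unfold obE obC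
    simp only [mul_one]
  have hop : (obE M β fun _ _ => 1).φ v = phP M β v := rfl
  rw [hob, hop]
  have hR0 := Rrow_nonneg ((M : ℝ) + 1 / 2) v
  have hcut := cut_nonneg (2 * M + 1) (4 / 3) t
  set X : ℝ := (2 * M + 1 : ℕ) * ρ * Real.exp (-(8 / 3) * |t|) with hX
  have hX0 : 0 ≤ X := by positivity
  calc oSc (obE M β fun _ _ => 1) (sp x) (posS e t) * (ρ * (Rrow ((M : ℝ) + 1 / 2) v * ThN v *
        ‖phP M β v‖) * ‖Kn.cz false true (v - posS e t)‖) *
        (Real.exp ((2 * M + 1 : ℕ) * (cH (2 + e) t + cH (2 + e + 1) t)) *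
          Real.exp ((2 * M + 1 : ℕ) * cH j t')) =
        (oSc (obE M β fun _ _ => 1) (sp x) (posS e t) *
          Real.exp ((2 * M + 1 : ℕ) * (cH (2 + e) t + cH (2 + e + 1) t))) *
        (ρ * ((Rrow ((M : ℝ) + 1 / 2) v * Real.exp ((2 * M + 1 : ℕ) * cH j t')) * ThN v *
          ‖phP M β v‖) * ‖Kn.cz false true (v - posS e t)‖) := by ring
    _ = (oSc (obE M β fun _ _ => 1) (sp x) (posS e t) *
          Real.exp ((2 * M + 1 : ℕ) * (cH (2 + e) t + cH (2 + e + 1) t))) *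
        (ρ * ((2 * Real.cos l) * ThN v *
          ‖phP M β v‖) * ‖Kn.cz false true (v - posS e t)‖) *
          Real.exp ((2 * M + 1 : ℕ) * Agh j t') := by
        rw [g3]
        ring
    _ ≤ (aS * (2 * Real.cos l) ^ 2 * cTh ^ 2 * Real.exp (-(2 * (2 * M + 1 : ℕ) * Agh e t)) *
        (16 * cut (2 * M + 1) (4 / 3) t)) *
        (ρ * ((2 * Real.cos l) * cTh * 2) * (8 * Real.pi ^ 2 / ρ ^ 2)) *
          Real.exp ((2 * M + 1 : ℕ) * Agh e t + KVc * X) := by
        gcongr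
    _ = C1 / ρ * cut (2 * M + 1) (4 / 3) t *
        Real.exp (-((2 * M + 1 : ℕ) * Agh e t) + KVc * X) := by
        have e6 : Real.exp (-((2 * M + 1 : ℕ) * Agh e t) + KVc * X) =
            Real.exp (-(2 * (2 * M + 1 : ℕ) * Agh e t)) *
              Real.exp ((2 * M + 1 : ℕ) * Agh e t + KVc * X) := by
          rw [← Real.exp_add]
          congr 1
          ring
        rw [e6, hC1]
        field_simp
        try ring
    _ ≤ (C1 + KVc) / ρ * cut (2 * M + 1) (4 / 3) t *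
        Real.exp (-((2 * M + 1 : ℕ) * Agh e t) + (C1 + KVc) * X) := by
        have f1 : C1 ≤ C1 + KVc := by linarith
        have f2 : KVc * X ≤ (C1 + KVc) * X := mul_le_mul_of_nonneg_right (by linarith) hX0
        gcongr

end NUGC

end
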