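import Pool.Agent.NUGC.OneT
import Pool.Agent.NURow.Pcut

/-!
# TARGET-C: row factors, ends and cutoff of the constituents of the objects

* `prN_ok`: the modulus of the factor of a pair of rows at offset `j`, `-1/2 < j < 7/2`;
* `Rrow_cH`: row factor times the cloud;
* `ThN_le`: the factor of the ends is bounded by `(sin (l / 2))⁻¹` for `0 ≤ j ≤ 4`;
* `phP_le_two`, `phP_le_cut`: the cutoff of the pairs.
-/

set_option autoImplicit false

noncomputable section

open Complex MeasureTheory Set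

namespace NUGC

open NUP1 NUO
open NUHM (Agh)

/-! ### rows -/

theorem row_ok {j : ℝ} (h0 : -1 < j) (h1 : j ≠ 1) (h4 : j < 4) (t : ℝ) :
    ‖sin (vl ((1 - j) * l) t + 3 * l)‖ ^ 2 /
      (‖sin (vl ((1 - j) * l) t)‖ * ‖sin (vl ((1 - j) * l) t - 2 * l)‖) = Real.exp (rf j t) := by
  have hl := l_pos
  have hpi : 8 * l = Real.pi := by unfold l; ring
  have n1 : Real.sin ((4 - j) * l) ≠ 0 := by
    refine (Real.sin_pos_of_pos_of_lt_pi (by nlinarith) (by nlinarith)).ne'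
  have n2 : Real.sin ((1 - j) * l) ≠ 0 := by
    rcases lt_or_gt_of_ne h1 with h | h
    · exact (Real.sin_pos_of_pos_of_lt_pi (by nlinarith) (by nlinarith)).ne'
    · have := Real.sin_pos_of_pos_of_lt_pi (x := -((1 - j) * l)) (by nlinarith) (by nlinarith)
      rw [Real.sin_neg] at this
      linarith
  have n3 : Real.sin ((-1 - j) * l) ≠ 0 := by
    have := Real.sin_pos_of_pos_of_lt_pi (x := -((-1 - j) * l)) (by nlinarith) (by nlinarith)
    rw [Real.sin_neg] at this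
    linarith
  have m1 := sin_vl_ne n1 t
  have m2 := sin_vl_ne n2 t
  have m3 := sin_vl_ne n3 t
  have l1 := NUMF.log_norm_sin m1
  have l2 := NUMF.log_norm_sin m2
  have l3 := NUMF.log_norm_sin m3
  rw [l_eq] at l1 l2 l3
  have e1 : vl ((1 - j) * l) t + 3 * l = (((4 - j) * l : ℝ) : ℂ) + t * I := by
    unfold vl; push_cast; ring
  have e2 : vl ((1 - j) * l) t = (((1 - j) * l : ℝ) : ℂ) + t * I := rfl
  have e3 : vl ((1 - j) * l) t - 2 * l = (((-1 - j) * l : ℝ) : ℂ) + t * I := by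
    unfold vl; push_cast; ring
  rw [e1, e3, e2]
  have p1 := norm_pos_iff.2 m1
  have p2 := norm_pos_iff.2 m2
  have p3 := norm_pos_iff.2 m3
  rw [← Real.exp_log (show 0 < ‖sin ((((4 - j) * l : ℝ) : ℂ) + t * I)‖ ^ 2 /
    (‖sin ((((1 - j) * l : ℝ) : ℂ) + t * I)‖ * ‖sin ((((-1 - j) * l : ℝ) : ℂ) + t * I)‖) by positivity),
    Real.log_div (by positivity) (by positivity), Real.log_mul p2.ne' p3.ne', Real.log_pow]
  congr 1
  unfold rf NUMF.ro
  have r1 := NUMF.h_refl t (5 - j)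
  rw [l_eq] at r1 ⊢
  rw [show 4 * l - (4 - j) * l = j * l by ring] at l1
  rw [show 4 * l - (1 - j) * l = (8 - (5 - j)) * l by ring, r1] at l2
  rw [show 4 * l - (-1 - j) * l = (8 - (3 - j)) * l by ring] at l3
  have r2 := NUMF.h_refl t (3 - j)
  rw [l_eq] at r2
  rw [r2] at l3
  simp only [Nat.cast_ofNat]
  linarith

theorem prN_ok {j : ℝ} (h0 : -(1 / 2) < j) (h1 : j ≠ 1 / 2) (h2 : j ≠ 3 / 2) (h4 : j < 7 / 2) (t : ℝ) :
    prN (vl ((1 - j) * l) t) = Real.exp (rf (j + 1 / 2) t + rf (j - 1 / 2) t) := by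
  have e1 : vl ((1 - j) * l) t - ((l / 2 : ℝ) : ℂ) = vl ((1 - (j + 1 / 2)) * l) t := by
    unfold vl; push_cast; ring
  have e2 : vl ((1 - j) * l) t - ((-(l / 2) : ℝ) : ℂ) = vl ((1 - (j - 1 / 2)) * l) t := by
    unfold vl; push_cast; ring
  unfold prN rwN
  rw [e1, e2, row_ok (by linarith) (fun e => h1 (by linarith)) (by linarith),
    row_ok (by linarith) (fun e => h2 (by linarith)) (by linarith), ← Real.exp_add]

/-- row factor and cloud of one quantum, `M` pairs and the ends -/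
theorem Rrow_cH {j : ℝ} (h0 : -(1 / 2) < j) (h1 : j ≠ 1 / 2) (h2 : j ≠ 3 / 2) (h4 : j < 7 / 2)
    (M : ℕ) (t : ℝ) : Rrow ((M : ℝ) + 1 / 2) (vl ((1 - j) * l) t) *
      Real.exp ((2 * M + 1 : ℕ) * cH j t) =
      2 * Real.cos l * Real.exp ((2 * M + 1 : ℕ) * (NUHM.mo j t + NUHM.mc j t)) := by
  have h := cH_eq j t
  unfold Rrow
  rw [prN_ok h0 h1 h2 h4, ← Real.exp_mul, mul_assoc, ← Real.exp_add]
  congr 2
  push_cast
  linear_combination ((M : ℝ) + 1 / 2) * h

/-- row factors and clouds of a string -/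
theorem Rrow_str {j : ℝ} (h0 : 3 / 2 < j) (h4 : j < 5 / 2) (M : ℕ) (t : ℝ) :
    Rrow ((M : ℝ) + 1 / 2) (vl ((1 - j) * l) t) * Rrow ((M : ℝ) + 1 / 2) (vl ((1 - j) * l) t - l) *
      Real.exp ((2 * M + 1 : ℕ) * (cH j t + cH (j + 1) t)) =
      (2 * Real.cos l) ^ 2 * Real.exp ((2 * M + 1 : ℕ) * ((NUHM.mo j t + NUHM.mo (j + 1) t) +
        (NUHM.mc j t + NUHM.mc (j + 1) t))) := by
  have e1 := Rrow_cH (j := j) (by linarith) (by linarith) (by linarith) (by linarith) M t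
  have e2 := Rrow_cH (j := j + 1) (by linarith) (by linarith) (by linarith) (by linarith) M t
  rw [vl_sub_l, mul_add, Real.exp_add]
  calc _ = (Rrow ((M : ℝ) + 1 / 2) (vl ((1 - j) * l) t) * Real.exp ((2 * M + 1 : ℕ) * cH j t)) *
        (Rrow ((M : ℝ) + 1 / 2) (vl ((1 - (j + 1)) * l) t) *
          Real.exp ((2 * M + 1 : ℕ) * cH (j + 1) t)) := by ring
    _ = _ := by
        rw [e1, e2, show NUHM.mo j t + NUHM.mo (j + 1) t + (NUHM.mc j t + NUHM.mc (j + 1) t) =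
          (NUHM.mo j t + NUHM.mc j t) + (NUHM.mo (j + 1) t + NUHM.mc (j + 1) t) by ring,
          mul_add _ (NUHM.mo j t + NUHM.mc j t) (NUHM.mo (j + 1) t + NUHM.mc (j + 1) t), Real.exp_add]
        ring

/-- the string of `S`, `Sv`, `Svv` -/
theorem Rrow_S {e : ℝ} (he0 : 0 ≤ e) (he1 : e < 1 / 2) (M : ℕ) (t : ℝ) :
    Rrow ((M : ℝ) + 1 / 2) (posS e t) * Rrow ((M : ℝ) + 1 / 2) (posS e t - l) *
      Real.exp ((2 * M + 1 : ℕ) * (cH (2 + e) t + cH (2 + e + 1) t)) =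
      (2 * Real.cos l) ^ 2 * Real.exp (-(2 * (2 * M + 1 : ℕ) * Agh e t)) := by
  have h := Rrow_str (j := 2 + e) (by linarith) (by linarith) M t
  obtain ⟨s1, s2⟩ := NUHM.str_high (j := 2 + e) (by linarith) (by linarith) (by linarith) t
  rw [posS_eq, h, s1, s2, show 2 + e - 2 = e by ring, NUHM.Th_lt he1]
  congr 2
  ring

/-- a satellite -/
theorem Rrow_sat {j : ℝ} (h0 : 0 ≤ j) (h1 : j < 1 / 2) (M : ℕ) (t : ℝ) :
    Rrow ((M : ℝ) + 1 / 2) (vl ((1 - j) * l) t) * Real.exp ((2 * M + 1 : ℕ) * cH j t) =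
      2 * Real.cos l * Real.exp ((2 * M + 1 : ℕ) * Agh j t) := by
  have h := Rrow_cH (j := j) (by linarith) (by linarith) (by linarith) (by linarith) M t
  rw [NUHM.mo_low h0 (by linarith) h1.ne, NUHM.Th_lt h1,
    NUHM.mc_zero (by rw [abs_le]; constructor <;> linarith), add_zero] at h
  exact h

/-! ### the ends -/

/-- bound of the factor of the ends -/
def cTh : ℝ := (Real.sin (l / 2))⁻¹

theorem sin_half_pos : 0 < Real.sin (l / 2) := by
  have hl := l_pos
  have hpi : 8 * l = Real.pi := by unfold l; ring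
  exact Real.sin_pos_of_pos_of_lt_pi (by linarith) (by linarith)

theorem cTh_pos : 0 < cTh := inv_pos.2 sin_half_pos

theorem sin_ge_half {x : ℝ} (h0 : l / 2 ≤ x) (h1 : x ≤ 15 / 2 * l) :
    Real.sin (l / 2) ≤ Real.sin x := by
  have hl := l_pos
  have hpi : 8 * l = Real.pi := by unfold l; ring
  rcases le_total x (4 * l) with h | h
  · exact Real.sin_le_sin_of_le_of_le_pi_div_two (by linarith) (by linarith) h0
  · rw [← Real.sin_pi_sub x]
    exact Real.sin_le_sin_of_le_of_le_pi_div_two (by linarith) (by linarith) (by linarith)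

theorem ThN_le {j : ℝ} (h0 : 0 ≤ j) (h4 : j ≤ 4) (t : ℝ) : ThN (vl ((1 - j) * l) t) ≤ cTh := by
  have hl := l_pos
  have hc := Real.cosh_pos t
  have hs := sin_half_pos
  have a1 : vl ((1 - j) * l) t - l / 2 = vl ((1 / 2 - j) * l) t := by unfold vl; push_cast; ring
  have a2 : vl ((1 - j) * l) t + l / 2 = vl ((3 / 2 - j) * l) t := by unfold vl; push_cast; ring
  have a3 : vl ((1 - j) * l) t - 5 * l / 2 = vl (-((3 / 2 + j) * l)) t := by
    unfold vl; push_cast; ring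
  have a4 : vl ((1 - j) * l) t - 3 * l / 2 = vl (-((1 / 2 + j) * l)) t := by
    unfold vl; push_cast; ring
  have up : ∀ x : ℝ, ‖sin (vl x t)‖ ≤ Real.cosh t := by
    intro x
    refine (sq_le_sq₀ (norm_nonneg _) hc.le).1 ?_
    have h := NUMF.norm_sin_sq x t
    have e : vl x t = (x : ℂ) + t * I := rfl
    rw [e, h, Real.cosh_two_mul, Real.sinh_sq]
    have := Real.neg_one_le_cos (2 * x)
    linarith
  have lo : ∀ x : ℝ, l / 2 ≤ x → x ≤ 15 / 2 * l → Real.sin (l / 2) * Real.cosh t ≤ ‖sin (vl (-x) t)‖ := by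
    intro x hx1 hx2
    have h := Bd.le_norm_sin (vl (-x) t)
    rw [NUO.vl_re, NUO.vl_im, Real.sin_neg, abs_neg] at h
    refine le_trans ?_ h
    exact mul_le_mul_of_nonneg_right ((sin_ge_half hx1 hx2).trans (le_abs_self _)) hc.le
  unfold ThN
  rw [a1, a2, a3, a4]
  have b1 := up ((1 / 2 - j) * l)
  have b2 := up ((3 / 2 - j) * l)
  have b3 := lo ((3 / 2 + j) * l) (by nlinarith) (by nlinarith)
  have b4 := lo ((1 / 2 + j) * l) (by nlinarith) (by nlinarith)
  have h3 : 0 < Real.sin (l / 2) * Real.cosh t := by positivity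
  have key : ‖sin (vl ((1 / 2 - j) * l) t)‖ * ‖sin (vl ((3 / 2 - j) * l) t)‖ /
      (‖sin (vl (-((3 / 2 + j) * l)) t)‖ * ‖sin (vl (-((1 / 2 + j) * l)) t)‖) ≤ cTh ^ 2 := by
    have e : cTh ^ 2 = Real.cosh t * Real.cosh t /
        ((Real.sin (l / 2) * Real.cosh t) * (Real.sin (l / 2) * Real.cosh t)) := by
      unfold cTh
      field_simp
    rw [e]
    gcongr
  calc _ ≤ (cTh ^ 2) ^ (1 / 2 : ℝ) := Real.rpow_le_rpow (by positivity) key (by norm_num)
    _ = cTh := by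
      rw [← Real.sqrt_eq_rpow, Real.sqrt_sq cTh_pos.le]

/-! ### the cutoff -/

theorem PsiP_eq' (β : ℝ) (u : ℂ) : PsiP β u = NURow.Psi β u := by
  unfold PsiP NURow.Psi
  push_cast
  rfl

theorem two_bl {β : ℝ} (h0 : 0 < β) (h1 : β ≤ 4 / 3) : 2 * β * l < Real.pi / 2 := by
  have hl := l_pos
  have hpi : 8 * l = Real.pi := by unfold l; ring
  nlinarith

theorem phP_le_two {β s : ℝ} (h0 : 0 < β) (h1 : β ≤ 4 / 3) (hs : 0 ≤ s) (hs1 : s < 3 * l / 2)
    {u : ℂ} (hu : |u.re + l / 2| ≤ s) (M : ℕ) : ‖phP M β u‖ ≤ 2 := by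
  unfold phP
  rw [PsiP_eq']
  exact (NURow.norm_one_sub_Psi_pow (two_bl h0 h1) (adm_of_le h0 h1 hs hs1) hu M).trans
    (min_le_left _ _)

theorem cut_mono_m {m m' : ℕ} (h : m ≤ m') (β t : ℝ) : cut m β t ≤ cut m' β t := by
  unfold cut
  have : (m : ℝ) ≤ m' := by exact_mod_cast h
  gcongr

theorem phP_le_cut {β s : ℝ} (h0 : 0 < β) (h1 : β ≤ 4 / 3) (hs : 0 ≤ s) (hs1 : s < 3 * l / 2)
    {u : ℂ} (hu : |u.re + l / 2| ≤ s) (M : ℕ) :
    ‖phP M β u‖ ≤ 8 / kap (4 / 3) s * cut (2 * M + 1) β u.im := by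
  have hA := adm_of_le h0 h1 hs hs1
  have hk := (adm43 hs hs1).kap_pos
  have hk1 := kap_anti h0 h1 hs hs1
  have h := NURow.norm_one_sub_Psi_pow (two_bl h0 h1) hA hu M
  have hX : (0 : ℝ) ≤ M * Real.exp (-(2 * β) * |u.im|) := by positivity
  have h8 : 8 ≤ 8 / kap (4 / 3) s := by
    rw [le_div_iff₀ hk]
    linarith [kap_le_one (4 / 3) s]
  have h2 : min 2 (8 / kap β s * (M * Real.exp (-(2 * β) * |u.im|))) ≤
      8 / kap (4 / 3) s * cut M β u.im := by
    unfold cut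
    rcases le_total 1 (M * Real.exp (-(2 * β) * |u.im|)) with h3 | h3
    · rw [min_eq_left h3]
      exact (min_le_left _ _).trans (by linarith)
    · rw [min_eq_right h3]
      refine (min_le_right _ _).trans ?_
      have hk2 := hA.kap_pos
      gcongr
  unfold phP
  rw [PsiP_eq']
  refine h.trans (h2.trans ?_)
  exact mul_le_mul_of_nonneg_left (cut_mono_m (by omega) β u.im) (by positivity)

end NUGC

end
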