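import Pool.Agent.NUGC.ThN
import Pool.Agent.NUGC.PsiT
import Pool.Agent.NUSea.OOneB
import Pool.Agent.NUSea.Inst

/-!
# TARGET-C: one body weight of `St` (the line of the own pole of the rows at `- l / 2`)

`wE_T0`: the weight of `St` times its mean field is at most `C * cut (2 M + 1) β t`, uniformly in
`0 < β ≤ 4 / 3`, `M`, `t`.  The row factor is `(1 / qT) ^ (M + 1 / 2)`, the bracket at most `4 qT ^ M`,
and `ThN (u) ThN (u - l) ≤ C qT ^ (1 / 2)`.
-/

set_option autoImplicit false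

noncomputable section

open Complex MeasureTheory Set

namespace NUGC

open NUP1 NUO

/-! ### rows off the real axis -/

lemma sin_ne' {t : ℝ} (ht : t ≠ 0) (x : ℝ) : sin ((x : ℂ) + t * I) ≠ 0 := by
  intro h
  have h1 := NUMF.norm_sin_sq x t
  rw [h, norm_zero] at h1
  have h2 : 1 < Real.cosh (2 * t) := Real.one_lt_cosh.2 (mul_ne_zero two_ne_zero ht)
  have h3 := Real.cos_le_one (2 * x)
  norm_num at h1
  linarith

/-- one row at `0`, any offset, off the real axis -/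
theorem row_ne {t : ℝ} (ht : t ≠ 0) (j : ℝ) :
    ‖sin (vl ((1 - j) * l) t + 3 * l)‖ ^ 2 /
      (‖sin (vl ((1 - j) * l) t)‖ * ‖sin (vl ((1 - j) * l) t - 2 * l)‖) = Real.exp (rf j t) := by
  have m1 := sin_ne' ht ((4 - j) * l)
  have m2 := sin_ne' ht ((1 - j) * l)
  have m3 := sin_ne' ht ((-1 - j) * l)
  have l1 := NUMF.log_norm_sin m1
  have l2 := NUMF.log_norm_sin m2
  have l3 := NUMF.log_norm_sin m3
  rw [l_eq] at l1 l2 l3
  have e1 : vl ((1 - j) * l) t + 3 * l = (((4 - j) * l : ℝ) : ℂ) + t * I := by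
    unfold vl; push_cast; ring
  have e2 : vl ((1 - j) * l) t = (((1 - j) * l : ℝ) : ℂ) + t * I := rfl
  have e3 : vl ((1 - j) * l) t - 2 * l = (((-1 - j) * l : ℝ) : ℂ) + t * I := by
    unfold vl; push_cast; ring
  rw [e1, e3, e2]
  have p1 := norm_pos_iff.2 m1
  have p2 := norm_pos_iff.2 m2
  have p3 := norm_pos_iff.2 m3
  rw [← Real.exp_log (show 0 < ‖sin ((((4 - j) * l : ℝ) : ℂ) + t * I)‖ ^ 2 /
    (‖sin ((((1 - j) * l : ℝ) : ℂ) + t * I)‖ * ‖sin ((((-1 - j) * l : ℝ) : ℂ) + t * I)‖) by positivity),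
    Real.log_div (by positivity) (by positivity), Real.log_mul p2.ne' p3.ne', Real.log_pow]
  congr 1
  unfold rf NUMF.ro
  have r1 := NUMF.h_refl t (5 - j)
  rw [l_eq] at r1 ⊢
  rw [show 4 * l - (4 - j) * l = j * l by ring] at l1
  rw [show 4 * l - (1 - j) * l = (8 - (5 - j)) * l by ring, r1] at l2
  rw [show 4 * l - (-1 - j) * l = (8 - (3 - j)) * l by ring] at l3
  have r2 := NUMF.h_refl t (3 - j)
  rw [l_eq] at r2
  rw [r2] at l3
  simp only [Nat.cast_ofNat]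
  linarith

theorem prN_ne {t : ℝ} (ht : t ≠ 0) (j : ℝ) :
    prN (vl ((1 - j) * l) t) = Real.exp (rf (j + 1 / 2) t + rf (j - 1 / 2) t) := by
  have e1 : vl ((1 - j) * l) t - ((l / 2 : ℝ) : ℂ) = vl ((1 - (j + 1 / 2)) * l) t := by
    unfold vl; push_cast; ring
  have e2 : vl ((1 - j) * l) t - ((-(l / 2) : ℝ) : ℂ) = vl ((1 - (j - 1 / 2)) * l) t := by
    unfold vl; push_cast; ring
  unfold prN rwN
  rw [e1, e2, row_ne ht, row_ne ht, ← Real.exp_add]

/-- cloud of a quantum at offset `j` in the sea of the rows `± l / 2` -/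
def cH (j t : ℝ) : ℝ := @NUSea.O.clo NUSea.seaH j t

theorem cH_eq (j t : ℝ) : rf (j + 1 / 2) t + rf (j - 1 / 2) t + 2 * cH j t =
    2 * (NUHM.mo j t + NUHM.mc j t) := by
  have e : cH j t = (∫ s, NUSea.Ph s * NUMF.lq j (t - s)) + ∫ s, NUSea.Ph s * NUMF.lqg j (t - s) := rfl
  rw [e, NUHM.mo_split, NUHM.mc_split, NUHM.ro2_eq]
  unfold rf NUHM.hh
  rw [l_eq]
  ring

theorem row_T {t : ℝ} (ht : t ≠ 0) : prN (posT t) * prN (posT t - l) *
    Real.exp (2 * (cH (3 / 2) t + cH (3 / 2 + 1) t)) = (qT t)⁻¹ := by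
  have h1 := cH_eq (3 / 2) t
  have h2 := cH_eq (3 / 2 + 1) t
  have h3 := mf_T t
  rw [posT_eq, vl_sub_l, prN_ne ht, prN_ne ht, ← Real.exp_add, ← Real.exp_add, ← dl_qT ht,
    ← Real.exp_neg, neg_neg]
  congr 1
  linarith

/-! ### the ends -/

theorem norm_sin_neg_im (x t : ℝ) : ‖sin ((x : ℂ) + t * I)‖ = ‖sin ((-x : ℝ) + (t : ℂ) * I)‖ := by
  refine (sq_eq_sq₀ (norm_nonneg _) (norm_nonneg _)).1 ?_
  rw [NUMF.norm_sin_sq, NUMF.norm_sin_sq, mul_neg, Real.cos_neg]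

theorem ThN_T (t : ℝ) : (ThN (posT t) * ThN (posT t - l)) ^ 2 ≤ |Real.sinh t| / Real.cosh t := by
  have hl := l_pos
  have hpl : 8 * l = Real.pi := by unfold l; ring
  have hc := Real.cosh_pos t
  -- the six points
  have a1 : posT t - l / 2 = ((-l : ℝ) : ℂ) + t * I := by unfold posT vl; push_cast; ring
  have a2 : posT t + l / 2 = ((0 : ℝ) : ℂ) + t * I := by unfold posT vl; push_cast; ring
  have a3 : posT t - 5 * l / 2 = ((-(3 * l) : ℝ) : ℂ) + t * I := by unfold posT vl; push_cast; ring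
  have a4 : posT t - 3 * l / 2 = ((-(2 * l) : ℝ) : ℂ) + t * I := by unfold posT vl; push_cast; ring
  have b1 : posT t - l - l / 2 = ((-(2 * l) : ℝ) : ℂ) + t * I := by unfold posT vl; push_cast; ring
  have b2 : posT t - l + l / 2 = ((-l : ℝ) : ℂ) + t * I := by unfold posT vl; push_cast; ring
  have b3 : posT t - l - 5 * l / 2 = ((-(4 * l) : ℝ) : ℂ) + t * I := by unfold posT vl; push_cast; ring
  have b4 : posT t - l - 3 * l / 2 = ((-(3 * l) : ℝ) : ℂ) + t * I := by unfold posT vl; push_cast; ring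
  have n0 : ‖sin (((0 : ℝ) : ℂ) + t * I)‖ = |Real.sinh t| := by
    rw [ofReal_zero, zero_add, Complex.sin_mul_I, norm_mul, Complex.norm_I, mul_one,
      ← ofReal_sinh, Complex.norm_real, Real.norm_eq_abs]
  have n4 : ‖sin (((-(4 * l) : ℝ) : ℂ) + t * I)‖ = Real.cosh t := by
    refine (sq_eq_sq₀ (norm_nonneg _) hc.le).1 ?_
    rw [NUMF.norm_sin_sq, show 2 * -(4 * l) = -Real.pi by rw [← hpl]; ring, Real.cos_neg,
      Real.cos_pi, Real.cosh_two_mul, Real.cosh_sq]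
    ring
  have q1 := NUMF.norm_sin_sq (-l) t
  have q3 := NUMF.norm_sin_sq (-(3 * l)) t
  have q2 := NUMF.norm_sin_sq (-(2 * l)) t
  have hC := Real.one_le_cosh (2 * t)
  have c1 : Real.cos (2 * -(3 * l)) ≤ 0 := by
    rw [show 2 * -(3 * l) = -(6 * l) by ring, Real.cos_neg]
    exact Real.cos_nonpos_of_pi_div_two_le_of_le (by linarith) (by linarith)
  have c2 : 0 ≤ Real.cos (2 * -l) := by
    rw [show 2 * -l = -(2 * l) by ring, Real.cos_neg]
    exact Real.cos_nonneg_of_mem_Icc ⟨by linarith, by linarith⟩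
  have c3 : Real.cos (2 * -(2 * l)) = 0 := by
    rw [show 2 * -(2 * l) = -(Real.pi / 2) by rw [← hpl]; ring, Real.cos_neg, Real.cos_pi_div_two]
  set S1 := ‖sin (((-l : ℝ) : ℂ) + t * I)‖ with hS1
  set S2 := ‖sin (((-(2 * l) : ℝ) : ℂ) + t * I)‖ with hS2
  set S3 := ‖sin (((-(3 * l) : ℝ) : ℂ) + t * I)‖ with hS3
  have p2 : 0 < S2 := by
    have : 0 < S2 ^ 2 := by rw [q2, c3]; linarith
    exact lt_of_le_of_ne (norm_nonneg _) fun h => by rw [← h] at this; simp at this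
  have p3 : 0 < S3 := by
    have : 0 < S3 ^ 2 := by rw [q3]; linarith
    exact lt_of_le_of_ne (norm_nonneg _) fun h => by rw [← h] at this; simp at this
  have p1 : 0 ≤ S1 := norm_nonneg _
  have h13 : S1 ≤ S3 := by
    refine (sq_le_sq₀ p1 p3.le).1 ?_
    rw [q1, q3]
    linarith
  have hs := abs_nonneg (Real.sinh t)
  unfold ThN
  rw [a1, a2, a3, a4, b1, b2, b3, b4, ← hS1, ← hS2, ← hS3, n0, n4, mul_pow, ← Real.rpow_natCast,
    ← Real.rpow_natCast, ← Real.rpow_mul (by positivity), ← Real.rpow_mul (by positivity)]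
  norm_num
  rw [div_mul_div_comm, div_le_div_iff₀ (by positivity) hc]
  calc S1 * |Real.sinh t| * (S2 * S1) * Real.cosh t = |Real.sinh t| * (S2 * Real.cosh t) * (S1 * S1) := by
        ring
    _ ≤ |Real.sinh t| * (S2 * Real.cosh t) * (S3 * S3) := by gcongr
    _ = _ := by ring

/-! ### the bracket -/

/-- the bracket of `St` -/
def brT (M : ℕ) (β t : ℝ) : ℂ := phP M β (posT t) * phP M β (posT t - l) - phP M (4 / 3) (posT t)

theorem pT_half (t : ℝ) : posT t - ((l / 2 : ℝ) : ℂ) = vl (-l) t ∧ posT t + ((l / 2 : ℝ) : ℂ) = vl 0 t ∧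
    posT t - l - ((l / 2 : ℝ) : ℂ) = vl (-(2 * l)) t ∧ posT t - l + ((l / 2 : ℝ) : ℂ) = vl (-l) t := by
  refine ⟨?_, ?_, ?_, ?_⟩ <;> (unfold posT vl; push_cast; ring)

theorem norm_PsiP {β : ℝ} (h0 : 0 < β) (h1 : β ≤ 4 / 3) (t : ℝ) :
    ‖PsiP β (posT t)‖ ≤ qT t * qT t ∧ ‖PsiP β (posT t - l)‖ ≤ qT t := by
  have hl := l_pos
  have hpl : 8 * l = Real.pi := by unfold l; ring
  obtain ⟨e1, e2, e3, e4⟩ := pT_half t
  have m1 : ‖psi β (vl (-l) t)‖ ≤ qT t := by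
    refine norm_psi_mono h0 h1 (by linarith) ?_
    rw [NUO.vl_re, show -l + l / 2 = -(l / 2) by ring, abs_neg, abs_of_pos (by positivity)]
    linarith
  have m2 : ‖psi β (vl 0 t)‖ ≤ qT t := by
    rw [← psi_l0]
    refine norm_psi_mono h0 h1 (by linarith) ?_
    rw [NUO.vl_re, zero_add, abs_of_pos (by positivity)]
    linarith
  have m3 : ‖psi β (vl (-(2 * l)) t)‖ ≤ 1 := by
    refine psi_le_one' h0 h1 ?_
    rw [NUO.vl_re, show -(2 * l) + l / 2 = -(3 * l / 2) by ring, abs_neg, abs_of_pos (by positivity)]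
  unfold PsiP
  rw [e1, e2, e3, e4, norm_mul, norm_mul]
  have hq := qT_nonneg t
  refine ⟨mul_le_mul m1 m2 (norm_nonneg _) hq, ?_⟩
  calc ‖psi β (vl (-(2 * l)) t)‖ * ‖psi β (vl (-l) t)‖ ≤ 1 * qT t :=
        mul_le_mul m3 m1 (norm_nonneg _) zero_le_one
    _ = qT t := one_mul _

theorem brT_le {β : ℝ} (h0 : 0 < β) (h1 : β ≤ 4 / 3) (M : ℕ) (t : ℝ) :
    ‖brT M β t‖ ≤ 4 * qT t ^ M := by
  obtain ⟨a1, a2⟩ := norm_PsiP h0 h1 t
  obtain ⟨a3, -⟩ := norm_PsiP (by norm_num : (0 : ℝ) < 4 / 3) le_rfl t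
  have hq := qT_nonneg t
  have hq1 := qT_le_one t
  have hqq : qT t * qT t ≤ qT t := mul_le_of_le_one_right hq hq1
  set A := PsiP β (posT t) ^ M with hA
  set B := PsiP β (posT t - l) ^ M with hB
  set D := PsiP (4 / 3) (posT t) ^ M with hD
  have n1 : ‖A‖ ≤ qT t ^ M := by
    rw [hA, norm_pow]
    exact pow_le_pow_left₀ (norm_nonneg _) (a1.trans hqq) M
  have n2 : ‖B‖ ≤ qT t ^ M := by
    rw [hB, norm_pow]
    exact pow_le_pow_left₀ (norm_nonneg _) a2 M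
  have n3 : ‖D‖ ≤ qT t ^ M := by
    rw [hD, norm_pow]
    exact pow_le_pow_left₀ (norm_nonneg _) (a3.trans hqq) M
  have hM1 : qT t ^ M ≤ 1 := pow_le_one₀ hq hq1
  have hM0 : 0 ≤ qT t ^ M := pow_nonneg hq M
  unfold brT phP
  rw [← hA, ← hB, ← hD]
  have e : (1 - A) * (1 - B) - (1 - D) = D + (A * B + (-A + -B)) := by ring
  rw [e]
  have k1 := norm_add_le D (A * B + (-A + -B))
  have k2 := norm_add_le (A * B) (-A + -B)
  have k3 := norm_add_le (-A) (-B)
  rw [norm_neg, norm_neg] at k3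
  rw [norm_mul] at k2
  have k4 : ‖A‖ * ‖B‖ ≤ qT t ^ M := by
    calc _ ≤ qT t ^ M * 1 := mul_le_mul n1 (n2.trans hM1) (norm_nonneg _) hM0
      _ = _ := mul_one _
  linarith

theorem one_sub_PsiP {β : ℝ} (h0 : 0 < β) (h1 : β ≤ 4 / 3) {u : ℂ}
    (hu1 : |(u - ((l / 2 : ℝ) : ℂ)).re + l / 2| ≤ 3 * l / 2)
    (hu2 : |(u + ((l / 2 : ℝ) : ℂ)).re + l / 2| ≤ 3 * l / 2) (M : ℕ) :
    ‖1 - PsiP β u ^ M‖ ≤ 16 * (M * Real.exp (-(2 * β) * |u.im|)) := by
  have a1 := psi_le_one' h0 h1 hu1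
  have a2 := psi_le_one' h0 h1 hu2
  have b1 := one_sub_psi' h0 h1 hu1
  have b2 := one_sub_psi' h0 h1 hu2
  have i1 : (u - ((l / 2 : ℝ) : ℂ)).im = u.im := by rw [sub_im, ofReal_im, sub_zero]
  have i2 : (u + ((l / 2 : ℝ) : ℂ)).im = u.im := by rw [add_im, ofReal_im, add_zero]
  rw [i1] at b1
  rw [i2] at b2
  have c1 : ‖PsiP β u‖ ≤ 1 := by
    unfold PsiP
    rw [norm_mul]
    exact mul_le_one₀ a1 (norm_nonneg _) a2
  have c2 : ‖1 - PsiP β u‖ ≤ 16 * Real.exp (-(2 * β) * |u.im|) := by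
    unfold PsiP
    set a := psi β (u - ((l / 2 : ℝ) : ℂ)) with ha
    set b := psi β (u + ((l / 2 : ℝ) : ℂ)) with hb
    have e : 1 - a * b = (1 - a) + a * (1 - b) := by ring
    rw [e]
    refine (norm_add_le _ _).trans ?_
    rw [norm_mul]
    have : ‖a‖ * ‖1 - b‖ ≤ 1 * ‖1 - b‖ := mul_le_mul_of_nonneg_right a1 (norm_nonneg _)
    linarith
  refine (norm_one_sub_pow_le c1 M).trans ?_
  calc (M : ℝ) * ‖1 - PsiP β u‖ ≤ M * (16 * Real.exp (-(2 * β) * |u.im|)) :=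
        mul_le_mul_of_nonneg_left c2 (Nat.cast_nonneg M)
    _ = _ := by ring

theorem brT_far {β : ℝ} (h0 : 0 < β) (h1 : β ≤ 4 / 3) (M : ℕ) (t : ℝ) :
    ‖brT M β t‖ ≤ 48 * (M * Real.exp (-(2 * β) * |t|)) := by
  have hl := l_pos
  obtain ⟨e1, e2, e3, e4⟩ := pT_half t
  have r1 : |(posT t - ((l / 2 : ℝ) : ℂ)).re + l / 2| ≤ 3 * l / 2 := by
    rw [e1, NUO.vl_re, show -l + l / 2 = -(l / 2) by ring, abs_neg, abs_of_pos (by positivity)]
    linarith
  have r2 : |(posT t + ((l / 2 : ℝ) : ℂ)).re + l / 2| ≤ 3 * l / 2 := by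
    rw [e2, NUO.vl_re, zero_add, abs_of_pos (by positivity)]
    linarith
  have r3 : |(posT t - l - ((l / 2 : ℝ) : ℂ)).re + l / 2| ≤ 3 * l / 2 := by
    rw [e3, NUO.vl_re, show -(2 * l) + l / 2 = -(3 * l / 2) by ring, abs_neg,
      abs_of_pos (by positivity)]
  have r4 : |(posT t - l + ((l / 2 : ℝ) : ℂ)).re + l / 2| ≤ 3 * l / 2 := by
    rw [e4, NUO.vl_re, show -l + l / 2 = -(l / 2) by ring, abs_neg, abs_of_pos (by positivity)]
    linarith
  have i1 : (posT t).im = t := NUO.vl_im _ _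
  have i2 : (posT t - l).im = t := by rw [sub_im, i1, ofReal_im, sub_zero]
  have b2 := one_sub_PsiP h0 h1 r3 r4 M
  have b3 := one_sub_PsiP (by norm_num : (0 : ℝ) < 4 / 3) le_rfl r1 r2 M
  rw [i2] at b2
  rw [i1] at b3
  have hle : ‖PsiP β (posT t) ^ M‖ ≤ 1 := by
    rw [norm_pow]
    refine pow_le_one₀ (norm_nonneg _) ((norm_PsiP h0 h1 t).1.trans ?_)
    exact mul_le_one₀ (qT_le_one t) (qT_nonneg t) (qT_le_one t)
  have b1 : ‖1 - PsiP β (posT t) ^ M‖ ≤ 2 := by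
    refine (norm_sub_le _ _).trans ?_
    rw [norm_one]
    linarith
  have hexp : Real.exp (-(2 * (4 / 3)) * |t|) ≤ Real.exp (-(2 * β) * |t|) := by
    refine Real.exp_le_exp.2 ?_
    have := abs_nonneg t
    nlinarith
  have hM : (M : ℝ) * Real.exp (-(2 * (4 / 3)) * |t|) ≤ M * Real.exp (-(2 * β) * |t|) :=
    mul_le_mul_of_nonneg_left hexp (Nat.cast_nonneg M)
  unfold brT phP
  refine (norm_sub_le _ _).trans ?_
  rw [norm_mul]
  have c1 : ‖1 - PsiP β (posT t) ^ M‖ * ‖1 - PsiP β (posT t - l) ^ M‖ ≤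
      2 * (16 * (M * Real.exp (-(2 * β) * |t|))) :=
    mul_le_mul b1 b2 (norm_nonneg _) (by norm_num)
  linarith

/-! ### the weight -/

/-- weight of `St` times its mean field, for `t ≠ 0` -/
theorem wT_eq {M : ℕ} {β jL e ρ : ℝ} {x : Xo} (hx : kd x = .St) (ht0 : ht x ≠ 0) :
    ob1c (obE M β fun _ _ => 1) jL e ρ x *
      Real.exp ((2 * M + 1 : ℕ) * @NUSea.O.mfo NUSea.seaH (parts jL e ρ x)) =
      aS * (2 * Real.cos l) ^ 2 * ((qT (ht x))⁻¹ ^ ((M : ℝ) + 1 / 2) *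
        (ThN (posT (ht x)) * ThN (posT (ht x) - l)) * ‖brT M β (ht x)‖) := by
  have hp : parts jL e ρ x = [(sp x, true, posT (ht x))] := by
    unfold parts
    rw [hx]
  have hv : @NUSea.O.mfo NUSea.seaH (parts jL e ρ x) = cH (3 / 2) (ht x) + cH (3 / 2 + 1) (ht x) := by
    rw [hp, posT_eq]
    exact @NUSea.O.Cloud.val NUSea.seaH _ _ (@NUSea.O.good_string NUSea.seaH (sp x) (3 / 2) (ht x))
  rw [hv]
  unfold ob1c
  rw [hx]
  simp only [obE, obC, Rrow, mul_one]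
  set t := ht x with htd
  have hr := row_T ht0
  have g1 := prN_nonneg (posT t)
  have g2 := prN_nonneg (posT t - l)
  have e1 : prN (posT t) ^ ((M : ℝ) + 1 / 2) * prN (posT t - l) ^ ((M : ℝ) + 1 / 2) *
      Real.exp ((2 * M + 1 : ℕ) * (cH (3 / 2) t + cH (3 / 2 + 1) t)) =
      (qT t)⁻¹ ^ ((M : ℝ) + 1 / 2) := by
    rw [← hr, Real.mul_rpow (mul_nonneg g1 g2) (Real.exp_pos _).le, Real.mul_rpow g1 g2,
      ← Real.exp_mul]
    congr 2
    push_cast
    ring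
  rw [← e1]
  unfold brT
  ring

theorem wE_T0 : ∃ C : ℝ, 0 < C ∧ ∀ β : ℝ, 0 < β → β ≤ 4 / 3 → ∀ (M : ℕ) (jL e ρ : ℝ) (x : Xo),
    kd x = .St → ob1c (obE M β fun _ _ => 1) jL e ρ x *
      Real.exp ((2 * M + 1 : ℕ) * @NUSea.O.mfo NUSea.seaH (parts jL e ρ x)) ≤
        C * cut (2 * M + 1) β (ht x) := by
  have hac := aS_pos
  have hcl := cos_l_pos
  set K0 : ℝ := 8 * Real.exp (8 / 3) + 24 * Real.exp 4 with hK0
  refine ⟨aS * (2 * Real.cos l) ^ 2 * K0, by positivity, fun β h0 h1 M jL e ρ x hx => ?_⟩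
  rcases eq_or_ne (ht x) 0 with ht0 | ht0
  · -- the weight vanishes
    have e0 : prN (posT (ht x)) = 0 := by
      unfold prN rwN
      have : posT (ht x) - ((-(l / 2) : ℝ) : ℂ) = 0 := by
        rw [ht0]
        unfold posT vl
        push_cast
        ring
      rw [this]
      simp
    have hz : ob1c (obE M β fun _ _ => 1) jL e ρ x = 0 := by
      unfold ob1c
      rw [hx]
      simp only [obE, obC, Rrow]
      rw [e0, Real.zero_rpow (by positivity)]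
      ring
    rw [hz, zero_mul]
    have := cut_nonneg (2 * M + 1) β (ht x)
    positivity
  rw [wT_eq hx ht0, mul_assoc _ K0 _]
  refine mul_le_mul_of_nonneg_left ?_ (by positivity)
  set t := ht x with htd
  have hq := qT_pos ht0
  have hq1 := qT_le_one t
  have hTh0 : 0 ≤ ThN (posT t) * ThN (posT t - l) := mul_nonneg (ThN_nonneg _) (ThN_nonneg _)
  have hTh := ThN_T t
  have hth := tanh_le_qT t
  set Th := ThN (posT t) * ThN (posT t - l) with hThd
  have hiq : 0 < (qT t)⁻¹ := inv_pos.2 hq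
  have s3 : √3 ≤ 4 := by
    rw [Real.sqrt_le_left (by norm_num)]
    norm_num
  -- near bound
  have near : (qT t)⁻¹ ^ ((M : ℝ) + 1 / 2) * Th * ‖brT M β t‖ ≤ 8 := by
    have hb := brT_le h0 h1 M t
    have e1 : (qT t)⁻¹ ^ ((M : ℝ) + 1 / 2) * qT t ^ M = (qT t)⁻¹ ^ (1 / 2 : ℝ) := by
      rw [Real.rpow_add hiq, Real.rpow_natCast, mul_right_comm, ← mul_pow, inv_mul_cancel₀ hq.ne',
        one_pow, one_mul]
    have e2 : (qT t)⁻¹ ^ (1 / 2 : ℝ) * Th ≤ 2 := by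
      refine (sq_le_sq₀ (by positivity) (by norm_num)).1 ?_
      rw [mul_pow, ← Real.rpow_natCast ((qT t)⁻¹ ^ (1 / 2 : ℝ)), ← Real.rpow_mul hiq.le]
      norm_num
      rw [inv_mul_le_iff₀ hq]
      have hT2 : Th ^ 2 ≤ √3 * qT t := hTh.trans hth
      nlinarith
    calc (qT t)⁻¹ ^ ((M : ℝ) + 1 / 2) * Th * ‖brT M β t‖
        ≤ (qT t)⁻¹ ^ ((M : ℝ) + 1 / 2) * Th * (4 * qT t ^ M) := by gcongr
      _ = 4 * (((qT t)⁻¹ ^ ((M : ℝ) + 1 / 2) * qT t ^ M) * Th) := by ring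
      _ = 4 * ((qT t)⁻¹ ^ (1 / 2 : ℝ) * Th) := by rw [e1]
      _ ≤ 8 := by linarith
  have hKp : 0 ≤ 24 * Real.exp 4 := by positivity
  have hKp2 : 0 ≤ 8 * Real.exp (8 / 3) := by positivity
  have hn1 : (1 : ℝ) ≤ (2 * M + 1 : ℕ) := by
    push_cast
    have := Nat.cast_nonneg (α := ℝ) M
    linarith
  unfold cut
  rcases le_total 1 ((2 * M + 1 : ℕ) * Real.exp (-(2 * β) * |t|)) with h2 | h2
  · rw [min_eq_left h2, mul_one]
    have : (1 : ℝ) ≤ Real.exp (8 / 3) := Real.one_le_exp (by norm_num)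
    rw [hK0]
    linarith
  · rw [min_eq_right h2]
    set X : ℝ := (2 * M + 1 : ℕ) * Real.exp (-(2 * β) * |t|) with hX
    have hX0 : 0 < X := by
      have := Real.exp_pos (-(2 * β) * |t|)
      have h5 : (0 : ℝ) < (2 * M + 1 : ℕ) := by linarith
      rw [hX]
      exact mul_pos h5 this
    rcases le_total |t| 1 with h3 | h3
    · -- `X ≥ exp (-8/3)`
      have h4 : Real.exp (-(8 / 3)) ≤ X := by
        have h5 : Real.exp (-(8 / 3)) ≤ Real.exp (-(2 * β) * |t|) := by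
          refine Real.exp_le_exp.2 ?_
          have := abs_nonneg t
          nlinarith
        calc Real.exp (-(8 / 3)) ≤ 1 * Real.exp (-(2 * β) * |t|) := by rw [one_mul]; exact h5
          _ ≤ X := mul_le_mul_of_nonneg_right hn1 (Real.exp_pos _).le
      have h6 : 8 ≤ 8 * Real.exp (8 / 3) * X := by
        have h7 : Real.exp (8 / 3) * Real.exp (-(8 / 3)) = 1 := by
          rw [← Real.exp_add, add_neg_cancel, Real.exp_zero]
        have h8 := mul_le_mul_of_nonneg_left h4 (Real.exp_pos (8 / 3)).le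
        linarith
      have h9 : 0 ≤ 24 * Real.exp 4 * X := by positivity
      rw [hK0, add_mul]
      linarith
    · have hb := brT_far h0 h1 M t
      have hf := qT_far h3
      have hM0 := Nat.cast_nonneg (α := ℝ) M
      have hXM : (M : ℝ) * Real.exp (-(2 * β) * |t|) ≤ X / 2 := by
        rw [hX]
        push_cast
        have := Real.exp_pos (-(2 * β) * |t|)
        nlinarith
      -- `(1/q)^(M+1/2) ≤ exp 4`
      have hE : ((M : ℝ) + 1 / 2) * (8 * Real.exp (-(8 / 3) * |t|)) ≤ 4 := by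
        have h5 : Real.exp (-(8 / 3) * |t|) ≤ Real.exp (-(2 * β) * |t|) := by
          refine Real.exp_le_exp.2 ?_
          have := abs_nonneg t
          nlinarith
        have h6 : ((M : ℝ) + 1 / 2) * Real.exp (-(8 / 3) * |t|) ≤ ((M : ℝ) + 1 / 2) * Real.exp (-(2 * β) * |t|) :=
          mul_le_mul_of_nonneg_left h5 (by positivity)
        have h7 : ((M : ℝ) + 1 / 2) * Real.exp (-(2 * β) * |t|) = X / 2 := by
          rw [hX]
          push_cast
          ring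
        linarith
      have hr1 : (qT t)⁻¹ ^ ((M : ℝ) + 1 / 2) ≤ Real.exp 4 := by
        have h5 : (qT t)⁻¹ ≤ Real.exp (8 * Real.exp (-(8 / 3) * |t|)) := by
          rw [inv_le_comm₀ hq (Real.exp_pos _), ← Real.exp_neg]
          exact hf
        calc (qT t)⁻¹ ^ ((M : ℝ) + 1 / 2) ≤ Real.exp (8 * Real.exp (-(8 / 3) * |t|)) ^ ((M : ℝ) + 1 / 2) :=
              Real.rpow_le_rpow hiq.le h5 (by positivity)
          _ = Real.exp (8 * Real.exp (-(8 / 3) * |t|) * ((M : ℝ) + 1 / 2)) := by rw [← Real.exp_mul]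
          _ ≤ Real.exp 4 := Real.exp_le_exp.2 (by linarith)
      have hTh1 : Th ≤ 1 := by
        refine (sq_le_sq₀ hTh0 zero_le_one).1 ?_
        refine hTh.trans ?_
        rw [one_pow, div_le_one (Real.cosh_pos t), Real.abs_sinh]
        have := Real.sinh_lt_cosh |t|
        rw [Real.cosh_abs] at this
        exact this.le
      have hbX : ‖brT M β t‖ ≤ 24 * X := by linarith
      calc (qT t)⁻¹ ^ ((M : ℝ) + 1 / 2) * Th * ‖brT M β t‖ ≤ Real.exp 4 * 1 * (24 * X) := by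
            gcongr
        _ = 24 * Real.exp 4 * X := by ring
        _ ≤ K0 * X := by
            refine mul_le_mul_of_nonneg_right ?_ hX0.le
            rw [hK0]
            linarith

end NUGC

end
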