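import Pool.Agent.NUSea.HMF3
import Pool.Agent.NUSea.OOneB
import Pool.Agent.NUSp.Cls

/-!
# Clouds of the spectator groups in the sea `Ph` (board/GAM G5 PrefN, helper45)

`mfG G = ∫ Ph (Re gp true G + Re gp false G)`: interaction of the group `G` with the clouds of one row of
each kind, all heights.

* `rC p τ = log |sin (w - l/2) sin (w + l/2)|`, `rD p τ = log |sin (w + 5l/2) sin (w + 7l/2)|`, `w = p l + i τ`;
* `hcl p τ`: half quantum at position `p`; `qcl p τ`: quantum at position `p` (`cv_hp`, `cv_q`, `cv_str`);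
* `mfG_w`, `mfG_p`, `mfG_hs`, `mfG_hp`, `mfG_d`: the five classes.
-/

set_option autoImplicit false

open MeasureTheory Set Filter Topology

namespace NUPn

open NUMF (l l_pos h zj lq lqg)
open NUSea (Ph)
open NUHM (Hh hh mo mc hC hD ls)
open NUO (Away cp)
open NUSp (Grp gp hp grp Cl hqp)
open NUP1.Leg (Ck Dk)

noncomputable section

/-! ### rows -/

/-- `log |sin (w - l/2) sin (w + l/2)|`, `w = p l + i τ` -/
def rC (p τ : ℝ) : ℝ := ls (p - 1 / 2) τ + ls (p + 1 / 2) τ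

/-- `log |sin (w + 5l/2) sin (w + 7l/2)|` -/
def rD (p τ : ℝ) : ℝ := ls (p + 5 / 2) τ + ls (p + 7 / 2) τ

lemma rC_eq (p τ : ℝ) : rC p τ = hh τ (4 - p) - Real.log 2 := by
  unfold rC NUHM.ls NUHM.hh
  rw [show 4 - (p - 1 / 2) = 4 - p + 1 / 2 by ring, show 4 - (p + 1 / 2) = 4 - p - 1 / 2 by ring]
  ring

lemma rD_eq (p τ : ℝ) : rD p τ = hh τ (1 - p) - Real.log 2 := by
  unfold rD NUHM.ls NUHM.hh
  rw [show 4 - (p + 5 / 2) = 1 - p + 1 / 2 by ring, show 4 - (p + 7 / 2) = 1 - p - 1 / 2 by ring]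
  ring

lemma rD_rC (p τ : ℝ) : rD p τ = rC (p + 3) τ := by
  unfold rC rD
  rw [show p + 3 - 1 / 2 = p + 5 / 2 by ring, show p + 3 + 1 / 2 = p + 7 / 2 by ring]

lemma rC_per (p τ : ℝ) : rC (p + 8) τ = rC p τ := by
  unfold rC
  rw [show p + 8 - 1 / 2 = p - 1 / 2 + 8 by ring, show p + 8 + 1 / 2 = p + 1 / 2 + 8 by ring,
    NUHM.ls_per, NUHM.ls_per]

lemma rC_neg (p τ : ℝ) : rC (-p) τ = rC p τ := by
  unfold rC
  rw [show -p - 1 / 2 = -(p + 1 / 2) by ring, show -p + 1 / 2 = -(p - 1 / 2) by ring,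
    NUHM.ls_neg, NUHM.ls_neg, add_comm]

/-! ### clouds -/

/-- `v` is the interaction of the potential `f` with the clouds of one row of each kind -/
structure CV (f : Bool → ℂ → ℂ) (v : ℝ) : Prop where
  int : Integrable fun t : ℝ => Ph t * ((f true t).re + (f false t).re)
  val : ∫ t : ℝ, Ph t * ((f true t).re + (f false t).re) = v

namespace CV

variable {f g : Bool → ℂ → ℂ} {v v' : ℝ}

theorem zero : CV (fun _ _ => 0) 0 := ⟨by simp, by simp⟩

theorem add (hf : CV f v) (hg : CV g v') : CV (fun s ζ => f s ζ + g s ζ) (v + v') := by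
  have e : (fun t : ℝ => Ph t * ((f true t + g true t).re + (f false t + g false t).re)) =
      fun t : ℝ => Ph t * ((f true t).re + (f false t).re) + Ph t * ((g true t).re + (g false t).re) := by
    funext t
    rw [Complex.add_re, Complex.add_re]
    ring
  refine ⟨?_, ?_⟩
  · rw [e]
    exact hf.int.add hg.int
  · rw [e, integral_add hf.int hg.int, hf.val, hg.val]

theorem of_eq (hf : CV f v) (h : ∀ s ζ, g s ζ = f s ζ) (hv : v' = v) : CV g v' := by
  obtain rfl : g = f := funext fun s => funext fun ζ => h s ζ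
  rw [hv]
  exact hf

end CV

/-- the interaction of a group with the clouds -/
def mfG (G : Grp) : ℝ := ∫ t : ℝ, Ph t * ((gp true G t).re + (gp false G t).re)

/-- the group potentials are integrable against the density of the sea -/
def mfGi (G : Grp) : Prop := Integrable fun t : ℝ => Ph t * ((gp true G t).re + (gp false G t).re)

/-- cloud of a half quantum at position `p` -/
def hcl (p τ : ℝ) : ℝ := hC p τ + hD p τ + (rC p τ - rD p τ) / 2

/-- cloud of a quantum at position `p` -/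
def qcl (p τ : ℝ) : ℝ := mo (1 - p) τ + mc (1 - p) τ + (rC p τ + rC (p - 2) τ) / 2 - rD p τ

lemma zj_one (t : ℝ) : zj 1 t = (l : ℂ) + Complex.I * t := by
  unfold NUMF.zj
  push_cast
  ring

variable {δ p τ : ℝ}

/-- **cloud of a half quantum** -/
theorem cv_hp (hδ : 0 < δ) (h : Away δ (zj p τ)) (σ : Bool) :
    CV (fun s ζ => hp s (σ, zj p τ) ζ) (hcl p τ) := by
  have hl := l_pos
  have key : ∀ (s : Bool) (t : ℝ), (hp s (σ, zj p τ) t).re =
      Real.log ‖hqp (s, false, zj 1 t) (σ, zj p τ)‖ := by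
    intro s t
    have h1 := NUSp.exp_hp s (h := (σ, zj p τ)) h (ζ := (t : ℂ)) (by
      rw [Complex.ofReal_im, abs_zero]; positivity)
    rw [zj_one, ← h1, Real.log_exp]
  have k1 : ∀ t : ℝ, (hp true (σ, zj p τ) t).re + (hp false (σ, zj p τ) t).re =
      Real.log ‖Ck (zj p τ - zj 1 t)‖ + Real.log ‖Dk (zj p τ - zj 1 t)‖ := by
    intro t
    rw [key, key]
    cases σ
    · simp only [NUSp.hqp, Bool.true_eq_false, if_false, if_true, Bool.false_eq_true]
      ring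
    · simp only [NUSp.hqp, Bool.false_eq_true, if_false, if_true]
  obtain ⟨i1, e1⟩ := NUHM.C_cloud p τ
  obtain ⟨i2, e2⟩ := NUHM.D_cloud p τ
  have e : (fun t : ℝ => Ph t * ((hp true (σ, zj p τ) t).re + (hp false (σ, zj p τ) t).re)) =
      fun t : ℝ => Ph t * Real.log ‖Ck (zj p τ - zj 1 t)‖ + Ph t * Real.log ‖Dk (zj p τ - zj 1 t)‖ := by
    funext t
    rw [k1]
    ring
  refine ⟨?_, ?_⟩
  · rw [e]
    exact i1.add i2
  · rw [e, integral_add i1 i2, e1, e2]
    unfold hcl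
    rw [rC_eq, rD_eq]
    unfold NUHM.hC NUHM.hD
    ring

/-- cloud of a constituent -/
theorem cv_cp (hδ : 0 < δ) {x : Bool × Bool × ℂ} (h : Away δ x.2.2) {v : ℝ}
    (hc : @NUSea.O.Cloud NUSea.seaH [x] v) : CV (fun s ζ => cp s x ζ) v := by
  have hl := l_pos
  have key : ∀ (s : Bool) (t : ℝ), (cp s x t).re =
      Real.log (NUO.ppN [(s, false, NUP1.vl NUP1.l t)] [x]) := by
    intro s t
    have h1 := NUO.exp_cp s (x := x) h (ζ := (t : ℂ)) (by
      rw [Complex.ofReal_im, abs_zero]; positivity)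
    rw [NUO.ppN_single, List.map_singleton, List.prod_singleton,
      show NUP1.vl NUP1.l t = (l : ℂ) + Complex.I * t by
        unfold NUP1.vl
        rw [show (NUP1.l : ℝ) = l from rfl]
        ring, ← h1, Real.log_exp]
  have e : (fun t : ℝ => Ph t * ((cp true x t).re + (cp false x t).re)) =
      fun t : ℝ => @NUSea.P NUSea.seaH t * NUO.lpL [x] (NUP1.vl NUP1.l t) := by
    funext t
    rw [key, key]
    rfl
  refine ⟨?_, ?_⟩
  · rw [e]
    exact @NUSea.O.Cloud.int NUSea.seaH [x] v hc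
  · rw [e]
    exact @NUSea.O.Cloud.val NUSea.seaH [x] v hc

lemma clo_eq (p τ : ℝ) : @NUSea.O.clo NUSea.seaH (1 - p) τ = qcl p τ := by
  have e1 := (NUHM.cl_q (1 - p) τ).2
  have e2 := (NUHM.cl_qg (1 - p) τ).2
  have e3 := NUHM.mo_split (1 - p) τ
  have e4 := NUHM.mc_split (1 - p) τ
  have e5 : @NUSea.O.clo NUSea.seaH (1 - p) τ =
      (∫ s, Ph s * lq (1 - p) (τ - s)) + ∫ s, Ph s * lqg (1 - p) (τ - s) := rfl
  have e6 : NUHM.ro2 (1 - p) τ = (rC p τ + rC (p - 2) τ) / 2 + Real.log 2 := by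
    unfold NUHM.ro2
    rw [rC_eq, rC_eq, show 3 - (1 - p) = 8 - (4 - (p - 2)) by ring, NUHM.hh_refl,
      show 5 - (1 - p) = 8 - (4 - p) by ring, NUHM.hh_refl]
    ring
  rw [e5]
  unfold qcl
  rw [rD_eq]
  linarith

/-- **cloud of a quantum** -/
theorem cv_q (hδ : 0 < δ) (h : Away δ (zj p τ)) (σ : Bool) :
    CV (fun s ζ => cp s (σ, false, zj p τ) ζ) (qcl p τ) := by
  have h1 := @NUSea.O.good_quantum NUSea.seaH σ (1 - p) τ
  have e : NUP1.vl ((1 - (1 - p)) * NUP1.l) τ = zj p τ := by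
    unfold NUP1.vl NUMF.zj
    rw [show (NUP1.l : ℝ) = l from rfl, show (1 - (1 - p)) = p by ring]
  rw [e, clo_eq] at h1
  exact cv_cp hδ h h1

/-- **cloud of a string** (quanta at positions `p`, `p - 1`) -/
theorem cv_str (hδ : 0 < δ) (h : Away δ (zj p τ)) (σ : Bool) :
    CV (fun s ζ => cp s (σ, true, zj p τ) ζ) (qcl p τ + qcl (p - 1) τ) := by
  have h1 := @NUSea.O.good_string NUSea.seaH σ (1 - p) τ
  have e : NUP1.vl ((1 - (1 - p)) * NUP1.l) τ = zj p τ := by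
    unfold NUP1.vl NUMF.zj
    rw [show (NUP1.l : ℝ) = l from rfl, show (1 - (1 - p)) = p by ring]
  rw [e, clo_eq, show 1 - p + 1 = 1 - (p - 1) by ring, clo_eq] at h1
  exact cv_cp hδ h h1

/-! ### the classes -/

lemma away_shift (h : Away δ (zj p τ)) (n : ℤ) : Away δ (zj (p + n) τ) := by
  have h1 := NUSp.Away.shift h n
  have e : zj p τ + n * (l : ℂ) = zj (p + n) τ := by
    unfold NUMF.zj
    push_cast
    ring
  rwa [e] at h1

lemma zj_add3 (p τ : ℝ) : zj p τ + 3 * (l : ℂ) = zj (p + 3) τ := by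
  unfold NUMF.zj
  push_cast
  ring

lemma zj_sub2 (p τ : ℝ) : zj p τ - 2 * (l : ℂ) = zj (p - 2) τ := by
  unfold NUMF.zj
  push_cast
  ring

/-- **`W1`, `F0`** -/
theorem mfG_w (hδ : 0 < δ) (h : Away δ (zj p τ)) (σ : Bool) :
    CV (fun s ζ => gp s (grp .w σ (zj p τ)) ζ) (hcl p τ) :=
  (cv_hp hδ h σ).of_eq (fun s ζ => by simp [NUSp.gp, NUSp.grp]) rfl

/-- **`P1`** -/
theorem mfG_p (hδ : 0 < δ) (h : Away δ (zj p τ)) (σ : Bool) :
    CV (fun s ζ => gp s (grp .p σ (zj p τ)) ζ) (hcl p τ + qcl (p + 3) τ) := by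
  have h3 : Away δ (zj (p + 3) τ) := by
    have := away_shift h 3
    exact_mod_cast this
  refine ((cv_hp hδ h σ).add (cv_q hδ h3 (!σ))).of_eq (fun s ζ => ?_) rfl
  simp [NUSp.gp, NUSp.grp, zj_add3]

/-- **`Hs`** -/
theorem mfG_hs (hδ : 0 < δ) (h : Away δ (zj p τ)) (σ : Bool) :
    CV (fun s ζ => gp s (grp .hs σ (zj p τ)) ζ) (hcl p τ + (qcl (p - 2) τ + qcl (p - 3) τ)) := by
  have h3 : Away δ (zj (p - 2) τ) := by
    have := away_shift h (-2)
    rwa [show p + ((-2 : ℤ) : ℝ) = p - 2 by push_cast; ring] at this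
  refine ((cv_hp hδ h σ).add (cv_str hδ h3 (!σ))).of_eq (fun s ζ => ?_) ?_
  · simp [NUSp.gp, NUSp.grp, zj_sub2]
  · rw [show p - 2 - 1 = p - 3 by ring]

/-- **`Hs+`** -/
theorem mfG_hp (hδ : 0 < δ) (h : Away δ (zj p τ)) (σ : Bool) :
    CV (fun s ζ => gp s (grp .hp σ (zj p τ)) ζ)
      (hcl p τ + (qcl (p - 2) τ + qcl (p - 3) τ) + qcl p τ) := by
  have h3 : Away δ (zj (p - 2) τ) := by
    have := away_shift h (-2)
    rwa [show p + ((-2 : ℤ) : ℝ) = p - 2 by push_cast; ring] at this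
  refine (((cv_hp hδ h σ).add (cv_str hδ h3 (!σ))).add (cv_q hδ h σ)).of_eq (fun s ζ => ?_) ?_
  · simp [NUSp.gp, NUSp.grp, zj_sub2]
    ring
  · rw [show p - 2 - 1 = p - 3 by ring]

/-- **`D1`** -/
theorem mfG_d (hδ : 0 < δ) (h : Away δ (zj p τ)) (σ : Bool) :
    CV (fun s ζ => gp s (grp .d σ (zj p τ)) ζ) (hcl p τ + hcl (p + 3) τ) := by
  have h3 : Away δ (zj (p + 3) τ) := by
    have := away_shift h 3
    exact_mod_cast this
  refine ((cv_hp hδ h σ).add (cv_hp hδ h3 (!σ))).of_eq (fun s ζ => ?_) rfl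
  simp [NUSp.gp, NUSp.grp, zj_add3]

/-! ### size of `ls` -/

lemma sin_zj_sq (a t : ℝ) : ‖Complex.sin (zj a t)‖ ^ 2 = Real.sin (a * l) ^ 2 + Real.sinh t ^ 2 := by
  unfold NUMF.zj
  rw [Complex.sin_add_mul_I, ← Complex.ofReal_cos, ← Complex.ofReal_cosh, ← Complex.ofReal_sin,
    ← Complex.ofReal_sinh]
  rw [show ((Real.sin (a * l) : ℝ) : ℂ) * (Real.cosh t : ℝ) +
      (Real.cos (a * l) : ℝ) * (Real.sinh t : ℝ) * Complex.I =
      ((Real.sin (a * l) * Real.cosh t : ℝ) : ℂ) +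
      ((Real.cos (a * l) * Real.sinh t : ℝ) : ℂ) * Complex.I by push_cast; ring,
    ← Complex.normSq_eq_norm_sq, Complex.normSq_add_mul_I]
  have h1 := Real.sin_sq_add_cos_sq (a * l)
  have h2 := Real.cosh_sq t
  linear_combination (Real.sin (a * l)) ^ 2 * h2 + (Real.sinh t) ^ 2 * h1

lemma sin_zj_ne {a : ℝ} (ha : Real.sin (a * l) ≠ 0) (t : ℝ) : Complex.sin (zj a t) ≠ 0 := by
  intro h0
  have h1 := sin_zj_sq a t
  rw [h0, norm_zero] at h1
  have h2 : 0 < Real.sin (a * l) ^ 2 := by positivity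
  have h3 : 0 ≤ Real.sinh t ^ 2 := sq_nonneg _
  nlinarith

lemma ls_log {a : ℝ} (ha : Real.sin (a * l) ≠ 0) (t : ℝ) :
    ls a t = Real.log ‖Complex.sin (zj a t)‖ := (NUHM.ls_eq (sin_zj_ne ha t)).symm

lemma cosh_le_exp_abs (t : ℝ) : Real.cosh t ≤ Real.exp |t| := by
  rw [← Real.cosh_abs, Real.cosh_eq]
  have h1 : Real.exp (-|t|) ≤ Real.exp |t| := Real.exp_le_exp.2 (by linarith [abs_nonneg t])
  linarith

lemma exp_abs_le_cosh (t : ℝ) : Real.exp |t| / 2 ≤ Real.cosh t := by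
  rw [← Real.cosh_abs, Real.cosh_eq]
  have h1 := Real.exp_pos (-|t|)
  linarith

/-- `log |sin (a l + i t)| ≤ |t|` -/
lemma ls_up {a : ℝ} (ha : Real.sin (a * l) ≠ 0) (t : ℝ) : ls a t ≤ |t| := by
  have hp : 0 < ‖Complex.sin (zj a t)‖ := norm_pos_iff.2 (sin_zj_ne ha t)
  rw [ls_log ha, Real.log_le_iff_le_exp hp]
  refine le_trans ?_ (cosh_le_exp_abs t)
  refine le_of_sq_le_sq ?_ (Real.cosh_pos t).le
  rw [sin_zj_sq, Real.cosh_sq]
  have := Real.sin_sq_le_one (a * l)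
  linarith

/-- `|t| - log (2 / |sin (a l)|) ≤ log |sin (a l + i t)|` -/
lemma ls_lo {a : ℝ} (ha : Real.sin (a * l) ≠ 0) (t : ℝ) :
    |t| - Real.log 2 + Real.log |Real.sin (a * l)| ≤ ls a t := by
  have hs : 0 < |Real.sin (a * l)| := abs_pos.2 ha
  have h1 : |Real.sin (a * l)| * (Real.exp |t| / 2) ≤ ‖Complex.sin (zj a t)‖ := by
    refine le_trans (mul_le_mul_of_nonneg_left (exp_abs_le_cosh t) hs.le) ?_
    refine le_of_sq_le_sq ?_ (norm_nonneg _)
    rw [sin_zj_sq, mul_pow, sq_abs]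
    have h2 := Real.cosh_sq t
    have h3 := Real.sin_sq_le_one (a * l)
    have h4 := sq_nonneg (Real.sinh t)
    rw [h2]
    nlinarith
  have h2 : Real.log (|Real.sin (a * l)| * (Real.exp |t| / 2)) =
      |t| - Real.log 2 + Real.log |Real.sin (a * l)| := by
    rw [Real.log_mul hs.ne' (by positivity), Real.log_div (Real.exp_pos _).ne' two_ne_zero, Real.log_exp]
    ring
  rw [ls_log ha, ← h2]
  exact Real.log_le_log (by positivity) h1

/-- two-sided bound -/
lemma ls_bd {a : ℝ} (ha : Real.sin (a * l) ≠ 0) : ∃ K : ℝ, 0 ≤ K ∧ ∀ t : ℝ, |ls a t - (|t|)| ≤ K := by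
  refine ⟨Real.log 2 - Real.log |Real.sin (a * l)|, ?_, fun t => ?_⟩
  · have h1 : Real.log |Real.sin (a * l)| ≤ 0 :=
      Real.log_nonpos (abs_nonneg _) (Real.abs_sin_le_one _)
    have h2 := Real.log_pos (by norm_num : (1:ℝ) < 2)
    linarith
  · have h1 := ls_up ha t
    have h2 := ls_lo ha t
    have h3 : Real.log |Real.sin (a * l)| ≤ 0 :=
      Real.log_nonpos (abs_nonneg _) (Real.abs_sin_le_one _)
    have h4 := Real.log_pos (by norm_num : (1:ℝ) < 2)
    rw [abs_le]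
    constructor <;> linarith

/-- no zeros between `8 n` and `8 n + 8` -/
lemma sin_al_ne {a : ℝ} (n : ℤ) (h1 : 8 * n < a) (h2 : a < 8 * n + 8) : Real.sin (a * l) ≠ 0 := by
  have hl := l_pos
  have h8 := NUHM.l8
  have e : Real.sin ((a - 8 * n) * l) = Real.sin (a * l - n * Real.pi) := by
    congr 1
    rw [← h8]
    ring
  have hp : 0 < Real.sin ((a - 8 * n) * l) := by
    refine Real.sin_pos_of_pos_of_lt_pi (mul_pos (by linarith) hl) ?_
    rw [← h8]
    nlinarith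
  intro h0
  rw [e, Real.sin_sub, Real.sin_int_mul_pi, h0] at hp
  simp at hp

/-- positions in an open interval between two integers -/
lemma away_of {p : ℝ} (k : ℤ) {δ : ℝ} (h1 : k + δ ≤ p) (h2 : p ≤ k + 1 - δ) (τ : ℝ) :
    Away δ (zj p τ) := by
  intro n
  have hl := l_pos
  have e : (zj p τ).re = p * l := by
    unfold NUMF.zj
    simp
  rw [e, ← sub_mul, abs_mul, abs_of_pos hl]
  refine mul_le_mul_of_nonneg_right ?_ hl.le
  rcases le_or_gt n k with h | h
  · have : (n : ℝ) ≤ k := by exact_mod_cast h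
    rw [le_abs]
    left
    linarith
  · have : (k : ℝ) + 1 ≤ n := by exact_mod_cast h
    rw [le_abs]
    right
    linarith

end

end NUPn
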