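import Pool.Agent.NUGC.PrefN
import Pool.Agent.NUGC.QC1

/-!
# The prefactors of the classes W, F, P, D1 in the form used by `NUGC/QC1` (helper45)

`L = log (2 M + 1)`, `β = (4 / 3) (1 - ep)`, lines `vl (p l) τ`; `cut L ep q τ` of `QC1`.
-/

set_option autoImplicit false

open MeasureTheory Set Filter Topology

namespace NUPn

open NUGC

open NUMF (l l_pos zj)
open NUHM (Th)

noncomputable section

lemma vl_zj (p τ : ℝ) : NUP1.vl (p * NUP1.l) τ = zj p τ := rfl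

/-- the cutoff in terms of `log (2 M + 1)` -/
lemma min_cut {ep : ℝ} (M : ℕ) (τ : ℝ) :
    min 1 ((M : ℝ) * Real.exp (-(2 * (4 / 3 * (1 - ep))) * |τ|)) ≤
      cut (Real.log (2 * M + 1)) ep (-1) τ := by
  unfold cut
  rw [if_neg (by norm_num)]
  refine min_le_min le_rfl ?_
  have hM : (0:ℝ) < 2 * M + 1 := by positivity
  rw [show Real.log (2 * (M : ℝ) + 1) - 8 / 3 * (1 - ep) * |τ| = Real.log (2 * M + 1) +
    -(2 * (4 / 3 * (1 - ep))) * |τ| by ring, Real.exp_add, Real.exp_log hM]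
  refine mul_le_mul_of_nonneg_right ?_ (Real.exp_pos _).le
  have : (0:ℝ) ≤ M := Nat.cast_nonneg M
  linarith

/-- **types `W`, `F`, `P`** (`σ = true`: species X): one constant; `q = 1, 1, -1` -/
theorem own_WFP : ∃ C : ℝ, 0 < C ∧ ∀ (σ : Bool) (M : ℕ) (τ : ℝ),
    ‖KFs σ M (NUP1.vl (5 / 4 * NUP1.l) τ)‖ *
        Real.exp ((2 * M + 1) * NUPref.MF .w (NUP1.vl (5 / 4 * NUP1.l) τ)) ≤ C * Real.exp (-|τ|) ∧
    ‖KFs σ M (NUP1.vl (-(11 / 4) * NUP1.l) τ)‖ *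
        Real.exp ((2 * M + 1) * NUPref.MF .w (NUP1.vl (-(11 / 4) * NUP1.l) τ)) ≤
      C * Real.exp (-|τ|) ∧
    ∀ (c : ℂ) (ep : ℝ), ‖c‖ = 2 * Real.cos NUP1.l → 0 ≤ ep → ep < 1 →
      ‖KPs σ c (4 / 3 * (1 - ep)) M M (NUP1.vl (-(11 / 4) * NUP1.l) τ)‖ *
        Real.exp ((2 * M + 1) * NUPref.MF .p (NUP1.vl (-(11 / 4) * NUP1.l) τ)) ≤
      C * Real.exp (-|τ|) * cut (Real.log (2 * M + 1)) ep (-1) τ := by
  obtain ⟨C1, h1, b1⟩ := pref_W
  obtain ⟨C2, h2, b2⟩ := pref_F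
  obtain ⟨C3, h3, b3⟩ := pref_P
  refine ⟨C1 + C2 + 2 * C3, by positivity, fun σ M τ => ⟨?_, ?_, fun c ep hc he0 he1 => ?_⟩⟩
  · rw [vl_zj]
    refine (b1 σ M τ).trans (mul_le_mul_of_nonneg_right (by linarith) (Real.exp_pos _).le)
  · rw [vl_zj]
    refine (b2 σ M τ).trans ?_
    refine (mul_le_of_le_one_right (by positivity) (pref_F_le_one M τ)).trans ?_
    exact mul_le_mul_of_nonneg_right (by linarith) (Real.exp_pos _).le
  · rw [vl_zj]
    refine (b3 σ c (4 / 3 * (1 - ep)) M M τ (by linarith) (by linarith)).trans ?_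
    have h4 := min_cut (ep := ep) M τ
    have h5 : ‖c‖ ≤ 2 := by
      rw [hc]
      have := Real.cos_le_one NUP1.l
      linarith
    have h6 := cut_nonneg (Real.log (2 * M + 1)) ep (-1) τ
    calc C3 * ‖c‖ * Real.exp (-|τ|) * min 1 ((M : ℝ) * Real.exp (-(2 * (4 / 3 * (1 - ep))) * |τ|)) ≤
          C3 * 2 * Real.exp (-|τ|) * cut (Real.log (2 * M + 1)) ep (-1) τ := by gcongr
      _ ≤ _ := by
          refine mul_le_mul_of_nonneg_right ?_ h6
          refine mul_le_mul_of_nonneg_right ?_ (Real.exp_pos _).le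
          linarith

/-- **`D1`** (`σ`: species of the left half quantum) -/
theorem own_D : ∃ C : ℝ, 0 < C ∧ ∀ (σ : Bool) (M : ℕ) (τ : ℝ),
    ‖XDs σ M (NUP1.vl (-(11 / 4) * NUP1.l) τ)‖ *
        Real.exp ((2 * M + 1) * NUPref.MF .d (NUP1.vl (-(11 / 4) * NUP1.l) τ)) ≤
      C * Real.exp (-2 * |τ|) := pref_D

end

end NUPn
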