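import Pool.Agent.NUGC.QInt

/-!
# The exponent of a class of TARGET-C as a function of the heights of the two groups

`q`, `q'`: doubled charges of the groups (`1`: `W`, `F`; `-1`: `P`, `H+`; `-3`: `H`), a bare half
quantum (`q = 1`) is dressed at `p = pin T₁ τ`, `x = |τ| - |p|`; a composite group at its own
height (`p = τ`, `x = 0`).

* `PX`: the relation between `τ`, `p`, `x`;
* `qc_le`: the exponent for all pairs of groups;
* `qc_near`, `qc_far`: the majorants near and far;
* `comp_cut`: the cutoff of a composite group pays the window;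
-/

set_option autoImplicit false

open MeasureTheory

namespace NUGC

noncomputable section

/-- `p` = height of the dressing, `x` = excess of a group of doubled charge `q` at `τ` -/
def PX (T₁ q τ p x : ℝ) : Prop := (q = 1 ∧ p = pin T₁ τ ∧ x = xs T₁ τ) ∨
  ((q = -1 ∨ q = -3) ∧ p = τ ∧ x = 0)

/-- dressing height -/
def pq (T₁ q τ : ℝ) : ℝ := if q = 1 then pin T₁ τ else τ

/-- excess of the dressing -/
def xq (T₁ q τ : ℝ) : ℝ := if q = 1 then xs T₁ τ else 0

/-- the doubled charges which occur -/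
def QOK (q : ℝ) : Prop := q = 1 ∨ q = -1 ∨ q = -3

theorem PX_of {T₁ q τ : ℝ} (h : QOK q) : PX T₁ q τ (pq T₁ q τ) (xq T₁ q τ) := by
  unfold pq xq
  rcases h with rfl | rfl | rfl
  · left
    simp
  · right
    norm_num
  · right
    norm_num

theorem abs_pin_add {T t : ℝ} (hT : 0 ≤ T) : |t| = |pin T t| + xs T t := by
  have := abs_sub_pin (t := t) hT
  linarith

theorem abs_sub_pin' {T t : ℝ} (hT : 0 ≤ T) : |t - pin T t| = xs T t := by
  unfold xs
  rcases le_total (|t|) T with h | h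
  · rw [pin_of_le h, max_eq_right (by linarith), sub_self, abs_zero]
  · rw [max_eq_left (by linarith)]
    unfold pin
    rcases le_total 0 t with h0 | h0
    · rw [abs_of_nonneg h0] at h ⊢
      rw [min_eq_right h, max_eq_right (by linarith), abs_of_nonneg (by linarith)]
    · rw [abs_of_nonpos h0] at h ⊢
      rw [min_eq_left (by linarith), max_eq_left (by linarith), abs_of_nonpos (by linarith)]
      ring

theorem pin_dist {T t t' : ℝ} (hT : 0 ≤ T) :
    |pin T t - pin T t'| + |xs T t - xs T t'| ≤ |t - t'| := by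
  have h := pin_pair (t := t) (t' := t') hT
  have h2 : max (xs T t) (xs T t') - min (xs T t) (xs T t') = |xs T t - xs T t'| :=
    max_sub_min_eq_abs' _ _
  linarith

/-- **the exponent of a pair of groups**, all classes -/
theorem qc_le {T₁ q q' τ τ' p p' x x' : ℝ} (hT : 0 ≤ T₁) (h : PX T₁ q τ p x)
    (h' : PX T₁ q' τ' p' x') :
    -|τ| - |τ'| - (q * q' + 1) / 2 * |τ - τ'| + q * q' / 2 * |p - p'| - x * (1 - q') / 2 -
        x' * (1 - q) / 2 + 37 / 20 * max x x' ≤
      -|p| - |p'| - |p - p'| / 2 - 3 / 40 * (x + x') := by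
  rcases h with ⟨rfl, rfl, rfl⟩ | ⟨hq, rfl, rfl⟩ <;>
    rcases h' with ⟨rfl, rfl, rfl⟩ | ⟨hq', rfl, rfl⟩
  · -- both bare
    have a1 := abs_pin_add (t := τ) hT
    have a2 := abs_pin_add (t := τ') hT
    have a3 := pin_dist (t := τ) (t' := τ') hT
    have x0 := xs_nonneg T₁ τ
    have x0' := xs_nonneg T₁ τ'
    rcases le_total (xs T₁ τ) (xs T₁ τ') with hx | hx
    · rw [max_eq_right hx]
      rw [abs_of_nonpos (by linarith : xs T₁ τ - xs T₁ τ' ≤ 0)] at a3
      linarith
    · rw [max_eq_left hx]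
      rw [abs_of_nonneg (by linarith : 0 ≤ xs T₁ τ - xs T₁ τ')] at a3
      linarith
  · -- the first one bare
    have a1 := abs_pin_add (t := τ) hT
    have x0 := xs_nonneg T₁ τ
    have a3 : |τ - p'| ≤ xs T₁ τ + |pin T₁ τ - p'| := by
      rw [← abs_sub_pin' (t := τ) hT]
      exact abs_sub_le _ _ _
    rw [max_eq_left x0]
    rcases hq' with rfl | rfl
    · linarith
    · linarith
  · -- the second one bare
    have a1 := abs_pin_add (t := τ') hT
    have x0 := xs_nonneg T₁ τ'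
    have a3 : |p - τ'| ≤ xs T₁ τ' + |p - pin T₁ τ'| := by
      have h1 : |p - τ'| ≤ |p - pin T₁ τ'| + |pin T₁ τ' - τ'| := abs_sub_le _ _ _
      rw [abs_sub_comm (pin T₁ τ'), abs_sub_pin' (t := τ') hT] at h1
      linarith
    rw [max_eq_right x0]
    rcases hq with rfl | rfl
    · linarith
    · linarith
  · rw [max_self]
    linarith

/-- the majorant near -/
theorem qc_near {T T₁ q q' τ τ' p p' x x' : ℝ} (hTT : T ≤ T₁) (h : PX T₁ q τ p x)
    (h' : PX T₁ q' τ' p' x') (hn : |τ| ≤ T) (hn' : |τ'| ≤ T) :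
    Real.exp (-|p| - |p'| - |p - p'| / 2 - 3 / 40 * (x + x')) = QI0 (τ, τ') := by
  have e : p = τ ∧ x = 0 := by
    rcases h with ⟨rfl, rfl, rfl⟩ | ⟨hq, rfl, rfl⟩
    · refine ⟨pin_of_le (hn.trans hTT), ?_⟩
      unfold xs
      rw [max_eq_right]
      linarith
    · exact ⟨rfl, rfl⟩
  have e' : p' = τ' ∧ x' = 0 := by
    rcases h' with ⟨rfl, rfl, rfl⟩ | ⟨hq, rfl, rfl⟩
    · refine ⟨pin_of_le (hn'.trans hTT), ?_⟩
      unfold xs
      rw [max_eq_right]
      linarith
    · exact ⟨rfl, rfl⟩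
  rw [e.1, e.2, e'.1, e'.2]
  unfold QI0
  congr 1
  ring

/-- the far majorant -/
def MJ (T : ℝ) (z : ℝ × ℝ) : ℝ := Real.exp (-(3 / 2) * T - (3 / 40) * (xs T z.1 + xs T z.2))

/-- the majorant far -/
theorem qc_far {T T₁ q q' τ τ' p p' x x' : ℝ} (hT : 0 ≤ T) (hTT : T ≤ T₁) (h : PX T₁ q τ p x)
    (h' : PX T₁ q' τ' p' x') (hf : (τ, τ') ∈ FarS T) :
    Real.exp (-|p| - |p'| - |p - p'| / 2 - 3 / 40 * (x + x')) ≤ MJ T (τ, τ') := by
  have hT₁ : 0 ≤ T₁ := hT.trans hTT
  -- `|τ| = |p| + x`, `x = 0` or `T ≤ |p|`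
  have key : ∀ {q τ p x : ℝ}, PX T₁ q τ p x → |τ| = |p| + x ∧ 0 ≤ x ∧ (x = 0 ∨ T ≤ |p|) := by
    intro q τ p x h
    rcases h with ⟨rfl, rfl, rfl⟩ | ⟨hq, rfl, rfl⟩
    · refine ⟨abs_pin_add hT₁, xs_nonneg _ _, ?_⟩
      rcases le_total (|τ|) T₁ with h1 | h1
      · left
        unfold xs
        rw [max_eq_right]
        linarith
      · right
        have h2 := abs_sub_pin (t := τ) hT₁
        unfold xs at h2
        rw [max_eq_left (by linarith)] at h2
        linarith
    · exact ⟨by ring, le_rfl, Or.inl rfl⟩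
  obtain ⟨a1, a2, a3⟩ := key h
  obtain ⟨b1, b2, b3⟩ := key h'
  unfold MJ
  refine Real.exp_le_exp.2 ?_
  have hp := abs_nonneg p
  have hp' := abs_nonneg p'
  have d1 : |p| - |p'| ≤ |p - p'| := abs_sub_abs_le_abs_sub p p'
  have d2 : |p'| - |p| ≤ |p - p'| := by
    rw [abs_sub_comm]
    exact abs_sub_abs_le_abs_sub p' p
  simp only [FarS, Set.mem_ofPred_eq] at hf
  unfold xs
  simp only
  rcases le_total (|τ| - T) 0 with g1 | g1 <;> rcases le_total (|τ'| - T) 0 with g2 | g2
  · exfalso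
    rcases hf with hf | hf <;> linarith
  · rw [max_eq_right g1, max_eq_left g2]
    have : T ≤ |p'| := by rcases b3 with b3 | b3 <;> linarith
    linarith
  · rw [max_eq_left g1, max_eq_right g2]
    have : T ≤ |p| := by rcases a3 with a3 | a3 <;> linarith
    linarith
  · rw [max_eq_left g1, max_eq_left g2]
    have h1 : T ≤ |p'| := by rcases b3 with b3 | b3 <;> linarith
    have h2 : T ≤ |p| := by rcases a3 with a3 | a3 <;> linarith
    linarith

/-- **the cutoff of a composite group pays its window**: `L = log m`, `T` = end of the window -/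
theorem comp_cut {L ep e1 T τ : ℝ} (hL : 0 ≤ L) (hep : 0 ≤ ep) (hep' : ep ≤ 1 / 100) (he1 : 0 ≤ e1)
    (hT : T = (1 + 2 * e1 + 2 * ep) * (3 / 8 * L)) :
    Real.exp (12 / 5 * xs T τ) * min 1 (Real.exp (L - 8 / 3 * (1 - ep) * |τ|)) ≤
      Real.exp (-(6 / 25) * xs T τ) := by
  rcases le_total (|τ|) T with h | h
  · have e : xs T τ = 0 := by
      unfold xs
      rw [max_eq_right]
      linarith
    rw [e, mul_zero, mul_zero, Real.exp_zero, one_mul]
    exact min_le_left _ _
  · have e : xs T τ = |τ| - T := by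
      unfold xs
      rw [max_eq_left]
      linarith
    rw [e]
    refine (mul_le_mul_of_nonneg_left (min_le_right _ _) (Real.exp_pos _).le).trans ?_
    rw [← Real.exp_add]
    refine Real.exp_le_exp.2 ?_
    -- `(8 / 3) (1 - ep) T ≥ L`
    have h1 : L ≤ 8 / 3 * (1 - ep) * T := by
      rw [hT]
      have h2 : 1 ≤ (1 - ep) * (1 + 2 * e1 + 2 * ep) := by nlinarith
      calc L = 1 * L := (one_mul L).symm
        _ ≤ ((1 - ep) * (1 + 2 * e1 + 2 * ep)) * L := mul_le_mul_of_nonneg_right h2 hL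
        _ = _ := by ring
    have h3 : 0 ≤ (1 / 100 - ep) * (|τ| - T) := mul_nonneg (by linarith) (by linarith)
    nlinarith

end

end NUGC
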