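import Pool.Agent.NUGC.QC0

/-! NUGC.QInt2 (helper96): the integral of the far majorant `MJ` of QC (TARGET-C, helper13) and the
near/far split.
 (a) `MJ_lint`: lint over FarS T of MJ T <= 3000 (1+T)^2 exp(-(3/2) T), `MJ_lint_eps`
 (b) `far_le_MJ`: the exponent at the pinned heights is at most MJ on FarS T
 (c) `lint_near_far`: the whole integral from the near and the far bound -/

open MeasureTheory Real Set

namespace NUGC

noncomputable section

/-- one variable -/
def MJ1 (T t : ℝ) : ℝ := Real.exp (-(3 / 40) * xs T t)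

theorem MJ_nonneg (T : ℝ) (z : ℝ × ℝ) : 0 ≤ MJ T z := Real.exp_nonneg _

theorem MJ_cont (T : ℝ) : Continuous (MJ T) := by
  unfold MJ
  have := xs_cont T
  fun_prop

theorem MJ1_cont (T : ℝ) : Continuous (MJ1 T) := by
  unfold MJ1
  have := xs_cont T
  fun_prop

theorem MJ_eq (T : ℝ) (z : ℝ × ℝ) : MJ T z = Real.exp (-(3 / 2) * T) * (MJ1 T z.1 * MJ1 T z.2) := by
  unfold MJ MJ1
  rw [← Real.exp_add, ← Real.exp_add]
  congr 1; ring

theorem MJ1_le {T : ℝ} (hT : 0 ≤ T) (t : ℝ) : MJ1 T t ≤ (Icc (-T) T).indicator (fun _ => (1 : ℝ)) t + Gm T t := by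
  have hg : 0 ≤ Gm T t := by unfold Gm; positivity
  by_cases h : t ∈ Icc (-T) T
  · rw [indicator_of_mem h]
    have : MJ1 T t ≤ 1 := by
      unfold MJ1
      rw [Real.exp_le_one_iff]
      have := xs_nonneg T t
      linarith
    linarith
  · rw [indicator_of_notMem h, zero_add]
    refine le_trans ?_ (Gm_ge (t := t) hT)
    unfold MJ1
    apply Real.exp_le_exp.2
    have h1 : T < |t| := by
      by_contra h2
      exact h (abs_le.1 (not_lt.1 h2))
    unfold xs
    rw [max_eq_left (show 0 ≤ |t| - T by linarith), abs_of_pos (show 0 < |t| - T by linarith)]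

theorem MJ1_int {T : ℝ} (hT : 0 ≤ T) : Integrable (MJ1 T) ∧ ∫ t, MJ1 T t ≤ 2 * T + 160 / 3 := by
  obtain ⟨g1, g2⟩ := Gm_int T
  have i1 : Integrable ((Icc (-T) T).indicator (fun _ : ℝ => (1 : ℝ))) := by
    rw [integrable_indicator_iff measurableSet_Icc]
    exact integrableOn_const (by simp)
  have i2 : ∫ t, (Icc (-T) T).indicator (fun _ : ℝ => (1 : ℝ)) t = 2 * T := by
    rw [integral_indicator measurableSet_Icc]
    simp only [integral_const, MeasurableSet.univ, measureReal_restrict_apply, univ_inter, smul_eq_mul, mul_one]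
    rw [Measure.real, Real.volume_Icc, ENNReal.toReal_ofReal (by linarith)]
    ring
  have hI : Integrable (MJ1 T) := by
    refine (i1.add g1).mono' (MJ1_cont T).aestronglyMeasurable (Filter.Eventually.of_forall fun t => ?_)
    rw [Real.norm_of_nonneg (show 0 ≤ MJ1 T t from Real.exp_nonneg _)]
    exact MJ1_le hT t
  refine ⟨hI, ?_⟩
  calc ∫ t, MJ1 T t ≤ ∫ t, ((Icc (-T) T).indicator (fun _ : ℝ => (1 : ℝ)) t + Gm T t) :=
        integral_mono hI (i1.add g1) (fun t => MJ1_le hT t)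
    _ = 2 * T + 160 / 3 := by rw [integral_add i1 g1, i2, g2]

/-- (a), the whole plane -/
theorem MJ_int {T : ℝ} (hT : 0 ≤ T) :
    Integrable (MJ T) ∧ ∫ z, MJ T z ≤ 3000 * (1 + T) ^ 2 * Real.exp (-(3 / 2) * T) := by
  obtain ⟨h1, h2⟩ := MJ1_int hT
  have hp : Integrable (fun z : ℝ × ℝ => MJ1 T z.1 * MJ1 T z.2) := h1.mul_prod h1
  have e : MJ T = fun z => Real.exp (-(3 / 2) * T) * (MJ1 T z.1 * MJ1 T z.2) := funext (MJ_eq T)
  have h0 : 0 ≤ ∫ t, MJ1 T t := integral_nonneg fun t => Real.exp_nonneg _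
  rw [e]
  refine ⟨hp.const_mul _, ?_⟩
  rw [integral_const_mul]
  have e2 : ∫ z : ℝ × ℝ, MJ1 T z.1 * MJ1 T z.2 = (∫ t, MJ1 T t) * ∫ t, MJ1 T t :=
    integral_prod_mul (MJ1 T) (MJ1 T)
  rw [e2, mul_comm]
  apply mul_le_mul_of_nonneg_right _ (Real.exp_nonneg _)
  calc (∫ t, MJ1 T t) * ∫ t, MJ1 T t ≤ (2 * T + 160 / 3) * (2 * T + 160 / 3) :=
        mul_le_mul h2 h2 h0 (by linarith)
    _ ≤ 3000 * (1 + T) ^ 2 := by nlinarith

/-- (a) -/
theorem MJ_lint {T : ℝ} (hT : 0 ≤ T) :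
    ∫⁻ z in FarS T, ENNReal.ofReal (MJ T z) ≤
      ENNReal.ofReal (3000 * (1 + T) ^ 2 * Real.exp (-(3 / 2) * T)) := by
  obtain ⟨f1, f2⟩ := MJ_int hT
  refine (setLIntegral_le_lintegral _ _).trans ?_
  rw [← ofReal_integral_eq_lintegral_ofReal f1 (Filter.Eventually.of_forall fun z => Real.exp_nonneg _)]
  exact ENNReal.ofReal_le_ofReal f2

theorem sq_le_exp {T e : ℝ} (hT : 0 ≤ T) (he : 0 < e) (he1 : e ≤ 1) :
    (1 + T) ^ 2 ≤ 4 / e ^ 2 * Real.exp (e * T) := by
  have h1 : 1 + T ≤ 2 / e * Real.exp (e * T / 2) := by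
    have h2 : e * T / 2 + 1 ≤ Real.exp (e * T / 2) := Real.add_one_le_exp _
    have h3 : 0 < 2 / e := by positivity
    have h4 : 2 ≤ 2 / e := by
      rw [le_div_iff₀ he]; linarith
    have h5 : 2 / e * (e * T / 2 + 1) = T + 2 / e := by field_simp
    have := mul_le_mul_of_nonneg_left h2 h3.le
    linarith
  calc (1 + T) ^ 2 ≤ (2 / e * Real.exp (e * T / 2)) ^ 2 := by
        apply pow_le_pow_left₀ (by linarith) h1
    _ = 4 / e ^ 2 * Real.exp (e * T) := by
        rw [mul_pow, div_pow, ← Real.exp_nat_mul]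
        norm_num
        left
        ring

theorem MJ_lint_eps {T e : ℝ} (hT : 0 ≤ T) (he : 0 < e) (he1 : e ≤ 1) :
    ∫⁻ z in FarS T, ENNReal.ofReal (MJ T z) ≤
      ENNReal.ofReal (12000 / e ^ 2 * Real.exp (-(3 / 2 - e) * T)) := by
  refine (MJ_lint hT).trans (ENNReal.ofReal_le_ofReal ?_)
  have h := sq_le_exp hT he he1
  calc 3000 * (1 + T) ^ 2 * Real.exp (-(3 / 2) * T)
      ≤ 3000 * (4 / e ^ 2 * Real.exp (e * T)) * Real.exp (-(3 / 2) * T) := by
        apply mul_le_mul_of_nonneg_right _ (Real.exp_nonneg _)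
        linarith
    _ = 12000 / e ^ 2 * Real.exp (-(3 / 2 - e) * T) := by
        rw [show -(3 / 2 - e) * T = e * T + -(3 / 2) * T by ring, Real.exp_add]
        ring

/-- (b), the exponent -/
theorem far_exp_le {T t t' p p' : ℝ} (hp : |p| ≤ |t|) (hp' : |p'| ≤ |t'|)
    (h1 : min (|t|) T ≤ |p|) (h1' : min (|t'|) T ≤ |p'|) (hz : (t, t') ∈ FarS T) :
    -|p| - |p'| - |p - p'| / 2 - (3 / 40) * ((|t| - |p|) + (|t'| - |p'|)) ≤
      -(3 / 2) * T - (3 / 40) * (xs T t + xs T t') := by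
  have hx : ∀ s q : ℝ, |q| ≤ |s| → xs T s ≤ (|s| - |q|) + max (|q| - T) 0 := by
    intro s q h
    unfold xs
    apply max_le
    · have := le_max_left (|q| - T) 0
      linarith
    · have := le_max_right (|q| - T) 0
      linarith
  have a1 := hx t p hp
  have a2 := hx t' p' hp'
  have b0 := abs_nonneg p
  have b0' := abs_nonneg p'
  have c1 : |p| - |p'| ≤ |p - p'| := abs_sub_abs_le_abs_sub _ _
  have c2 : |p'| - |p| ≤ |p - p'| := by
    rw [abs_sub_comm]; exact abs_sub_abs_le_abs_sub _ _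
  have hmax : T ≤ max (|p|) (|p'|) := by
    rcases hz with hz | hz
    · have hz' : T < |t| := hz
      rw [min_eq_right hz'.le] at h1
      exact h1.trans (le_max_left _ _)
    · have hz' : T < |t'| := hz
      rw [min_eq_right hz'.le] at h1'
      exact h1'.trans (le_max_right _ _)
  have d : (|p| + |p'|) + |p - p'| / 2 ≥ (3 / 2) * T + (3 / 40) * (max (|p| - T) 0 + max (|p'| - T) 0) := by
    rcases le_total (|p'|) (|p|) with h | h
    · rw [max_eq_left h] at hmax
      rw [max_eq_left (show 0 ≤ |p| - T by linarith)]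
      rcases le_total (|p'|) T with h2 | h2
      · rw [max_eq_right (show |p'| - T ≤ 0 by linarith)]; linarith
      · rw [max_eq_left (show 0 ≤ |p'| - T by linarith)]; linarith
    · rw [max_eq_right h] at hmax
      rw [max_eq_left (show 0 ≤ |p'| - T by linarith)]
      rcases le_total (|p|) T with h2 | h2
      · rw [max_eq_right (show |p| - T ≤ 0 by linarith)]; linarith
      · rw [max_eq_left (show 0 ≤ |p| - T by linarith)]; linarith
  linarith

/-- (b) -/
theorem far_le_MJ {T t t' p p' : ℝ} (hp : |p| ≤ |t|) (hp' : |p'| ≤ |t'|)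
    (h1 : min (|t|) T ≤ |p|) (h1' : min (|t'|) T ≤ |p'|) (hz : (t, t') ∈ FarS T) :
    Real.exp (-|p| - |p'| - |p - p'| / 2 - (3 / 40) * ((|t| - |p|) + (|t'| - |p'|))) ≤ MJ T (t, t') :=
  Real.exp_le_exp.2 (far_exp_le hp hp' h1 h1' hz)

/-- the pinned height satisfies the hypotheses of `far_le_MJ` -/
theorem pin_abs_le_abs {T1 t : ℝ} (hT : 0 ≤ T1) : |pin T1 t| ≤ |t| := by
  have := abs_sub_pin (t := t) hT
  have := xs_nonneg T1 t
  linarith

theorem min_le_pin {T T1 t : ℝ} (hT : 0 ≤ T) (h : T ≤ T1) : min (|t|) T ≤ |pin T1 t| := by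
  have h0 := abs_sub_pin (t := t) (hT.trans h)
  rcases le_total (|t|) T1 with h1 | h1
  · rw [pin_of_le h1]; exact min_le_left _ _
  · unfold xs at h0
    rw [max_eq_left (by linarith)] at h0
    have : |pin T1 t| = T1 := by linarith
    rw [this]
    exact (min_le_right _ _).trans h

/-- off the far set the pinned heights are the heights -/
theorem near_pin {T T1 : ℝ} {z : ℝ × ℝ} (h : T ≤ T1) (hz : z ∉ FarS T) :
    pin T1 z.1 = z.1 ∧ pin T1 z.2 = z.2 ∧ xs T z.1 = 0 ∧ xs T z.2 = 0 := by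
  have hz1 : ¬ (T < |z.1| ∨ T < |z.2|) := hz
  simp only [not_or, not_lt] at hz1
  refine ⟨pin_of_le (hz1.1.trans h), pin_of_le (hz1.2.trans h), ?_, ?_⟩
  · unfold xs; exact max_eq_right (by linarith [hz1.1])
  · unfold xs; exact max_eq_right (by linarith [hz1.2])

/-- (c), general near and far bounds; no measurability of `F` -/
theorem lint_near_far {T A : ℝ} (hT : 0 ≤ T) (hA : 0 ≤ A) {F : ℝ × ℝ → ENNReal}
    (hn : ∀ z, z ∉ FarS T → F z ≤ ENNReal.ofReal (A * QI0 z))
    (hf : ∀ z, z ∈ FarS T → F z ≤ ENNReal.ofReal (A * MJ T z)) :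
    ∫⁻ z, F z ≤ ENNReal.ofReal (A * (4 + 3000 * (1 + T) ^ 2 * Real.exp (-(3 / 2) * T))) := by
  rw [← lintegral_add_compl F (measurableSet_FarS T)]
  have e1 : ∫⁻ z in FarS T, F z ≤ ENNReal.ofReal A *
      ENNReal.ofReal (3000 * (1 + T) ^ 2 * Real.exp (-(3 / 2) * T)) := by
    calc ∫⁻ z in FarS T, F z ≤ ∫⁻ z in FarS T, ENNReal.ofReal A * ENNReal.ofReal (MJ T z) := by
          refine setLIntegral_mono' (measurableSet_FarS T) fun z hz => ?_
          rw [← ENNReal.ofReal_mul hA]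
          exact hf z hz
      _ = ENNReal.ofReal A * ∫⁻ z in FarS T, ENNReal.ofReal (MJ T z) :=
          lintegral_const_mul' _ _ ENNReal.ofReal_ne_top
      _ ≤ _ := mul_le_mul_right (MJ_lint hT) _
  have e2 : ∫⁻ z in (FarS T)ᶜ, F z ≤ ENNReal.ofReal A * 4 := by
    calc ∫⁻ z in (FarS T)ᶜ, F z ≤ ∫⁻ z in (FarS T)ᶜ, ENNReal.ofReal A * ENNReal.ofReal (QI0 z) := by
          refine setLIntegral_mono' (measurableSet_FarS T).compl fun z hz => ?_
          rw [← ENNReal.ofReal_mul hA]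
          exact hn z hz
      _ = ENNReal.ofReal A * ∫⁻ z in (FarS T)ᶜ, ENNReal.ofReal (QI0 z) :=
          lintegral_const_mul' _ _ ENNReal.ofReal_ne_top
      _ ≤ ENNReal.ofReal A * 4 :=
          mul_le_mul_right ((setLIntegral_le_lintegral _ _).trans QI0_lint) _
  calc _ ≤ ENNReal.ofReal A * ENNReal.ofReal (3000 * (1 + T) ^ 2 * Real.exp (-(3 / 2) * T)) +
        ENNReal.ofReal A * 4 := add_le_add e1 e2
    _ = _ := by
        rw [show (4 : ENNReal) = ENNReal.ofReal 4 by norm_num, ← mul_add,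
          ← ENNReal.ofReal_add (by positivity) (by norm_num), ← ENNReal.ofReal_mul hA]
        congr 1
        ring

/-- (c) with different prefactors near and far -/
theorem lint_near_far2 {T A B : ℝ} (hT : 0 ≤ T) (hA : 0 ≤ A) (hB : 0 ≤ B) {F : ℝ × ℝ → ENNReal}
    (hn : ∀ z, z ∉ FarS T → F z ≤ ENNReal.ofReal (A * QI0 z))
    (hf : ∀ z, z ∈ FarS T → F z ≤ ENNReal.ofReal (B * MJ T z)) :
    ∫⁻ z, F z ≤ ENNReal.ofReal (4 * A + B * (3000 * (1 + T) ^ 2 * Real.exp (-(3 / 2) * T))) := by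
  rw [← lintegral_add_compl F (measurableSet_FarS T)]
  have e1 : ∫⁻ z in FarS T, F z ≤ ENNReal.ofReal B *
      ENNReal.ofReal (3000 * (1 + T) ^ 2 * Real.exp (-(3 / 2) * T)) := by
    calc ∫⁻ z in FarS T, F z ≤ ∫⁻ z in FarS T, ENNReal.ofReal B * ENNReal.ofReal (MJ T z) := by
          refine setLIntegral_mono' (measurableSet_FarS T) fun z hz => ?_
          rw [← ENNReal.ofReal_mul hB]
          exact hf z hz
      _ = ENNReal.ofReal B * ∫⁻ z in FarS T, ENNReal.ofReal (MJ T z) :=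
          lintegral_const_mul' _ _ ENNReal.ofReal_ne_top
      _ ≤ _ := mul_le_mul_right (MJ_lint hT) _
  have e2 : ∫⁻ z in (FarS T)ᶜ, F z ≤ ENNReal.ofReal A * 4 := by
    calc ∫⁻ z in (FarS T)ᶜ, F z ≤ ∫⁻ z in (FarS T)ᶜ, ENNReal.ofReal A * ENNReal.ofReal (QI0 z) := by
          refine setLIntegral_mono' (measurableSet_FarS T).compl fun z hz => ?_
          rw [← ENNReal.ofReal_mul hA]
          exact hn z hz
      _ = ENNReal.ofReal A * ∫⁻ z in (FarS T)ᶜ, ENNReal.ofReal (QI0 z) :=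
          lintegral_const_mul' _ _ ENNReal.ofReal_ne_top
      _ ≤ ENNReal.ofReal A * 4 :=
          mul_le_mul_right ((setLIntegral_le_lintegral _ _).trans QI0_lint) _
  calc _ ≤ ENNReal.ofReal B * ENNReal.ofReal (3000 * (1 + T) ^ 2 * Real.exp (-(3 / 2) * T)) +
        ENNReal.ofReal A * 4 := add_le_add e1 e2
    _ = _ := by
        rw [show (4 : ENNReal) = ENNReal.ofReal 4 by norm_num, ← ENNReal.ofReal_mul hB,
          ← ENNReal.ofReal_mul hA, ← ENNReal.ofReal_add (by positivity) (by positivity)]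
        congr 1
        ring

end

end NUGC
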