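import Pool.Agent.NUSea.H0.PinF
import Pool.Agent.NUGC.ClsSp
import Pool.Agent.NUGC.CurEx
import Pool.Agent.NUGC.OneActC
import Pool.Agent.NUGC.PrefMF
import Pool.Agent.NUO.Ranges

/-!
# TARGET-C: the gas in the presence of the objects and of the groups of spectators (statements)

`m = 2 M + 1` rows of each group, sea `NUSea.seaH`, curve `etaC e1 J m m`, parameters `parC M`, a family
`g : Fin n → Gd` of at most two groups of different species (class, line, species, height).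

* `lsG`, `spF`, `obF`: elementary spectators of a group, modulus of the factor of the family, one body
  data with the family;
* `T1C`, `RgC`: end of the window, range of the parameters (`E`: excess of the composite groups, `x`:
  excess of the bare ones beyond `T1C`);
* `oneEC`, `confEC`: exponent of the objects; `enG`: energies with the pinned groups, far constants;
  `prefC`: mean field value, sea terms of the groups at their heights, far factors;
* `CrudeR`, `SharpR`, `S4C`; **`s4C_of : CrudeR → SharpR → S4C`**.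
-/

set_option autoImplicit false

noncomputable section

open MeasureTheory Finset
open scoped ENNReal

namespace NUGC

open NUO NUP1 NUStabP NUDispW
open NUSea.H0 (Gd IG TG cstF)
open NUSp (kG spo qc)

attribute [local instance] NUSea.seaH

/-- elementary spectators of a group -/
def lsG (g : Gd) : List Spt := (kG g.c g.rt).map fun x => (spo g.σ x.1, x.2, g.τ)

/-- modulus of the factor of a family of groups -/
def spF {n : ℕ} (g : Fin n → Gd) (a : Bool) (u : ℂ) : ℝ := ∏ i, spL (lsG (g i)) a u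

/-- the one body data with a family of groups -/
def obF (M : ℕ) (β : ℝ) {n : ℕ} (g : Fin n → Gd) : OB :=
  obC ((M : ℝ) + 1 / 2) M β fun a u => ThN u * spF g a u

/-- the parameters -/
abbrev parC (M : ℕ) : Par := NUSea.O.par0 (2 * M + 1)

/-- logarithm of the number of rows -/
abbrev Lm (M : ℕ) : ℝ := Real.log ((2 * M + 1 : ℕ) : ℝ)

/-- end of the windows of the objects -/
abbrev TWC (ep e1 : ℝ) (M : ℕ) : ℝ := TW ep e1 (2 * M + 1)

/-- end of the window: `E` is the excess of the composite groups -/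
def T1C (ep e1 : ℝ) (M : ℕ) {r : ℕ} (O : Fin r → Xo) (E : ℝ) : ℝ :=
  TWC ep e1 M + max (excS (TWC ep e1 M) O) E

/-- the range of the parameters of one configuration: `N + aX` quanta X, `N + aY` quanta Y -/
structure RgC (ep e1 : ℝ) (M : ℕ) {n : ℕ} (g : Fin n → Gd) (aX aY : ℕ) (ν : ℝ) (N : ℕ) {r : ℕ}
    (O : Fin r → Xo) (E x : ℝ) : Prop where
  n2 : n ≤ 2
  sp : ∀ i j, i ≠ j → (g i).σ ≠ (g j).σ
  ax : aX ≤ 3
  ay : aY ≤ 3
  q : (aX : ℝ) - aY = -∑ i, NUC43.sg (g i).σ * qc (g i).c / 2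
  nu : |ν - (2 * M + 1 : ℕ)| ≤ 2
  hN : N ≤ 4 * M
  hr : r ≤ 2 * N + (aX + aY)
  hc1 : chgO O true ≤ N + aX
  hc2 : chgO O false ≤ N + aY
  E0 : 0 ≤ E
  hE : ∀ i, (g i).c = .w ∨ (g i).c = .d ∨ |(g i).τ| ≤ TWC ep e1 M + E
  x0 : 0 ≤ x
  hx : ∀ i, NUSp.exc (T1C ep e1 M O E) (g i).τ ≤ x

/-- exponent of an object: mean field, slack, current, far factor -/
def oneEC (M : ℕ) (e1 J T' : ℝ) {r : ℕ} (O : Fin r → Xo) (i : Fin r) : ℝ :=
  (2 * M + 1 : ℕ) * mfH (cons (parC M) O i) +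
    (2 * M + 1 : ℕ) * slkK NUMFH.slkh (kd (O i)) (ht (O i)) -
    2 * Real.pi * NUO.wK (kd (O i)) * NUCUR.cur e1 (Tb (Lm M)) J (ht (O i)) + exc T' (ht (O i))

/-- exponent of the objects: one body exponents, `K` per object, energy of the densities, `kap` times
the window energy -/
def confEC (M : ℕ) (e1 J T' K kap : ℝ) {r : ℕ} (O : Fin r → Xo) : ℝ :=
  ∑ i, oneEC M e1 J T' O i + K * r + enC O + kap * win univ (fun i => ht (O i))

/-- energies objects - groups and groups - groups (groups pinned at `T1`), far constants of the groups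
with `p` quanta X, `q` quanta Y in the gas -/
def enG (M : ℕ) {n : ℕ} (g : Fin n → Gd) {r : ℕ} (O : Fin r → Xo) (T1 : ℝ) (p q : ℕ) : ℝ :=
  ∑ i, ∑ d, ES (obSr (parC M).jL (parC M).e (O i)) (TG (fun i => (g i).pin T1) d) +
    1 / 2 * (∑ d, ∑ d', ES (TG (fun i => (g i).pin T1) d) (TG (fun i => (g i).pin T1) d')) +
    cstF T1 g true * ((p : ℝ) - q)

/-- prefactor: mean field value, sea terms of the groups at their true heights, far factors -/
def prefC (M : ℕ) {n : ℕ} (g : Fin n → Gd) (E x Cst : ℝ) : ℝ :=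
  Cst * Real.exp ((2 * (M : ℝ) + 1) ^ 2 * ∫ t, NUMFH.Pd t * NUMFH.vd t) *
    Real.exp ((2 * M + 1 : ℕ) * ∑ i, NUPref.MF (g i).c (g i).w) * Real.exp (37 / 20 * x + 12 / 5 * E)

/-- the left side: tilt and positive gas -/
def lhsC (ep e1 J : ℝ) (M : ℕ) {n : ℕ} (g : Fin n → Gd) (aX aY : ℕ) (ν : ℝ) (N : ℕ) (b' : ℝ) {r : ℕ}
    (O : Fin r → Xo) : ℝ≥0∞ :=
  ENNReal.ofReal (Real.exp (b' * (ν - N))) *
    Z1c (obF M (4 / 3 * (1 - ep)) g) (parC M) (etaC e1 J (2 * M + 1) (2 * M + 1 : ℕ))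
      (etaC' e1 J (2 * M + 1) (2 * M + 1 : ℕ)) O (N + aX - chgO O true) (N + aY - chgO O false)

/-- **the crude bound**: every number of objects, every height of objects and groups, every tilt -/
def CrudeR : Prop :=
  ∃ K Ca : ℝ, 0 ≤ K ∧ 0 ≤ Ca ∧ ∀ kap : ℝ, 0 < kap →
    ∀ ep : ℝ, 0 < ep → ep ≤ 1 / 100 → ∀ e1 : ℝ, 0 < e1 → e1 ≤ 1 / 100 → ∀ J : ℝ, 0 ≤ J →
    ∀ δ : ℝ, 0 < δ → ∃ d Cst : ℝ, 0 < d ∧ 0 ≤ Cst ∧ ∃ M0 : ℕ, ∀ M ≥ M0,
      ∀ (n : ℕ) (g : Fin n → Gd) (aX aY : ℕ) (ν : ℝ) (N : ℕ) (b' : ℝ) (r : ℕ) (O : Fin r → Xo)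
        (E x : ℝ), |b'| ≤ d → RgC ep e1 M g aX aY ν N O E x →
        lhsC ep e1 J M g aX aY ν N b' O ≤
          ENNReal.ofReal (prefC M g E x Cst *
            ((2 * M + 1 : ℕ) : ℝ) ^ (1 / 2 + Ca * (ep + e1) + δ) *
            Real.exp (confEC M e1 J (TWC ep e1 M) K kap O - 1 / 10 * excS (TWC ep e1 M) O +
              enG M g O (T1C ep e1 M O E) (N + aX - chgO O true) (N + aY - chgO O false)))

/-- **the sharp bound**: groups in the window, at most `log m - 2` objects, at heights at most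
`(log m)^2`, `N` near `ν` -/
def SharpR : Prop :=
  ∃ K Ca : ℝ, 0 ≤ K ∧ 0 ≤ Ca ∧ ∀ kap : ℝ, 0 < kap →
    ∀ ep : ℝ, 0 < ep → ep ≤ 1 / 100 → ∀ e1 : ℝ, 0 < e1 → e1 ≤ 1 / 100 → ∀ J : ℝ, 0 ≤ J →
    ∀ δ : ℝ, 0 < δ → ∃ d Cst : ℝ, 0 < d ∧ 0 ≤ Cst ∧ ∃ M0 : ℕ, ∀ M ≥ M0,
      ∀ (n : ℕ) (g : Fin n → Gd) (aX aY : ℕ) (ν : ℝ) (N : ℕ) (b' : ℝ) (r : ℕ) (O : Fin r → Xo)
        (E x : ℝ), |b'| ≤ d → RgC ep e1 M g aX aY ν N O E x →
        (∀ i, |(g i).τ| ≤ TWC ep e1 M) → |ν - N| ≤ Lm M ^ 3 → (r : ℝ) + 2 ≤ Lm M →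
        (∀ i, |ht (O i)| ≤ Lm M ^ 2) →
        lhsC ep e1 J M g aX aY ν N b' O ≤
          ENNReal.ofReal (prefC M g E x Cst * ((2 * M + 1 : ℕ) : ℝ) ^ (Ca * (ep + e1) + δ) *
            Real.exp (confEC M e1 J (TWC ep e1 M) K kap O +
              enG M g O (T1C ep e1 M O E) (N + aX - chgO O true) (N + aY - chgO O false)))

/-- **the gas in the presence of the objects and of the groups** -/
def S4C : Prop :=
  ∃ K Ca : ℝ, 0 ≤ K ∧ 0 ≤ Ca ∧ ∀ kap : ℝ, 0 < kap →
    ∀ ep : ℝ, 0 < ep → ep ≤ 1 / 100 → ∀ e1 : ℝ, 0 < e1 → e1 ≤ 1 / 100 → ∀ J : ℝ, 0 ≤ J →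
    ∀ δ : ℝ, 0 < δ → ∃ d Cst : ℝ, 0 < d ∧ 0 ≤ Cst ∧ ∃ M0 : ℕ, ∀ M ≥ M0,
      ∀ (n : ℕ) (g : Fin n → Gd) (aX aY : ℕ) (ν : ℝ) (N : ℕ) (b' : ℝ) (r : ℕ) (O : Fin r → Xo)
        (E x : ℝ), b' = d ∨ b' = -d → RgC ep e1 M g aX aY ν N O E x →
        lhsC ep e1 J M g aX aY ν N b' O ≤
          ENNReal.ofReal (prefC M g E x Cst * ((2 * M + 1 : ℕ) : ℝ) ^ (Ca * (ep + e1) + δ) *
            (if ∀ i, |(g i).τ| ≤ TWC ep e1 M then 1 else Real.exp (Lm M / 2)) *
            Real.exp (confEC M e1 J (TWC ep e1 M) K kap O +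
              enG M g O (T1C ep e1 M O E) (N + aX - chgO O true) (N + aY - chgO O false)))

/-! ### the proof of `S4C` from the two bounds -/

theorem confEC_add (M : ℕ) (e1 J T' K K' kap : ℝ) {r : ℕ} (O : Fin r → Xo) :
    confEC M e1 J T' (K + K') kap O = confEC M e1 J T' K kap O + K' * r := by
  unfold confEC
  ring

theorem confEC_mono {M : ℕ} {e1 J T' K K' kap : ℝ} (hK : K ≤ K') {r : ℕ} (O : Fin r → Xo) :
    confEC M e1 J T' K kap O ≤ confEC M e1 J T' K' kap O := by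
  unfold confEC
  have : K * (r : ℝ) ≤ K' * r := mul_le_mul_of_nonneg_right hK (Nat.cast_nonneg r)
  linarith

theorem prefC_nonneg {M : ℕ} {n : ℕ} {g : Fin n → Gd} {E x Cst : ℝ} (h : 0 ≤ Cst) :
    0 ≤ prefC M g E x Cst := by
  unfold prefC
  positivity

theorem prefC_mono {M : ℕ} {n : ℕ} {g : Fin n → Gd} {E x Cst Cst' : ℝ} (h : Cst ≤ Cst') :
    prefC M g E x Cst ≤ prefC M g E x Cst' := by
  unfold prefC
  gcongr

theorem prefC_mul {M : ℕ} {n : ℕ} {g : Fin n → Gd} {E x Cst a : ℝ} :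
    prefC M g E x (Cst * a) = prefC M g E x Cst * a := by
  unfold prefC
  ring

/-- **`S4C` from the crude and the sharp bound** -/
theorem s4C_of (hC : CrudeR) (hS : SharpR) : S4C := by
  obtain ⟨K1, Ca1, hK1, hCa1, hC⟩ := hC
  obtain ⟨K2, Ca2, hK2, hCa2, hS⟩ := hS
  refine ⟨max K1 K2 + 1 / 2, max Ca1 Ca2, by have := hK1.trans (le_max_left K1 K2); linarith,
    hCa1.trans (le_max_left _ _), ?_⟩
  intro kap hkap ep hep hep' e1 he1 he1' J hJ δ hδ
  obtain ⟨d1, Cst1, hd1, hCst1, m1, hC⟩ := hC kap hkap ep hep hep' e1 he1 he1' J hJ δ hδ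
  obtain ⟨d2, Cst2, hd2, hCst2, m2, hS⟩ := hS kap hkap ep hep hep' e1 he1 he1' J hJ δ hδ
  set d : ℝ := min (d1 / 2) d2 with hd
  have hd0 : 0 < d := lt_min (by positivity) hd2
  have hdd1 : d ≤ d1 / 2 := min_le_left _ _
  have hdd2 : d ≤ d2 := min_le_right _ _
  obtain ⟨m3, hm3⟩ := log_large (max 20 (1 / d))
  set Cm : ℝ := max Cst1 Cst2 * Real.exp 1 with hCm
  have hCm0 : 0 ≤ max Cst1 Cst2 := hCst1.trans (le_max_left _ _)
  refine ⟨d, Cm, hd0, by positivity, max (max m1 m2) (max m3 3), ?_⟩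
  intro M hM n g aX aY ν N b' r O E x hb' hR
  have hm1 : m1 ≤ M := ((le_max_left _ _).trans (le_max_left _ _)).trans hM
  have hm2 : m2 ≤ M := ((le_max_right _ _).trans (le_max_left _ _)).trans hM
  have hm3' : m3 ≤ 2 * M + 1 := by
    have := ((le_max_left _ _).trans (le_max_right _ _)).trans hM
    omega
  set m : ℕ := 2 * M + 1 with hm
  obtain ⟨L, hL⟩ : ∃ L, L = Lm M := ⟨_, rfl⟩
  have hL' : L = Real.log m := by rw [hL, hm]
  have hL20 : 20 ≤ L := by rw [hL']; exact (le_max_left _ _).trans (hm3 m hm3')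
  have hLd : 1 ≤ d * L := by
    have h := (le_max_right _ _).trans (hm3 m hm3')
    rw [div_le_iff₀ hd0, ← hL'] at h
    linarith
  have hmR : (1 : ℝ) ≤ m := by
    have : 1 ≤ m := by omega
    exact_mod_cast this
  have hmpos : (0 : ℝ) < m := by linarith
  have hbabs : |b'| ≤ d := by
    rcases hb' with h | h
    · rw [h, abs_of_pos hd0]
    · rw [h, abs_neg, abs_of_pos hd0]
  obtain ⟨X, hX⟩ : ∃ X, X = confEC M e1 J (TWC ep e1 M) (max K1 K2) kap O := ⟨_, rfl⟩
  obtain ⟨G, hG⟩ : ∃ G, G = enG M g O (T1C ep e1 M O E) (N + aX - chgO O true)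
    (N + aY - chgO O false) := ⟨_, rfl⟩
  obtain ⟨p, hp⟩ : ∃ p, p = max Ca1 Ca2 * (ep + e1) + δ := ⟨_, rfl⟩
  rw [confEC_add, ← hX, ← hG, ← hp]
  have hmp : (0 : ℝ) ≤ (m : ℝ) ^ p := Real.rpow_nonneg hmpos.le _
  have hpre0 : 0 ≤ prefC M g E x (max Cst1 Cst2) := prefC_nonneg hCm0
  obtain ⟨F, hF⟩ : ∃ F : ℝ, F = if ∀ i, |(g i).τ| ≤ TWC ep e1 M then 1 else
    Real.exp (Lm M / 2) := ⟨_, rfl⟩
  rw [← hF]
  have hF1 : 1 ≤ F := by
    rw [hF]
    split_ifs
    · exact le_rfl
    · rw [Real.one_le_exp_iff, ← hL]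
      linarith
  -- the right side
  have hrhs : ∀ z : ℝ, z ≤ Real.log F + 1 / 2 * r + 1 →
      prefC M g E x (max Cst1 Cst2) * (m : ℝ) ^ p * Real.exp (X + G + z) ≤
        prefC M g E x Cm * (m : ℝ) ^ p * F * Real.exp (X + 1 / 2 * r + G) := by
    intro z hz
    rw [hCm, prefC_mul]
    have h1 : Real.exp (X + G + z) ≤ Real.exp 1 * F * Real.exp (X + 1 / 2 * r + G) := by
      conv_rhs => rw [← Real.exp_log (by linarith : (0 : ℝ) < F)]
      rw [← Real.exp_add, ← Real.exp_add]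
      exact Real.exp_le_exp.2 (by linarith)
    calc _ ≤ prefC M g E x (max Cst1 Cst2) * (m : ℝ) ^ p *
          (Real.exp 1 * F * Real.exp (X + 1 / 2 * r + G)) :=
          mul_le_mul_of_nonneg_left h1 (mul_nonneg hpre0 hmp)
      _ = _ := by ring
  have hlogF : 0 ≤ Real.log F := Real.log_nonneg hF1
  have hr0 : (0 : ℝ) ≤ r := Nat.cast_nonneg r
  -- the crude bound with a gain
  have crude : ∀ b'' : ℝ, |b''| ≤ 2 * d →
      b' * (ν - N) + (1 / 2) * L ≤ b'' * (ν - N) + 1 / 10 * excS (TWC ep e1 M) O +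
        (Real.log F + 1 / 2 * r + 1) →
      lhsC ep e1 J M g aX aY ν N b' O ≤ ENNReal.ofReal (prefC M g E x Cm * (m : ℝ) ^ p * F *
        Real.exp (X + 1 / 2 * r + G)) := by
    intro b'' hb'' hg
    have h := hC M hm1 n g aX aY ν N b'' r O E x (by linarith) hR
    have e1' : lhsC ep e1 J M g aX aY ν N b' O =
        ENNReal.ofReal (Real.exp (b' * (ν - N) - b'' * (ν - N))) *
          lhsC ep e1 J M g aX aY ν N b'' O := by
      unfold lhsC
      rw [← mul_assoc, ← ENNReal.ofReal_mul (Real.exp_pos _).le, ← Real.exp_add]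
      ring_nf
    rw [e1']
    refine (mul_le_mul_right h _).trans ?_
    rw [← ENNReal.ofReal_mul (Real.exp_pos _).le]
    refine ENNReal.ofReal_le_ofReal ?_
    refine le_trans ?_ (hrhs (b' * (ν - N) + (1 / 2) * L - b'' * (ν - N) -
      1 / 10 * excS (TWC ep e1 M) O) (by linarith))
    have h1 : (m : ℝ) ^ (1 / 2 + Ca1 * (ep + e1) + δ) ≤ (m : ℝ) ^ p * Real.exp ((1 / 2) * L) := by
      have h2 : Real.exp ((1 / 2) * L) = (m : ℝ) ^ (1 / 2 : ℝ) := by
        rw [Real.rpow_def_of_pos hmpos, ← hL', mul_comm]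
      rw [h2, ← Real.rpow_add hmpos]
      refine Real.rpow_le_rpow_of_exponent_le hmR ?_
      have : Ca1 * (ep + e1) ≤ max Ca1 Ca2 * (ep + e1) :=
        mul_le_mul_of_nonneg_right (le_max_left _ _) (by linarith)
      rw [hp]
      linarith
    have h3 : confEC M e1 J (TWC ep e1 M) K1 kap O ≤ X := by
      rw [hX]
      exact confEC_mono (le_max_left _ _) O
    rw [← hG]
    calc Real.exp (b' * (ν - N) - b'' * (ν - N)) *
          (prefC M g E x Cst1 * (m : ℝ) ^ (1 / 2 + Ca1 * (ep + e1) + δ) *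
            Real.exp (confEC M e1 J (TWC ep e1 M) K1 kap O - 1 / 10 * excS (TWC ep e1 M) O + G))
        ≤ Real.exp (b' * (ν - N) - b'' * (ν - N)) *
          (prefC M g E x (max Cst1 Cst2) * ((m : ℝ) ^ p * Real.exp ((1 / 2) * L)) *
            Real.exp (X - 1 / 10 * excS (TWC ep e1 M) O + G)) := by
          refine mul_le_mul_of_nonneg_left ?_ (Real.exp_pos _).le
          refine mul_le_mul (mul_le_mul (prefC_mono (le_max_left _ _)) h1
            (Real.rpow_nonneg hmpos.le _) hpre0)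
            (Real.exp_le_exp.2 (by linarith)) (Real.exp_pos _).le ?_
          exact mul_nonneg hpre0 (mul_nonneg hmp (Real.exp_pos _).le)
      _ = prefC M g E x (max Cst1 Cst2) * (m : ℝ) ^ p *
            (Real.exp (b' * (ν - N) - b'' * (ν - N)) * Real.exp ((1 / 2) * L) *
              Real.exp (X - 1 / 10 * excS (TWC ep e1 M) O + G)) := by
          ring
      _ = _ := by
          rw [← Real.exp_add, ← Real.exp_add]
          congr 2
          ring
  have hexc := excS_nonneg (TWC ep e1 M) O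
  by_cases hrL : (r : ℝ) + 2 ≤ L
  · by_cases hnm : |ν - N| ≤ L ^ 3
    · by_cases hht : ∀ i, |ht (O i)| ≤ L ^ 2
      · by_cases hnr : ∀ i, |(g i).τ| ≤ TWC ep e1 M
        · -- the sharp bound
          have h := hS M hm2 n g aX aY ν N b' r O E x (by linarith) hR hnr (by rwa [← hL])
            (by rwa [← hL]) (by rwa [← hL])
          refine h.trans (ENNReal.ofReal_le_ofReal ?_)
          rw [← hG]
          have h1 : (m : ℝ) ^ (Ca2 * (ep + e1) + δ) ≤ (m : ℝ) ^ p := by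
            refine Real.rpow_le_rpow_of_exponent_le hmR ?_
            have : Ca2 * (ep + e1) ≤ max Ca1 Ca2 * (ep + e1) :=
              mul_le_mul_of_nonneg_right (le_max_right _ _) (by linarith)
            rw [hp]
            linarith
          have h3 : confEC M e1 J (TWC ep e1 M) K2 kap O ≤ X := by
            rw [hX]
            exact confEC_mono (le_max_right _ _) O
          refine le_trans ?_ (hrhs 0 (by linarith))
          refine mul_le_mul (mul_le_mul (prefC_mono (le_max_right _ _)) h1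
            (Real.rpow_nonneg hmpos.le _) hpre0)
            (Real.exp_le_exp.2 (by linarith)) (Real.exp_pos _).le
            (mul_nonneg hpre0 hmp)
        · -- a far group
          have hF2 : Real.log F = L / 2 := by
            rw [hF, if_neg hnr, Real.log_exp, ← hL]
          refine crude b' (by linarith) ?_
          rw [hF2]
          linarith
      · -- a far object
        push Not at hht
        obtain ⟨i, hi⟩ := hht
        have h1 := excS_ge (TWC ep e1 M) O i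
        have h2 : TWC ep e1 M ≤ L := by
          unfold TWC TW Tb
          rw [← hm, ← hL']
          have : (1 + 2 * e1 + 2 * ep) ≤ 2 := by linarith
          nlinarith
        exact crude b' (by linarith) (by nlinarith)
    · -- `N` far from `ν`
      push Not at hnm
      rcases le_total 0 (ν - N) with h0 | h0
      · rw [abs_of_nonneg h0] at hnm
        exact crude (b' + d) (by
          have := abs_add_le b' d
          rw [abs_of_pos hd0] at this
          linarith)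
          (by nlinarith [mul_le_mul_of_nonneg_left hnm.le hd0.le, sq_nonneg L, sq_nonneg (L - 1)])
      · rw [abs_of_nonpos h0] at hnm
        exact crude (b' - d) (by
          have := abs_sub b' d
          rw [abs_of_pos hd0] at this
          linarith)
          (by nlinarith [mul_le_mul_of_nonneg_left hnm.le hd0.le, sq_nonneg L, sq_nonneg (L - 1)])
  · -- many objects
    push Not at hrL
    exact crude b' (by linarith) (by linarith)

end NUGC

end
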