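import Pool.Agent.NUGC.S4C
import Pool.Agent.NUGC.Ob1Fac

/-!
# Groups of spectators against the objects, pinned energies (TARGET-C)

`spec_pin`: for an object of height at most `T1`, the modulus of the factor of the groups at their true
heights, times the exponential of the energies with the groups pinned at `T1`, times the share of the
object in the far constants, is at most a constant.
-/

set_option autoImplicit false

noncomputable section

open MeasureTheory Finset
open scoped ENNReal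

namespace NUGC

open NUO NUP1 NUStabP NUDispW
open NUC43 (sg kq)
open NUSea.H0 (Gd IG TG cstF)
open NUSp (kG spo qc)
open NUDirP (Small)
open Pool.Agent.NUM3 (sgn)

attribute [local instance] NUSea.seaH

lemma sgn_beq67 (s a : Bool) : sgn (s == a) = sg s * sg a := by
  cases s <;> cases a <;> norm_num [sgn, sg]

/-- the pinned height and the excess -/
lemma abs_sub_pinT {T1 h τ : ℝ} (hh : |h| ≤ T1) :
    |h - τ| = |h - NUSp.pin T1 τ| + NUSp.exc T1 τ := by
  have hT : 0 ≤ T1 := (abs_nonneg h).trans hh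
  obtain ⟨h1, h2⟩ := abs_le.1 hh
  rcases le_total |τ| T1 with h3 | h3
  · rw [NUSp.pin_of_le h3, NUSp.exc_of_le h3, add_zero]
  · rw [NUSp.exc_of_ge h3]
    rcases le_total 0 τ with h0 | h0
    · rw [abs_of_nonneg h0] at h3 ⊢
      rw [NUSp.pin_of_ge hT h3, abs_of_nonpos (by linarith), abs_of_nonpos (by linarith)]
      ring
    · rw [abs_of_nonpos h0] at h3 ⊢
      rw [NUSp.pin_of_le_neg hT (by linarith), abs_of_nonneg (by linarith),
        abs_of_nonneg (by linarith)]
      ring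

lemma kq_abs67 (k : Kind) : |kq k| ≤ 2 := by
  cases k <;> norm_num [kq]

lemma Ek.q_abs67 (k : Ek) : |k.q| ≤ 2 := by
  cases k <;> norm_num [Ek.q]

/-- one elementary spectator -/
theorem ek_pin : ∃ C : ℝ, 1 ≤ C ∧ ∀ (P : Par), P.e = 1 / 4 → P.jL = 9 / 4 → ∀ (r : ℕ),
    Small 8 P r → ∀ (O : Fin r → Xo) (i : Fin r) (T1 : ℝ), |ht (O i)| ≤ T1 →
    ∀ (a : Bool) (k : Ek) (τ : ℝ),
    facL (Ek.f a k τ) (NUO.cons P O i) *
      Real.exp (ES (obSr P.jL P.e (O i)) (Ek.src a k (NUSp.pin T1 τ))) ≤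
        C * Real.exp (sg (sp (O i)) * kq (kd (O i)) * (2 * (sg a * k.q)) * NUSp.exc T1 τ) := by
  obtain ⟨C, h0, hC⟩ := ES_ek
  refine ⟨CD ^ 2 * Real.exp (C + 8), ?_, fun P he hj r hS O i T1 hT a k τ => ?_⟩
  · have h1 := CD_one
    have h2 := Real.one_le_exp (by linarith : 0 ≤ C + 8)
    nlinarith [mul_nonneg (sub_nonneg.2 h1) (sub_nonneg.2 h1)]
  · have h1 := facL_ek he hj hS O i a k τ
    have h2 := (abs_le.1 (hC (O i) a k (NUSp.pin T1 τ))).2
    rw [sgn_beq67] at h1 h2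
    obtain ⟨A, hA⟩ : ∃ A, A = sg (sp (O i)) * sg a * (kq (kd (O i)) * k.q) := ⟨_, rfl⟩
    rw [← hA] at h1 h2
    obtain ⟨E, hE⟩ : ∃ E, E = ES (obSr P.jL P.e (O i)) (Ek.src a k (NUSp.pin T1 τ)) := ⟨_, rfl⟩
    have hE' : ES (obSr (9 / 4) (1 / 4) (O i)) (Ek.src a k (NUSp.pin T1 τ)) = E := by
      rw [hE, he, hj]
    rw [hE'] at h2
    rw [← hE]
    have hAb : |2 * A| ≤ 8 := by
      rw [hA, abs_mul, abs_mul, abs_mul, abs_mul]
      have s1 : |sg (sp (O i))| = 1 := by cases sp (O i) <;> norm_num [sg]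
      have s2 : |sg a| = 1 := by cases a <;> norm_num [sg]
      have s3 := kq_abs67 (kd (O i))
      have s4 := k.q_abs67
      rw [s1, s2, abs_of_pos (by norm_num : (0 : ℝ) < 2)]
      have : |kq (kd (O i))| * |k.q| ≤ 2 * 2 :=
        mul_le_mul s3 s4 (abs_nonneg _) (by norm_num)
      linarith
    obtain ⟨u, hu⟩ : ∃ u, u = Real.log (Real.cosh (ht (O i) - τ)) := ⟨_, rfl⟩
    obtain ⟨v, hv⟩ : ∃ v, v = Real.log (Real.cosh (ht (O i) - NUSp.pin T1 τ)) := ⟨_, rfl⟩
    rw [← hu] at h1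
    rw [← hv] at h2
    have hd : |u - v - NUSp.exc T1 τ| ≤ 1 := by
      have a1 := abs_sub_pinT (τ := τ) hT
      have l1 := log_cosh_ge (ht (O i) - τ)
      have l2 := log_cosh_le (ht (O i) - τ)
      have l3 := log_cosh_ge (ht (O i) - NUSp.pin T1 τ)
      have l4 := log_cosh_le (ht (O i) - NUSp.pin T1 τ)
      have l5 := Real.log_two_lt_d9
      rw [← hu] at l1 l2
      rw [← hv] at l3 l4
      have l2' := (abs_le.1 l2).2
      have l4' := (abs_le.1 l4).2
      rw [abs_le]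
      constructor <;> linarith
    have hfin : 2 * A * u + E ≤ C + 8 + 2 * A * NUSp.exc T1 τ := by
      have h3 : 2 * A * (u - v - NUSp.exc T1 τ) ≤ 8 := by
        refine (le_abs_self _).trans ?_
        rw [abs_mul]
        calc |2 * A| * |u - v - NUSp.exc T1 τ| ≤ 8 * 1 :=
              mul_le_mul hAb hd (abs_nonneg _) (by norm_num)
          _ = 8 := by norm_num
      nlinarith
    calc facL (Ek.f a k τ) (NUO.cons P O i) * Real.exp E
        ≤ CD ^ 2 * Real.exp (2 * A * u) * Real.exp E :=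
          mul_le_mul_of_nonneg_right h1 (Real.exp_pos _).le
      _ = CD ^ 2 * Real.exp (2 * A * u + E) := by rw [Real.exp_add]; ring
      _ ≤ CD ^ 2 * Real.exp (C + 8 + 2 * A * NUSp.exc T1 τ) := by
          have := CD_pos
          gcongr
      _ = _ := by
          rw [Real.exp_add]
          rw [show 2 * A * NUSp.exc T1 τ =
            sg (sp (O i)) * kq (kd (O i)) * (2 * (sg a * k.q)) * NUSp.exc T1 τ by rw [hA]; ring]
          ring

theorem facL_prod {κ : Type} (s : Finset κ) (F : κ → Bool → ℂ → ℝ) (A : List (Bool × Bool × ℂ)) :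
    facL (fun a u => ∏ d ∈ s, F d a u) A = ∏ d ∈ s, facL (F d) A := by
  unfold facL
  induction A with
  | nil => simp
  | cons c A ih =>
    simp only [List.map_cons, List.prod_cons] at ih ⊢
    rw [ih, Finset.prod_mul_distrib]
    congr 1
    unfold fac
    split_ifs
    · exact Finset.prod_mul_distrib.symm
    · rfl

theorem facL_spL (L : List Spt) (A : List (Bool × Bool × ℂ)) :
    facL (spL L) A = ∏ j : Fin L.length, facL (L.get j).f A := by
  have e : spL L = fun a u => ∏ j : Fin L.length, (L.get j).f a u := by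
    funext a u
    exact (spM_get L a u).symm
  rw [e]
  exact facL_prod _ _ _

/-- the charge of a group -/
theorem sum_q (g : Gd) : ∑ j : Fin (kG g.c g.rt).length,
    2 * (sg (spo g.σ ((kG g.c g.rt).get j).1) * ((kG g.c g.rt).get j).2.q) = sg g.σ * qc g.c := by
  rw [← mul_sum]
  have h := NUSp.srcG_q g.c g.rt g.σ g.τ
  have e : ∑ j : Fin (kG g.c g.rt).length,
      sg (spo g.σ ((kG g.c g.rt).get j).1) * ((kG g.c g.rt).get j).2.q =
      ∑ i, sg (NUSp.srcG g.c g.rt g.σ g.τ i).a * (NUSp.srcG g.c g.rt g.σ g.τ i).q := rfl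
  rw [e, h]
  ring

theorem gq_true (g : Gd) : NUSp.gq true g.G = sg g.σ * qc g.c := by
  unfold Gd.G
  rw [NUSp.gq_grp]
  cases g.σ <;> simp [sg]

/-- one group -/
theorem grp_pin : ∃ C : ℝ, 1 ≤ C ∧ ∀ (P : Par), P.e = 1 / 4 → P.jL = 9 / 4 → ∀ (r : ℕ),
    Small 8 P r → ∀ (O : Fin r → Xo) (i : Fin r) (T1 : ℝ), |ht (O i)| ≤ T1 → ∀ g : Gd,
    facL (spL (lsG g)) (NUO.cons P O i) *
      Real.exp (∑ j, ES (obSr P.jL P.e (O i))
        (NUSp.srcG g.c g.rt g.σ (NUSp.pin T1 g.τ) j)) ≤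
        C * Real.exp (sg (sp (O i)) * kq (kd (O i)) * (NUSp.gq true g.G * NUSp.exc T1 g.τ)) := by
  obtain ⟨C, h1, hC⟩ := ek_pin
  refine ⟨C ^ 3, one_le_pow₀ h1, fun P he hj r hS O i T1 hT g => ?_⟩
  have e1 : facL (spL (lsG g)) (NUO.cons P O i) = ∏ j : Fin (kG g.c g.rt).length,
      facL (Ek.f (spo g.σ ((kG g.c g.rt).get j).1) ((kG g.c g.rt).get j).2 g.τ)
        (NUO.cons P O i) := by
    have e0 : spL (lsG g) = fun a u => ∏ j : Fin (kG g.c g.rt).length,
        Ek.f (spo g.σ ((kG g.c g.rt).get j).1) ((kG g.c g.rt).get j).2 g.τ a u := by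
      funext a u
      unfold spL lsG
      rw [List.map_map, ← List.prod_ofFn]
      congr 1
      conv_lhs => rw [← List.ofFn_get (kG g.c g.rt)]
      rw [List.map_ofFn]
      rfl
    rw [e0]
    exact facL_prod _ _ _
  rw [e1, Real.exp_sum, ← prod_mul_distrib]
  have hC0 : 0 ≤ C := by linarith
  calc ∏ j : Fin (kG g.c g.rt).length,
        facL (Ek.f (spo g.σ ((kG g.c g.rt).get j).1) ((kG g.c g.rt).get j).2 g.τ)
          (NUO.cons P O i) * Real.exp (ES (obSr P.jL P.e (O i))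
            (NUSp.srcG g.c g.rt g.σ (NUSp.pin T1 g.τ) j))
      ≤ ∏ j : Fin (kG g.c g.rt).length, C * Real.exp (sg (sp (O i)) * kq (kd (O i)) *
          (2 * (sg (spo g.σ ((kG g.c g.rt).get j).1) * ((kG g.c g.rt).get j).2.q)) *
            NUSp.exc T1 g.τ) :=
        prod_le_prod (fun j _ => mul_nonneg
          (facL_nonneg (fun s u => Ek.f_nonneg _ _ _ _ _) _) (Real.exp_pos _).le)
          fun j _ => hC P he hj r hS O i T1 hT _ _ _
    _ = C ^ (kG g.c g.rt).length * Real.exp (sg (sp (O i)) * kq (kd (O i)) *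
          (NUSp.gq true g.G * NUSp.exc T1 g.τ)) := by
        rw [prod_mul_distrib, prod_const, card_univ, Fintype.card_fin, ← Real.exp_sum]
        congr 2
        rw [gq_true, ← sum_q, ← sum_mul, ← mul_sum]
        ring
    _ ≤ _ := by
        refine mul_le_mul_of_nonneg_right ?_ (Real.exp_pos _).le
        exact pow_le_pow_right₀ h1 (NUSp.kG_len _ _)

/-- **a family of groups against an object**, pinned energies and far constants -/
theorem spec_pin : ∃ C : ℝ, 1 ≤ C ∧ ∀ (P : Par), P.e = 1 / 4 → P.jL = 9 / 4 → ∀ (r : ℕ),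
    Small 8 P r → ∀ (O : Fin r → Xo) (i : Fin r) (T1 : ℝ), |ht (O i)| ≤ T1 →
    ∀ (n : ℕ) (g : Fin n → Gd), n ≤ 2 →
    facL (spF g) (NUO.cons P O i) *
      Real.exp (∑ d, ES (obSr P.jL P.e (O i)) (TG (fun i => (g i).pin T1) d) -
        cstF T1 g true * (sg (sp (O i)) * kq (kd (O i)))) ≤ C := by
  obtain ⟨C, h1, hC⟩ := grp_pin
  refine ⟨C ^ 2, one_le_pow₀ h1, fun P he hj r hS O i T1 hT n g hn => ?_⟩
  have hC0 : 0 ≤ C := by linarith
  have e1 : facL (spF g) (NUO.cons P O i) =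
      ∏ l, facL (spL (lsG (g l))) (NUO.cons P O i) := facL_prod _ _ _
  have e2 : ∑ d, ES (obSr P.jL P.e (O i)) (TG (fun i => (g i).pin T1) d) =
      ∑ l, ∑ j, ES (obSr P.jL P.e (O i))
        (NUSp.srcG (g l).c (g l).rt (g l).σ (NUSp.pin T1 (g l).τ) j) := NUSea.H0.sum_TG _ _
  have e3 : ∑ l, ∑ j, ES (obSr P.jL P.e (O i))
        (NUSp.srcG (g l).c (g l).rt (g l).σ (NUSp.pin T1 (g l).τ) j) -
        cstF T1 g true * (sg (sp (O i)) * kq (kd (O i))) =
      ∑ l, (∑ j, ES (obSr P.jL P.e (O i))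
        (NUSp.srcG (g l).c (g l).rt (g l).σ (NUSp.pin T1 (g l).τ) j) -
        sg (sp (O i)) * kq (kd (O i)) * (NUSp.gq true (g l).G * NUSp.exc T1 (g l).τ)) := by
    rw [sum_sub_distrib, ← mul_sum]
    unfold cstF
    ring
  rw [e1, e2, e3, Real.exp_sum, ← prod_mul_distrib]
  calc ∏ l, facL (spL (lsG (g l))) (NUO.cons P O i) * Real.exp (∑ j, ES (obSr P.jL P.e (O i))
        (NUSp.srcG (g l).c (g l).rt (g l).σ (NUSp.pin T1 (g l).τ) j) -
        sg (sp (O i)) * kq (kd (O i)) * (NUSp.gq true (g l).G * NUSp.exc T1 (g l).τ))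
      ≤ ∏ _l : Fin n, C := by
        refine prod_le_prod (fun l _ => mul_nonneg (facL_nonneg (fun s u => ?_) _)
          (Real.exp_pos _).le) fun l _ => ?_
        · rw [← spM_get]
          exact spM_nonneg _ _ _
        · have h := hC P he hj r hS O i T1 hT (g l)
          rw [Real.exp_sub, ← mul_div_assoc, div_le_iff₀ (Real.exp_pos _)]
          exact h
    _ = C ^ n := by rw [prod_const, card_univ, Fintype.card_fin]
    _ ≤ C ^ 2 := pow_le_pow_right₀ h1 hn

end NUGC

end
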