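import Pool.Agent.NUGC.ClsR4

/-!
# The class level: sum over the numbers of quanta and the double integral (TARGET-C)

* `CD_sum_val`, `CD1_sum_val`: a bound of the sum over the numbers of the moduli of the integrand of a
  class, at given half quanta, bounds the sum of the moduli of the integrals (no measurability);
* `top_gen`: the same from `R4genU` and the tilted bounds `PerGen` of the choices, any class;
* `top_cF`, `top_cD`: **the final classes**, from the tilted bounds `PerGen` at given half quanta;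
  the constants are uniform in the half quanta, the mean number `ν` and the prefactor `Q` may depend
  on them;
* `top_cF_le`, `top_cD_le`: the same with a real majorant of the integrand.
-/

set_option autoImplicit false
set_option linter.unusedSectionVars false

noncomputable section

open Complex MeasureTheory Finset
open scoped ENNReal

namespace NUGC

open NUO NUP1 NUCR NUP1S NUP1S.Ab NUP1S.AbC NUP1S.AbG NURow NUP1.Leg

/-- sums of upper integrals (functions not assumed measurable) -/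
theorem sum_lint_le' {α ι : Type*} [MeasurableSpace α] (μ : Measure α) (s : Finset ι)
    (f : ι → α → ℝ≥0∞) : ∑ i ∈ s, ∫⁻ x, f i x ∂μ ≤ ∫⁻ x, ∑ i ∈ s, f i x ∂μ := by
  classical
  induction s using Finset.induction_on with
  | empty => simp
  | insert i s hi ih =>
    rw [Finset.sum_insert hi]
    calc ∫⁻ x, f i x ∂μ + ∑ j ∈ s, ∫⁻ x, f j x ∂μ
        ≤ ∫⁻ x, f i x ∂μ + ∫⁻ x, ∑ j ∈ s, f j x ∂μ := by gcongr
      _ ≤ ∫⁻ x, (f i x + ∑ j ∈ s, f j x) ∂μ := le_lintegral_add _ _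
      _ = _ := lintegral_congr fun x => by rw [Finset.sum_insert hi]

/-! ### any class -/

/-- **the sum over the numbers and the double integral of a class** -/
theorem CD_sum_val (c : CD) (X Y : Option O3 → ℂ → ℂ) (α : ℝ) (K : ℕ)
    (lnX : ∀ p p' : ℕ, (Fin p → O3) → (Fin p' → O3) → Fin p → ℝ)
    (lnY : ∀ p p' : ℕ, (Fin p → O3) → (Fin p' → O3) → Fin p' → ℝ) (q : ℝ × ℝ → ℝ≥0∞)
    (h : ∀ᵐ y : ℝ × ℝ, ∑ n ∈ range (K + 1),
      ‖c.Z X Y α n n lnX lnY (vl c.a y.1) (vl c.b y.2)‖ₑ ≤ q y) :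
    ∑ n ∈ range (K + 1), ‖c.val X Y α n n lnX lnY‖ₑ ≤
      ∫⁻ y : ℝ × ℝ, ‖c.pre (vl c.a y.1) (vl c.b y.2)‖ₑ * q y := by
  calc ∑ n ∈ range (K + 1), ‖c.val X Y α n n lnX lnY‖ₑ
      ≤ ∑ n ∈ range (K + 1), ∫⁻ y : ℝ × ℝ, ‖c.pre (vl c.a y.1) (vl c.b y.2)‖ₑ *
        ‖c.Z X Y α n n lnX lnY (vl c.a y.1) (vl c.b y.2)‖ₑ :=
        sum_le_sum fun n _ => c.val_le X Y α n n lnX lnY
    _ ≤ ∫⁻ y : ℝ × ℝ, ∑ n ∈ range (K + 1), ‖c.pre (vl c.a y.1) (vl c.b y.2)‖ₑ *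
        ‖c.Z X Y α n n lnX lnY (vl c.a y.1) (vl c.b y.2)‖ₑ := sum_lint_le' _ _ _
    _ ≤ _ := by
      refine lintegral_mono_ae (h.mono fun y hy => ?_)
      rw [← Finset.mul_sum]
      gcongr

/-- **the sum over the numbers and the integral of a class with one line** -/
theorem CD1_sum_val (c : CD1) (X Y : Option O3 → ℂ → ℂ) (α : ℝ) (K : ℕ)
    (lnX : ∀ p p' : ℕ, (Fin p → O3) → (Fin p' → O3) → Fin p → ℝ)
    (lnY : ∀ p p' : ℕ, (Fin p → O3) → (Fin p' → O3) → Fin p' → ℝ) (q : ℝ → ℝ≥0∞)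
    (h : ∀ᵐ y : ℝ, ∑ n ∈ range (K + 1), ‖c.Z X Y α n n lnX lnY (vl c.a y)‖ₑ ≤ q y) :
    ∑ n ∈ range (K + 1), ‖c.val X Y α n n lnX lnY‖ₑ ≤ ∫⁻ y : ℝ, ‖c.K (vl c.a y)‖ₑ * q y := by
  calc ∑ n ∈ range (K + 1), ‖c.val X Y α n n lnX lnY‖ₑ
      ≤ ∑ n ∈ range (K + 1), ∫⁻ y : ℝ, ‖c.K (vl c.a y)‖ₑ *
        ‖c.Z X Y α n n lnX lnY (vl c.a y)‖ₑ :=
        sum_le_sum fun n _ => c.val_le X Y α n n lnX lnY
    _ ≤ ∫⁻ y : ℝ, ∑ n ∈ range (K + 1), ‖c.K (vl c.a y)‖ₑ *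
        ‖c.Z X Y α n n lnX lnY (vl c.a y)‖ₑ := sum_lint_le' _ _ _
    _ ≤ _ := by
      refine lintegral_mono_ae (h.mono fun y hy => ?_)
      rw [← Finset.mul_sum]
      gcongr

/-- sum of extended moduli -/
theorem sum_enorm_eq {ι : Type*} (s : Finset ι) (f : ι → ℂ) :
    ∑ i ∈ s, ‖f i‖ₑ = ENNReal.ofReal (∑ i ∈ s, ‖f i‖) := by
  rw [ENNReal.ofReal_sum_of_nonneg fun i _ => norm_nonneg _]
  exact sum_congr rfl fun i _ => (ofReal_norm _).symm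

/-- a real bound from an extended one -/
theorem sum_norm_le {ι : Type*} {s : Finset ι} {f : ι → ℂ} {B : ℝ} (hB : 0 ≤ B)
    (h : ∑ i ∈ s, ‖f i‖ₑ ≤ ENNReal.ofReal B) : ∑ i ∈ s, ‖f i‖ ≤ B := by
  rw [sum_enorm_eq] at h
  exact (ENNReal.ofReal_le_ofReal_iff hB).1 h

/-! ### the final classes -/

/-- **The bound of the final class `cF t t'`**: `∑ n ≤ K, ‖val n‖` from the tilted bounds of the
choices at given half quanta. -/
theorem top_cF {C c b c1 c' : ℝ} {k : ℕ} (hC : 0 < C) (hc : 0 < c) (hb : 0 < b) (hc1 : 0 < c1)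
    (hc' : 0 ≤ c') {δ : ℝ} (hδ : 0 < δ) :
    ∃ a0 : ℝ, 0 < a0 ∧ ∀ C' : ℝ, 0 ≤ C' → ∃ L0 : ℝ, ∀ L ≥ L0, ∀ ep : ℝ, 0 < ep → ep ≤ 1 / 100 →
      ∀ e1 : ℝ, 0 < e1 → e1 ≤ 1 / 4 → ∀ J : ℝ, 0 ≤ J →
      Real.exp (-(2 * Real.pi * J)) + 3 * e1 + 3 * ep ≤ a0 →
      ∀ (P : NUO.Par), ParC P → ∀ (β : ℝ), 0 < β → β ≤ 4 / 3 → ∀ (M N : ℕ), M ≤ N →
      ∀ (cc : Bool → ℂ), (∀ a, ‖cc a‖ = 2 * Real.cos l) → ∀ (kF kP kF' kP' : ℂ → ℂ) (t t' : HT)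
        (ν : ℝ × ℝ → ℝ) (d : ℝ) (K : ℕ) (Q : ℝ × ℝ → Bool × Bool → ℝ), 0 < d →
      (∀ y u, 0 ≤ Q y u) →
      ((2 * K + (htM t t' - htD t' + (htM t t' - htD t)) + 1 : ℕ) : ℝ) ≤ Real.exp (2 * L) →
      (∀ᵐ y : ℝ × ℝ, ∀ u : Bool × Bool, (u.1 = true → htP t = true) →
        (u.2 = true → htP t' = true) →
        PerGen C C' c b k c1 c' L ep e1 J (ν y) d K (htM t t' - htD t' + (htM t t' - htD t))
          (TmV u.1.toNat u.2.toNat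
            (obK M N β t t' (vl (htL t) y.1) (vl (htL t') y.2) u.1 u.2) P
            (htM t t' - htD t') (htM t t' - htD t)) (Q y u)) →
      ∑ n ∈ range (K + 1), ‖(cF (XM cc β M N true) (XM cc β M N false) kF kP kF' kP' t t').val
        (XM cc β M N true) (XM cc β M N false) (3 / 5 * l) n n (lX P) (lY P)‖ₑ ≤
        ENNReal.ofReal (4 * (1 + 1 / d) * Real.exp (δ * L)) *
          ∫⁻ y : ℝ × ℝ, ENNReal.ofReal (
            ‖(cF (XM cc β M N true) (XM cc β M N false) kF kP kF' kP' t t').pre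
              (vl (htL t) y.1) (vl (htL t') y.2)‖ *
            ∑ u : Bool × Bool,
              wK cc β M N t t' (vl (htL t) y.1) (vl (htL t') y.2) u.1 u.2 * Q y u) := by
  obtain ⟨a0, ha0, h⟩ := cls_le (k := k) hC hc hb hc1 hc' hδ
  refine ⟨a0, ha0, fun C' hC' => ?_⟩
  obtain ⟨L0, h⟩ := h C' hC'
  refine ⟨L0, fun L hL ep hep hep' e1 he1 he1' J hJ hsm P hP β hβ hβ' M N hMN cc hcc kF kP kF' kP'
    t t' ν d K Q hd hQ hK hPer => ?_⟩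
  set cl : CD := cF (XM cc β M N true) (XM cc β M N false) kF kP kF' kP' t t' with hcl
  have ha : cl.a = htL t := cF_a _ _ _ _ _ _ _ _
  have hb' : cl.b = htL t' := cF_b _ _ _ _ _ _ _ _
  have key := CD_sum_val cl (XM cc β M N true) (XM cc β M N false) (3 / 5 * l) K (lX P) (lY P)
    (fun y => ENNReal.ofReal (4 * (1 + 1 / d) *
      ((∑ u : Bool × Bool, wK cc β M N t t' (vl (htL t) y.1) (vl (htL t') y.2) u.1 u.2 * Q y u) *
        Real.exp (δ * L)))) (by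
      filter_upwards [hPer] with y hy
      rw [sum_enorm_eq, ha, hb']
      refine ENNReal.ofReal_le_ofReal ?_
      exact h L hL ep hep hep' e1 he1 he1' J hJ hsm P hP β hβ hβ' M N hMN cc hcc kF kP kF' kP'
        t t' (vl (htL t) y.1) (vl (htL t') y.2) (by simp [vl]) (by simp [vl]) (ν y) d K (Q y) hd
        (hQ y) hK hy)
  refine key.trans (le_of_eq ?_)
  have h4 : (0 : ℝ) ≤ 4 * (1 + 1 / d) * Real.exp (δ * L) := by positivity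
  rw [← lintegral_const_mul' _ _ ENNReal.ofReal_ne_top]
  refine lintegral_congr fun y => ?_
  have hS : 0 ≤ ∑ u : Bool × Bool,
      wK cc β M N t t' (vl (htL t) y.1) (vl (htL t') y.2) u.1 u.2 * Q y u :=
    sum_nonneg fun u _ => mul_nonneg (wK_nonneg _ _ _ _ _ _ _ _ _ _) (hQ y u)
  rw [ha, hb', ← ofReal_norm, ← ENNReal.ofReal_mul (norm_nonneg _), ← ENNReal.ofReal_mul h4]
  congr 1
  ring

/-- real form of `top_cF` -/
theorem real_of_lint {ι : Type*} {s : Finset ι} {f : ι → ℂ} {α : Type*} [MeasurableSpace α]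
    {μ : Measure α} {A I : ℝ} {F G : α → ℝ} (hA : 0 ≤ A) (hI : 0 ≤ I)
    (h : ∑ i ∈ s, ‖f i‖ₑ ≤ ENNReal.ofReal A * ∫⁻ y, ENNReal.ofReal (F y) ∂μ)
    (hG : ∀ᵐ y ∂μ, F y ≤ G y) (hi : ∫⁻ y, ENNReal.ofReal (G y) ∂μ ≤ ENNReal.ofReal I) :
    ∑ i ∈ s, ‖f i‖ ≤ A * I := by
  refine sum_norm_le (mul_nonneg hA hI) (h.trans ?_)
  rw [ENNReal.ofReal_mul hA]
  gcongr
  exact (lintegral_mono_ae (hG.mono fun y hy => ENNReal.ofReal_le_ofReal hy)).trans hi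

/-- **The bound of the final class `cF t t'`, real form**: with a majorant `G` of the integrand whose
integral is at most `I`. -/
theorem top_cF_le {C c b c1 c' : ℝ} {k : ℕ} (hC : 0 < C) (hc : 0 < c) (hb : 0 < b) (hc1 : 0 < c1)
    (hc' : 0 ≤ c') {δ : ℝ} (hδ : 0 < δ) :
    ∃ a0 : ℝ, 0 < a0 ∧ ∀ C' : ℝ, 0 ≤ C' → ∃ L0 : ℝ, ∀ L ≥ L0, ∀ ep : ℝ, 0 < ep → ep ≤ 1 / 100 →
      ∀ e1 : ℝ, 0 < e1 → e1 ≤ 1 / 4 → ∀ J : ℝ, 0 ≤ J →
      Real.exp (-(2 * Real.pi * J)) + 3 * e1 + 3 * ep ≤ a0 →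
      ∀ (P : NUO.Par), ParC P → ∀ (β : ℝ), 0 < β → β ≤ 4 / 3 → ∀ (M N : ℕ), M ≤ N →
      ∀ (cc : Bool → ℂ), (∀ a, ‖cc a‖ = 2 * Real.cos l) → ∀ (kF kP kF' kP' : ℂ → ℂ) (t t' : HT)
        (ν : ℝ × ℝ → ℝ) (d : ℝ) (K : ℕ) (Q : ℝ × ℝ → Bool × Bool → ℝ), 0 < d →
      (∀ y u, 0 ≤ Q y u) →
      ((2 * K + (htM t t' - htD t' + (htM t t' - htD t)) + 1 : ℕ) : ℝ) ≤ Real.exp (2 * L) →
      (∀ᵐ y : ℝ × ℝ, ∀ u : Bool × Bool, (u.1 = true → htP t = true) →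
        (u.2 = true → htP t' = true) →
        PerGen C C' c b k c1 c' L ep e1 J (ν y) d K (htM t t' - htD t' + (htM t t' - htD t))
          (TmV u.1.toNat u.2.toNat
            (obK M N β t t' (vl (htL t) y.1) (vl (htL t') y.2) u.1 u.2) P
            (htM t t' - htD t') (htM t t' - htD t)) (Q y u)) →
      ∀ (G : ℝ × ℝ → ℝ) (I : ℝ), 0 ≤ I →
      (∀ᵐ y : ℝ × ℝ, ‖(cF (XM cc β M N true) (XM cc β M N false) kF kP kF' kP' t t').pre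
          (vl (htL t) y.1) (vl (htL t') y.2)‖ * ∑ u : Bool × Bool,
            wK cc β M N t t' (vl (htL t) y.1) (vl (htL t') y.2) u.1 u.2 * Q y u ≤ G y) →
      ∫⁻ y, ENNReal.ofReal (G y) ≤ ENNReal.ofReal I →
      ∑ n ∈ range (K + 1), ‖(cF (XM cc β M N true) (XM cc β M N false) kF kP kF' kP' t t').val
        (XM cc β M N true) (XM cc β M N false) (3 / 5 * l) n n (lX P) (lY P)‖ ≤
        4 * (1 + 1 / d) * Real.exp (δ * L) * I := by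
  obtain ⟨a0, ha0, h⟩ := top_cF (k := k) hC hc hb hc1 hc' hδ
  refine ⟨a0, ha0, fun C' hC' => ?_⟩
  obtain ⟨L0, h⟩ := h C' hC'
  refine ⟨L0, fun L hL ep hep hep' e1 he1 he1' J hJ hsm P hP β hβ hβ' M N hMN cc hcc kF kP kF' kP'
    t t' ν d K Q hd hQ hK hPer G I hI hG hi => ?_⟩
  exact real_of_lint (by positivity) hI (h L hL ep hep hep' e1 he1 he1' J hJ hsm P hP β hβ hβ' M N
    hMN cc hcc kF kP kF' kP' t t' ν d K Q hd hQ hK hPer) hG hi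

/-! ### the classes with one line -/

/-- the class with one line: `o = true`: D1, `o = false`: D1' -/
def cDo (o : Bool) (k : ℂ → ℂ) : CD1 := if o then cD k else cD' k

theorem cDo_a (o : Bool) (k : ℂ → ℂ) : (cDo o k).a = -(11 / 4) * l := by
  cases o <;> rfl

theorem cDo_K (o : Bool) (k : ℂ → ℂ) : (cDo o k).K = k := by
  cases o <;> rfl

/-- **The bound of the classes D1 (`o = true`), D1' (`o = false`)** -/
theorem top_cD {C c b c1 c' : ℝ} {k : ℕ} (hC : 0 < C) (hc : 0 < c) (hb : 0 < b) (hc1 : 0 < c1)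
    (hc' : 0 ≤ c') {δ : ℝ} (hδ : 0 < δ) :
    ∃ a0 : ℝ, 0 < a0 ∧ ∀ C' : ℝ, 0 ≤ C' → ∃ L0 : ℝ, ∀ L ≥ L0, ∀ ep : ℝ, 0 < ep → ep ≤ 1 / 100 →
      ∀ e1 : ℝ, 0 < e1 → e1 ≤ 1 / 4 → ∀ J : ℝ, 0 ≤ J →
      Real.exp (-(2 * Real.pi * J)) + 3 * e1 + 3 * ep ≤ a0 →
      ∀ (P : NUO.Par), ParC P → ∀ (β : ℝ), 0 < β → β ≤ 4 / 3 → ∀ (M N : ℕ), M ≤ N →
      ∀ (cc : Bool → ℂ), (∀ a, ‖cc a‖ = 2 * Real.cos l) → ∀ (kD : ℂ → ℂ) (o : Bool)
        (ν : ℝ → ℝ) (d : ℝ) (K : ℕ) (Q : ℝ → ℝ), 0 < d → (∀ y, 0 ≤ Q y) →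
      ((2 * K + 1 : ℕ) : ℝ) ≤ Real.exp (2 * L) →
      (∀ᵐ y : ℝ, PerCof C C' c b k c1 c' L ep e1 J (ν y) d K
        (obD M N β o (vl (-(11 / 4) * l) y)) P 0 0 (Q y)) →
      ∑ n ∈ range (K + 1), ‖(cDo o kD).val
        (XM cc β M N true) (XM cc β M N false) (3 / 5 * l) n n (lX P) (lY P)‖ₑ ≤
        ENNReal.ofReal (4 * (1 + 1 / d) * Real.exp (δ * L)) *
          ∫⁻ y : ℝ, ENNReal.ofReal (‖kD (vl (-(11 / 4) * l) y)‖ * Q y) := by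
  obtain ⟨a0, ha0, h⟩ := glue_class (k := k) hC hc hb hc1 hc' hδ
  refine ⟨a0, ha0, fun C' hC' => ?_⟩
  obtain ⟨L0, h⟩ := h C' hC'
  refine ⟨L0, fun L hL ep hep hep' e1 he1 he1' J hJ hsm P hP β hβ hβ' M N hMN cc hcc kD o ν d K Q
    hd hQ hK hPer => ?_⟩
  have hR : ∀ w : ℂ, w.re = -(11 / 4) * l → R4Cof ep (obD M N β o w) P 0 0
      (fun n => (cDo o kD).Z (XM cc β M N true) (XM cc β M N false) (3 / 5 * l) n n
        (lX P) (lY P) w) := by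
    intro w hw
    have key := r4_cD (x := ep) hP hep hep' hβ hβ' hMN hcc kD hw
    cases o
    · exact key.2
    · exact key.1
  have key := CD1_sum_val (cDo o kD) (XM cc β M N true) (XM cc β M N false) (3 / 5 * l) K
    (lX P) (lY P) (fun y => ENNReal.ofReal (4 * (1 + 1 / d) * (Q y * Real.exp (δ * L)))) (by
      filter_upwards [hPer] with y hy
      rw [sum_enorm_eq, cDo_a]
      refine ENNReal.ofReal_le_ofReal ?_
      exact h L hL ep hep.le (hep'.trans (by norm_num)) e1 he1 he1' J hJ hsm (ν y) d (Q y) K 0 0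
        _ P _ hd (hQ y) (by simpa using hK) (hR (vl (-(11 / 4) * l) y) (by simp [vl])) hy)
  refine key.trans (le_of_eq ?_)
  have h4 : (0 : ℝ) ≤ 4 * (1 + 1 / d) * Real.exp (δ * L) := by positivity
  rw [← lintegral_const_mul' _ _ ENNReal.ofReal_ne_top]
  refine lintegral_congr fun y => ?_
  rw [cDo_a, cDo_K, ← ofReal_norm, ← ENNReal.ofReal_mul (norm_nonneg _), ← ENNReal.ofReal_mul h4]
  congr 1
  ring

/-- **The bound of the classes D1, D1', real form** -/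
theorem top_cD_le {C c b c1 c' : ℝ} {k : ℕ} (hC : 0 < C) (hc : 0 < c) (hb : 0 < b) (hc1 : 0 < c1)
    (hc' : 0 ≤ c') {δ : ℝ} (hδ : 0 < δ) :
    ∃ a0 : ℝ, 0 < a0 ∧ ∀ C' : ℝ, 0 ≤ C' → ∃ L0 : ℝ, ∀ L ≥ L0, ∀ ep : ℝ, 0 < ep → ep ≤ 1 / 100 →
      ∀ e1 : ℝ, 0 < e1 → e1 ≤ 1 / 4 → ∀ J : ℝ, 0 ≤ J →
      Real.exp (-(2 * Real.pi * J)) + 3 * e1 + 3 * ep ≤ a0 →
      ∀ (P : NUO.Par), ParC P → ∀ (β : ℝ), 0 < β → β ≤ 4 / 3 → ∀ (M N : ℕ), M ≤ N →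
      ∀ (cc : Bool → ℂ), (∀ a, ‖cc a‖ = 2 * Real.cos l) → ∀ (kD : ℂ → ℂ) (o : Bool)
        (ν : ℝ → ℝ) (d : ℝ) (K : ℕ) (Q : ℝ → ℝ), 0 < d → (∀ y, 0 ≤ Q y) →
      ((2 * K + 1 : ℕ) : ℝ) ≤ Real.exp (2 * L) →
      (∀ᵐ y : ℝ, PerCof C C' c b k c1 c' L ep e1 J (ν y) d K
        (obD M N β o (vl (-(11 / 4) * l) y)) P 0 0 (Q y)) →
      ∀ (G : ℝ → ℝ) (I : ℝ), 0 ≤ I →
      (∀ᵐ y : ℝ, ‖kD (vl (-(11 / 4) * l) y)‖ * Q y ≤ G y) →
      ∫⁻ y, ENNReal.ofReal (G y) ≤ ENNReal.ofReal I →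
      ∑ n ∈ range (K + 1), ‖(cDo o kD).val
        (XM cc β M N true) (XM cc β M N false) (3 / 5 * l) n n (lX P) (lY P)‖ ≤
        4 * (1 + 1 / d) * Real.exp (δ * L) * I := by
  obtain ⟨a0, ha0, h⟩ := top_cD (k := k) hC hc hb hc1 hc' hδ
  refine ⟨a0, ha0, fun C' hC' => ?_⟩
  obtain ⟨L0, h⟩ := h C' hC'
  refine ⟨L0, fun L hL ep hep hep' e1 he1 he1' J hJ hsm P hP β hβ hβ' M N hMN cc hcc kD o ν d K Q
    hd hQ hK hPer G I hI hG hi => ?_⟩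
  exact real_of_lint (by positivity) hI (h L hL ep hep hep' e1 he1 he1' J hJ hsm P hP β hβ hβ' M N
    hMN cc hcc kD o ν d K Q hd hQ hK hPer) hG hi

end NUGC

end
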